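import Pool.Agent.Lib.MP_4850ea_gt.GK.ADefs

/-! A2: `expS`, `thetaS`, `Gam`. -/

namespace GK4850

open PowerSeries

section
variable {B : Type} [CommRing B]

theorem coeff_thetaS (a : B⟦X⟧) (d : ℕ) : coeff d (thetaS a) = (d : B) * coeff d a := by
  simp [thetaS]

theorem thetaS_add (a b : B⟦X⟧) : thetaS (a + b) = thetaS a + thetaS b := by
  ext d; simp [coeff_thetaS, mul_add]

theorem thetaS_neg (a : B⟦X⟧) : thetaS (-a) = -thetaS a := by
  ext d; simp [coeff_thetaS]

theorem thetaS_sub (a b : B⟦X⟧) : thetaS (a - b) = thetaS a - thetaS b := by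
  ext d; simp [coeff_thetaS, mul_sub]

theorem thetaS_zero : thetaS (0 : B⟦X⟧) = 0 := by
  ext d; simp [coeff_thetaS]

theorem thetaS_mul (a b : B⟦X⟧) : thetaS (a * b) = thetaS a * b + a * thetaS b := by
  ext d
  simp only [coeff_thetaS, map_add, coeff_mul, Finset.mul_sum, ← Finset.sum_add_distrib]
  refine Finset.sum_congr rfl fun x hx => ?_
  have := Finset.HasAntidiagonal.mem_antidiagonal.1 hx
  rw [← this]; push_cast; ring

theorem thetaS_C (c : B) : thetaS (C c : B⟦X⟧) = 0 := by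
  ext d
  rw [coeff_thetaS, coeff_C]
  split_ifs with h
  · simp [h]
  · simp

theorem thetaS_one : thetaS (1 : B⟦X⟧) = 0 := by
  simpa using thetaS_C (1 : B)

theorem thetaS_C_mul (c : B) (a : B⟦X⟧) : thetaS (C c * a) = C c * thetaS a := by
  rw [thetaS_mul, thetaS_C]; simp

theorem thetaS_X_pow (k : ℕ) : thetaS (X ^ k : B⟦X⟧) = (k : B⟦X⟧) * X ^ k := by
  ext d
  rw [coeff_thetaS, ← map_natCast (C : B →+* B⟦X⟧), coeff_C_mul, coeff_X_pow]
  split_ifs with h
  · simp [h]
  · simp

theorem thetaS_sum {ι : Type} (s : Finset ι) (f : ι → B⟦X⟧) :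
    thetaS (∑ i ∈ s, f i) = ∑ i ∈ s, thetaS (f i) := by
  ext d; simp [coeff_thetaS, Finset.mul_sum]

theorem thetaS_pow_succ (a : B⟦X⟧) (k : ℕ) :
    thetaS (a ^ (k + 1)) = ((k : B⟦X⟧) + 1) * (thetaS a * a ^ k) := by
  induction k with
  | zero => simp
  | succ k ih => rw [pow_succ, thetaS_mul, ih]; push_cast; ring

theorem thetaS_map {B' : Type} [CommRing B'] (f : B →+* B') (a : B⟦X⟧) :
    thetaS (PowerSeries.map f a) = PowerSeries.map f (thetaS a) := by
  ext d; simp [coeff_thetaS]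

theorem coeff_zero_thetaS (a : B⟦X⟧) : coeff 0 (thetaS a) = 0 := by
  simp [coeff_thetaS]

theorem coeff_pow_eq_zero {a : B⟦X⟧} (ha : coeff 0 a = 0) {d k : ℕ} (h : d < k) :
    coeff d (a ^ k) = 0 := by
  have : (X : B⟦X⟧) ∣ a := X_dvd_iff.2 (by simpa using ha)
  exact X_pow_dvd_iff.1 (pow_dvd_pow_of_dvd this k) d h

/-- coefficients of a product depend only on lower coefficients -/
theorem coeff_mul_congr {a a' b b' : B⟦X⟧} {d : ℕ} (ha : ∀ j ≤ d, coeff j a = coeff j a')
    (hb : ∀ j ≤ d, coeff j b = coeff j b') : coeff d (a * b) = coeff d (a' * b') := by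
  rw [coeff_mul, coeff_mul]
  refine Finset.sum_congr rfl fun x hx => ?_
  have := Finset.HasAntidiagonal.mem_antidiagonal.1 hx
  rw [ha _ (by omega), hb _ (by omega)]

theorem coeff_mul_mem (T : Subring B) {a b : B⟦X⟧} {d : ℕ} (ha : ∀ j ≤ d, coeff j a ∈ T)
    (hb : ∀ j ≤ d, coeff j b ∈ T) : coeff d (a * b) ∈ T := by
  rw [coeff_mul]
  refine T.sum_mem fun x hx => ?_
  have := Finset.HasAntidiagonal.mem_antidiagonal.1 hx
  exact T.mul_mem (ha _ (by omega)) (hb _ (by omega))

theorem coeff_mul_rel {B' : Type} [CommRing B'] (T : Subring (B × B')) {a b : B⟦X⟧}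
    {a' b' : B'⟦X⟧} {d : ℕ} (ha : ∀ j ≤ d, (coeff j a, coeff j a') ∈ T)
    (hb : ∀ j ≤ d, (coeff j b, coeff j b') ∈ T) :
    (coeff d (a * b), coeff d (a' * b')) ∈ T := by
  rw [coeff_mul, coeff_mul]
  have : (∑ p ∈ Finset.HasAntidiagonal.antidiagonal d, coeff p.1 a * coeff p.2 b,
      ∑ p ∈ Finset.HasAntidiagonal.antidiagonal d, coeff p.1 a' * coeff p.2 b') =
      ∑ p ∈ Finset.HasAntidiagonal.antidiagonal d, (coeff p.1 a, coeff p.1 a') * (coeff p.2 b, coeff p.2 b') := by
    ext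
    · simp [Prod.fst_sum]
    · simp [Prod.snd_sum]
  rw [this]
  refine T.sum_mem fun x hx => ?_
  have := Finset.HasAntidiagonal.mem_antidiagonal.1 hx
  exact T.mul_mem (ha _ (by omega)) (hb _ (by omega))

/-- splitting off the top term of the right factor -/
theorem coeff_mul_split (a b : B⟦X⟧) (d : ℕ) :
    coeff d (a * b) = coeff 0 a * coeff d b +
      ∑ j ∈ Finset.range d, coeff (d - j) a * coeff j b := by
  rw [mul_comm, coeff_mul, Finset.Nat.sum_antidiagonal_eq_sum_range_succ_mk,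
    Finset.sum_range_succ, add_comm]
  simp [mul_comm]

variable [Algebra ℚ B]

theorem coeff_zero_expS (a : B⟦X⟧) : coeff 0 (expS a) = 1 := by
  simp [expS]

/-- truncated exponential -/
noncomputable def expT (a : B⟦X⟧) (N : ℕ) : B⟦X⟧ :=
  ∑ k ∈ Finset.range (N + 1), C (algebraMap ℚ B ((k.factorial : ℚ)⁻¹)) * a ^ k

theorem coeff_expS_eq {a : B⟦X⟧} (ha : coeff 0 a = 0) {d N : ℕ} (h : d ≤ N) :
    coeff d (expS a) = coeff d (expT a N) := by
  simp only [expS, expT, coeff_mk, map_sum, coeff_C_mul, ← Algebra.smul_def]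
  refine Finset.sum_subset (by intro x; simp; omega) fun k _ hk => ?_
  rw [coeff_pow_eq_zero ha (by simpa using hk), smul_zero]

theorem thetaS_expT (a : B⟦X⟧) (N : ℕ) : thetaS (expT a (N + 1)) = thetaS a * expT a N := by
  rw [expT, thetaS_sum, Finset.sum_range_succ', expT, Finset.mul_sum]
  simp only [pow_zero, mul_one, thetaS_C, add_zero]
  refine Finset.sum_congr rfl fun k _ => ?_
  rw [thetaS_C_mul, thetaS_pow_succ]
  have : C (algebraMap ℚ B (((k + 1).factorial : ℚ)⁻¹)) * ((k : B⟦X⟧) + 1) =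
      C (algebraMap ℚ B ((k.factorial : ℚ)⁻¹)) := by
    have h1 : ((k : B⟦X⟧) + 1) = C (algebraMap ℚ B ((k : ℚ) + 1)) := by simp
    rw [h1, ← map_mul, ← map_mul, Nat.factorial_succ]
    congr 2
    have : (k.factorial : ℚ) ≠ 0 := by positivity
    push_cast; field_simp
  rw [← mul_assoc, this]; ring

theorem thetaS_expS {a : B⟦X⟧} (ha : coeff 0 a = 0) : thetaS (expS a) = thetaS a * expS a := by
  ext d
  rw [coeff_thetaS, coeff_expS_eq ha (Nat.le_succ d), ← coeff_thetaS, thetaS_expT]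
  exact coeff_mul_congr (fun _ _ => rfl) fun j hj => (coeff_expS_eq ha hj).symm

theorem eq_of_natCast_mul {d : ℕ} (hd : d ≠ 0) {x y : B} (h : (d : B) * x = y) :
    x = algebraMap ℚ B ((d : ℚ)⁻¹) * y := by
  have h1 : (d : B) = algebraMap ℚ B d := by simp
  have : (d : ℚ) ≠ 0 := by exact_mod_cast hd
  rw [← h, h1, ← mul_assoc, ← map_mul, inv_mul_cancel₀ this]; simp

theorem coeff_of_thetaS {v E : B⟦X⟧} (hv : coeff 0 v = 0) (h : thetaS E = v * E) {d : ℕ}
    (hd : d ≠ 0) : coeff d E = algebraMap ℚ B ((d : ℚ)⁻¹) *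
      ∑ j ∈ Finset.range d, coeff (d - j) v * coeff j E := by
  apply eq_of_natCast_mul hd
  rw [← coeff_thetaS, h, coeff_mul_split, hv]; simp

/-- uniqueness for `θ E = v E` -/
theorem eq_of_thetaS {v E E' : B⟦X⟧} (hv : coeff 0 v = 0) (h : thetaS E = v * E)
    (h' : thetaS E' = v * E') (h0 : coeff 0 E = coeff 0 E') : E = E' := by
  ext d
  induction d using Nat.strong_induction_on with
  | _ d ih =>
    rcases eq_or_ne d 0 with rfl | hd
    · exact h0
    rw [coeff_of_thetaS hv h hd, coeff_of_thetaS hv h' hd]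
    congr 1
    exact Finset.sum_congr rfl fun j hj => by rw [ih j (Finset.mem_range.1 hj)]

theorem expS_zero : expS (0 : B⟦X⟧) = 1 := by
  refine eq_of_thetaS (v := 0) (by simp) ?_ ?_ (by simp [coeff_zero_expS])
  · rw [thetaS_expS (by simp), thetaS_zero]
  · simp [thetaS_one]

theorem expS_add {a b : B⟦X⟧} (ha : coeff 0 a = 0) (hb : coeff 0 b = 0) :
    expS (a + b) = expS a * expS b := by
  refine eq_of_thetaS (v := thetaS (a + b)) (coeff_zero_thetaS _)
    (thetaS_expS (by rw [map_add, ha, hb, add_zero])) ?_ ?_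
  · rw [thetaS_mul, thetaS_expS ha, thetaS_expS hb, thetaS_add]; ring
  · rw [coeff_zero_mul_eq, coeff_zero_expS, coeff_zero_expS, coeff_zero_expS, one_mul]
where
  coeff_zero_mul_eq : ∀ {x y : B⟦X⟧}, coeff 0 (x * y) = coeff 0 x * coeff 0 y := by
    intro x y; simp

theorem expS_mul_expS_neg {a : B⟦X⟧} (ha : coeff 0 a = 0) : expS a * expS (-a) = 1 := by
  rw [← expS_add ha (by rw [map_neg, ha, neg_zero]), add_neg_cancel, expS_zero]

/-- `expS` respects every subring of pairs (membership, congruences, evaluation) -/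
theorem expS_rel {B' : Type} [CommRing B'] [Algebra ℚ B'] (T : Subring (B × B'))
    (hT : ∀ q : ℚ, (algebraMap ℚ B q, algebraMap ℚ B' q) ∈ T) (a : B⟦X⟧) (a' : B'⟦X⟧) (d : ℕ)
    (h : ∀ j ≤ d, (coeff j a, coeff j a') ∈ T) : (coeff d (expS a), coeff d (expS a')) ∈ T := by
  have hp : ∀ k, ∀ j ≤ d, (coeff j (a ^ k), coeff j (a' ^ k)) ∈ T := by
    intro k
    induction k with
    | zero =>
      intro j _
      simp only [pow_zero, coeff_one]
      split_ifs
      · exact T.one_mem
      · exact T.zero_mem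
    | succ k ih =>
      intro j hj
      rw [pow_succ, pow_succ]
      exact coeff_mul_rel T (fun i hi => ih i (hi.trans hj)) fun i hi => h i (hi.trans hj)
  have : (coeff d (expS a), coeff d (expS a')) = ∑ k ∈ Finset.range (d + 1),
      (algebraMap ℚ B ((k.factorial : ℚ)⁻¹), algebraMap ℚ B' ((k.factorial : ℚ)⁻¹)) *
        (coeff d (a ^ k), coeff d (a' ^ k)) := by
    ext
    · simp [expS, Prod.fst_sum, Algebra.smul_def]
    · simp [expS, Prod.snd_sum, Algebra.smul_def]
  rw [this]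
  exact T.sum_mem fun k _ => T.mul_mem (hT _) (hp k d le_rfl)

theorem expS_mem (T : Subring B) (hT : ∀ q : ℚ, algebraMap ℚ B q ∈ T) (a : B⟦X⟧) (d : ℕ)
    (h : ∀ j ≤ d, coeff j a ∈ T) : coeff d (expS a) ∈ T := by
  have := expS_rel (T.prod T) (fun q => ⟨hT q, hT q⟩) a a d fun j hj => ⟨h j hj, h j hj⟩
  exact this.1

theorem expS_congr {a a' : B⟦X⟧} (ha : coeff 0 a = 0) (ha' : coeff 0 a' = 0) {d : ℕ}
    (h : ∀ j < d, coeff j a = coeff j a') :
    (∀ j < d, coeff j (expS a) = coeff j (expS a')) ∧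
      coeff d (expS a) - coeff d (expS a') = coeff d a - coeff d a' := by
  have h1 : ∀ j < d, coeff j (expS a) = coeff j (expS a') := by
    intro j
    induction j using Nat.strong_induction_on with
    | _ j ih =>
      intro hj
      rcases eq_or_ne j 0 with rfl | hj0
      · rw [coeff_zero_expS, coeff_zero_expS]
      rw [coeff_of_thetaS (coeff_zero_thetaS _) (thetaS_expS ha) hj0,
        coeff_of_thetaS (coeff_zero_thetaS _) (thetaS_expS ha') hj0]
      congr 1
      refine Finset.sum_congr rfl fun i hi => ?_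
      have hi := Finset.mem_range.1 hi
      rw [ih i hi (by omega), coeff_thetaS, coeff_thetaS, h _ (by omega)]
  refine ⟨h1, ?_⟩
  rcases eq_or_ne d 0 with rfl | hd
  · rw [coeff_zero_expS, coeff_zero_expS, ha, ha']; simp
  have h2 : (d : B) * (coeff d (expS a) - coeff d (expS a')) =
      (d : B) * (coeff d a - coeff d a') := by
    obtain ⟨e, rfl⟩ := Nat.exists_eq_succ_of_ne_zero hd
    rw [mul_sub, ← coeff_thetaS, ← coeff_thetaS, thetaS_expS ha, thetaS_expS ha', coeff_mul_split,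
      coeff_mul_split, coeff_zero_thetaS, coeff_zero_thetaS, Finset.sum_range_succ',
      Finset.sum_range_succ', coeff_zero_expS, coeff_zero_expS]
    have : ∑ k ∈ Finset.range e, coeff (e.succ - (k + 1)) (thetaS a) * coeff (k + 1) (expS a) =
        ∑ k ∈ Finset.range e, coeff (e.succ - (k + 1)) (thetaS a') * coeff (k + 1) (expS a') := by
      refine Finset.sum_congr rfl fun k hk => ?_
      have hk := Finset.mem_range.1 hk
      rw [h1 _ (by omega), coeff_thetaS, coeff_thetaS, h _ (by omega)]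
    rw [this]
    simp only [Nat.sub_zero, coeff_thetaS]
    ring
  rw [eq_of_natCast_mul hd h2, ← eq_of_natCast_mul hd rfl]

/-- solutions of `θ r = s r` stay in a subring -/
theorem mem_of_thetaS (T : Subring B) (hT : ∀ q : ℚ, algebraMap ℚ B q ∈ T) {s E : B⟦X⟧}
    (hs0 : coeff 0 s = 0) (h : thetaS E = s * E) (h0 : coeff 0 E ∈ T) (hs : ∀ j, coeff j s ∈ T)
    (d : ℕ) : coeff d E ∈ T := by
  induction d using Nat.strong_induction_on with
  | _ d ih =>
    rcases eq_or_ne d 0 with rfl | hd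
    · exact h0
    rw [coeff_of_thetaS hs0 h hd]
    exact T.mul_mem (hT _) (T.sum_mem fun j hj => T.mul_mem (hs _) (ih j (Finset.mem_range.1 hj)))

theorem expS_map {B' : Type} [CommRing B'] [Algebra ℚ B'] (f : B →+* B') (a : B⟦X⟧) :
    expS (PowerSeries.map f a) = PowerSeries.map f (expS a) := by
  ext d
  simp only [expS, coeff_mk, coeff_map, map_sum, ← map_pow, map_rat_smul]
end

section
variable {L : Type} [Field L]

theorem Gam_zero (B w : L) : Gam B w 0 = 1 := by simp [Gam]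

theorem Gam_natCast (B w : L) (m : ℕ) :
    Gam B w m = (∏ k ∈ Finset.Icc 1 m, (B + (k : L) * w))⁻¹ := by simp [Gam]

theorem Gam_neg_natCast (B w : L) (m : ℕ) :
    Gam B w (-(m : ℤ)) = ∏ k ∈ Finset.range m, (B - (k : L) * w) := by
  rcases eq_or_ne m 0 with rfl | hm
  · simp [Gam]
  · have : ¬ (0 : ℤ) ≤ -(m : ℤ) := by omega
    simp only [Gam, this, if_false, neg_neg, Int.toNat_natCast]

theorem Gam_ne_zero {B w : L} (h : ∀ k : ℤ, B + k * w ≠ 0) (m : ℤ) : Gam B w m ≠ 0 := by
  unfold Gam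
  split_ifs
  · exact inv_ne_zero (Finset.prod_ne_zero_iff.2 fun k _ => by simpa using h k)
  · exact Finset.prod_ne_zero_iff.2 fun k _ => by simpa [sub_eq_add_neg] using h (-k)

theorem Gam_succ {B w : L} (h : ∀ k : ℤ, B + k * w ≠ 0) (m : ℤ) :
    Gam B w (m + 1) * (B + ((m + 1 : ℤ) : L) * w) = Gam B w m := by
  obtain ⟨k, rfl | rfl⟩ := Int.eq_nat_or_neg m
  · have h1 : ((k : ℤ) + 1) = ((k + 1 : ℕ) : ℤ) := by push_cast; ring
    rw [h1, Gam_natCast, Gam_natCast, Finset.prod_Icc_succ_top (by omega), mul_inv]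
    have := h ((k + 1 : ℕ) : ℤ)
    rw [Int.cast_natCast] at this ⊢
    rw [mul_assoc, inv_mul_cancel₀ this, mul_one]
  · rcases k with _ | k
    · have := h 1
      have h2 := Gam_natCast B w 1
      simp only [Nat.cast_zero, neg_zero, zero_add, Gam_zero]
      simp only [Nat.cast_one, Finset.Icc_self, Finset.prod_singleton] at h2
      rw [h2]
      push_cast at this ⊢
      exact inv_mul_cancel₀ this
    · have h1 : (-((k + 1 : ℕ) : ℤ) + 1) = -(k : ℤ) := by push_cast; ring
      rw [h1, Gam_neg_natCast, Gam_neg_natCast, Finset.prod_range_succ]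
      push_cast; ring

theorem Gam_add {B w : L} (h : ∀ k : ℤ, B + k * w ≠ 0) (m m' : ℤ) :
    Gam B w (m + m') = Gam B w m * Gam (B + m * w) w m' := by
  have h' : ∀ k : ℤ, B + m * w + k * w ≠ 0 := fun k => by
    have := h (m + k); push_cast at this; intro h0; apply this; rw [← h0]; ring
  have key : ∀ k : ℤ, Gam B w (m + (k + 1)) = Gam B w m * Gam (B + m * w) w (k + 1) ↔
      Gam B w (m + k) = Gam B w m * Gam (B + m * w) w k := by
    intro k
    have e1 := Gam_succ h (m + k)
    have e2 := Gam_succ h' k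
    have e3 : B + ((m + k + 1 : ℤ) : L) * w = B + m * w + ((k + 1 : ℤ) : L) * w := by
      push_cast; ring
    rw [← e1, ← e2, e3, add_assoc m, ← mul_assoc, mul_left_inj' (h' _)]
  induction m' using Int.induction_on with
  | zero => simp [Gam_zero]
  | succ k ih => exact (key k).2 ih
  | pred k ih =>
    apply (key _).1
    simpa using ih

theorem map_Gam {L' : Type} [Field L'] (f : L →+* L') (B w : L) (m : ℤ) :
    f (Gam B w m) = Gam (f B) (f w) m := by
  unfold Gam
  split_ifs <;> simp [map_prod]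

theorem Gam_scale (t B w : L) (ht : t ≠ 0) (m : ℤ) :
    Gam (t * B) (t * w) m = t ^ (-m) * Gam B w m := by
  obtain ⟨k, rfl | rfl⟩ := Int.eq_nat_or_neg m
  · rw [Gam_natCast, Gam_natCast, zpow_neg, zpow_natCast, ← mul_inv]
    congr 1
    have : ∀ j : ℕ, t * B + (j : L) * (t * w) = t * (B + j * w) := fun j => by ring
    simp [this, Finset.prod_mul_distrib]
  · rw [Gam_neg_natCast, Gam_neg_natCast, neg_neg, zpow_natCast]
    have : ∀ j : ℕ, t * B - (j : L) * (t * w) = t * (B - j * w) := fun j => by ring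
    simp [this, Finset.prod_mul_distrib]
end

end GK4850
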