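import Pool.Agent.Lib.MP_4850ea_gt.GK.A1
import Pool.Agent.Lib.MP_4850ea_gt.GK.A2

/-! A3: small facts about weights and places. -/

namespace GK4850

variable {V : Type} {r n : ℕ} {G : GKM V r n} {K : Type} [Field K] [CharZero K]
  {ι : (Fin r → ℤ) →+ K} {R : ValuationSubring K}

omit [CharZero K] in
theorem iota_rev (e : V × Fin n) : ι (G.α (G.rev e)) = -ι (G.α e) := by
  rw [G.α_rev, map_neg]

omit [CharZero K] in
theorem iota_conn (e : V × Fin n) (j : Fin n) :
    ι (G.α ((G.rev e).1, G.conn e j)) = ι (G.α (e.1, j)) - (G.cc e j : K) * ι (G.α e) := by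
  rw [G.α_conn, map_sub, map_zsmul, zsmul_eq_mul]

theorem natCast_mul_wt (e : V × Fin n) {c : ℕ} (hc : 1 ≤ c) :
    (c : K) * wt G ι e c = -ι (G.α e) := by
  have : (c : K) ≠ 0 := Nat.cast_ne_zero.2 (by omega)
  rw [wt]
  field_simp

theorem wt_ne_zero (hN : Nondeg G ι) (e : V × Fin n) {c : ℕ} (hc : 1 ≤ c) : wt G ι e c ≠ 0 :=
  div_ne_zero (neg_ne_zero.2 (hN.1 e)) (Nat.cast_ne_zero.2 (by omega))

theorem wt_inj (hN : Nondeg G ι) {p : V} {i j : Fin n} {c c' : ℕ} (hc : 1 ≤ c) (hc' : 1 ≤ c')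
    (h : wt G ι (p, i) c = wt G ι (p, j) c') : i = j ∧ c = c' := by
  have h1 := natCast_mul_wt (G := G) (ι := ι) (p, i) hc
  have h2 := natCast_mul_wt (G := G) (ι := ι) (p, j) hc'
  rw [h] at h1
  obtain rfl : i = j := by
    by_contra hij
    have := (hN.2 p i j hij c' (-c) (by
      push_cast
      linear_combination (c' : K) * h1 - (c : K) * h2)).1
    omega
  exact ⟨rfl, Nat.cast_injective (R := K)
    (mul_right_cancel₀ (wt_ne_zero hN _ hc') (h1.trans h2.symm))⟩

theorem wt_ne_wt_target (hN : Nondeg G ι) (e : V × Fin n) (j : Fin n) {c c' : ℕ} (hc : 1 ≤ c)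
    (hc' : 1 ≤ c') : wt G ι e c ≠ wt G ι ((G.rev e).1, j) c' := by
  intro h
  have h1 := natCast_mul_wt (G := G) (ι := ι) e hc
  have h2 := natCast_mul_wt (G := G) (ι := ι) ((G.rev e).1, j) hc'
  have h3 : ι (G.α ((G.rev e).1, (G.rev e).2)) = -ι (G.α e) := iota_rev e
  rw [← h] at h2
  by_cases hj : (G.rev e).2 = j
  · rw [← hj, h3] at h2
    have : ((c + c' : ℕ) : K) * wt G ι e c = 0 := by
      push_cast
      linear_combination h1 + h2
    exact mul_ne_zero (Nat.cast_ne_zero.2 (by omega)) (wt_ne_zero hN e hc) this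
  · have := (hN.2 _ _ j hj c' c (by
      rw [h3]
      push_cast
      linear_combination (c : K) * h2 - (c' : K) * h1)).1
    omega

theorem lin_wt_ne_zero (hN : Nondeg G ι) (e : V × Fin n) {j : Fin n} (hj : j ≠ e.2) {c : ℕ}
    (hc : 1 ≤ c) (k : ℤ) : ι (G.α (e.1, j)) + k * wt G ι e c ≠ 0 := by
  intro h
  have h1 := natCast_mul_wt (G := G) (ι := ι) e hc
  have := (hN.2 e.1 j e.2 hj c (-k) (by
    push_cast
    linear_combination (c : K) * h - (k : K) * h1)).1
  omega

theorem Cc_ne_zero (hN : Nondeg G ι) (e : V × Fin n) {c : ℕ} (hc : 1 ≤ c) : Cc G ι e c ≠ 0 :=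
  mul_ne_zero (div_ne_zero (pow_ne_zero _ (neg_ne_zero.2 one_ne_zero))
    (mul_ne_zero (pow_ne_zero _ (Nat.cast_ne_zero.2 c.factorial_ne_zero))
      (pow_ne_zero _ (wt_ne_zero hN e hc))))
    (Finset.prod_ne_zero_iff.2 fun _ hj =>
      Gam_ne_zero (lin_wt_ne_zero hN e (Finset.ne_of_mem_erase hj) hc) _)

omit [CharZero K] in
theorem c1_sub (e : V × Fin n) :
    ∑ j, ι (G.α (e.1, j)) - ∑ j, ι (G.α ((G.rev e).1, j)) = (G.l e : K) * ι (G.α e) := by
  have h : (G.l e : K) = ∑ j, (G.cc e j : K) := by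
    rw [← Int.cast_natCast, G.l_eq, Int.cast_sum]
  rw [← (G.conn e).sum_comp fun j => ι (G.α ((G.rev e).1, j)), h, Finset.sum_mul,
    ← Finset.sum_sub_distrib]
  exact Finset.sum_congr rfl fun j _ => by rw [iota_conn, sub_sub_cancel]

/-- a coefficient at the target of `e` is regular at `wt e c` -/
theorem isReg_target (hN : Nondeg G ι) (e : V × Fin n) {c : ℕ} (hc : 1 ≤ c) {g : RatFunc K}
    (hg : IsRep ⊤ ({0} ∪ {w | ∃ j c, 1 ≤ c ∧ w = wt G ι ((G.rev e).1, j) c}) g) :
    IsReg (wt G ι e c) g := by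
  refine hg.isReg ?_
  rintro (h | ⟨j, c', hc', h⟩)
  · exact wt_ne_zero hN e hc h
  · exact wt_ne_wt_target hN e j hc hc' h

omit [CharZero K] in
theorem Place.ratCast_mem (hP : Place G ι R) (q : ℚ) : (q : K) ∈ R := by
  obtain ⟨φ, hφ⟩ := hP.real
  simpa using hφ q

theorem Place.natCast_inv_mem (hP : Place G ι R) (k : ℕ) : (k : K)⁻¹ ∈ R := by
  simpa using hP.ratCast_mem (k : ℚ)⁻¹

theorem Place.val_intCast (hP : Place G ι R) {k : ℤ} (hk : k ≠ 0) : R.valuation (k : K) = 1 := by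
  have h1 : R.valuation (k : K) ≤ 1 := (R.valuation_le_one_iff _).2 (by simp)
  have h2 : R.valuation (k : K)⁻¹ ≤ 1 := (R.valuation_le_one_iff _).2 (by
    simpa using hP.ratCast_mem (k : ℚ)⁻¹)
  have h0 : R.valuation (k : K) ≠ 0 := (Valuation.ne_zero_iff _).2 (Int.cast_ne_zero.2 hk)
  rw [map_inv₀] at h2
  exact le_antisymm h1 ((inv_le_one₀ (zero_lt_iff.2 h0)).1 h2)

theorem Place.wt_mem (hP : Place G ι R) (e : V × Fin n) (c : ℕ) : wt G ι e c ∈ R := by
  rw [wt, div_eq_mul_inv]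
  exact mul_mem (neg_mem (hP.mem _)) (hP.natCast_inv_mem c)

theorem Place.val_wt (hP : Place G ι R) (e : V × Fin n) {c : ℕ} (hc : 1 ≤ c) :
    R.valuation (wt G ι e c) = R.valuation (ι (G.α e)) := by
  have h := hP.val_intCast (k := c) (by omega)
  rw [Int.cast_natCast] at h
  rw [wt, map_div₀, h, div_one, Valuation.map_neg]

omit [CharZero K] in
theorem Place.val_of_not_par (hP : Place G ι R) {e : V × Fin n} (h : ¬ Par G ι R e) :
    R.valuation (ι (G.α e)) = 1 :=
  le_antisymm ((R.valuation_le_one_iff _).2 (hP.mem _)) (not_lt.1 h)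

omit [CharZero K] in
theorem Par.rev {e : V × Fin n} (h : Par G ι R e) : Par G ι R (G.rev e) := by
  rwa [Par, iota_rev, Valuation.map_neg]

theorem a3_alg (q : ℚ) : algebraMap ℚ (RatFunc K) q = RatFunc.C (q : K) := by
  rw [eq_ratCast, map_ratCast]

theorem Place.algebraMap_isRep (hP : Place G ι R) (S : Set K) (q : ℚ) :
    IsRep R.toSubring S (algebraMap ℚ (RatFunc K) q) := by
  rw [a3_alg]
  exact isRep_C (hP.ratCast_mem q)

theorem isRep_algebraMap_rat (S : Set K) (q : ℚ) : IsRep ⊤ S (algebraMap ℚ (RatFunc K) q) := by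
  rw [a3_alg]
  exact isRep_C (Subring.mem_top _)

omit [CharZero K] in
theorem coeff_overZ (u : PowerSeries K) (d : ℕ) : PowerSeries.coeff d (overZ u) =
    RatFunc.C (PowerSeries.coeff d u) * RatFunc.X⁻¹ := by
  rw [overZ, PowerSeries.coeff_C_mul, PowerSeries.coeff_map, mul_comm]

omit [CharZero K] in
theorem overZ_add (u v : PowerSeries K) : overZ (u + v) = overZ u + overZ v := by
  rw [overZ, overZ, overZ, map_add, mul_add]

theorem a3_exp {u u' : PowerSeries K} {d : ℕ} (h0 : PowerSeries.coeff 0 u = 0)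
    (h0' : PowerSeries.coeff 0 u' = 0)
    (hu : ∀ j < d, PowerSeries.coeff j u = PowerSeries.coeff j u') :
    (∀ j < d, PowerSeries.coeff j (expS (-overZ u')) = PowerSeries.coeff j (expS (-overZ u))) ∧
      PowerSeries.coeff d (expS (-overZ u')) - PowerSeries.coeff d (expS (-overZ u)) =
        -(RatFunc.C (PowerSeries.coeff d u' - PowerSeries.coeff d u) * RatFunc.X⁻¹) := by
  obtain ⟨h1, h2⟩ := expS_congr (a := -overZ u') (a' := -overZ u) (d := d)
    (by rw [map_neg, coeff_overZ, h0', map_zero, zero_mul, neg_zero])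
    (by rw [map_neg, coeff_overZ, h0, map_zero, zero_mul, neg_zero])
    fun j hj => by rw [map_neg, map_neg, coeff_overZ, coeff_overZ, hu j hj]
  refine ⟨h1, ?_⟩
  rw [h2, map_neg, map_neg, coeff_overZ, coeff_overZ, map_sub]
  ring

/-- `Vert` only depends on the coefficients up to `d` -/
theorem Vert.congr {u u' : PowerSeries K} {F F' : PowerSeries (RatFunc K)} {d : ℕ}
    (h : Vert u F d) (h0 : PowerSeries.coeff 0 u = 0) (h0' : PowerSeries.coeff 0 u' = 0)
    (hu : ∀ j ≤ d, PowerSeries.coeff j u = PowerSeries.coeff j u')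
    (hF : ∀ j ≤ d, PowerSeries.coeff j F = PowerSeries.coeff j F') : Vert u' F' d := by
  have h1 := (a3_exp (d := d + 1) h0 h0' fun j hj => hu j (by omega)).1
  rwa [Vert, coeff_mul_congr (fun j hj => h1 j (by omega)) fun j hj => (hF j hj).symm]

/-- change of the top coefficients of `u` and `F` -/
theorem vert_coeff_sub {u u' : PowerSeries K} {F F' : PowerSeries (RatFunc K)} {d : ℕ}
    (h0 : PowerSeries.coeff 0 u = 0) (h0' : PowerSeries.coeff 0 u' = 0)
    (hu : ∀ j < d, PowerSeries.coeff j u = PowerSeries.coeff j u')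
    (hF : ∀ j < d, PowerSeries.coeff j F = PowerSeries.coeff j F') (hd : 1 ≤ d) :
    PowerSeries.coeff d (expS (-overZ u') * F') - PowerSeries.coeff d (expS (-overZ u) * F) =
      (PowerSeries.coeff d F' - PowerSeries.coeff d F) -
        RatFunc.C (PowerSeries.coeff d u' - PowerSeries.coeff d u) * RatFunc.X⁻¹ *
          PowerSeries.coeff 0 F := by
  obtain ⟨h1, h2⟩ := a3_exp h0 h0' hu
  obtain ⟨d, rfl⟩ : ∃ k, d = k + 1 := ⟨d - 1, by omega⟩
  rw [coeff_mul_split, coeff_mul_split, coeff_zero_expS, coeff_zero_expS, Finset.sum_range_succ',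
    Finset.sum_range_succ', Nat.sub_zero, ← hF 0 hd,
    Finset.sum_congr rfl fun j hj => by
      rw [h1 _ (by have := Finset.mem_range.1 hj; omega),
        ← hF _ (by have := Finset.mem_range.1 hj; omega)]]
  linear_combination PowerSeries.coeff 0 F * h2

/-- integral pairs form a subring -/
def intPairSubring (R : ValuationSubring K) (al : K) : Subring (RatFunc K × RatFunc K) where
  carrier := {x | IntPair R al x.1 x.2}
  mul_mem' := by
    rintro x y ⟨h1, h2, h3⟩ ⟨k1, k2, k3⟩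
    refine ⟨IsRep.mul h1 k1, IsRep.mul h2 k2, ?_⟩
    unfold IsInt
    convert IsRep.add (IsRep.mul h3 k1) (IsRep.mul h2 k3) using 1
    simp only [Prod.fst_mul, Prod.snd_mul]
    ring
  one_mem' := ⟨isRep_one, isRep_one, by
    rw [Prod.fst_one, Prod.snd_one, sub_self, mul_zero]
    exact isRep_zero⟩
  add_mem' := by
    rintro x y ⟨h1, h2, h3⟩ ⟨k1, k2, k3⟩
    refine ⟨IsRep.add h1 k1, IsRep.add h2 k2, ?_⟩
    unfold IsInt
    convert IsRep.add h3 k3 using 1
    simp only [Prod.fst_add, Prod.snd_add]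
    ring
  zero_mem' := ⟨isRep_zero, isRep_zero, by
    rw [Prod.fst_zero, Prod.snd_zero, sub_self, mul_zero]
    exact isRep_zero⟩
  neg_mem' := by
    rintro x ⟨h1, h2, h3⟩
    refine ⟨IsRep.neg h1, IsRep.neg h2, ?_⟩
    unfold IsInt
    convert IsRep.neg h3 using 1
    simp only [Prod.fst_neg, Prod.snd_neg]
    ring

omit [CharZero K] in
theorem mem_intPairSubring {al : K} {x : RatFunc K × RatFunc K} :
    x ∈ intPairSubring R al ↔ IntPair R al x.1 x.2 := Iff.rfl

omit [CharZero K] in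
theorem IntAt.add {w : K} {g h : RatFunc K} (hg : IntAt R w g) (hh : IntAt R w h) :
    IntAt R w (g + h) := by
  obtain ⟨g₁, h1, h2⟩ := hg
  obtain ⟨h₁, k1, k2⟩ := hh
  refine ⟨g₁ + h₁, IsRep.add h1 k1, ?_⟩
  rw [add_sub_add_comm]
  exact IsRep.add h2 k2

omit [CharZero K] in
theorem IsInt.intAt {w : K} {g : RatFunc K} (hg : IsInt R g) : IntAt R w g :=
  ⟨g, hg, by
    rw [sub_self]
    exact isRep_zero⟩

omit [CharZero K] in
theorem IsLoc.intAt {w : K} {g : RatFunc K} (hg : IsLoc R w g) : IntAt R w g :=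
  ⟨0, isRep_zero, by rwa [sub_zero]⟩

end GK4850
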