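import Pool.Agent.Lib.MP_4850ea_gt.GK.StA
import Pool.Agent.Lib.MP_4850ea_gt.GK.A3

/-! A4: existence of solutions of the descendant recursion. -/

namespace GK4850

open PowerSeries

/-- recursion with a local predicate -/
theorem a4_rec {X : Type} (f0 : ℕ → X) (P : (ℕ → X) → ℕ → Prop)
    (hloc : ∀ f g d, (∀ j ≤ d, f j = g j) → P f d → P g d)
    (hstep : ∀ f d, (∀ j < d, P f j) → ∃ x, P (Function.update f d x) d) : ∃ f, ∀ d, P f d := by
  have hs : ∀ f d, ∃ x, (∀ j < d, P f j) → P (Function.update f d x) d := by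
    intro f d
    by_cases h : ∀ j < d, P f j
    · obtain ⟨x, hx⟩ := hstep f d h
      exact ⟨x, fun _ => hx⟩
    · exact ⟨f 0, fun h' => absurd h' h⟩
  choose st hst using hs
  let g : ℕ → ℕ → X := fun k => Nat.rec f0 (fun d f => Function.update f d (st f d)) k
  have hg : ∀ k, g (k + 1) = Function.update (g k) k (st (g k) k) := fun _ => rfl
  have h1 : ∀ k, ∀ j < k, P (g k) j := by
    intro k
    induction k with
    | zero => intro j hj; omega
    | succ k ih =>
      intro j hj
      rcases Nat.lt_succ_iff_lt_or_eq.1 hj with hj | rfl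
      · refine hloc (g k) _ j (fun i hi => ?_) (ih j hj)
        rw [hg, Function.update_of_ne (by omega)]
      · exact hst _ _ ih
  have h2 : ∀ k j, j < k → g k j = g (j + 1) j := by
    intro k
    induction k with
    | zero => intro j hj; omega
    | succ k ih =>
      intro j hj
      rcases Nat.lt_succ_iff_lt_or_eq.1 hj with hj | rfl
      · rw [hg, Function.update_of_ne (by omega), ih j hj]
      · rfl
  exact ⟨fun j => g (j + 1) j, fun d =>
    hloc (g (d + 1)) _ d (fun j hj => h2 (d + 1) j (by omega)) (h1 (d + 1) d (by omega))⟩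

variable {V : Type} {r n : ℕ} {G : GKM V r n} {K : Type} [Field K] [CharZero K]
  {ι : (Fin r → ℤ) →+ K}

theorem a4_congr {u u' : V → K⟦X⟧} {F F' : V → (RatFunc K)⟦X⟧} {d : ℕ} (h : SolAt G ι u F d)
    (h0 : ∀ p, coeff 0 (u p) = 0) (hu : ∀ p, ∀ j ≤ d, coeff j (u p) = coeff j (u' p))
    (hF : ∀ p, ∀ j ≤ d, coeff j (F p) = coeff j (F' p)) : SolAt G ι u' F' d where
  poles p := hF p d le_rfl ▸ h.poles p
  res e c hc := by
    rw [← hF _ d le_rfl, ← hF _ _ (Nat.sub_le _ _)]
    exact h.res e c hc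
  vert p := (h.vert p).congr (h0 p) (hu p 0 (Nat.zero_le _) ▸ h0 p) (hu p) (hF p)

omit [CharZero K] in
theorem a4_invX {S : Set K} (h : (0 : K) ∈ S) : IsRep ⊤ S (RatFunc.X : RatFunc K)⁻¹ := by
  have := isRep_inv_X_sub_C (N := ⊤) (S := S) (w := 0) h (Subring.mem_top _)
  simpa using this

theorem a4_exp (u : K⟦X⟧) (d : ℕ) : IsRep ⊤ {0} (coeff d (expS (-overZ u))) := by
  refine expS_mem (repSubring ⊤ {0}) (fun q => isRep_algebraMap_rat _ q) _ d fun j _ => ?_
  rw [map_neg, coeff_overZ]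
  exact IsRep.neg (IsRep.mul (isRep_C (Subring.mem_top _)) (a4_invX (K := K) rfl))

theorem a4_zero {u : V → K⟦X⟧} {F : V → (RatFunc K)⟦X⟧} {a : V → K}
    (h : ∀ p, coeff 0 (F p) = RatFunc.C (a p)) : SolAt G ι u F 0 where
  poles p := by
    rw [h]
    exact isRep_C (Subring.mem_top _)
  res e c hc := by
    have h1 := G.l_pos e
    have h2 : ¬ c * G.l e ≤ 0 := by
      have := Nat.mul_pos hc h1
      omega
    rw [if_neg h2, h]
    exact res_zero_of_isReg (isRep_C (Subring.mem_top _))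
  vert p := by
    rw [Vert, coeff_mul_split, coeff_zero_expS, h]
    simp only [Finset.range_zero, Finset.sum_empty, add_zero, one_mul]
    exact isRep_C (Subring.mem_top _)

omit [CharZero K] in
theorem a4_X_sub_ne (w : K) : (RatFunc.X - RatFunc.C w : RatFunc K) ≠ 0 := by
  have : (RatFunc.X - RatFunc.C w : RatFunc K) =
      algebraMap (Polynomial K) (RatFunc K) (Polynomial.X - Polynomial.C w) := by simp
  rw [this]
  exact RatFunc.algebraMap_ne_zero (Polynomial.X_sub_C_ne_zero w)

/-- one step for a given `u` -/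
theorem a4_step (hN : Nondeg G ι) (u : V → K⟦X⟧) (F : V → (RatFunc K)⟦X⟧) {d : ℕ} (hd : 1 ≤ d)
    (hF : ∀ j < d, ∀ p, IsRep ⊤ Set.univ (coeff j (F p))) :
    ∃ H : V → RatFunc K, (∀ p, OrdInf 1 (H p)) ∧ ∀ F' : V → (RatFunc K)⟦X⟧,
      (∀ p, ∀ j < d, coeff j (F' p) = coeff j (F p)) → (∀ p, coeff d (F' p) = H p) →
      SolAt G ι u F' d := by
  classical
  let ρ : V × Fin n → ℕ → K := fun e c => if c * G.l e ≤ d then
    Cc G ι e c * ev (wt G ι e c) (coeff (d - c * G.l e) (F (G.rev e).1)) else 0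
  let s : Finset (Fin n × ℕ) := Finset.univ ×ˢ Finset.Icc 1 d
  let tm : V → Fin n × ℕ → RatFunc K := fun p x =>
    RatFunc.C (ρ (p, x.1) x.2) * (RatFunc.X - RatFunc.C (wt G ι (p, x.1) x.2))⁻¹
  have hs : ∀ x ∈ s, 1 ≤ x.2 := fun x hx => (Finset.mem_Icc.1 (Finset.mem_product.1 hx).2).1
  have htm : ∀ p x (S : Set K), wt G ι (p, x.1) x.2 ∈ S → IsRep ⊤ S (tm p x) := fun p x S h =>
    (isRep_C (Subring.mem_top _)).mul (isRep_inv_X_sub_C h (Subring.mem_top _))
  have hT : ∀ p, IsRep ⊤ Set.univ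
      (∑ j ∈ Finset.range d, coeff (d - j) (expS (-overZ (u p))) * coeff j (F p)) := fun p =>
    isRep_sum _ _ fun j hj => ((a4_exp _ _).mono le_rfl (Set.subset_univ _)).mul
      (hF j (Finset.mem_range.1 hj) p)
  choose Z hZ1 hZ2 hZ3 using fun p => exists_pp_zero (hT p)
  refine ⟨fun p => ∑ x ∈ s, tm p x - Z p, fun p => ?_, fun F' h1 h2 => ⟨fun p => ?_, ?_, ?_⟩⟩
  · refine OrdInf.sub (ordInf_sum _ _ fun x _ => ?_) (hZ2 p)
    simpa using (ordInf_C (ρ (p, x.1) x.2)).mul (ordInf_inv_X_sub_C (wt G ι (p, x.1) x.2))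
  · rw [h2]
    exact (isRep_sum _ _ fun x hx => htm p x _ (Or.inr ⟨x.1, x.2, hs x hx, rfl⟩)).sub
      ((hZ1 p).mono le_rfl Set.subset_union_left)
  · rintro ⟨p, i⟩ c hc
    have hZ := res_zero_of_isReg ((hZ1 p).isReg (w := wt G ι (p, i) c) (wt_ne_zero hN _ hc))
    have hx : ∀ x ∈ s, IsReg (wt G ι (p, i) c) ((RatFunc.X - RatFunc.C (wt G ι (p, i) c)) * tm p x) ∧
        ev (wt G ι (p, i) c) ((RatFunc.X - RatFunc.C (wt G ι (p, i) c)) * tm p x) =
          if (i, c) = x then ρ (p, i) c else 0 := by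
      intro x hx
      split_ifs with h
      · subst h
        have : (RatFunc.X - RatFunc.C (wt G ι (p, i) c)) * tm p (i, c) =
            RatFunc.C (ρ (p, i) c) := by
          have := a4_X_sub_ne (wt G ι (p, i) c)
          simp only [tm]
          field_simp
        rw [this]
        exact ⟨isRep_C (Subring.mem_top _), ev_C _⟩
      · refine res_zero_of_isReg (htm p x _ fun h' => h ?_)
        have := wt_inj hN (hs x hx) hc h'
        exact Prod.ext this.1.symm this.2.symm
    have hR : IsReg (wt G ι (p, i) c)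
        (∑ x ∈ s, (RatFunc.X - RatFunc.C (wt G ι (p, i) c)) * tm p x) :=
      isRep_sum _ _ fun x h => (hx x h).1
    rw [h2, mul_sub, Finset.mul_sum]
    refine ⟨IsRep.sub hR hZ.1, ?_⟩
    rw [ev_sub hR hZ.1, hZ.2, sub_zero, ev_sum _ _ fun x h => (hx x h).1,
      Finset.sum_congr rfl fun x h => (hx x h).2, Finset.sum_ite_eq]
    have hl := G.l_pos (p, i)
    have hcl : c ≤ c * G.l (p, i) := Nat.le_mul_of_pos_right _ hl
    by_cases hle : c * G.l (p, i) ≤ d
    · have : (i, c) ∈ s := Finset.mem_product.2 ⟨Finset.mem_univ _, Finset.mem_Icc.2 ⟨hc, by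
        show c ≤ d
        omega⟩⟩
      rw [if_pos this, if_pos hle, h1 _ _ (by omega)]
      simp only [ρ, if_pos hle]
    · simp only [ρ, if_neg hle, ite_self]
  · intro p
    rw [Vert, coeff_mul_split, coeff_zero_expS, one_mul, h2,
      Finset.sum_congr rfl fun j hj => by rw [h1 p j (Finset.mem_range.1 hj)], sub_add,
      sub_eq_add_neg, neg_sub]
    exact IsRep.add (isRep_sum _ _ fun x hx => htm p x _ (wt_ne_zero hN _ (hs x hx))) (hZ3 p)

/-- moving a pole at zero into `u` -/
theorem a4_shift (hN : Nondeg G ι) {u u' : V → K⟦X⟧} {F F' : V → (RatFunc K)⟦X⟧} {d : ℕ}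
    (hd : 1 ≤ d) (δ : V → K) (h : SolAt G ι u F d) (h0 : ∀ p, coeff 0 (u p) = 0)
    (h1 : ∀ p, coeff 0 (F p) = 1) (hu : ∀ p, ∀ j < d, coeff j (u p) = coeff j (u' p))
    (hF : ∀ p, ∀ j < d, coeff j (F p) = coeff j (F' p))
    (hud : ∀ p, coeff d (u' p) = coeff d (u p) - δ p)
    (hFd : ∀ p, coeff d (F' p) = coeff d (F p) - RatFunc.C (δ p) * RatFunc.X⁻¹) :
    SolAt G ι u' F' d where
  poles p := by
    rw [hFd]
    exact (h.poles p).sub ((isRep_C (Subring.mem_top _)).mul (a4_invX (Or.inl rfl)))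
  res e c hc := by
    have hz := res_zero_of_isReg (w := wt G ι e c) (g := RatFunc.C (δ e.1) * RatFunc.X⁻¹)
      ((isRep_C (Subring.mem_top _)).mul (a4_invX (wt_ne_zero hN e hc).symm))
    obtain ⟨a1, a2⟩ := h.res e c hc
    rw [hFd, mul_sub]
    refine ⟨IsRep.sub a1 hz.1, ?_⟩
    rw [ev_sub a1 hz.1, hz.2, sub_zero, a2]
    have := Nat.mul_pos hc (G.l_pos e)
    rw [hF _ _ (by omega)]
  vert p := by
    have e := vert_coeff_sub (h0 p) (hu p 0 hd ▸ h0 p) (hu p) (hF p) hd
    rw [hud, hFd, h1, sub_sub_cancel_left, sub_sub_cancel_left, map_neg, mul_one, neg_mul, sub_self,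
      sub_eq_zero] at e
    rw [Vert, e]
    exact h.vert p

theorem a4 : A4St := by
  intro V r n G K _ _ ι hN
  constructor
  · let P : (ℕ → (V → K) × (V → RatFunc K)) → ℕ → Prop := fun f d =>
      (∀ p, (f 0).1 p = 0 ∧ (f 0).2 p = 1) ∧
        SolAt G ι (fun p => mk fun j => (f j).1 p) (fun p => mk fun j => (f j).2 p) d ∧
        (1 ≤ d → ∀ p, OrdInf 2 ((f d).2 p))
    obtain ⟨f, hf⟩ : ∃ f, ∀ d, P f d := by
      refine a4_rec (fun _ => (0, 0)) P ?_ ?_
      · rintro f g d h ⟨h1, h2, h3⟩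
        refine ⟨h 0 (Nat.zero_le _) ▸ h1, a4_congr h2 (fun p => ?_) (fun p j hj => ?_)
          fun p j hj => ?_, h d le_rfl ▸ h3⟩
        · rw [coeff_mk]
          exact (h1 p).1
        · rw [coeff_mk, coeff_mk, h j hj]
        · rw [coeff_mk, coeff_mk, h j hj]
      · intro f d hf
        rcases Nat.eq_zero_or_pos d with rfl | hd
        · refine ⟨(0, 1), fun p => by simp, a4_zero (a := fun _ => 1) fun p => by simp,
            fun h => by omega⟩
        have h0 := (hf 0 hd).1
        obtain ⟨H, hH, hS⟩ := a4_step hN (fun p => mk fun j => (f j).1 p)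
          (fun p => mk fun j => (f j).2 p) hd fun j hj p =>
            ((hf j hj).2.1.poles p).mono le_rfl (Set.subset_univ _)
        choose δ hδ using fun p => (hH p).exists_sub
        refine ⟨(fun p => (f d).1 p - δ p, fun p => H p - RatFunc.C (δ p) * RatFunc.X⁻¹), ?_, ?_,
          fun _ p => ?_⟩
        · rw [Function.update_of_ne hd.ne]
          exact h0
        · refine a4_shift hN hd δ
            (hS (fun p => mk fun j => if j = d then H p else (f j).2 p) (fun p j hj => ?_)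
              fun p => ?_) (fun p => ?_) (fun p => ?_) (fun p j hj => ?_) (fun p j hj => ?_)
            (fun p => ?_) fun p => ?_
          · rw [coeff_mk, coeff_mk, if_neg hj.ne]
          · rw [coeff_mk, if_pos rfl]
          · rw [coeff_mk]
            exact (h0 p).1
          · rw [coeff_mk, if_neg hd.ne]
            exact (h0 p).2
          · rw [coeff_mk, coeff_mk, Function.update_of_ne hj.ne]
          · rw [coeff_mk, coeff_mk, Function.update_of_ne hj.ne, if_neg hj.ne]
          · rw [coeff_mk, coeff_mk, Function.update_self]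
          · rw [coeff_mk, coeff_mk, Function.update_self, if_pos rfl]
        · rw [Function.update_self]
          exact hδ p
    refine ⟨_, _, fun p => ?_, fun d => (hf d).2.1, fun p => ?_, fun p d hd => ?_⟩
    · rw [coeff_mk]
      exact ((hf 0).1 p).1
    · rw [coeff_mk, map_one]
      exact ((hf 0).1 p).2
    · rw [coeff_mk]
      exact (hf d).2.2 hd p
  · intro u a hu
    let P : (ℕ → V → RatFunc K) → ℕ → Prop := fun f d =>
      (∀ p, f 0 p = RatFunc.C (a p)) ∧ SolAt G ι u (fun p => mk fun j => f j p) d ∧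
        (1 ≤ d → ∀ p, OrdInf 1 (f d p))
    obtain ⟨f, hf⟩ : ∃ f, ∀ d, P f d := by
      refine a4_rec (fun _ => 0) P ?_ ?_
      · rintro f g d h ⟨h1, h2, h3⟩
        refine ⟨h 0 (Nat.zero_le _) ▸ h1, a4_congr h2 hu (fun _ _ _ => rfl) fun p j hj => ?_,
          h d le_rfl ▸ h3⟩
        rw [coeff_mk, coeff_mk, h j hj]
      · intro f d hf
        rcases Nat.eq_zero_or_pos d with rfl | hd
        · refine ⟨fun p => RatFunc.C (a p), fun p => by simp, a4_zero (a := a) fun p => by simp,
            fun h => by omega⟩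
        obtain ⟨H, hH, hS⟩ := a4_step hN u (fun p => mk fun j => f j p) hd fun j hj p =>
          ((hf j hj).2.1.poles p).mono le_rfl (Set.subset_univ _)
        refine ⟨H, ?_, hS _ (fun p j hj => ?_) fun p => ?_, fun _ p => ?_⟩
        · rw [Function.update_of_ne hd.ne]
          exact (hf 0 hd).1
        · rw [coeff_mk, coeff_mk, Function.update_of_ne hj.ne]
        · rw [coeff_mk, Function.update_self]
        · rw [Function.update_self]
          exact hH p
    refine ⟨_, hu, fun d => (hf d).2.1, fun p => ?_, fun p d hd => ?_⟩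
    · rw [coeff_mk]
      exact (hf 0).1 p
    · rw [coeff_mk]
      exact (hf d).2.2 hd p

end GK4850
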