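import Pool.Agent.Lib.MP_4850ea_gt.GK.StA

/-! A5: extension of GKM classes from an upper set. -/

namespace GK4850

theorem a5 : A5St := by
  classical
  intro V _ r n G hMP Λ a O _ σ hcop U φ hφ
  obtain ⟨asc, o, hrev, ha, hinj, hmono, hτ⟩ := hMP Λ a
  choose τ hτ1 hτ2 hτ3 using hτ
  have hasc : ∀ e, asc e → 0 ≤ a (G.α e) := by
    intro e he
    by_contra h
    have h1 : 0 < a (G.α (G.rev e)) := by rw [G.α_rev, map_neg]; linarith
    exact (hrev e).1 (ha _ h1) he
  -- induction on the number of vertices above
  have key : ∀ k : ℕ, ∃ Φ : V → O, (∀ e, G.α e ∈ Λ → σ (lin (G.α e)) ∣ Φ e.1 - Φ (G.rev e).1) ∧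
      ∀ q ∈ U, (Finset.univ.filter fun q' => o q < o q').card < k → Φ q = φ q := by
    intro k
    induction k with
    | zero => exact ⟨0, fun e _ => by simp, fun q _ h => absurd h (Nat.not_lt_zero _)⟩
    | succ k ih =>
      obtain ⟨Φ, h1, h2⟩ := ih
      have hlt : ∀ q q', o q < o q' → (Finset.univ.filter fun x => o q' < o x).card <
          (Finset.univ.filter fun x => o q < o x).card := by
        intro q q' h
        refine Finset.card_lt_card ⟨fun x hx => ?_, fun hs => ?_⟩
        · simp only [Finset.mem_filter, Finset.mem_univ, true_and] at hx ⊢; linarith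
        · have := hs (Finset.mem_filter.2 ⟨Finset.mem_univ q', h⟩)
          simp at this
      by_cases hex : ∃ q ∈ U, (Finset.univ.filter fun q' => o q < o q').card = k
      · obtain ⟨q, hq, hk⟩ := hex
        have hd := hcop q (Finset.univ.filter fun j => asc (q, j) ∧ G.α (q, j) ∈ Λ) (φ q - Φ q)
          (fun j hj => by
            obtain ⟨hj1, hj2⟩ := (Finset.mem_filter.1 hj).2
            refine ⟨hj2, ?_⟩
            obtain ⟨hU, hdv⟩ := hφ (q, j) hj2 (hasc _ hj1) hq
            have e1 := h2 _ hU (by rw [← hk]; exact hlt _ _ (hmono _ hj1))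
            have := dvd_sub hdv (h1 (q, j) hj2)
            rw [e1] at this
            simpa using this)
        obtain ⟨c, hc⟩ := hd
        refine ⟨fun x => Φ x + σ (τ q x) * c, fun e he => ?_, fun x hx hxk => ?_⟩
        · have := dvd_add (h1 e he) ((map_dvd σ (hτ1 q e he)).mul_right c)
          convert this using 1
          rw [map_sub]; ring
        · rcases lt_trichotomy (o x) (o q) with h | h | h
          · have := hlt _ _ h; omega
          · obtain rfl := hinj h
            simp only
            rw [hτ2, map_prod, ← hc]; ring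
          · have := hlt _ _ h
            simp only
            rw [hτ3 q x h, h2 x hx (by omega)]; simp
      · refine ⟨Φ, h1, fun q hq h => h2 q hq ?_⟩
        have : (Finset.univ.filter fun q' => o q < o q').card ≠ k := fun h' => hex ⟨q, hq, h'⟩
        omega
  obtain ⟨Φ, h1, h2⟩ := key (Fintype.card V + 1)
  exact ⟨Φ, h1, fun q hq => h2 q hq (Nat.lt_succ_of_le (Finset.card_le_univ _))⟩

end GK4850
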