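import Pool.Agent.Lib.MP_4850ea_gt.GK.A3

/-! A6, first half: the functions `Ψ_p` and the key identity. -/

namespace GK4850

section Rel
variable {L L' : Type} [Field L] [Field L'] (T : Subring (L × L')) {B w : L} {B' w' : L'}

theorem a6_lin_rel (hB : (B, B') ∈ T) (hw : (w, w') ∈ T) (k : ℤ) :
    (B + k * w, B' + k * w') ∈ T :=
  T.add_mem hB (T.mul_mem (intCast_mem T k) hw)

theorem a6_prod_rel {ι : Type} (s : Finset ι) (f : ι → L) (f' : ι → L')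
    (h : ∀ i ∈ s, (f i, f' i) ∈ T) : (∏ i ∈ s, f i, ∏ i ∈ s, f' i) ∈ T := by
  have := T.prod_mem (t := s) (f := fun i => (f i, f' i)) h
  convert this using 1
  ext
  · simp [Prod.fst_prod]
  · simp [Prod.snd_prod]

theorem a6_Gam_rel (hB : (B, B') ∈ T) (hw : (w, w') ∈ T) (m : ℤ)
    (h : ∀ k : ℤ, 1 ≤ k → k ≤ m → ((B + k * w)⁻¹, (B' + k * w')⁻¹) ∈ T) :
    (Gam B w m, Gam B' w' m) ∈ T := by
  obtain ⟨k, rfl | rfl⟩ := Int.eq_nat_or_neg m
  · rw [Gam_natCast, Gam_natCast, ← Finset.prod_inv_distrib, ← Finset.prod_inv_distrib]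
    refine a6_prod_rel T _ _ _ fun i hi => ?_
    have hi := Finset.mem_Icc.1 hi
    simpa using h i (by omega) (by omega)
  · rw [Gam_neg_natCast, Gam_neg_natCast]
    refine a6_prod_rel T _ _ _ fun i _ => ?_
    simpa [sub_eq_add_neg] using a6_lin_rel T hB hw (-i)

theorem a6_Gam_inv_rel (hB : (B, B') ∈ T) (hw : (w, w') ∈ T) (m : ℤ)
    (h : ∀ k : ℤ, m < k → k ≤ 0 → ((B + k * w)⁻¹, (B' + k * w')⁻¹) ∈ T) :
    ((Gam B w m)⁻¹, (Gam B' w' m)⁻¹) ∈ T := by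
  obtain ⟨k, rfl | rfl⟩ := Int.eq_nat_or_neg m
  · rw [Gam_natCast, Gam_natCast, inv_inv, inv_inv]
    refine a6_prod_rel T _ _ _ fun i _ => ?_
    simpa using a6_lin_rel T hB hw i
  · rw [Gam_neg_natCast, Gam_neg_natCast, ← Finset.prod_inv_distrib, ← Finset.prod_inv_distrib]
    refine a6_prod_rel T _ _ _ fun i hi => ?_
    have hi := Finset.mem_range.1 hi
    simpa [sub_eq_add_neg] using h (-i) (by omega) (by omega)

end Rel

variable {V : Type} {r n : ℕ} {G : GKM V r n} {K : Type} [Field K] [CharZero K]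
  {ι : (Fin r → ℤ) →+ K} {R : ValuationSubring K}

omit [CharZero K] in
theorem a6_lin_ev (B ρ : K) (k : ℤ) :
    (RatFunc.C B + (k : RatFunc K) * RatFunc.X, B + k * ρ) ∈ evGraph ρ :=
  a6_lin_rel _ (evGraph_C B) evGraph_X k

omit [CharZero K] in
theorem a6_lin_ne {B : K} (hB : B ≠ 0) (k : ℤ) :
    RatFunc.C B + (k : RatFunc K) * RatFunc.X ≠ 0 := by
  intro h
  have := (a6_lin_ev B 0 k).2
  rw [h, ev_zero] at this
  exact hB (by simpa using this.symm)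

theorem a6_inv_lin {N : Subring K} {S : Set K} {B : K} {k : ℤ} (h0 : k = 0 → B⁻¹ ∈ N)
    (h1 : k ≠ 0 → -B / k ∈ S ∧ -B / k ∈ N ∧ (k : K)⁻¹ ∈ N) :
    IsRep N S (RatFunc.C B + (k : RatFunc K) * RatFunc.X)⁻¹ := by
  rcases eq_or_ne k 0 with rfl | hk
  · simpa using isRep_C (S := S) (h0 rfl)
  · have := isRep_inv_lin (a := B) (Int.cast_ne_zero.2 hk) (h1 hk).1 (h1 hk).2.1 (h1 hk).2.2
    rwa [map_intCast] at this

theorem a6_inv_ev {B ρ : K} {k : ℤ} (h : B + k * ρ ≠ 0) :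
    ((RatFunc.C B + (k : RatFunc K) * RatFunc.X)⁻¹, (B + k * ρ)⁻¹) ∈ evGraph ρ := by
  have h1 := a6_lin_ev B ρ k
  have h2 : IsReg ρ (RatFunc.C B + (k : RatFunc K) * RatFunc.X)⁻¹ := by
    refine a6_inv_lin (fun _ => Subring.mem_top _) fun hk =>
      ⟨fun e => h ?_, Subring.mem_top _, Subring.mem_top _⟩
    have : (k : K) ≠ 0 := Int.cast_ne_zero.2 hk
    rw [← Set.mem_singleton_iff.1 e]; field_simp; ring
  have h3 : RatFunc.C B + (k : RatFunc K) * RatFunc.X ≠ 0 := by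
    intro h0
    have := h1.2
    rw [h0, ev_zero] at this
    exact h this.symm
  exact ⟨h2, by rw [(ev_inv h1.1 h2 h3).2, h1.2]⟩

theorem a6_Gam_ev {B ρ : K} {m : ℤ} (h : ∀ k : ℤ, 1 ≤ k → k ≤ m → B + k * ρ ≠ 0) :
    (Gam (RatFunc.C B) RatFunc.X m, Gam B ρ m) ∈ evGraph ρ :=
  a6_Gam_rel (evGraph ρ) (evGraph_C B) evGraph_X m fun k h1 h2 => a6_inv_ev (h k h1 h2)

theorem a6_Gam_inv_ev {B ρ : K} {m : ℤ} (h : ∀ k : ℤ, m < k → k ≤ 0 → B + k * ρ ≠ 0) :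
    ((Gam (RatFunc.C B) RatFunc.X m)⁻¹, (Gam B ρ m)⁻¹) ∈ evGraph ρ :=
  a6_Gam_inv_rel (evGraph ρ) (evGraph_C B) evGraph_X m fun k h1 h2 => a6_inv_ev (h k h1 h2)

omit [CharZero K] in
theorem a6_pair_inv {al : K} {g₁ g₂ : RatFunc K} (h : (g₁, g₂) ∈ intPairSubring R al)
    (h1 : IsInt R g₁⁻¹) (h2 : IsInt R g₂⁻¹) (n1 : g₁ ≠ 0) (n2 : g₂ ≠ 0) :
    (g₁⁻¹, g₂⁻¹) ∈ intPairSubring R al := by
  refine ⟨h1, h2, ?_⟩
  have := IsRep.neg (IsRep.mul (IsRep.mul h.2.2 h1) h2)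
  unfold IsInt
  convert this using 1
  field_simp
  ring

/-- the data attached to a unit `w` -/
structure A6Ctx (G : GKM V r n) (ι : (Fin r → ℤ) →+ K) (R : ValuationSubring K) (w : K)
    (a : (Fin r → ℤ) →+ ℚ) : Prop where
  hN : Nondeg G ι
  hP : Place G ι R
  hw : R.valuation w = 1
  ha : ∀ β (k : ℤ), R.valuation (ι β + k * w) < 1 → a β = k

theorem a6_exists (hN : Nondeg G ι) (hP : Place G ι R) {w : K} (hw : R.valuation w = 1) :
    ∃ a, A6Ctx G ι R w a := by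
  let M : Submodule ℚ K :=
    { carrier := {x | R.valuation x < 1}
      add_mem' := fun h1 h2 => R.valuation.map_add_lt h1 h2
      zero_mem' := by simp
      smul_mem' := by
        intro q x hx
        have h1 : R.valuation (q : K) ≤ 1 := (R.valuation_le_one_iff _).2 (hP.ratCast_mem q)
        change R.valuation (q • x) < 1
        rw [Rat.smul_def, map_mul]
        exact mul_lt_one_of_nonneg_of_lt_one_right h1 zero_le hx }
  obtain ⟨f, hf, hf'⟩ := M.exists_dual_map_eq_bot_of_notMem (x := w)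
    (fun h => absurd hw (ne_of_lt h)) inferInstance
  refine ⟨(AddMonoidHom.mulLeft (-(f w)⁻¹)).comp (f.toAddMonoidHom.comp ι), hN, hP, hw, ?_⟩
  intro β k h
  have h1 : f (ι β + k * w) = 0 := by
    have : f (ι β + k * w) ∈ M.map f := Submodule.mem_map_of_mem h
    rwa [hf', Submodule.mem_bot] at this
  rw [map_add, ← zsmul_eq_mul, map_zsmul, zsmul_eq_mul] at h1
  change -(f w)⁻¹ * f (ι β) = k
  rw [eq_neg_of_add_eq_zero_left h1]
  field_simp

/-- the function `Ψ_p` -/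
noncomputable def Psi (G : GKM V r n) (ι : (Fin r → ℤ) →+ K) (a : (Fin r → ℤ) →+ ℚ) (p : V) :
    RatFunc K :=
  ∏ j, (Gam (RatFunc.C (ι (G.α (p, j)))) RatFunc.X ⌊a (G.α (p, j))⌋)⁻¹

variable {w : K} {a : (Fin r → ℤ) →+ ℚ}

theorem A6Ctx.intCast_inv_mem (h : A6Ctx G ι R w a) (k : ℤ) : (k : K)⁻¹ ∈ R := by
  simpa using h.hP.ratCast_mem (k : ℚ)⁻¹

theorem A6Ctx.val_of_root (h : A6Ctx G ι R w a) {B ρ : K} {k : ℤ} (h0 : B + k * ρ = 0)
    (hρ : R.valuation (ρ - w) < 1) : R.valuation (B + k * w) < 1 := by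
  have : B + k * w = -(k * (ρ - w)) := by linear_combination h0
  rw [this, Valuation.map_neg, map_mul]
  exact mul_lt_one_of_nonneg_of_lt_one_right ((R.valuation_le_one_iff _).2 (by simp)) zero_le hρ

theorem A6Ctx.inv_lin (h : A6Ctx G ι R w a) {β : Fin r → ℤ} {k : ℤ} (hk : a β ≠ k) :
    IsRep R.toSubring (away R w) (RatFunc.C (ι β) + (k : RatFunc K) * RatFunc.X)⁻¹ := by
  refine a6_inv_lin (fun h0 => ?_) fun h0 => ?_
  · have h1 : R.valuation (ι β) = 1 :=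
      le_antisymm ((R.valuation_le_one_iff _).2 (h.hP.mem _)) (not_lt.1 fun h2 =>
        hk (h.ha β k (by simpa [h0] using h2)))
    exact R.mem_of_valuation_le_one _ (by rw [map_inv₀, h1, inv_one])
  · have h1 : -ι β / k ∈ R := by
      rw [div_eq_mul_inv]
      exact mul_mem (neg_mem (h.hP.mem _)) (h.intCast_inv_mem k)
    refine ⟨⟨h1, fun h2 => hk (h.ha β k (h.val_of_root ?_ h2))⟩, h1, h.intCast_inv_mem k⟩
    have : (k : K) ≠ 0 := Int.cast_ne_zero.2 h0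
    field_simp; ring

theorem A6Ctx.factor_mem (h : A6Ctx G ι R w a) (β : Fin r → ℤ) :
    IsRep R.toSubring (away R w) (Gam (RatFunc.C (ι β)) RatFunc.X ⌊a β⌋)⁻¹ := by
  have := a6_Gam_inv_rel ((repSubring R.toSubring (away R w)).prod
    (repSubring R.toSubring (away R w))) (B := RatFunc.C (ι β)) (B' := RatFunc.C (ι β))
    (w := RatFunc.X) (w' := RatFunc.X) ⟨isRep_C (h.hP.mem β), isRep_C (h.hP.mem β)⟩
    ⟨isRep_X, isRep_X⟩ ⌊a β⌋ fun k hk _ => by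
      have : a β ≠ k := (Int.floor_lt.1 hk).ne
      exact ⟨h.inv_lin this, h.inv_lin this⟩
  exact this.1

theorem A6Ctx.Psi_mem (h : A6Ctx G ι R w a) (p : V) :
    IsRep R.toSubring (away R w) (Psi G ι a p) :=
  isRep_prod _ _ fun _ _ => h.factor_mem _

theorem A6Ctx.Psi_ne (h : A6Ctx G ι R w a) (p : V) : Psi G ι a p ≠ 0 :=
  Finset.prod_ne_zero_iff.2 fun _ _ =>
    inv_ne_zero (Gam_ne_zero (fun k => a6_lin_ne (h.hN.1 _) k) _)

theorem A6Ctx.Psi_inv_int (h : A6Ctx G ι R w a) (p : V) : IsInt R (Psi G ι a p)⁻¹ := by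
  rw [Psi, ← Finset.prod_inv_distrib]
  refine isRep_prod _ _ fun j _ => ?_
  rw [inv_inv]
  have := a6_Gam_rel ((repSubring R.toSubring Set.univ).prod
    (repSubring R.toSubring Set.univ)) (B := RatFunc.C (ι (G.α (p, j))))
    (B' := RatFunc.C (ι (G.α (p, j)))) (w := RatFunc.X) (w' := RatFunc.X)
    ⟨isRep_C (h.hP.mem _), isRep_C (h.hP.mem _)⟩ ⟨isRep_X, isRep_X⟩ ⌊a (G.α (p, j))⌋
    fun k hk _ => by
      have : IsRep R.toSubring Set.univ
          (RatFunc.C (ι (G.α (p, j))) + (k : RatFunc K) * RatFunc.X)⁻¹ := by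
        refine a6_inv_lin (fun h0 => by omega) fun _ => ⟨trivial, ?_, h.intCast_inv_mem k⟩
        rw [div_eq_mul_inv]
        exact mul_mem (neg_mem (h.hP.mem _)) (h.intCast_inv_mem k)
      exact ⟨this, this⟩
  exact this.1

/-- `Ψ_p⁻¹` is regular off the points `wt` -/
theorem a6_Psi_inv_reg (p : V) {ρ : K} (hρ : ¬ ∃ j c, 1 ≤ c ∧ ρ = wt G ι (p, j) c) :
    IsReg ρ (Psi G ι a p)⁻¹ := by
  rw [Psi, ← Finset.prod_inv_distrib]
  refine isRep_prod _ _ fun j _ => ?_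
  rw [inv_inv]
  refine (a6_Gam_rel (evGraph ρ) (evGraph_C _) evGraph_X _ fun k hk _ => a6_inv_ev fun h0 => ?_).1
  obtain ⟨c, rfl⟩ := Int.eq_ofNat_of_zero_le (by omega : 0 ≤ k)
  refine hρ ⟨j, c, by omega, ?_⟩
  have : (c : K) ≠ 0 := Nat.cast_ne_zero.2 (by omega)
  rw [wt, eq_div_iff this]
  push_cast at h0
  linear_combination h0

theorem A6Ctx.pair (h : A6Ctx G ι R w a) {b : V × Fin n} (hb : a (G.α b) = 0) :
    (Psi G ι a b.1, Psi G ι a (G.rev b).1) ∈ intPairSubring R (ι (G.α b)) := by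
  rw [Psi, Psi, ← Equiv.prod_comp (G.conn b)
    fun j => (Gam (RatFunc.C (ι (G.α ((G.rev b).1, j)))) RatFunc.X ⌊a (G.α ((G.rev b).1, j))⌋)⁻¹]
  refine a6_prod_rel _ _ _ _ fun j _ => ?_
  have e1 : a (G.α ((G.rev b).1, G.conn b j)) = a (G.α (b.1, j)) := by
    rw [iota_conn (ι := a), hb]; simp
  rw [e1]
  have hB : (RatFunc.C (ι (G.α (b.1, j))), RatFunc.C (ι (G.α ((G.rev b).1, G.conn b j)))) ∈
      intPairSubring R (ι (G.α b)) := by
    refine ⟨isRep_C (h.hP.mem _), isRep_C (h.hP.mem _), ?_⟩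
    have : RatFunc.C (ι (G.α b))⁻¹ * (RatFunc.C (ι (G.α (b.1, j))) -
        RatFunc.C (ι (G.α ((G.rev b).1, G.conn b j)))) = (G.cc b j : RatFunc K) := by
      rw [iota_conn, ← map_sub, ← map_mul, ← map_intCast (RatFunc.C : K →+* RatFunc K)]
      congr 1
      have := h.hN.1 b
      field_simp; ring
    change IsInt R (RatFunc.C (ι (G.α b))⁻¹ * (_ - _))
    rw [this]
    exact isRep_intCast _
  have hX : ((RatFunc.X : RatFunc K), (RatFunc.X : RatFunc K)) ∈ intPairSubring R (ι (G.α b)) :=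
    ⟨isRep_X, isRep_X, by rw [sub_self, mul_zero]; exact isRep_zero⟩
  refine a6_Gam_inv_rel _ hB hX _ fun k hk _ => ?_
  have hne : a (G.α (b.1, j)) ≠ k := (Int.floor_lt.1 hk).ne
  exact a6_pair_inv (a6_lin_rel _ hB hX k) ((h.inv_lin hne).mono le_rfl (Set.subset_univ _))
    ((h.inv_lin (e1 ▸ hne)).mono le_rfl (Set.subset_univ _)) (a6_lin_ne (h.hN.1 _) k)
    (a6_lin_ne (h.hN.1 _) k)

omit [CharZero K] in
theorem a6_prod_range (ρ : K) (c : ℕ) :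
    ∏ k ∈ Finset.range c, ((c : K) * ρ - k * ρ) = c.factorial * ρ ^ c := by
  induction c with
  | zero => simp
  | succ c ih =>
    rw [Finset.prod_range_succ', Nat.factorial_succ]
    have : ∀ k : ℕ, ((c + 1 : ℕ) : K) * ρ - ((k + 1 : ℕ) : K) * ρ = c * ρ - k * ρ := fun k => by
      push_cast; ring
    simp only [this, ih]
    push_cast; ring

omit [CharZero K] in
theorem a6_prod_Icc (ρ : K) (c : ℕ) :
    ∏ k ∈ Finset.Icc 1 c, (-(((c + 1 : ℕ) : K) * ρ) + k * ρ) = (-1) ^ c * (c.factorial * ρ ^ c) := by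
  rw [← a6_prod_range, ← Finset.Ico_add_one_right_eq_Icc, Finset.prod_Ico_eq_prod_range,
    Nat.add_sub_cancel]
  have : ∀ k : ℕ, -(((c + 1 : ℕ) : K) * ρ) + ((1 + k : ℕ) : K) * ρ = -1 * (c * ρ - k * ρ) :=
    fun k => by push_cast; ring
  simp only [this, Finset.prod_mul_distrib, Finset.prod_const, Finset.card_range]

theorem a6_const (ρ : K) (hρ0 : ρ ≠ 0) (c : ℕ) :
    (-1 : K) ^ c * (c.factorial * ρ ^ c) * ((c + 1 : ℕ) : K) *
      ((-1) ^ c / (((c + 1).factorial : K) ^ 2 * ρ ^ (c + (c + 1)))) =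
      (((c + 1).factorial : K) * ρ ^ (c + 1))⁻¹ := by
  have hfac : ((c + 1).factorial : K) ≠ 0 := Nat.cast_ne_zero.2 (Nat.factorial_ne_zero _)
  have e6 : ((c + 1).factorial : K) = ((c + 1 : ℕ) : K) * c.factorial := by
    rw [Nat.factorial_succ]; push_cast; ring
  have e7 : ((-1 : K) ^ c) * (-1) ^ c = 1 := by rw [← mul_pow]; simp
  rw [pow_add ρ c (c + 1)]
  generalize ((-1 : K) ^ c) = s at e7 ⊢
  have h1 : ρ ^ c ≠ 0 := pow_ne_zero _ hρ0
  have h2 : ρ ^ (c + 1) ≠ 0 := pow_ne_zero _ hρ0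
  generalize ρ ^ c = x at h1 ⊢
  generalize ρ ^ (c + 1) = y at h2 ⊢
  generalize ((c + 1).factorial : K) = f at hfac e6 ⊢
  field_simp
  rw [e6]
  linear_combination ((c + 1 : ℕ) : K) * c.factorial * e7

theorem a6_target (hN : Nondeg G ι) (e : V × Fin n) {c : ℕ} (hc : 1 ≤ c) (ha : a (G.α e) = c) :
    ev (wt G ι e c) (Psi G ι a (G.rev e).1) = (c.factorial * wt G ι e c ^ c)⁻¹ *
      ((∏ j ∈ Finset.univ.erase e.2, (Gam (ι (G.α (e.1, j))) (wt G ι e c) ⌊a (G.α (e.1, j))⌋)⁻¹) *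
        ∏ j ∈ Finset.univ.erase e.2, Gam (ι (G.α (e.1, j))) (wt G ι e c) (c * G.cc e j)) := by
  have hal : ι (G.α e) = -((c : K) * wt G ι e c) := by rw [natCast_mul_wt e hc, neg_neg]
  have hρ0 := wt_ne_zero hN e hc
  have hf : ∀ j ∈ Finset.univ.erase e.2, ∀ k : ℤ, ι (G.α (e.1, j)) + k * wt G ι e c ≠ 0 :=
    fun j hj k => lin_wt_ne_zero hN e (Finset.ne_of_mem_erase hj) hc k
  generalize wt G ι e c = ρ at hal hρ0 hf ⊢
  have e0 : G.α ((G.rev e).1, G.conn e e.2) = G.α (G.rev e) := by rw [G.conn_self]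
  have e0' : ⌊a (G.α (G.rev e))⌋ = -(c : ℤ) := by
    rw [iota_rev (ι := a), ha, ← Int.cast_natCast, ← Int.cast_neg, Int.floor_intCast]
  have h5 : (Psi G ι a (G.rev e).1, ∏ j, (Gam (ι (G.α ((G.rev e).1, G.conn e j))) ρ
      ⌊a (G.α ((G.rev e).1, G.conn e j))⌋)⁻¹) ∈ evGraph ρ := by
    rw [Psi, ← Equiv.prod_comp (G.conn e) fun j =>
      (Gam (RatFunc.C (ι (G.α ((G.rev e).1, j)))) RatFunc.X ⌊a (G.α ((G.rev e).1, j))⌋)⁻¹]
    refine a6_prod_rel (evGraph ρ) _ _ _ fun j _ => ?_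
    refine a6_Gam_inv_ev fun k hk hk0 => ?_
    by_cases hj : j = e.2
    · rw [hj, e0, e0'] at hk
      rw [hj, e0, iota_rev, hal]
      intro h0
      have : ((k + c : ℤ) : K) * ρ = 0 := by push_cast; linear_combination h0
      rcases mul_eq_zero.1 this with h1 | h1
      · have := Int.cast_eq_zero.1 h1
        omega
      · exact hρ0 h1
    · have := hf j (Finset.mem_erase.2 ⟨hj, Finset.mem_univ _⟩) (G.cc e j * c + k)
      rw [iota_conn, hal]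
      intro h0
      apply this
      push_cast
      linear_combination h0
  have h6 := h5.2
  dsimp only at h6
  rw [h6, ← Finset.mul_prod_erase _ _ (Finset.mem_univ e.2), e0, e0', Gam_neg_natCast, iota_rev,
    hal, neg_neg, a6_prod_range, ← Finset.prod_mul_distrib]
  congr 1
  refine Finset.prod_congr rfl fun j hj => ?_
  have e3 : ⌊a (G.α ((G.rev e).1, G.conn e j))⌋ = ⌊a (G.α (e.1, j))⌋ - (c : ℤ) * G.cc e j := by
    rw [iota_conn (ι := a), ha, ← Int.floor_sub_intCast]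
    congr 1
    push_cast; ring
  have e4 : ι (G.α ((G.rev e).1, G.conn e j)) =
      ι (G.α (e.1, j)) + (((c : ℤ) * G.cc e j : ℤ) : K) * ρ := by
    rw [iota_conn, hal]; push_cast; ring
  have e5 := Gam_add (hf j hj) ((c : ℤ) * G.cc e j) (⌊a (G.α (e.1, j))⌋ - (c : ℤ) * G.cc e j)
  rw [add_sub_cancel] at e5
  rw [e3, e4, e5, mul_inv, mul_right_comm, inv_mul_cancel₀ (Gam_ne_zero (hf j hj) _), one_mul]

/-- the key identity -/
theorem a6_key (hN : Nondeg G ι) (e : V × Fin n) {c : ℕ} (hc : 1 ≤ c) (ha : a (G.α e) = c) :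
    ∃ Ψ' : RatFunc K, Psi G ι a e.1 = Ψ' * (RatFunc.X - RatFunc.C (wt G ι e c)) ∧
      IsReg (wt G ι e c) Ψ' ∧ IsReg (wt G ι e c) Ψ'⁻¹ ∧
      ev (wt G ι e c) Ψ' * Cc G ι e c = ev (wt G ι e c) (Psi G ι a (G.rev e).1) := by
  rw [a6_target hN e hc ha, Cc]
  have hal : ι (G.α e) = -((c : K) * wt G ι e c) := by rw [natCast_mul_wt e hc, neg_neg]
  have hρ0 := wt_ne_zero hN e hc
  have hf : ∀ j ∈ Finset.univ.erase e.2, ∀ k : ℤ, ι (G.α (e.1, j)) + k * wt G ι e c ≠ 0 :=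
    fun j hj k => lin_wt_ne_zero hN e (Finset.ne_of_mem_erase hj) hc k
  generalize wt G ι e c = ρ at hal hρ0 hf ⊢
  obtain ⟨c, rfl⟩ : ∃ c', c = c' + 1 := ⟨c - 1, by omega⟩
  have hlin : ∀ k ∈ Finset.Icc 1 c, ι (G.α e) + ((k : ℤ) : K) * ρ ≠ 0 := by
    intro k hk h0
    have hk := Finset.mem_Icc.1 hk
    rw [hal] at h0
    have : (((k : ℤ) - (c + 1 : ℕ) : ℤ) : K) * ρ = 0 := by push_cast at h0 ⊢; linear_combination h0
    rcases mul_eq_zero.1 this with h1 | h1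
    · have := Int.cast_eq_zero.1 h1
      push_cast at this; omega
    · exact hρ0 h1
  obtain ⟨P1, hP1⟩ : ∃ P1 : RatFunc K,
    P1 = ∏ k ∈ Finset.Icc 1 c, (RatFunc.C (ι (G.α e)) + (k : RatFunc K) * RatFunc.X) := ⟨_, rfl⟩
  obtain ⟨P2, hP2⟩ : ∃ P2 : RatFunc K, P2 = ∏ j ∈ Finset.univ.erase e.2,
    (Gam (RatFunc.C (ι (G.α (e.1, j)))) RatFunc.X ⌊a (G.α (e.1, j))⌋)⁻¹ := ⟨_, rfl⟩
  have h1 : (P1, ∏ k ∈ Finset.Icc 1 c, (ι (G.α e) + (k : K) * ρ)) ∈ evGraph ρ := by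
    rw [hP1]
    exact a6_prod_rel _ _ _ _ fun k _ => by simpa using a6_lin_ev (ι (G.α e)) ρ k
  have h1' : IsReg ρ P1⁻¹ := by
    rw [hP1, ← Finset.prod_inv_distrib]
    refine isRep_prod _ _ fun k hk => ?_
    have := (a6_inv_ev (hlin k hk)).1
    rwa [Int.cast_natCast] at this
  have h2 : (P2, ∏ j ∈ Finset.univ.erase e.2, (Gam (ι (G.α (e.1, j))) ρ ⌊a (G.α (e.1, j))⌋)⁻¹) ∈
      evGraph ρ := by
    rw [hP2]
    refine a6_prod_rel (evGraph ρ) _ _ _ fun j hj => ?_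
    exact a6_Gam_inv_ev fun k _ _ => hf j hj k
  have h2' : IsReg ρ P2⁻¹ := by
    rw [hP2, ← Finset.prod_inv_distrib]
    refine isRep_prod _ _ fun j hj => ?_
    rw [inv_inv]
    exact (a6_Gam_ev fun k _ _ => hf j hj k).1
  have hC := isReg_C ρ ((c + 1 : ℕ) : K)
  refine ⟨P1 * RatFunc.C ((c + 1 : ℕ) : K) * P2, ?_, (h1.1.mul hC).mul h2.1, ?_, ?_⟩
  · rw [Psi, ← Finset.mul_prod_erase _ _ (Finset.mem_univ e.2), ← hP2]
    have e0 : G.α (e.1, e.2) = G.α e := rfl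
    rw [e0, ha, Int.floor_natCast, Gam_natCast, inv_inv, Finset.prod_Icc_succ_top (by omega),
      ← hP1]
    have : RatFunc.C (ι (G.α e)) + ((c + 1 : ℕ) : RatFunc K) * RatFunc.X =
        RatFunc.C ((c + 1 : ℕ) : K) * (RatFunc.X - RatFunc.C ρ) := by
      rw [hal, map_neg, map_mul, map_natCast]; ring
    rw [this]
    ring
  · rw [mul_inv, mul_inv, ← map_inv₀]
    exact (h1'.mul (isReg_C _ _)).mul h2'
  · have e1 : ev ρ P1 = _ := h1.2
    have e2 : ev ρ P2 = _ := h2.2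
    have r1 : IsReg ρ P1 := h1.1
    have r2 : IsReg ρ P2 := h2.1
    rw [ev_mul (r1.mul hC) r2, ev_mul r1 hC, e1, e2, ev_C, hal, a6_prod_Icc, Nat.add_sub_cancel,
      show 2 * (c + 1) - 1 = c + (c + 1) by omega, ← a6_const ρ hρ0 c]
    ring

end GK4850
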