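import Pool.Agent.Lib.MP_4850ea_gt.GK.StA
import Pool.Agent.Lib.MP_4850ea_gt.GK.A6a

/-! A6: clusters at units. -/

namespace GK4850

variable {V : Type} {r n : ℕ} {G : GKM V r n} {K : Type} [Field K] [CharZero K]
  {ι : (Fin r → ℤ) →+ K} {R : ValuationSubring K} {w : K} {a : (Fin r → ℤ) →+ ℚ}

theorem A6Ctx.root (h : A6Ctx G ι R w a) {B : K} {k : ℤ} (hk : k ≠ 0)
    (hv : R.valuation (B + k * w) < 1) : -B / k ∉ away R w := by
  intro h1
  apply h1.2
  have h0 : (k : K) ≠ 0 := Int.cast_ne_zero.2 hk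
  have : -B / k - w = -((B + k * w) / k) := by field_simp; ring
  rw [this, Valuation.map_neg, map_div₀, h.hP.val_intCast hk, div_one]
  exact hv

theorem A6Ctx.div_lin (h : A6Ctx G ι R w a) {B : K} (hB : B ∈ R) {k : ℤ} (hk : k ≠ 0)
    (hv : R.valuation (B + k * w) < 1) {x : RatFunc K} (hx : IsRep R.toSubring (away R w) x)
    (h0 : ev (-B / k) x = 0) : ∃ y, IsRep R.toSubring (away R w) y ∧
      x = (RatFunc.C B + (k : RatFunc K) * RatFunc.X) * y := by
  have h1 : -B / k ∈ R := by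
    rw [div_eq_mul_inv]
    exact mul_mem (neg_mem hB) (h.intCast_inv_mem k)
  have hk0 : (k : K) ≠ 0 := Int.cast_ne_zero.2 hk
  refine ⟨RatFunc.C (k : K)⁻¹ * ((RatFunc.X - RatFunc.C (-B / k))⁻¹ * x),
    (isRep_C (h.intCast_inv_mem k)).mul (hx.div_X_sub_C (h.root hk hv) h1 h0), ?_⟩
  rw [← map_intCast (RatFunc.C : K →+* RatFunc K), lin_eq hk0, map_inv₀]
  have := X_sub_C_ne_zero' (-B / k)
  have h2 : RatFunc.C (k : K) ≠ 0 := by
    rw [Ne, map_eq_zero]; exact hk0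
  generalize RatFunc.X - RatFunc.C (-B / k) = t at this
  field_simp

theorem A6Ctx.dvd_of_dvd (h : A6Ctx G ι R w a) {p : V} {i j : Fin n} (hij : i ≠ j) {k l : ℤ}
    (hk : R.valuation (ι (G.α (p, i)) + k * w) < 1) (hl : R.valuation (ι (G.α (p, j)) + l * w) < 1)
    {y y' : RatFunc K} (hy : IsRep R.toSubring (away R w) y)
    (hy' : IsRep R.toSubring (away R w) y')
    (e : (RatFunc.C (ι (G.α (p, i))) + (k : RatFunc K) * RatFunc.X) * y =
      (RatFunc.C (ι (G.α (p, j))) + (l : RatFunc K) * RatFunc.X) * y') :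
    ∃ y'', IsRep R.toSubring (away R w) y'' ∧
      y = (RatFunc.C (ι (G.α (p, j))) + (l : RatFunc K) * RatFunc.X) * y'' := by
  have key : ∀ {i j : Fin n}, i ≠ j → ∀ {k l : ℤ}, l ≠ 0 →
      R.valuation (ι (G.α (p, j)) + l * w) < 1 → ∀ {y y' : RatFunc K},
      IsRep R.toSubring (away R w) y → IsRep R.toSubring (away R w) y' →
      (RatFunc.C (ι (G.α (p, i))) + (k : RatFunc K) * RatFunc.X) * y =
        (RatFunc.C (ι (G.α (p, j))) + (l : RatFunc K) * RatFunc.X) * y' →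
      ∃ y'', IsRep R.toSubring (away R w) y'' ∧
        y = (RatFunc.C (ι (G.α (p, j))) + (l : RatFunc K) * RatFunc.X) * y'' := by
    intro i j hij k l hl0 hl y y' hy hy' e
    refine h.div_lin (h.hP.mem _) hl0 hl hy ?_
    have hr := h.root hl0 hl
    have h1 := a6_lin_ev (ι (G.α (p, i))) (-ι (G.α (p, j)) / l) k
    have h2 := a6_lin_ev (ι (G.α (p, j))) (-ι (G.α (p, j)) / l) l
    have h3 := congrArg (ev (-ι (G.α (p, j)) / l)) e
    rw [ev_mul h1.1 (hy.isReg hr), ev_mul h2.1 (hy'.isReg hr), h1.2, h2.2] at h3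
    have hl' : (l : K) ≠ 0 := Int.cast_ne_zero.2 hl0
    dsimp only at h3
    rw [mul_div_cancel₀ _ hl', add_neg_cancel, zero_mul] at h3
    refine (mul_eq_zero.1 h3).resolve_left fun h4 => hl0 (h.hN.2 p i j hij l (-k) ?_).1
    field_simp at h4
    push_cast
    linear_combination h4
  rcases eq_or_ne l 0 with rfl | hl0
  · have hk0 : k ≠ 0 := by
      rintro rfl
      exact hij (h.hP.par p i j (by simpa [Par] using hk) (by simpa [Par] using hl))
    obtain ⟨y'', h1, h2⟩ := key hij.symm hk0 hk hy' hy e.symm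
    refine ⟨y'', h1, mul_left_cancel₀ (a6_lin_ne (h.hN.1 (p, i)) k) ?_⟩
    rw [e, h2]; ring
  · exact key hij hl0 hl hy hy' e

theorem A6Ctx.exists_sigma (h : A6Ctx G ι R w a) :
    ∃ σ : SS r →+* repSubring R.toSubring (away R w), ∀ β (k : ℤ), a β = k →
      (σ (lin β) : RatFunc K) = RatFunc.C (ι β) + (k : RatFunc K) * RatFunc.X := by
  obtain ⟨φ, hφ⟩ := h.hP.real
  let φ' : ℝ →+* repSubring R.toSubring (away R w) :=
    ((RatFunc.C : K →+* RatFunc K).comp φ).codRestrict _ fun x => isRep_C (hφ x)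
  refine ⟨MvPolynomial.eval₂Hom φ' fun i =>
    ⟨RatFunc.C (ι (Pi.single i 1)) + RatFunc.C ((a (Pi.single i 1) : ℚ) : K) * RatFunc.X,
      (isRep_C (h.hP.mem _)).add ((isRep_C (h.hP.ratCast_mem _)).mul isRep_X)⟩, fun β k hk => ?_⟩
  have hβ : β = ∑ i, β i • Pi.single i (1 : ℤ) := by
    ext j; simp [Finset.sum_apply, Pi.single_apply]
  have h1 : ι β = ∑ i, (β i : K) * ι (Pi.single i 1) := by
    conv_lhs => rw [hβ]
    rw [map_sum]
    exact Finset.sum_congr rfl fun i _ => by rw [map_zsmul, zsmul_eq_mul]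
  have h2 : a β = ∑ i, (β i : ℚ) * a (Pi.single i 1) := by
    conv_lhs => rw [hβ]
    rw [map_sum]
    exact Finset.sum_congr rfl fun i _ => by rw [map_zsmul, zsmul_eq_mul]
  have h3 : (k : RatFunc K) = RatFunc.C ((a β : ℚ) : K) := by rw [hk]; simp
  rw [h3, h1, h2, lin]
  simp only [map_sum, map_mul, MvPolynomial.eval₂Hom_X', map_intCast, Rat.cast_sum, Rat.cast_mul,
    Rat.cast_intCast, AddSubmonoidClass.coe_finsetSum, MulMemClass.coe_mul, SubringClass.coe_intCast,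
    Finset.sum_mul, ← Finset.sum_add_distrib]
  exact Finset.sum_congr rfl fun i _ => by ring

open Classical in
/-- `Ψ_q F_(q,x)` for a rational index `x` -/
noncomputable def fPhi (G : GKM V r n) (ι : (Fin r → ℤ) →+ K) (a : (Fin r → ℤ) →+ ℚ)
    (F : V → PowerSeries (RatFunc K)) (q : V) (x : ℚ) : RatFunc K :=
  if hx : ∃ j : ℕ, (j : ℚ) = x then Psi G ι a q * PowerSeries.coeff hx.choose (F q) else 0

omit [CharZero K] in
theorem fPhi_nat (F : V → PowerSeries (RatFunc K)) (q : V) (j : ℕ) :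
    fPhi G ι a F q j = Psi G ι a q * PowerSeries.coeff j (F q) := by
  have hx : ∃ i : ℕ, (i : ℚ) = j := ⟨j, rfl⟩
  rw [fPhi, dif_pos hx, Nat.cast_injective hx.choose_spec]

omit [CharZero K] in
theorem fPhi_not (F : V → PowerSeries (RatFunc K)) (q : V) {x : ℚ} (hx : ¬ ∃ j : ℕ, (j : ℚ) = x) :
    fPhi G ι a F q x = 0 := dif_neg hx

variable {u : V → PowerSeries K} {F : V → PowerSeries (RatFunc K)}

theorem A6Ctx.a_eq (h : A6Ctx G ι R w a) {e : V × Fin n} {c : ℕ} (hc : 1 ≤ c)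
    (hv : R.valuation (wt G ι e c - w) < 1) : a (G.α e) = c := by
  have := h.ha (G.α e) c (h.val_of_root (ρ := wt G ι e c) (by
    rw [Int.cast_natCast, natCast_mul_wt e hc, add_neg_cancel]) hv)
  simpa using this

omit [CharZero K] in
theorem A6Ctx.ne_zero (h : A6Ctx G ι R w a) {ρ : K} (hv : R.valuation (ρ - w) < 1) : ρ ≠ 0 := by
  rintro rfl
  rw [zero_sub, Valuation.map_neg, h.hw] at hv
  exact lt_irrefl _ hv

theorem A6Ctx.poles_sub (h : A6Ctx G ι R w a) (p : V) :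
    ({0} ∪ {x | ∃ j c, 1 ≤ c ∧ x = wt G ι (p, j) c} : Set K) ⊆ R := by
  rintro x (rfl | ⟨j, c, -, rfl⟩)
  · exact R.zero_mem
  · exact h.hP.wt_mem _ _

omit [CharZero K] in
theorem a6_isLoc {g : RatFunc K} (hg : IsRep ⊤ (R : Set K) g)
    (h : ∀ ρ, R.valuation (ρ - w) < 1 → IsReg ρ g) : IsLoc R w g := by
  refine (hg.cancel (S' := away R w) fun ρ hρ _ h1 => h ρ ?_).mono le_rfl Set.inter_subset_right
  by_contra h2
  exact h1 ⟨hρ, h2⟩

theorem A6Ctx.phi_loc (h : A6Ctx G ι R w a) {j : ℕ} (hS : SolAt G ι u F j) (q : V) :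
    IsLoc R w (Psi G ι a q * PowerSeries.coeff j (F q)) := by
  refine a6_isLoc (((h.Psi_mem q).mono le_top fun x hx => hx.1).mul
    ((hS.poles q).mono le_rfl (h.poles_sub q))) fun ρ hρ => ?_
  by_cases hex : ∃ i c, 1 ≤ c ∧ ρ = wt G ι (q, i) c
  · obtain ⟨i, c, hc, rfl⟩ := hex
    obtain ⟨Ψ', e1, r1, -, -⟩ := a6_key h.hN (q, i) hc (h.a_eq hc hρ)
    rw [e1, mul_assoc]
    exact r1.mul (hS.res (q, i) c hc).1
  · refine ((h.Psi_mem q).isReg fun h1 => h1.2 hρ).mul ((hS.poles q).isReg ?_)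
    rintro (h1 | h1)
    · exact h.ne_zero hρ h1
    · exact hex h1

theorem A6Ctx.phi_key (h : A6Ctx G ι R w a) {d : ℕ} (hS : ∀ j ≤ d, SolAt G ι u F j)
    (e : V × Fin n) {c : ℕ} (hc : 1 ≤ c) (hv : R.valuation (wt G ι e c - w) < 1) {x : ℚ}
    (hx : x ≤ d) : ev (wt G ι e c) (fPhi G ι a F e.1 x) =
      ev (wt G ι e c) (fPhi G ι a F (G.rev e).1 (x - c * G.l e)) := by
  by_cases hex : ∃ j : ℕ, (j : ℚ) = x
  · obtain ⟨j, rfl⟩ := hex
    have hj : j ≤ d := by exact_mod_cast hx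
    obtain ⟨Ψ', e1, r1, -, e2⟩ := a6_key h.hN e hc (h.a_eq hc hv)
    obtain ⟨r2, e3⟩ := (hS j hj).res e c hc
    rw [fPhi_nat, e1, mul_assoc, ev_mul r1 r2, e3]
    split_ifs with hcl
    · have : (j : ℚ) - c * G.l e = (j - c * G.l e : ℕ) := by push_cast [hcl]; ring
      rw [this, fPhi_nat, ev_mul ((h.Psi_mem _).isReg fun h1 => h1.2 hv)
        (isReg_target h.hN e hc ((hS _ ((Nat.sub_le _ _).trans hj)).poles _)), ← e2, mul_assoc]
    · rw [fPhi_not, ev_zero, mul_zero]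
      rintro ⟨i, hi⟩
      apply hcl
      have : ((i + c * G.l e : ℕ) : ℚ) = j := by push_cast; linarith
      have := Nat.cast_injective this
      omega
  · rw [fPhi_not _ _ hex, fPhi_not, ev_zero]
    rintro ⟨i, hi⟩
    exact hex ⟨i + c * G.l e, by push_cast; linarith⟩

theorem A6Ctx.phi_loc' (h : A6Ctx G ι R w a) {d : ℕ} (hS : ∀ j ≤ d, SolAt G ι u F j) (q : V)
    {x : ℚ} (hx : x ≤ d) : IsLoc R w (fPhi G ι a F q x) := by
  by_cases hex : ∃ j : ℕ, (j : ℚ) = x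
  · obtain ⟨j, rfl⟩ := hex
    rw [fPhi_nat]
    exact h.phi_loc (hS j (by exact_mod_cast hx)) q
  · rw [fPhi_not _ _ hex]; exact isRep_zero

theorem A6Ctx.phi_mem (h : A6Ctx G ι R w a) {d : ℕ} (hS : ∀ j ≤ d, SolAt G ι u F j)
    (hI : ∀ j < d, IntegralAt G ι R F j) (q : V) {x : ℚ} (hx : x < d) :
    IsRep R.toSubring (away R w) (fPhi G ι a F q x) := by
  refine isRep_away_iff.2 ⟨?_, h.phi_loc' hS q hx.le⟩
  by_cases hex : ∃ j : ℕ, (j : ℚ) = x
  · obtain ⟨j, rfl⟩ := hex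
    rw [fPhi_nat]
    exact IsRep.mul (isRep_away_iff.1 (h.Psi_mem q)).1 ((hI j (by exact_mod_cast hx)).1 q)
  · rw [fPhi_not _ _ hex]; exact isRep_zero

theorem A6Ctx.phi_pair (h : A6Ctx G ι R w a) {d : ℕ} (hS : ∀ j ≤ d, SolAt G ι u F j)
    (hI : ∀ j < d, IntegralAt G ι R F j) {b : V × Fin n} (hb : Par G ι R b) {x : ℚ} (hx : x < d) :
    IsRep R.toSubring (away R w) (RatFunc.C (ι (G.α b))⁻¹ *
      (fPhi G ι a F b.1 x - fPhi G ι a F (G.rev b).1 x)) := by
  refine isRep_away_iff.2 ⟨?_, IsRep.mul (isRep_C (Subring.mem_top _))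
    (IsRep.sub (h.phi_loc' hS _ hx.le) (h.phi_loc' hS _ hx.le))⟩
  by_cases hex : ∃ j : ℕ, (j : ℚ) = x
  · obtain ⟨j, rfl⟩ := hex
    have hj := hI j (by exact_mod_cast hx)
    have ha : a (G.α b) = 0 := by simpa using h.ha (G.α b) 0 (by simpa [Par] using hb)
    rw [fPhi_nat, fPhi_nat]
    exact ((intPairSubring R (ι (G.α b))).mul_mem (h.pair ha)
      (show (PowerSeries.coeff j (F b.1), PowerSeries.coeff j (F (G.rev b).1)) ∈ _ from
        ⟨hj.1 _, hj.1 _, hj.2 b hb⟩)).2.2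
  · rw [fPhi_not _ _ hex, fPhi_not _ _ hex, sub_self, mul_zero]; exact isRep_zero

theorem A6Ctx.val_wt (h : A6Ctx G ι R w a) {e : V × Fin n} {c : ℕ} (hc : 1 ≤ c)
    (hv : R.valuation (ι (G.α e) + ((c : ℤ) : K) * w) < 1) :
    R.valuation (wt G ι e c - w) < 1 := by
  have h1 := h.root (k := c) (by omega) hv
  rw [Int.cast_natCast] at h1
  by_contra h2
  exact h1 ⟨h.hP.wt_mem e c, h2⟩

theorem a6 (h5 : A5St) : A6St := by
  intro V _ r n G hM K _ _ ι hN R hP u F d hS hI w hw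
  classical
  obtain ⟨a, h⟩ := a6_exists hN hP hw
  obtain ⟨σ, hσ⟩ := h.exists_sigma
  let Λ : AddSubgroup (Fin r → ℤ) :=
    { carrier := {β | ∃ k : ℤ, R.valuation (ι β + k * w) < 1}
      add_mem' := by
        rintro β γ ⟨k, hk⟩ ⟨l, hl⟩
        refine ⟨k + l, ?_⟩
        have := R.valuation.map_add_lt hk hl
        convert this using 2
        rw [map_add]; push_cast; ring
      zero_mem' := ⟨0, by simp⟩
      neg_mem' := by
        rintro β ⟨k, hk⟩
        refine ⟨-k, ?_⟩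
        rw [← Valuation.map_neg] at hk
        convert hk using 2
        rw [map_neg]; push_cast; ring }
  have hdvd : ∀ (β : Fin r → ℤ) (k : ℤ), a β = k → ∀ x : repSubring R.toSubring (away R w),
      σ (lin β) ∣ x ↔ ∃ y, IsRep R.toSubring (away R w) y ∧
        (x : RatFunc K) = (RatFunc.C (ι β) + (k : RatFunc K) * RatFunc.X) * y := by
    intro β k hk x
    rw [← hσ β k hk]
    constructor
    · rintro ⟨y, rfl⟩
      exact ⟨y, y.2, rfl⟩
    · rintro ⟨y, hy, e⟩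
      exact ⟨⟨y, hy⟩, Subtype.ext e⟩
  have hcop : ∀ (p : V) (s : Finset (Fin n)) (x : repSubring R.toSubring (away R w)),
      (∀ j ∈ s, G.α (p, j) ∈ Λ ∧ σ (lin (G.α (p, j))) ∣ x) →
        (∏ j ∈ s, σ (lin (G.α (p, j)))) ∣ x := by
    intro p s
    induction s using Finset.induction_on with
    | empty => intro x _; simp
    | insert i s hi ih =>
      intro x hx
      obtain ⟨⟨k, hk⟩, y, rfl⟩ := hx i (Finset.mem_insert_self _ _)
      rw [Finset.prod_insert hi]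
      refine mul_dvd_mul_left _ (ih y fun j hj => ?_)
      obtain ⟨⟨l, hl⟩, hj'⟩ := hx j (Finset.mem_insert_of_mem hj)
      refine ⟨⟨l, hl⟩, (hdvd _ l (h.ha _ l hl) y).2 ?_⟩
      obtain ⟨y', hy', e⟩ := (hdvd _ l (h.ha _ l hl) _).1 hj'
      rw [MulMemClass.coe_mul, hσ _ k (h.ha _ k hk)] at e
      exact h.dvd_of_dvd (fun hij : i = j => hi (hij ▸ hj)) hk hl y.2 hy' e
  let ht : V → ℚ := fun q => -∑ j, a (G.α (q, j))
  have hht : ∀ e, ht (G.rev e).1 = ht e.1 + G.l e * a (G.α e) := fun e => by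
    have := c1_sub (G := G) (ι := a) e
    simp only [ht]
    linarith
  have main : ∀ p, ∃ Φ : V → repSubring R.toSubring (away R w),
      (∀ e, G.α e ∈ Λ → σ (lin (G.α e)) ∣ Φ e.1 - Φ (G.rev e).1) ∧
      ∀ q, ht q = ht p →
        IsLoc R w (PowerSeries.coeff d (F q) - (Φ q : RatFunc K) * (Psi G ι a q)⁻¹) := by
    intro p
    let φ : V → repSubring R.toSubring (away R w) := fun q =>
      if hq : ht p < ht q then ⟨fPhi G ι a F q (d + ht p - ht q), h.phi_mem hS hI q (by linarith)⟩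
      else 0
    have hφ : ∀ q, ht p < ht q → (φ q : RatFunc K) = fPhi G ι a F q (d + ht p - ht q) :=
      fun q hq => by simp only [φ, dif_pos hq]
    obtain ⟨Φ, hΦ1, hΦ2⟩ := h5 V r n G.toGraph hM Λ a _ σ hcop {q | ht p < ht q} φ (by
      rintro e ⟨k, hk⟩ h0 (he : ht p < ht e.1)
      have hak := h.ha _ k hk
      have he' : ht p < ht (G.rev e).1 := by
        rw [hht]
        have : (0 : ℚ) ≤ G.l e * a (G.α e) := mul_nonneg (Nat.cast_nonneg _) h0
        linarith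
      refine ⟨he', (hdvd _ k hak _).2 ?_⟩
      rw [AddSubgroupClass.coe_sub, hφ _ he, hφ _ he']
      rcases eq_or_ne k 0 with rfl | hk0
      · have hb : Par G ι R e := by simpa [Par] using hk
        have : ht (G.rev e).1 = ht e.1 := by rw [hht, hak]; simp
        rw [this]
        refine ⟨_, h.phi_pair hS hI hb (x := d + ht p - ht e.1) (by linarith), ?_⟩
        rw [Int.cast_zero, zero_mul, add_zero, ← mul_assoc, ← map_mul,
          mul_inv_cancel₀ (hN.1 e), map_one, one_mul]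
      · have hk1 : 0 ≤ k := by rw [hak] at h0; exact_mod_cast h0
        obtain ⟨c, rfl⟩ := Int.eq_ofNat_of_zero_le hk1
        have hc : 1 ≤ c := by omega
        have hv := h.val_wt hc hk
        have m1 := h.phi_mem hS hI e.1 (x := d + ht p - ht e.1) (by linarith)
        have m2 := h.phi_mem hS hI (G.rev e).1 (x := d + ht p - ht (G.rev e).1) (by linarith)
        refine h.div_lin (hP.mem _) hk0 hk (m1.sub m2) ?_
        rw [Int.cast_natCast]
        change ev (wt G ι e c) _ = 0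
        rw [ev_sub (m1.isReg fun h1 => h1.2 hv) (m2.isReg fun h1 => h1.2 hv),
          h.phi_key hS e hc hv (by linarith), hht, hak, sub_eq_zero]
        congr 2
        push_cast; ring)
    refine ⟨Φ, hΦ1, fun q hq => ?_⟩
    have hΨ := h.Psi_ne q
    have hD : IsLoc R w (Psi G ι a q * PowerSeries.coeff d (F q) - Φ q) :=
      IsRep.sub (h.phi_loc (hS d le_rfl) q) (isRep_away_iff.1 (Φ q).2).2
    have e0 : PowerSeries.coeff d (F q) - (Φ q : RatFunc K) * (Psi G ι a q)⁻¹ =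
        (Psi G ι a q)⁻¹ * (Psi G ι a q * PowerSeries.coeff d (F q) - Φ q) := by
      field_simp
    rw [e0]
    have hR : IsRep ⊤ (R : Set K) (Psi G ι a q)⁻¹ := by
      obtain ⟨s, P, hs, hP', e⟩ := h.Psi_inv_int q
      exact ⟨s, P, fun x hx => ⟨(hs x hx).2, trivial⟩, fun _ => trivial, e⟩
    refine a6_isLoc (hR.mul (hD.mono le_rfl fun x hx => hx.1)) fun ρ hρ => ?_
    have rD : IsReg ρ (Psi G ι a q * PowerSeries.coeff d (F q) - Φ q) :=
      hD.isReg fun h1 => h1.2 hρ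
    by_cases hex : ∃ i c, 1 ≤ c ∧ ρ = wt G ι (q, i) c
    swap
    · exact (a6_Psi_inv_reg q hex).mul rD
    obtain ⟨i, c, hc, rfl⟩ := hex
    have hac := h.a_eq hc hρ
    obtain ⟨Ψ', e1, -, r1, -⟩ := a6_key hN (q, i) hc hac
    have hlam : R.valuation (ι (G.α (q, i)) + ((c : ℤ) : K) * w) < 1 :=
      h.val_of_root (by rw [Int.cast_natCast, natCast_mul_wt _ hc, add_neg_cancel]) hρ
    have ht' : ht (G.rev (q, i)).1 = ht p + G.l (q, i) * c := by rw [hht, hac, ← hq]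
    have hU : ht p < ht (G.rev (q, i)).1 := by
      rw [ht']
      have h1 : (1 : ℚ) ≤ G.l (q, i) := by exact_mod_cast G.l_pos (q, i)
      have h2 : (1 : ℚ) ≤ c := by exact_mod_cast hc
      nlinarith
    have hz : ev (wt G ι (q, i) c) (Psi G ι a q * PowerSeries.coeff d (F q) - Φ q) = 0 := by
      have reg : ∀ y, IsRep R.toSubring (away R w) y → IsReg (wt G ι (q, i) c) y :=
        fun y hy => hy.isReg fun h1 => h1.2 hρ
      obtain ⟨y, hy, e2⟩ := (hdvd _ c (by simpa using hac) _).1 (hΦ1 (q, i) ⟨c, hlam⟩)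
      have h1 := a6_lin_ev (ι (G.α (q, i))) (wt G ι (q, i) c) c
      have h2 := congrArg (ev (wt G ι (q, i) c)) e2
      rw [ev_mul h1.1 (reg y hy), h1.2, AddSubgroupClass.coe_sub,
        ev_sub (reg _ (Φ _).2) (reg _ (Φ _).2), hΦ2 _ hU, hφ _ hU] at h2
      dsimp only at h2
      rw [Int.cast_natCast, natCast_mul_wt _ hc, add_neg_cancel, zero_mul, sub_eq_zero] at h2
      have h3 := h.phi_key hS (q, i) hc hρ (x := d) le_rfl
      rw [fPhi_nat] at h3
      rw [ev_sub ((h.phi_loc (hS d le_rfl) q).isReg fun h1 => h1.2 hρ) (reg _ (Φ _).2), h2, h3,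
        ht', sub_eq_zero]
      congr 2
      ring
    have r2 := r1.mul (rD.div_X_sub_C hz)
    have e3 : (Psi G ι a q)⁻¹ = Ψ'⁻¹ * (RatFunc.X - RatFunc.C (wt G ι (q, i) c))⁻¹ := by
      rw [← mul_inv]; exact congrArg _ e1
    rw [e3, mul_assoc]
    exact r2
  refine ⟨fun p => ?_, fun b hb => ?_⟩
  · obtain ⟨Φ, -, h2⟩ := main p
    exact ⟨_, IsRep.mul (isRep_away_iff.1 (Φ p).2).1 (h.Psi_inv_int p), h2 p rfl⟩
  · obtain ⟨Φ, h1, h2⟩ := main b.1
    have hv : R.valuation (ι (G.α b) + ((0 : ℤ) : K) * w) < 1 := by simpa [Par] using hb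
    have ha : a (G.α b) = 0 := by simpa using h.ha _ 0 hv
    obtain ⟨y, hy, e⟩ := (hdvd _ 0 (by simpa using ha) _).1 (h1 b ⟨0, hv⟩)
    have p1 : ((Φ b.1 : RatFunc K), (Φ (G.rev b).1 : RatFunc K)) ∈
        intPairSubring R (ι (G.α b)) := by
      refine ⟨(isRep_away_iff.1 (Φ _).2).1, (isRep_away_iff.1 (Φ _).2).1, ?_⟩
      rw [AddSubgroupClass.coe_sub] at e
      dsimp only
      rw [e, Int.cast_zero, zero_mul, add_zero, ← mul_assoc, ← map_mul,
        inv_mul_cancel₀ (hN.1 b), map_one, one_mul]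
      exact (isRep_away_iff.1 hy).1
    have p2 := a6_pair_inv (h.pair ha) (h.Psi_inv_int _) (h.Psi_inv_int _) (h.Psi_ne _)
      (h.Psi_ne _)
    refine ⟨_, ((intPairSubring R (ι (G.α b))).mul_mem p1 p2).2.2, ?_⟩
    have l1 := h2 b.1 rfl
    have l2 := h2 (G.rev b).1 (by rw [hht, ha]; simp)
    have := IsRep.mul (isRep_C (Subring.mem_top (ι (G.α b))⁻¹)) (IsRep.sub l1 l2)
    unfold IsLoc
    convert this using 1
    simp only [Prod.fst_mul, Prod.snd_mul]
    ring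

end GK4850
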