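import Pool.Agent.Lib.MP_4850ea_gt.GK.StA
import Pool.Agent.Lib.MP_4850ea_gt.GK.A3

/-! A7a: poles, residues, integrality and variation of the generators `G(b)`. -/

namespace GK4850

open PowerSeries

noncomputable section

/-- the coefficient of degree `d` of `∑ q ^ (l m) φ_m I_m` -/
def a7aGen {B : Type} [CommRing B] (l : ℕ) (φ : ℕ → B⟦X⟧) (I : ℕ → B) (d : ℕ) : B :=
  ∑ m ∈ Finset.range (d + 1), (if l * m ≤ d then coeff (d - l * m) (φ m) else 0) * I m

section Rel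
variable {B B' : Type} [CommRing B] [CommRing B'] (T : Subring (B × B'))

theorem a7a_mul_rel {x y : B} {x' y' : B'} (h1 : (x, x') ∈ T) (h2 : (y, y') ∈ T) :
    (x * y, x' * y') ∈ T := T.mul_mem h1 h2

theorem a7a_prod_rel {J : Type} (s : Finset J) {f : J → B} {f' : J → B'}
    (h : ∀ j ∈ s, (f j, f' j) ∈ T) : (∏ j ∈ s, f j, ∏ j ∈ s, f' j) ∈ T := by
  have : (∏ j ∈ s, f j, ∏ j ∈ s, f' j) = ∏ j ∈ s, (f j, f' j) := by
    ext
    · simp [Prod.fst_prod]
    · simp [Prod.snd_prod]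
  rw [this]
  exact T.prod_mem h

theorem a7a_gen_rel (l : ℕ) {φ : ℕ → B⟦X⟧} {φ' : ℕ → B'⟦X⟧} {I : ℕ → B} {I' : ℕ → B'}
    (h1 : ∀ m j, (coeff j (φ m), coeff j (φ' m)) ∈ T) (h2 : ∀ m, (I m, I' m) ∈ T) (d : ℕ) :
    (a7aGen l φ I d, a7aGen l φ' I' d) ∈ T := by
  have : (a7aGen l φ I d, a7aGen l φ' I' d) = ∑ m ∈ Finset.range (d + 1),
      ((if l * m ≤ d then coeff (d - l * m) (φ m) else 0),
        (if l * m ≤ d then coeff (d - l * m) (φ' m) else 0)) * (I m, I' m) := by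
    ext
    · simp only [a7aGen, Prod.fst_sum, Prod.fst_mul]
    · simp only [a7aGen, Prod.snd_sum, Prod.snd_mul]
  rw [this]
  refine T.sum_mem fun m _ => T.mul_mem ?_ (h2 m)
  split_ifs
  · exact h1 _ _
  · exact T.zero_mem

end Rel

theorem a7a_gam_rel {L L' : Type} [Field L] [Field L'] (T : Subring (L × L')) {B w : L}
    {B' w' : L'} (h1 : ∀ k : ℕ, 1 ≤ k → ((B + k * w)⁻¹, (B' + k * w')⁻¹) ∈ T)
    (h2 : (B, B') ∈ T) (h3 : (w, w') ∈ T) (m : ℤ) : (Gam B w m, Gam B' w' m) ∈ T := by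
  unfold Gam
  split_ifs
  · rw [← Finset.prod_inv_distrib, ← Finset.prod_inv_distrib]
    exact a7a_prod_rel T _ fun k hk => h1 k (Finset.mem_Icc.1 hk).1
  · exact a7a_prod_rel T _ fun k _ => T.sub_mem h2 (T.mul_mem (natCast_mem T k) h3)

theorem a7a_gen_mul {B : Type} [CommRing B] (l : ℕ) (φ : ℕ → B⟦X⟧) (I : ℕ → B) (d : ℕ) (x : B) :
    x * a7aGen l φ I d = a7aGen l φ (fun m => x * I m) d := by
  simp only [a7aGen, Finset.mul_sum, mul_left_comm]

theorem a7a_gen_shift {B : Type} [CommRing B] {l c : ℕ} (hl : 1 ≤ l) {φ φ' : ℕ → B⟦X⟧}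
    {I I' : ℕ → B} {κ : B} (h0 : ∀ m < c, I m = 0) (h1 : ∀ m, I (c + m) = κ * I' m)
    (h2 : ∀ m, φ (c + m) = φ' m) (d : ℕ) :
    a7aGen l φ I d = if c * l ≤ d then κ * a7aGen l φ' I' (d - c * l) else 0 := by
  split_ifs with h
  · have hc : c ≤ c * l := Nat.le_mul_of_pos_right c hl
    obtain ⟨e, rfl⟩ := Nat.exists_eq_add_of_le h
    rw [Nat.add_sub_cancel_left, a7aGen, a7aGen,
      show c * l + e + 1 = c + (c * l - c + e + 1) by omega, Finset.sum_range_add,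
      Finset.sum_eq_zero fun m hm => by rw [h0 m (Finset.mem_range.1 hm), mul_zero], zero_add,
      Finset.mul_sum]
    symm
    refine (Finset.sum_subset (s₂ := Finset.range (c * l - c + e + 1))
      (Finset.range_subset_range.2 (by omega)) fun m _ hm => ?_).trans
      (Finset.sum_congr rfl fun m _ => ?_)
    · have : m ≤ l * m := Nat.le_mul_of_pos_left m hl
      rw [Finset.mem_range] at hm
      rw [if_neg (by omega), zero_mul, mul_zero]
    · rw [h1, h2, mul_add, mul_comm l c, Nat.add_sub_add_left, mul_left_comm]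
      simp only [Nat.add_le_add_iff_left]
  · refine Finset.sum_eq_zero fun m _ => ?_
    rcases lt_or_ge m c with hm | hm
    · rw [h0 m hm, mul_zero]
    · have : c * l ≤ l * m := by rw [mul_comm]; exact Nat.mul_le_mul_left l hm
      rw [if_neg (by omega), zero_mul]

variable {V : Type} {r n : ℕ} {G : GKM V r n} {K : Type} [Field K] [CharZero K]
  {ι : (Fin r → ℤ) →+ K} {R : ValuationSubring K}

/-- the exponent -/
def a7aEx (a : K) (y₀ y : K⟦X⟧) (m : ℕ) : (RatFunc K)⟦X⟧ :=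
  overZ (y₀ + C (a / 2) * y) + PowerSeries.map (RatFunc.C : K →+* RatFunc K) (C (m : K) * y)

theorem a7a_coeff_ex (a : K) (y₀ y : K⟦X⟧) (m j : ℕ) : coeff j (a7aEx a y₀ y m) =
    RatFunc.C (coeff j y₀ + a / 2 * coeff j y) * RatFunc.X⁻¹ + RatFunc.C (m * coeff j y) := by
  rw [a7aEx, map_add, coeff_overZ, coeff_map, map_add, coeff_C_mul, coeff_C_mul]

theorem a7a_coeff_Gb (b : V × Fin n) (y₀ y : K⟦X⟧) (d : ℕ) : coeff d (Gb G ι b y₀ y) =
    a7aGen (G.l b) (fun m => expS (a7aEx (ι (G.α b)) y₀ y m)) (Im G ι b) d := by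
  rw [Gb, coeff_mk, a7aGen]
  refine Finset.sum_congr rfl fun m _ => ?_
  rw [coeff_mul_C, coeff_X_pow_mul']
  rfl

theorem a7a_Im_zero (b : V × Fin n) : Im G ι b 0 = 1 := by
  simp [Im, Gam_zero]

omit [CharZero K] in
theorem a7a_Im (b : V × Fin n) (m : ℕ) : Im G ι b m =
    (∏ j ∈ Finset.univ.erase b.2, Gam (RatFunc.C (ι (G.α (b.1, j)))) RatFunc.X (m * G.cc b j)) *
      ∏ k ∈ Finset.Icc 1 m, ((RatFunc.C (0 : K) + (k : RatFunc K) * RatFunc.X)⁻¹ *
        (RatFunc.C (ι (G.α b)) + (k : RatFunc K) * RatFunc.X)⁻¹) := by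
  rw [Im, div_eq_mul_inv, ← Finset.prod_inv_distrib]
  simp only [mul_inv, map_zero, zero_add]

theorem a7a_Im_rev (b : V × Fin n) (m : ℕ) : Im G ι (G.rev b) m =
    (∏ j ∈ Finset.univ.erase b.2, Gam (RatFunc.C (ι (G.α (b.1, j)) - G.cc b j * ι (G.α b)))
      RatFunc.X (m * G.cc b j)) *
      ∏ k ∈ Finset.Icc 1 m, ((RatFunc.C (0 : K) + (k : RatFunc K) * RatFunc.X)⁻¹ *
        (RatFunc.C (-ι (G.α b)) + (k : RatFunc K) * RatFunc.X)⁻¹) := by
  rw [a7a_Im, iota_rev]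
  congr 1
  symm
  refine Finset.prod_equiv (G.conn b) (fun j => ?_) fun j _ => by rw [iota_conn, G.cc_rev]
  simp [← G.conn_self b]

omit [CharZero K] in
theorem a7a_inv_X {N : Subring K} {S : Set K} (h : (0 : K) ∈ S) :
    IsRep N S (RatFunc.X : RatFunc K)⁻¹ := by
  simpa using isRep_inv_X_sub_C (N := N) h N.zero_mem

theorem a7a_inv_lin {N : Subring K} {S : Set K} {a : K} {k : ℕ} (hk : 1 ≤ k) (h1 : -a / k ∈ S)
    (h2 : a ∈ N) (h3 : (k : K)⁻¹ ∈ N) :
    IsRep N S (RatFunc.C a + (k : RatFunc K) * RatFunc.X)⁻¹ := by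
  rw [← map_natCast (RatFunc.C : K →+* RatFunc K) k]
  exact isRep_inv_lin (Nat.cast_ne_zero.2 (by omega)) h1
    (by rw [div_eq_mul_inv]; exact N.mul_mem (N.neg_mem h2) h3) h3

theorem a7a_lin_ne (a : K) {k : ℕ} (hk : 1 ≤ k) :
    RatFunc.C a + (k : RatFunc K) * RatFunc.X ≠ 0 := by
  intro h
  have hk' : (k : K) ≠ 0 := Nat.cast_ne_zero.2 (by omega)
  have h1 : algebraMap (Polynomial K) (RatFunc K)
      (Polynomial.C (k : K) * Polynomial.X + Polynomial.C a) = 0 := by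
    rw [← h, add_comm]; simp
  have h2 := congrArg (fun P => Polynomial.coeff P 1) ((RatFunc.algebraMap_injective K)
    (h1.trans (map_zero _).symm))
  simp [hk'] at h2

/-! ### Poles -/

theorem a7a_poles (hP : Place G ι R) {b : V × Fin n} (hb : Par G ι R b) (y₀ y : K⟦X⟧) (d : ℕ) :
    IsRep ⊤ ({0} ∪ {w | ∃ c, 1 ≤ c ∧ w = wt G ι b c} ∪ away R 0) (coeff d (Gb G ι b y₀ y)) := by
  set S : Set K := {0} ∪ {w | ∃ c, 1 ≤ c ∧ w = wt G ι b c} ∪ away R 0 with hS
  have h0 : (0 : K) ∈ S := Or.inl (Or.inl rfl)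
  let T := (repSubring ⊤ S).prod (repSubring ⊤ S)
  have dg : ∀ g, IsRep ⊤ S g → (g, g) ∈ T := fun g h => ⟨h, h⟩
  rw [a7a_coeff_Gb]
  refine (a7a_gen_rel T _ (fun m j => dg _ ?_) (fun m => dg _ ?_) d).1
  · refine expS_mem (repSubring ⊤ S) (isRep_algebraMap_rat S) _ _ fun i _ => ?_
    rw [a7a_coeff_ex]
    exact ((isRep_C (Subring.mem_top _)).mul (a7a_inv_X h0)).add (isRep_C (Subring.mem_top _))
  · rw [a7a_Im]
    refine (isRep_prod _ _ fun j hj => ?_).mul (isRep_prod _ _ fun k hk => ?_)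
    · refine (a7a_gam_rel T (fun k hk => dg _ (a7a_inv_lin hk (Or.inr ?_) trivial trivial))
        (dg _ (isRep_C trivial)) (dg _ isRep_X) _).1
      have hj' : ¬ Par G ι R (b.1, j) := fun h =>
        Finset.ne_of_mem_erase hj (hP.par b.1 j b.2 h hb)
      refine ⟨hP.wt_mem (b.1, j) k, ?_⟩
      rw [sub_zero]
      change ¬ R.valuation (wt G ι (b.1, j) k) < 1
      rw [hP.val_wt _ hk]
      exact hj'
    · have hk := (Finset.mem_Icc.1 hk).1
      exact (a7a_inv_lin (N := ⊤) hk (by simpa using h0) trivial trivial).mul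
        (a7a_inv_lin (N := ⊤) hk (Or.inl (Or.inr ⟨k, hk, rfl⟩)) trivial trivial)

/-! ### Integral pairs -/

omit [CharZero K] in
theorem a7a_pair_of {al : K} (hal : al ≠ 0) {g g' h : RatFunc K} (h1 : IsInt R g)
    (h2 : IsInt R g') (h3 : IsInt R h) (e : g - g' = RatFunc.C al * h) :
    (g, g') ∈ intPairSubring R al := by
  refine ⟨h1, h2, ?_⟩
  change IsInt R (RatFunc.C al⁻¹ * (g - g'))
  rwa [e, ← mul_assoc, ← map_mul, inv_mul_cancel₀ hal, map_one, one_mul]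

theorem a7a_pair_inv (hP : Place G ι R) {al a a' c : K} (hal : al ≠ 0) (ha : a ∈ R) (ha' : a' ∈ R)
    (hc : c ∈ R) (e : a' = a - c * al) {k : ℕ} (hk : 1 ≤ k) :
    ((RatFunc.C a + (k : RatFunc K) * RatFunc.X)⁻¹,
      (RatFunc.C a' + (k : RatFunc K) * RatFunc.X)⁻¹) ∈ intPairSubring R al := by
  have h1 : IsInt R _ := a7a_inv_lin (N := R.toSubring) hk trivial ha (hP.natCast_inv_mem k)
  have h2 : IsInt R _ := a7a_inv_lin (N := R.toSubring) hk trivial ha' (hP.natCast_inv_mem k)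
  refine a7a_pair_of hal h1 h2 (((isRep_C (N := R.toSubring) hc).neg.mul h1).mul h2) ?_
  have n1 := a7a_lin_ne a hk
  have n2 := a7a_lin_ne a' hk
  field_simp
  rw [e, map_sub, map_mul]
  ring

theorem a7a_pair (hN : Nondeg G ι) (hP : Place G ι R) (b : V × Fin n) {y₀ y : K⟦X⟧}
    (h0 : ∀ j, coeff j y₀ ∈ R) (h1 : ∀ j, coeff j y ∈ R) (d : ℕ) :
    IntPair R (ι (G.α b)) (coeff d (Gb G ι b y₀ y)) (coeff d (Gb G ι (G.rev b) y₀ y)) := by
  have hal := hN.1 b
  have halR := hP.mem (G.α b)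
  have dg : ∀ g, IsInt R g → (g, g) ∈ intPairSubring R (ι (G.α b)) := fun g h =>
    a7a_pair_of hal h h isRep_zero (by simp)
  have iX : IsInt R (RatFunc.X : RatFunc K)⁻¹ := a7a_inv_X trivial
  have h2 : ∀ a ∈ R, a / 2 ∈ R := fun a ha => by
    rw [div_eq_mul_inv]; exact R.mul_mem _ _ ha (by simpa using hP.natCast_inv_mem 2)
  have ex : ∀ a ∈ R, ∀ m j : ℕ, IsInt R (coeff j (a7aEx a y₀ y m)) := fun a ha m j => by
    rw [a7a_coeff_ex]
    exact ((isRep_C (R.add_mem _ _ (h0 j) (R.mul_mem _ _ (h2 a ha) (h1 j)))).mul iX).add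
      (isRep_C (R.mul_mem _ _ (natCast_mem R m) (h1 j)))
  rw [a7a_coeff_Gb, a7a_coeff_Gb, G.l_rev, iota_rev]
  refine a7a_gen_rel (intPairSubring R (ι (G.α b))) _ (fun m j => ?_) (fun m => ?_) d
  · refine expS_rel _ (fun q => dg _ (hP.algebraMap_isRep _ q)) _ _ _ fun i _ => ?_
    refine a7a_pair_of hal (ex _ halR m i) (ex _ (R.neg_mem _ halR) m i)
      ((isRep_C (N := R.toSubring) (h1 i)).mul iX) ?_
    rw [a7a_coeff_ex, a7a_coeff_ex, add_sub_add_right_eq_sub, ← sub_mul, ← map_sub, ← mul_assoc,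
      ← map_mul]
    congr 2
    ring
  · rw [a7a_Im, a7a_Im_rev]
    refine a7a_mul_rel _ (a7a_prod_rel _ _ fun j _ => ?_) (a7a_prod_rel _ _ fun k hk => ?_)
    · have ha := hP.mem (G.α (b.1, j))
      have hc : (G.cc b j : K) ∈ R := intCast_mem R _
      have ha' : ι (G.α (b.1, j)) - G.cc b j * ι (G.α b) ∈ R :=
        sub_mem ha (R.mul_mem _ _ hc halR)
      refine a7a_gam_rel _ (fun k hk => a7a_pair_inv hP hal ha ha' hc rfl hk)
        (a7a_pair_of hal (isRep_C ha) (isRep_C ha') (isRep_C (N := R.toSubring) hc) ?_)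
        (dg _ isRep_X) _
      rw [← map_sub, ← map_mul]
      congr 1
      ring
    · have hk := (Finset.mem_Icc.1 hk).1
      exact a7a_mul_rel _
        (a7a_pair_inv hP hal R.zero_mem R.zero_mem R.zero_mem (by ring) hk)
        (a7a_pair_inv hP hal halR (R.neg_mem _ halR) (c := 2) (by simp)
          (by ring) hk)

/-! ### Residues -/

omit [CharZero K] in
theorem a7a_ev_C (w a : K) : (RatFunc.C a, a) ∈ evGraph w := ⟨isRep_C trivial, ev_C a⟩

omit [CharZero K] in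
theorem a7a_ev_X (w : K) : (RatFunc.X, w) ∈ evGraph w := ⟨isRep_X, ev_X⟩

theorem a7a_ev_inv {w a : K} {k : ℕ} (hk : 1 ≤ k) (h : a + k * w ≠ 0) :
    ((RatFunc.C a + (k : RatFunc K) * RatFunc.X)⁻¹, (a + k * w)⁻¹) ∈ evGraph w := by
  have hk' : (k : K) ≠ 0 := Nat.cast_ne_zero.2 (by omega)
  have h1 : (RatFunc.C a + (k : RatFunc K) * RatFunc.X, a + k * w) ∈ evGraph w :=
    (evGraph w).add_mem (a7a_ev_C w a) ((evGraph w).mul_mem (natCast_mem _ k) (a7a_ev_X w))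
  have h2 : IsReg w (RatFunc.C a + (k : RatFunc K) * RatFunc.X)⁻¹ :=
    a7a_inv_lin hk (fun e => h (by rw [← Set.mem_singleton_iff.1 e]; field_simp; ring))
      trivial trivial
  exact ⟨h2, (ev_inv h1.1 h2 (a7a_lin_ne a hk)).2.trans (congrArg _ h1.2)⟩

theorem a7a_ev_exp {w : K} (hw : w ≠ 0) (a : K) (y₀ y : K⟦X⟧) (m j : ℕ) :
    (coeff j (expS (a7aEx a y₀ y m)), coeff j (expS (C w⁻¹ * y₀ + C (a / 2 * w⁻¹ + m) * y))) ∈
      evGraph w := by
  refine expS_rel _ (fun q => ?_) _ _ _ fun i _ => ?_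
  · rw [eq_ratCast, eq_ratCast, ← map_ratCast (RatFunc.C : K →+* RatFunc K)]
    exact a7a_ev_C w _
  · have h1 := a7a_ev_inv (w := w) (a := 0) le_rfl (by simpa using hw)
    simp only [map_zero, Nat.cast_one, one_mul, zero_add] at h1
    have h2 := (evGraph w).add_mem ((evGraph w).mul_mem
      (a7a_ev_C w (coeff i y₀ + a / 2 * coeff i y)) h1) (a7a_ev_C w (m * coeff i y))
    rw [a7a_coeff_ex, map_add (coeff i), coeff_C_mul, coeff_C_mul]
    convert h2 using 1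
    ext
    · rfl
    · simp only [Prod.snd_add, Prod.snd_mul]; ring

theorem a7a_ev_gam {w a : K} (h : ∀ k : ℤ, a + k * w ≠ 0) (m : ℤ) :
    (Gam (RatFunc.C a) RatFunc.X m, Gam a w m) ∈ evGraph w :=
  a7a_gam_rel (evGraph w) (fun k hk => a7a_ev_inv hk (by exact_mod_cast h k)) (a7a_ev_C w a)
    (a7a_ev_X w) m

theorem a7a_ev_fac {w a : K} (hw : w ≠ 0) {k : ℕ} (hk : 1 ≤ k) (h : a + k * w ≠ 0) :
    ((RatFunc.C (0 : K) + (k : RatFunc K) * RatFunc.X)⁻¹ *
      (RatFunc.C a + (k : RatFunc K) * RatFunc.X)⁻¹, (0 + k * w)⁻¹ * (a + k * w)⁻¹) ∈ evGraph w :=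
  (evGraph w).mul_mem (a7a_ev_inv hk (by
    rw [zero_add]; exact mul_ne_zero (Nat.cast_ne_zero.2 (by omega)) hw)) (a7a_ev_inv hk h)

omit [CharZero K] in
theorem a7a_fact (w : K) (e : ℕ) :
    ∏ k ∈ Finset.Icc 1 e, ((0 + k * w)⁻¹ * (-((e + 1 : ℕ) * w) + k * w)⁻¹) =
      (-1) ^ e / ((e.factorial : K) ^ 2 * w ^ (2 * e)) := by
  have h1 : ∏ k ∈ Finset.range e, ((k + 1 : ℕ) : K) = e.factorial := by
    rw [← Finset.prod_range_add_one_eq_factorial, Nat.cast_prod]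
  have h2 : ∏ k ∈ Finset.range e, ((e : K) - k) = e.factorial := by
    rw [← h1, ← Finset.prod_range_reflect]
    refine Finset.prod_congr rfl fun k hk => ?_
    have hk := Finset.mem_range.1 hk
    obtain ⟨i, rfl⟩ : ∃ i, e = k + 1 + i := ⟨e - (k + 1), by omega⟩
    rw [show k + 1 + i - 1 - k = i by omega]
    push_cast; ring
  rw [← Finset.Ico_add_one_right_eq_Icc, Finset.prod_Ico_eq_prod_range, Nat.add_sub_cancel]
  have h3 : ∀ k : ℕ, (0 + ((1 + k : ℕ) : K) * w)⁻¹ * (-((e + 1 : ℕ) * w) + (1 + k : ℕ) * w)⁻¹ =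
      -1 * (((k + 1 : ℕ) : K) * ((e : K) - k) * w ^ 2)⁻¹ := fun k => by
    rw [← mul_inv, neg_one_mul, ← inv_neg]
    congr 1
    push_cast; ring
  simp only [h3]
  rw [Finset.prod_mul_distrib, Finset.prod_inv_distrib, Finset.prod_mul_distrib,
    Finset.prod_mul_distrib, h1, h2, Finset.prod_const, Finset.prod_const, Finset.card_range,
    div_eq_mul_inv, ← pow_mul, sq]

theorem a7a_ev_den {w : K} (hw : w ≠ 0) {c : ℕ} (hc : 1 ≤ c) (m : ℕ) :
    ((RatFunc.X - RatFunc.C w) * ∏ k ∈ Finset.Icc 1 (c + m),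
      ((RatFunc.C (0 : K) + (k : RatFunc K) * RatFunc.X)⁻¹ *
        (RatFunc.C (-(c * w)) + (k : RatFunc K) * RatFunc.X)⁻¹),
      (-1) ^ (c - 1) / ((c.factorial : K) ^ 2 * w ^ (2 * c - 1)) *
        ∏ k ∈ Finset.Icc 1 m, ((0 + k * w)⁻¹ * (c * w + k * w)⁻¹)) ∈ evGraph w := by
  induction m with
  | zero =>
    obtain ⟨e, rfl⟩ : ∃ e, c = e + 1 := ⟨c - 1, by omega⟩
    have he : ((e + 1 : ℕ) : K) ≠ 0 := Nat.cast_ne_zero.2 (by omega)
    have h1 := a7a_prod_rel (evGraph w) (Finset.Icc 1 e) fun k hk =>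
      a7a_ev_fac (a := -((e + 1 : ℕ) * w)) hw (Finset.mem_Icc.1 hk).1 (by
        have := (Finset.mem_Icc.1 hk).2
        rw [neg_add_eq_sub, ← sub_mul]
        exact mul_ne_zero (sub_ne_zero.2 (by norm_cast; omega)) hw)
    have h2 := (evGraph w).mul_mem ((evGraph w).mul_mem h1
      (a7a_ev_inv (a := 0) hc (by rw [zero_add]; exact mul_ne_zero he hw)))
      (a7a_ev_C w ((e + 1 : ℕ) : K)⁻¹)
    rw [a7a_fact] at h2
    convert h2 using 1
    ext
    · simp only [Prod.fst_mul, add_zero]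
      rw [Finset.prod_Icc_succ_top hc, mul_left_comm, mul_assoc]
      congr 1
      rw [mul_left_comm]
      congr 1
      have n1 := a7a_lin_ne (-((e + 1 : ℕ) * w)) hc
      rw [mul_inv_eq_iff_eq_mul₀ n1, ← map_natCast (RatFunc.C : K →+* RatFunc K), mul_add,
        ← mul_assoc, ← map_mul, ← map_mul, inv_mul_cancel₀ he, map_one, mul_neg, ← mul_assoc,
        inv_mul_cancel₀ he, one_mul, one_mul, map_neg]
      ring
    · have : (e.factorial : K) ≠ 0 := Nat.cast_ne_zero.2 e.factorial_ne_zero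
      simp only [Prod.snd_mul, Nat.add_sub_cancel, Nat.factorial_succ, Nat.cast_mul]
      rw [show 2 * (e + 1) - 1 = 2 * e + 1 by omega, pow_succ w, zero_add,
        Finset.Icc_eq_empty (by omega), Finset.prod_empty]
      field_simp
  | succ m ih =>
    have h1 := (evGraph w).mul_mem ih (a7a_ev_fac (a := -(c * w)) (k := c + m + 1) hw (by omega) (by
      rw [neg_add_eq_sub, ← sub_mul]
      exact mul_ne_zero (sub_ne_zero.2 (by norm_cast; omega)) hw))
    rw [← add_assoc, Finset.prod_Icc_succ_top (by omega), Finset.prod_Icc_succ_top (by omega)]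
    convert h1 using 1
    ext
    · simp only [Prod.fst_mul, mul_assoc]
    · simp only [Prod.snd_mul, mul_assoc]
      congr 2
      rw [mul_comm]
      congr 2 <;> push_cast <;> ring

theorem a7a_res (hN : Nondeg G ι) (b : V × Fin n) (y₀ y : K⟦X⟧) (d : ℕ) :
    Res G ι b (Gb G ι b y₀ y) (Gb G ι (G.rev b) y₀ y) d := by
  intro c hc
  have hw := wt_ne_zero hN b hc
  have hcw := natCast_mul_wt (G := G) (ι := ι) b hc
  have hj := fun j (h : j ∈ Finset.univ.erase b.2) =>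
    lin_wt_ne_zero hN b (Finset.ne_of_mem_erase h) hc
  have hC : Cc G ι b c = (-1) ^ (c - 1) / ((c.factorial : K) ^ 2 * wt G ι b c ^ (2 * c - 1)) *
    ∏ j ∈ Finset.univ.erase b.2, Gam (ι (G.α (b.1, j))) (wt G ι b c) (c * G.cc b j) := rfl
  generalize wt G ι b c = w at *
  have hal : ι (G.α b) = -(c * w) := by rw [hcw, neg_neg]
  have hj' : ∀ j ∈ Finset.univ.erase b.2, ∀ k : ℤ,
      ι (G.α (b.1, j)) - G.cc b j * ι (G.α b) + k * w ≠ 0 := fun j h k e =>
    hj j h (c * G.cc b j + k) (by rw [← e, hal]; push_cast; ring)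
  obtain ⟨I', hI'⟩ : ∃ I' : ℕ → K, ∀ m : ℕ, I' m = (∏ j ∈ Finset.univ.erase b.2,
      Gam (ι (G.α (b.1, j)) - G.cc b j * ι (G.α b)) w (m * G.cc b j)) *
      ∏ k ∈ Finset.Icc 1 m, ((0 + k * w)⁻¹ * (c * w + k * w)⁻¹) := ⟨_, fun _ => rfl⟩
  have r1 : ∀ m, (Im G ι (G.rev b) m, I' m) ∈ evGraph w := fun m => by
    rw [a7a_Im_rev, hI', ← hcw]
    refine a7a_mul_rel _ (a7a_prod_rel _ _ fun j h => a7a_ev_gam (hj' j h) _)
      (a7a_prod_rel _ _ fun k hk => a7a_ev_fac hw (Finset.mem_Icc.1 hk).1 ?_)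
    rw [← add_mul]
    exact mul_ne_zero (by norm_cast; omega) hw
  have r2 : ∀ m, ((RatFunc.X - RatFunc.C w) * Im G ι b m,
      if m < c then 0 else Cc G ι b c * I' (m - c)) ∈ evGraph w := fun m => by
    have g1 := a7a_prod_rel (evGraph w) _ fun j h => a7a_ev_gam (hj j h) (m * G.cc b j)
    rw [a7a_Im, hal]
    split_ifs with h
    · have g2 := a7a_prod_rel (evGraph w) (Finset.Icc 1 m) fun k hk =>
        a7a_ev_fac (a := -(c * w)) hw (Finset.mem_Icc.1 hk).1 (by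
          have := (Finset.mem_Icc.1 hk).2
          rw [neg_add_eq_sub, ← sub_mul]
          exact mul_ne_zero (sub_ne_zero.2 (by norm_cast; omega)) hw)
      exact res_zero_of_isReg ((evGraph w).mul_mem g1 g2).1
    · obtain ⟨m, rfl⟩ := Nat.exists_eq_add_of_le (not_lt.1 h)
      have g2 := (evGraph w).mul_mem g1 (a7a_ev_den hw hc m)
      rw [mul_left_comm, Nat.add_sub_cancel_left, hI', hC]
      convert g2 using 1
      ext
      · rfl
      · have : ∏ j ∈ Finset.univ.erase b.2, Gam (ι (G.α (b.1, j))) w ((c + m : ℕ) * G.cc b j) =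
            (∏ j ∈ Finset.univ.erase b.2, Gam (ι (G.α (b.1, j))) w (c * G.cc b j)) *
            ∏ j ∈ Finset.univ.erase b.2,
              Gam (ι (G.α (b.1, j)) - G.cc b j * ι (G.α b)) w (m * G.cc b j) := by
          rw [← Finset.prod_mul_distrib]
          refine Finset.prod_congr rfl fun j h => ?_
          rw [Nat.cast_add, add_mul, Gam_add (hj j h), hal]
          congr 2
          push_cast; ring
        simp only [Prod.snd_mul, this]
        ring
  have s1 := fun d => a7a_gen_rel (evGraph w) (G.l b)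
    (fun m j => a7a_ev_exp hw (-ι (G.α b)) y₀ y m j) r1 d
  have s2 := a7a_gen_rel (evGraph w) (G.l b)
    (fun m j => a7a_ev_exp hw (ι (G.α b)) y₀ y m j) r2 d
  rw [a7a_coeff_Gb, a7a_coeff_Gb, G.l_rev, iota_rev, a7a_gen_mul]
  refine ⟨s2.1, s2.2.trans ?_⟩
  rw [(s1 _).2]
  refine a7a_gen_shift (G.l_pos b) (fun m hm => if_pos hm)
    (fun m => by rw [if_neg (by omega), Nat.add_sub_cancel_left]) (fun m => ?_) d
  congr 4
  rw [hal]
  push_cast
  field_simp
  ring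

/-! ### Variation -/

theorem a7a_var (b : V × Fin n) {y₀ y : K⟦X⟧} (h0 : coeff 0 y₀ = 0) (h1 : coeff 0 y = 0)
    (d : ℕ) (δ₀ δ₁ : K) (hd : 1 ≤ d) :
    (∀ j < d, coeff j (Gb G ι b (y₀ + monomial d δ₀) (y + monomial d δ₁)) =
      coeff j (Gb G ι b y₀ y)) ∧
    coeff d (Gb G ι b (y₀ + monomial d δ₀) (y + monomial d δ₁)) = coeff d (Gb G ι b y₀ y) +
      RatFunc.C (δ₀ + ι (G.α b) / 2 * δ₁) * RatFunc.X⁻¹ := by
  have lo : ∀ (m : ℕ), ∀ j < d, coeff j (a7aEx (ι (G.α b)) (y₀ + monomial d δ₀)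
      (y + monomial d δ₁) m) = coeff j (a7aEx (ι (G.α b)) y₀ y m) := fun m j hj => by
    simp only [a7a_coeff_ex, map_add (coeff j), coeff_monomial, if_neg hj.ne, add_zero]
  have z0 : ∀ m, coeff 0 (a7aEx (ι (G.α b)) y₀ y m) = 0 := fun m => by
    rw [a7a_coeff_ex, h0, h1]; simp
  have key := fun m => expS_congr ((lo m 0 hd).trans (z0 m)) (z0 m) (lo m)
  constructor
  · intro j hj
    rw [a7a_coeff_Gb, a7a_coeff_Gb]
    exact Finset.sum_congr rfl fun m _ => by rw [(key m).1 _ (by omega)]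
  · rw [a7a_coeff_Gb, a7a_coeff_Gb, a7aGen, a7aGen, Finset.sum_range_succ', Finset.sum_range_succ',
      add_assoc]
    congr 1
    · refine Finset.sum_congr rfl fun m _ => ?_
      have : 1 ≤ G.l b * (m + 1) := Nat.mul_pos (G.l_pos b) m.succ_pos
      rw [(key _).1 _ (by omega)]
    · have h := (key 0).2
      simp only [a7a_coeff_ex, map_add (coeff d), coeff_monomial_same] at h
      simp only [mul_zero, zero_le, if_true, Nat.sub_zero, a7a_Im_zero, mul_one]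
      rw [sub_eq_iff_eq_add'.1 h]
      simp only [map_add, map_mul, Nat.cast_zero, zero_mul, map_zero]
      ring

theorem a7a : A7aSt := by
  intro V r n G K _ _ ι hN R hP b hb y₀ y h0 h1
  refine ⟨?_, a7a_poles hP hb y₀ y, a7a_res hN b y₀ y, a7a_pair hN hP b, a7a_var b h0 h1⟩
  rw [a7a_coeff_Gb]
  simp only [a7aGen, zero_add, Finset.range_one, Finset.sum_singleton, mul_zero, le_refl, if_true,
    Nat.sub_zero, coeff_zero_expS, a7a_Im_zero, mul_one]

end

end GK4850
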