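import Pool.Agent.Lib.MP_4850ea_gt.GK.ADefs

/-! A1: library for `IsRep`, `IsReg`, `ev`, `OrdInf`, Lemma H. -/

open Polynomial

namespace GK4850

variable {K : Type} [Field K] {N N' : Subring K} {S S' : Set K} {g h : RatFunc K} {w : K}

/-- polynomials with coefficients in `N` -/
def polyIn (N : Subring K) : Subring K[X] where
  carrier := {P | ∀ i, P.coeff i ∈ N}
  mul_mem' := by
    intro a b ha hb i
    rw [coeff_mul]
    exact N.sum_mem fun x _ => N.mul_mem (ha _) (hb _)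
  one_mem' := by
    intro i
    rw [coeff_one]
    split_ifs
    · exact N.one_mem
    · exact N.zero_mem
  add_mem' := by
    intro a b ha hb i
    rw [coeff_add]
    exact N.add_mem (ha _) (hb _)
  zero_mem' := fun i => N.zero_mem
  neg_mem' := by
    intro a ha i
    rw [coeff_neg]
    exact N.neg_mem (ha _)

theorem mem_polyIn {P : K[X]} : P ∈ polyIn N ↔ ∀ i, P.coeff i ∈ N := Iff.rfl

theorem C_mem_polyIn {c : K} (hc : c ∈ N) : C c ∈ polyIn N := by
  intro i
  rw [coeff_C]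
  split_ifs
  · exact hc
  · exact N.zero_mem

theorem X_mem_polyIn : (X : K[X]) ∈ polyIn N := by
  intro i
  rw [coeff_X]
  split_ifs
  · exact N.one_mem
  · exact N.zero_mem

theorem exists_lift_polyIn {P : K[X]} (hP : P ∈ polyIn N) :
    ∃ P' : N[X], P'.map N.subtype = P := by
  have : P ∈ Polynomial.lifts N.subtype := by
    rw [lifts_iff_coeff_lifts]
    exact fun i => ⟨⟨_, hP i⟩, rfl⟩
  exact this

theorem map_mem_polyIn (P : N[X]) : P.map N.subtype ∈ polyIn N := by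
  intro i
  rw [coeff_map]
  exact (P.coeff i).2

/-- the monic polynomial with roots `s` -/
noncomputable def QQ {A : Type} [CommRing A] (s : Multiset A) : A[X] :=
  (s.map fun w => X - C w).prod

theorem QQ_add {A : Type} [CommRing A] (s t : Multiset A) : QQ (s + t) = QQ s * QQ t := by
  simp [QQ]

theorem QQ_zero {A : Type} [CommRing A] : QQ (0 : Multiset A) = 1 := by simp [QQ]

theorem QQ_cons {A : Type} [CommRing A] (a : A) (s : Multiset A) :
    QQ (a ::ₘ s) = (X - C a) * QQ s := by simp [QQ]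

theorem QQ_monic {A : Type} [CommRing A] (s : Multiset A) : (QQ s).Monic :=
  monic_multiset_prod_of_monic _ _ fun a _ => monic_X_sub_C a

theorem QQ_map {A B : Type} [CommRing A] [CommRing B] (f : A →+* B) (s : Multiset A) :
    (QQ s).map f = QQ (s.map f) := by
  simp [QQ, Polynomial.map_multiset_prod, Multiset.map_map]

theorem QQ_ne_zero (s : Multiset K) : QQ s ≠ 0 := (QQ_monic s).ne_zero

theorem QQ_natDegree (s : Multiset K) : (QQ s).natDegree = s.card :=
  natDegree_multiset_prod_X_sub_C_eq_card s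

theorem QQ_roots (s : Multiset K) : (QQ s).roots = s := roots_multiset_prod_X_sub_C s

theorem QQ_mem {s : Multiset K} (hs : ∀ w ∈ s, w ∈ N) : QQ s ∈ polyIn N := by
  refine Subring.multiset_prod_mem _ _ fun a ha => ?_
  obtain ⟨w, hw, rfl⟩ := Multiset.mem_map.1 ha
  exact sub_mem X_mem_polyIn (C_mem_polyIn (hs w hw))

theorem QQ_eval_ne_zero {s : Multiset K} (hs : w ∉ s) : (QQ s).eval w ≠ 0 := by
  intro h0
  apply hs
  rw [← QQ_roots s]
  exact (mem_roots (QQ_ne_zero s)).2 h0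

theorem isRep_iff : IsRep N S g ↔ ∃ (s : Multiset K) (P : K[X]), (∀ w ∈ s, w ∈ S ∧ w ∈ N) ∧
    P ∈ polyIn N ∧ g * algebraMap K[X] (RatFunc K) (QQ s) = algebraMap K[X] (RatFunc K) P :=
  Iff.rfl

theorem alg_inj : Function.Injective (algebraMap K[X] (RatFunc K)) :=
  IsFractionRing.injective _ _

theorem alg_ne_zero {P : K[X]} (hP : P ≠ 0) : algebraMap K[X] (RatFunc K) P ≠ 0 :=
  fun h => hP (alg_inj (by rw [h, map_zero]))

theorem alg_X_sub_C (w : K) :
    algebraMap K[X] (RatFunc K) (X - C w) = RatFunc.X - RatFunc.C w := by simp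

theorem X_sub_C_ne_zero' (w : K) : (RatFunc.X - RatFunc.C w : RatFunc K) ≠ 0 := by
  rw [← alg_X_sub_C]; exact alg_ne_zero (X_sub_C_ne_zero w)

theorem IsRep.add (hg : IsRep N S g) (hh : IsRep N S h) : IsRep N S (g + h) := by
  obtain ⟨s, P, hs, hP, e⟩ := isRep_iff.1 hg
  obtain ⟨t, Q, ht, hQ, e'⟩ := isRep_iff.1 hh
  refine isRep_iff.2 ⟨s + t, P * QQ t + Q * QQ s, fun w hw => ?_, ?_, ?_⟩
  · rcases Multiset.mem_add.1 hw with h | h
    exacts [hs w h, ht w h]
  · exact add_mem (mul_mem hP (QQ_mem fun w hw => (ht w hw).2))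
      (mul_mem hQ (QQ_mem fun w hw => (hs w hw).2))
  · rw [QQ_add, map_mul, map_add, map_mul, map_mul, ← e, ← e']; ring

theorem IsRep.mul (hg : IsRep N S g) (hh : IsRep N S h) : IsRep N S (g * h) := by
  obtain ⟨s, P, hs, hP, e⟩ := isRep_iff.1 hg
  obtain ⟨t, Q, ht, hQ, e'⟩ := isRep_iff.1 hh
  refine isRep_iff.2 ⟨s + t, P * Q, fun w hw => ?_, mul_mem hP hQ, ?_⟩
  · rcases Multiset.mem_add.1 hw with h | h
    exacts [hs w h, ht w h]
  · rw [QQ_add, map_mul, map_mul, ← e, ← e']; ring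

theorem isRep_algebraMap (P : K[X]) (hP : ∀ i, P.coeff i ∈ N) :
    IsRep N S (algebraMap K[X] (RatFunc K) P) :=
  isRep_iff.2 ⟨0, P, by simp, hP, by simp [QQ_zero]⟩

theorem isRep_zero : IsRep N S 0 := by
  simpa using isRep_algebraMap (N := N) (S := S) 0 (polyIn N).zero_mem

theorem isRep_one : IsRep N S 1 := by
  simpa using isRep_algebraMap (N := N) (S := S) 1 (polyIn N).one_mem

theorem IsRep.neg (hg : IsRep N S g) : IsRep N S (-g) := by
  obtain ⟨s, P, hs, hP, e⟩ := isRep_iff.1 hg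
  exact isRep_iff.2 ⟨s, -P, hs, neg_mem hP, by rw [map_neg, ← e]; ring⟩

/-- `Rep(N,S)` as a subring -/
def repSubring (N : Subring K) (S : Set K) : Subring (RatFunc K) where
  carrier := {g | IsRep N S g}
  mul_mem' := IsRep.mul
  one_mem' := isRep_one
  add_mem' := IsRep.add
  zero_mem' := isRep_zero
  neg_mem' := IsRep.neg

theorem mem_repSubring : g ∈ repSubring N S ↔ IsRep N S g := Iff.rfl

theorem IsRep.sub (hg : IsRep N S g) (hh : IsRep N S h) : IsRep N S (g - h) :=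
  (repSubring N S).sub_mem hg hh

theorem IsRep.pow (hg : IsRep N S g) (k : ℕ) : IsRep N S (g ^ k) :=
  (repSubring N S).pow_mem hg k

theorem isRep_sum {ι : Type} (s : Finset ι) (f : ι → RatFunc K) (hf : ∀ i ∈ s, IsRep N S (f i)) :
    IsRep N S (∑ i ∈ s, f i) := (repSubring N S).sum_mem hf

theorem isRep_prod {ι : Type} (s : Finset ι) (f : ι → RatFunc K) (hf : ∀ i ∈ s, IsRep N S (f i)) :
    IsRep N S (∏ i ∈ s, f i) := (repSubring N S).prod_mem hf

theorem isRep_natCast (k : ℕ) : IsRep N S (k : RatFunc K) := natCast_mem (repSubring N S) k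

theorem isRep_intCast (k : ℤ) : IsRep N S (k : RatFunc K) := intCast_mem (repSubring N S) k

theorem IsRep.mono (hg : IsRep N S g) (hN : N ≤ N') (hS : S ⊆ S') : IsRep N' S' g := by
  obtain ⟨s, P, hs, hP, e⟩ := hg
  exact ⟨s, P, fun w hw => ⟨hS (hs w hw).1, hN (hs w hw).2⟩, fun i => hN (hP i), e⟩

theorem isRep_C {c : K} (hc : c ∈ N) : IsRep N S (RatFunc.C c) := by
  simpa using isRep_algebraMap (N := N) (S := S) (C c) (C_mem_polyIn hc)

theorem isRep_X : IsRep N S (RatFunc.X : RatFunc K) := by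
  simpa using isRep_algebraMap (N := N) (S := S) X X_mem_polyIn

theorem isRep_inv_X_sub_C (h1 : w ∈ S) (h2 : w ∈ N) :
    IsRep N S (RatFunc.X - RatFunc.C w)⁻¹ := by
  refine isRep_iff.2 ⟨w ::ₘ 0, 1, by simpa using ⟨h1, h2⟩, one_mem _, ?_⟩
  rw [QQ_cons, QQ_zero, mul_one, alg_X_sub_C, map_one, inv_mul_cancel₀ (X_sub_C_ne_zero' w)]

theorem isRep_inv_X (h1 : (0 : K) ∈ S) : IsRep N S (RatFunc.X : RatFunc K)⁻¹ := by
  simpa using isRep_inv_X_sub_C (N := N) h1 N.zero_mem

theorem lin_eq {a b : K} (hb : b ≠ 0) : RatFunc.C a + RatFunc.C b * RatFunc.X =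
    RatFunc.C b * (RatFunc.X - RatFunc.C (-a / b)) := by
  rw [mul_sub, ← map_mul, mul_div_cancel₀ _ hb, map_neg]; ring

/-- inverse of `a + b z`, `b ≠ 0` -/
theorem isRep_inv_lin {a b : K} (hb : b ≠ 0) (h1 : -a / b ∈ S) (h2 : -a / b ∈ N) (h3 : b⁻¹ ∈ N) :
    IsRep N S (RatFunc.C a + RatFunc.C b * RatFunc.X)⁻¹ := by
  rw [lin_eq hb, mul_inv, ← map_inv₀]
  exact (isRep_C h3).mul (isRep_inv_X_sub_C h1 h2)

theorem IsRep.isReg (hg : IsRep N S g) (hw : w ∉ S) : IsReg w g :=
  hg.mono le_top fun x hx (h : x = w) => hw (h ▸ hx)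

/-- induction principle for `Rep(N,S)` -/
theorem IsRep.mem_of (hg : IsRep N S g) (T : Subring (RatFunc K)) (hC : ∀ c ∈ N, RatFunc.C c ∈ T)
    (hX : RatFunc.X ∈ T) (hI : ∀ w ∈ S, w ∈ N → (RatFunc.X - RatFunc.C w)⁻¹ ∈ T) : g ∈ T := by
  obtain ⟨s, P, hs, hP, e⟩ := isRep_iff.1 hg
  have h1 : algebraMap K[X] (RatFunc K) P ∈ T := by
    rw [P.as_sum_range_C_mul_X_pow, map_sum]
    refine T.sum_mem fun i _ => ?_
    rw [map_mul, map_pow, RatFunc.algebraMap_C, RatFunc.algebraMap_X]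
    exact T.mul_mem (hC _ (hP i)) (T.pow_mem hX i)
  have h2 : ∀ s : Multiset K, (∀ w ∈ s, w ∈ S ∧ w ∈ N) →
      (algebraMap K[X] (RatFunc K) (QQ s))⁻¹ ∈ T := by
    intro s
    induction s using Multiset.induction_on with
    | empty => intro _; simp [QQ_zero]
    | cons a s ih =>
      intro h
      rw [QQ_cons, map_mul, mul_inv, alg_X_sub_C]
      exact T.mul_mem (hI a (h a (by simp)).1 (h a (by simp)).2)
        (ih fun w hw => h w (Multiset.mem_cons_of_mem hw))
  have : g = algebraMap K[X] (RatFunc K) P * (algebraMap K[X] (RatFunc K) (QQ s))⁻¹ := by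
    rw [← e, mul_inv_cancel_right₀ (alg_ne_zero (QQ_ne_zero s))]
  rw [this]
  exact T.mul_mem h1 (h2 s hs)

theorem exists_div_polyIn {P : K[X]} (hP : P ∈ polyIn N) (hw : w ∈ N) (h0 : P.eval w = 0) :
    ∃ P' ∈ polyIn N, P = (X - C w) * P' := by
  obtain ⟨P', rfl⟩ := exists_lift_polyIn hP
  refine ⟨(P' /ₘ (X - C ⟨w, hw⟩)).map N.subtype, map_mem_polyIn _, ?_⟩
  rw [map_divByMonic _ (monic_X_sub_C _)]
  simp only [Polynomial.map_sub, map_X, map_C, Subring.subtype_apply]
  exact (mul_divByMonic_eq_iff_isRoot.2 h0).symm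

/-- CANCEL -/
theorem IsRep.cancel (hg : IsRep N S g) (h : ∀ w ∈ S, w ∈ N → w ∉ S' → IsReg w g) :
    IsRep N (S ∩ S') g := by
  classical
  obtain ⟨s, P, hs, hP, e⟩ := isRep_iff.1 hg
  induction hk : s.card using Nat.strong_induction_on generalizing s P with
  | _ k ih =>
    by_cases hall : ∀ w ∈ s, w ∈ S'
    · exact isRep_iff.2 ⟨s, P, fun w hw => ⟨⟨(hs w hw).1, hall w hw⟩, (hs w hw).2⟩, hP, e⟩
    push Not at hall
    obtain ⟨w, hw, hw'⟩ := hall
    obtain ⟨t, Q, ht, -, e'⟩ := isRep_iff.1 (h w (hs w hw).1 (hs w hw).2 hw')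
    obtain ⟨s', rfl⟩ := Multiset.exists_cons_of_mem hw
    have e1 : P * QQ t = Q * QQ (w ::ₘ s') := by
      apply alg_inj
      rw [map_mul, map_mul, ← e, ← e']; ring
    have e2 : P.eval w = 0 := by
      have := congrArg (Polynomial.eval w) e1
      rw [QQ_cons] at this
      simp only [eval_mul, eval_sub, eval_X, eval_C, sub_self, zero_mul, mul_zero] at this
      exact (mul_eq_zero.1 this).resolve_right
        (QQ_eval_ne_zero fun hwt => (ht w hwt).1 rfl)
    obtain ⟨P', hP', rfl⟩ := exists_div_polyIn hP (hs w hw).2 e2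
    refine ih s'.card (by rw [← hk]; simp) s' P' (fun x hx => hs x (Multiset.mem_cons_of_mem hx))
      hP' ?_ rfl
    rw [QQ_cons, map_mul, map_mul, mul_left_comm] at e
    exact mul_left_cancel₀ (alg_ne_zero (X_sub_C_ne_zero w)) e

theorem IsRep.poly (hg : IsRep N ∅ g) :
    ∃ P : K[X], (∀ i, P.coeff i ∈ N) ∧ g = algebraMap K[X] (RatFunc K) P := by
  obtain ⟨s, P, hs, hP, e⟩ := isRep_iff.1 hg
  have : s = 0 := Multiset.eq_zero_of_forall_notMem fun w hw => (hs w hw).1
  subst this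
  exact ⟨P, hP, by simpa [QQ_zero] using e⟩

theorem num_mul_eq {P Q : K[X]}
    (e : g * algebraMap K[X] (RatFunc K) Q = algebraMap K[X] (RatFunc K) P) :
    g.num * Q = P * g.denom := by
  apply alg_inj
  rw [map_mul, map_mul, ← e]
  have h1 := RatFunc.num_div_denom g
  have h2 : algebraMap K[X] (RatFunc K) g.denom ≠ 0 := alg_ne_zero g.denom_ne_zero
  rw [div_eq_iff h2] at h1
  rw [h1]; ring

theorem denom_dvd_of {P Q : K[X]}
    (e : g * algebraMap K[X] (RatFunc K) Q = algebraMap K[X] (RatFunc K) P) : g.denom ∣ Q :=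
  (RatFunc.isCoprime_num_denom g).symm.dvd_of_dvd_mul_left ⟨P, by rw [num_mul_eq e, mul_comm]⟩

theorem IsReg.denom_ne_zero (hg : IsReg w g) : g.denom.eval w ≠ 0 := by
  obtain ⟨s, P, hs, -, e⟩ := isRep_iff.1 hg
  obtain ⟨c, hc⟩ := denom_dvd_of e
  intro h0
  refine QQ_eval_ne_zero (s := s) (w := w) (fun h => (hs w h).1 rfl) ?_
  rw [hc, eval_mul, h0, zero_mul]

theorem ev_def (w : K) (g : RatFunc K) : ev w g = g.num.eval w / g.denom.eval w := rfl

theorem ev_eq {P Q : K[X]}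
    (e : g * algebraMap K[X] (RatFunc K) Q = algebraMap K[X] (RatFunc K) P) (hQ : Q.eval w ≠ 0) :
    ev w g = P.eval w / Q.eval w := by
  obtain ⟨c, hc⟩ := denom_dvd_of e
  have hd : g.denom.eval w ≠ 0 := fun h0 => hQ (by rw [hc, eval_mul, h0, zero_mul])
  rw [ev_def, div_eq_div_iff hd hQ, ← eval_mul, num_mul_eq e, eval_mul]

theorem ev_add (hg : IsReg w g) (hh : IsReg w h) : ev w (g + h) = ev w g + ev w h :=
  RatFunc.eval_add _ _ hg.denom_ne_zero hh.denom_ne_zero

theorem ev_mul (hg : IsReg w g) (hh : IsReg w h) : ev w (g * h) = ev w g * ev w h :=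
  RatFunc.eval_mul _ _ hg.denom_ne_zero hh.denom_ne_zero

theorem ev_zero : ev w (0 : RatFunc K) = 0 := RatFunc.eval_zero _ _
theorem ev_one : ev w (1 : RatFunc K) = 1 := RatFunc.eval_one _ _
theorem ev_C (c : K) : ev w (RatFunc.C c) = c := RatFunc.eval_C _ _
theorem ev_X : ev w (RatFunc.X : RatFunc K) = w := RatFunc.eval_X _ _

theorem isReg_C (w c : K) : IsReg w (RatFunc.C c) := isRep_C (Subring.mem_top c)
theorem isReg_X (w : K) : IsReg w (RatFunc.X : RatFunc K) := isRep_X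
theorem isReg_X_sub_C (w c : K) : IsReg w (RatFunc.X - RatFunc.C c) :=
  IsRep.sub (isReg_X w) (isReg_C w c)
theorem isReg_zero : IsReg w (0 : RatFunc K) := isRep_zero
theorem isReg_one : IsReg w (1 : RatFunc K) := isRep_one
theorem IsReg.add (hg : IsReg w g) (hh : IsReg w h) : IsReg w (g + h) := IsRep.add hg hh
theorem IsReg.sub (hg : IsReg w g) (hh : IsReg w h) : IsReg w (g - h) := IsRep.sub hg hh
theorem IsReg.mul (hg : IsReg w g) (hh : IsReg w h) : IsReg w (g * h) := IsRep.mul hg hh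
theorem IsReg.neg (hg : IsReg w g) : IsReg w (-g) := IsRep.neg hg
theorem IsReg.pow (hg : IsReg w g) (k : ℕ) : IsReg w (g ^ k) := IsRep.pow hg k
theorem isReg_inv_X_sub_C {c : K} (h : c ≠ w) : IsReg w (RatFunc.X - RatFunc.C c)⁻¹ :=
  isRep_inv_X_sub_C h (Subring.mem_top c)

theorem ev_neg (hg : IsReg w g) : ev w (-g) = -ev w g := by
  have := ev_add hg hg.neg
  rw [add_neg_cancel, ev_zero] at this
  exact (neg_eq_of_add_eq_zero_right this.symm).symm

theorem ev_sub (hg : IsReg w g) (hh : IsReg w h) : ev w (g - h) = ev w g - ev w h := by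
  rw [sub_eq_add_neg, ev_add hg hh.neg, ev_neg hh, sub_eq_add_neg]

theorem ev_algebraMap (P : K[X]) : ev w (algebraMap K[X] (RatFunc K) P) = P.eval w := by
  rw [ev_eq (P := P) (Q := 1) (by simp) (by simp)]; simp

theorem ev_X_sub_C (c : K) : ev w (RatFunc.X - RatFunc.C c) = w - c := by
  rw [ev_sub (isReg_X w) (isReg_C w c), ev_X, ev_C]

theorem ev_inv (hg : IsReg w g) (hg' : IsReg w g⁻¹) (h0 : g ≠ 0) :
    ev w g ≠ 0 ∧ ev w g⁻¹ = (ev w g)⁻¹ := by
  have := ev_mul hg hg'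
  rw [mul_inv_cancel₀ h0, ev_one] at this
  exact ⟨left_ne_zero_of_mul_eq_one this.symm, eq_inv_of_mul_eq_one_right this.symm⟩

/-- the graph of `ev w` on `Reg_w` -/
def evGraph (w : K) : Subring (RatFunc K × K) where
  carrier := {x | IsReg w x.1 ∧ ev w x.1 = x.2}
  mul_mem' := fun ha hb => ⟨IsRep.mul ha.1 hb.1, by
    rw [Prod.fst_mul, ev_mul ha.1 hb.1, ha.2, hb.2]; rfl⟩
  one_mem' := ⟨isRep_one, ev_one⟩
  add_mem' := fun ha hb => ⟨IsRep.add ha.1 hb.1, by
    rw [Prod.fst_add, ev_add ha.1 hb.1, ha.2, hb.2]; rfl⟩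
  zero_mem' := ⟨isRep_zero, ev_zero⟩
  neg_mem' := fun ha => ⟨IsRep.neg ha.1, by rw [Prod.fst_neg, ev_neg ha.1, ha.2]; rfl⟩

theorem mem_evGraph {x : RatFunc K × K} : x ∈ evGraph w ↔ IsReg w x.1 ∧ ev w x.1 = x.2 := Iff.rfl

theorem evGraph_C (c : K) : (RatFunc.C c, c) ∈ evGraph w := ⟨isReg_C w c, ev_C c⟩
theorem evGraph_X : (RatFunc.X, w) ∈ evGraph w := ⟨isReg_X w, ev_X⟩

theorem ev_sum {ι : Type} (s : Finset ι) (f : ι → RatFunc K) (hf : ∀ i ∈ s, IsReg w (f i)) :
    ev w (∑ i ∈ s, f i) = ∑ i ∈ s, ev w (f i) := by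
  have := ((evGraph w).sum_mem (t := s) (f := fun i => (f i, ev w (f i)))
    fun i hi => ⟨hf i hi, rfl⟩).2
  simpa [Prod.fst_sum, Prod.snd_sum] using this

theorem ev_prod {ι : Type} (s : Finset ι) (f : ι → RatFunc K) (hf : ∀ i ∈ s, IsReg w (f i)) :
    ev w (∏ i ∈ s, f i) = ∏ i ∈ s, ev w (f i) := by
  have := ((evGraph w).prod_mem (t := s) (f := fun i => (f i, ev w (f i)))
    fun i hi => ⟨hf i hi, rfl⟩).2
  simpa [Prod.fst_prod, Prod.snd_prod] using this

theorem ev_natCast (k : ℕ) : ev w (k : RatFunc K) = k := (natCast_mem (evGraph w) k).2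
theorem ev_intCast (k : ℤ) : ev w (k : RatFunc K) = k := (intCast_mem (evGraph w) k).2

/-- division by `z - w` of a function vanishing at `w` -/
theorem IsRep.div_X_sub_C (hg : IsRep N S g) (hw : w ∉ S) (hwN : w ∈ N) (h0 : ev w g = 0) :
    IsRep N S ((RatFunc.X - RatFunc.C w)⁻¹ * g) := by
  obtain ⟨s, P, hs, hP, e⟩ := isRep_iff.1 hg
  have hQ : (QQ s).eval w ≠ 0 := QQ_eval_ne_zero fun h => hw (hs w h).1
  rw [ev_eq e hQ, div_eq_zero_iff, or_iff_left hQ] at h0
  obtain ⟨P', hP', rfl⟩ := exists_div_polyIn hP hwN h0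
  refine isRep_iff.2 ⟨s, P', hs, hP', ?_⟩
  rw [mul_assoc, e, map_mul, alg_X_sub_C, inv_mul_cancel_left₀ (X_sub_C_ne_zero' w)]

theorem IsReg.div_X_sub_C (hg : IsReg w g) (h0 : ev w g = 0) :
    IsReg w ((RatFunc.X - RatFunc.C w)⁻¹ * g) :=
  IsRep.div_X_sub_C hg (by simp) (Subring.mem_top w) h0

/-- a simple pole with zero residue is no pole -/
theorem isReg_of_res_zero (hg : IsReg w ((RatFunc.X - RatFunc.C w) * g))
    (h0 : ev w ((RatFunc.X - RatFunc.C w) * g) = 0) : IsReg w g := by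
  have := hg.div_X_sub_C h0
  rwa [inv_mul_cancel_left₀ (X_sub_C_ne_zero' w)] at this

theorem res_zero_of_isReg (hg : IsReg w g) :
    IsReg w ((RatFunc.X - RatFunc.C w) * g) ∧ ev w ((RatFunc.X - RatFunc.C w) * g) = 0 :=
  ⟨IsRep.mul (isReg_X_sub_C w w) hg, by
    rw [ev_mul (isReg_X_sub_C w w) hg, ev_X_sub_C, sub_self, zero_mul]⟩

theorem not_isReg_inv_X_sub_C : ¬ IsReg w (RatFunc.X - RatFunc.C w : RatFunc K)⁻¹ := by
  intro h
  have := (res_zero_of_isReg h).2
  rw [mul_inv_cancel₀ (X_sub_C_ne_zero' w), ev_one] at this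
  exact one_ne_zero this

theorem eq_zero_of_isReg_zero {δ : K} (h : IsReg 0 (RatFunc.C δ * RatFunc.X⁻¹)) : δ = 0 := by
  have := (res_zero_of_isReg h).2
  rw [map_zero, sub_zero, mul_left_comm, mul_inv_cancel₀ RatFunc.X_ne_zero, mul_one, ev_C] at this
  exact this

/-- a nonzero function has finitely many zeros -/
theorem finite_zeros (hg : g ≠ 0) : {w | IsReg w g ∧ ev w g = 0}.Finite := by
  classical
  refine (g.num.roots.toFinset.finite_toSet).subset fun w hw => ?_
  have h1 := hw.2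
  rw [ev_def, div_eq_zero_iff, or_iff_left hw.1.denom_ne_zero] at h1
  simpa using ⟨hg, h1⟩

theorem intDegree_eq {P Q : K[X]}
    (e : g * algebraMap K[X] (RatFunc K) Q = algebraMap K[X] (RatFunc K) P) (hQ : Q ≠ 0)
    (hg : g ≠ 0) : g.intDegree = (P.natDegree : ℤ) - Q.natDegree := by
  have := RatFunc.intDegree_mul hg (alg_ne_zero hQ)
  rw [e, RatFunc.intDegree_polynomial, RatFunc.intDegree_polynomial] at this
  omega

theorem ordInf_iff {m : ℤ} {P Q : K[X]}
    (e : g * algebraMap K[X] (RatFunc K) Q = algebraMap K[X] (RatFunc K) P) (hQ : Q ≠ 0) :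
    OrdInf m g ↔ P = 0 ∨ (P.natDegree : ℤ) + m ≤ Q.natDegree := by
  rcases eq_or_ne g 0 with rfl | hg
  · rw [zero_mul, eq_comm, map_eq_zero_iff _ alg_inj] at e
    simp [OrdInf, e]
  · have hP : P ≠ 0 := by
      rintro rfl
      rw [map_zero] at e
      exact mul_ne_zero hg (alg_ne_zero hQ) e
    rw [OrdInf, intDegree_eq e hQ hg, or_iff_right hg, or_iff_right hP]
    omega

theorem ordInf_zero {m : ℤ} : OrdInf m (0 : RatFunc K) := Or.inl rfl

theorem OrdInf.mono {m m' : ℤ} (hg : OrdInf m g) (h : m' ≤ m) : OrdInf m' g :=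
  hg.imp_right fun h' => by omega

theorem OrdInf.add {m : ℤ} (hg : OrdInf m g) (hh : OrdInf m h) : OrdInf m (g + h) := by
  rcases hg with rfl | hg
  · simpa using hh
  rcases eq_or_ne h 0 with rfl | h0
  · rw [add_zero]; exact Or.inr hg
  rcases eq_or_ne (g + h) 0 with h1 | h1
  · exact Or.inl h1
  exact Or.inr ((RatFunc.intDegree_add_le h0 h1).trans (max_le hg (hh.resolve_left h0)))

theorem OrdInf.neg {m : ℤ} (hg : OrdInf m g) : OrdInf m (-g) :=
  hg.imp (fun h => by rw [h, neg_zero]) fun h => by rwa [RatFunc.intDegree_neg]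

theorem OrdInf.sub {m : ℤ} (hg : OrdInf m g) (hh : OrdInf m h) : OrdInf m (g - h) := by
  rw [sub_eq_add_neg]; exact hg.add hh.neg

theorem OrdInf.mul {m m' : ℤ} (hg : OrdInf m g) (hh : OrdInf m' h) : OrdInf (m + m') (g * h) := by
  rcases eq_or_ne g 0 with rfl | g0
  · rw [zero_mul]; exact ordInf_zero
  rcases eq_or_ne h 0 with rfl | h0
  · rw [mul_zero]; exact ordInf_zero
  have h1 := hg.resolve_left g0
  have h2 := hh.resolve_left h0
  exact Or.inr (by rw [RatFunc.intDegree_mul g0 h0]; omega)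

theorem ordInf_sum {ι : Type} {m : ℤ} (s : Finset ι) (f : ι → RatFunc K)
    (hf : ∀ i ∈ s, OrdInf m (f i)) : OrdInf m (∑ i ∈ s, f i) :=
  Finset.sum_induction f (OrdInf m) (fun _ _ => OrdInf.add) ordInf_zero hf

theorem ordInf_C (c : K) : OrdInf 0 (RatFunc.C c) := Or.inr (by simp)

theorem OrdInf.C_mul {m : ℤ} (c : K) (hg : OrdInf m g) : OrdInf m (RatFunc.C c * g) := by
  simpa using (ordInf_C c).mul hg

theorem ordInf_inv_X_sub_C (w : K) : OrdInf 1 (RatFunc.X - RatFunc.C w)⁻¹ := by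
  refine Or.inr ?_
  rw [RatFunc.intDegree_inv, ← alg_X_sub_C, RatFunc.intDegree_polynomial, natDegree_X_sub_C]
  simp

theorem ordInf_inv_X : OrdInf 1 (RatFunc.X : RatFunc K)⁻¹ := by
  simpa using ordInf_inv_X_sub_C (0 : K)

theorem ordInf_X : OrdInf (-1) (RatFunc.X : RatFunc K) := Or.inr (by simp)

theorem OrdInf.exists_sub (hg : OrdInf 1 g) :
    ∃ δ : K, OrdInf 2 (g - RatFunc.C δ * RatFunc.X⁻¹) := by
  have e : g * algebraMap K[X] (RatFunc K) g.denom = algebraMap K[X] (RatFunc K) g.num := by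
    rw [eq_comm, ← div_eq_iff (alg_ne_zero g.denom_ne_zero), RatFunc.num_div_denom]
  have h1 := (ordInf_iff e g.denom_ne_zero).1 hg
  set δ := (X * g.num).coeff g.denom.natDegree with hδ
  refine ⟨δ, ?_⟩
  have e2 : (g - RatFunc.C δ * RatFunc.X⁻¹) * algebraMap K[X] (RatFunc K) (X * g.denom) =
      algebraMap K[X] (RatFunc K) (X * g.num - C δ * g.denom) := by
    rw [map_sub, map_mul, map_mul, map_mul, ← e, RatFunc.algebraMap_X, RatFunc.algebraMap_C]
    have := RatFunc.X_ne_zero (K := K)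
    field_simp
  rw [ordInf_iff e2 (mul_ne_zero X_ne_zero g.denom_ne_zero), natDegree_X_mul g.denom_ne_zero]
  have hle : (X * g.num).natDegree ≤ g.denom.natDegree := by
    rcases eq_or_ne g.num 0 with h0 | h0
    · simp [h0]
    · rw [natDegree_X_mul h0]
      have := h1.resolve_left h0
      omega
  have hlt : ∀ i, g.denom.natDegree ≤ i → (X * g.num - C δ * g.denom).coeff i = 0 := by
    intro i hi
    rw [coeff_sub, coeff_C_mul]
    rcases hi.eq_or_lt with rfl | hi
    · rw [coeff_natDegree, g.monic_denom.leadingCoeff, mul_one, sub_self]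
    · rw [coeff_eq_zero_of_natDegree_lt (hle.trans_lt hi), coeff_eq_zero_of_natDegree_lt hi]
      simp
  rw [or_iff_not_imp_left]
  intro hne
  have : (X * g.num - C δ * g.denom).natDegree < g.denom.natDegree := by
    by_contra hc
    exact hne (leadingCoeff_eq_zero.1 (hlt _ (not_lt.1 hc)))
  push_cast
  omega

/-- principal part at zero -/
theorem exists_pp_zero (hg : IsRep ⊤ Set.univ g) :
    ∃ Z, IsRep ⊤ {0} Z ∧ OrdInf 1 Z ∧ IsReg 0 (g - Z) := by
  have key : ∀ (k : ℕ) (g : RatFunc K), IsReg 0 (RatFunc.X ^ k * g) →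
      ∃ Z, IsRep ⊤ {0} Z ∧ OrdInf 1 Z ∧ IsReg 0 (g - Z) := by
    intro k
    induction k with
    | zero => exact fun g hg => ⟨0, isRep_zero, ordInf_zero, by simpa using hg⟩
    | succ k ih =>
      intro g hg
      set c := ev 0 (RatFunc.X ^ (k + 1) * g)
      have h1 := IsReg.div_X_sub_C (IsRep.sub hg (isReg_C 0 c))
        (by rw [ev_sub hg (isReg_C 0 c), ev_C, sub_self])
      have hX := RatFunc.X_ne_zero (K := K)
      have h2 : (RatFunc.X - RatFunc.C (0 : K))⁻¹ * (RatFunc.X ^ (k + 1) * g - RatFunc.C c) =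
          RatFunc.X ^ k * (g - RatFunc.C c * RatFunc.X⁻¹ ^ (k + 1)) := by
        rw [map_zero, sub_zero, inv_pow]; field_simp; ring
      rw [h2] at h1
      obtain ⟨Z, hZ1, hZ2, hZ3⟩ := ih _ h1
      refine ⟨RatFunc.C c * RatFunc.X⁻¹ ^ (k + 1) + Z,
        ((isRep_C (Subring.mem_top c)).mul ((isRep_inv_X (Set.mem_singleton 0)).pow _)).add hZ1,
        OrdInf.add (OrdInf.C_mul c ?_) hZ2, by rwa [← sub_sub]⟩
      have : ∀ j : ℕ, OrdInf 1 ((RatFunc.X : RatFunc K)⁻¹ ^ (j + 1)) := by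
        intro j
        induction j with
        | zero => simpa using ordInf_inv_X
        | succ j ih => rw [pow_succ]; exact (ih.mul ordInf_inv_X).mono (by norm_num)
      exact this k
  let T : Subring (RatFunc K) :=
    { carrier := {g | ∃ k : ℕ, IsReg 0 (RatFunc.X ^ k * g)}
      mul_mem' := by
        rintro a b ⟨k, ha⟩ ⟨l, hb⟩
        refine ⟨k + l, ?_⟩
        have := IsReg.mul ha hb
        convert this using 1; ring
      one_mem' := ⟨0, by simpa using isReg_one⟩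
      add_mem' := by
        rintro a b ⟨k, ha⟩ ⟨l, hb⟩
        refine ⟨k + l, ?_⟩
        have := (((isReg_X 0).pow l).mul ha).add (((isReg_X 0).pow k).mul hb)
        convert this using 1; ring
      zero_mem' := ⟨0, by simpa using isReg_zero⟩
      neg_mem' := by
        rintro a ⟨k, ha⟩
        exact ⟨k, by simpa using IsReg.neg ha⟩ }
  obtain ⟨k, hk⟩ := hg.mem_of T (fun c _ => ⟨0, by simpa using isReg_C 0 c⟩)
    ⟨0, by simpa using isReg_X 0⟩ fun w _ _ => by
      rcases eq_or_ne w 0 with rfl | hw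
      · exact ⟨1, by simpa [mul_inv_cancel₀ (RatFunc.X_ne_zero (K := K))] using isReg_one⟩
      · exact ⟨0, by simpa using isReg_inv_X_sub_C hw⟩
  exact key k g hk

variable {R : ValuationSubring K}

theorem isRep_away_iff : IsRep R.toSubring (away R w) g ↔ IsInt R g ∧ IsLoc R w g := by
  refine ⟨fun h => ⟨h.mono le_rfl (Set.subset_univ _), h.mono le_top le_rfl⟩, fun h => ?_⟩
  have := h.1.cancel (S' := away R w) fun x _ _ hx => h.2.isReg hx
  rwa [Set.univ_inter] at this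

theorem away_congr {w w' : K} (h : R.valuation (w - w') < 1) : away R w = away R w' := by
  have key : ∀ {w w' : K}, R.valuation (w - w') < 1 → away R w' ⊆ away R w := by
    intro w w' h x hx
    refine ⟨hx.1, fun h1 => hx.2 ?_⟩
    have : x - w' = (x - w) + (w - w') := by ring
    rw [this]
    exact R.valuation.map_add_lt h1 h
  exact (key (by rwa [← neg_sub, Valuation.map_neg])).antisymm (key h)

theorem lcInf_eq {P Q : K[X]}
    (e : g * algebraMap K[X] (RatFunc K) Q = algebraMap K[X] (RatFunc K) P) (hQ : Q.Monic) :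
    lcInf g = P.leadingCoeff := by
  have := congrArg leadingCoeff (num_mul_eq e)
  rwa [leadingCoeff_mul, leadingCoeff_mul, hQ.leadingCoeff, g.monic_denom.leadingCoeff, mul_one,
    mul_one] at this

theorem IsInt.lcInf_mem (hg : IsInt R g) : lcInf g ∈ R := by
  obtain ⟨s, P, -, hP, e⟩ := isRep_iff.1 hg
  rw [lcInf_eq e (QQ_monic s)]
  exact hP _

theorem IsInt.coeff_mem {δ : K} (hg : OrdInf 2 g) (h : IsInt R (g + RatFunc.C δ * RatFunc.X⁻¹)) :
    δ ∈ R := by
  obtain ⟨s, P, -, hP, e⟩ := isRep_iff.1 h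
  have e2 : g * algebraMap K[X] (RatFunc K) (X * QQ s) =
      algebraMap K[X] (RatFunc K) (X * P - C δ * QQ s) := by
    rw [map_sub, map_mul, map_mul, map_mul, ← e, RatFunc.algebraMap_X, RatFunc.algebraMap_C]
    have := RatFunc.X_ne_zero (K := K)
    field_simp
    ring
  have h1 := (ordInf_iff e2 (mul_ne_zero X_ne_zero (QQ_ne_zero s))).1 hg
  rw [natDegree_X_mul (QQ_ne_zero s)] at h1
  have h2 : (X * P - C δ * QQ s).coeff (QQ s).natDegree = 0 := by
    rcases h1 with h1 | h1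
    · rw [h1, coeff_zero]
    · exact coeff_eq_zero_of_natDegree_lt (by push_cast at h1; omega)
  rw [coeff_sub, coeff_C_mul, coeff_natDegree, (QQ_monic s).leadingCoeff, mul_one,
    sub_eq_zero] at h2
  rw [← h2]
  exact mul_mem X_mem_polyIn hP _

theorem IsInt.lift {S : Set K} (hg : IsRep R.toSubring S g) :
    ∃ (s : Multiset R) (P : R[X]), (∀ w ∈ s, (w : K) ∈ S) ∧
      g * algebraMap K[X] (RatFunc K) ((QQ s).map R.subtype) =
        algebraMap K[X] (RatFunc K) (P.map R.subtype) := by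
  obtain ⟨s, P, hs, hP, e⟩ := isRep_iff.1 hg
  obtain ⟨P', rfl⟩ := exists_lift_polyIn hP
  have hs' : ∀ x ∈ s, x ∈ R := fun x hx => (hs x hx).2
  lift s to Multiset R using hs'
  refine ⟨s, P', fun w hw => (hs w (Multiset.mem_map_of_mem _ hw)).1, ?_⟩
  rw [QQ_map]
  exact e

/-- Lemma H -/
theorem lemmaH (hg : IsRep ⊤ (R : Set K) g) (ho : OrdInf 1 g) (h : ∀ w ∈ R, IntAt R w g) :
    IsInt R g := by
  classical
  obtain ⟨s, P, hs, -, e⟩ := isRep_iff.1 hg
  by_contra hcon
  have hnot : ¬ ∀ i, P.coeff i ∈ R := fun hP =>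
    hcon (isRep_iff.2 ⟨s, P, fun w hw => ⟨trivial, (hs w hw).1⟩, hP, e⟩)
  push Not at hnot
  obtain ⟨i₁, hi₁⟩ := hnot
  have hi₁' : i₁ ∈ P.support := mem_support_iff.2 fun h0 => hi₁ (h0 ▸ R.zero_mem)
  obtain ⟨i₀, -, hmax⟩ := P.support.exists_max_image (fun i => R.valuation (P.coeff i)) ⟨_, hi₁'⟩
  set c := P.coeff i₀ with hc
  have hc1 : 1 < R.valuation c :=
    (not_le.1 fun h1 => hi₁ (R.mem_of_valuation_le_one _ h1)).trans_le (hmax _ hi₁')
  have hc0 : c ≠ 0 := by
    intro h0; rw [h0, map_zero] at hc1; exact not_lt_of_ge zero_le_one hc1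
  have hci : R.valuation c⁻¹ < 1 := by
    rw [map_inv₀]; exact inv_lt_one_of_one_lt₀ hc1
  have hciR : c⁻¹ ∈ R := R.mem_of_valuation_le_one _ hci.le
  have hP' : C c⁻¹ * P ∈ polyIn R.toSubring := by
    intro i
    rw [coeff_C_mul]
    by_cases hi : i ∈ P.support
    · refine R.mem_of_valuation_le_one _ ?_
      rw [map_mul, map_inv₀, inv_mul_le_iff₀ (zero_lt_one.trans hc1), mul_one]
      exact hmax i hi
    · rw [notMem_support_iff.1 hi, mul_zero]; exact R.zero_mem
  have e1 : RatFunc.C c⁻¹ * g * algebraMap K[X] (RatFunc K) (QQ s) =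
      algebraMap K[X] (RatFunc K) (C c⁻¹ * P) := by
    rw [mul_assoc, e, map_mul, RatFunc.algebraMap_C]
  have hint : IsInt R (RatFunc.C c⁻¹ * g) :=
    isRep_iff.2 ⟨s, _, fun w hw => ⟨trivial, (hs w hw).1⟩, hP', e1⟩
  obtain ⟨P', hP'e⟩ := exists_lift_polyIn hP'
  have hs' : ∀ x ∈ s, x ∈ R := fun x hx => (hs x hx).1
  lift s to Multiset R using hs'
  set ρ := IsLocalRing.residue R
  have hinj : Function.Injective R.subtype := R.subtype_injective
  have hP'e' : Polynomial.map R.subtype P' = C c⁻¹ * P := hP'e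
  have hP0 : Polynomial.map ρ P' ≠ 0 := by
    intro h0
    have h1 : Polynomial.coeff (R := R) P' i₀ = 1 := by
      apply hinj
      have := congrArg (fun Q => Q.coeff i₀) hP'e'
      simp only [coeff_map, coeff_C_mul] at this
      rw [map_one, ← inv_mul_cancel₀ hc0]
      exact this
    have := congrArg (fun Q => Q.coeff i₀) h0
    simp only [coeff_map, h1, map_one, coeff_zero] at this
    exact one_ne_zero this
  have hle : s.map ρ ≤ (Polynomial.map ρ P').roots := by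
    rw [Multiset.le_iff_count]
    intro a
    by_cases ha : a ∈ s.map ρ
    swap
    · rw [Multiset.count_eq_zero.2 ha]; exact Nat.zero_le _
    obtain ⟨w, hw, rfl⟩ := Multiset.mem_map.1 ha
    obtain ⟨g₁, hg₁, hg₂⟩ := h w w.2
    have h2 : IsRep R.toSubring (away R w) (RatFunc.C c⁻¹ * (g - g₁)) := by
      refine isRep_away_iff.2 ⟨?_, IsRep.mul (isRep_C (Subring.mem_top _)) hg₂⟩
      rw [mul_sub]
      exact IsRep.sub hint (IsRep.mul (isRep_C hciR) hg₁)
    obtain ⟨s₁, N₁, -, e₁⟩ := IsInt.lift hg₁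
    obtain ⟨s₂, N₂, hs₂, e₂⟩ := IsInt.lift h2
    have e3 : (P' : R[X]) * QQ s₁ * QQ s₂ =
        C (⟨c⁻¹, hciR⟩ : R) * N₁ * QQ s * QQ s₂ + N₂ * QQ s * QQ s₁ := by
      apply map_injective R.subtype hinj
      apply alg_inj
      have hq : (QQ s).map R.subtype = QQ (s.map Subtype.val) := QQ_map _ _
      simp only [Polynomial.map_mul, Polynomial.map_add, map_C, map_mul, map_add, hP'e', hq]
      rw [← e₁, ← e₂, ← e]
      simp only [RatFunc.algebraMap_C, ValuationSubring.subtype_apply]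
      ring
    have hρc : ρ ⟨c⁻¹, hciR⟩ = 0 := by
      rw [IsLocalRing.residue_eq_zero_iff, ValuationSubring.valuation_lt_one_iff]
      exact hci
    have e4 := congrArg (Polynomial.map ρ) e3
    simp only [Polynomial.map_mul, Polynomial.map_add, map_C, hρc, map_zero, zero_mul, zero_add,
      QQ_map] at e4
    have e5 : Polynomial.map ρ P' * QQ (s₂.map ρ) = N₂.map ρ * QQ (s.map ρ) := by
      apply mul_right_cancel₀ (QQ_ne_zero (s₁.map ρ))
      rw [← e4]; ring
    have hne : Polynomial.map ρ P' * QQ (s₂.map ρ) ≠ 0 := mul_ne_zero hP0 (QQ_ne_zero _)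
    have e6 : Multiset.count (ρ w) (Polynomial.map ρ P' * QQ (s₂.map ρ)).roots =
        Multiset.count (ρ w) (N₂.map ρ * QQ (s.map ρ)).roots := by rw [e5]
    rw [roots_mul hne, roots_mul (e5 ▸ hne), QQ_roots, QQ_roots, Multiset.count_add,
      Multiset.count_add] at e6
    have h0 : Multiset.count (ρ w) (s₂.map ρ) = 0 := by
      rw [Multiset.count_eq_zero]
      intro hm
      obtain ⟨x, hx, hxe⟩ := Multiset.mem_map.1 hm
      refine (hs₂ x hx).2 ?_
      have : ρ (x - w) = 0 := by rw [map_sub, hxe, sub_self]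
      rw [IsLocalRing.residue_eq_zero_iff, ValuationSubring.valuation_lt_one_iff] at this
      exact this
    omega
  have hcard := Multiset.card_le_card hle
  have h3 := (card_roots' (Polynomial.map ρ P')).trans natDegree_map_le
  have hPne : P ≠ 0 := fun h0 => hc0 (by rw [hc, h0, coeff_zero])
  have h4 := ((ordInf_iff e (QQ_ne_zero _)).1 ho).resolve_left hPne
  have h5 : Polynomial.natDegree (R := R) P' = P.natDegree := by
    rw [← natDegree_map_eq_of_injective hinj, hP'e', natDegree_C_mul (inv_ne_zero hc0)]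
  rw [QQ_natDegree] at h4
  simp only [Multiset.card_map] at hcard h4
  omega

end GK4850
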