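import Pool.Agent.Lib.MP_4850ea_gt.GK.StA
import Pool.Agent.Lib.MP_4850ea_gt.GK.A1
import Pool.Agent.Lib.MP_4850ea_gt.GK.A2

/-! A7b: the generators are admissible. -/

namespace GK4850

open PowerSeries

section Subst
variable {B : Type} [CommRing B]

/-- substitution of a series without constant term -/
theorem a7b_exists_subst (Q : B⟦X⟧) (hQ : coeff 0 Q = 0) :
    ∃ σ : B⟦X⟧ →+* B⟦X⟧, (∀ c, σ (C c) = C c) ∧
      ∀ f d, coeff d (σ f) = ∑ m ∈ Finset.range (d + 1), coeff m f * coeff d (Q ^ m) := by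
  have hs : HasSubst Q := HasSubst.of_constantCoeff_zero' (by simpa using hQ)
  have key : ∀ (f : B⟦X⟧) d, coeff d (f.subst Q) =
      ∑ m ∈ Finset.range (d + 1), coeff m f * coeff d (Q ^ m) := by
    intro f d
    rw [coeff_subst' hs, finsum_eq_sum_of_support_subset (s := Finset.range (d + 1))]
    · simp [smul_eq_mul]
    · intro m hm
      by_contra h
      apply hm
      have : d < m := by simpa using h
      simp [coeff_pow_eq_zero hQ this]
  refine ⟨(substAlgHom (R := B) hs).toRingHom, fun c => ?_, fun f d => ?_⟩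
  · exact (substAlgHom (R := B) hs).commutes c
  · rw [← key, ← coe_substAlgHom hs]; rfl

theorem a7b_pow_mem (T : Subring B) {Q : B⟦X⟧} (hQ : ∀ j, coeff j Q ∈ T) (m : ℕ) :
    ∀ j, coeff j (Q ^ m) ∈ T := by
  induction m with
  | zero =>
    intro j
    simp only [pow_zero, coeff_one]
    split_ifs
    · exact T.one_mem
    · exact T.zero_mem
  | succ m ih =>
    intro j
    rw [pow_succ]
    exact coeff_mul_mem T (fun i _ => ih i) fun i _ => hQ i

variable {Q : B⟦X⟧} {σ : B⟦X⟧ →+* B⟦X⟧}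

theorem a7b_subst_mem (T : Subring B) (hQ : ∀ j, coeff j Q ∈ T)
    (hσ : ∀ f d, coeff d (σ f) = ∑ m ∈ Finset.range (d + 1), coeff m f * coeff d (Q ^ m))
    {f : B⟦X⟧} (hf : ∀ j, coeff j f ∈ T) (d : ℕ) : coeff d (σ f) ∈ T := by
  rw [hσ]
  exact T.sum_mem fun m _ => T.mul_mem (hf m) (a7b_pow_mem T hQ m d)

theorem a7b_subst_zero
    (hσ : ∀ f d, coeff d (σ f) = ∑ m ∈ Finset.range (d + 1), coeff m f * coeff d (Q ^ m))
    (f : B⟦X⟧) : coeff 0 (σ f) = coeff 0 f := by
  rw [hσ]; simp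

theorem a7b_subst_expS [Algebra ℚ B] (hC : ∀ c, σ (C c) = C c)
    (hσ : ∀ f d, coeff d (σ f) = ∑ m ∈ Finset.range (d + 1), coeff m f * coeff d (Q ^ m))
    {a : B⟦X⟧} (ha : coeff 0 a = 0) : σ (expS a) = expS (σ a) := by
  ext d
  have h0 : coeff 0 (σ a) = 0 := by rw [a7b_subst_zero hσ, ha]
  rw [coeff_expS_eq h0 le_rfl]
  have h1 : expT (σ a) d = σ (expT a d) := by
    simp only [expT, map_sum, map_mul, map_pow, hC]
  rw [h1, hσ, hσ]
  refine Finset.sum_congr rfl fun m hm => ?_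
  rw [coeff_expS_eq ha (N := d) (by have := Finset.mem_range.1 hm; omega)]

theorem a7b_expS_natCast [Algebra ℚ B] {a : B⟦X⟧} (ha : coeff 0 a = 0) (m : ℕ) :
    expS ((m : B⟦X⟧) * a) = expS a ^ m := by
  induction m with
  | zero => simp [expS_zero]
  | succ m ih =>
    have h0 : coeff 0 ((m : B⟦X⟧) * a) = 0 := by
      rw [← map_natCast (C : B →+* B⟦X⟧), coeff_C_mul, ha, mul_zero]
    rw [Nat.cast_succ, add_mul, one_mul, expS_add h0 ha, ih, pow_succ]

end Subst

section Core
variable {B : Type} [Field B]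

/-- diagonal action of a sequence -/
noncomputable def a7bDiag (π : ℕ → B) (f : B⟦X⟧) : B⟦X⟧ := PowerSeries.mk fun m => π m * coeff m f

theorem a7bDiag_mul (π π' : ℕ → B) (f : B⟦X⟧) :
    a7bDiag (π * π') f = a7bDiag π (a7bDiag π' f) := by
  ext m; simp [a7bDiag, mul_assoc]

theorem a7bDiag_one (f : B⟦X⟧) : a7bDiag 1 f = f := by
  ext m; simp [a7bDiag]

/-- linear symbols -/
def a7bLin (T : Subring B) (z : B) : Set (ℕ → B) :=
  {π | ∃ β ∈ T, ∃ c ∈ T, π = fun m : ℕ => β + c * ((m : B) * z)}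

theorem a7b_good (T : Subring B) {z : B} (hz : z ∈ T) {I v : B⟦X⟧}
    (hv : I * v = C z * thetaS I) (hv0 : coeff 0 v = 0) {d : ℕ} (hd : ∀ j < d, coeff j v ∈ T)
    {π : ℕ → B} (hπ : π ∈ Submonoid.closure (a7bLin T z)) :
    π d ∈ T ∧ ∀ W : B⟦X⟧, (∀ j < d, coeff j W ∈ T) → ∃ W', a7bDiag π (I * W) = I * W' ∧
      (∀ j < d, coeff j W' ∈ T) ∧
      (coeff 0 W = 0 → coeff 0 W' = 0 ∧ coeff d W' - π d * coeff d W ∈ T) := by
  induction hπ using Submonoid.closure_induction with
  | mem π hπ =>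
    obtain ⟨β, hβ, c, hc, rfl⟩ := hπ
    refine ⟨T.add_mem hβ (T.mul_mem hc (T.mul_mem (natCast_mem T d) hz)), fun W hW => ?_⟩
    have hco : ∀ j, coeff j (C β * W + C c * (v * W + C z * thetaS W)) =
        β * coeff j W + c * (coeff j (v * W) + z * (j * coeff j W)) := by
      intro j
      simp only [map_add, coeff_C_mul, coeff_thetaS]
    refine ⟨C β * W + C c * (v * W + C z * thetaS W), ?_, fun j hj => ?_, fun h0 => ⟨?_, ?_⟩⟩
    · have : I * (C β * W + C c * (v * W + C z * thetaS W)) =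
          C β * (I * W) + C c * (C z * thetaS (I * W)) := by
        rw [thetaS_mul]
        linear_combination (C c * W) * hv
      rw [this]
      ext m
      simp only [a7bDiag, coeff_mk, map_add, coeff_C_mul, coeff_thetaS]
      ring
    · rw [hco]
      exact T.add_mem (T.mul_mem hβ (hW j hj)) (T.mul_mem hc (T.add_mem
        (coeff_mul_mem T (fun i hi => hd i (by omega)) fun i hi => hW i (by omega))
        (T.mul_mem hz (T.mul_mem (natCast_mem T j) (hW j hj)))))
    · rw [hco, coeff_mul_split, h0, hv0]; simp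
    · rw [hco, coeff_mul_split, hv0]
      have : ∑ j ∈ Finset.range d, coeff (d - j) v * coeff j W ∈ T := by
        refine T.sum_mem fun j hj => ?_
        have hj := Finset.mem_range.1 hj
        rcases eq_or_ne j 0 with rfl | hj0
        · rw [h0, mul_zero]; exact T.zero_mem
        · exact T.mul_mem (hd _ (by omega)) (hW j hj)
      convert T.mul_mem hc this using 1
      ring
  | one =>
    refine ⟨T.one_mem, fun W hW => ⟨W, a7bDiag_one _, hW, fun h0 => ⟨h0, ?_⟩⟩⟩
    simp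
  | mul π π' _ _ ih ih' =>
    refine ⟨T.mul_mem ih.1 ih'.1, fun W hW => ?_⟩
    obtain ⟨W1, e1, m1, z1⟩ := ih'.2 W hW
    obtain ⟨W2, e2, m2, z2⟩ := ih.2 W1 m1
    refine ⟨W2, by rw [a7bDiag_mul, e1, e2], m2, fun h0 => ?_⟩
    obtain ⟨a1, b1⟩ := z1 h0
    obtain ⟨a2, b2⟩ := z2 a1
    refine ⟨a2, ?_⟩
    convert T.add_mem b2 (T.mul_mem ih.1 b1) using 1
    simp only [Pi.mul_apply]
    ring

theorem a7b_core (T : Subring B) {z : B} (hz : z ∈ T) {I v : B⟦X⟧} (hI : coeff 0 I = 1)
    (hv : I * v = C z * thetaS I) {P Q : ℕ → B} (hP : P ∈ Submonoid.closure (a7bLin T z))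
    (hQ : Q ∈ Submonoid.closure (a7bLin T z)) (hinv : ∀ d, P d ≠ 0 ∧ (P d)⁻¹ ∈ T)
    (hrec : ∀ m, P (m + 1) * (z * (((m + 1 : ℕ) : B) * coeff (m + 1) I)) = Q m * coeff m I) :
    coeff 0 v = 0 ∧ ∀ d, coeff d v ∈ T := by
  have hI0 : I ≠ 0 := by rintro rfl; simp at hI
  have hv0 : coeff 0 v = 0 := by
    have := congrArg (coeff 0) hv
    rw [coeff_mul_split, coeff_C_mul, coeff_zero_thetaS, hI] at this
    simpa using this
  refine ⟨hv0, fun d => ?_⟩
  induction d using Nat.strong_induction_on with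
  | _ d ih =>
    rcases d with _ | d
    · rw [hv0]; exact T.zero_mem
    obtain ⟨W1, e1, -, z1⟩ := (a7b_good T hz hv hv0 ih hP).2 v ih
    obtain ⟨W2, e2, m2, -⟩ := (a7b_good T hz hv hv0 ih hQ).2 1 (fun j _ => by
      rw [coeff_one]; split_ifs
      · exact T.one_mem
      · exact T.zero_mem)
    have h12 : W1 = X * W2 := by
      apply mul_left_cancel₀ hI0
      rw [← e1, mul_left_comm, ← e2, hv, mul_one]
      ext m
      rcases m with _ | m
      · simp [a7bDiag, coeff_zero_thetaS]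
      · rw [coeff_succ_X_mul]
        simp only [a7bDiag, coeff_mk, coeff_C_mul, coeff_thetaS]
        exact hrec m
    have h3 := (z1 hv0).2
    rw [h12, coeff_succ_X_mul] at h3
    have h4 := T.mul_mem (hinv (d + 1)).2 (T.sub_mem (m2 d (Nat.lt_succ_self d)) h3)
    convert h4 using 1
    have := (hinv (d + 1)).1
    field_simp
    ring

theorem a7b_Gam {a w : B} (h : ∀ k : ℤ, a + k * w ≠ 0) (c : ℤ) :
    (∏ k ∈ Finset.Icc 1 c.toNat, (a + (k : B) * w)) * Gam a w c =
      ∏ k ∈ Finset.range (-c).toNat, (a - (k : B) * w) := by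
  unfold Gam
  split_ifs with hc
  · have : (-c).toNat = 0 := by omega
    rw [this, mul_inv_cancel₀ (Finset.prod_ne_zero_iff.2 fun k _ => by simpa using h k)]
    simp
  · have : c.toNat = 0 := by omega
    simp [this]

theorem a7b_Gam_step {a w : B} (h : ∀ k : ℤ, a + k * w ≠ 0) (c : ℤ) (m : ℕ) :
    (∏ k ∈ Finset.Icc 1 c.toNat, (a + ((k : B) - c) * w + (c : B) * (((m + 1 : ℕ) : B) * w))) *
      Gam a w (((m + 1 : ℕ) : ℤ) * c) =
      (∏ k ∈ Finset.range (-c).toNat, (a - (k : B) * w + (c : B) * ((m : B) * w))) *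
        Gam a w ((m : ℤ) * c) := by
  have h' : ∀ k : ℤ, a + ((m * c : ℤ) : B) * w + k * w ≠ 0 := fun k => by
    have := h (m * c + k); push_cast at this ⊢; intro h0; apply this; rw [← h0]; ring
  have e : (((m + 1 : ℕ) : ℤ) * c) = (m : ℤ) * c + c := by push_cast; ring
  rw [e, Gam_add h, mul_left_comm, mul_comm _ (Gam a w ((m : ℤ) * c))]
  congr 1
  convert a7b_Gam h' c using 2
  · refine Finset.prod_congr rfl fun k _ => ?_
    push_cast; ring
  · push_cast; ring

theorem a7b_alg {a z M P G G' Q D : B} (n1 : M ≠ 0) (n2 : a + M * z ≠ 0) (n3 : z ≠ 0)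
    (e : P * G = Q * G') :
    (a + 1 * (M * z)) * P * (z * (M * (G / (D * (M * z * (a + M * z)))))) = Q * (G' / D) := by
  rw [← mul_div_assoc Q, ← e, one_mul, mul_comm D, div_mul_eq_div_div]
  generalize a + M * z = y at n2 ⊢
  rw [div_eq_mul_inv _ D, div_eq_mul_inv _ D]
  generalize D⁻¹ = E
  field_simp

end Core

section Reg
variable {K : Type} [Field K] [CharZero K]

omit [CharZero K] in
theorem a7b_lin_ne {a : K} (ha : a ≠ 0) (k : K) :
    (RatFunc.C a + RatFunc.C k * RatFunc.X : RatFunc K) ≠ 0 := by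
  intro h
  have h1 : IsReg (0 : K) (RatFunc.C a) := isRep_C (Subring.mem_top _)
  have h2 : IsReg (0 : K) (RatFunc.C k) := isRep_C (Subring.mem_top _)
  have h3 : IsReg (0 : K) (RatFunc.X : RatFunc K) := isRep_X
  have := congrArg (ev (0 : K)) h
  rw [ev_add h1 (IsRep.mul h2 h3), ev_mul h2 h3, ev_C, ev_C, ev_X, ev_zero] at this
  exact ha (by simpa using this)

omit [CharZero K] in
theorem a7b_lin_inv {a : K} (ha : a ≠ 0) (k : K) :
    (RatFunc.C a + RatFunc.C k * RatFunc.X : RatFunc K)⁻¹ ∈ repSubring (⊤ : Subring K) {0}ᶜ := by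
  rw [mem_repSubring]
  rcases eq_or_ne k 0 with rfl | hk
  · rw [map_zero, zero_mul, add_zero, ← map_inv₀]
    exact isRep_C (Subring.mem_top _)
  · refine isRep_inv_lin hk ?_ (Subring.mem_top _) (Subring.mem_top _)
    simp [ha, hk]

/-- from the logarithmic derivative to the mirror map -/
theorem a7b_mirror {I v : PowerSeries (RatFunc K)} (hI : coeff 0 I = 1)
    (hv : I * v = C RatFunc.X * thetaS I) (hv0 : coeff 0 v = 0)
    (hT : ∀ d, coeff d v ∈ repSubring (⊤ : Subring K) {0}ᶜ) :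
    ∃ u : PowerSeries K, coeff 0 u = 0 ∧
      ∀ d, coeff d (expS (-overZ u) * I) ∈ repSubring (⊤ : Subring K) {0}ᶜ := by
  set u : PowerSeries K := PowerSeries.mk fun d => (d : K)⁻¹ * ev 0 (coeff d v) with hu
  have hu0 : coeff 0 u = 0 := by simp [hu]
  have hz : (RatFunc.X : RatFunc K) ≠ 0 := RatFunc.X_ne_zero
  have ho : coeff 0 (-overZ u) = 0 := by
    rw [map_neg, overZ, coeff_C_mul, coeff_map, hu0]; simp
  refine ⟨u, hu0, ?_⟩
  have hs : ∀ j, coeff j (thetaS (-overZ u) + C (RatFunc.X⁻¹) * v) =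
      (RatFunc.X - RatFunc.C (0 : K))⁻¹ * (coeff j v - RatFunc.C (ev 0 (coeff j v))) := by
    intro j
    rw [map_add, coeff_thetaS, map_neg, overZ, coeff_C_mul, coeff_C_mul, coeff_map, hu, coeff_mk,
      map_zero, sub_zero]
    rcases eq_or_ne j 0 with rfl | hj
    · rw [hv0, ev_zero]; simp
    · have : (j : RatFunc K) ≠ 0 := by exact_mod_cast hj
      rw [map_mul, map_inv₀, map_natCast]
      field_simp
      ring
  refine mem_of_thetaS _ (fun q => ?_) (s := thetaS (-overZ u) + C (RatFunc.X⁻¹) * v) ?_ ?_ ?_ ?_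
  · have : algebraMap ℚ (RatFunc K) q = RatFunc.C (q : K) := by simp
    rw [this]
    exact isRep_C (Subring.mem_top _)
  · rw [hs, hv0, ev_zero]; simp
  · rw [thetaS_mul, thetaS_expS ho]
    have : thetaS I = C (RatFunc.X⁻¹) * (I * v) := by
      rw [hv, ← mul_assoc, ← map_mul, inv_mul_cancel₀ hz, map_one, one_mul]
    rw [this]; ring
  · rw [coeff_mul_split, coeff_zero_expS, hI]
    simp
  · intro j
    rw [hs]
    have h1 : IsReg (0 : K) (coeff j v) := hT j
    have h2 : IsReg (0 : K) (RatFunc.C (ev 0 (coeff j v))) := isRep_C (Subring.mem_top _)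
    exact IsReg.div_X_sub_C (IsRep.sub h1 h2) (by rw [ev_sub h1 h2, ev_C, sub_self])

end Reg

section Main
variable {V : Type} {r n : ℕ} (G : GKM V r n) {K : Type} [Field K] [CharZero K]
  (ι : (Fin r → ℤ) →+ K)

theorem a7b_hyper (hN : Nondeg G ι) (b : V × Fin n) :
    ∃ u : PowerSeries K, coeff 0 u = 0 ∧ ∀ d, coeff d (expS (-overZ u) *
      PowerSeries.mk (Im G ι b)) ∈ repSubring (⊤ : Subring K) {0}ᶜ := by
  classical
  set T := repSubring (⊤ : Subring K) ({0}ᶜ : Set K) with hT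
  set I : PowerSeries (RatFunc K) := PowerSeries.mk (Im G ι b) with hIdef
  have hI : coeff 0 I = 1 := by simp [hIdef, Im, Gam_zero]
  have hIc : constantCoeff I ≠ 0 := by
    rw [← coeff_zero_eq_constantCoeff_apply, hI]; exact one_ne_zero
  have hz : (RatFunc.X : RatFunc K) ∈ T := isRep_X
  have hC : ∀ a : K, RatFunc.C a ∈ T := fun a => isRep_C (Subring.mem_top _)
  have hv : I * (I⁻¹ * (C RatFunc.X * thetaS I)) = C RatFunc.X * thetaS I := by
    rw [← mul_assoc, PowerSeries.mul_inv_cancel _ hIc, one_mul]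
  have hne : ∀ (e : V × Fin n) (k : ℤ),
      (RatFunc.C (ι (G.α e)) + (k : RatFunc K) * RatFunc.X : RatFunc K) ≠ 0 := by
    intro e k
    have := a7b_lin_ne (hN.1 e) (k : K)
    rwa [map_intCast] at this
  have hin : ∀ (e : V × Fin n) (k : ℤ),
      (RatFunc.C (ι (G.α e)) + (k : RatFunc K) * RatFunc.X : RatFunc K)⁻¹ ∈ T := by
    intro e k
    have := a7b_lin_inv (hN.1 e) (k : K)
    rwa [map_intCast] at this
  obtain ⟨h0, h1⟩ := a7b_core T hz hI hv
    (P := (fun m : ℕ => RatFunc.C (ι (G.α b)) + 1 * ((m : RatFunc K) * RatFunc.X)) *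
      ∏ j ∈ Finset.univ.erase b.2, ∏ k ∈ Finset.Icc 1 (G.cc b j).toNat, fun m : ℕ =>
        RatFunc.C (ι (G.α (b.1, j))) + ((k : RatFunc K) - ((G.cc b j : ℤ) : RatFunc K)) * RatFunc.X +
          ((G.cc b j : ℤ) : RatFunc K) * ((m : RatFunc K) * RatFunc.X))
    (Q := ∏ j ∈ Finset.univ.erase b.2, ∏ k ∈ Finset.range (-G.cc b j).toNat, fun m : ℕ =>
        RatFunc.C (ι (G.α (b.1, j))) - (k : RatFunc K) * RatFunc.X +
          ((G.cc b j : ℤ) : RatFunc K) * ((m : RatFunc K) * RatFunc.X))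
    (Submonoid.mul_mem _ (Submonoid.subset_closure ⟨_, hC _, _, T.one_mem, rfl⟩)
      (Submonoid.prod_mem _ fun j _ => Submonoid.prod_mem _ fun k _ =>
        Submonoid.subset_closure ⟨_, T.add_mem (hC _) (T.mul_mem
          (T.sub_mem (natCast_mem T k) (intCast_mem T _)) hz), _, intCast_mem T _, rfl⟩))
    (Submonoid.prod_mem _ fun j _ => Submonoid.prod_mem _ fun k _ =>
        Submonoid.subset_closure ⟨_, T.sub_mem (hC _) (T.mul_mem (natCast_mem T k) hz), _,
          intCast_mem T _, rfl⟩)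
    (fun d => by
      simp only [Pi.mul_apply, Finset.prod_apply]
      have e1 : RatFunc.C (ι (G.α b)) + 1 * ((d : RatFunc K) * RatFunc.X) =
          RatFunc.C (ι (G.α b)) + ((d : ℤ) : RatFunc K) * RatFunc.X := by push_cast; ring
      have e2 : ∀ (j : Fin n) (k : ℕ),
          RatFunc.C (ι (G.α (b.1, j))) + ((k : RatFunc K) - ((G.cc b j : ℤ) : RatFunc K)) * RatFunc.X +
          ((G.cc b j : ℤ) : RatFunc K) * ((d : RatFunc K) * RatFunc.X) =
          RatFunc.C (ι (G.α (b.1, j))) +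
            ((k - G.cc b j + G.cc b j * d : ℤ) : RatFunc K) * RatFunc.X := by
        intro j k; push_cast; ring
      simp only [e1, e2]
      refine ⟨mul_ne_zero (hne _ _) (Finset.prod_ne_zero_iff.2 fun j _ =>
        Finset.prod_ne_zero_iff.2 fun k _ => hne _ _), ?_⟩
      rw [mul_inv, ← Finset.prod_inv_distrib]
      refine T.mul_mem (hin _ _) (T.prod_mem fun j _ => ?_)
      rw [← Finset.prod_inv_distrib]
      exact T.prod_mem fun k _ => hin _ _)
    (fun m => by
      simp only [Pi.mul_apply, Finset.prod_apply, hIdef, coeff_mk, Im]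
      rw [Finset.prod_Icc_succ_top (by omega)]
      have e3 := Finset.prod_congr (s₁ := Finset.univ.erase b.2) rfl fun j _ =>
        a7b_Gam_step (hne (b.1, j)) (G.cc b j) m
      rw [Finset.prod_mul_distrib, Finset.prod_mul_distrib] at e3
      have n1 : (((m + 1 : ℕ) : RatFunc K)) ≠ 0 := by exact_mod_cast Nat.succ_ne_zero m
      have n2 := hne b ((m + 1 : ℕ) : ℤ)
      rw [Int.cast_natCast] at n2
      have n3 : (RatFunc.X : RatFunc K) ≠ 0 := RatFunc.X_ne_zero
      exact a7b_alg n1 n2 n3 e3)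
  exact a7b_mirror hI hv h0 h1

end Main

theorem a7b : A7bSt := by
  intro V r n G K _ _ ι hN b y₀ y hy₀ hy
  obtain ⟨u, hu0, hu⟩ := a7b_hyper G ι hN b
  set yt : PowerSeries (RatFunc K) := PowerSeries.map (RatFunc.C : K →+* RatFunc K) y with hyt
  have hyt0 : coeff 0 yt = 0 := by rw [hyt, coeff_map, hy, map_zero]
  set Q : PowerSeries (RatFunc K) := X ^ G.l b * expS yt with hQ
  have hQ0 : coeff 0 Q = 0 := by
    have := G.l_pos b
    rw [hQ, coeff_mul_split, coeff_X_pow, if_neg (by omega)]; simp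
  obtain ⟨σ, hC, hσ⟩ := a7b_exists_subst Q hQ0
  have hQm : ∀ T : Subring (RatFunc K), (∀ a : K, RatFunc.C a ∈ T) → ∀ j, coeff j Q ∈ T := by
    intro T hT j
    refine coeff_mul_mem T (fun i _ => ?_) fun i _ => expS_mem T (fun q => ?_) _ _ fun k _ => ?_
    · rw [coeff_X_pow]; split_ifs
      · exact T.one_mem
      · exact T.zero_mem
    · have : algebraMap ℚ (RatFunc K) q = RatFunc.C (q : K) := by simp
      rw [this]; exact hT _
    · rw [hyt, coeff_map]; exact hT _
  have hr : ∀ d, ∃ a : K, RatFunc.C a =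
      coeff d (σ (PowerSeries.map (RatFunc.C : K →+* RatFunc K) u)) := fun d =>
    a7b_subst_mem (RatFunc.C : K →+* RatFunc K).range (hQm _ fun a => ⟨a, rfl⟩) hσ
      (fun j => by rw [coeff_map]; exact ⟨_, rfl⟩) d
  choose a ha using hr
  have hu' : σ (overZ u) = overZ (PowerSeries.mk a) := by
    rw [overZ, overZ, map_mul, hC]
    congr 1
    ext d
    rw [coeff_map, coeff_mk, ha]
  have ha0 : a 0 = 0 := by
    apply (RatFunc.C : K →+* RatFunc K).injective
    rw [ha, a7b_subst_zero hσ, coeff_map, hu0]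
  have hoz : ∀ x : PowerSeries K, coeff 0 x = 0 → coeff 0 (overZ x) = 0 := by
    intro x hx
    rw [overZ, coeff_C_mul, coeff_map, hx]; simp
  set w : PowerSeries K := y₀ + C (ι (G.α b) / 2) * y with hw
  have hw0 : coeff 0 w = 0 := by rw [hw, map_add, coeff_C_mul, hy₀, hy]; simp
  have hG : Gb G ι b y₀ y = expS (overZ w) * σ (PowerSeries.mk (Im G ι b)) := by
    ext d
    have e1 : ∀ m : ℕ, X ^ (G.l b * m) * expS (overZ w +
        PowerSeries.map (RatFunc.C : K →+* RatFunc K) (C (m : K) * y)) * C (Im G ι b m) =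
        expS (overZ w) * (C (Im G ι b m) * Q ^ m) := by
      intro m
      have e2 : PowerSeries.map (RatFunc.C : K →+* RatFunc K) (C (m : K) * y) =
          (m : PowerSeries (RatFunc K)) * yt := by
        rw [map_mul, map_natCast, map_natCast]
      have e3 : coeff 0 ((m : PowerSeries (RatFunc K)) * yt) = 0 := by
        rw [← map_natCast (C : RatFunc K →+* PowerSeries (RatFunc K)), coeff_C_mul, hyt0, mul_zero]
      rw [e2, expS_add (hoz w hw0) e3, a7b_expS_natCast hyt0, hQ, mul_pow, pow_mul]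
      ring
    simp only [Gb, coeff_mk]
    rw [← hw]
    simp only [e1]
    rw [← map_sum, ← Finset.mul_sum]
    refine coeff_mul_congr (fun _ _ => rfl) fun j hj => ?_
    rw [hσ, map_sum]
    simp only [coeff_C_mul, coeff_mk]
    refine (Finset.sum_subset (by intro x; simp; omega) fun m _ hm => ?_).symm
    rw [coeff_pow_eq_zero hQ0 (by simpa using hm), mul_zero]
  have ha' : coeff 0 (PowerSeries.mk a) = 0 := by rw [coeff_mk, ha0]
  refine ⟨PowerSeries.mk a + w, by rw [map_add, ha', hw0, add_zero], fun d => ?_⟩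
  have e4 : -overZ (PowerSeries.mk a + w) = -overZ (PowerSeries.mk a) + -overZ w := by
    simp only [overZ, map_add]; ring
  have e5 : expS (-overZ (PowerSeries.mk a + w)) * Gb G ι b y₀ y =
      σ (expS (-overZ u) * PowerSeries.mk (Im G ι b)) := by
    rw [e4, expS_add (by rw [map_neg, hoz _ ha', neg_zero]) (by rw [map_neg, hoz _ hw0, neg_zero]),
      hG, map_mul, a7b_subst_expS hC hσ (by rw [map_neg, hoz _ hu0, neg_zero]), map_neg, hu']
    linear_combination (expS (-overZ (PowerSeries.mk a)) * σ (PowerSeries.mk (Im G ι b))) *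
      expS_mul_expS_neg (hoz w hw0)
  unfold Vert
  rw [e5]
  exact a7b_subst_mem (repSubring (⊤ : Subring K) {0}ᶜ)
    (hQm _ fun a => isRep_C (Subring.mem_top _)) hσ hu d

end GK4850
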