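import Pool.Agent.Lib.MP_4850ea_gt.GK.StA
import Pool.Agent.Lib.MP_4850ea_gt.GK.A3

/-! A7c: the zero cluster for the two ends of a parallel dart. -/

open PowerSeries

namespace GK4850

variable {V : Type} {r n : ℕ} {G : GKM V r n} {K : Type} [Field K] [CharZero K]
  {ι : (Fin r → ℤ) →+ K} {R : ValuationSubring K} {e : V × Fin n} {u : K⟦X⟧}
  {F₁ F₂ H₁ H₂ : (RatFunc K)⟦X⟧} {d : ℕ}

variable (G ι R) in
/-- one half of a local solution, in all degrees up to `d` -/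
structure A7cH (e : V × Fin n) (u : K⟦X⟧) (F₁ F₂ : (RatFunc K)⟦X⟧) (d : ℕ) : Prop where
  poles : ∀ j ≤ d, IsRep ⊤ ({0} ∪ {w | ∃ c, 1 ≤ c ∧ w = wt G ι e c} ∪ away R 0) (coeff j F₁)
  reg : ∀ j ≤ d, ∀ c, 1 ≤ c → IsReg (wt G ι e c) (coeff j F₂)
  res : ∀ j ≤ d, Res G ι e F₁ F₂ j
  vert : ∀ j ≤ d, Vert u F₁ j

theorem a7c_not_away (hP : Place G ι R) (he : Par G ι R e) {c : ℕ} (hc : 1 ≤ c) :
    wt G ι e c ∉ away R 0 := fun h => h.2 (by rw [sub_zero, hP.val_wt e hc]; exact he)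

omit [CharZero K] in
theorem a7c_zero_not_away : (0 : K) ∉ away R 0 := fun h => h.2 (by simp)

theorem a7c_reg (hN : Nondeg G ι) (hP : Place G ι R) (he : Par G ι R e) {g : RatFunc K}
    (hg : IsRep ⊤ ({0} ∪ {w | ∃ c, 1 ≤ c ∧ w = wt G ι (G.rev e) c} ∪ away R 0) g) {c : ℕ}
    (hc : 1 ≤ c) : IsReg (wt G ι e c) g := by
  refine hg.isReg ?_
  rintro ((h | ⟨c', hc', h⟩) | h)
  · exact wt_ne_zero hN e hc h
  · exact wt_ne_wt_target hN e (G.rev e).2 hc hc' h
  · exact a7c_not_away hP he hc h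

theorem A7cH.sub (h : A7cH G ι R e u F₁ F₂ d) (h' : A7cH G ι R e u H₁ H₂ d) :
    A7cH G ι R e u (F₁ - H₁) (F₂ - H₂) d where
  poles j hj := by rw [map_sub]; exact (h.poles j hj).sub (h'.poles j hj)
  reg j hj c hc := by rw [map_sub]; exact IsRep.sub (h.reg j hj c hc) (h'.reg j hj c hc)
  res j hj c hc := by
    obtain ⟨h1, h2⟩ := h.res j hj c hc
    obtain ⟨h3, h4⟩ := h'.res j hj c hc
    rw [map_sub, mul_sub, ev_sub h1 h3, h2, h4, map_sub,
      ev_sub (h.reg _ (by omega) c hc) (h'.reg _ (by omega) c hc)]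
    refine ⟨IsRep.sub h1 h3, ?_⟩
    split_ifs
    · rw [mul_sub]
    · rw [sub_zero]
  vert j hj := by
    rw [Vert, mul_sub, map_sub]
    exact IsRep.sub (h.vert j hj) (h'.vert j hj)

theorem A7cH.mulC (hP : Place G ι R) (he : Par G ι R e) (h : A7cH G ι R e u F₁ F₂ d)
    {g : RatFunc K} (hg : IsLoc R 0 g) : A7cH G ι R e u (C g * F₁) (C g * F₂) d where
  poles j hj := by
    rw [coeff_C_mul]
    exact (IsRep.mono hg le_rfl Set.subset_union_right).mul (h.poles j hj)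
  reg j hj c hc := by
    rw [coeff_C_mul]
    exact IsRep.mul (IsRep.isReg hg (a7c_not_away hP he hc)) (h.reg j hj c hc)
  res j hj c hc := by
    obtain ⟨h1, h2⟩ := h.res j hj c hc
    have h3 := IsRep.isReg hg (a7c_not_away hP he hc)
    rw [coeff_C_mul, mul_left_comm, ev_mul h3 h1, h2, coeff_C_mul,
      ev_mul h3 (h.reg _ (by omega) c hc)]
    refine ⟨IsRep.mul h3 h1, ?_⟩
    split_ifs
    · rw [mul_left_comm]
    · rw [mul_zero]
  vert j hj := by
    rw [Vert, mul_left_comm, coeff_C_mul]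
    exact IsRep.mul (IsRep.isReg hg a7c_zero_not_away) (h.vert j hj)

theorem A7cH.mulX (h : A7cH G ι R e u F₁ F₂ d) (k : ℕ) :
    A7cH G ι R e u (X ^ k * F₁) (X ^ k * F₂) d where
  poles j hj := by
    rw [coeff_X_pow_mul']
    split_ifs
    exacts [h.poles _ (by omega), isRep_zero]
  reg j hj c hc := by
    rw [coeff_X_pow_mul']
    split_ifs
    exacts [h.reg _ (by omega) c hc, isRep_zero]
  res j hj c hc := by
    rw [coeff_X_pow_mul', coeff_X_pow_mul']
    by_cases hk : k ≤ j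
    · obtain ⟨h1, h2⟩ := h.res (j - k) (by omega) c hc
      rw [if_pos hk, h2]
      refine ⟨h1, ?_⟩
      by_cases h3 : c * G.l e ≤ j - k
      · rw [if_pos h3, if_pos (by omega), if_pos (by omega), Nat.sub_right_comm]
      · rw [if_neg h3]
        split_ifs with h4 h5
        · omega
        · rw [ev_zero, mul_zero]
        · rfl
    · rw [if_neg hk, mul_zero, ev_zero, if_neg (c := k ≤ _) (by omega), ev_zero, mul_zero, ite_self]
      exact ⟨isRep_zero, rfl⟩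
  vert j hj := by
    rw [Vert, mul_left_comm, coeff_X_pow_mul']
    split_ifs
    exacts [h.vert _ (by omega), isRep_zero]

omit [CharZero K] in
theorem a7c_coeff_Dop (p : V) (F : (RatFunc K)⟦X⟧) (j : ℕ) : coeff j (Dop G ι p F) =
    (RatFunc.C (j : K) * RatFunc.X + RatFunc.C (∑ i, ι (G.α (p, i)))) * coeff j F := by
  rw [Dop, map_add, coeff_C_mul, coeff_C_mul, coeff_thetaS, map_natCast]
  ring

omit [CharZero K] in
theorem a7c_lin {N : Subring K} {S : Set K} {a b : K} (ha : a ∈ N) (hb : b ∈ N) :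
    IsRep N S (RatFunc.C a * RatFunc.X + RatFunc.C b) :=
  ((isRep_C ha).mul isRep_X).add (isRep_C hb)

omit [CharZero K] in
theorem a7c_C {S : Set K} {a : K} : IsRep ⊤ S (RatFunc.C a) := isRep_C (Subring.mem_top a)

omit [CharZero K] in
theorem a7c_lin' {S : Set K} {a b : K} : IsRep ⊤ S (RatFunc.C a * RatFunc.X + RatFunc.C b) :=
  a7c_lin (Subring.mem_top a) (Subring.mem_top b)

omit [CharZero K] in
theorem a7c_ev_lin (w a b : K) : ev w (RatFunc.C a * RatFunc.X + RatFunc.C b) = a * w + b := by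
  rw [ev_add (a7c_C.mul isRep_X) a7c_C, ev_mul a7c_C isRep_X,
    ev_C, ev_C, ev_X]

theorem a7c_E (hu : coeff 0 u = 0) (p : V) (F : (RatFunc K)⟦X⟧) :
    expS (-overZ u) * Dop G ι p F = C RatFunc.X * thetaS (expS (-overZ u) * F) +
      (PowerSeries.map (RatFunc.C : K →+* RatFunc K) (thetaS u) +
        C (RatFunc.C (∑ i, ι (G.α (p, i))))) * (expS (-overZ u) * F) := by
  have h1 : C RatFunc.X * thetaS (overZ u) =
      PowerSeries.map (RatFunc.C : K →+* RatFunc K) (thetaS u) := by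
    rw [overZ, thetaS_C_mul, ← mul_assoc, ← map_mul, mul_inv_cancel₀ RatFunc.X_ne_zero, map_one,
      one_mul, thetaS_map]
  rw [thetaS_mul, thetaS_expS (by rw [map_neg, coeff_overZ, hu]; simp), thetaS_neg, ← h1, Dop]
  ring

theorem A7cH.dop (hu : coeff 0 u = 0) (h : A7cH G ι R e u F₁ F₂ d) :
    A7cH G ι R e u (Dop G ι e.1 F₁) (Dop G ι (G.rev e).1 F₂) d where
  poles j hj := by
    rw [a7c_coeff_Dop]
    exact a7c_lin'.mul (h.poles j hj)
  reg j hj c hc := by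
    rw [a7c_coeff_Dop]
    exact a7c_lin'.mul (h.reg j hj c hc)
  res j hj c hc := by
    obtain ⟨h1, h2⟩ := h.res j hj c hc
    rw [a7c_coeff_Dop, mul_left_comm, ev_mul a7c_lin' h1, h2, a7c_coeff_Dop,
      ev_mul a7c_lin' (h.reg _ (by omega) c hc), a7c_ev_lin, a7c_ev_lin]
    refine ⟨a7c_lin'.mul h1, ?_⟩
    split_ifs with h3
    · rw [mul_left_comm, Nat.cast_sub h3, Nat.cast_mul]
      congr 2
      linear_combination c1_sub (G := G) (ι := ι) e + (G.l e : K) * natCast_mul_wt (ι := ι) e hc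
    · rw [mul_zero]
  vert j hj := by
    rw [Vert, a7c_E hu, map_add, coeff_C_mul, coeff_thetaS, ← map_natCast RatFunc.C]
    refine IsRep.add (isRep_X.mul (a7c_C.mul (h.vert j hj)))
      (coeff_mul_mem (repSubring ⊤ {0}ᶜ) (fun i _ => ?_) fun i hi => h.vert i (by omega))
    rw [map_add, coeff_map, coeff_C]
    refine a7c_C.add ?_
    split_ifs
    exacts [a7c_C, isRep_zero]

theorem A7cH.low (h : A7cH G ι R e u F₁ F₂ d) {k : ℕ} (hk : k ≤ d)
    (h1 : ∀ j < k, coeff j F₁ = 0) (h2 : ∀ j < k, coeff j F₂ = 0) : IsLoc R 0 (coeff k F₁) := by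
  refine ((h.poles k hk).cancel (S' := away R 0) ?_).mono le_rfl Set.inter_subset_right
  rintro w ((rfl | ⟨c, hc, rfl⟩) | hw) - hw'
  · have := h.vert k hk
    rwa [Vert, coeff_mul_split, coeff_zero_expS, one_mul, Finset.sum_eq_zero fun j hj => by
      rw [h1 j (Finset.mem_range.1 hj), mul_zero], add_zero] at this
  · obtain ⟨h3, h4⟩ := h.res k hk c hc
    refine isReg_of_res_zero h3 (h4.trans ?_)
    split_ifs with h5
    · have := Nat.mul_le_mul hc (G.l_pos e)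
      rw [h2 _ (by omega), ev_zero, mul_zero]
    · rfl
  · exact absurd hw hw'

omit [CharZero K] in
theorem a7c_diag {al : K} {g : RatFunc K} (h : IsInt R g) : (g, g) ∈ intPairSubring R al :=
  ⟨h, h, by rw [sub_self, mul_zero]; exact isRep_zero⟩

theorem a7c_halves (hN : Nondeg G ι) (hP : Place G ι R) (he : Par G ι R e) {u₁ u₂ : K⟦X⟧}
    (h : ∀ j ≤ d, LocAt G ι R e u₁ u₂ F₁ F₂ j) :
    A7cH G ι R e u₁ F₁ F₂ d ∧ A7cH G ι R (G.rev e) u₂ F₂ F₁ d :=
  ⟨⟨fun j hj => (h j hj).poles₁, fun j hj _ hc => a7c_reg hN hP he (h j hj).poles₂ hc,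
    fun j hj => (h j hj).res₁, fun j hj => (h j hj).vert₁⟩,
    fun j hj => (h j hj).poles₂, fun j hj _ hc => a7c_reg hN hP he.rev
      (by rw [G.rev_rev]; exact (h j hj).poles₁) hc,
    fun j hj => (h j hj).res₂, fun j hj => (h j hj).vert₂⟩

theorem a7c : A7cSt := by
  intro V r n G K _ _ ι hN R hP b hb u₁ u₂ G₁ G₂ F₁ F₂ d hu₁ hu₂ g₁ g₂ hG iG hF iF
  obtain ⟨G1, G2⟩ := a7c_halves hN hP hb hG
  obtain ⟨F1, F2⟩ := a7c_halves hN hP hb hF
  have D1 := G1.dop hu₁
  have D2 := G2.dop hu₂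
  rw [G.rev_rev] at D2
  have a0 := hN.1 b
  have l0 : (G.l b : K) ≠ 0 := Nat.cast_ne_zero.2 (Nat.one_le_iff_ne_zero.1 (G.l_pos b))
  have cm : ∀ p, ∑ i, ι (G.α (p, i)) ∈ R.toSubring := fun p => sum_mem fun i _ => hP.mem _
  have key : ∀ k ≤ d, ∃ P₁ P₂ : (RatFunc K)⟦X⟧,
      (∀ j ≤ d, (coeff j P₁, coeff j P₂) ∈ intPairSubring R (ι (G.α b))) ∧
      A7cH G ι R b u₁ (F₁ - P₁) (F₂ - P₂) d ∧ A7cH G ι R (G.rev b) u₂ (F₂ - P₂) (F₁ - P₁) d ∧
      (∀ j < k, coeff j (F₁ - P₁) = 0) ∧ ∀ j < k, coeff j (F₂ - P₂) = 0 := by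
    intro k
    induction k with
    | zero =>
      refine fun _ => ⟨0, 0, fun j _ => zero_mem _, ?_, ?_, by simp, by simp⟩
      · simpa using F1
      · simpa using F2
    | succ k ih =>
      intro hk
      obtain ⟨P₁, P₂, iP, H1, H2, z1, z2⟩ := ih (by omega)
      have l1 := H1.low (by omega) z1 z2
      have l2 := H2.low (by omega) z2 z1
      have i12 : (coeff k (F₁ - P₁), coeff k (F₂ - P₂)) ∈ intPairSubring R (ι (G.α b)) := by
        rw [map_sub, map_sub]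
        exact sub_mem (show (coeff k F₁, coeff k F₂) ∈ intPairSubring R (ι (G.α b)) from
          iF k (by omega)) (iP k (by omega))
      generalize e1 : coeff k (F₁ - P₁) = h₁ at l1 i12
      generalize e2 : coeff k (F₂ - P₂) = h₂ at l2 i12
      set c₂ := RatFunc.C (G.l b : K)⁻¹ * (RatFunc.C (ι (G.α b))⁻¹ * (h₁ - h₂)) with hc₂
      set c₁ := h₁ - c₂ * RatFunc.C (∑ i, ι (G.α (b.1, i))) with hc₁
      have i2 : IsInt R c₂ := (isRep_C (hP.natCast_inv_mem _)).mul i12.2.2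
      have i1 : IsInt R c₁ := IsRep.sub i12.1 (i2.mul (isRep_C (cm _)))
      have m2 : IsLoc R 0 c₂ := a7c_C.mul (a7c_C.mul (IsRep.sub l1 l2))
      have m1 : IsLoc R 0 c₁ := IsRep.sub l1 (m2.mul a7c_C)
      have co : ∀ (p : V) (F P H : (RatFunc K)⟦X⟧) (h : RatFunc K), coeff 0 H = 1 →
          (∀ j < k, coeff j (F - P) = 0) → coeff k (F - P) = h →
          c₁ + c₂ * RatFunc.C (∑ i, ι (G.α (p, i))) = h → ∀ j < k + 1,
          coeff j (F - (P + X ^ k * (C c₁ * H) + X ^ k * (C c₂ * Dop G ι p H))) = 0 := by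
        intro p F P H h q1 q2 q3 q4 j hj
        rw [← sub_sub, ← sub_sub, map_sub, map_sub (coeff j) (F - P), coeff_X_pow_mul',
          coeff_X_pow_mul']
        split_ifs with h5
        · obtain rfl : j = k := by omega
          rw [q3, Nat.sub_self, coeff_C_mul, coeff_C_mul, a7c_coeff_Dop, q1, ← q4]
          simp
        · rw [q2 j (by omega), sub_zero, sub_zero]
      refine ⟨P₁ + X ^ k * (C c₁ * G₁) + X ^ k * (C c₂ * Dop G ι b.1 G₁),
        P₂ + X ^ k * (C c₁ * G₂) + X ^ k * (C c₂ * Dop G ι (G.rev b).1 G₂), fun j hj => ?_, ?_, ?_,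
        co _ _ _ _ _ g₁ z1 e1 (sub_add_cancel _ _), co _ _ _ _ _ g₂ z2 e2 ?_⟩
      · simp only [map_add, coeff_X_pow_mul', coeff_C_mul, a7c_coeff_Dop]
        have q1 : (coeff (j - k) G₁, coeff (j - k) G₂) ∈ intPairSubring R (ι (G.α b)) :=
          iG _ (by omega)
        have q2 : (RatFunc.C ((j - k : ℕ) : K) * RatFunc.X + RatFunc.C (∑ i, ι (G.α (b.1, i))),
            RatFunc.C ((j - k : ℕ) : K) * RatFunc.X +
              RatFunc.C (∑ i, ι (G.α ((G.rev b).1, i)))) ∈ intPairSubring R (ι (G.α b)) := by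
          refine ⟨a7c_lin (natCast_mem _ _) (cm _), a7c_lin (natCast_mem _ _) (cm _), ?_⟩
          rw [add_sub_add_left_eq_sub, ← map_sub, ← map_mul, c1_sub, mul_comm,
            mul_inv_cancel_right₀ a0]
          exact isRep_C (natCast_mem _ _)
        split_ifs
        · exact add_mem (add_mem (iP j hj) (mul_mem (a7c_diag i1) q1))
            (mul_mem (a7c_diag i2) (mul_mem q2 q1))
        · rw [add_zero, add_zero, add_zero, add_zero]
          exact iP j hj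
      · simp only [← sub_sub]
        exact (H1.sub ((G1.mulC hP hb m1).mulX k)).sub ((D1.mulC hP hb m2).mulX k)
      · simp only [← sub_sub]
        exact (H2.sub ((G2.mulC hP hb.rev m1).mulX k)).sub ((D2.mulC hP hb.rev m2).mulX k)
      · have q : c₂ * RatFunc.C ((G.l b : K) * ι (G.α b)) = h₁ - h₂ := by
          rw [hc₂, ← mul_assoc, ← map_mul, mul_right_comm, ← map_mul, ← mul_inv,
            inv_mul_cancel₀ (mul_ne_zero l0 a0), map_one, one_mul]
        rw [← c1_sub, map_sub] at q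
        linear_combination hc₁ - q
  obtain ⟨P₁, P₂, iP, H1, H2, z1, z2⟩ := key d le_rfl
  have l1 := H1.low le_rfl z1 z2
  have l2 := H2.low le_rfl z2 z1
  rw [map_sub] at l1 l2
  refine ⟨⟨_, (iP d le_rfl).1, l1⟩, ⟨_, (iP d le_rfl).2.1, l2⟩, _, (iP d le_rfl).2.2, ?_⟩
  rw [← mul_sub, sub_sub_sub_comm]
  exact a7c_C.mul (IsRep.sub l1 l2)

end GK4850
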