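import Pool.Agent.Lib.MP_4850ea_gt.GK.StA
import Pool.Agent.Lib.MP_4850ea_gt.GK.A3

/-! A8: integrality at an admissible place. -/

namespace GK4850

open PowerSeries

variable {V : Type} {r n : ℕ} {G : GKM V r n} {K : Type} [Field K] [CharZero K]
  {ι : (Fin r → ℤ) →+ K} {R : ValuationSubring K}

omit [CharZero K] in
theorem a8_inv {N : Subring K} {S : Set K} (h : (0 : K) ∈ S) {δ : K} (hδ : δ ∈ N) :
    IsRep N S (RatFunc.C δ * RatFunc.X⁻¹) :=
  (isRep_C hδ).mul (by simpa using isRep_inv_X_sub_C h N.zero_mem)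

omit [CharZero K] in
theorem a8_fin {g : RatFunc K} (hg : IsRep ⊤ (R : Set K) g) (ho : OrdInf 1 g) (h0 : IntAt R 0 g)
    (h1 : ∀ w, R.valuation w = 1 → IntAt R w g) : IsInt R g := by
  refine lemmaH hg ho fun w hw => ?_
  rcases ((R.valuation_le_one_iff w).2 hw).eq_or_lt with e | e
  · exact h1 w e
  · obtain ⟨g₁, h2, h3⟩ := h0
    refine ⟨g₁, h2, ?_⟩
    rw [IsLoc, away_congr (w' := 0) (by rwa [sub_zero])]
    exact h3

theorem a8_shift_vert {u u' : K⟦X⟧} {F F' : (RatFunc K)⟦X⟧} {d : ℕ} (h0 : coeff 0 u = 0)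
    (h0' : coeff 0 u' = 0) (hu : ∀ j < d, coeff j u = coeff j u')
    (hF : ∀ j < d, coeff j F = coeff j F') (hd : 1 ≤ d) (h1 : coeff 0 F = 1)
    (e : coeff d F' = coeff d F + RatFunc.C (coeff d u' - coeff d u) * RatFunc.X⁻¹)
    (h : Vert u F d) : Vert u' F' d := by
  have := vert_coeff_sub h0 h0' hu hF hd
  rw [e, h1, mul_one, add_sub_cancel_left, sub_self, sub_eq_zero] at this
  rw [Vert, this]
  exact h

theorem a8_uniq {u u' : K⟦X⟧} {F : (RatFunc K)⟦X⟧} {d : ℕ} (h0 : coeff 0 u = 0)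
    (h0' : coeff 0 u' = 0) (h1 : coeff 0 F = 1) (h : ∀ j ≤ d, Vert u F j) (h' : ∀ j, Vert u' F j) :
    ∀ j ≤ d, coeff j u = coeff j u' := by
  intro j
  induction j using Nat.strong_induction_on with
  | _ j ih =>
    intro hj
    rcases Nat.eq_zero_or_pos j with rfl | hj0
    · rw [h0, h0']
    have := vert_coeff_sub (F := F) (F' := F) h0 h0' (fun i hi => ih i hi (by omega))
      (fun _ _ => rfl) hj0
    rw [h1, mul_one, sub_self, zero_sub, ← neg_eq_iff_eq_neg, neg_sub] at this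
    have h2 : IsReg (0 : K) _ := IsRep.sub (h j hj) (h' j)
    rw [this] at h2
    exact (sub_eq_zero.1 (eq_zero_of_isReg_zero h2)).symm

theorem a8_shift (hN : Nondeg G ι) {u : V → K⟦X⟧} {F : V → (RatFunc K)⟦X⟧} {D : ℕ} (hD : 1 ≤ D)
    (δ : V → K) (h0 : ∀ p, coeff 0 (u p) = 0) (h1 : ∀ p, coeff 0 (F p) = 1)
    (hs : ∀ j, SolAt G ι u F j) : ∃ (u' : V → K⟦X⟧) (F' : V → (RatFunc K)⟦X⟧),
      (∀ p, coeff 0 (u' p) = 0) ∧ (∀ p, ∀ j < D, coeff j (u p) = coeff j (u' p)) ∧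
      (∀ p, coeff D (u' p) = coeff D (u p) + δ p) ∧
      (∀ p, ∀ j < D, coeff j (F' p) = coeff j (F p)) ∧
      (∀ p, coeff D (F' p) = coeff D (F p) + RatFunc.C (δ p) * RatFunc.X⁻¹) ∧
      ∀ j ≤ D, SolAt G ι u' F' j := by
  obtain ⟨u', a1, a2⟩ : ∃ u' : V → K⟦X⟧, (∀ p, ∀ j < D, coeff j (u p) = coeff j (u' p)) ∧
      ∀ p, coeff D (u' p) = coeff D (u p) + δ p :=
    ⟨fun p => u p + monomial D (δ p), fun p j hj => by simp [coeff_monomial, hj.ne],
      fun p => by simp⟩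
  obtain ⟨F', a3, a4⟩ : ∃ F' : V → (RatFunc K)⟦X⟧, (∀ p, ∀ j < D, coeff j (F' p) = coeff j (F p)) ∧
      ∀ p, coeff D (F' p) = coeff D (F p) + RatFunc.C (δ p) * RatFunc.X⁻¹ :=
    ⟨fun p => F p + monomial D (RatFunc.C (δ p) * RatFunc.X⁻¹),
      fun p j hj => by simp [coeff_monomial, hj.ne], fun p => by simp⟩
  have a0 : ∀ p, coeff 0 (u' p) = 0 := fun p => (a1 p 0 hD).symm.trans (h0 p)
  refine ⟨u', F', a0, a1, a2, a3, a4, fun j hj => ⟨fun p => ?_, fun e c hc => ?_, fun p => ?_⟩⟩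
  · rcases hj.eq_or_lt with rfl | hj
    · rw [a4]
      exact ((hs j).poles p).add (a8_inv (.inl rfl) trivial)
    · rw [a3 p j hj]
      exact (hs j).poles p
  · have b1 := (hs j).res e c hc
    have b2 : 1 ≤ c * G.l e := Nat.mul_pos hc (G.l_pos e)
    rw [a3 _ (j - c * G.l e) (by omega), ← b1.2]
    rcases hj.eq_or_lt with rfl | hj
    · have b3 := res_zero_of_isReg ((a8_inv (N := ⊤) (S := {0}) rfl (δ := δ e.1) trivial).isReg
        (wt_ne_zero hN e hc))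
      rw [a4, mul_add, ev_add b1.1 b3.1, b3.2, add_zero]
      exact ⟨IsRep.add b1.1 b3.1, rfl⟩
    · rw [a3 _ j hj]
      exact ⟨b1.1, rfl⟩
  · rcases hj.eq_or_lt with rfl | hj
    · exact a8_shift_vert (h0 p) (a0 p) (a1 p) (fun i hi => (a3 p i hi).symm) hD (h1 p)
        (by rw [a4, a2, add_sub_cancel_left]) ((hs j).vert p)
    · exact ((hs j).vert p).congr (h0 p) (a0 p) (fun i hi => a1 p i (by omega))
        fun i hi => (a3 p i (by omega)).symm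

theorem a8_away (hP : Place G ι R) {e : V × Fin n} (h : ¬ Par G ι R e) {c : ℕ} (hc : 1 ≤ c) :
    wt G ι e c ∈ away R 0 :=
  ⟨hP.wt_mem e c, by rw [sub_zero, hP.val_wt e hc, hP.val_of_not_par h]; exact lt_irrefl _⟩

theorem a8_polesR (hP : Place G ι R) {u : V → K⟦X⟧} {F : V → (RatFunc K)⟦X⟧} {d : ℕ}
    (h : SolAt G ι u F d) (p : V) : IsRep ⊤ (R : Set K) (coeff d (F p)) := by
  refine (h.poles p).mono le_rfl ?_
  rintro _ (rfl | ⟨j, c, -, rfl⟩)
  exacts [R.zero_mem, hP.wt_mem _ _]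

theorem a8_poles (hP : Place G ι R) {u : V → K⟦X⟧} {F : V → (RatFunc K)⟦X⟧} {d : ℕ}
    (h : SolAt G ι u F d) {b : V × Fin n} (hb : Par G ι R b) :
    IsRep ⊤ ({0} ∪ {w | ∃ c, 1 ≤ c ∧ w = wt G ι b c} ∪ away R 0) (coeff d (F b.1)) := by
  refine (h.poles b.1).mono le_rfl ?_
  rintro _ (rfl | ⟨j, c, hc, rfl⟩)
  · exact .inl (.inl rfl)
  by_cases e : Par G ι R (b.1, j)
  · obtain rfl := hP.par b.1 j b.2 e hb
    exact .inl (.inr ⟨c, hc, rfl⟩)
  · exact .inr (a8_away hP e hc)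

theorem a8_ne (hN : Nondeg G ι) (hP : Place G ι R) {b : V × Fin n} (hb : Par G ι R b) :
    (G.rev b).1 ≠ b.1 := fun e => by
  have h1 : G.rev b = b := Prod.ext e (hP.par b.1 _ _ (e ▸ hb.rev) hb)
  have h2 := iota_rev (G := G) (ι := ι) b
  rw [h1] at h2
  exact hN.1 b (by linear_combination (2⁻¹ : K) * h2)

/-- the generators match `u` at both ends of `b` up to degree `d` -/
def A8Pair (G : GKM V r n) (ι : (Fin r → ℤ) →+ K) (R : ValuationSubring K) (u : V → K⟦X⟧)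
    (b : V × Fin n) (d : ℕ) : Prop :=
  ∃ y₀ y : K⟦X⟧, coeff 0 y₀ = 0 ∧ coeff 0 y = 0 ∧ (∀ j, coeff j y₀ ∈ R) ∧ (∀ j, coeff j y ∈ R) ∧
    ∀ j ≤ d, Vert (u b.1) (Gb G ι b y₀ y) j ∧ Vert (u (G.rev b).1) (Gb G ι (G.rev b) y₀ y) j

/-- the induction claim on `u` -/
def A8Good (G : GKM V r n) (ι : (Fin r → ℤ) →+ K) (R : ValuationSubring K) (u : V → K⟦X⟧)
    (d : ℕ) : Prop :=
  (∀ p, (∀ i, ¬ Par G ι R (p, i)) → ∀ j ≤ d, coeff j (u p) ∈ R) ∧
    ∀ b, Par G ι R b → A8Pair G ι R u b d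

theorem A8Good.mono {u : V → K⟦X⟧} {d d' : ℕ} (h : A8Good G ι R u d) (e : d' ≤ d) :
    A8Good G ι R u d' :=
  ⟨fun p hp j hj => h.1 p hp j (hj.trans e), fun b hb => by
    obtain ⟨y₀, y, a1, a2, a3, a4, a5⟩ := h.2 b hb
    exact ⟨y₀, y, a1, a2, a3, a4, fun j hj => a5 j (hj.trans e)⟩⟩

section
variable [Fintype V] (h6 : A6St) (h7a : A7aSt) (h7b : A7bSt) (h7c : A7cSt) (hM : G.toGraph.MP)
  (hN : Nondeg G ι) (hP : Place G ι R) {u : V → K⟦X⟧} {F : V → (RatFunc K)⟦X⟧} {d : ℕ}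
  (h0 : ∀ p, coeff 0 (u p) = 0) (hs : ∀ j ≤ d, SolAt G ι u F j)
  (hi : ∀ j < d, IntegralAt G ι R F j) (ho : ∀ p, OrdInf 1 (coeff d (F p)))

include h6 hM hN hP hs hi ho in
theorem a8_vertex {p : V} (hp : ∀ i, ¬ Par G ι R (p, i)) (hu : ∀ j ≤ d, coeff j (u p) ∈ R) :
    IsInt R (coeff d (F p)) := by
  refine a8_fin (a8_polesR hP (hs d le_rfl) p) (ho p) ?_ fun w hw =>
    (h6 V r n G hM K ι hN R hP u F d hs hi w hw).1 p
  have a1 : ∀ k ≤ d, IsInt R (coeff k (expS (-overZ (u p)))) := fun k hk =>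
    expS_mem (repSubring R.toSubring Set.univ) (hP.algebraMap_isRep _) _ k fun j hj => by
      rw [map_neg, coeff_overZ]
      exact (a8_inv (N := R.toSubring) (Set.mem_univ _) (hu j (hj.trans hk))).neg
  have a2 : IsRep ⊤ ({0} ∪ away R 0) (coeff d (expS (-overZ (u p)) * F p)) := by
    refine coeff_mul_mem (repSubring ⊤ _) (fun k _ => expS_mem _ (isRep_algebraMap_rat _) _ k
      fun j _ => ?_) fun j hj => ((hs j hj).poles p).mono le_rfl ?_
    · rw [map_neg, coeff_overZ]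
      exact (a8_inv (S := {0} ∪ away R 0) (.inl rfl) (Subring.mem_top _)).neg
    · rintro _ (rfl | ⟨i, c, hc, rfl⟩)
      exacts [.inl rfl, .inr (a8_away hP (hp i) hc)]
  have a3 := (a2.cancel (S' := away R 0) fun w hw _ hw' => by
    obtain rfl : w = 0 := hw.resolve_right hw'
    exact (hs d le_rfl).vert p).mono le_rfl Set.inter_subset_right
  rw [coeff_mul_split, coeff_zero_expS, one_mul] at a3
  refine ⟨_, (isRep_sum (Finset.range d) _ fun j hj => (a1 (d - j) (Nat.sub_le _ _)).mul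
    ((hi j (Finset.mem_range.1 hj)).1 p)).neg, ?_⟩
  rw [sub_neg_eq_add]
  exact a3

include h6 h7a h7c hM hN hP h0 hs hi ho in
theorem a8_pair {b : V × Fin n} (hb : Par G ι R b) (h : A8Pair G ι R u b d) :
    IntPair R (ι (G.α b)) (coeff d (F b.1)) (coeff d (F (G.rev b).1)) := by
  obtain ⟨y₀, y, a1, a2, a3, a4, a5⟩ := h
  obtain ⟨b1, b2, b3, b4, -⟩ := h7a V r n G K ι hN R hP b hb y₀ y a1 a2
  obtain ⟨c1, c2, c3, -⟩ := h7a V r n G K ι hN R hP _ hb.rev y₀ y a1 a2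
  rw [G.rev_rev] at c3
  obtain ⟨e1, e2, e3⟩ := h7c V r n G K ι hN R hP b hb (u b.1) (u (G.rev b).1) _ _ (F b.1)
    (F (G.rev b).1) d (h0 _) (h0 _) b1 c1
    (fun j hj => ⟨b2 j, c2 j, b3 j, c3 j, (a5 j hj).1, (a5 j hj).2⟩) (fun j _ => b4 a3 a4 j)
    (fun j hj => ⟨a8_poles hP (hs j hj) hb, a8_poles hP (hs j hj) hb.rev, (hs j hj).res b,
      by simpa only [G.rev_rev] using (hs j hj).res (G.rev b), (hs j hj).vert _, (hs j hj).vert _⟩)
    fun j hj => ⟨(hi j hj).1 _, (hi j hj).1 _, (hi j hj).2 b hb⟩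
  have f := h6 V r n G hM K ι hN R hP u F d hs hi
  have g := a8_polesR hP (hs d le_rfl)
  exact ⟨a8_fin (g _) (ho _) e1 fun w hw => (f w hw).1 _,
    a8_fin (g _) (ho _) e2 fun w hw => (f w hw).1 _,
    a8_fin ((isRep_C (Subring.mem_top _)).mul ((g _).sub (g _)))
      ((ordInf_C _).mul ((ho b.1).sub (ho (G.rev b).1))) e3
      fun w hw => (f w hw).2 b hb⟩

include h6 h7a h7c hM hN hP in
theorem a8_int {a : V → K} (hS : Sol G ι u F a 1) (ha : ∀ p, a p ∈ R)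
    (ha' : ∀ b, Par G ι R b → (ι (G.α b))⁻¹ * (a b.1 - a (G.rev b).1) ∈ R)
    (h : A8Good G ι R u d) : ∀ j ≤ d, IntegralAt G ι R F j := by
  intro j
  induction j using Nat.strong_induction_on with
  | _ j ih =>
    intro hj
    rcases Nat.eq_zero_or_pos j with rfl | hj0
    · refine ⟨fun p => ?_, fun b hb => ?_⟩
      · rw [hS.zero]
        exact isRep_C (ha p)
      · rw [hS.zero, hS.zero, ← map_sub, ← map_mul]
        exact isRep_C (ha' b hb)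
    have a1 : ∀ i < j, IntegralAt G ι R F i := fun i hi => ih i hi (by omega)
    have a2 := fun b hb => a8_pair h6 h7a h7c hM hN hP hS.u_zero (fun i _ => hS.sol i) a1
      (fun p => hS.ord p j hj0) hb ((h.mono hj).2 b hb)
    refine ⟨fun p => ?_, fun b hb => (a2 b hb).2.2⟩
    by_cases e : ∃ i, Par G ι R (p, i)
    · exact e.elim fun i e => (a2 _ e).1
    · exact a8_vertex h6 hM hN hP (fun i _ => hS.sol i) a1 (fun p => hS.ord p j hj0)
        (not_exists.1 e) ((h.mono hj).1 p (not_exists.1 e))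

include h6 h7a h7b h7c hM hN hP in
theorem a8_step (hS : Sol G ι u F (fun _ => 1) 2) (h : A8Good G ι R u d) :
    A8Good G ι R u (d + 1) := by
  have hD : 1 ≤ d + 1 := Nat.le_add_left 1 d
  have hI := a8_int h6 h7a h7c hM hN hP
    ⟨hS.u_zero, hS.sol, hS.zero, fun p j hj => (hS.ord p j hj).mono one_le_two⟩
    (fun _ => R.one_mem) (fun _ _ => by simp [R.zero_mem]) h
  have sh := fun δ => a8_shift hN hD δ hS.u_zero (fun p => (hS.zero p).trans (map_one _)) hS.sol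
  have hI' : ∀ {F' : V → (RatFunc K)⟦X⟧}, (∀ p, ∀ j < d + 1, coeff j (F' p) = coeff j (F p)) →
      ∀ j < d + 1, IntegralAt G ι R F' j := fun e j hj => by
    simpa only [IntegralAt, e _ j hj] using hI j (by omega)
  have hO : ∀ p δ, OrdInf 1 (coeff (d + 1) (F p) + RatFunc.C δ * RatFunc.X⁻¹) := fun p δ =>
    ((hS.ord p _ hD).mono one_le_two).add (by simpa using (ordInf_C δ).mul ordInf_inv_X)
  refine ⟨fun p hp j hj => ?_, fun b hb => ?_⟩
  · rcases hj.eq_or_lt with rfl | hj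
    · obtain ⟨u', F', a0, a1, a2, a3, a4, a5⟩ := sh fun _ => -coeff (d + 1) (u p)
      have := a8_vertex h6 hM hN hP a5 (hI' a3) (fun q => a4 q ▸ hO q _) hp fun j hj => by
        rcases hj.eq_or_lt with rfl | hj
        · rw [a2, add_neg_cancel]
          exact R.zero_mem
        · rw [← a1 p j hj]
          exact h.1 p hp j (by omega)
      rw [a4] at this
      exact neg_mem_iff.1 (IsInt.coeff_mem (hS.ord p _ hD) this)
    · exact h.1 p hp j (by omega)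
  classical
  obtain ⟨y₀, y, a1, a2, a3, a4, a5⟩ := h.2 b hb
  obtain ⟨b1, -, -, -, b2⟩ := h7a V r n G K ι hN R hP b hb y₀ y a1 a2
  obtain ⟨c1, -, -, -, c2⟩ := h7a V r n G K ι hN R hP _ hb.rev y₀ y a1 a2
  obtain ⟨u₁, b3, b4⟩ := h7b V r n G K ι hN b y₀ y a1 a2
  obtain ⟨u₂, c3, c4⟩ := h7b V r n G K ι hN (G.rev b) y₀ y a1 a2
  have b5 := a8_uniq (hS.u_zero _) b3 b1 (fun j hj => (a5 j hj).1) b4
  have c5 := a8_uniq (hS.u_zero _) c3 c1 (fun j hj => (a5 j hj).2) c4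
  obtain ⟨δ₁, b6⟩ : ∃ δ, δ = coeff (d + 1) u₁ - coeff (d + 1) (u b.1) := ⟨_, rfl⟩
  obtain ⟨δ₂, c6⟩ : ∃ δ, δ = coeff (d + 1) u₂ - coeff (d + 1) (u (G.rev b).1) := ⟨_, rfl⟩
  obtain ⟨u', F', e0, e1, e2, e3, e4, e5⟩ := sh fun p => if p = b.1 then δ₁ else δ₂
  have hv : ∀ {v : K⟦X⟧} {p : V} {H : (RatFunc K)⟦X⟧}, coeff 0 v = 0 → (∀ j, Vert v H j) →
      (∀ j ≤ d, coeff j (u p) = coeff j v) → coeff (d + 1) v = coeff (d + 1) (u' p) →
      ∀ j ≤ d + 1, Vert (u' p) H j := fun {v p H} g1 g2 g3 g4 j hj =>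
    (g2 j).congr g1 (e0 p) (fun i hi => by
      rcases (hi.trans hj).eq_or_lt with rfl | hi'
      · exact g4
      · rw [← g3 i (by omega), e1 p i hi']) fun _ _ => rfl
  obtain ⟨f1, f2, f3⟩ := a8_pair h6 h7a h7c hM hN hP e0 e5 (hI' e3) (fun q => e4 q ▸ hO q _) hb
    ⟨y₀, y, a1, a2, a3, a4, fun j hj =>
      ⟨hv b3 b4 b5 (by rw [e2, if_pos rfl, b6, add_sub_cancel]) j hj,
        hv c3 c4 c5 (by rw [e2, if_neg (a8_ne hN hP hb), c6, add_sub_cancel]) j hj⟩⟩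
  simp only [e4, if_pos, if_neg (a8_ne hN hP hb)] at f1 f2 f3
  have g1 := IsInt.coeff_mem (hS.ord _ _ hD) f1
  have g2 := IsInt.coeff_mem (hS.ord _ _ hD) f2
  have g3 : (ι (G.α b))⁻¹ * (δ₁ - δ₂) ∈ R := by
    refine IsInt.coeff_mem (g := RatFunc.C (ι (G.α b))⁻¹ *
      (coeff (d + 1) (F b.1) - coeff (d + 1) (F (G.rev b).1)))
      ((ordInf_C _).mul ((hS.ord b.1 _ hD).sub (hS.ord (G.rev b).1 _ hD))) ?_
    refine (congrArg (IsInt R) ?_).mp f3
    rw [map_mul, map_sub]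
    ring
  have g4 : -(((2 : ℕ) : K)⁻¹ * (δ₁ + δ₂)) ∈ R :=
    neg_mem (mul_mem (hP.natCast_inv_mem 2) (add_mem g1 g2))
  have hm : ∀ {v : K⟦X⟧} {x : K}, (∀ j, coeff j v ∈ R) → x ∈ R →
      ∀ j, coeff j (v + monomial (d + 1) x) ∈ R := fun g g' j => by
    rw [map_add, coeff_monomial]
    split_ifs
    exacts [add_mem (g j) g', add_mem (g j) R.zero_mem]
  obtain ⟨b7, b8⟩ := b2 (d + 1) (-(((2 : ℕ) : K)⁻¹ * (δ₁ + δ₂))) (-((ι (G.α b))⁻¹ * (δ₁ - δ₂))) hD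
  obtain ⟨c7, c8⟩ := c2 (d + 1) (-(((2 : ℕ) : K)⁻¹ * (δ₁ + δ₂))) (-((ι (G.α b))⁻¹ * (δ₁ - δ₂))) hD
  have hal := hN.1 b
  refine ⟨_, _, ?_, ?_, hm a3 g4, hm a4 (neg_mem g3), fun j hj => ?_⟩
  · rw [map_add, a1, coeff_monomial, if_neg (by omega), add_zero]
  · rw [map_add, a2, coeff_monomial, if_neg (by omega), add_zero]
  rcases hj.eq_or_lt with rfl | hj
  · refine ⟨a8_shift_vert b3 (hS.u_zero _) (fun i hi => (b5 i (by omega)).symm)
      (fun i hi => (b7 i hi).symm) hD b1 ?_ (b4 _), a8_shift_vert c3 (hS.u_zero _)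
      (fun i hi => (c5 i (by omega)).symm) (fun i hi => (c7 i hi).symm) hD c1 ?_ (c4 _)⟩
    · rw [b8, ← neg_sub (coeff (d + 1) u₁), ← b6]
      congr 3
      field_simp
      ring
    · rw [c8, ← neg_sub (coeff (d + 1) u₂), ← c6, iota_rev]
      congr 3
      field_simp
      ring
  · exact ⟨(a5 j (by omega)).1.congr (hS.u_zero _) (hS.u_zero _) (fun _ _ => rfl)
      fun i hi => (b7 i (by omega)).symm, (a5 j (by omega)).2.congr (hS.u_zero _) (hS.u_zero _)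
      (fun _ _ => rfl) fun i hi => (c7 i (by omega)).symm⟩

end

/-- A8 -/
theorem a8 (h6 : A6St) (h7a : A7aSt) (h7b : A7bSt) (h7c : A7cSt) : A8St := by
  intro V _ r n G hM K _ _ ι hN R hP u J F a hJ hF ha ha' d p
  refine (a8_int h6 h7a h7c hM hN hP hF ha ha' (d := d) ?_ d le_rfl).1 p
  induction d with
  | succ d ih => exact a8_step h6 h7a h7b h7c hM hN hP hJ ih
  | zero =>
    have hv : ∀ b, Par G ι R b → Vert (u b.1) (Gb G ι b 0 0) 0 := fun b hb => by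
      rw [Vert, coeff_mul_split, coeff_zero_expS,
        (h7a V r n G K ι hN R hP b hb 0 0 (map_zero _) (map_zero _)).1]
      rw [Finset.sum_range_zero, add_zero, mul_one]
      exact isRep_one
    refine ⟨fun p _ j hj => ?_, fun b hb => ⟨0, 0, map_zero _, map_zero _,
      fun _ => R.zero_mem, fun _ => R.zero_mem, fun j hj => ?_⟩⟩
    · rw [Nat.le_zero.1 hj, hJ.u_zero]
      exact R.zero_mem
    · rw [Nat.le_zero.1 hj]
      exact ⟨hv b hb, hv _ hb.rev⟩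

end GK4850
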