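import Pool.Agent.Lib.MP_4850ea_gt.GK.StA

/-! A9: vanishing at infinity. -/

open Polynomial

namespace GK4850

section LC

variable {K : Type} [Field K]

lemma a9_lc_eq {g : RatFunc K} {P Q : K[X]} (hQ : Q.Monic)
    (h : g * algebraMap K[X] (RatFunc K) Q = algebraMap K[X] (RatFunc K) P) :
    lcInf g = P.leadingCoeff := by
  have hd : algebraMap K[X] (RatFunc K) g.denom ≠ 0 :=
    RatFunc.algebraMap_ne_zero (RatFunc.denom_ne_zero g)
  have e : g.num * Q = P * g.denom := by
    apply RatFunc.algebraMap_injective K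
    rw [map_mul, map_mul, ← h, ← (div_eq_iff hd).1 (RatFunc.num_div_denom g) |>.symm]
    ring
  have := congrArg leadingCoeff e
  rwa [leadingCoeff_mul, leadingCoeff_mul, hQ, RatFunc.monic_denom g, mul_one, mul_one] at this

lemma a9_lc_mem {R : ValuationSubring K} {g : RatFunc K} (h : IsInt R g) : lcInf g ∈ R := by
  obtain ⟨s, P, -, hP, e⟩ := h
  rw [a9_lc_eq (monic_multiset_prod_of_monic _ _ fun w _ => monic_X_sub_C w) e]
  exact hP _

lemma a9_lc_C (c : K) (g : RatFunc K) : lcInf (RatFunc.C c * g) = c * lcInf g := by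
  have hd : algebraMap K[X] (RatFunc K) g.denom ≠ 0 :=
    RatFunc.algebraMap_ne_zero (RatFunc.denom_ne_zero g)
  rw [a9_lc_eq (P := C c * g.num) (RatFunc.monic_denom g), leadingCoeff_mul, leadingCoeff_C, lcInf]
  rw [map_mul, RatFunc.algebraMap_C, mul_assoc,
    ← (div_eq_iff hd).1 (RatFunc.num_div_denom g)]

lemma a9_integral {k : Type} [Field k] [Algebra k K] {z : K}
    (h : ∀ R : ValuationSubring K, (∀ c, algebraMap k K c ∈ R) → z ∈ R) : IsIntegral k z := by
  by_contra hz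
  have : IsIntegrallyClosedIn (integralClosure k K).toSubring K :=
    inferInstanceAs (IsIntegrallyClosedIn (integralClosure k K) K)
  obtain ⟨R, h1, h2⟩ := Subring.exists_le_valuationSubring_of_isIntegrallyClosedIn
    (R := (integralClosure k K).toSubring) (x := z) hz
  exact h2 (h R fun c => h1 (isIntegral_algebraMap (x := c)))

end LC

section Gen

variable {V : Type} {r n : ℕ} (G : GKM V r n)

/-- a real linear form on the lattice -/
def a9_res (f : Module.Dual ℝ (Fin r → ℝ)) : (Fin r → ℤ) →+ ℝ where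
  toFun β := f fun a => (β a : ℝ)
  map_zero' := by
    rw [← map_zero f]
    exact congrArg f (funext fun a => by simp)
  map_add' β β' := by
    rw [← map_add f]
    exact congrArg f (funext fun a => by simp)

lemma a9_generic [Finite V] : ∃ ξ η : (Fin r → ℤ) →+ ℝ, (∀ e, ξ (G.α e) ≠ 0) ∧
    ∀ p i j, i ≠ j → ξ (G.α (p, i)) * η (G.α (p, j)) - ξ (G.α (p, j)) * η (G.α (p, i)) ≠ 0 := by
  obtain ⟨f, hf⟩ := Module.exists_dual_forall_apply_ne_zero (K := ℝ)
    (fun e : V × Fin n => fun a => (G.α e a : ℝ)) fun e h => G.ne_zero e (funext fun a => by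
      simpa using congrFun h a)
  obtain ⟨g, hg⟩ := Module.exists_dual_forall_apply_ne_zero (K := ℝ)
    (fun e : {e : V × Fin n × Fin n // e.2.1 ≠ e.2.2} =>
      (f fun a => (G.α (e.1.1, e.1.2.1) a : ℝ)) • (fun a => (G.α (e.1.1, e.1.2.2) a : ℝ)) -
        (f fun a => (G.α (e.1.1, e.1.2.2) a : ℝ)) • fun a => (G.α (e.1.1, e.1.2.1) a : ℝ))
    fun ⟨⟨p, i, j⟩, hij⟩ h => by
      obtain ⟨a, ha⟩ := Function.ne_iff.1 (G.ne_zero (p, i))
      refine ha (neg_eq_zero.1 (G.indep p i j hij (G.α (p, j) a) (-G.α (p, i) a)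
        (funext fun b => ?_)).2)
      have h1 := congrFun h a
      have h2 := congrFun h b
      simp only [Pi.sub_apply, Pi.smul_apply, smul_eq_mul, Pi.zero_apply] at h1 h2
      have h3 : (G.α (p, j) a : ℝ) * G.α (p, i) b + -G.α (p, i) a * G.α (p, j) b = 0 :=
        mul_left_cancel₀ (hf (p, i)) (by
          linear_combination (G.α (p, i) b : ℝ) * h1 - (G.α (p, i) a : ℝ) * h2)
      simp only [Pi.add_apply, Pi.smul_apply, smul_eq_mul, Pi.zero_apply]
      exact_mod_cast h3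
  refine ⟨a9_res f, a9_res g, hf, fun p i j hij => ?_⟩
  have := hg ⟨(p, i, j), hij⟩
  rwa [map_sub, map_smul, map_smul] at this

variable {K : Type} [Field K] [CharZero K]

omit [CharZero K] in
lemma a9_place {ι : (Fin r → ℤ) →+ K} {ξ η : (Fin r → ℤ) →+ ℝ} (φ : ℝ →+* K) {y : K}
    (hι : ∀ β, ι β = φ (ξ β) * y + φ (η β))
    (hd : ∀ p i j, i ≠ j →
      ξ (G.α (p, i)) * η (G.α (p, j)) - ξ (G.α (p, j)) * η (G.α (p, i)) ≠ 0)
    {R : ValuationSubring K} (hR : ∀ c, φ c ∈ R) (hy : y ∈ R) : Place G ι R where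
  real := ⟨φ, hR⟩
  mem β := hι β ▸ add_mem (mul_mem (hR _) hy) (hR _)
  par p i j hi hj := by
    by_contra hij
    have h0 := hd p i j hij
    set D := ξ (G.α (p, i)) * η (G.α (p, j)) - ξ (G.α (p, j)) * η (G.α (p, i)) with hD
    have e : (1 : K) = φ (D⁻¹ * ξ (G.α (p, i))) * ι (G.α (p, j)) -
        φ (D⁻¹ * ξ (G.α (p, j))) * ι (G.α (p, i)) := by
      rw [← map_one φ, ← inv_mul_cancel₀ h0, hι, hι, hD]
      simp only [map_mul, map_sub]
      ring
    have lt : ∀ (c : ℝ) (z : K), R.valuation z < 1 → R.valuation (φ c * z) < 1 := fun c z hz => by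
      rw [map_mul]
      exact mul_lt_one_of_nonneg_of_lt_one_right ((R.valuation_le_one_iff _).2 (hR c)) zero_le hz
    have := Valuation.map_sub_lt R.valuation (lt (D⁻¹ * ξ (G.α (p, i))) _ hj)
      (lt (D⁻¹ * ξ (G.α (p, j))) _ hi)
    rw [← e, map_one] at this
    exact lt_irrefl _ this

omit [CharZero K] in
lemma a9_nondeg {ι ι' : (Fin r → ℤ) →+ K} {la : K} (h0 : la ≠ 0) (h : ∀ β, ι' β = la * ι β)
    (hN : Nondeg G ι) : Nondeg G ι' :=
  ⟨fun e => h _ ▸ mul_ne_zero h0 (hN.1 e), fun p i j hij a b e => hN.2 p i j hij a b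
    (mul_left_cancel₀ h0 (by
      rw [h, h] at e
      linear_combination e))⟩

open Classical in
lemma a9_int [Fintype V] (h8 : A8St) (hM : G.toGraph.MP) (x : V) {ι : (Fin r → ℤ) →+ K}
    (hN : Nondeg G ι) {R : ValuationSubring K} (hP : Place G ι R) {u : V → PowerSeries K}
    {J F : V → PowerSeries (RatFunc K)} (hJ : Sol G ι u J (fun _ => 1) 2)
    (hF : Sol G ι u F (fun p => if p = x then ∏ j, ι (G.α (x, j)) else 0) 1) (d : ℕ) (p : V) :
    lcInf (PowerSeries.coeff d (F p)) ∈ R := by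
  have k : ∀ b : V × Fin n,
      (ι (G.α b))⁻¹ * (if b.1 = x then ∏ j, ι (G.α (x, j)) else 0) ∈ R := by
    rintro ⟨q, i⟩
    split_ifs with e
    · obtain rfl : q = x := e
      rw [← Finset.mul_prod_erase _ _ (Finset.mem_univ i), inv_mul_cancel_left₀ (hN.1 _)]
      exact prod_mem fun j _ => hP.mem _
    · rw [mul_zero]
      exact zero_mem R
  refine a9_lc_mem (h8 V r n G hM K ι hN R hP u J F _ hJ hF (fun q => ?_) (fun b _ => ?_) d p)
  · split_ifs
    exacts [prod_mem fun j _ => hP.mem _, zero_mem R]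
  · have := k (G.rev b)
    rw [G.α_rev, map_neg, inv_neg, neg_mul] at this
    rw [mul_sub, sub_eq_add_neg]
    exact add_mem (k b) this

end Gen

lemma a9_lin {a b : ℝ} (h : RatFunc.C a * RatFunc.X + RatFunc.C b = (0 : RatFunc ℝ)) :
    a = 0 ∧ b = 0 := by
  have e : (C a * X + C b : ℝ[X]) = 0 := by
    apply RatFunc.algebraMap_injective ℝ
    simpa using h
  exact ⟨by simpa using congrArg (coeff · 1) e, by simpa using congrArg (coeff · 0) e⟩

theorem a9 (h4 : A4St) (h8 : A8St) (h9a : A9aSt) : A9St := by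
  classical
  intro V _ r n G hM x
  obtain ⟨ξ, η, h1, h2⟩ := a9_generic G
  let ι : (Fin r → ℤ) →+ RatFunc ℝ :=
    { toFun := fun β => RatFunc.C (ξ β) * RatFunc.X + RatFunc.C (η β)
      map_zero' := by simp
      map_add' := fun β β' => by
        simp only [map_add]
        ring }
  have hι : ∀ β, ι β = RatFunc.C (ξ β) * RatFunc.X + RatFunc.C (η β) := fun _ => rfl
  have hx : (RatFunc.X : RatFunc ℝ) ≠ 0 := RatFunc.X_ne_zero
  have hx' := inv_ne_zero hx
  let ι' : (Fin r → ℤ) →+ RatFunc ℝ := (AddMonoidHom.mulLeft RatFunc.X⁻¹).comp ι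
  have hι' : ∀ β, ι' β = RatFunc.X⁻¹ * ι β := fun _ => rfl
  have hN : Nondeg G ι := by
    refine ⟨fun e h => h1 e (a9_lin h).1, fun p i j hij a b e => ?_⟩
    obtain ⟨e1, e2⟩ := a9_lin (a := a * ξ (G.α (p, i)) + b * ξ (G.α (p, j)))
      (b := a * η (G.α (p, i)) + b * η (G.α (p, j))) (by
        rw [← e, hι, hι]
        simp only [map_add, map_mul, map_intCast]
        ring)
    have h0 := h2 p i j hij
    exact ⟨by
      exact_mod_cast (mul_left_cancel₀ h0 (by
        linear_combination η (G.α (p, j)) * e1 - ξ (G.α (p, j)) * e2) : (a : ℝ) = 0), by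
      exact_mod_cast (mul_left_cancel₀ h0 (by
        linear_combination ξ (G.α (p, i)) * e2 - η (G.α (p, i)) * e1) : (b : ℝ) = 0)⟩
  have hN' := a9_nondeg G hx' hι' hN
  obtain ⟨⟨u, J, hJ⟩, h5⟩ := h4 V r n G _ ι hN
  obtain ⟨F, hF⟩ := h5 u (fun p => if p = x then ∏ j, ι (G.α (x, j)) else 0) hJ.u_zero
  refine ⟨RatFunc ℝ, inferInstance, inferInstance, ι, u, F, hN, hF, fun p d => ?_⟩
  obtain ⟨σ, hσ, hS⟩ := h9a V r n G _ ι ι' _ hx' hι'
  have hJ' := hS u J _ _ 1 hJ
  have hF' := hS u F _ _ (RatFunc.X⁻¹ ^ n) hF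
  rw [show (fun _ : V => (1 : RatFunc ℝ) * 1) = fun _ => 1 from funext fun _ => one_mul _] at hJ'
  rw [show (fun p : V => (RatFunc.X⁻¹ : RatFunc ℝ) ^ n *
      if p = x then ∏ j, ι (G.α (x, j)) else 0) =
      fun p => if p = x then ∏ j, ι' (G.α (x, j)) else 0 from funext fun p => by
    simp only [hι', Finset.prod_mul_distrib, Finset.prod_const, Finset.card_univ,
      Fintype.card_fin, mul_ite, mul_zero]] at hF'
  by_contra hO
  obtain ⟨hg, hD⟩ := not_or.1 hO
  set g := PowerSeries.coeff d (F p) with hgd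
  obtain ⟨N, hNN⟩ : ∃ N : ℕ, g.intDegree + d - n = N + 1 :=
    ⟨(g.intDegree + d - n - 1).toNat, by omega⟩
  have hs : lcInf g ≠ 0 := leadingCoeff_ne_zero.2 (RatFunc.num_ne_zero hg)
  have key : ∀ R : ValuationSubring (RatFunc ℝ), (∀ c, algebraMap ℝ (RatFunc ℝ) c ∈ R) →
      lcInf g ∈ R ∧ RatFunc.X * lcInf g ∈ R := fun R hR => by
    rcases R.mem_or_inv_mem RatFunc.X with h | h
    · have := a9_int G h8 hM x hN (a9_place G RatFunc.C hι h2 hR h) hJ hF d p
      exact ⟨this, mul_mem h this⟩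
    · have hP : Place G ι' R := a9_place G (ξ := η) (η := ξ) RatFunc.C (fun β => by
        rw [hι', hι]
        field_simp
        ring) (fun p i j hij e => h2 p i j hij (by linear_combination -e)) hR h
      have := a9_int G h8 hM x hN' hP hJ' hF' d p
      rw [PowerSeries.coeff_mk, a9_lc_C, (hσ _).2, ← hgd, ← mul_assoc] at this
      have e : (RatFunc.X⁻¹ : RatFunc ℝ) ^ n * RatFunc.X⁻¹⁻¹ ^ d * RatFunc.X⁻¹ ^ (-g.intDegree) =
          RatFunc.X ^ (N + 1) := by
        rw [inv_inv, inv_zpow', neg_neg, inv_pow, ← zpow_natCast, ← zpow_natCast, ← zpow_natCast,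
          ← zpow_neg, ← zpow_add₀ hx, ← zpow_add₀ hx]
        congr 1
        push_cast
        omega
      rw [e] at this
      have h3 : RatFunc.X * lcInf g ∈ R := by
        have h4 := mul_mem (pow_mem h N) this
        rwa [pow_succ, mul_assoc, inv_pow, inv_mul_cancel_left₀ (pow_ne_zero _ hx)] at h4
      refine ⟨?_, h3⟩
      have h4 := mul_mem h h3
      rwa [inv_mul_cancel_left₀ hx] at h4
  have i1 := a9_integral fun R hR => (key R hR).1
  have i2 := a9_integral fun R hR => (key R hR).2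
  refine RatFunc.transcendental_X (K := ℝ) ?_
  have := i2.isAlgebraic.mul i1.isAlgebraic.inv
  rwa [mul_inv_cancel_right₀ hs] at this

end GK4850
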