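import Pool.Agent.Lib.MP_4850ea_gt.GK.StA
import Pool.Agent.Lib.MP_4850ea_gt.GK.A2

/-! A9a: rescaling the weights. -/

open Polynomial

namespace GK4850

noncomputable section

variable {K : Type} [Field K]

theorem a9a_num_denom {p q : K[X]} (hq : q.Monic) (h : IsCoprime p q) {g : RatFunc K}
    (e : g = algebraMap K[X] (RatFunc K) p / algebraMap K[X] (RatFunc K) q) :
    g.num = p ∧ g.denom = q := by
  have h1 := (RatFunc.num_mul_eq_mul_denom_iff hq.ne_zero).2 e
  have h2 : g.denom = q := eq_of_monic_of_associated g.monic_denom hq (associated_of_dvd_dvd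
    (g.isCoprime_num_denom.symm.dvd_of_dvd_mul_left ⟨p, h1.trans (mul_comm _ _)⟩)
    (h.symm.dvd_of_dvd_mul_left ⟨g.num, h1.symm.trans (mul_comm _ _)⟩))
  rw [h2] at h1
  exact ⟨mul_right_cancel₀ hq.ne_zero h1, h2⟩

theorem a9a_C_mul {c : K} (hc : c ≠ 0) (g : RatFunc K) :
    (RatFunc.C c * g).num = C c * g.num ∧ (RatFunc.C c * g).denom = g.denom :=
  a9a_num_denom g.monic_denom
    ((isCoprime_mul_unit_left_left (isUnit_C.2 hc.isUnit) _ _).2 g.isCoprime_num_denom)
    (by rw [map_mul, RatFunc.algebraMap_C, mul_div_assoc, RatFunc.num_div_denom])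

theorem a9a_ev_C_mul (w c : K) (g : RatFunc K) : ev w (RatFunc.C c * g) = c * ev w g := by
  rcases eq_or_ne c 0 with rfl | hc
  · simp [ev]
  · simp only [ev, RatFunc.eval, (a9a_C_mul hc g).1, (a9a_C_mul hc g).2, eval₂_id, eval_mul,
      eval_C, mul_div_assoc]

theorem a9a_ord_C_mul {m : ℤ} (c : K) {g : RatFunc K} (h : OrdInf m g) :
    OrdInf m (RatFunc.C c * g) := by
  rcases eq_or_ne c 0 with rfl | hc
  · exact Or.inl (by simp)
  · refine h.imp (fun e => by rw [e, mul_zero]) fun e => ?_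
    rwa [RatFunc.intDegree, (a9a_C_mul hc g).1, (a9a_C_mul hc g).2, natDegree_C_mul hc]

theorem a9a_rep_C_mul {S : Set K} (c : K) {g : RatFunc K} (h : IsRep ⊤ S g) :
    IsRep ⊤ S (RatFunc.C c * g) := by
  obtain ⟨s, P, h1, -, h2⟩ := h
  exact ⟨s, C c * P, h1, fun _ => trivial, by rw [mul_assoc, h2, map_mul, RatFunc.algebraMap_C]⟩

variable {la : K}

/-- The substitution `z ↦ z / la` on polynomials. -/
def a9aT (la : K) : K[X] →+* K[X] := compRingHom (C la⁻¹ * X)

theorem a9a_T_C (c : K) : a9aT la (C c) = C c := C_comp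

theorem a9a_T_X : a9aT la X = C la⁻¹ * X := X_comp

theorem a9a_T_deg (h : la ≠ 0) (P : K[X]) : (a9aT la P).natDegree = P.natDegree := by
  rw [a9aT, coe_compRingHom_apply, natDegree_comp, natDegree_C_mul_X _ (inv_ne_zero h), mul_one]

theorem a9a_T_lc (h : la ≠ 0) (P : K[X]) :
    (a9aT la P).leadingCoeff = P.leadingCoeff * la⁻¹ ^ P.natDegree := by
  rw [leadingCoeff, a9a_T_deg h, a9aT, coe_compRingHom_apply, comp_C_mul_X_coeff, leadingCoeff]

theorem a9a_T_eval (h : la ≠ 0) (P : K[X]) (w : K) : (a9aT la P).eval (la * w) = P.eval w := by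
  rw [a9aT, coe_compRingHom_apply, eval_comp, eval_mul, eval_C, eval_X, inv_mul_cancel_left₀ h]

theorem a9a_T_inj (h : la ≠ 0) :
    Function.Injective ((algebraMap K[X] (RatFunc K)).comp (a9aT la)) :=
  (RatFunc.algebraMap_injective K).comp ((injective_iff_map_eq_zero (a9aT la)).2 fun _ e =>
    (comp_C_mul_X_eq_zero_iff (mem_nonZeroDivisors_of_ne_zero (inv_ne_zero h))).1 e)

/-- The substitution `z ↦ z / la` on rational functions. -/
def a9aS (h : la ≠ 0) : RatFunc K →+* RatFunc K := IsFractionRing.lift (a9a_T_inj h)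

variable (h : la ≠ 0)

theorem a9a_S_alg (P : K[X]) :
    a9aS h (algebraMap K[X] (RatFunc K) P) = algebraMap K[X] (RatFunc K) (a9aT la P) :=
  IsFractionRing.lift_algebraMap _ _

theorem a9a_S_C (c : K) : a9aS h (RatFunc.C c) = RatFunc.C c := by
  rw [← RatFunc.algebraMap_C, a9a_S_alg, a9a_T_C]

theorem a9a_S_X : a9aS h RatFunc.X = RatFunc.C la⁻¹ * RatFunc.X := by
  rw [← RatFunc.algebraMap_X, a9a_S_alg, a9a_T_X, map_mul, RatFunc.algebraMap_C]

theorem a9a_S_num (g : RatFunc K) :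
    (a9aS h g).num = C (la ^ g.denom.natDegree) * a9aT la g.num ∧
      (a9aS h g).denom = C (la ^ g.denom.natDegree) * a9aT la g.denom := by
  have h0 : la ^ g.denom.natDegree ≠ 0 := pow_ne_zero _ h
  refine a9a_num_denom (monic_C_mul_of_mul_leadingCoeff_eq_one ?_)
    ((isCoprime_mul_unit_left (isUnit_C.2 h0.isUnit) _ _).2 (g.isCoprime_num_denom.map _)) ?_
  · rw [a9a_T_lc h, g.monic_denom.leadingCoeff, one_mul, ← mul_pow, mul_inv_cancel₀ h, one_pow]
  · rw [map_mul, map_mul, mul_div_mul_left _ _ (RatFunc.algebraMap_ne_zero (C_ne_zero.2 h0)),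
      ← a9a_S_alg h, ← a9a_S_alg h, ← map_div₀, RatFunc.num_div_denom]

theorem a9a_S_deg (g : RatFunc K) : (a9aS h g).intDegree = g.intDegree := by
  have h0 : la ^ g.denom.natDegree ≠ 0 := pow_ne_zero _ h
  rw [RatFunc.intDegree, (a9a_S_num h g).1, (a9a_S_num h g).2, natDegree_C_mul h0,
    natDegree_C_mul h0, a9a_T_deg h, a9a_T_deg h, RatFunc.intDegree]

theorem a9a_S_lc (g : RatFunc K) : lcInf (a9aS h g) = la ^ (-g.intDegree) * lcInf g := by
  rw [lcInf, (a9a_S_num h g).1, leadingCoeff_mul, leadingCoeff_C, a9a_T_lc h, RatFunc.intDegree,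
    neg_sub, zpow_sub₀ h, zpow_natCast, zpow_natCast, lcInf, inv_pow]
  ring

theorem a9a_S_ev (w : K) (g : RatFunc K) : ev (la * w) (a9aS h g) = ev w g := by
  simp only [ev, RatFunc.eval, (a9a_S_num h g).1, (a9a_S_num h g).2, eval₂_id, eval_mul, eval_C,
    a9a_T_eval h, mul_div_mul_left _ _ (pow_ne_zero _ h)]

theorem a9a_S_rep {S S' : Set K} (hS : ∀ w ∈ S, la * w ∈ S') {g : RatFunc K} (hg : IsRep ⊤ S g) :
    IsRep ⊤ S' (a9aS h g) := by
  obtain ⟨s, P, h1, -, h2⟩ := hg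
  have h3 : ∀ s : Multiset K, ((s.map (la * ·)).map fun w => X - C w).prod =
      C (la ^ s.card) * a9aT la (s.map fun w => X - C w).prod := fun s => by
    induction s using Multiset.induction_on with
    | empty => simp
    | cons w s ih =>
      have : (C la * C la⁻¹ : K[X]) = 1 := by rw [← map_mul, mul_inv_cancel₀ h, map_one]
      simp only [Multiset.map_cons, Multiset.prod_cons, Multiset.card_cons, ih, map_mul, map_sub,
        a9a_T_C, a9a_T_X, pow_succ]
      linear_combination (-(C (la ^ s.card) * a9aT la (s.map fun w => X - C w).prod * X)) * this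
  refine ⟨s.map (la * ·), C (la ^ s.card) * a9aT la P, fun w hw => ?_, fun _ => trivial, ?_⟩
  · obtain ⟨x, hx, rfl⟩ := Multiset.mem_map.1 hw
    exact ⟨hS x (h1 x hx).1, trivial⟩
  · rw [h3, map_mul, map_mul, ← a9a_S_alg h, ← a9a_S_alg h, ← h2, map_mul (a9aS h)]
    ring

theorem a9a_S_reg {w : K} {g : RatFunc K} (hg : IsReg w g) : IsReg (la * w) (a9aS h g) :=
  a9a_S_rep h (S := {w}ᶜ) (S' := {la * w}ᶜ) (fun _ hx e => hx (mul_left_cancel₀ h e)) hg

theorem a9a_exp_rescale {B : Type} [CommRing B] [Algebra ℚ B] (c : B) (a : PowerSeries B) :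
    expS (PowerSeries.rescale c a) = PowerSeries.rescale c (expS a) := by
  ext d
  simp only [expS, PowerSeries.coeff_mk, PowerSeries.coeff_rescale, ← map_pow, Finset.mul_sum,
    mul_smul_comm]

variable [CharZero K]

theorem a9a_vert (t : K) {u : PowerSeries K} {F : PowerSeries (RatFunc K)} {d : ℕ}
    (hv : Vert u F d) : Vert (PowerSeries.C la * PowerSeries.rescale la⁻¹ u)
      (PowerSeries.mk fun d => RatFunc.C (t * la⁻¹ ^ d) * a9aS h (PowerSeries.coeff d F)) d := by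
  have h1 : (PowerSeries.mk fun d => RatFunc.C (t * la⁻¹ ^ d) * a9aS h (PowerSeries.coeff d F)) =
      PowerSeries.C (RatFunc.C t) *
        PowerSeries.rescale (RatFunc.C la⁻¹) (PowerSeries.map (a9aS h) F) := by
    ext d
    simp only [PowerSeries.coeff_mk, PowerSeries.coeff_C_mul, PowerSeries.coeff_rescale,
      PowerSeries.coeff_map, map_mul, map_pow, mul_assoc]
  have h2 : -overZ (PowerSeries.C la * PowerSeries.rescale la⁻¹ u) =
      PowerSeries.rescale (RatFunc.C la⁻¹) (PowerSeries.map (a9aS h) (-overZ u)) := by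
    ext d
    simp only [overZ, map_neg, PowerSeries.coeff_C_mul, PowerSeries.coeff_rescale,
      PowerSeries.coeff_map, map_mul (RatFunc.C (K := K)), map_mul (a9aS h), map_pow, map_inv₀,
      a9a_S_C, a9a_S_X, mul_inv, inv_inv]
    ring
  have h3 := a9a_rep_C_mul (t * la⁻¹ ^ d) (a9a_S_reg h hv)
  rw [mul_zero] at h3
  rw [Vert, h1, h2, a9a_exp_rescale, expS_map, mul_left_comm, ← map_mul, ← map_mul,
    PowerSeries.coeff_C_mul, PowerSeries.coeff_rescale, PowerSeries.coeff_map, ← mul_assoc,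
    ← map_pow, ← map_mul]
  exact h3

variable {V : Type} {r n : ℕ} {G : GKM V r n} {ι ι' : (Fin r → ℤ) →+ K}

omit [CharZero K] in
theorem a9a_wt (hι : ∀ β, ι' β = la * ι β) (e : V × Fin n) (c : ℕ) :
    wt G ι' e c = la * wt G ι e c := by
  rw [wt, wt, hι]
  ring

include h in
omit [CharZero K] in
theorem a9a_Cc (hι : ∀ β, ι' β = la * ι β) (e : V × Fin n) {c : ℕ} (hc : 1 ≤ c) :
    Cc G ι' e c = la * la⁻¹ ^ (c * G.l e) * Cc G ι e c := by
  have h1 : ∑ j ∈ Finset.univ.erase e.2, G.cc e j = G.l e - 2 := by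
    rw [G.l_eq, ← Finset.add_sum_erase _ _ (Finset.mem_univ e.2), G.cc_self]
    ring
  have h2 : ∀ s : Finset (Fin n), ∏ j ∈ s, la ^ (-((c : ℤ) * G.cc e j)) =
      la ^ (-((c : ℤ) * ∑ j ∈ s, G.cc e j)) := fun s => by
    induction s using Finset.induction_on with
    | empty => simp
    | insert j s hj ih =>
      rw [Finset.prod_insert hj, Finset.sum_insert hj, ih, ← zpow_add₀ h]
      congr 1
      ring
  have h3 : la ^ (-((c : ℤ) * (G.l e - 2))) = la * la⁻¹ ^ (c * G.l e) * la ^ (2 * c - 1) := by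
    rw [inv_pow, ← zpow_natCast, ← zpow_natCast, ← zpow_neg, ← zpow_one_add₀ h, ← zpow_add₀ h]
    congr 1
    push_cast [Nat.cast_sub (show 1 ≤ 2 * c by omega)]
    ring
  simp only [Cc, a9a_wt hι, hι, Gam_scale _ _ _ h, Finset.prod_mul_distrib, h2, h1, h3, mul_pow,
    div_eq_mul_inv, mul_inv]
  have h4 := mul_inv_cancel₀ (pow_ne_zero (2 * c - 1) h)
  linear_combination (la * la⁻¹ ^ (c * G.l e) * ((-1) ^ (c - 1) * (((c.factorial : K) ^ 2)⁻¹ *
    (wt G ι e c ^ (2 * c - 1))⁻¹) * ∏ j ∈ Finset.univ.erase e.2,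
      Gam (ι (G.α (e.1, j))) (wt G ι e c) (c * G.cc e j))) * h4

omit [CharZero K] in
theorem a9a_res (hι : ∀ β, ι' β = la * ι β) (t : K) {e : V × Fin n}
    {F₁ F₂ : PowerSeries (RatFunc K)} {d : ℕ} (hr : Res G ι e F₁ F₂ d) : Res G ι' e
      (PowerSeries.mk fun d => RatFunc.C (t * la⁻¹ ^ d) * a9aS h (PowerSeries.coeff d F₁))
      (PowerSeries.mk fun d => RatFunc.C (t * la⁻¹ ^ d) * a9aS h (PowerSeries.coeff d F₂)) d := by
  intro c hc
  obtain ⟨h1, h2⟩ := hr c hc
  have h3 : (RatFunc.X - RatFunc.C (la * wt G ι e c)) *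
      (RatFunc.C (t * la⁻¹ ^ d) * a9aS h (PowerSeries.coeff d F₁)) =
      RatFunc.C (t * la⁻¹ ^ d * la) *
        a9aS h ((RatFunc.X - RatFunc.C (wt G ι e c)) * PowerSeries.coeff d F₁) := by
    have : (RatFunc.C la * RatFunc.C la⁻¹ : RatFunc K) = 1 := by
      rw [← map_mul, mul_inv_cancel₀ h, map_one]
    rw [map_mul (a9aS h), map_sub, a9a_S_C, a9a_S_X, map_mul _ _ la, map_mul _ la]
    linear_combination (-(RatFunc.C (t * la⁻¹ ^ d) * a9aS h (PowerSeries.coeff d F₁) *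
      RatFunc.X)) * this
  simp only [PowerSeries.coeff_mk, a9a_wt hι, h3]
  refine ⟨a9a_rep_C_mul _ (a9a_S_reg h h1), ?_⟩
  rw [a9a_ev_C_mul, a9a_S_ev, h2]
  split_ifs with q
  · obtain ⟨k, rfl⟩ := Nat.exists_eq_add_of_le q
    rw [a9a_ev_C_mul, a9a_S_ev, a9a_Cc h hι e hc, Nat.add_sub_cancel_left, pow_add]
    ring
  · exact mul_zero _

end

theorem a9a : A9aSt := by
  intro V r n G K _ _ ι ι' la h hι
  refine ⟨a9aS h, fun g => ⟨a9a_S_deg h g, a9a_S_lc h g⟩, fun u F a m t hS =>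
    ⟨fun p => ?_, fun d => ⟨fun p => ?_, fun e => a9a_res h hι t ((hS.sol d).res e),
      fun p => a9a_vert h t ((hS.sol d).vert p)⟩, fun p => ?_, fun p d hd => ?_⟩⟩
  · rw [PowerSeries.coeff_C_mul, PowerSeries.coeff_rescale, hS.u_zero, mul_zero, mul_zero]
  · rw [PowerSeries.coeff_mk]
    refine a9a_rep_C_mul _ (a9a_S_rep h ?_ ((hS.sol d).poles p))
    rintro w (rfl | ⟨j, c, hc, rfl⟩)
    · exact Or.inl (mul_zero _)
    · exact Or.inr ⟨j, c, hc, (a9a_wt hι _ _).symm⟩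
  · rw [PowerSeries.coeff_mk, hS.zero, a9a_S_C, pow_zero, mul_one, map_mul]
  · rw [PowerSeries.coeff_mk]
    refine a9a_ord_C_mul _ ((hS.ord p d hd).imp (fun e => by rw [e, map_zero]) fun e => ?_)
    rwa [a9a_S_deg]

end GK4850
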