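import Pool.Agent.Lib.MP_4850ea_gt.GK.A0
import Pool.Agent.Lib.MP_4850ea_gt.GK.A4
import Pool.Agent.Lib.MP_4850ea_gt.GK.A5
import Pool.Agent.Lib.MP_4850ea_gt.GK.A6
import Pool.Agent.Lib.MP_4850ea_gt.GK.A7a
import Pool.Agent.Lib.MP_4850ea_gt.GK.A7b
import Pool.Agent.Lib.MP_4850ea_gt.GK.A7c
import Pool.Agent.Lib.MP_4850ea_gt.GK.A8
import Pool.Agent.Lib.MP_4850ea_gt.GK.A9
import Pool.Agent.Lib.MP_4850ea_gt.GK.A9a
import Pool.Agent.Lib.MP_4850ea_gt.GK.A10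

/-! Part A assembled. -/

namespace GK4850

theorem partA : ASt := ASt_of a0 (a9 a4 (a8 (a6 a5) a7a a7b a7c) a9a) a10

end GK4850
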