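import Pool.Agent.Lib.MP_4850ea_gt.GK.StA

/-! A0: choice of a connection. -/

namespace GK4850

theorem a0 : A0St := by
  classical
  intro V _ r n G ⟨hc, hl⟩
  choose σ c hσ using hc
  let ord : V × Fin n → ℕ := fun e => (Fintype.equivFin (V × Fin n) e : ℕ)
  have hord : Function.Injective ord := fun a b h =>
    (Fintype.equivFin (V × Fin n)).injective (Fin.ext h)
  have hne : ∀ e, G.rev e ≠ e := by
    intro e h
    have h1 := G.α_rev e
    rw [h] at h1
    apply G.ne_zero e
    ext a
    have := congrFun h1 a
    simp only [Pi.neg_apply] at this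
    simp only [Pi.zero_apply]; omega
  let conn : V × Fin n → Fin n ≃ Fin n := fun e =>
    if ord e < ord (G.rev e) then σ e else (σ (G.rev e)).symm
  have hconn_rev : ∀ e, conn (G.rev e) = (conn e).symm := by
    intro e
    have h1 : ord e ≠ ord (G.rev e) := fun h => hne e (hord h).symm
    simp only [conn, G.rev_rev]
    by_cases h : ord e < ord (G.rev e)
    · rw [if_neg (by omega), if_pos h]
    · rw [if_pos (by omega), if_neg h, Equiv.symm_symm]
  have hex : ∀ e j, ∃ k : ℤ, G.α ((G.rev e).1, conn e j) = G.α (e.1, j) - k • G.α e := by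
    intro e j
    by_cases h : ord e < ord (G.rev e)
    · exact ⟨c e j, by simp only [conn, if_pos h]; exact hσ e j⟩
    · refine ⟨c (G.rev e) ((σ (G.rev e)).symm j), ?_⟩
      have h1 := hσ (G.rev e) ((σ (G.rev e)).symm j)
      simp only [G.rev_rev, Equiv.apply_symm_apply, G.α_rev] at h1
      simp only [conn, if_neg h]
      rw [h1]; simp
  choose cc hcc using hex
  have hcancel : ∀ e (k k' : ℤ), k • G.α e = k' • G.α e → k = k' := fun e k k' h =>
    smul_left_injective ℤ (G.ne_zero e) h
  have hself : ∀ e, conn e e.2 = (G.rev e).2 := by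
    intro e
    by_contra h
    have h1 := hcc e e.2
    have h2 := G.indep (G.rev e).1 _ _ h 1 (1 - cc e e.2) (by
      have h3 : G.α ((G.rev e).1, (G.rev e).2) = -G.α e := G.α_rev e
      rw [h1, h3]
      have : G.α (e.1, e.2) = G.α e := rfl
      rw [this]; module)
    exact one_ne_zero h2.1
  have hcself : ∀ e, cc e e.2 = 2 := by
    intro e
    have h1 := hcc e e.2
    rw [hself] at h1
    have h3 : G.α ((G.rev e).1, (G.rev e).2) = -G.α e := G.α_rev e
    have h4 : G.α (e.1, e.2) = G.α e := rfl
    rw [h3, h4] at h1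
    apply hcancel e
    rw [two_zsmul]
    linear_combination (exp := 1) h1
  have hcrev : ∀ e j, cc (G.rev e) (conn e j) = cc e j := by
    intro e j
    have h1 := hcc (G.rev e) (conn e j)
    rw [hconn_rev, G.rev_rev, Equiv.symm_apply_apply, hcc e j, G.α_rev] at h1
    apply hcancel e
    rw [smul_neg] at h1
    linear_combination (exp := 1) -h1
  have hsum : ∀ e a, (∑ j, G.α (e.1, j) a - ∑ j, G.α ((G.rev e).1, j) a) =
      (∑ j, cc e j) * G.α e a := by
    intro e a
    rw [← Equiv.sum_comp (conn e) (fun j => G.α ((G.rev e).1, j) a), ← Finset.sum_sub_distrib,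
      Finset.sum_mul]
    refine Finset.sum_congr rfl fun j _ => ?_
    rw [hcc]; simp
  have hpos : ∀ e, 0 < ∑ j, cc e j := by
    intro e
    obtain ⟨x, hx, h⟩ := hl e
    obtain ⟨a, ha⟩ := Function.ne_iff.1 (G.ne_zero e)
    have h1 := h a
    rw [hsum] at h1
    push_cast at h1
    have h2 : ((G.α e a : ℤ) : ℝ) ≠ 0 := by exact_mod_cast ha
    have h3 := mul_right_cancel₀ h2 h1
    have : (0 : ℝ) < ((∑ j, cc e j : ℤ) : ℝ) := by push_cast; rw [h3]; exact hx
    exact_mod_cast this
  refine ⟨{ toGraph := G, conn := conn, cc := cc, α_conn := hcc, conn_rev := hconn_rev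
            conn_self := hself, cc_rev := hcrev, cc_self := hcself
            l := fun e => (∑ j, cc e j).toNat
            l_pos := fun e => by have := hpos e; omega
            l_eq := fun e => Int.toNat_of_nonneg (hpos e).le
            l_rev := fun e => ?_ }, rfl⟩
  congr 1
  rw [← Equiv.sum_comp (conn e)]
  exact Finset.sum_congr rfl fun j _ => hcrev e j

end GK4850
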