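import Pool.Agent.Lib.MP_4850ea_gt.GK.StA
import Pool.Agent.Lib.MP_4850ea_gt.GK.A3

/-! A10: counting zeros and poles. -/

open Polynomial Finset

namespace GK4850

theorem a10_comb {V : Type} [Fintype V] {n : ℕ} (rev : V × Fin n → V × Fin n)
    (hrev : ∀ e, rev (rev e) = e) (x : V) (dd : V → ℕ) (hx : dd x = 0)
    (hnb : ∀ p, p ≠ x → ∃ j, dd (rev (p, j)).1 < dd p)
    (hs : ∑ p, dd p ≤ 2 * n * Fintype.card V) :
    Fintype.card V ≤ (2 * n + 1) * (n + 1) ^ (2 * n) := by
  classical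
  have h1 : ∀ k, #{p | dd p ≤ k} ≤ (n + 1) ^ k := fun k => by
    induction k with
    | zero =>
      refine (card_le_card (t := {x}) fun p hp => ?_).trans (by simp)
      by_contra h
      obtain ⟨j, hj⟩ := hnb p (by simpa using h)
      have := (mem_filter.1 hp).2
      omega
    | succ k ih =>
      refine (card_le_card (t := ({p | dd p ≤ k} : Finset V) ∪
        (({p | dd p ≤ k} : Finset V) ×ˢ univ).image fun e => (rev e).1) fun p hp => ?_).trans ?_
      · have := (mem_filter.1 hp).2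
        by_cases h : p = x
        · simp [h, hx]
        obtain ⟨j, hj⟩ := hnb p h
        refine mem_union_right _ (mem_image.2 ⟨rev (p, j), ?_, by rw [hrev]⟩)
        simp only [mem_product, mem_filter, mem_univ, true_and, and_true]
        omega
      · refine (card_union_le _ _).trans ((Nat.add_le_add_left card_image_le _).trans ?_)
        rw [card_product, card_univ, Fintype.card_fin, pow_succ]
        nlinarith
  have h2 : (2 * n + 1) * #{p | ¬dd p ≤ 2 * n} ≤ ∑ p, dd p := by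
    rw [mul_comm, ← smul_eq_mul, ← sum_const]
    exact (sum_le_sum fun p hp => by have := (mem_filter.1 hp).2; omega).trans
      (sum_le_sum_of_subset (filter_subset _ _))
  have h3 := card_filter_add_card_filter_not (s := univ) fun p => dd p ≤ 2 * n
  rw [card_univ] at h3
  have := h1 (2 * n)
  nlinarith

/-- multiplicities of poles -/
def a10P (l a b : ℕ) : Finset ℕ := {c ∈ Icc 1 b | c * l + a ≤ b}

/-- multiplicities of zeros -/
def a10Z (l a b : ℕ) : Finset ℕ := {c ∈ Icc 1 b | a + c * l < b}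

theorem a10_memP {l a b c : ℕ} (hl : 1 ≤ l) : c ∈ a10P l a b ↔ 1 ≤ c ∧ c * l + a ≤ b := by
  have : c ≤ c * l := Nat.le_mul_of_pos_right c hl
  simp only [a10P, mem_filter, mem_Icc]
  omega

theorem a10_memZ {l a b c : ℕ} (h : c ∈ a10Z l a b) : 1 ≤ c ∧ a + c * l < b := by
  simp only [a10Z, mem_filter, mem_Icc] at h
  omega

theorem a10_PZ {l : ℕ} (hl : 1 ≤ l) (a b : ℕ) : #(a10P l a b) ≤ #(a10Z l a b) + 1 := by
  refine (card_le_card (t := insert ((b - a) / l) (a10Z l a b)) fun c hc => ?_).trans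
    (card_insert_le _ _)
  simp only [a10P, a10Z, mem_filter, mem_Icc, mem_insert] at hc ⊢
  by_cases h : a + c * l < b
  · exact Or.inr ⟨hc.1, h⟩
  · exact Or.inl (Nat.div_eq_of_eq_mul_left hl (by omega)).symm

variable {V : Type} {r n : ℕ} {G : GKM V r n} {K : Type} [Field K] [CharZero K]
  {ι : (Fin r → ℤ) →+ K} {u : V → PowerSeries K} {F : V → PowerSeries (RatFunc K)} {a : V → K}

theorem a10_step (hN : Nondeg G ι) (hS : Sol G ι u F a 1) (e : V × Fin n) {d : ℕ}
    (h : PowerSeries.coeff d (F (G.rev e).1) ≠ 0) : ∃ d, PowerSeries.coeff d (F e.1) ≠ 0 := by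
  by_contra! H
  refine Set.infinite_of_injective_forall_mem (f := fun c : ℕ => wt G ι e (c + 1))
    (fun c c' q => ?_) (fun c => ?_) (finite_zeros h)
  · simpa using (wt_inj hN (p := e.1) (i := e.2) (j := e.2) c.succ_pos c'.succ_pos q).2
  · refine ⟨isReg_target hN e c.succ_pos ((hS.sol d).poles _), ?_⟩
    have := ((hS.sol ((c + 1) * G.l e + d)).res e (c + 1) c.succ_pos).2
    rw [H, mul_zero, ev_zero, if_pos (Nat.le_add_right _ _), Nat.add_sub_cancel_left] at this
    exact (mul_eq_zero.1 this.symm).resolve_left (Cc_ne_zero hN e c.succ_pos)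

theorem a10_vertex (hN : Nondeg G ι) (hS : Sol G ι u F a 1) (dd : V → ℕ)
    (h0 : ∀ p, PowerSeries.coeff (dd p) (F p) ≠ 0)
    (h1 : ∀ p, ∀ d < dd p, PowerSeries.coeff d (F p) = 0) (p : V) :
    (∑ j, #(a10Z (G.l (p, j)) (dd p) (dd (G.rev (p, j)).1)) : ℕ) ≤
      (PowerSeries.coeff (dd p) (F p)).intDegree +
        (∑ j, #(a10P (G.l (p, j)) (dd (G.rev (p, j)).1) (dd p)) : ℕ) := by
  classical
  set g := PowerSeries.coeff (dd p) (F p) with hg
  set T := univ.sigma fun j => a10P (G.l (p, j)) (dd (G.rev (p, j)).1) (dd p) with hT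
  have pol : ∀ (S : Set K) (s : Finset (Σ _ : Fin n, ℕ)), IsRep ⊤ S
      (∏ y ∈ s, (RatFunc.X - RatFunc.C (wt G ι (p, y.1) y.2))) := fun S s =>
    isRep_prod _ _ fun y _ => isRep_X.sub (isRep_C trivial)
  have r0 : IsReg 0 g := by
    have := (hS.sol (dd p)).vert p
    rwa [Vert, coeff_mul_split, coeff_zero_expS, one_mul, sum_eq_zero fun j hj => by
      rw [h1 p j (mem_range.1 hj), mul_zero], add_zero] at this
  have rw' : ∀ w ∈ ({0} ∪ {w | ∃ j c, 1 ≤ c ∧ w = wt G ι (p, j) c} : Set K),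
      IsReg w (g * ∏ y ∈ T, (RatFunc.X - RatFunc.C (wt G ι (p, y.1) y.2))) := by
    rintro w (rfl | ⟨j, c, hc, rfl⟩)
    · exact r0.mul (pol _ _)
    obtain ⟨q1, q2⟩ := (hS.sol (dd p)).res (p, j) c hc
    by_cases m : (⟨j, c⟩ : Σ _ : Fin n, ℕ) ∈ T
    · rw [← mul_prod_erase _ _ m, ← mul_assoc, mul_comm g]
      exact q1.mul (pol _ _)
    · refine (isReg_of_res_zero q1 (q2.trans ?_)).mul (pol _ _)
      split_ifs with q
      · rw [h1 _ _ ?_, ev_zero, mul_zero]
        simp only [hT, mem_sigma, mem_univ, true_and, a10_memP (G.l_pos _)] at m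
        omega
      · rfl
  obtain ⟨P, -, hP⟩ := IsRep.poly (N := ⊤) (Set.inter_empty _ ▸
    (((hS.sol (dd p)).poles p).mul (pol _ T)).cancel (S' := ∅) fun w hw _ _ => rw' w hw)
  have e1 : (∏ y ∈ T, (RatFunc.X - RatFunc.C (wt G ι (p, y.1) y.2)) : RatFunc K) =
      algebraMap K[X] _ (∏ y ∈ T, (X - C (wt G ι (p, y.1) y.2))) := by simp [map_prod]
  have mo : (∏ y ∈ T, (X - C (wt G ι (p, y.1) y.2)) : K[X]).Monic :=
    monic_prod_of_monic _ _ fun _ _ => monic_X_sub_C _
  have n1 := (map_ne_zero_iff _ (RatFunc.algebraMap_injective K)).2 mo.ne_zero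
  have P0 : P ≠ 0 := fun z => by
    rw [z, map_zero, e1] at hP
    exact mul_ne_zero (h0 p) n1 hP
  have dg := congrArg RatFunc.intDegree hP
  rw [e1, RatFunc.intDegree_mul (h0 p) n1, RatFunc.intDegree_polynomial,
    RatFunc.intDegree_polynomial, natDegree_prod_of_monic _ _ fun _ _ => monic_X_sub_C _] at dg
  simp only [natDegree_X_sub_C, sum_const, smul_eq_mul, mul_one, hT, card_sigma] at dg
  rw [dg, ← card_sigma, Nat.cast_le]
  refine (card_le_card_of_injOn (t := P.roots.toFinset) (fun y => -wt G ι (p, y.1) y.2)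
    (fun y hy => ?_) fun y hy y' hy' q => ?_).trans
    ((Multiset.toFinset_card_le _).trans P.card_roots')
  · obtain ⟨c1, c2⟩ := a10_memZ (mem_sigma.1 hy).2
    have w : -wt G ι (p, y.1) y.2 = wt G ι (G.rev (p, y.1)) y.2 := by
      rw [wt, wt, iota_rev, neg_div, neg_neg, neg_neg]
    have rg : IsReg (wt G ι (G.rev (p, y.1)) y.2) g :=
      isReg_target hN _ c1 (by rw [G.rev_rev]; exact (hS.sol _).poles p)
    have := ((hS.sol (dd p + y.2 * G.l (p, y.1))).res (G.rev (p, y.1)) y.2 c1).2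
    rw [h1 _ _ c2, mul_zero, ev_zero, G.l_rev, if_pos (Nat.le_add_left _ _),
      Nat.add_sub_cancel, G.rev_rev] at this
    have z := (mul_eq_zero.1 this.symm).resolve_left (Cc_ne_zero hN _ c1)
    simp only [Finset.mem_coe, Multiset.mem_toFinset, mem_roots P0, IsRoot, w]
    rw [← ev_algebraMap, ← hP, ev_mul rg (pol _ _), z, zero_mul]
  · obtain ⟨q1, q2⟩ := wt_inj hN (a10_memZ (mem_sigma.1 hy).2).1 (a10_memZ (mem_sigma.1 hy').2).1
      (neg_injective q)
    exact Sigma.ext q1 (heq_of_eq q2)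

theorem a10 : A10St := by
  classical
  intro V _ r n G x K _ _ ι u F hN hS hO
  have hx : PowerSeries.coeff 0 (F x) ≠ 0 := by
    rw [hS.zero, if_pos rfl]
    exact (_root_.map_ne_zero _).2 (prod_ne_zero_iff.2 fun j _ => hN.1 _)
  have ex : ∀ p, ∃ d, PowerSeries.coeff d (F p) ≠ 0 := fun p => by
    induction G.connected p x using Relation.ReflTransGen.head_induction_on with
    | refl => exact ⟨0, hx⟩
    | head h _ ih =>
      obtain ⟨i, rfl⟩ := h
      obtain ⟨d, hd⟩ := ih
      exact a10_step hN hS _ hd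
  obtain ⟨dd, h0, h1⟩ : ∃ dd : V → ℕ, (∀ p, PowerSeries.coeff (dd p) (F p) ≠ 0) ∧
      ∀ p, ∀ d < dd p, PowerSeries.coeff d (F p) = 0 :=
    ⟨fun p => Nat.find (ex p), fun p => Nat.find_spec (ex p), fun p d hd =>
      not_not.1 (Nat.find_min (ex p) hd)⟩
  have hv := a10_vertex hN hS dd h0 h1
  refine a10_comb G.rev G.rev_rev x dd (Nat.eq_zero_of_not_pos fun z => hx (h1 x 0 z))
    (fun p hp => ?_) ?_
  · have d1 : 1 ≤ dd p := Nat.pos_of_ne_zero fun z => by
      have := h0 p
      rw [z, hS.zero, if_neg hp, map_zero] at this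
      exact this rfl
    have o := (hS.ord p _ d1).resolve_left (h0 p)
    have v := hv p
    by_contra! H
    rw [sum_eq_zero (f := fun j => #(a10P (G.l (p, j)) (dd (G.rev (p, j)).1) (dd p))) fun j _ => by
      refine card_eq_zero.2 (eq_empty_of_forall_notMem fun c hc => ?_)
      have := (a10_memP (G.l_pos _)).1 hc
      have := Nat.mul_pos this.1 (G.l_pos (p, j))
      have := H j
      omega] at v
    omega
  · have s1 : ∑ p, (dd p + ∑ j, #(a10Z (G.l (p, j)) (dd p) (dd (G.rev (p, j)).1))) ≤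
        ∑ p, (n + ∑ j, #(a10P (G.l (p, j)) (dd (G.rev (p, j)).1) (dd p))) :=
      sum_le_sum fun p _ => by
        have o := (hO p (dd p)).resolve_left (h0 p)
        have v := hv p
        omega
    have s2 : ∑ e : V × Fin n, #(a10P (G.l e) (dd (G.rev e).1) (dd e.1)) ≤
        ∑ e : V × Fin n, (#(a10Z (G.l e) (dd e.1) (dd (G.rev e).1)) + 1) := by
      rw [← Equiv.sum_comp (Function.Involutive.toPerm _ G.rev_rev)]
      refine sum_le_sum fun e _ => ?_
      simp only [Function.Involutive.coe_toPerm, G.rev_rev, G.l_rev]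
      exact a10_PZ (G.l_pos e) _ _
    rw [sum_add_distrib, Fintype.sum_prod_type, Fintype.sum_prod_type] at s2
    rw [sum_add_distrib, sum_add_distrib] at s1
    simp only [sum_const, card_univ, smul_eq_mul, mul_one, Fintype.card_prod,
      Fintype.card_fin] at s1 s2
    nlinarith

end GK4850
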