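import Mathlib

/-! Algebraic side of MP_4850ea_gt: GKM data, rational functions, the descendant recursion. -/

open Polynomial

namespace GK4850

noncomputable section

/-- the polynomial ring of the torus -/
abbrev SS (r : ℕ) := MvPolynomial (Fin r) ℝ

/-- a weight as a linear form -/
def lin {r : ℕ} (β : Fin r → ℤ) : SS r := ∑ a, MvPolynomial.C (β a : ℝ) * MvPolynomial.X a

/-- graph with axial function: darts are pairs `(p, i)` -/
structure Graph (V : Type) (r n : ℕ) where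
  α : V × Fin n → Fin r → ℤ
  rev : V × Fin n → V × Fin n
  rev_rev : ∀ e, rev (rev e) = e
  α_rev : ∀ e, α (rev e) = -α e
  ne_zero : ∀ e, α e ≠ 0
  indep : ∀ p i j, i ≠ j → ∀ a b : ℤ, a • α (p, i) + b • α (p, j) = 0 → a = 0 ∧ b = 0
  connected : ∀ p q : V, Relation.ReflTransGen (fun p q => ∃ i, (rev (p, i)).1 = q) p q

open Classical in
/-- Morse package: Thom classes for every subgroup of weights -/
def Graph.MP {V : Type} {r n : ℕ} (G : Graph V r n) : Prop :=
  ∀ (Λ : AddSubgroup (Fin r → ℤ)) (a : (Fin r → ℤ) →+ ℚ),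
    ∃ (asc : V × Fin n → Prop) (o : V → ℝ),
      (∀ e, asc (G.rev e) ↔ ¬ asc e) ∧ (∀ e, 0 < a (G.α e) → asc e) ∧ Function.Injective o ∧
      (∀ e, asc e → o e.1 < o (G.rev e).1) ∧
      ∀ p, ∃ τ : V → SS r,
        (∀ e, G.α e ∈ Λ → lin (G.α e) ∣ τ e.1 - τ (G.rev e).1) ∧
        τ p = ∏ j ∈ Finset.univ.filter (fun j => asc (p, j) ∧ G.α (p, j) ∈ Λ), lin (G.α (p, j)) ∧
        ∀ q, o p < o q → τ q = 0

/-- what the manifold delivers: congruence of weights along edges and positivity of `c₁` -/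
def Graph.Pre {V : Type} {r n : ℕ} (G : Graph V r n) : Prop :=
  (∀ e, ∃ σ : Fin n ≃ Fin n, ∀ j, ∃ c : ℤ, G.α ((G.rev e).1, σ j) = G.α (e.1, j) - c • G.α e) ∧
  (∀ e, ∃ c : ℝ, 0 < c ∧ ∀ a, ((∑ j, G.α (e.1, j) a - ∑ j, G.α ((G.rev e).1, j) a : ℤ) : ℝ)
    = c * G.α e a)

/-- graph with a chosen connection -/
structure GKM (V : Type) (r n : ℕ) extends Graph V r n where
  conn : V × Fin n → Fin n ≃ Fin n
  cc : V × Fin n → Fin n → ℤ
  α_conn : ∀ e j, α ((rev e).1, conn e j) = α (e.1, j) - cc e j • α e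
  conn_rev : ∀ e, conn (rev e) = (conn e).symm
  conn_self : ∀ e, conn e e.2 = (rev e).2
  cc_rev : ∀ e j, cc (rev e) (conn e j) = cc e j
  cc_self : ∀ e, cc e e.2 = 2
  l : V × Fin n → ℕ
  l_pos : ∀ e, 1 ≤ l e
  l_eq : ∀ e, (l e : ℤ) = ∑ j, cc e j
  l_rev : ∀ e, l (rev e) = l e

section Rat
variable {K : Type} [Field K]

/-- `g = P / ∏ (z - w)` with `P ∈ N[z]` and all `w ∈ S ∩ N` -/
def IsRep (N : Subring K) (S : Set K) (g : RatFunc K) : Prop :=
  ∃ (s : Multiset K) (P : K[X]), (∀ w ∈ s, w ∈ S ∧ w ∈ N) ∧ (∀ i, P.coeff i ∈ N) ∧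
    g * algebraMap K[X] (RatFunc K) (s.map fun w => X - C w).prod = algebraMap K[X] (RatFunc K) P

/-- regular at `w` (split denominator) -/
def IsReg (w : K) (g : RatFunc K) : Prop := IsRep ⊤ {w}ᶜ g

/-- value at `w` -/
def ev (w : K) (g : RatFunc K) : K := RatFunc.eval (RingHom.id K) w g

/-- vanishing to order at least `m` at infinity -/
def OrdInf (m : ℤ) (g : RatFunc K) : Prop := g = 0 ∨ g.intDegree ≤ -m

/-- leading coefficient at infinity -/
def lcInf (g : RatFunc K) : K := g.num.leadingCoeff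

/-- Gauss-integral functions with poles in `R` -/
def IsInt (R : ValuationSubring K) (g : RatFunc K) : Prop := IsRep R.toSubring Set.univ g

/-- points of `R` not congruent to `w` -/
def away (R : ValuationSubring K) (w : K) : Set K := {x | x ∈ R ∧ ¬ R.valuation (x - w) < 1}

/-- no pole congruent to `w`, all poles in `R` -/
def IsLoc (R : ValuationSubring K) (w : K) (g : RatFunc K) : Prop := IsRep ⊤ (away R w) g

/-- `g ∈ A + O'_w` -/
def IntAt (R : ValuationSubring K) (w : K) (g : RatFunc K) : Prop :=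
  ∃ g₁, IsInt R g₁ ∧ IsLoc R w (g - g₁)

/-- `Γ(B, w, m)` -/
def Gam {L : Type} [Field L] (B w : L) (m : ℤ) : L :=
  if 0 ≤ m then (∏ k ∈ Finset.Icc 1 m.toNat, (B + (k : L) * w))⁻¹
  else ∏ k ∈ Finset.range (-m).toNat, (B - (k : L) * w)

end Rat

/-- exponential of a power series without constant term -/
def expS {B : Type} [CommRing B] [Algebra ℚ B] (a : PowerSeries B) : PowerSeries B :=
  PowerSeries.mk fun d => ∑ k ∈ Finset.range (d + 1),
    ((k.factorial : ℚ)⁻¹) • PowerSeries.coeff d (a ^ k)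

/-- the operator `q d/dq` -/
def thetaS {B : Type} [CommRing B] (a : PowerSeries B) : PowerSeries B :=
  PowerSeries.mk fun d => (d : B) * PowerSeries.coeff d a

section Sol
variable {V : Type} {r n : ℕ} (G : GKM V r n) {K : Type} [Field K] [CharZero K]
  (ι : (Fin r → ℤ) →+ K)

/-- `u / z` -/
def overZ (u : PowerSeries K) : PowerSeries (RatFunc K) :=
  PowerSeries.C (RatFunc.X⁻¹ : RatFunc K) * PowerSeries.map (RatFunc.C : K →+* RatFunc K) u

/-- the vertex condition (S3) in degree `d` -/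
def Vert (u : PowerSeries K) (F : PowerSeries (RatFunc K)) (d : ℕ) : Prop :=
  IsReg 0 (PowerSeries.coeff d (expS (-overZ u) * F))

def Nondeg : Prop :=
  (∀ e, ι (G.α e) ≠ 0) ∧ ∀ p i j, i ≠ j → ∀ a b : ℤ,
    (a : K) * ι (G.α (p, i)) + (b : K) * ι (G.α (p, j)) = 0 → a = 0 ∧ b = 0

def wt (e : V × Fin n) (c : ℕ) : K := -ι (G.α e) / c

def Cc (e : V × Fin n) (c : ℕ) : K :=
  (-1) ^ (c - 1) / ((c.factorial : K) ^ 2 * wt G ι e c ^ (2 * c - 1)) *
    ∏ j ∈ Finset.univ.erase e.2, Gam (ι (G.α (e.1, j))) (wt G ι e c) (c * G.cc e j)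

/-- condition (S2) for the dart `e` in degree `d`, `F₁` at the source and `F₂` at the target -/
def Res (e : V × Fin n) (F₁ F₂ : PowerSeries (RatFunc K)) (d : ℕ) : Prop :=
  ∀ c, 1 ≤ c →
    IsReg (wt G ι e c) ((RatFunc.X - RatFunc.C (wt G ι e c)) * PowerSeries.coeff d F₁) ∧
    ev (wt G ι e c) ((RatFunc.X - RatFunc.C (wt G ι e c)) * PowerSeries.coeff d F₁) =
      if c * G.l e ≤ d then
        Cc G ι e c * ev (wt G ι e c) (PowerSeries.coeff (d - c * G.l e) F₂) else 0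

structure SolAt (u : V → PowerSeries K) (F : V → PowerSeries (RatFunc K)) (d : ℕ) : Prop where
  poles : ∀ p, IsRep ⊤ ({0} ∪ {w | ∃ j c, 1 ≤ c ∧ w = wt G ι (p, j) c})
    (PowerSeries.coeff d (F p))
  res : ∀ e, Res G ι e (F e.1) (F (G.rev e).1) d
  vert : ∀ p, Vert (u p) (F p) d

/-- solution in all degrees with constant term `a`, vanishing to order `m` at infinity -/
structure Sol (u : V → PowerSeries K) (F : V → PowerSeries (RatFunc K)) (a : V → K) (m : ℤ) :
    Prop where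
  u_zero : ∀ p, PowerSeries.coeff 0 (u p) = 0
  sol : ∀ d, SolAt G ι u F d
  zero : ∀ p, PowerSeries.coeff 0 (F p) = RatFunc.C (a p)
  ord : ∀ p d, 1 ≤ d → OrdInf m (PowerSeries.coeff d (F p))

variable (R : ValuationSubring K)

/-- dart whose weight lies in the maximal ideal -/
def Par (e : V × Fin n) : Prop := R.valuation (ι (G.α e)) < 1

/-- admissible place -/
structure Place : Prop where
  real : ∃ φ : ℝ →+* K, ∀ x, φ x ∈ R
  mem : ∀ β, ι β ∈ R
  par : ∀ p i j, Par G ι R (p, i) → Par G ι R (p, j) → i = j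

/-- integral pair for a dart of weight `al` -/
def IntPair (al : K) (g₁ g₂ : RatFunc K) : Prop :=
  IsInt R g₁ ∧ IsInt R g₂ ∧ IsInt R (RatFunc.C al⁻¹ * (g₁ - g₂))

def IntegralAt (F : V → PowerSeries (RatFunc K)) (d : ℕ) : Prop :=
  (∀ p, IsInt R (PowerSeries.coeff d (F p))) ∧ ∀ b, Par G ι R b →
    IsInt R (RatFunc.C (ι (G.α b))⁻¹ *
      (PowerSeries.coeff d (F b.1) - PowerSeries.coeff d (F (G.rev b).1)))

/-- local solution at the zero cluster for the pair of ends of a dart `b` -/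
structure LocAt (b : V × Fin n) (u₁ u₂ : PowerSeries K) (F₁ F₂ : PowerSeries (RatFunc K))
    (d : ℕ) : Prop where
  poles₁ : IsRep ⊤ ({0} ∪ {w | ∃ c, 1 ≤ c ∧ w = wt G ι b c} ∪ away R 0) (PowerSeries.coeff d F₁)
  poles₂ : IsRep ⊤ ({0} ∪ {w | ∃ c, 1 ≤ c ∧ w = wt G ι (G.rev b) c} ∪ away R 0)
    (PowerSeries.coeff d F₂)
  res₁ : Res G ι b F₁ F₂ d
  res₂ : Res G ι (G.rev b) F₂ F₁ d
  vert₁ : Vert u₁ F₁ d
  vert₂ : Vert u₂ F₂ d

/-- hypergeometric coefficient `I_m(b)` -/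
def Im (b : V × Fin n) (m : ℕ) : RatFunc K :=
  (∏ j ∈ Finset.univ.erase b.2, Gam (RatFunc.C (ι (G.α (b.1, j)))) RatFunc.X (m * G.cc b j)) /
    ∏ k ∈ Finset.Icc 1 m, (((k : RatFunc K) * RatFunc.X) *
      (RatFunc.C (ι (G.α b)) + (k : RatFunc K) * RatFunc.X))

/-- the generator `G(b)` with parameters `y₀, y` -/
def Gb (b : V × Fin n) (y₀ y : PowerSeries K) : PowerSeries (RatFunc K) :=
  PowerSeries.mk fun d => ∑ m ∈ Finset.range (d + 1), PowerSeries.coeff d
    (PowerSeries.X ^ (G.l b * m) *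
      expS (overZ (y₀ + PowerSeries.C (ι (G.α b) / 2) * y) +
        PowerSeries.map (RatFunc.C : K →+* RatFunc K) (PowerSeries.C (m : K) * y)) *
      PowerSeries.C (Im G ι b m))

/-- the operator `z q d/dq + c₁(p)` -/
def Dop (p : V) (F : PowerSeries (RatFunc K)) : PowerSeries (RatFunc K) :=
  PowerSeries.C RatFunc.X * thetaS F + PowerSeries.C (RatFunc.C (∑ j, ι (G.α (p, j)))) * F

end Sol

end

end GK4850
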