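import Pool.Agent.Lib.MP_4850ea_gt.GK.BDefs

/-! B0: basic facts on `rho`, `gen`, `Ret`, `Emb`. -/

open scoped ContDiff Topology RealInnerProductSpace
open Set

namespace GK4850

variable {r : ℕ} {J : Type} [Fintype J] {γ : J → Fin r → ℤ}

theorem pr_add_right (β : Fin r → ℤ) (s t : Fin r → ℝ) : pr β (s + t) = pr β s + pr β t := by
  simp [pr, mul_add, Finset.sum_add_distrib]
theorem pr_smul_right (β : Fin r → ℤ) (c : ℝ) (t : Fin r → ℝ) : pr β (c • t) = c * pr β t := by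
  simp [pr, Finset.mul_sum, mul_left_comm]
theorem pr_zero_right (β : Fin r → ℤ) : pr β 0 = 0 := by simp [pr]
theorem pr_neg_right (β : Fin r → ℤ) (t : Fin r → ℝ) : pr β (-t) = -pr β t := by simp [pr]
theorem pr_add_left (β β' : Fin r → ℤ) (t : Fin r → ℝ) : pr (β + β') t = pr β t + pr β' t := by
  simp [pr, add_mul, Finset.sum_add_distrib]
theorem pr_neg_left (β : Fin r → ℤ) (t : Fin r → ℝ) : pr (-β) t = -pr β t := by simp [pr]
theorem pr_sub_left (β β' : Fin r → ℤ) (t : Fin r → ℝ) : pr (β - β') t = pr β t - pr β' t := by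
  simp [pr, sub_mul, Finset.sum_sub_distrib]
theorem pr_zsmul_left (k : ℤ) (β : Fin r → ℤ) (t : Fin r → ℝ) : pr (k • β) t = k * pr β t := by
  simp [pr, Finset.mul_sum, mul_assoc]
theorem pr_zero_left (t : Fin r → ℝ) : pr (0 : Fin r → ℤ) t = 0 := by simp [pr]
theorem pr_single (β : Fin r → ℤ) (a : Fin r) : pr β (Pi.single a 1) = β a := by
  classical
  simp [pr, Pi.single_apply]
theorem contDiff_pr (β : Fin r → ℤ) : ContDiff ℝ ∞ (pr β) := by
  unfold pr; fun_prop

theorem diag_apply (c : J → ℂ) (x : W J) (j : J) : diag c x j = c j * x j := rfl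
theorem rho_apply (t : Fin r → ℝ) (x : W J) (j : J) :
    rho γ t x j = Complex.exp (2 * Real.pi * Complex.I * (pr (γ j) t : ℝ)) * x j := rfl
theorem gen_apply (ξ : Fin r → ℝ) (x : W J) (j : J) :
    gen γ ξ x j = 2 * Real.pi * Complex.I * (pr (γ j) ξ : ℝ) * x j := rfl
theorem inner_W (x y : W J) : ⟪x, y⟫ = ∑ j, ((starRingEnd ℂ) (x j) * y j).re := by
  rw [PiLp.inner_apply]
  refine Finset.sum_congr rfl fun j _ => ?_
  rw [Complex.inner, mul_comm]
theorem norm_sq_W (x : W J) : ‖x‖ ^ 2 = ∑ j, ‖x j‖ ^ 2 := by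
  rw [PiLp.norm_sq_eq_of_L2]
theorem rho_zero : rho γ 0 = ContinuousLinearMap.id ℝ (W J) := by
  ext x j : 2; simp [rho_apply, pr_zero_right]
theorem rho_add (s t : Fin r → ℝ) : rho γ (s + t) = (rho γ s).comp (rho γ t) := by
  ext x j : 2
  simp only [rho_apply, pr_add_right, ContinuousLinearMap.comp_apply]
  push_cast
  rw [mul_add, Complex.exp_add, mul_assoc]
theorem rho_rho (s t : Fin r → ℝ) (x : W J) : rho γ s (rho γ t x) = rho γ (s + t) x := by
  rw [rho_add]; rfl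
theorem rho_neg_rho (t : Fin r → ℝ) (x : W J) : rho γ (-t) (rho γ t x) = x := by
  rw [rho_rho, neg_add_cancel, rho_zero]; rfl
theorem rho_rho_neg (t : Fin r → ℝ) (x : W J) : rho γ t (rho γ (-t) x) = x := by
  rw [rho_rho, add_neg_cancel, rho_zero]; rfl
theorem rho_int (k : Fin r → ℤ) : rho γ (fun a => (k a : ℝ)) = ContinuousLinearMap.id ℝ (W J) :=
  by
  ext x j : 2
  have : pr (γ j) (fun a => (k a : ℝ)) = ((∑ a, γ j a * k a : ℤ) : ℝ) := by simp [pr]
  rw [rho_apply, this]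
  have h := Complex.exp_int_mul_two_pi_mul_I (∑ a, γ j a * k a)
  rw [Complex.ofReal_intCast, mul_comm _ (((∑ a, γ j a * k a : ℤ) : ℂ)), h]
  simp
theorem norm_rho_apply (t : Fin r → ℝ) (x : W J) (j : J) : ‖rho γ t x j‖ = ‖x j‖ := by
  rw [rho_apply, norm_mul]
  have : (2 * Real.pi * Complex.I * (pr (γ j) t : ℝ) : ℂ) =
      ((2 * Real.pi * pr (γ j) t : ℝ) : ℂ) * Complex.I := by push_cast; ring
  rw [this, Complex.norm_exp_ofReal_mul_I, one_mul]
theorem norm_rho (t : Fin r → ℝ) (x : W J) : ‖rho γ t x‖ = ‖x‖ := by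
  have h : ‖rho γ t x‖ ^ 2 = ‖x‖ ^ 2 := by simp only [norm_sq_W, norm_rho_apply]
  exact (sq_eq_sq₀ (norm_nonneg _) (norm_nonneg _)).1 h
theorem inner_rho (t : Fin r → ℝ) (x y : W J) : ⟪rho γ t x, rho γ t y⟫ = ⟪x, y⟫ := by
  rw [real_inner_eq_norm_add_mul_self_sub_norm_mul_self_sub_norm_mul_self_div_two,
    real_inner_eq_norm_add_mul_self_sub_norm_mul_self_sub_norm_mul_self_div_two, ← map_add,
    norm_rho, norm_rho, norm_rho]
theorem rho_smul_I (t : Fin r → ℝ) (c : ℂ) (x : W J) : rho γ t (c • x) = c • rho γ t x := by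
  ext j : 1; simp [rho_apply, mul_left_comm]
theorem contDiff_diag : ContDiff ℝ ∞ (diag : (J → ℂ) → W J →L[ℝ] W J) := by
  let L : (J → ℂ) →ₗ[ℝ] (W J →L[ℝ] W J) :=
    { toFun := diag
      map_add' := fun a b => by ext x j : 2; simp [diag_apply, add_mul]
      map_smul' := fun s a => by ext x j : 2; simp [diag_apply, mul_assoc] }
  exact (LinearMap.toContinuousLinearMap L).contDiff
theorem contDiff_rho : ContDiff ℝ ∞ (rho γ) := by
  unfold rho
  refine contDiff_diag.comp (contDiff_pi.2 fun j => ?_)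
  refine Complex.contDiff_exp.comp (contDiff_const.mul ?_)
  exact Complex.ofRealCLM.contDiff.comp (contDiff_pr _)
theorem gen_rho (ξ t : Fin r → ℝ) (x : W J) : gen γ ξ (rho γ t x) = rho γ t (gen γ ξ x) := by
  ext j : 1; simp only [rho_apply, gen_apply]; ring
theorem gen_gen (ξ η : Fin r → ℝ) (x : W J) : gen γ ξ (gen γ η x) = gen γ η (gen γ ξ x) := by
  ext j : 1; simp only [gen_apply]; ring
theorem gen_eq_sum (ξ : Fin r → ℝ) : gen γ ξ = ∑ a, ξ a • gen γ (Pi.single a 1) := by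
  ext x j : 2
  simp only [sum_apply, smul_apply, WithLp.ofLp_sum,
    Finset.sum_apply, PiLp.smul_apply, gen_apply, pr_single, Complex.real_smul]
  simp only [pr]
  push_cast
  rw [Finset.mul_sum, Finset.sum_mul]
  exact Finset.sum_congr rfl fun a _ => by ring
theorem inner_gen (ξ : Fin r → ℝ) (x y : W J) : ⟪gen γ ξ x, y⟫ = -⟪x, gen γ ξ y⟫ := by
  simp only [inner_W, gen_apply, ← Finset.sum_neg_distrib]
  refine Finset.sum_congr rfl fun j _ => ?_
  simp
  ring
theorem hasDerivAt_rho_clm (ξ : Fin r → ℝ) (s : ℝ) :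
    HasDerivAt (fun s : ℝ => rho γ (s • ξ)) ((gen γ ξ).comp (rho γ (s • ξ))) s := by
  let L : (J → ℂ) →ₗ[ℝ] (W J →L[ℝ] W J) :=
    { toFun := diag
      map_add' := fun a b => by ext x j : 2; simp [diag_apply, add_mul]
      map_smul' := fun s a => by ext x j : 2; simp [diag_apply, mul_assoc] }
  have h : HasDerivAt (fun s : ℝ => fun j =>
      Complex.exp (2 * Real.pi * Complex.I * (pr (γ j) (s • ξ) : ℝ)))
      (fun j => 2 * Real.pi * Complex.I * (pr (γ j) ξ : ℝ) *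
        Complex.exp (2 * Real.pi * Complex.I * (pr (γ j) (s • ξ) : ℝ))) s := by
    refine hasDerivAt_pi.2 fun j => ?_
    simp only [pr_smul_right]
    have h1 : HasDerivAt (fun s : ℝ => (2 * Real.pi * Complex.I * ((s * pr (γ j) ξ : ℝ) : ℂ)))
        (2 * Real.pi * Complex.I * (pr (γ j) ξ : ℝ)) s := by
      have := ((hasDerivAt_id s).mul_const (pr (γ j) ξ)).ofReal_comp.const_mul
        (2 * Real.pi * Complex.I)
      simpa using this
    simpa [mul_comm] using h1.cexp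
  have h2 := (LinearMap.toContinuousLinearMap L).hasFDerivAt.comp_hasDerivAt s h
  have e : (gen γ ξ).comp (rho γ (s • ξ)) = LinearMap.toContinuousLinearMap L
      (fun j => 2 * Real.pi * Complex.I * (pr (γ j) ξ : ℝ) *
        Complex.exp (2 * Real.pi * Complex.I * (pr (γ j) (s • ξ) : ℝ))) := by
    ext x j : 2
    simp [L, diag_apply, gen_apply, rho_apply, mul_assoc]
  rw [e]
  exact h2
theorem hasDerivAt_rho (ξ : Fin r → ℝ) (x : W J) (s : ℝ) :
    HasDerivAt (fun s : ℝ => rho γ (s • ξ) x) (gen γ ξ (rho γ (s • ξ) x)) s := by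
  simpa using (hasDerivAt_rho_clm (γ := γ) ξ s).clm_apply (hasDerivAt_const s x)
/-- duality for subgroups of the weight lattice -/
theorem exists_sep (Λ : AddSubgroup (Fin r → ℤ)) {β : Fin r → ℤ} (hβ : β ∉ Λ) :
    ∃ t : Fin r → ℝ, (∀ δ ∈ Λ, ∃ k : ℤ, pr δ t = k) ∧ ¬ ∃ k : ℤ, pr β t = k := by
  classical
  have h0 : (QuotientAddGroup.mk β : (Fin r → ℤ) ⧸ Λ) ≠ 0 := by
    rwa [Ne, QuotientAddGroup.eq_zero_iff]
  obtain ⟨c, hc⟩ := CharacterModule.exists_character_apply_ne_zero_of_ne_zero h0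
  let c' : (Fin r → ℤ) →+ AddCircle (1 : ℚ) :=
    (c : ((Fin r → ℤ) ⧸ Λ) →+ AddCircle (1 : ℚ)).comp (QuotientAddGroup.mk' Λ)
  have hq : ∀ a : Fin r, ∃ q : ℚ, (q : AddCircle (1 : ℚ)) = c' (Pi.single a 1) := fun a =>
    QuotientAddGroup.mk_surjective _
  choose q hq using hq
  have key : ∀ δ : Fin r → ℤ, ((∑ a, δ a * q a : ℚ) : AddCircle (1 : ℚ)) = c' δ := by
    intro δ
    have h1 : δ = ∑ a, δ a • (Pi.single a 1 : Fin r → ℤ) := by
      ext b; simp [Finset.sum_apply, Pi.single_apply]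
    conv_rhs => rw [h1, map_sum]
    rw [← QuotientAddGroup.mk'_apply, map_sum]
    refine Finset.sum_congr rfl fun a _ => ?_
    rw [map_zsmul, ← hq, ← zsmul_eq_mul, map_zsmul]
    rfl
  have hpr : ∀ δ : Fin r → ℤ, pr δ (fun a => (q a : ℝ)) = ((∑ a, δ a * q a : ℚ) : ℝ) := by
    intro δ; simp [pr]
  refine ⟨fun a => (q a : ℝ), fun δ hδ => ?_, ?_⟩
  · have h1 : c' δ = 0 := by
      have : QuotientAddGroup.mk' Λ δ = 0 := by simpa using hδ
      simp only [c', AddMonoidHom.comp_apply, this, map_zero]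
    rw [← key, AddCircle.coe_eq_zero_iff] at h1
    obtain ⟨k, hk⟩ := h1
    refine ⟨k, ?_⟩
    rw [hpr, ← hk]; simp
  · rintro ⟨k, hk⟩
    apply hc
    have h1 : (∑ a, β a * q a : ℚ) = k := by
      rw [hpr] at hk; exact_mod_cast hk
    have h2 : c' β = 0 := by
      rw [← key, AddCircle.coe_eq_zero_iff]; exact ⟨k, by rw [h1]; simp⟩
    exact h2
theorem fixed_sub_iff (Λ : AddSubgroup (Fin r → ℤ)) (x : W J) :
    (∀ t, (∀ δ ∈ Λ, ∃ k : ℤ, pr δ t = k) → rho γ t x = x) ↔ ∀ j, γ j ∉ Λ → x j = 0 := by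
  constructor
  · intro h j hj
    obtain ⟨t, ht, hn⟩ := exists_sep Λ hj
    by_contra hx
    apply hn
    have h1 := congrArg (fun y : W J => y j) (h t ht)
    simp only [rho_apply] at h1
    have h2 : Complex.exp (2 * Real.pi * Complex.I * (pr (γ j) t : ℝ)) = 1 :=
      mul_right_cancel₀ hx (by rw [h1, one_mul])
    obtain ⟨k, hk⟩ := Complex.exp_eq_one_iff.1 h2
    refine ⟨k, ?_⟩
    have h3 : ((pr (γ j) t : ℝ) : ℂ) = k :=
      mul_left_cancel₀ Complex.two_pi_I_ne_zero (by rw [hk]; ring)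
    exact_mod_cast h3
  · intro h t ht
    ext j : 1
    by_cases hj : γ j ∈ Λ
    · obtain ⟨k, hk⟩ := ht _ hj
      rw [rho_apply, hk, Complex.ofReal_intCast, mul_comm _ (k : ℂ),
        Complex.exp_int_mul_two_pi_mul_I, one_mul]
    · rw [rho_apply, h j hj, mul_zero]
/-- a vector is fixed iff it has only coordinates of weight zero -/
theorem fixed_iff (x : W J) : (∀ t, rho γ t x = x) ↔ ∀ j, γ j ≠ 0 → x j = 0 := by
  have h := fixed_sub_iff (γ := γ) ⊥ x
  simp only [AddSubgroup.mem_bot] at h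
  rw [← h]
  refine ⟨fun h t _ => h t, fun h t => h t ?_⟩
  rintro δ rfl
  exact ⟨0, by simp [pr_zero_left]⟩
/-- generic elements exist, with prescribed signs -/
theorem exists_generic (s : Finset (Fin r → ℤ)) (η : Fin r → ℝ) :
    ∃ ξ : Fin r → ℝ, (∀ β ∈ s, β ≠ 0 → pr β ξ ≠ 0) ∧ ∀ β ∈ s, 0 < pr β η → 0 < pr β ξ := by
  classical
  have hd : Dense (⋂ β ∈ (s : Set (Fin r → ℤ)), {ξ : Fin r → ℝ | β ≠ 0 → pr β ξ ≠ 0}) := by
    refine dense_biInter_of_isOpen (fun β _ => ?_) s.countable_toSet (fun β _ => ?_)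
    · by_cases hβ : β = 0
      · simp [hβ]
      · simp only [Ne, hβ, not_false_eq_true, forall_const]
        exact isOpen_ne_fun (contDiff_pr β).continuous continuous_const
    · by_cases hβ : β = 0
      · simp [hβ]
      · simp only [Ne, hβ, not_false_eq_true, forall_const]
        let L : (Fin r → ℝ) →ₗ[ℝ] ℝ :=
          { toFun := pr β, map_add' := pr_add_right β, map_smul' := pr_smul_right β }
        have h1 : interior (LinearMap.ker L : Set (Fin r → ℝ)) = ∅ := by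
          by_contra hne
          have h2 := (LinearMap.ker L).eq_top_of_nonempty_interior' (nonempty_iff_ne_empty.2 hne)
          apply hβ
          ext a
          have h3 : (Pi.single a 1 : Fin r → ℝ) ∈ LinearMap.ker L := by rw [h2]; trivial
          have h4 : pr β (Pi.single a 1) = 0 := h3
          rw [pr_single] at h4
          exact_mod_cast h4
        exact interior_eq_empty_iff_dense_compl.1 h1
  have ho : IsOpen (⋂ β ∈ s, {ξ : Fin r → ℝ | 0 < pr β η → 0 < pr β ξ}) := by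
    refine isOpen_biInter_finset fun β _ => ?_
    by_cases hβ : 0 < pr β η
    · simp only [hβ, forall_const]
      exact isOpen_lt continuous_const (contDiff_pr β).continuous
    · simp [hβ]
  obtain ⟨ξ, h1, h2⟩ := hd.inter_open_nonempty _ ho ⟨η, by simp⟩
  simp only [mem_iInter, mem_ofPred_eq, Finset.mem_coe] at h1 h2
  exact ⟨ξ, h2, h1⟩

theorem EqvMap.fderiv_rho {J' : Type} [Fintype J'] {γ' : J' → Fin r → ℤ} {A' : Set (W J')}
    {A : Set (W J)} {g : W J' → W J} (hA : InvOpen γ' A') (h : EqvMap γ' γ A' A g)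
    (t : Fin r → ℝ) {x : W J'} (hx : x ∈ A') (v : W J') :
    fderiv ℝ g (rho γ' t x) (rho γ' t v) = rho γ t (fderiv ℝ g x v) := by
  have hd : ∀ y ∈ A', DifferentiableAt ℝ g y := fun y hy =>
    (h.smooth.contDiffAt (hA.isOpen.mem_nhds hy)).differentiableAt (by simp)
  have h1 : (fun y => g (rho γ' t y)) =ᶠ[𝓝 x] fun y => rho γ t (g y) :=
    Filter.eventually_of_mem (hA.isOpen.mem_nhds hx) fun y hy => h.eqv t y hy
  have h2 := ((hd _ (hA.inv t hx)).hasFDerivAt.comp x (rho γ' t).hasFDerivAt)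
  have h3 := ((rho γ t).hasFDerivAt.comp x (hd x hx).hasFDerivAt).congr_of_eventuallyEq h1
  exact DFunLike.congr_fun (h2.unique h3) v
theorem EqvMap.fderiv_gen {J' : Type} [Fintype J'] {γ' : J' → Fin r → ℤ} {A' : Set (W J')}
    {A : Set (W J)} {g : W J' → W J} (hA : InvOpen γ' A') (h : EqvMap γ' γ A' A g)
    (ξ : Fin r → ℝ) {x : W J'} (hx : x ∈ A') :
    fderiv ℝ g x (gen γ' ξ x) = gen γ ξ (g x) := by
  have hd : DifferentiableAt ℝ g (rho γ' ((0 : ℝ) • ξ) x) := by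
    rw [zero_smul, rho_zero]
    exact (h.smooth.contDiffAt (hA.isOpen.mem_nhds hx)).differentiableAt (by simp)
  have h2 := hd.hasFDerivAt.comp_hasDerivAt (0 : ℝ) (hasDerivAt_rho (γ := γ') ξ x 0)
  have h3 := hasDerivAt_rho (γ := γ) ξ (g x) 0
  have h1 : (g ∘ fun s : ℝ => rho γ' (s • ξ) x) = fun s : ℝ => rho γ (s • ξ) (g x) :=
    funext fun s => h.eqv _ x hx
  rw [h1] at h2
  simpa [rho_zero] using h2.unique h3

namespace Ret
variable (X : Ret r J)

theorem invOpen : InvOpen X.γ X.U := ⟨X.isOpen, X.inv_U⟩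
theorem eqvMap : EqvMap X.γ X.γ X.U X.U X.π :=
  ⟨X.π_smooth, fun _ h => X.sub (X.π_maps h), X.π_eqv⟩
theorem differentiableAt_π {y : W J} (hy : y ∈ X.U) : DifferentiableAt ℝ X.π y := 
  (X.π_smooth.contDiffAt (X.isOpen.mem_nhds hy)).differentiableAt (by simp)
theorem continuousOn_P : ContinuousOn X.P X.U := 
  X.π_smooth.continuousOn_fderiv_of_isOpen X.isOpen (by simp)
theorem P_fderiv {y : W J} (hy : y ∈ X.U) (v : W J) :
    X.P (X.π y) (fderiv ℝ X.π y v) = fderiv ℝ X.π y v := by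
  have h1 : (fun z => X.π (X.π z)) =ᶠ[𝓝 y] X.π :=
    Filter.eventually_of_mem (X.isOpen.mem_nhds hy) fun z hz => X.π_id _ (X.π_maps hz)
  have h2 := (X.differentiableAt_π (X.sub (X.π_maps hy))).hasFDerivAt.comp y
    (X.differentiableAt_π hy).hasFDerivAt
  have h3 := (X.differentiableAt_π hy).hasFDerivAt.congr_of_eventuallyEq h1
  exact DFunLike.congr_fun (h2.unique h3) v
theorem P_P {x : W J} (hx : x ∈ X.M) (v : W J) : X.P x (X.P x v) = X.P x v := by
  have := X.P_fderiv (X.sub hx) v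
  rwa [X.π_id x hx] at this
theorem P_mem (x v : W J) : X.P x v ∈ X.T x := ⟨v, rfl⟩
theorem mem_T_iff {x : W J} (hx : x ∈ X.M) (v : W J) : v ∈ X.T x ↔ X.P x v = v := by
  refine ⟨?_, fun h => ⟨v, h⟩⟩
  rintro ⟨w, rfl⟩
  exact X.P_P hx w
theorem P_rho {x : W J} (hx : x ∈ X.U) (t : Fin r → ℝ) (v : W J) :
    X.P (rho X.γ t x) (rho X.γ t v) = rho X.γ t (X.P x v) := 
  X.eqvMap.fderiv_rho X.invOpen t hx v
theorem rho_mem_T {x : W J} (hx : x ∈ X.M) (t : Fin r → ℝ) {v : W J} (hv : v ∈ X.T x) :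
    rho X.γ t v ∈ X.T (rho X.γ t x) := by
  obtain ⟨w, rfl⟩ := hv
  exact ⟨rho X.γ t w, X.P_rho (X.sub hx) t w⟩
theorem gen_mem_T {x : W J} (hx : x ∈ X.M) (ξ : Fin r → ℝ) : gen X.γ ξ x ∈ X.T x := by
  have := X.eqvMap.fderiv_gen X.invOpen ξ (X.sub hx)
  rw [X.π_id x hx] at this
  exact ⟨_, this⟩
/-- the derivative of a map with values in `M` is tangent -/
theorem fderiv_mem_T {G : Type} [NormedAddCommGroup G] [NormedSpace ℝ G] {u : G → W J} {z : G}
    (hu : DifferentiableAt ℝ u z) (hM : ∀ᶠ y in 𝓝 z, u y ∈ X.M) (v : G) :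
    fderiv ℝ u z v ∈ X.T (u z) := by
  have h1 : u =ᶠ[𝓝 z] fun y => X.π (u y) := hM.mono fun y hy => (X.π_id _ hy).symm
  have h2 := ((X.differentiableAt_π (X.sub hM.self_of_nhds)).hasFDerivAt.comp z
    hu.hasFDerivAt).congr_of_eventuallyEq h1
  rw [h2.fderiv]
  exact ⟨_, rfl⟩
theorem Fix_sub_Y (Λ : AddSubgroup (Fin r → ℤ)) : X.Fix ⊆ X.Y Λ := fun x hx =>
  ⟨hx.1, fun j hj => (fixed_iff x).1 hx.2 j fun h => hj (h ▸ Λ.zero_mem)⟩
theorem Y_top : X.Y ⊤ = X.M := by
  ext x; simp [Y]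
theorem Y_mono {Λ Λ' : AddSubgroup (Fin r → ℤ)} (h : Λ ≤ Λ') : X.Y Λ ⊆ X.Y Λ' := fun _ hx =>
  ⟨hx.1, fun j hj => hx.2 j fun h' => hj (h h')⟩
theorem isCompact_Y (Λ : AddSubgroup (Fin r → ℤ)) : IsCompact (X.Y Λ) := by
  have : X.Y Λ = X.M ∩ ⋂ j, {x : W J | X.γ j ∉ Λ → x j = 0} := by
    ext x; simp [Y]
  rw [this]
  refine X.compact.inter_right (isClosed_iInter fun j => ?_)
  by_cases hj : X.γ j ∈ Λ
  · simp [hj]
  · simp only [hj, not_false_eq_true, forall_const]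
    exact isClosed_eq (by fun_prop) continuous_const
theorem π_mem_Y (Λ : AddSubgroup (Fin r → ℤ)) {y : W J} (hy : y ∈ X.U)
    (h : ∀ j, X.γ j ∉ Λ → y j = 0) : X.π y ∈ X.Y Λ := by
  refine ⟨X.π_maps hy, (fixed_sub_iff Λ _).1 fun t ht => ?_⟩
  rw [← X.π_eqv t y hy, (fixed_sub_iff Λ y).2 h t ht]
/-- segment lemma -/
theorem const_on_component (Λ : AddSubgroup (Fin r → ℤ)) {G : Type} [NormedAddCommGroup G]
    [NormedSpace ℝ G] {g : W J → G} (hg : ∀ x ∈ X.Y Λ, DifferentiableAt ℝ g x)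
    (h0 : ∀ x ∈ X.Y Λ, ∀ v ∈ X.T x, (∀ j, X.γ j ∉ Λ → v j = 0) → fderiv ℝ g x v = 0)
    {x y : W J} (hy : y ∈ connectedComponentIn (X.Y Λ) x) : g y = g x := by
  have hloc : ∀ x ∈ X.Y Λ, ∀ᶠ y in 𝓝[X.Y Λ] x, g x = g y := by
    intro x hx
    obtain ⟨ε, hε, hb⟩ := Metric.isOpen_iff.1 X.isOpen x (X.sub hx.1)
    filter_upwards [self_mem_nhdsWithin, mem_nhdsWithin_of_mem_nhds (Metric.ball_mem_nhds x hε)]
      with y hy hyb
    have hseg : ∀ s ∈ Icc (0 : ℝ) 1, x + s • (y - x) ∈ X.U := fun s hs =>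
      hb ((convex_ball x ε).add_smul_sub_mem (Metric.mem_ball_self hε) hyb hs)
    have hY : ∀ s ∈ Icc (0 : ℝ) 1, X.π (x + s • (y - x)) ∈ X.Y Λ := fun s hs =>
      X.π_mem_Y Λ (hseg s hs) fun j hj => by simp [hx.2 j hj, hy.2 j hj]
    have hder : ∀ s ∈ Icc (0 : ℝ) 1,
        HasDerivAt (fun s : ℝ => g (X.π (x + s • (y - x)))) 0 s := by
      intro s hs
      have h1 : HasDerivAt (fun s : ℝ => x + s • (y - x)) (y - x) s := by
        simpa using ((hasDerivAt_id s).smul_const (y - x)).const_add x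
      have h2 := (X.differentiableAt_π (hseg s hs)).hasFDerivAt.comp_hasDerivAt s h1
      have h3 := (hg _ (hY s hs)).hasFDerivAt.comp_hasDerivAt s h2
      rw [h0 _ (hY s hs)] at h3
      · exact h3
      · exact ⟨_, X.P_fderiv (hseg s hs) _⟩
      · refine (fixed_sub_iff Λ _).1 fun t ht => ?_
        have e1 : rho X.γ t (x + s • (y - x)) = x + s • (y - x) :=
          (fixed_sub_iff Λ _).2 (fun j hj => by simp [hx.2 j hj, hy.2 j hj]) t ht
        have e2 : rho X.γ t (y - x) = y - x :=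
          (fixed_sub_iff Λ _).2 (fun j hj => by simp [hx.2 j hj, hy.2 j hj]) t ht
        have := X.P_rho (hseg s hs) t (y - x)
        rw [e1, e2] at this
        exact this.symm
    have h4 := constant_of_has_deriv_right_zero
      (f := fun s : ℝ => g (X.π (x + s • (y - x)))) (a := 0) (b := 1)
      (fun s hs => (hder s hs).continuousAt.continuousWithinAt)
      (fun s hs => (hder s (Ico_subset_Icc_self hs)).hasDerivWithinAt) 1 (by simp)
    simpa [X.π_id _ hx.1, X.π_id _ hy.1] using h4.symm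
  have hx : x ∈ X.Y Λ := connectedComponentIn_nonempty_iff.1 ⟨y, hy⟩
  have hs := connectedComponentIn_subset (X.Y Λ) x
  refine (isPreconnected_connectedComponentIn.induction₂ (fun a b => g a = g b)
    (fun a ha => (hloc a (hs ha)).filter_mono (nhdsWithin_mono _ hs)) ?_ ?_ hy
    (mem_connectedComponentIn hx))
  · exact fun _ _ _ _ _ _ h1 h2 => h1.trans h2
  · exact fun _ _ _ _ h => h.symm
theorem IsFn.invOpen {X : Ret r J} {f : W J → ℝ} (hf : X.IsFn f) (a : ℝ) :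
    InvOpen X.γ (X.U ∩ {y | a < f y}) := by
  refine ⟨hf.smooth.continuousOn.isOpen_inter_preimage X.isOpen isOpen_Ioi, fun t y hy => ?_⟩
  exact ⟨X.inv_U t hy.1, by have := hy.2; simp only [mem_ofPred_eq] at this ⊢; rwa [hf.inv t y hy.1]⟩
theorem IsFn.fderiv_P {X : Ret r J} {f : W J → ℝ} (hf : X.IsFn f) {x : W J} (hx : x ∈ X.M)
    (v : W J) : fderiv ℝ f x (X.P x v) = fderiv ℝ f x v := by
  have hd : DifferentiableAt ℝ f x :=
    (hf.smooth.contDiffAt (X.isOpen.mem_nhds (X.sub hx))).differentiableAt (by simp)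
  have h1 : f =ᶠ[𝓝 x] fun z => f (X.π z) :=
    Filter.eventually_of_mem (X.isOpen.mem_nhds (X.sub hx)) fun z hz => (hf.fπ z hz).symm
  have hd' : DifferentiableAt ℝ f (X.π x) := by rwa [X.π_id x hx]
  have h2 := (hd'.hasFDerivAt.comp x (X.differentiableAt_π (X.sub hx)).hasFDerivAt
    ).congr_of_eventuallyEq h1
  have h3 := DFunLike.congr_fun (h2.unique hd.hasFDerivAt) v
  rw [X.π_id x hx] at h3
  exact h3
end Ret

namespace Emb
variable (X : Emb r J)

theorem isFn_mx (ξ : Fin r → ℝ) : X.IsFn (X.mx ξ) := by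
  refine ⟨?_, fun x hx => ?_, fun t x hx => ?_⟩
  · exact ContDiffOn.sum fun a _ => contDiffOn_const.mul (X.m_smooth a)
  · exact Finset.sum_congr rfl fun a _ => by rw [X.m_π a x hx]
  · exact Finset.sum_congr rfl fun a _ => by rw [X.m_inv a t x hx]
theorem om_antisymm {x : W J} (hx : x ∈ X.M) (u v : W J) : X.om x u v = -X.om x v u := by
  have h := X.om_alt x hx (u + v)
  simp only [map_add, add_apply, X.om_alt x hx] at h
  linarith
theorem om_P_right {x : W J} (hx : x ∈ X.M) (u v : W J) : X.om x u (X.P x v) = X.om x u v := by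
  rw [X.om_antisymm hx, X.om_antisymm hx u v]
  exact congrArg Neg.neg (X.om_P x hx v u)
theorem fderiv_mx (ξ : Fin r → ℝ) {x : W J} (hx : x ∈ X.M) (v : W J) :
    fderiv ℝ (X.mx ξ) x v = X.om x v (gen X.γ ξ x) := by
  have hd : ∀ a, DifferentiableAt ℝ (X.m a) x := fun a =>
    ((X.m_smooth a).contDiffAt (X.isOpen.mem_nhds (X.sub hx))).differentiableAt (by simp)
  have h : HasFDerivAt (X.mx ξ) (∑ a, ξ a • fderiv ℝ (X.m a) x) x :=
    HasFDerivAt.fun_sum fun a _ => (hd a).hasFDerivAt.const_mul (ξ a)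
  rw [h.fderiv, gen_eq_sum ξ]
  simp only [sum_apply, smul_apply, map_sum, map_smul, X.m_deriv _ x hx]
theorem mx_single (a : Fin r) (x : W J) : X.mx (Pi.single a 1) x = X.m a x := by
  classical
  simp [mx, Pi.single_apply]
/-- critical points of a generic component of the moment map -/
theorem crit_iff {ξ : Fin r → ℝ} (hξ : ∀ j, X.γ j ≠ 0 → pr (X.γ j) ξ ≠ 0) {x : W J}
    (hx : x ∈ X.M) : fderiv ℝ (X.mx ξ) x = 0 ↔ x ∈ X.Fix := by
  constructor
  · intro h
    have h1 : X.P x (gen X.γ ξ x) = 0 := X.om_nondeg x hx _ fun v => by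
      rw [X.om_antisymm hx, ← X.fderiv_mx ξ hx, h]; simp
    rw [(X.mem_T_iff hx _).1 (X.gen_mem_T hx ξ)] at h1
    refine ⟨hx, (fixed_iff x).2 fun j hj => ?_⟩
    have h2 := congrArg (fun y : W J => y j) h1
    simp only [gen_apply, PiLp.zero_apply, mul_eq_zero] at h2
    have h3 := hξ j hj
    simpa [h3, Real.pi_ne_zero] using h2
  · intro h
    have h1 : gen X.γ ξ x = 0 := by
      ext j : 1
      by_cases hj : X.γ j = 0
      · simp [gen_apply, hj, pr_zero_left]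
      · simp [gen_apply, (fixed_iff x).1 h.2 j hj]
    ext v
    rw [X.fderiv_mx ξ hx, h1]; simp
end Emb

end GK4850
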