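import Pool.Agent.Lib.MP_4850ea_gt.GK.BDefs

/-! Fourier coefficients of periodic functions, with parameters. -/

open scoped ContDiff Topology Convolution
open Set MeasureTheory

namespace GK4850.B1

variable {r : ℕ}

/-- a unit cube -/
def cube (a : Fin r → ℝ) : Set (Fin r → ℝ) := {x | ∀ i, x i ∈ Ioc (a i) (a i + 1)}

/-- a character -/
noncomputable def ch (γ : Fin r → ℤ) (t : Fin r → ℝ) : ℂ :=
  Complex.exp (2 * Real.pi * Complex.I * (pr γ t : ℝ))

/-- a Fourier coefficient -/
noncomputable def co (γ : Fin r → ℤ) (h : (Fin r → ℝ) → ℂ) : ℂ := ∫ t in cube 0, ch (-γ) t * h t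

/-- periodic functions -/
def Per (h : (Fin r → ℝ) → ℂ) : Prop := ∀ (k : Fin r → ℤ) t, h ((fun a => (k a : ℝ)) + t) = h t

theorem meas_cube (a : Fin r → ℝ) : MeasurableSet (cube a) := by
  have : cube a = Set.pi univ fun i => Ioc (a i) (a i + 1) := by
    ext x; simp [cube]
  rw [this]
  exact MeasurableSet.univ_pi fun _ => measurableSet_Ioc

theorem cont_ch (γ : Fin r → ℤ) : Continuous (ch γ) := by
  unfold ch pr
  fun_prop

theorem ch_add (γ : Fin r → ℤ) (s t : Fin r → ℝ) : ch (-γ) t = ch γ s * ch (-γ) (t + s) := by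
  rw [ch, ch, ch, ← Complex.exp_add, ← mul_add, ← Complex.ofReal_add]
  congr 3
  simp only [pr, ← Finset.sum_add_distrib]
  exact Finset.sum_congr rfl fun i _ => by simp; ring

theorem exists_lift {h : (Fin r → ℝ) → ℂ} (hp : Per h) :
    ∃ f : UnitAddTorus (Fin r) → ℂ, ∀ t : Fin r → ℝ, f (fun i => (t i : UnitAddCircle)) = h t := by
  choose rep hrep using fun y : UnitAddCircle => QuotientAddGroup.mk_surjective y
  refine ⟨fun y => h fun i => rep (y i), fun t => ?_⟩
  have : ∀ i, ∃ k : ℤ, (k : ℝ) = -t i + rep (t i : UnitAddCircle) := fun i => by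
    obtain ⟨k, hk⟩ := AddSubgroup.mem_zmultiples_iff.1
      (QuotientAddGroup.eq.1 (hrep (t i : UnitAddCircle)).symm)
    exact ⟨k, by simpa using hk⟩
  choose k hk using this
  rw [← hp k t]
  exact congrArg h (funext fun i => by simp [hk])

theorem mF (γ : Fin r → ℤ) (t : Fin r → ℝ) :
    UnitAddTorus.mFourier γ (fun i => (t i : UnitAddCircle)) = ch γ t := by
  simp only [UnitAddTorus.mFourier, ContinuousMap.coe_mk, fourier_coe_apply, ← Complex.exp_sum, ch,
    pr]
  congr 1
  push_cast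
  rw [Finset.mul_sum]
  exact Finset.sum_congr rfl fun i _ => by ring

theorem coeff_eq {f : UnitAddTorus (Fin r) → ℂ} {h : (Fin r → ℝ) → ℂ}
    (hf : ∀ t : Fin r → ℝ, f (fun i => (t i : UnitAddCircle)) = h t) (γ : Fin r → ℤ)
    (a : Fin r → ℝ) : UnitAddTorus.mFourierCoeff f γ = ∫ t in cube a, ch (-γ) t * h t := by
  rw [UnitAddTorus.mFourierCoeff_eq_integral f γ a]
  simp only [mF, hf, smul_eq_mul]
  rfl

theorem uniq {h : (Fin r → ℝ) → ℂ} (hc : Continuous h) (hp : Per h) (h0 : ∀ γ, co γ h = 0)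
    (t : Fin r → ℝ) : h t = 0 := by
  obtain ⟨f, hf⟩ := exists_lift hp
  have hq : IsOpenQuotientMap (Pi.map fun (_ : Fin r) (x : ℝ) => (x : UnitAddCircle)) :=
    IsOpenQuotientMap.piMap fun _ => QuotientAddGroup.isOpenQuotientMap_mk
  have hfc : Continuous f := hq.continuous_comp_iff.1 (by
    convert hc using 1
    exact funext hf)
  have hz : UnitAddTorus.mFourierCoeff (⟨f, hfc⟩ : C(UnitAddTorus (Fin r), ℂ)) = 0 :=
    funext fun γ => (coeff_eq hf γ 0).trans (h0 γ)
  have := UnitAddTorus.hasSum_mFourier_series_apply_of_summable (f := ⟨f, hfc⟩)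
    (by rw [hz]; exact summable_zero) fun i => (t i : UnitAddCircle)
  rw [hz] at this
  simp only [Pi.zero_apply, zero_smul] at this
  rw [← hf]
  exact this.unique hasSum_zero

theorem shift {h : (Fin r → ℝ) → ℂ} (hp : Per h) (γ : Fin r → ℤ) (s : Fin r → ℝ) :
    co γ (fun t => h (t + s)) = ch γ s * co γ h := by
  obtain ⟨f, hf⟩ := exists_lift hp
  have e : (fun t => t + s) ⁻¹' cube s = cube 0 := by
    ext x
    simp only [cube, mem_preimage, mem_setOf_eq, Pi.add_apply, mem_Ioc, Pi.zero_apply]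
    exact forall_congr' fun i => ⟨fun h => ⟨by linarith, by linarith⟩,
      fun h => ⟨by linarith, by linarith⟩⟩
  have e' := (measurePreserving_add_right volume s).setIntegral_preimage_emb
    (measurableEmbedding_addRight s) (fun t => ch (-γ) t * h t) (cube s)
  rw [co, co, ← coeff_eq hf γ 0, coeff_eq hf γ s, ← e', e, ← integral_const_mul]
  congr 1
  funext t
  rw [ch_add γ s t, mul_assoc]

theorem co_sub (γ : Fin r → ℤ) {h h' : (Fin r → ℝ) → ℂ} (hc : Continuous h)
    (hc' : Continuous h') : co γ (fun t => h t - h' t) = co γ h - co γ h' := by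
  have hi : ∀ {g : (Fin r → ℝ) → ℂ}, Continuous g →
      IntegrableOn (fun t => ch (-γ) t * g t) (cube 0) := fun hg =>
    (((cont_ch _).mul hg).continuousOn.integrableOn_compact
      (isCompact_Icc (a := 0) (b := 1))).mono_set fun x hx =>
        ⟨fun i => (hx i).1.le, fun i => by simpa using (hx i).2⟩
  simp only [co, mul_sub]
  exact integral_sub (hi hc) (hi hc')

variable {P : Type} [NormedAddCommGroup P] [NormedSpace ℝ P]

theorem fderiv_slice {G : P × (Fin r → ℝ) → ℂ} {p : P} {t : Fin r → ℝ}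
    (hG : DifferentiableAt ℝ G (p, t)) (v : P) :
    fderiv ℝ (fun q => G (q, t)) p v = fderiv ℝ G (p, t) (v, 0) := by
  exact DFunLike.congr_fun (HasFDerivAt.comp (f := fun q : P => (q, t)) p hG.hasFDerivAt
    (hasFDerivAt_prodMk_left p t)).fderiv v

theorem cont_slice {s : Set P} (hs : IsOpen s) {G : P × (Fin r → ℝ) → ℂ}
    (hG : ContDiffOn ℝ ∞ G (s ×ˢ univ)) {p : P} (hp : p ∈ s) :
    Continuous fun t => fderiv ℝ G (p, t) :=
  (hG.continuousOn_fderiv_of_isOpen (hs.prod isOpen_univ) (by simp)).comp_continuous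
    (Continuous.prodMk_right p) fun _ => ⟨hp, trivial⟩

theorem par {s : Set P} (hs : IsOpen s) {G : P × (Fin r → ℝ) → ℂ}
    (hG : ContDiffOn ℝ ∞ G (s ×ˢ univ)) (γ : Fin r → ℤ) :
    ContDiffOn ℝ ∞ (fun p => co γ fun t => G (p, t)) s ∧
      ∀ p ∈ s, ∀ v, fderiv ℝ (fun p => co γ fun t => G (p, t)) p v =
        co γ fun t => fderiv ℝ (fun q => G (q, t)) p v := by
  let χ : ContDiffBump (0 : Fin r → ℝ) := ⟨1, 2, one_pos, one_lt_two⟩
  let g : P → (Fin r → ℝ) → ℂ := fun p t => χ t • G (p, -t)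
  let f : (Fin r → ℝ) → ℂ := (cube 0).indicator (ch (-γ))
  let L : ℂ →L[ℝ] ℂ →L[ℝ] ℂ := ContinuousLinearMap.mul ℝ ℂ
  have hf : LocallyIntegrable f volume := (cont_ch _).locallyIntegrable.indicator (meas_cube 0)
  have hk : IsCompact (Metric.closedBall (0 : Fin r → ℝ) 2) := isCompact_closedBall _ _
  have hgs : ∀ p x, p ∈ s → x ∉ Metric.closedBall (0 : Fin r → ℝ) 2 → g p x = 0 :=
    fun p x _ hx => by
      rw [Metric.mem_closedBall, not_le] at hx
      simp only [g, χ.zero_of_le_dist hx.le, zero_smul]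
  have hg : ContDiffOn ℝ ∞ (↿g) (s ×ˢ univ) :=
    (χ.contDiff.comp contDiff_snd).contDiffOn.smul
      (hG.comp (contDiff_fst.prodMk contDiff_snd.neg).contDiffOn fun x hx => ⟨hx.1, trivial⟩)
  have conv : ∀ u : (Fin r → ℝ) → ℂ,
      (f ⋆[L, volume] fun t => χ t • u (-t)) 0 = co γ u := fun u => by
    rw [convolution_def, co, ← integral_indicator (meas_cube 0)]
    congr 1
    funext t
    by_cases ht : t ∈ cube 0
    · have : χ (0 - t) = 1 := χ.one_of_mem_closedBall (by
        rw [mem_closedBall_zero_iff, zero_sub, norm_neg, pi_norm_le_iff_of_nonneg χ.rIn_pos.le]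
        intro i
        have := ht i
        simp only [Pi.zero_apply, zero_add, mem_Ioc] at this
        rw [Real.norm_eq_abs, abs_of_pos this.1]
        exact this.2)
      simp only [f, indicator_of_mem ht, this, L]
      simp
    · simp [f, indicator_of_notMem ht]
  have e : (fun p => co γ fun t => G (p, t)) = fun p => (f ⋆[L, volume] g p) 0 :=
    funext fun p => (conv fun t => G (p, t)).symm
  rw [e]
  refine ⟨contDiffOn_convolution_right_with_param_comp (n := ⊤) L contDiffOn_const hs hk hgs hf hg,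
    fun p hp v => ?_⟩
  have hd := HasFDerivAt.comp (f := fun q : P => (q, (0 : Fin r → ℝ))) p
    (hasFDerivAt_convolution_right_with_param L hs hk hgs hf (hg.of_le (by simp)) (p, 0) hp)
    (hasFDerivAt_prodMk_left p (0 : Fin r → ℝ))
  have hn : ∀ t, s ×ˢ (univ : Set (Fin r → ℝ)) ∈ 𝓝 (p, t) := fun t =>
    (hs.prod isOpen_univ).mem_nhds ⟨hp, trivial⟩
  have hcs : HasCompactSupport fun x => fderiv ℝ (↿g) (p, x) :=
    HasCompactSupport.intro hk fun x hx => by
      have : (↿g) =ᶠ[𝓝 (p, x)] fun _ => 0 :=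
        Filter.mem_of_superset ((hs.prod hk.isClosed.isOpen_compl).mem_nhds ⟨hp, hx⟩)
          fun y hy => hgs y.1 y.2 hy.1 hy.2
      rw [this.fderiv_eq]
      simp
  refine (DFunLike.congr_fun hd.fderiv v).trans ?_
  rw [ContinuousLinearMap.comp_apply, convolution_precompR_apply L hf hcs (cont_slice hs hg hp),
    ← conv]
  congr 2
  funext a
  have h1 : DifferentiableAt ℝ (fun q => G (q, -a)) p :=
    ((hG.contDiffAt (hn _)).differentiableAt (by simp)).comp p
      (hasFDerivAt_prodMk_left p (-a)).differentiableAt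
  rw [ContinuousLinearMap.inl_apply,
    ← fderiv_slice ((hg.contDiffAt (hn a)).differentiableAt (by simp))]
  exact DFunLike.congr_fun (fderiv_const_smul h1 (χ a)) v

end GK4850.B1
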