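import Pool.Agent.Lib.MP_4850ea_gt.GK.StB
import Pool.Agent.Lib.MP_4850ea_gt.GK.B1_F

/-! B1: equivariant embedding in a representation. -/

open scoped Manifold ContDiff Topology NNReal
open Set

namespace GK4850

namespace B1

variable {E : Type} [NormedAddCommGroup E] [NormedSpace ℝ E] [FiniteDimensional ℝ E] {I : Type}

theorem loc {ψ : I → E → ℂ} {s : Set E} (hs : IsOpen s) (hψ : ∀ i, ContDiffOn ℝ ∞ (ψ i) s) {p₀ : E}
    (hp : p₀ ∈ s) (h0 : ∀ v, (∀ i, fderiv ℝ (ψ i) p₀ v = 0) → v = 0) :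
    ∃ S : Finset I, ∃ U ∈ 𝓝 p₀,
      (∀ p ∈ U, ∀ v, (∀ i ∈ S, fderiv ℝ (ψ i) p v = 0) → v = 0) ∧
      ∀ p ∈ U, ∀ q ∈ U, (∀ i ∈ S, ψ i p = ψ i q) → p = q := by
  classical
  let K : Finset I → Submodule ℝ E := fun S => S.inf fun i => (fderiv ℝ (ψ i) p₀).ker
  obtain ⟨_, ⟨S, rfl⟩, hmin⟩ := wellFounded_lt.has_min (range K) (range_nonempty K)
  have hS : ∀ v, (∀ i ∈ S, fderiv ℝ (ψ i) p₀ v = 0) → v = 0 := fun v hv => h0 v fun i => by
    have h1 : K (insert i S) = K S := (eq_or_lt_of_le (Finset.inf_mono (Finset.subset_insert i S)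
      )).resolve_right (hmin _ ⟨_, rfl⟩)
    have h2 : v ∈ K (insert i S) := by
      rw [h1]
      exact Submodule.mem_finsetInf.2 hv
    exact Submodule.mem_finsetInf.1 h2 i (Finset.mem_insert_self i S)
  let Ψ : E → S → ℂ := fun p i => ψ i p
  have hc : ∀ p ∈ s, ∀ i, ContDiffAt ℝ ∞ (ψ i) p := fun p hp i =>
    (hψ i).contDiffAt (hs.mem_nhds hp)
  have hΨ : ContDiffAt ℝ ∞ Ψ p₀ := contDiffAt_pi.2 fun i => hc p₀ hp i
  have hd : ∀ p ∈ s, ∀ v (i : S), fderiv ℝ Ψ p v i = fderiv ℝ (ψ i) p v := fun p hp v i => by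
    rw [(hasFDerivAt_pi.2 fun i : S =>
      ((hc p hp i).differentiableAt (by simp)).hasFDerivAt).fderiv]
    rfl
  have hinj : Function.Injective (fderiv ℝ Ψ p₀) :=
    (injective_iff_map_eq_zero _).2 fun v hv => hS v fun i hi => by
      rw [← hd p₀ hp v ⟨i, hi⟩, hv]; rfl
  obtain ⟨C, hC, hA⟩ := (fderiv ℝ Ψ p₀).injective_iff_antilipschitz.1 hinj
  obtain ⟨V, hV, hap⟩ := (hΨ.hasStrictFDerivAt (by simp)).approximates_deriv_on_nhds
    (c := C⁻¹ / 2) (Or.inr (by positivity))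
  have hW := (hΨ.continuousAt_fderiv (by simp)).eventually
    (ContinuousLinearMap.isOpen_injective.mem_nhds hinj)
  refine ⟨S, _, Filter.inter_mem (Filter.inter_mem (hs.mem_nhds hp) hV) hW, fun p hp v hv => ?_,
    fun p hp q hq h => ?_⟩
  · exact (injective_iff_map_eq_zero _).1 hp.2 v (funext fun i => (hd p hp.1.1 v i).trans (hv i i.2))
  · have h1 := hap p hp.1.2 q hq.1.2
    have h2 : ‖p - q‖ ≤ C * ‖fderiv ℝ Ψ p₀ (p - q)‖ := ZeroHomClass.bound_of_antilipschitz _ hA _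
    rw [show Ψ p = Ψ q from funext fun i => h i i.2, sub_self, zero_sub, norm_neg] at h1
    have hC' : (0 : ℝ) < C := hC
    have h3 : (C : ℝ) * (((C⁻¹ / 2 : ℝ≥0) : ℝ) * ‖p - q‖) = ‖p - q‖ / 2 := by
      push_cast
      field_simp
    have h4 := h2.trans (mul_le_mul_of_nonneg_left h1 hC'.le)
    rw [h3] at h4
    exact sub_eq_zero.1 (norm_le_zero_iff.1 (by linarith))

variable {M : Type} [TopologicalSpace M] [ChartedSpace E M] [IsManifold 𝓘(ℝ, E) ∞ M]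

omit [FiniteDimensional ℝ E] in
theorem chart_smooth {F : Type} [NormedAddCommGroup F] [NormedSpace ℝ F] {φ : M → F}
    (hφ : ContMDiff 𝓘(ℝ, E) 𝓘(ℝ, F) ∞ φ) (x₀ : M) :
    ContDiffOn ℝ ∞ (φ ∘ (extChartAt 𝓘(ℝ, E) x₀).symm) (extChartAt 𝓘(ℝ, E) x₀).target :=
  contMDiffOn_iff_contDiffOn.1 (hφ.comp_contMDiffOn (contMDiffOn_extChartAt_symm x₀))

omit [FiniteDimensional ℝ E] in
theorem chart_deriv {F : Type} [NormedAddCommGroup F] [NormedSpace ℝ F] {φ : M → F}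
    (hφ : ContMDiff 𝓘(ℝ, E) 𝓘(ℝ, F) ∞ φ) {x₀ x : M} (hx : x ∈ (extChartAt 𝓘(ℝ, E) x₀).source)
    (v : TangentSpace 𝓘(ℝ, E) x) :
    (mfderiv 𝓘(ℝ, E) 𝓘(ℝ, F) φ x v : F) =
      fderiv ℝ (φ ∘ (extChartAt 𝓘(ℝ, E) x₀).symm) (extChartAt 𝓘(ℝ, E) x₀ x)
        (mfderiv 𝓘(ℝ, E) 𝓘(ℝ, E) (extChartAt 𝓘(ℝ, E) x₀) x v) := by
  have e : φ =ᶠ[𝓝 x] (φ ∘ (extChartAt 𝓘(ℝ, E) x₀).symm) ∘ extChartAt 𝓘(ℝ, E) x₀ :=
    Filter.mem_of_superset ((isOpen_extChartAt_source x₀).mem_nhds hx) fun y hy =>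
      congrArg φ ((extChartAt 𝓘(ℝ, E) x₀).left_inv hy).symm
  have h1 := ((chart_smooth hφ x₀).contDiffAt ((isOpen_extChartAt_target x₀).mem_nhds
    ((extChartAt 𝓘(ℝ, E) x₀).map_source hx))).differentiableAt (by simp)
  have h2 : MDifferentiableAt 𝓘(ℝ, E) 𝓘(ℝ, E) (extChartAt 𝓘(ℝ, E) x₀) x :=
    mdifferentiableAt_extChartAt (by simpa using hx)
  have h3 := mfderiv_comp x h1.mdifferentiableAt h2
  rw [mfderiv_eq_fderiv] at h3
  exact (DFunLike.congr_fun e.mfderiv_eq v).trans (DFunLike.congr_fun h3 v)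

theorem fin_sel [T2Space M] [CompactSpace M] {φ : I → M → ℂ}
    (hφ : ∀ i, ContMDiff 𝓘(ℝ, E) 𝓘(ℝ, ℂ) ∞ (φ i)) (h1 : ∀ x y, (∀ i, φ i x = φ i y) → x = y)
    (h2 : ∀ (x : M) (v : E), (∀ i, fderiv ℝ (φ i ∘ (extChartAt 𝓘(ℝ, E) x).symm)
      (extChartAt 𝓘(ℝ, E) x x) v = 0) → v = 0) :
    ∃ S : Finset I, (∀ x y, (∀ i ∈ S, φ i x = φ i y) → x = y) ∧
      ∀ x v, (∀ i ∈ S, (mfderiv 𝓘(ℝ, E) 𝓘(ℝ, ℂ) (φ i) x v : ℂ) = 0) → v = 0 := by
  classical
  have key : ∀ x₀ : M, ∃ S : Finset I, ∃ U : Set M, IsOpen U ∧ x₀ ∈ U ∧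
      (∀ x ∈ U, ∀ v, (∀ i ∈ S, (mfderiv 𝓘(ℝ, E) 𝓘(ℝ, ℂ) (φ i) x v : ℂ) = 0) → v = 0) ∧
      ∀ x ∈ U, ∀ y ∈ U, (∀ i ∈ S, φ i x = φ i y) → x = y := fun x₀ => by
    obtain ⟨S, U, hU, a, b⟩ := loc (isOpen_extChartAt_target x₀) (fun i => chart_smooth (hφ i) x₀)
      (mem_extChartAt_target x₀) (h2 x₀)
    obtain ⟨V, hV, ho, hx⟩ := mem_nhds_iff.1 (Filter.inter_mem
      (extChartAt_source_mem_nhds (I := 𝓘(ℝ, E)) x₀)
      ((continuousAt_extChartAt (I := 𝓘(ℝ, E)) x₀).preimage_mem_nhds hU))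
    refine ⟨S, V, ho, hx, fun x hx v hv => ?_, fun x hx y hy h => ?_⟩
    · have := a _ (hV hx).2 _ fun i hi => (chart_deriv (hφ i) (hV hx).1 v).symm.trans (hv i hi)
      exact (injective_iff_map_eq_zero _).1 (isInvertible_mfderiv_extChartAt (hV hx).1).injective
        v this
    · refine (extChartAt 𝓘(ℝ, E) x₀).injOn (hV hx).1 (hV hy).1
        (b _ (hV hx).2 _ (hV hy).2 fun i hi => ?_)
      simp only [Function.comp, (extChartAt 𝓘(ℝ, E) x₀).left_inv (hV hx).1,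
        (extChartAt 𝓘(ℝ, E) x₀).left_inv (hV hy).1, h i hi]
  choose S U ho hx a b using key
  obtain ⟨T, hT⟩ := isCompact_univ.elim_finite_subcover U ho fun x _ => mem_iUnion.2 ⟨x, hx x⟩
  have hK : IsCompact (⋃ z : T, U z ×ˢ U z)ᶜ :=
    (isOpen_iUnion fun z : T => (ho z).prod (ho z)).isClosed_compl.isCompact
  obtain ⟨T', hT'⟩ := hK.elim_finite_subcover (fun i => {z : M × M | φ i z.1 ≠ φ i z.2})
    (fun i => isOpen_ne_fun ((hφ i).continuous.comp continuous_fst)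
      ((hφ i).continuous.comp continuous_snd)) fun z hz => by
        by_contra hc
        simp only [mem_iUnion, mem_setOf_eq, not_exists, not_not] at hc
        have := h1 _ _ hc
        obtain ⟨w, hw, hw'⟩ := mem_iUnion₂.1 (hT (mem_univ z.1))
        exact hz (mem_iUnion.2 ⟨⟨w, hw⟩, hw', this ▸ hw'⟩)
  refine ⟨T.biUnion S ∪ T', fun x y h => ?_, fun x v h => ?_⟩
  · by_cases hz : (x, y) ∈ ⋃ z : T, U z ×ˢ U z
    · obtain ⟨z, hz⟩ := mem_iUnion.1 hz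
      exact b z x hz.1 y hz.2 fun i hi =>
        h i (Finset.mem_union_left _ (Finset.mem_biUnion.2 ⟨z, z.2, hi⟩))
    · obtain ⟨i, hi, hne⟩ := mem_iUnion₂.1 (hT' hz)
      exact absurd (h i (Finset.mem_union_right _ hi)) hne
  · obtain ⟨z, hz, hz'⟩ := mem_iUnion₂.1 (hT (mem_univ x))
    exact a z x hz' v fun i hi => h i (Finset.mem_union_left _ (Finset.mem_biUnion.2 ⟨z, hz, hi⟩))

variable {r : ℕ} (H : HamAction r E M) {f : M → ℂ}

/-- an isotypic component of a function -/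
noncomputable def av (γ : Fin r → ℤ) (f : M → ℂ) (x : M) : ℂ := co γ fun t => f (H.act t x)

omit [FiniteDimensional ℝ E]

theorem Gsm (hf : ContMDiff 𝓘(ℝ, E) 𝓘(ℝ, ℂ) ∞ f) (x₀ : M) :
    ContDiffOn ℝ ∞
      (fun z : E × (Fin r → ℝ) => f (H.act z.2 ((extChartAt 𝓘(ℝ, E) x₀).symm z.1)))
      ((extChartAt 𝓘(ℝ, E) x₀).target ×ˢ univ) :=
  contMDiffOn_iff_contDiffOn.1 ((hf.comp H.act_smooth).comp_contMDiffOn
    (contDiff_snd.contMDiff.contMDiffOn.prodMk ((contMDiffOn_extChartAt_symm x₀).comp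
      contDiff_fst.contMDiff.contMDiffOn fun _ hz => hz.1)))

theorem av_smooth (hf : ContMDiff 𝓘(ℝ, E) 𝓘(ℝ, ℂ) ∞ f) (γ : Fin r → ℤ) :
    ContMDiff 𝓘(ℝ, E) 𝓘(ℝ, ℂ) ∞ (av H γ f) := fun x₀ => by
  have e : av H γ f =ᶠ[𝓝 x₀]
      (av H γ f ∘ (extChartAt 𝓘(ℝ, E) x₀).symm) ∘ extChartAt 𝓘(ℝ, E) x₀ :=
    Filter.mem_of_superset (extChartAt_source_mem_nhds (I := 𝓘(ℝ, E)) x₀) fun y hy =>
      congrArg (av H γ f) ((extChartAt 𝓘(ℝ, E) x₀).left_inv hy).symm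
  exact ((((par (isOpen_extChartAt_target x₀) (Gsm H hf x₀) γ).1.contDiffAt
    (extChartAt_target_mem_nhds x₀)).contMDiffAt.comp x₀
      contMDiffAt_extChartAt).congr_of_eventuallyEq e)

theorem per (f : M → ℂ) (x : M) : Per fun t => f (H.act t x) := fun k t => by
  simp only [H.act_add, H.act_int]

theorem av_pt (hf : ContMDiff 𝓘(ℝ, E) 𝓘(ℝ, ℂ) ∞ f) {x y : M}
    (h : ∀ γ, av H γ f x = av H γ f y) : f x = f y := by
  have hc : ∀ x, Continuous fun t => f (H.act t x) := fun x =>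
    (hf.comp H.act_smooth).continuous.comp (Continuous.prodMk_left x)
  have := uniq (h := fun t => f (H.act t x) - f (H.act t y)) ((hc x).sub (hc y))
    (fun k t => by simp only [H.act_add, H.act_int])
    (fun γ => (co_sub γ (hc x) (hc y)).trans (sub_eq_zero.2 (h γ))) 0
  simpa only [H.act_zero, sub_eq_zero] using this

theorem av_tan (hf : ContMDiff 𝓘(ℝ, E) 𝓘(ℝ, ℂ) ∞ f) {x : M} {v : E}
    (h : ∀ γ, fderiv ℝ (av H γ f ∘ (extChartAt 𝓘(ℝ, E) x).symm) (extChartAt 𝓘(ℝ, E) x x) v = 0) :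
    fderiv ℝ (f ∘ (extChartAt 𝓘(ℝ, E) x).symm) (extChartAt 𝓘(ℝ, E) x x) v = 0 := by
  have ho := isOpen_extChartAt_target (I := 𝓘(ℝ, E)) x
  have hp := mem_extChartAt_target (I := 𝓘(ℝ, E)) x
  have hG := Gsm H hf x
  have hc : Continuous fun t => fderiv ℝ
      (fun q => f (H.act t ((extChartAt 𝓘(ℝ, E) x).symm q))) (extChartAt 𝓘(ℝ, E) x x) v := by
    refine ((cont_slice ho hG hp).clm_apply (continuous_const (y := (v, 0)))).congr fun t => ?_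
    exact (fderiv_slice ((hG.contDiffAt ((ho.prod isOpen_univ).mem_nhds
      ⟨hp, trivial⟩)).differentiableAt (by simp)) v).symm
  have := uniq hc (fun k t => by simp only [H.act_add, H.act_int])
    (fun γ => ((par ho hG γ).2 _ hp v).symm.trans (h γ)) 0
  simp only [H.act_zero] at this
  exact this

theorem av_act (γ : Fin r → ℤ) (f : M → ℂ) (t : Fin r → ℝ) (x : M) :
    av H γ f (H.act t x) = ch γ t * av H γ f x := by
  rw [av, av, ← shift (per H f x) γ t]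
  simp only [H.act_add]

end B1

open B1 in
theorem b1 : B1St := by
  intro r E _ _ _ M _ _ _ _ _ H
  obtain ⟨n, ι, hι, hemb, hinj⟩ := exists_embedding_euclidean_of_compact (I := 𝓘(ℝ, E)) (M := M)
  let L : Fin n → EuclideanSpace ℝ (Fin n) →L[ℝ] ℂ := fun j =>
    Complex.ofRealCLM.comp (EuclideanSpace.proj j)
  have hL : ∀ w, (∀ j, L j w = 0) → w = 0 := fun w hw => by
    ext j
    simpa [L] using hw j
  have hf : ∀ j, ContMDiff 𝓘(ℝ, E) 𝓘(ℝ, ℂ) ∞ (L j ∘ ι) := fun j =>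
    (L j).contDiff.contMDiff.comp hι
  have hφ : ∀ i : (Fin r → ℤ) × Fin n, ContMDiff 𝓘(ℝ, E) 𝓘(ℝ, ℂ) ∞ (av H i.1 (L i.2 ∘ ι)) :=
    fun i => av_smooth H (hf i.2) i.1
  obtain ⟨S, h1, h2⟩ := fin_sel hφ (fun x y h => hemb.injective (sub_eq_zero.1 (hL _ fun j => by
      rw [map_sub, sub_eq_zero]
      exact av_pt H (hf j) fun γ => h (γ, j)))) fun x v h => by
    have hs := mem_extChartAt_source (I := 𝓘(ℝ, E)) x
    obtain ⟨w, rfl⟩ := (isInvertible_mfderiv_extChartAt hs).surjective v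
    have hd := ((chart_smooth hι x).contDiffAt (extChartAt_target_mem_nhds x)).differentiableAt
      (by simp)
    have : w = 0 := (injective_iff_map_eq_zero _).1 (hinj x) w ((chart_deriv hι hs w).trans
      (hL _ fun j => (DFunLike.congr_fun ((L j).hasFDerivAt.comp _ hd.hasFDerivAt).fderiv
        _).symm.trans (av_tan H (hf j) fun γ => h (γ, j))))
    rw [this]
    exact map_zero _
  let e : Fin S.card → (Fin r → ℤ) × Fin n := fun k => S.equivFin.symm k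
  let Φ : M → W (Fin S.card) := fun x => WithLp.toLp 2 fun k => av H (e k).1 (L (e k).2 ∘ ι) x
  have hΦ : ContMDiff 𝓘(ℝ, E) 𝓘(ℝ, W (Fin S.card)) ∞ Φ :=
    (PiLp.continuousLinearEquiv 2 ℝ fun _ : Fin S.card => ℂ).symm.contDiff.contMDiff.comp
      (contMDiff_pi_space.2 fun k => hφ (e k))
  have he : ∀ i ∈ S, ∃ k, e k = i := fun i hi => ⟨S.equivFin ⟨i, hi⟩, by simp [e]⟩
  refine ⟨S.card, fun k => (e k).1, Φ, hΦ, fun x y h => h1 x y fun i hi => ?_,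
    fun x => (injective_iff_map_eq_zero _).2 fun v hv => h2 x v fun i hi => ?_, fun t x => ?_⟩
  · obtain ⟨k, rfl⟩ := he i hi
    exact congrArg (fun z : W (Fin S.card) => z k) h
  · obtain ⟨k, rfl⟩ := he i hi
    let Q : W (Fin S.card) →L[ℝ] ℂ := PiLp.proj 2 (fun _ : Fin S.card => ℂ) k
    have h3 := mfderiv_comp x (Q.mdifferentiableAt (x := Φ x)) (hΦ.mdifferentiableAt (by simp))
    rw [Q.mfderiv_eq] at h3
    exact (DFunLike.congr_fun h3 v).trans ((congrArg Q hv).trans (map_zero Q))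
  · ext k
    exact av_act H _ _ t x

end GK4850
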