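import Pool.Agent.Lib.MP_4850ea_gt.GK.StB
import Pool.Agent.Lib.MP_4850ea_gt.GK.B0

/-! B10: monotonicity at the fixed points. -/

open scoped ContDiff Topology
open Set

namespace GK4850

variable {r n : ℕ} {J : Type} [Fintype J] {X : Emb r J} {A : ACS X} {p : W J}

theorem WFrame.inj (fr : WFrame X p (Fin n)) : Function.Injective fr.κ :=
  (injective_iff_map_eq_zero _).2 fun v h => by
    have := fr.norm_κ v
    rw [h, norm_zero] at this
    exact norm_eq_zero.1 this.symm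

theorem WFrame.cframe (fr : WFrame X p (Fin n))
    (h : ∀ v, A.Jm p (fr.κ v) = fr.κ (Complex.I • v)) : IsCFrame A p
      (fr.κ.comp (PiLp.continuousLinearEquiv 2 ℝ fun _ : Fin n => ℂ).symm.toContinuousLinearMap) :=
  ⟨fr.inj.comp (PiLp.continuousLinearEquiv 2 ℝ fun _ : Fin n => ℂ).symm.injective, by
    rw [← fr.range_κ]
    ext v
    exact ⟨fun ⟨a, k⟩ => ⟨_, k⟩, fun ⟨a, k⟩ => ⟨WithLp.ofLp a, k⟩⟩, fun a => (h _).symm⟩

/-- the action on a complex frame at a fixed point -/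
theorem WFrame.wind (fr : WFrame X p (Fin n))
    (h : ∀ v, A.Jm p (fr.κ v) = fr.κ (Complex.I • v)) {F : (Fin n → ℂ) →L[ℝ] W J}
    (hF : IsCFrame A p F) (a : Fin r) : ∃ B : ℝ → Matrix (Fin n) (Fin n) ℂ,
      (∀ θ v, rho X.γ (θ • Pi.single a 1) (F v) = F ((B θ).mulVec v)) ∧
      ∀ θ : ℝ, Complex.exp (2 * Real.pi * Complex.I * (θ * (∑ i, fr.α i a : ℤ))) = (B θ).det := by
  have ex : ∀ v, ∃ w : Fin n → ℂ, fr.κ (WithLp.toLp 2 w) = F v := fun v => by
    have : F v ∈ LinearMap.range fr.κ.toLinearMap := by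
      rw [fr.range_κ, ← hF.range]
      exact ⟨v, rfl⟩
    obtain ⟨w, k⟩ := this
    exact ⟨WithLp.ofLp w, k⟩
  choose c hc using ex
  have inj : ∀ w w' : Fin n → ℂ, fr.κ (WithLp.toLp 2 w) = fr.κ (WithLp.toLp 2 w') → w = w' :=
    fun w w' k => congrArg WithLp.ofLp (fr.inj k)
  have ad : ∀ v w, c (v + w) = c v + c w := fun v w => inj _ _ (by
    rw [hc, WithLp.toLp_add, map_add, map_add, hc, hc])
  have sr : ∀ (s : ℝ) v, c (s • v) = s • c v := fun s v => inj _ _ (by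
    rw [hc, WithLp.toLp_smul, map_smul, map_smul, hc])
  have sI : ∀ v, c (Complex.I • v) = Complex.I • c v := fun v => inj _ _ (by
    rw [hc, WithLp.toLp_smul, ← h, hc, hF.cx])
  have sc : ∀ (z : ℂ) (w : Fin n → ℂ), z • w = z.re • w + z.im • Complex.I • w := fun z w => by
    conv_lhs => rw [← Complex.re_add_im z]
    rw [add_smul, mul_smul]
    rfl
  let C : (Fin n → ℂ) →ₗ[ℂ] (Fin n → ℂ) :=
    { toFun := c, map_add' := ad
      map_smul' := fun z v => by rw [sc, ad, sr, sr, sI, RingHom.id_apply, sc z (c v)] }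
  have ci : Function.Injective (LinearMap.toMatrix' C).mulVec := fun v w k => by
    rw [LinearMap.toMatrix'_mulVec, LinearMap.toMatrix'_mulVec] at k
    exact hF.inj (by rw [← hc, ← hc]; exact congrArg (fun x => fr.κ (WithLp.toLp 2 x)) k)
  have u : IsUnit (LinearMap.toMatrix' C).det :=
    (Matrix.isUnit_iff_isUnit_det _).1 (Matrix.mulVec_injective_iff_isUnit.1 ci)
  refine ⟨fun θ => (LinearMap.toMatrix' C)⁻¹ * (Matrix.diagonal fun i => Complex.exp
    (2 * Real.pi * Complex.I * (pr (fr.α i) (θ • Pi.single a 1) : ℝ))) * LinearMap.toMatrix' C,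
    fun θ v => ?_, fun θ => ?_⟩
  · rw [← hc, ← hc, ← fr.eqv]
    congr 1
    change _ = WithLp.toLp 2 (C _)
    beta_reduce
    rw [← LinearMap.toMatrix'_mulVec C, Matrix.mulVec_mulVec, Matrix.mul_assoc,
      Matrix.mul_nonsing_inv_cancel_left _ _ u, ← Matrix.mulVec_mulVec, LinearMap.toMatrix'_mulVec]
    ext i
    rw [rho_apply, PiLp.toLp_apply, PiLp.toLp_apply, Matrix.mulVec_diagonal]
    rfl
  · rw [Matrix.det_conj' ((Matrix.isUnit_iff_isUnit_det _).2 u), Matrix.det_diagonal,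
      ← Complex.exp_sum]
    simp only [pr_smul_right, pr_single]
    push_cast
    rw [Finset.mul_sum, Finset.mul_sum]

theorem rho_single_one (γ : J → Fin r → ℤ) (a : Fin r) (θ : ℝ) :
    rho γ ((θ + 1) • Pi.single a 1) = rho γ (θ • Pi.single a 1) := by
  have : (Pi.single a 1 : Fin r → ℝ) = fun b => ((Pi.single a 1 : Fin r → ℤ) b : ℝ) := by
    ext b
    by_cases e : b = a <;> simp [e]
  rw [add_smul, one_smul, rho_add]
  nth_rewrite 2 [this]
  rw [rho_int, ContinuousLinearMap.comp_id]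

theorem b10 (h9b : B9bSt) (h10p : B10pSt) : B10St := by
  intro r n J _ X Fr lam h p q hp hq a
  obtain ⟨A, hA⟩ := h9b r n J X Fr
  obtain ⟨c, F, c1, c2, c3, c4, F1, F2⟩ := h10p r n J X A h.conn p hp.1 q hq.1 _
    ((Fr.fr p hp).cframe (hA p hp))
  obtain ⟨B0, b1, b2⟩ := (Fr.fr p hp).wind (hA p hp) (c3 0 le_rfl ▸ F2 0 (by simp)) a
  obtain ⟨B1, b3, b4⟩ := (Fr.fr q hq).wind (hA q hq) (c4 1 le_rfl ▸ F2 1 (by simp)) a
  set ξ : Fin r → ℝ := Pi.single a 1 with hξ
  have s1 : ContDiff ℝ ∞ fun x : ℝ × ℝ => rho X.γ (x.2 • ξ) :=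
    contDiff_rho.comp (contDiff_snd.smul contDiff_const)
  have s2 : ContDiff ℝ ∞ fun x : ℝ × ℝ => rho X.γ (x.2 • ξ) (c x.1) :=
    s1.clm_apply (c1.comp contDiff_fst)
  have z : ∀ v, rho X.γ ((0 : ℝ) • ξ) v = v := fun v => by rw [zero_smul, rho_zero]; rfl
  have dc := c1.differentiable (by simp)
  have s3 : ContDiff ℝ ∞ fun s => X.m a (c s) :=
    (X.m_smooth a).comp_contDiff c1 fun s => X.sub (c2 s)
  have k := h.mono (fun x => rho X.γ (x.2 • ξ) (c x.1)) p q
    (fun x => (rho X.γ (x.2 • ξ)).comp (F x.1)) B0 B1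
    (fun θ => 2 * Real.pi * Complex.I * (θ * (∑ i, (Fr.fr p hp).α i a : ℤ)))
    (fun θ => 2 * Real.pi * Complex.I * (θ * (∑ i, (Fr.fr q hq).α i a : ℤ))) s2
    (fun x => X.inv_M _ (c2 _)) (fun s θ => by rw [hξ, rho_single_one])
    (fun s θ k => by rw [c3 s k, hp.2]) (fun s θ k => by rw [c4 s k, hq.2])
    (s1.continuous.continuousOn.clm_comp (F1.comp continuousOn_fst fun x k => k.1))
    (fun s k θ v => X.rho_mem_T (c2 s) _ ((F2 s k).range ▸ ⟨v, rfl⟩))
    (fun s θ => by rw [hξ, rho_single_one])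
    (fun s k θ v v0 => by
      simp only [ContinuousLinearMap.comp_apply]
      rw [X.om_inv _ _ (c2 s), (F2 s k).cx]
      exact A.tame _ (c2 s) _ ((F2 s k).range ▸ ⟨v, rfl⟩)
        fun e => v0 ((F2 s k).inj (e.trans (map_zero _).symm)))
    (fun θ v => by simp only [ContinuousLinearMap.comp_apply]; rw [z, b1])
    (fun θ v => by simp only [ContinuousLinearMap.comp_apply]; rw [z, b3])
    (by fun_prop) (by fun_prop) b2 b4
  have e : ∀ s θ : ℝ, X.om (rho X.γ (θ • ξ) (c s))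
      (fderiv ℝ (fun x : ℝ × ℝ => rho X.γ (x.2 • ξ) (c x.1)) (s, θ) (1, 0))
      (fderiv ℝ (fun x : ℝ × ℝ => rho X.γ (x.2 • ξ) (c x.1)) (s, θ) (0, 1)) =
      deriv (fun s => X.m a (c s)) s := fun s θ => by
    have d := (s2.differentiable (by simp) (s, θ)).hasFDerivAt
    have d1 := (d.comp_hasDerivAt s ((hasDerivAt_id s).prodMk (hasDerivAt_const s θ))).unique
      ((rho X.γ (θ • ξ)).hasFDerivAt.comp_hasDerivAt s (dc s).hasDerivAt)
    have d2 := (d.comp_hasDerivAt θ ((hasDerivAt_const θ s).prodMk (hasDerivAt_id θ))).unique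
      (hasDerivAt_rho ξ (c s) θ)
    rw [d1, d2, gen_rho, X.om_inv _ _ (c2 s), ← X.m_deriv a _ (c2 s)]
    exact ((((X.m_smooth a).contDiffAt (X.isOpen.mem_nhds (X.sub (c2 s)))).differentiableAt
      (by simp)).hasFDerivAt.comp_hasDerivAt s (dc s).hasDerivAt).deriv.symm
  simp only [e, intervalIntegral.integral_const, sub_zero, one_smul] at k
  rw [intervalIntegral.integral_deriv_eq_sub (fun s _ => s3.differentiable (by simp) s)
    ((s3.continuous_deriv (by simp)).intervalIntegrable _ _), c3 0 le_rfl, c4 1 le_rfl] at k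
  have n0 : (2 * Real.pi * Complex.I : ℂ) ≠ 0 := Complex.two_pi_I_ne_zero
  apply Complex.ofReal_injective
  apply mul_left_cancel₀ n0
  rw [← k]
  push_cast
  ring

end GK4850
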