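import Pool.Agent.Lib.MP_4850ea_gt.GK.StB
import Pool.Agent.Lib.MP_4850ea_gt.GK.B0

/-! B11: the GKM graph with its Morse package. -/

open Set

namespace GK4850

variable {r n : ℕ} {J : Type} [Fintype J] {X : Emb r J}

theorem Frames.exists_gen (Fr : Frames X n) (hf : X.Fix.Finite) (η : Fin r → ℝ) :
    ∃ ξ, Fr.Generic ξ ∧
      ∀ p (hp : p ∈ X.Fix) i, 0 < pr ((Fr.fr p hp).α i) η → 0 < pr ((Fr.fr p hp).α i) ξ := by
  classical
  have : Fintype X.Fix := hf.fintype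
  obtain ⟨ξ, a, b⟩ := exists_generic (Finset.univ.image X.γ ∪
    Finset.univ.image fun e : X.Fix × Fin n => (Fr.fr _ e.1.2).α e.2) η
  have m : ∀ p (hp : p ∈ X.Fix) i, (Fr.fr p hp).α i ∈ Finset.univ.image X.γ ∪
      Finset.univ.image fun e : X.Fix × Fin n => (Fr.fr _ e.1.2).α e.2 := fun p hp i =>
    Finset.mem_union_right _ (Finset.mem_image.2 ⟨(⟨p, hp⟩, i), Finset.mem_univ _, rfl⟩)
  exact ⟨ξ, ⟨fun j => a _ (Finset.mem_union_left _ (Finset.mem_image_of_mem _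
    (Finset.mem_univ j))), fun p hp i => a _ (m p hp i) ((Fr.fr p hp).ne_zero i)⟩,
    fun p hp i => b _ (m p hp i)⟩

theorem Edges.asc {Fr : Frames X n} (Ed : Edges Fr) {ξ : Fin r → ℝ} (e : X.Fix × Fin n)
    (h : 0 < pr ((Fr.fr _ e.1.2).α e.2) ξ) : X.mx ξ e.1 < X.mx ξ (Ed.rev e).1 := by
  obtain ⟨c, c0, k⟩ := Ed.mom e
  have := k ξ
  have := mul_pos c0 h
  linarith

theorem Edges.conn {Fr : Frames X n} (Ed : Edges Fr) (hf : X.Fix.Finite) (hc : IsPreconnected X.M)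
    (hT : Fr.ThomPoly) (p q : X.Fix) :
    Relation.ReflTransGen (fun p q => ∃ i, (Ed.rev (p, i)).1 = q) p q := by
  classical
  have : Finite X.Fix := hf
  obtain ⟨ξ, hξ, -⟩ := Fr.exists_gen hf 0
  obtain ⟨o, oi, om, hτ⟩ := hT ⊤ ξ hξ
  have : Nonempty X.Fix := ⟨p⟩
  obtain ⟨top, ht⟩ := Finite.exists_max (α := X.Fix) fun x => o x
  have up : ∀ x : X.Fix, x ≠ top → ∃ i, o x < o (Ed.rev (x, i)).1 := fun x ne => by
    by_contra k
    obtain ⟨τ, -, t1, t2, t3⟩ := hτ x x.2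
    rw [Finset.filter_false_of_mem fun i _ h => k ⟨i, om _ x.2 _ (Ed.rev (x, i)).1.2
      (Ed.asc (x, i) h.1)⟩, Finset.prod_empty] at t2
    have := t1 x x.2 top top.2 (by
      rw [X.Y_top]
      exact hc.subset_connectedComponentIn x.2.1 Subset.rfl top.2.1)
    rw [t2, t3 top top.2 (lt_of_le_of_ne (ht x) fun e => ne (Subtype.ext (oi x.2 top.2 e)))]
      at this
    simp at this
  have key : ∀ x : X.Fix,
      Relation.ReflTransGen (fun p q => ∃ i, (Ed.rev (p, i)).1 = q) x top := fun x => by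
    induction x using (@Finite.wellFounded_of_trans_of_irrefl _ _
      (fun a b : X.Fix => o b < o a) ⟨fun _ _ _ a b => b.trans a⟩
      ⟨fun _ => lt_irrefl _⟩).induction with
    | _ x ih =>
      by_cases e : x = top
      · rw [e]
      · obtain ⟨i, k⟩ := up x e
        exact .head ⟨i, rfl⟩ (ih _ k)
  have : Std.Symm fun p q : X.Fix => ∃ i, (Ed.rev (p, i)).1 = q := ⟨by
    rintro a b ⟨i, rfl⟩
    exact ⟨(Ed.rev (a, i)).2, by rw [Prod.mk.eta, Ed.rev_rev]⟩⟩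
  exact (key p).trans (Relation.ReflTransGen.stdSymm.symm _ _ (key q))

theorem b11 (h4a : B4aSt) (h9a : B9aSt) (h9c : B9cSt) (h9e : B9eSt) (h10 : B10St) : B11St := by
  intro r n J _ X lam h
  obtain ⟨Fr⟩ := h4a r n J X h.gkm
  obtain ⟨Ed⟩ := h9e r n J X Fr h.fin
  have hT := h9a r n J X Fr h.fin
  refine ⟨⟨fun e => (Fr.fr _ e.1.2).α e.2, Ed.rev, Ed.rev_rev, Ed.α_rev,
    fun e => (Fr.fr _ e.1.2).ne_zero e.2, fun p => Fr.indep p p.2,
    Ed.conn h.fin h.conn hT⟩, ⟨fun e => ?_, fun e => ?_⟩, fun Λ a => ?_⟩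
  · obtain ⟨σ, k⟩ := h9c r n J X Fr _ _ _ e.1.2 (Ed.rev e).1.2 (Ed.comp e)
    refine ⟨σ, fun j => ?_⟩
    obtain ⟨c, hc⟩ := AddSubgroup.mem_zmultiples_iff.1 (k j)
    exact ⟨-c, by rw [neg_smul, sub_neg_eq_add, hc]; exact (add_sub_cancel _ _).symm⟩
  · obtain ⟨c, c0, k⟩ := Ed.mom e
    refine ⟨lam * c, mul_pos h.lam_pos c0, fun a => ?_⟩
    have := k (Pi.single a 1)
    rw [X.mx_single, X.mx_single, pr_single] at this
    rw [mul_assoc, ← this]
    exact h10 r n J X Fr lam h _ _ e.1.2 (Ed.rev e).1.2 a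
  obtain ⟨ξ, hξ, hη⟩ := Fr.exists_gen h.fin fun i => (a (Pi.single i 1) : ℝ)
  obtain ⟨o, oi, om, hτ⟩ := hT Λ ξ hξ
  refine ⟨fun e => 0 < pr ((Fr.fr _ e.1.2).α e.2) ξ, fun p => o p, fun e => ?_, fun e k => ?_,
    fun p q k => Subtype.ext (oi p.2 q.2 k),
    fun e k => om _ e.1.2 _ (Ed.rev e).1.2 (Ed.asc e k), fun p => ?_⟩
  · have := hξ.2 _ e.1.2 e.2
    dsimp only
    rw [Ed.α_rev, pr_neg_left, neg_pos, not_lt]
    exact ⟨le_of_lt, fun k => lt_of_le_of_ne k this⟩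
  · refine hη _ e.1.2 e.2 ?_
    have : ∀ β : Fin r → ℤ, pr β (fun i => (a (Pi.single i 1) : ℝ)) = a β := fun β => by
      conv_rhs => rw [← Finset.univ_sum_single β, map_sum]
      push_cast
      refine Finset.sum_congr rfl fun i _ => ?_
      rw [show (Pi.single i (β i) : Fin r → ℤ) = β i • Pi.single i 1 by
        rw [← Pi.single_smul, smul_eq_mul, mul_one], map_zsmul]
      simp
    rw [this]
    exact_mod_cast k
  · obtain ⟨τ, t1, -, t2, t3⟩ := hτ p p.2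
    exact ⟨fun x => τ x, fun e k => t1 _ k _ e.1.2 _ (Ed.rev e).1.2 (Ed.comp e),
      by convert t2, fun q k => t3 q q.2 k⟩

end GK4850
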