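import Pool.Agent.Lib.MP_4850ea_gt.GK.StB

/-! B2: the nearest point retraction onto a compact embedded manifold. -/

open scoped Manifold ContDiff Topology RealInnerProductSpace
open Set Filter

namespace GK4850

namespace B2A

variable {V : Type} [NormedAddCommGroup V] [InnerProductSpace ℝ V]
  {E : Type} [NormedAddCommGroup E] [NormedSpace ℝ E]

/-- The inner product as a bilinear map. -/
noncomputable def iS (V : Type) [NormedAddCommGroup V] [InnerProductSpace ℝ V] :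
    V →L[ℝ] V →L[ℝ] ℝ := innerSL ℝ

theorem iS_apply (u v : V) : iS V u v = ⟪u, v⟫ := rfl

/-- The equation of the critical points of the distance. -/
noncomputable def GG (φ : E → V) (p : V × E) : E →L[ℝ] ℝ :=
  (iS V (p.1 - φ p.2)).comp (fderiv ℝ φ p.2)

theorem crit {φ : E → V} {y : V} {a : E} (hφ : DifferentiableAt ℝ φ a)
    (h : ∀ b, ‖y - φ a‖ ≤ ‖y - φ b‖) : GG φ (y, a) = 0 := by
  have m : IsLocalMin (fun b => ‖y - φ b‖ ^ 2) a :=
    Eventually.of_forall fun b => pow_le_pow_left₀ (norm_nonneg _) (h b) 2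
  have z := m.hasFDerivAt_eq_zero (hφ.hasFDerivAt.const_sub y).norm_sq
  ext v
  have := congrArg (· v) z
  simp [GG, iS_apply] at this ⊢
  linarith

theorem contDiffAt_GG {φ : E → V} {p : V × E} (h : ContDiffAt ℝ ∞ φ p.2) :
    ContDiffAt ℝ ∞ (GG φ) p :=
  ((iS V).contDiff.contDiffAt.comp p (contDiffAt_fst.sub (h.comp p contDiffAt_snd))).clm_comp
    ((h.fderiv_right (by simp)).comp p contDiffAt_snd)

/-- The derivative of the equation in the second variable is invertible. -/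
def Inv (φ : E → V) (p : V × E) : Prop := (fderiv ℝ (GG φ) p ∘L .inr ℝ V E).IsInvertible

theorem inv_self [FiniteDimensional ℝ E] {φ : E → V} {a : E} (h : ContDiffAt ℝ ∞ φ a)
    (i : Function.Injective (fderiv ℝ φ a)) : Inv φ (φ a, a) := by
  have d := (h.differentiableAt (by simp)).hasFDerivAt
  have d' := ((h.fderiv_right (m := ∞) (by simp)).differentiableAt (by simp)).hasFDerivAt
  have e : HasFDerivAt (GG φ) _ (φ a, a) :=
    ((iS V).hasFDerivAt.comp (φ a, a) (hasFDerivAt_fst.sub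
      (HasFDerivAt.comp (φ a, a) d hasFDerivAt_snd))).clm_comp
      (HasFDerivAt.comp (φ a, a) d' hasFDerivAt_snd)
  have k : ∀ v, (fderiv ℝ (GG φ) (φ a, a) ∘L .inr ℝ V E) v v = -‖fderiv ℝ φ a v‖ ^ 2 := fun v => by
    rw [e.fderiv]
    simp [iS_apply]
  unfold Inv
  generalize fderiv ℝ (GG φ) (φ a, a) ∘L .inr ℝ V E = A at k ⊢
  have j : Function.Injective A.toLinearMap := (injective_iff_map_eq_zero _).2 fun v hv => by
    have := k v
    rw [show A v = 0 from hv] at this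
    exact i (by simpa using this)
  refine ⟨(LinearMap.linearEquivOfInjective _ j ?_).toContinuousLinearEquiv, by ext; rfl⟩
  rw [← (LinearMap.toContinuousLinearMap (𝕜 := ℝ) (E := E) (F' := ℝ)).finrank_eq]
  exact Subspace.dual_finrank_eq.symm

theorem Inv.eventually [CompleteSpace E] {φ : E → V} {p : V × E} (h : ContDiffAt ℝ ∞ φ p.2)
    (i : Inv φ p) : ∀ᶠ q in 𝓝 p, Inv φ q :=
  ContinuousAt.preimage_mem_nhds (f := fun q => fderiv ℝ (GG φ) q ∘L .inr ℝ V E)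
    (((contDiffAt_GG h).fderiv_right (m := 0) (by simp)).clm_comp contDiffAt_const).continuousAt
    (ContinuousLinearEquiv.isOpen.mem_nhds i)

theorem symm {π : V → V} {x : V} (h : ∀ᶠ y in 𝓝 x, DifferentiableAt ℝ π y ∧
    ∀ z, ‖y - π y‖ ≤ ‖y - π z‖) (u v : V) : ⟪fderiv ℝ π x u, v⟫ = ⟪u, fderiv ℝ π x v⟫ := by
  have a : ∀ᶠ y in 𝓝 x, HasFDerivAt (fun y => ‖y - π y‖ ^ 2) (2 • iS V (y - π y)) y :=
    h.mono fun y hy => ((hasFDerivAt_id y).sub hy.1.hasFDerivAt).norm_sq.congr_fderiv (by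
      ext w
      have : ⟪y - π y, fderiv ℝ π y w⟫ = 0 := congrArg (· w) (crit hy.1 hy.2)
      simpa [iS_apply, inner_sub_left] using this)
  have b := second_derivative_symmetric_of_eventually a (((iS V).hasFDerivAt.comp x
    ((hasFDerivAt_id x).sub h.self_of_nhds.1.hasFDerivAt)).const_smul 2) u v
  simp [iS_apply] at b
  linarith [real_inner_comm u v, real_inner_comm u (fderiv ℝ π x v)]

variable {M : Type} [TopologicalSpace M] [CompactSpace M] {Φ : M → V}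

/-- `Φ x` is a nearest point. -/
def Nr (Φ : M → V) (y : V) (x : M) : Prop := ∀ z, ‖y - Φ x‖ ≤ ‖y - Φ z‖

omit [InnerProductSpace ℝ V] in
theorem near (hΦ : Continuous Φ) {y : V} {x : M} (h : Nr Φ y x) (u : ∀ z, Nr Φ y z → z = x)
    {S : Set M} (hS : S ∈ 𝓝 x) : ∀ᶠ y' in 𝓝 y, ∀ z, Nr Φ y' z → z ∈ S := by
  obtain ⟨O, a, b, c⟩ := mem_nhds_iff.1 hS
  refine (b.isClosed_compl.isCompact.eventually_forall_of_forall_eventually
    (P := fun y' z => ‖y' - Φ x‖ < ‖y' - Φ z‖) fun z hz => ?_).mono fun y' H z hz =>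
      a (by_contra fun n => (H z n).not_ge (hz x))
  refine ContinuousAt.eventually_lt (by fun_prop) (by fun_prop) (lt_of_not_ge fun n => hz ?_)
  rwa [u z fun w => n.trans (h w)]

variable [ChartedSpace E M] [IsManifold 𝓘(ℝ, E) ∞ M]

omit [CompactSpace M] in
theorem chart (hΦ : ContMDiff 𝓘(ℝ, E) 𝓘(ℝ, V) ∞ Φ) (x₀ : M) {a : E}
    (ha : a ∈ (extChartAt 𝓘(ℝ, E) x₀).target) :
    ContMDiffAt 𝓘(ℝ, E) 𝓘(ℝ, E) ∞ (extChartAt 𝓘(ℝ, E) x₀).symm a ∧
      ContDiffAt ℝ ∞ (Φ ∘ (extChartAt 𝓘(ℝ, E) x₀).symm) a := by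
  have := (contMDiffOn_extChartAt_symm (I := 𝓘(ℝ, E)) (n := ∞) x₀).contMDiffAt
    ((isOpen_extChartAt_target x₀).mem_nhds ha)
  exact ⟨this, (hΦ.contMDiffAt.comp a this).contDiffAt⟩

theorem loc [CompleteSpace E] [CompleteSpace V] (hΦ : ContMDiff 𝓘(ℝ, E) 𝓘(ℝ, V) ∞ Φ) {g : V → M}
    (hg : ∀ y, Nr Φ y (g y)) (x₀ : M) {y : V} (u : ∀ z, Nr Φ y z → z = g y)
    (s : g y ∈ (extChartAt 𝓘(ℝ, E) x₀).source)
    (i : Inv (Φ ∘ (extChartAt 𝓘(ℝ, E) x₀).symm) (y, extChartAt 𝓘(ℝ, E) x₀ (g y))) :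
    (∀ᶠ y' in 𝓝 y, ∀ z, Nr Φ y' z → z = g y') ∧ ContMDiffAt 𝓘(ℝ, V) 𝓘(ℝ, E) ∞ g y := by
  set c := extChartAt 𝓘(ℝ, E) x₀
  have z : ∀ y x, x ∈ c.source → Nr Φ y x → GG (Φ ∘ c.symm) (y, c x) = 0 := fun y x a b =>
    crit ((chart hΦ x₀ (c.map_source a)).2.differentiableAt (by simp)) fun e => by
      rw [Function.comp_apply, c.left_inv a]
      exact b _
  obtain ⟨d, e⟩ := chart hΦ x₀ (c.map_source s)
  have G := contDiffAt_GG (p := (y, c (g y))) e
  have n : (∞ : WithTop ℕ∞) ≠ 0 := by simp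
  obtain ⟨A, hA, B, hB, k⟩ := mem_nhds_prod_iff.1 (G.eventually_apply_eq_iff_implicitFunction n i)
  have f : ∀ᶠ y' in 𝓝 y, ∀ x, Nr Φ y' x → x = c.symm (G.implicitFunction n i y') := by
    filter_upwards [hA, near hΦ.continuous (hg y) u (inter_mem (extChartAt_source_mem_nhds' s)
      ((continuousAt_extChartAt' s).preimage_mem_nhds hB))] with y' a b x hx
    rw [(k (mk_mem_prod a (b x hx).2)).1 ((z _ _ (b x hx).1 hx).trans (z _ _ s (hg y)).symm),
      c.left_inv (b x hx).1]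
  refine ⟨f.mono fun y' a x hx => (a x hx).trans (a _ (hg y')).symm,
    ContMDiffAt.congr_of_eventuallyEq ?_ (f.mono fun y' a => a _ (hg y'))⟩
  exact ContMDiffAt.comp_of_eq d (G.contDiffAt_implicitFunction n i).contMDiffAt
    (G.implicitFunction_apply_self n i)

theorem good [FiniteDimensional ℝ E] [CompleteSpace V] (hΦ : ContMDiff 𝓘(ℝ, E) 𝓘(ℝ, V) ∞ Φ)
    (hi : Function.Injective Φ) (hd : ∀ x, Function.Injective (mfderiv 𝓘(ℝ, E) 𝓘(ℝ, V) Φ x))
    {g : V → M} (hg : ∀ y, Nr Φ y (g y)) (x : M) :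
    ∀ᶠ y in 𝓝 (Φ x), (∀ z, Nr Φ y z → z = g y) ∧ ContMDiffAt 𝓘(ℝ, V) 𝓘(ℝ, E) ∞ g y := by
  have := FiniteDimensional.complete ℝ E
  have u : ∀ z, Nr Φ (Φ x) z → z = x := fun z h =>
    (hi (sub_eq_zero.1 (norm_le_zero_iff.1 (by simpa using h x)))).symm
  have e : g (Φ x) = x := u _ (hg _)
  have s := mem_extChartAt_source (I := 𝓘(ℝ, E)) x
  have d := (chart hΦ x (mem_extChartAt_target x)).2
  have i : Inv (Φ ∘ (extChartAt 𝓘(ℝ, E) x).symm) (Φ x, extChartAt 𝓘(ℝ, E) x x) := by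
    have := inv_self d (by
      have := hd x
      rw [(hΦ.mdifferentiableAt (by simp)).mfderiv] at this
      simp [writtenInExtChartAt, chartAt_self_eq] at this ⊢
      exact this)
    rwa [Function.comp_apply, extChartAt_to_inv] at this
  obtain ⟨a, b⟩ := loc hΦ hg x (fun z h => (u z h).trans e.symm) (e.symm ▸ s) (e.symm ▸ i)
  have t : Tendsto g (𝓝 (Φ x)) (𝓝 x) := by simpa [ContinuousAt, e] using b.continuousAt
  filter_upwards [a, t (extChartAt_source_mem_nhds (I := 𝓘(ℝ, E)) x), (tendsto_id.prodMk_nhds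
    ((continuousAt_extChartAt (I := 𝓘(ℝ, E)) x).tendsto.comp t)).eventually (i.eventually d)]
    with y p q r
  exact ⟨p, (loc hΦ hg x p q r).2⟩

variable {r : ℕ} {J : Type} [Fintype J] {γ : J → Fin r → ℤ}

theorem norm_rho (t : Fin r → ℝ) (x : W J) : ‖rho γ t x‖ = ‖x‖ := by
  rw [PiLp.norm_eq_of_L2, PiLp.norm_eq_of_L2]
  congr 2
  ext j
  change ‖Complex.exp _ * x j‖ ^ 2 = _
  rw [norm_mul, Complex.norm_exp]
  simp

theorem rho_neg (t : Fin r → ℝ) (x : W J) : rho γ t (rho γ (-t) x) = x := by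
  ext j
  change Complex.exp _ * (Complex.exp _ * x j) = _
  rw [← mul_assoc, ← Complex.exp_add]
  simp [pr]

end B2A

open B2A

theorem b2 : B2St := fun r E _ _ _ M _ _ _ _ _ _ J _ γ Φ hΦ hi hd hρ => by
  have c := hΦ.continuous
  choose g hg using fun y : W J =>
    isCompact_univ.exists_isMinOn (f := fun x => ‖y - Φ x‖) univ_nonempty (by fun_prop)
  have hg : ∀ y, Nr Φ y (g y) := fun y z => (hg y).2 (mem_univ z)
  obtain ⟨ε, e, h⟩ := (isCompact_range c).exists_thickening_subset_open (t := interior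
    {y | (∀ z, Nr Φ y z → z = g y) ∧ ContMDiffAt 𝓘(ℝ, W J) 𝓘(ℝ, E) ∞ g y}) isOpen_interior
    (range_subset_iff.2 fun x => mem_interior_iff_mem_nhds.2 (good hΦ hi hd hg x))
  have h := h.trans interior_subset
  have s := Metric.self_subset_thickening e (range Φ)
  have d : ∀ y ∈ Metric.thickening ε (range Φ), ContDiffAt ℝ ∞ (Φ ∘ g) y := fun y hy =>
    (hΦ.contMDiffAt.comp y (h hy).2).contDiffAt
  have v : ∀ t, MapsTo (rho γ t) (Metric.thickening ε (range Φ)) (Metric.thickening ε (range Φ)) :=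
    fun t y hy => by
      obtain ⟨z, a, b⟩ := Metric.mem_thickening_iff.1 hy
      exact Metric.mem_thickening_iff.2
        ⟨_, hρ t a, by rwa [dist_eq_norm, ← map_sub, norm_rho, ← dist_eq_norm]⟩
  refine ⟨⟨γ, range Φ, Metric.thickening ε (range Φ), Φ ∘ g, isCompact_range c,
    Metric.isOpen_thickening, s, hρ, v, fun y hy => (d y hy).contDiffWithinAt,
    fun y _ => ⟨_, rfl⟩, ?_, fun t y hy => ?_, fun x hx => symm ?_⟩, g, rfl, rfl,
    fun y hy => (h hy).2.contMDiffWithinAt, fun _ _ => rfl⟩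
  · rintro _ ⟨x, rfl⟩
    exact congrArg Φ ((h (s ⟨x, rfl⟩)).1 x fun z => by simp).symm
  · obtain ⟨x, hx⟩ := hρ t ⟨g y, rfl⟩
    refine (congrArg Φ ((h (v t hy)).1 x fun z => ?_)).symm.trans hx
    obtain ⟨w, hw⟩ := hρ (-t) ⟨z, rfl⟩
    rw [hx, ← rho_neg (γ := γ) t (Φ z), ← hw, ← map_sub, ← map_sub, norm_rho, norm_rho]
    exact hg y w
  · filter_upwards [Metric.isOpen_thickening.mem_nhds (s hx)] with y hy
    exact ⟨(d y hy).differentiableAt (by simp), fun z => hg y _⟩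

end GK4850
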