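import Pool.Agent.Lib.MP_4850ea_gt.GK.StB
import Pool.Agent.Lib.MP_4850ea_gt.GK.B0

/-! B3: transport of the Hamiltonian structure to the embedded model. -/

open scoped Manifold ContDiff Topology
open Set Bundle

namespace GK4850

namespace B3

variable {r : ℕ} {E : Type} [NormedAddCommGroup E] [NormedSpace ℝ E]
  {M : Type} [TopologicalSpace M] [ChartedSpace E M] [IsManifold 𝓘(ℝ, E) ∞ M]
  {J : Type} [Fintype J]

/-- the form with values in the model space -/
def omE (H : HamAction r E M) (x : M) : E →L[ℝ] E →L[ℝ] ℝ := H.om x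

/-- the differential of a map into the manifold -/
noncomputable def dI {G : Type} [NormedAddCommGroup G] [NormedSpace ℝ G] (g : G → M) (y : G) :
    G →L[ℝ] E := mfderiv 𝓘(ℝ, G) 𝓘(ℝ, E) g y

/-- the differential of a map out of the manifold -/
noncomputable def dO {G : Type} [NormedAddCommGroup G] [NormedSpace ℝ G] (Φ : M → G) (x : M) :
    E →L[ℝ] G := mfderiv 𝓘(ℝ, E) 𝓘(ℝ, G) Φ x

/-- the differential of a self map -/
noncomputable def dS (f : M → M) (x : M) : E →L[ℝ] E := mfderiv 𝓘(ℝ, E) 𝓘(ℝ, E) f x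

/-- the data of the block -/
structure Dat (H : HamAction r E M) (X : Ret r J) (Φ : M → W J) (g : W J → M) : Prop where
  sm : ContMDiff 𝓘(ℝ, E) 𝓘(ℝ, W J) ∞ Φ
  inj : Function.Injective Φ
  eqv : ∀ t x, Φ (H.act t x) = rho X.γ t (Φ x)
  hM : X.M = range Φ
  gs : ContMDiffOn 𝓘(ℝ, W J) 𝓘(ℝ, E) ∞ g X.U
  hπ : ∀ y ∈ X.U, Φ (g y) = X.π y

theorem act_md (H : HamAction r E M) (t : Fin r → ℝ) (x : M) :
    MDifferentiableAt 𝓘(ℝ, E) 𝓘(ℝ, E) (H.act t) x :=
  ((H.act_smooth.comp (contMDiff_const.prodMk contMDiff_id) :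
    ContMDiff 𝓘(ℝ, E) 𝓘(ℝ, E) ∞ (fun x => H.act t x)) x).mdifferentiableAt (by simp)

section chain
variable {G G' : Type} [NormedAddCommGroup G] [NormedSpace ℝ G] [NormedAddCommGroup G']
  [NormedSpace ℝ G']

omit [IsManifold 𝓘(ℝ, E) ∞ M] in
theorem dI_comp {g : G → M} {u : G' → G} {z : G'}
    (hg : MDifferentiableAt 𝓘(ℝ, G) 𝓘(ℝ, E) g (u z)) (hu : DifferentiableAt ℝ u z) (v : G') :
    dI (E := E) (fun z => g (u z)) z v = dI g (u z) (fderiv ℝ u z v) := by
  have := mfderiv_comp z hg hu.mdifferentiableAt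
  rw [mfderiv_eq_fderiv] at this
  exact congrArg (fun f : G' →L[ℝ] E => f v) this

omit [IsManifold 𝓘(ℝ, E) ∞ M] in
theorem fderiv_comp_OI {g : G → M} {f : M → G'} {y : G}
    (hf : MDifferentiableAt 𝓘(ℝ, E) 𝓘(ℝ, G') f (g y))
    (hg : MDifferentiableAt 𝓘(ℝ, G) 𝓘(ℝ, E) g y) (v : G) :
    fderiv ℝ (fun y => f (g y)) y v = dO (E := E) f (g y) (dI g y v) := by
  have := mfderiv_comp y hf hg
  rw [mfderiv_eq_fderiv] at this
  exact congrArg (fun f : G →L[ℝ] G' => f v) this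

end chain

namespace Dat

variable {H : HamAction r E M} {X : Ret r J} {Φ : M → W J} {g : W J → M} (D : Dat H X Φ g)
include D

theorem memM (x : M) : Φ x ∈ X.M := D.hM ▸ mem_range_self x
theorem memU (x : M) : Φ x ∈ X.U := X.sub (D.memM x)
theorem gΦ (x : M) : g (Φ x) = x := D.inj ((D.hπ _ (D.memU x)).trans (X.π_id _ (D.memM x)))
theorem ex {y : W J} (hy : y ∈ X.M) : ∃ x, Φ x = y := by rwa [D.hM] at hy
theorem g_md {y : W J} (hy : y ∈ X.U) : MDifferentiableAt 𝓘(ℝ, W J) 𝓘(ℝ, E) g y :=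
  (D.gs.contMDiffAt (X.isOpen.mem_nhds hy)).mdifferentiableAt (by simp)
theorem Φ_md (x : M) : MDifferentiableAt 𝓘(ℝ, E) 𝓘(ℝ, W J) Φ x :=
  (D.sm x).mdifferentiableAt (by simp)

theorem g_rho (t : Fin r → ℝ) {y : W J} (hy : y ∈ X.U) : g (rho X.γ t y) = H.act t (g y) :=
  D.inj (by rw [D.hπ _ (X.inv_U t hy), X.π_eqv t y hy, D.eqv, D.hπ _ hy])

theorem g_π {y : W J} (hy : y ∈ X.U) : g (X.π y) = g y := by rw [← D.hπ _ hy, D.gΦ]

theorem P_eq {y : W J} (hy : y ∈ X.U) (v : W J) :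
    fderiv ℝ X.π y v = dO (E := E) Φ (g y) (dI g y v) := by
  rw [← fderiv_comp_OI (D.Φ_md _) (D.g_md hy)]
  have : (fun y => Φ (g y)) =ᶠ[𝓝 y] X.π :=
    Filter.eventually_of_mem (X.isOpen.mem_nhds hy) D.hπ
  rw [this.fderiv_eq]

theorem dI_dO (x : M) (v : E) : dI (E := E) g (Φ x) (dO Φ x v) = v := by
  have h := mfderiv_comp x (D.g_md (D.memU x)) (D.Φ_md x)
  have e : g ∘ Φ = id := funext D.gΦ
  have h2 : dS (E := E) (g ∘ Φ) x v = dI (E := E) g (Φ x) (dO Φ x v) :=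
    congrArg (fun f : E →L[ℝ] E => f v) h
  rw [← h2, e]
  exact congrArg (fun f : E →L[ℝ] E => f v) (mfderiv_id (I := 𝓘(ℝ, E)) (x := x))

theorem dI_rho (t : Fin r → ℝ) {y : W J} (hy : y ∈ X.U) (v : W J) :
    dI (E := E) g (rho X.γ t y) (rho X.γ t v) = dS (H.act t) (g y) (dI g y v) := by
  have h1 := dI_comp (E := E) (u := rho X.γ t) (D.g_md (X.inv_U t hy))
    (rho X.γ t).differentiableAt v
  rw [ContinuousLinearMap.fderiv] at h1
  have h2 : dI (E := E) (H.act t ∘ g) y v = dS (H.act t) (g y) (dI g y v) :=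
    congrArg (fun f : W J →L[ℝ] E => f v) (mfderiv_comp y (act_md H t _) (D.g_md hy))
  have e : (fun z => g (rho X.γ t z)) =ᶠ[𝓝 y] H.act t ∘ g :=
    Filter.eventually_of_mem (X.isOpen.mem_nhds hy) fun z hz => D.g_rho t hz
  rw [← h1, ← h2]
  exact congrArg (fun f : W J →L[ℝ] E => f v) (e.mfderiv_eq (I := 𝓘(ℝ, W J)) (I' := 𝓘(ℝ, E)))

theorem dO_act (t : Fin r → ℝ) (x : M) (v : E) :
    dO (E := E) Φ (H.act t x) (dS (H.act t) x v) = rho X.γ t (dO Φ x v) := by
  have h1 : dO (E := E) (Φ ∘ H.act t) x v = dO (E := E) Φ (H.act t x) (dS (H.act t) x v) :=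
    congrArg (fun f : E →L[ℝ] W J => f v) (mfderiv_comp x (D.Φ_md _) (act_md H t x))
  have h2 := mfderiv_comp x (rho X.γ t).differentiableAt.mdifferentiableAt (D.Φ_md x)
  rw [mfderiv_eq_fderiv, ContinuousLinearMap.fderiv] at h2
  have e : Φ ∘ H.act t = rho X.γ t ∘ Φ := funext (D.eqv t)
  rw [← h1, e]
  exact congrArg (fun f : E →L[ℝ] W J => f v) h2

theorem cont_dI {Z : Type} [TopologicalSpace Z] {s : Set Z} {b v : Z → W J}
    (hb : ContinuousOn b s) (hv : ContinuousOn v s) (hU : MapsTo b s X.U) :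
    ContinuousOn (fun z => (⟨g (b z), dI (E := E) g (b z) (v z)⟩ : TangentBundle 𝓘(ℝ, E) M)) s := by
  have h1 := D.gs.continuousOn_tangentMapWithin (by simp) X.isOpen.uniqueMDiffOn
  have h2 : ContinuousOn (fun z => (⟨b z, v z⟩ : TangentBundle 𝓘(ℝ, W J) (W J))) s :=
    (tangentBundleModelSpaceHomeomorph 𝓘(ℝ, W J)).symm.continuous.comp_continuousOn (hb.prodMk hv)
  refine (h1.comp h2 hU).congr fun z hz => ?_
  simp only [Function.comp, tangentMapWithin]
  rw [mfderivWithin_of_isOpen X.isOpen (hU hz)]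
  rfl

end Dat

theorem cont_om (H : HamAction r E M) {Z : Type} [TopologicalSpace Z] {s : Set Z} {b : Z → M}
    {v w : Z → E} (hv : ContinuousOn (fun z => (⟨b z, v z⟩ : TangentBundle 𝓘(ℝ, E) M)) s)
    (hw : ContinuousOn (fun z => (⟨b z, w z⟩ : TangentBundle 𝓘(ℝ, E) M)) s) :
    ContinuousOn (fun z => omE H (b z) (v z) (w z)) s := by
  intro x hx
  have hv := hv x hx
  have hw := hw x hx
  have hf : ContinuousWithinAt b s x := by
    simp only [FiberBundle.continuousWithinAt_totalSpace] at hv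
    exact hv.1
  have : ContinuousWithinAt (fun m => TotalSpace.mk' ℝ (E := Bundle.Trivial M ℝ) (b m)
      (H.om (b m) (v m) (w m))) s x :=
    (H.om_smooth.continuous.continuousAt.comp_continuousWithinAt hf).clm_bundle_apply₂
      (F₁ := E) (F₂ := E) hv hw
  simp only [FiberBundle.continuousWithinAt_totalSpace] at this
  exact this.2

theorem mom (H : HamAction r E M) (a : Fin r) (x : M) (v : E) :
    dO (E := E) (H.mu a) x v = omE H x v (dI (fun s : ℝ => H.act (Pi.single a s) x) 0 1) :=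
  H.moment a x v

theorem nondeg (H : HamAction r E M) (x : M) (v : E) (h : ∀ w : E, omE H x v w = 0) : v = 0 :=
  H.om_nondeg x v h

/-- the transported form -/
noncomputable def om' (H : HamAction r E M) (g : W J → M) (y : W J) : W J →L[ℝ] W J →L[ℝ] ℝ :=
  (omE H (g y)).bilinearComp (dI g y) (dI g y)

theorem om'_apply (H : HamAction r E M) (g : W J → M) (y u v : W J) :
    om' H g y u v = omE H (g y) (dI g y u) (dI g y v) := rfl

namespace Dat

variable {H : HamAction r E M} {X : Ret r J} {Φ : M → W J} {g : W J → M} (D : Dat H X Φ g)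
include D

theorem om_inv (t : Fin r → ℝ) {x : W J} (hx : x ∈ X.U) (u v : W J) :
    om' H g (rho X.γ t x) (rho X.γ t u) (rho X.γ t v) = om' H g x u v := by
  rw [om'_apply, om'_apply, D.dI_rho t hx, D.dI_rho t hx, D.g_rho t hx]
  exact H.om_inv t _ _ _

theorem m_smooth (a : Fin r) : ContDiffOn ℝ ∞ (fun y => H.mu a (g y)) X.U :=
  contMDiffOn_iff_contDiffOn.1 ((H.mu_smooth a).comp_contMDiffOn D.gs)

theorem dI_gen (a : Fin r) {x : W J} (hx : x ∈ X.U) :
    dI (E := E) (fun s : ℝ => H.act (Pi.single a s) (g x)) 0 1 =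
      dI g x (gen X.γ (Pi.single a 1) x) := by
  obtain ⟨u, hu⟩ : ∃ u : ℝ → W J, u = fun s : ℝ => rho X.γ (s • (Pi.single a 1 : Fin r → ℝ)) x :=
    ⟨_, rfl⟩
  have h0 : u 0 = x := by
    rw [hu]
    simp only [zero_smul, rho_zero, ContinuousLinearMap.id_apply]
  have h1 : HasDerivAt u (gen X.γ (Pi.single a 1) (u 0)) 0 := by
    rw [hu]
    exact hasDerivAt_rho (γ := X.γ) (Pi.single a 1) x 0
  have h2 := dI_comp (E := E) (g := g) (u := u) (z := 0) (D.g_md (h0 ▸ hx)) h1.differentiableAt 1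
  have e : (fun s : ℝ => g (u s)) = fun s : ℝ => H.act (Pi.single a s) (g x) := funext fun s => by
    rw [hu]
    simp only [D.g_rho _ hx, ← Pi.single_smul, smul_eq_mul, mul_one]
  rw [e, fderiv_apply_one_eq_deriv, h1.deriv, h0] at h2
  exact h2

theorem m_deriv (a : Fin r) {x : W J} (hx : x ∈ X.U) (v : W J) :
    fderiv ℝ (fun y => H.mu a (g y)) x v = om' H g x v (gen X.γ (Pi.single a 1) x) := by
  rw [fderiv_comp_OI ((H.mu_smooth a _).mdifferentiableAt (by simp)) (D.g_md hx), om'_apply,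
    mom, D.dI_gen a hx]

theorem mu_inv [ConnectedSpace M] (hne : H.fixed.Nonempty) (a : Fin r) (t : Fin r → ℝ) (x : M) :
    H.mu a (H.act t x) = H.mu a x := by
  obtain ⟨p, hp⟩ := hne
  have hd : ∀ y ∈ X.U, DifferentiableAt ℝ (fun y => H.mu a (g y)) y := fun y hy =>
    ((D.m_smooth a).contDiffAt (X.isOpen.mem_nhds hy)).differentiableAt (by simp)
  have hd' : ∀ y ∈ X.U, HasFDerivAt (fun y => H.mu a (g (rho X.γ t y)) - H.mu a (g y))
      ((fderiv ℝ (fun y => H.mu a (g y)) (rho X.γ t y)).comp (rho X.γ t) -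
        fderiv ℝ (fun y => H.mu a (g y)) y) y := fun y hy =>
    ((hd _ (X.inv_U t hy)).hasFDerivAt.comp y (rho X.γ t).hasFDerivAt).sub (hd y hy).hasFDerivAt
  have hc : IsPreconnected X.M := D.hM ▸ isPreconnected_range D.sm.continuous
  have := X.const_on_component ⊤ (g := fun y => H.mu a (g (rho X.γ t y)) - H.mu a (g y))
    (x := Φ p) (y := Φ x) (fun y hy => (hd' y (X.sub hy.1)).differentiableAt)
    (fun y hy v _ _ => by
      have hU := X.sub hy.1
      rw [(hd' y hU).fderiv, sub_apply, ContinuousLinearMap.comp_apply,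
        D.m_deriv a (X.inv_U t hU), D.m_deriv a hU, gen_rho, D.om_inv t hU, sub_self])
    (by rw [X.Y_top, hc.connectedComponentIn (D.memM p)]; exact D.memM x)
  simp only [D.g_rho t (D.memU _), D.gΦ, hp t, sub_self] at this
  exact sub_eq_zero.1 this

theorem dI_P {x : W J} (hx : x ∈ X.M) (u : W J) : dI (E := E) g x (fderiv ℝ X.π x u) = dI g x u := by
  obtain ⟨p, rfl⟩ := D.ex hx
  rw [D.P_eq (D.memU p), D.gΦ, D.dI_dO]

/-- the embedded Hamiltonian space -/
noncomputable def emb [ConnectedSpace M] (hne : H.fixed.Nonempty) : Emb r J where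
  toRet := X
  om := om' H g
  om_cont := continuousOn_clm_apply.2 fun u => continuousOn_clm_apply.2 fun v =>
    cont_om H (D.cont_dI continuousOn_id continuousOn_const X.sub)
      (D.cont_dI continuousOn_id continuousOn_const X.sub)
  om_alt x _ v := H.om_alt _ _
  om_P x hx u v := by rw [om'_apply, om'_apply, D.dI_P hx]
  om_nondeg x hx u h := by
    obtain ⟨p, rfl⟩ := D.ex hx
    have : dI (E := E) g (Φ p) u = 0 := nondeg H (g (Φ p)) _ fun w => by
      have := h (dO Φ p w)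
      rwa [om'_apply, D.dI_dO] at this
    rw [D.P_eq (D.memU p), this, map_zero]
  om_inv t x hx u v := D.om_inv t (X.sub hx) u v
  m a y := H.mu a (g y)
  m_smooth := D.m_smooth
  m_π a x hx := by rw [D.g_π hx]
  m_inv a t x hx := by rw [D.g_rho t hx, D.mu_inv hne]
  m_deriv a x hx v := D.m_deriv a (X.sub hx) v

theorem fix_eq : X.Fix = Φ '' H.fixed := by
  ext y
  constructor
  · rintro ⟨hy, h⟩
    obtain ⟨p, rfl⟩ := D.ex hy
    exact ⟨p, fun t => D.inj (by rw [D.eqv, h]), rfl⟩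
  · rintro ⟨p, hp, rfl⟩
    exact ⟨D.memM p, fun t => by rw [← D.eqv, hp t]⟩

theorem gkm [ConnectedSpace M] (hne : H.fixed.Nonempty) {n : ℕ} (hG : H.IsGKM n) :
    (D.emb hne).IsGKM n := by
  intro y hy
  obtain ⟨p, hp, rfl⟩ : y ∈ Φ '' H.fixed := D.fix_eq ▸ hy
  obtain ⟨κ, α, h1, h2, h3, h4⟩ := hG p hp
  refine ⟨(dO (E := E) Φ p).comp (κ : (Fin n → ℂ) →L[ℝ] E), α, ?_, fun a ha => ?_,
    fun t a => ?_, h3, h4⟩
  · ext v
    constructor
    · rintro ⟨a, rfl⟩
      refine ⟨dO Φ p (κ a), ?_⟩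
      change fderiv ℝ X.π (Φ p) (dO Φ p (κ a)) = dO Φ p (κ a)
      rw [D.P_eq (D.memU p), D.gΦ, D.dI_dO]
    · rintro ⟨u, rfl⟩
      refine ⟨κ.symm (dI g (Φ p) u), ?_⟩
      change dO Φ p (κ (κ.symm (dI g (Φ p) u))) = fderiv ℝ X.π (Φ p) u
      rw [D.P_eq (D.memU p), D.gΦ, κ.apply_symm_apply]
  · change 0 < om' H g (Φ p) (dO Φ p (κ a)) (dO Φ p (κ (Complex.I • a)))
    rw [om'_apply, D.dI_dO, D.dI_dO, D.gΦ]
    exact h1 a ha
  · change rho X.γ t (dO Φ p (κ a)) = dO Φ p (κ _)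
    rw [← D.dO_act, hp t]
    exact congrArg (dO Φ p) (h2 t a)

theorem mono [ConnectedSpace M] (hne : H.fixed.Nonempty) {n : ℕ} {lam : ℝ}
    (hm : H.IsMonotone n lam) : (D.emb hne).IsMonotone n lam := by
  intro u p q F A₀ A₁ L₀ L₁ hu huM hper hp hq hF _ hFper hpos h0 h1 hL0 hL1 e0 e1
  have huU : ∀ x, u x ∈ X.U := fun x => X.sub (huM x)
  have := hm (fun z => g (u z)) (g p) (g q) (fun z => (dI (E := E) g (u z)).comp (F z)) A₀ A₁ L₀ L₁
    (D.gs.comp_contMDiff hu.contMDiff huU) (fun s θ => by simp only [hper])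
    (fun s θ h => by simp only [hp s θ h]) (fun s θ h => by simp only [hq s θ h])
    (fun a => D.cont_dI hu.continuous.continuousOn (hF.clm_apply continuousOn_const)
      fun z _ => huU z)
    (fun s θ => by simp only [hper, hFper]) hpos
    (fun θ a => by simp only [ContinuousLinearMap.comp_apply, h0 θ a, hp 0 _ le_rfl])
    (fun θ a => by simp only [ContinuousLinearMap.comp_apply, h1 θ a, hq 1 _ le_rfl])
    hL0 hL1 e0 e1
  rw [this]
  congr 4
  ext s
  congr 1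
  ext θ
  have hd := dI_comp (E := E) (D.g_md (huU (s, θ))) (hu.differentiable (by simp) (s, θ))
  change omE H _ (dI (fun z => g (u z)) (s, θ) (1, 0)) (dI (fun z => g (u z)) (s, θ) (0, 1)) = _
  rw [hd, hd]
  rfl

end Dat

end B3

theorem b3 : B3St := by
  intro r n E _ _ _ M _ _ _ _ _ _ H lam hfin hne hG hl hm J _ X Φ g hs hi _ he hM hg hπ
  have D : B3.Dat H X Φ g := ⟨hs, hi, he, hM, hg, hπ⟩
  refine ⟨D.emb hne, ⟨?_, ?_, D.gkm hne hG, hl, D.mono hne hm⟩, D.fix_eq⟩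
  · exact hM ▸ isPreconnected_range hs.continuous
  · exact D.fix_eq ▸ hfin.image Φ

end GK4850
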