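import Pool.Agent.Lib.MP_4850ea_gt.GK.StB
import Pool.Agent.Lib.MP_4850ea_gt.GK.B0

/-! B4a: isometric weight frames at the fixed points. -/

open scoped RealInnerProductSpace
open Complex

namespace GK4850

namespace B4aA

variable {r n : ℕ} {α : Fin n → Fin r → ℤ}

theorem ex_pr {β : Fin r → ℤ} (h : β ≠ 0) (c : ℝ) : ∃ t, pr β t = c := by
  obtain ⟨a, ha⟩ := Function.ne_iff.1 h
  have : (β a : ℝ) ≠ 0 := by exact_mod_cast ha
  exact ⟨(c / β a) • Pi.single a 1, by rw [pr_smul_right, pr_single]; field_simp⟩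

theorem ex_pr2 {β δ : Fin r → ℤ} (h : β ≠ 0) (H : ∀ k l : ℤ, k • β + l • δ = 0 → k = 0 ∧ l = 0) :
    ∃ t, pr β t = 0 ∧ pr δ t = 1 / 2 := by
  obtain ⟨a, ha⟩ := Function.ne_iff.1 h
  obtain ⟨b, hb⟩ : ∃ b, β a * δ b - β b * δ a ≠ 0 := by
    by_contra! c
    exact ha (H (-δ a) (β a) (funext fun b => by simp; linear_combination c b)).2
  have : (β a * δ b - β b * δ a : ℝ) ≠ 0 := by exact_mod_cast hb
  refine ⟨(2 * (β a * δ b - β b * δ a) : ℝ)⁻¹ •
    ((β a : ℝ) • Pi.single b 1 + (-β b : ℝ) • Pi.single a 1), ?_, ?_⟩ <;>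
  simp only [pr_smul_right, pr_add_right, pr_single]
  · ring
  · field_simp; ring

/-- invariant bilinear forms -/
theorem form (h0 : ∀ i, α i ≠ 0)
    (hi : ∀ i j, i ≠ j → ∀ k l : ℤ, k • α i + l • α j = 0 → k = 0 ∧ l = 0)
    (B : (Fin n → ℂ) →L[ℝ] (Fin n → ℂ) →L[ℝ] ℝ)
    (hB : ∀ t u v, B (fun i => exp (2 * Real.pi * I * (pr (α i) t : ℝ)) * u i)
      (fun i => exp (2 * Real.pi * I * (pr (α i) t : ℝ)) * v i) = B u v) (u v : Fin n → ℂ) :
    B u v = ∑ i, (B (Pi.single i 1) (Pi.single i 1) * ((starRingEnd ℂ) (u i) * v i).re +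
      B (Pi.single i 1) (Pi.single i I) * ((starRingEnd ℂ) (u i) * v i).im) := by
  have sg : ∀ t i j (a b : ℂ), B (Pi.single i (exp (2 * Real.pi * I * (pr (α i) t : ℝ)) * a))
      (Pi.single j (exp (2 * Real.pi * I * (pr (α j) t : ℝ)) * b)) =
      B (Pi.single i a) (Pi.single j b) := fun t i j a b => by
    rw [← hB t (Pi.single i a)]
    congr 2 <;> ext k <;> simp only [Pi.single_apply] <;> split_ifs with e <;> simp [e]
  have off : ∀ i j (a b : ℂ), i ≠ j → B (Pi.single i a) (Pi.single j b) = 0 := fun i j a b e => by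
    obtain ⟨t, t1, t2⟩ := ex_pr2 (h0 i) (hi i j e)
    have := sg t i j a b
    rw [t1, t2, show 2 * Real.pi * I * ((1 / 2 : ℝ) : ℂ) = Real.pi * I by push_cast; ring,
      exp_pi_mul_I, neg_one_mul, Pi.single_neg, map_neg] at this
    simp only [ofReal_zero, mul_zero, exp_zero, one_mul] at this
    linarith
  have rot : ∀ i (a b : ℂ), B (Pi.single i (I * a)) (Pi.single i (I * b)) =
      B (Pi.single i a) (Pi.single i b) := fun i a b => by
    obtain ⟨t, t1⟩ := ex_pr (h0 i) (1 / 4)
    have := sg t i i a b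
    rwa [t1, show 2 * Real.pi * I * ((1 / 4 : ℝ) : ℂ) = Real.pi / 2 * I by push_cast; ring,
      exp_pi_div_two_mul_I] at this
  have dec : ∀ i (a : ℂ), (Pi.single i a : Fin n → ℂ) =
      a.re • (Pi.single i 1 : Fin n → ℂ) + a.im • (Pi.single i I : Fin n → ℂ) := fun i a => by
    rw [← Pi.single_smul, ← Pi.single_smul, ← Pi.single_add]
    simp
  conv_lhs => rw [← Finset.univ_sum_single u, ← Finset.univ_sum_single v]
  rw [map_sum B, _root_.sum_apply]
  refine Finset.sum_congr rfl fun i _ => ?_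
  rw [map_sum, Finset.sum_eq_single i (fun j _ e => off _ _ _ _ e.symm) (by simp), dec i (u i),
    dec i (v i)]
  have r1 := rot i 1 1
  have r2 := rot i 1 I
  rw [I_mul_I, Pi.single_neg, map_neg] at r2
  simp only [mul_one] at r1 r2
  simp only [map_add, map_smul, _root_.add_apply, _root_.smul_apply,
    smul_eq_mul, r1, ← r2, mul_re, mul_im, conj_re, conj_im]
  ring

end B4aA

theorem b4a : B4aSt := by
  intro r n J _ X hX
  choose κ α h1 h2 h3 h4 h5 using hX
  have key : ∀ p (hp : p ∈ X.Fix), ∃ fr : WFrame X p (Fin n), fr.α = α p hp := fun p hp => by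
    set k := κ p hp
    have pos : ∀ i, 0 < X.om p (k (Pi.single i 1)) (k (Pi.single i I)) := fun i => by
      have := h2 p hp (Pi.single i 1) (by simp)
      rwa [← Pi.single_smul, smul_eq_mul, mul_one] at this
    have np : ∀ i, 0 < ‖k (Pi.single i 1)‖ := fun i => norm_pos_iff.2 fun e => by
      simpa [e] using pos i
    have f1 := B4aA.form (h4 p hp) (h5 p hp) ((innerSL ℝ).bilinearComp k k) fun t u v => by
      simp only [ContinuousLinearMap.bilinearComp_apply, innerSL_apply_apply, k, ← h3, inner_rho]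
    have f2 := B4aA.form (h4 p hp) (h5 p hp) ((X.om p).bilinearComp k k) fun t u v => by
      simp only [ContinuousLinearMap.bilinearComp_apply, k, ← h3]
      simpa only [hp.2 t] using X.om_inv t p hp.1 (κ p hp u) (κ p hp v)
    simp only [ContinuousLinearMap.bilinearComp_apply, innerSL_apply_apply,
      real_inner_self_eq_norm_sq, X.om_alt p hp.1, zero_mul, zero_add] at f1 f2
    have z : ∀ i, ⟪k (Pi.single i 1), k (Pi.single i I)⟫ = 0 := fun i => by
      have := f1 (Pi.single i I) (Pi.single i 1)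
      rw [real_inner_comm, Finset.sum_eq_single i (fun j _ e => by simp [e]) (by simp)] at this
      simp at this
      linarith
    simp only [z, zero_mul, add_zero] at f1
    set e := PiLp.continuousLinearEquiv 2 ℝ fun _ : Fin n => ℂ
    set s : Fin n → ℝ := fun i => ‖k (Pi.single i 1)‖ with hs
    have ap : ∀ v : W (Fin n), (k ∘L e.toContinuousLinearMap ∘L diag fun i => (((s i)⁻¹ : ℝ) : ℂ)) v =
        k fun i => (((s i)⁻¹ : ℝ) : ℂ) * v i := fun v => rfl
    refine ⟨⟨α p hp, k ∘L e.toContinuousLinearMap ∘L diag fun i => (((s i)⁻¹ : ℝ) : ℂ),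
      fun i => X.om p (k (Pi.single i 1)) (k (Pi.single i I)) / s i ^ 2, fun v => ?_, ?_,
      fun t v => ?_, fun i => div_pos (pos i) (pow_pos (np i) 2), fun u v => ?_, h4 p hp⟩, rfl⟩
    · rw [← sq_eq_sq₀ (norm_nonneg _) (norm_nonneg _), ← real_inner_self_eq_norm_sq, ap, f1,
        ← real_inner_self_eq_norm_sq, inner_W]
      refine Finset.sum_congr rfl fun i _ => ?_
      have := (np i).ne'
      simp only [map_mul, conj_ofReal, mul_re, mul_im, ofReal_re, ofReal_im, conj_re, conj_im, hs]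
      field_simp
      ring
    · rw [← h1 p hp]
      refine le_antisymm ?_ ?_
      · rintro _ ⟨v, rfl⟩
        exact ⟨_, (ap v).symm⟩
      · rintro _ ⟨v, rfl⟩
        refine ⟨WithLp.toLp 2 fun i => (s i : ℂ) * v i, (ap _).trans (congrArg k (funext fun i => ?_))⟩
        have : (s i : ℂ) ≠ 0 := by exact_mod_cast (np i).ne'
        simp [this]
    · rw [ap, ap, h3]
      exact congrArg k (funext fun i => by rw [rho_apply]; ring)
    · rw [ap, ap, f2]
      refine Finset.sum_congr rfl fun i _ => ?_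
      have := (np i).ne'
      simp only [map_mul, conj_ofReal, mul_re, mul_im, ofReal_re, ofReal_im, conj_re, conj_im, hs]
      field_simp
      ring
  choose fr hfr using key
  exact ⟨⟨fr, fun p hp i j e a b => by rw [hfr]; exact h5 p hp i j e a b⟩⟩

end GK4850
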