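import Pool.Agent.Lib.MP_4850ea_gt.GK.StB
import Pool.Agent.Lib.MP_4850ea_gt.GK.B0

/-! B4b, B4c: equivariant charts at a fixed point and the moment map in a chart. -/

open scoped ContDiff Topology RealInnerProductSpace
open Set Filter

namespace GK4850

namespace B4b

/-- smooth right inverse near the origin -/
theorem inv_fun {E : Type} [NormedAddCommGroup E] [NormedSpace ℝ E] [CompleteSpace E] {G : E → E}
    (h0 : G 0 = 0) (hG : ∀ᶠ v in 𝓝 (0 : E), ContDiffAt ℝ ∞ G v)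
    (hd : HasFDerivAt G (ContinuousLinearMap.id ℝ E) 0) :
    ∃ g : E → E, g 0 = 0 ∧ HasFDerivAt g (ContinuousLinearMap.id ℝ E) 0 ∧
      ∀ᶠ v in 𝓝 (0 : E), ContDiffAt ℝ ∞ g v ∧ G (g v) = v := by
  have c0 := hG.self_of_nhds
  have hd' : HasFDerivAt G (ContinuousLinearEquiv.refl ℝ E : E →L[ℝ] E) 0 := hd
  set h := c0.toOpenPartialHomeomorph G hd' (by simp) with hh
  have hs : (0 : E) ∈ h.source := c0.mem_toOpenPartialHomeomorph_source hd' (by simp)
  have ht : (0 : E) ∈ h.target := by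
    have := c0.image_mem_toOpenPartialHomeomorph_target hd' (by simp)
    rwa [h0] at this
  have e : ∀ v, h v = G v := fun _ => rfl
  have g0 : h.symm 0 = 0 := by
    have := h.left_inv hs
    rwa [e, h0] at this
  have t : Tendsto h.symm (𝓝 0) (𝓝 0) := by
    have := (h.continuousAt_symm ht).tendsto
    rwa [g0] at this
  have u : ∀ᶠ v in 𝓝 (0 : E), fderiv ℝ G v ∈ range ((↑) : (E ≃L[ℝ] E) → E →L[ℝ] E) := by
    refine (c0.continuousAt_fderiv (by simp)).tendsto.eventually ?_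
    rw [hd'.fderiv]
    exact ContinuousLinearEquiv.nhds _
  refine ⟨h.symm, g0, h.hasFDerivAt_symm ht (f' := ContinuousLinearEquiv.refl ℝ E)
    (by rw [g0]; exact hd'), ?_⟩
  filter_upwards [h.open_target.mem_nhds ht, t.eventually hG, t.eventually u] with v h1 h2 h3
  obtain ⟨A, hA⟩ := h3
  exact ⟨h.contDiffAt_symm h1 (f₀' := A)
    (by rw [hA]; exact (h2.differentiableAt (by simp)).hasFDerivAt) h2, h.right_inv h1⟩

theorem bil {E F : Type} [NormedAddCommGroup E] [NormedSpace ℝ E] [NormedAddCommGroup F]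
    [NormedSpace ℝ F] {A : E → E →L[ℝ] F} {O : E → F →L[ℝ] F →L[ℝ] ℝ} (hA : ContinuousAt A 0)
    (hO : ContinuousAt O 0) {ε : ℝ} (hε : 0 < ε) : ∀ᶠ v in 𝓝 (0 : E), ∀ w u,
      |O v (A v w) (A v u) - O 0 (A 0 w) (A 0 u)| ≤ ε * ‖w‖ * ‖u‖ := by
  set B : E → E →L[ℝ] E →L[ℝ] ℝ := fun v =>
    ((ContinuousLinearMap.compL ℝ E F ℝ).flip (A v)).comp ((O v).comp (A v))
  have cB : ContinuousAt B 0 :=
    (((ContinuousLinearMap.compL ℝ E F ℝ).flip.continuous.continuousAt).comp hA).clm_comp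
      (hO.clm_comp hA)
  have c1 : Tendsto (fun v => ‖B v - B 0‖) (𝓝 0) (𝓝 0) :=
    (tendsto_iff_norm_sub_tendsto_zero (E := E →L[ℝ] E →L[ℝ] ℝ)).1 cB
  filter_upwards [c1.eventually (gt_mem_nhds hε)] with v b w u
  exact ((B v - B 0).le_opNorm₂ w u).trans (by gcongr)

variable {r : ℕ} {J : Type} [Fintype J] {X : Emb r J} {p : W J} {K : Type} [Fintype K]

/-- the adjoint of the frame -/
theorem exL (hp : p ∈ X.M) (fr : WFrame X p K) : ∃ L : W J →L[ℝ] W K, (∀ v, L (fr.κ v) = v) ∧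
    (∀ y, fr.κ (L y) = X.P p y) ∧ ∀ t y, L (rho X.γ t y) = rho fr.α t (L y) := by
  have a : ∀ v, ContinuousLinearMap.adjoint fr.κ (fr.κ v) = v := fun v =>
    congrArg (fun f : W K →L[ℝ] W K => f v) ((fr.κ.norm_map_iff_adjoint_comp_self).1 fr.norm_κ)
  have b : ∀ v, X.P p (fr.κ v) = fr.κ v := fun v =>
    (X.mem_T_iff hp _).1 (fr.range_κ ▸ ⟨v, rfl⟩)
  refine ⟨ContinuousLinearMap.adjoint fr.κ, a, fun y => ?_, fun t y => ?_⟩
  · obtain ⟨c, hc⟩ : X.P p y ∈ LinearMap.range fr.κ.toLinearMap := fr.range_κ ▸ X.P_mem p y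
    have hc' : fr.κ c = X.P p y := hc
    rw [← hc']
    congr 1
    refine ext_inner_right ℝ fun v => ?_
    rw [ContinuousLinearMap.adjoint_inner_left, ← b v, ← a c,
      ContinuousLinearMap.adjoint_inner_left, hc']
    exact (X.P_symm p hp y _).symm
  · refine ext_inner_right ℝ fun v => ?_
    rw [ContinuousLinearMap.adjoint_inner_left, ← rho_rho_neg (γ := fr.α) t v, fr.eqv, inner_rho,
      inner_rho, ContinuousLinearMap.adjoint_inner_left]

theorem ex_inj (hp : p ∈ X.M) : ∃ r₀, 0 < r₀ ∧ ∀ x ∈ X.M, ∀ y ∈ X.M, ‖x - p‖ < r₀ → ‖y - p‖ < r₀ →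
    X.P p (x - y) = 0 → x = y := by
  have s : HasStrictFDerivAt X.π (X.P p) p :=
    (X.π_smooth.contDiffAt (X.isOpen.mem_nhds (X.sub hp))).hasStrictFDerivAt (by simp)
  have := s.isLittleO.def (c := 1 / 2) (by norm_num)
  rw [nhds_prod_eq] at this
  obtain ⟨S, hS, h⟩ := (eventually_prod_self_iff
    (r := fun x y => ‖X.π x - X.π y - X.P p (x - y)‖ ≤ 1 / 2 * ‖x - y‖)).1 this
  obtain ⟨r₀, h0, h1⟩ := Metric.mem_nhds_iff.1 hS
  refine ⟨r₀, h0, fun x hx y hy a b c => ?_⟩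
  have := h x (h1 (mem_ball_iff_norm.2 a)) y (h1 (mem_ball_iff_norm.2 b))
  simp only [X.π_id x hx, X.π_id y hy, c, sub_zero] at this
  exact sub_eq_zero.1 (norm_le_zero_iff.1 (by linarith))

end B4b

open B4b

theorem b4b : B4bSt := by
  intro r J _ X p hp K _ fr
  obtain ⟨hM, hf⟩ := hp
  obtain ⟨L, l1, l2, l3⟩ := exL hM fr
  obtain ⟨r₀, r0, inj⟩ := ex_inj hM
  have hU := X.isOpen.mem_nhds (X.sub hM)
  set ψ : W J → W K := fun y => L (X.π y - p) with hψ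
  have ψs : ContDiffOn ℝ ∞ ψ X.U := L.contDiff.comp_contDiffOn (X.π_smooth.sub contDiffOn_const)
  have ψπ : ∀ y ∈ X.U, ψ (X.π y) = ψ y := fun y hy => by
    simp only [hψ, X.π_id _ (X.π_maps hy)]
  have ψe : ∀ t, ∀ y ∈ X.U, ψ (rho X.γ t y) = rho fr.α t (ψ y) := fun t y hy => by
    simp only [hψ]
    rw [X.π_eqv t y hy, ← l3, map_sub (rho X.γ t), hf]
  have inj' : ∀ x ∈ X.M, ∀ y ∈ X.M, ‖x - p‖ < r₀ → ‖y - p‖ < r₀ → ψ x = ψ y → x = y :=
    fun x hx y hy a b c => inj x hx y hy a b (by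
      simp only [hψ, X.π_id x hx, X.π_id y hy] at c
      rw [← l2, show x - y = (x - p) - (y - p) by abel, map_sub, c, sub_self, map_zero])
  have ks : ContDiff ℝ ∞ fun v => p + fr.κ v := contDiff_const.add fr.κ.contDiff
  have kt : Tendsto (fun v => p + fr.κ v) (𝓝 0) (𝓝 p) := by
    simpa using ks.continuous.tendsto 0
  have πd : HasFDerivAt (fun v => X.π (p + fr.κ v)) fr.κ 0 := by
    have h1 : HasFDerivAt X.π (X.P p) (p + fr.κ 0) := by
      rw [map_zero, add_zero]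
      exact (X.differentiableAt_π (X.sub hM)).hasFDerivAt
    refine (h1.comp 0 (fr.κ.hasFDerivAt.const_add p)).congr_fderiv ?_
    ext1 v
    rw [ContinuousLinearMap.comp_apply, ← l2, l1]
  obtain ⟨g, g0, gd, hg⟩ := inv_fun (G := fun v => ψ (p + fr.κ v))
    (by simp [hψ, X.π_id p hM])
    (by
      filter_upwards [kt.eventually hU] with v hv
      exact ContDiffAt.comp (g := ψ) v (ψs.contDiffAt (X.isOpen.mem_nhds hv)) ks.contDiffAt)
    ((L.hasFDerivAt.comp 0 (πd.sub_const p)).congr_fderiv (by ext1 v; simp [l1]))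
  have gt : Tendsto (fun v => p + fr.κ (g v)) (𝓝 0) (𝓝 p) :=
    kt.comp (by simpa [g0] using gd.continuousAt.tendsto)
  set φ : W K → W J := fun v => X.π (p + fr.κ (g v)) with hφ
  have φ0 : φ 0 = p := by simp [hφ, g0, X.π_id p hM]
  have φd : HasFDerivAt φ fr.κ 0 := by
    exact HasFDerivAt.comp (0 : W K) (g := fun v => X.π (p + fr.κ v)) (by rw [g0]; exact πd) gd
  have ev : ∀ᶠ v in 𝓝 (0 : W K),
      ContDiffAt ℝ ∞ φ v ∧ φ v ∈ X.M ∧ ‖φ v - p‖ < r₀ ∧ ψ (φ v) = v := by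
    have t : Tendsto φ (𝓝 0) (𝓝 p) := φ0 ▸ φd.continuousAt.tendsto
    filter_upwards [hg, gt.eventually hU, t.eventually (Metric.ball_mem_nhds p r0)] with v a b c
    exact ⟨(X.π_smooth.contDiffAt (X.isOpen.mem_nhds b)).comp v (ks.contDiffAt.comp v a.1),
      X.π_maps b, mem_ball_iff_norm.1 c, (ψπ _ b).trans a.2⟩
  obtain ⟨R₀, R0, H⟩ := Metric.eventually_nhds_iff_ball.1 ev
  have nr : ∀ t x, ‖rho X.γ t x - p‖ = ‖x - p‖ := fun t x => by
    rw [← norm_rho (γ := X.γ) t (x - p), map_sub, hf]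
  have mk : ∀ R, 0 < R → R ≤ R₀ → ∃ ch : Chart X fr, ch.R = R ∧ ch.φ = φ ∧ ch.ψ = ψ := by
    intro R hR hR'
    have H' := fun v (hv : v ∈ Metric.ball (0 : W K) R) => H v (Metric.ball_subset_ball hR' hv)
    refine ⟨⟨R, φ, ψ, {y | y ∈ X.U ∧ ‖X.π y - p‖ < r₀ ∧ ‖ψ y‖ < R}, hR,
      fun v hv => (H' v hv).1.contDiffWithinAt, φ0, φd.fderiv, fun t v hv => ?_, ψs, ψπ, ψe, ?_,
      fun y hy => hy.1, fun t y hy => ⟨X.inv_U t hy.1, ?_, ?_⟩, fun y hy => ?_, fun v hv => ?_,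
      fun y hy => ?_⟩, rfl, rfl, rfl⟩
    · obtain ⟨-, a1, a2, a3⟩ := H' v hv
      obtain ⟨-, b1, b2, b3⟩ := H' (rho fr.α t v) (by simpa [norm_rho] using hv)
      exact inj' _ b1 _ (X.inv_M t a1) b2 (by rwa [nr]) (by rw [b3, ψe t _ (X.sub a1), a3])
    · refine isOpen_iff_mem_nhds.2 fun y hy => ?_
      have u := X.isOpen.mem_nhds hy.1
      filter_upwards [u,
        ((X.π_smooth.continuousOn.continuousAt u).sub continuousAt_const).norm.eventually_lt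
          continuousAt_const hy.2.1,
        (ψs.continuousOn.continuousAt u).norm.eventually_lt continuousAt_const hy.2.2]
        with z a b c using ⟨a, b, c⟩
    · rw [X.π_eqv t y hy.1, nr]
      exact hy.2.1
    · rw [ψe t y hy.1, norm_rho]
      exact hy.2.2
    · simp only [mem_ofPred_eq, hy, X.sub (X.π_maps hy), X.π_id _ (X.π_maps hy), ψπ y hy]
    · obtain ⟨-, a1, a2, a3⟩ := H' v hv
      exact ⟨a1, ⟨X.sub a1, by rwa [X.π_id _ a1], by simpa [a3] using hv⟩, a3⟩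
    · have m : ψ y ∈ Metric.ball (0 : W K) R := by simpa using hy.2.2
      obtain ⟨-, a1, a2, a3⟩ := H' _ m
      exact ⟨m, inj' _ a1 _ (X.π_maps hy.1) a2 hy.2.1 (by rw [a3, ψπ y hy.1])⟩
  obtain ⟨ch, c1, c2, c3⟩ := mk R₀ R0 le_rfl
  exact ⟨ch, fun R' a b => by rw [c2, c3]; exact mk R' a (c1 ▸ b)⟩

theorem b4c : B4cSt := by
  intro r J _ X p hp K _ fr ch ξ ε hε
  have hb := Metric.ball_mem_nhds (0 : W K) ch.R_pos
  have φc : ∀ v ∈ Metric.ball (0 : W K) ch.R, ContDiffAt ℝ ∞ ch.φ v := fun v hv =>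
    ch.φ_smooth.contDiffAt (Metric.isOpen_ball.mem_nhds hv)
  have fd : ∀ v ∈ Metric.ball (0 : W K) ch.R, HasFDerivAt (fun v => X.mx ξ (ch.φ v))
      ((fderiv ℝ (X.mx ξ) (ch.φ v)).comp (fderiv ℝ ch.φ v)) v := fun v hv =>
    (((X.isFn_mx ξ).smooth.contDiffAt (X.isOpen.mem_nhds (X.sub (ch.φ_mem v hv).1))).differentiableAt
      (by simp)).hasFDerivAt.comp v ((φc v hv).differentiableAt (by simp)).hasFDerivAt
  have e1 : ∀ v ∈ Metric.ball (0 : W K) ch.R, ∀ w, fderiv ℝ (fun v => X.mx ξ (ch.φ v)) v w =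
      X.om (ch.φ v) (fderiv ℝ ch.φ v w) (fderiv ℝ ch.φ v (gen fr.α ξ v)) := fun v hv w => by
    have := EqvMap.fderiv_gen (γ' := fr.α) (γ := X.γ) (A' := Metric.ball 0 ch.R) (A := univ)
      ⟨Metric.isOpen_ball, fun t x hx => by simpa [norm_rho] using hx⟩
      ⟨ch.φ_smooth, mapsTo_univ _ _, ch.φ_eqv⟩ ξ hv
    rw [(fd v hv).fderiv, ContinuousLinearMap.comp_apply, X.fderiv_mx ξ (ch.φ_mem v hv).1, ← this]
  have e2 : ∀ v w : W K, X.om (ch.φ 0) (fderiv ℝ ch.φ 0 w) (fderiv ℝ ch.φ 0 (gen fr.α ξ v)) =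
      ∑ i, 2 * (Real.pi * fr.c i * pr (fr.α i) ξ) * ((starRingEnd ℂ) (v i) * w i).re := fun v w => by
    rw [ch.φ_zero, ch.φ_deriv, fr.om_κ]
    refine Finset.sum_congr rfl fun i _ => ?_
    rw [gen_apply]
    simp
    ring
  have c0 := φc 0 (mem_of_mem_nhds hb)
  have cO : ContinuousAt (fun v => X.om (ch.φ v)) 0 :=
    (X.om_cont _ (ch.φ_mem 0 (mem_of_mem_nhds hb)).1).tendsto.comp
      (tendsto_nhdsWithin_iff.2 ⟨c0.continuousAt.tendsto,
        mem_of_superset hb fun v hv => (ch.φ_mem v hv).1⟩)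
  have hN : 0 < ‖gen fr.α ξ‖ + 1 := by positivity
  have ev : ∀ᶠ v in 𝓝 (0 : W K), v ∈ Metric.ball (0 : W K) ch.R ∧
      ∀ w : W K, |fderiv ℝ (fun v => X.mx ξ (ch.φ v)) v w -
        ∑ i, 2 * (Real.pi * fr.c i * pr (fr.α i) ξ) * ((starRingEnd ℂ) (v i) * w i).re|
          ≤ ε * ‖v‖ * ‖w‖ := by
    filter_upwards [hb, bil (c0.continuousAt_fderiv (by simp)) cO (div_pos hε hN)] with v a b
    refine ⟨a, fun w => ?_⟩
    have h2 : ‖gen fr.α ξ v‖ ≤ (‖gen fr.α ξ‖ + 1) * ‖v‖ :=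
      ((gen fr.α ξ).le_opNorm v).trans (by gcongr; linarith)
    rw [e1 v a, ← e2]
    calc _ ≤ ε / (‖gen fr.α ξ‖ + 1) * ‖w‖ * ((‖gen fr.α ξ‖ + 1) * ‖v‖) :=
          (b w _).trans (by gcongr)
      _ = _ := by field_simp
  obtain ⟨δ, hδ, H⟩ := Metric.eventually_nhds_iff_ball.1 ev
  filter_upwards [Metric.ball_mem_nhds (0 : W K) hδ] with v hv
  refine ⟨?_, (H v hv).2⟩
  set Q := ∑ i, Real.pi * fr.c i * pr (fr.α i) ξ * ‖v i‖ ^ 2 with hQ
  have n1 : ∀ t ∈ Icc (0 : ℝ) 1, ‖t • v‖ ≤ ‖v‖ := fun t ht => by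
    rw [norm_smul, Real.norm_of_nonneg ht.1]
    exact mul_le_of_le_one_left (norm_nonneg _) ht.2
  have m : ∀ t ∈ Icc (0 : ℝ) 1, t • v ∈ Metric.ball (0 : W K) δ := fun t ht =>
    mem_ball_zero_iff.2 ((n1 t ht).trans_lt (mem_ball_zero_iff.1 hv))
  have := norm_image_sub_le_of_norm_deriv_le_segment_01' (C := ε * ‖v‖ ^ 2)
    (f := fun t : ℝ => X.mx ξ (ch.φ (t • v)) - t ^ 2 * Q)
    (f' := fun t => fderiv ℝ (fun v => X.mx ξ (ch.φ v)) (t • v) v - 2 * t * Q)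
    (fun t ht => by
      have a := (fd _ (H _ (m t ht)).1).differentiableAt.hasFDerivAt.comp_hasDerivAt t
        ((hasDerivAt_id t).smul_const v)
      have b := (hasDerivAt_pow 2 t).mul_const Q
      exact ((a.sub b).congr_deriv (by simp)).hasDerivWithinAt)
    (fun t ht => by
      have a := (H _ (m t (Ico_subset_Icc_self ht))).2 v
      have b : 2 * t * Q = ∑ i, 2 * (Real.pi * fr.c i * pr (fr.α i) ξ)
          * ((starRingEnd ℂ) ((t • v) i) * v i).re := by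
        rw [hQ, Finset.mul_sum]
        refine Finset.sum_congr rfl fun i _ => ?_
        rw [Complex.sq_norm, Complex.normSq_apply]
        simp
        ring
      rw [b, Real.norm_eq_abs]
      refine a.trans ?_
      rw [sq, mul_assoc]
      gcongr
      exact n1 t (Ico_subset_Icc_self ht))
  simp only [one_smul, zero_smul, ch.φ_zero, Real.norm_eq_abs] at this
  convert this using 2
  ring

end GK4850
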