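import Mathlib

/-! Alternating maps: contraction, alternation, smoothness, the Cartan formula. -/

open scoped ContDiff Topology
open Set ContinuousAlternatingMap

namespace GK4850.Alt

variable {X E E' F : Type} [NormedAddCommGroup X] [NormedSpace ℝ X] [NormedAddCommGroup E]
  [NormedSpace ℝ E] [NormedAddCommGroup E'] [NormedSpace ℝ E'] [NormedAddCommGroup F]
  [NormedSpace ℝ F] {n : ℕ}

/-- contraction as a bilinear map -/
noncomputable def cL (E F : Type) [NormedAddCommGroup E] [NormedSpace ℝ E] [NormedAddCommGroup F]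
    [NormedSpace ℝ F] (n : ℕ) :
    (E [⋀^Fin (n + 1)]→L[ℝ] F) →L[ℝ] E →L[ℝ] (E [⋀^Fin n]→L[ℝ] F) :=
  (curryLeftLI (𝕜 := ℝ) (E := E) (F := F) (n := n)).toContinuousLinearMap

@[simp] lemma cL_apply (f : E [⋀^Fin (n + 1)]→L[ℝ] F) : cL E F n f = f.curryLeft := rfl

/-- contraction with a vector as a linear map -/
noncomputable def cl (n : ℕ) (x : E) : (E [⋀^Fin (n + 1)]→L[ℝ] F) →L[ℝ] (E [⋀^Fin n]→L[ℝ] F) :=
  (cL E F n).flip x

@[simp] lemma cl_apply (x : E) (f : E [⋀^Fin (n + 1)]→L[ℝ] F) : cl n x f = f.curryLeft x := rfl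

lemma curry_alt_zero (B : E →L[ℝ] E [⋀^Fin 0]→L[ℝ] F) (x : E) :
    (alternatizeUncurryFin B).curryLeft x = B x := by
  ext v
  simp [alternatizeUncurryFin_apply, Subsingleton.elim _ v]

lemma curry_alt (B : E →L[ℝ] E [⋀^Fin (n + 1)]→L[ℝ] F) (x : E) :
    (alternatizeUncurryFin B).curryLeft x = B x - alternatizeUncurryFin (cl n x ∘L B) := by
  ext v
  rw [curryLeft_apply_apply, alternatizeUncurryFin_apply, Fin.sum_univ_succ,
    ContinuousAlternatingMap.sub_apply, alternatizeUncurryFin_apply, sub_eq_add_neg, ← Finset.sum_neg_distrib]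
  congr 1
  · simp [Matrix.vecCons]
  · refine Finset.sum_congr rfl fun i _ => ?_
    have : Fin.removeNth i.succ (Matrix.vecCons x v) = Matrix.vecCons x (Fin.removeNth i v) := by
      funext k
      cases k using Fin.cases <;> simp [Fin.removeNth]
    simp [this, pow_succ]

lemma curry_curry (f : E [⋀^Fin (n + 2)]→L[ℝ] F) (x y : E) :
    (f.curryLeft x).curryLeft y = -(f.curryLeft y).curryLeft x := by
  have h := curryLeft_same f (x + y)
  simp only [map_add, curryLeft_add, _root_.add_apply, curryLeft_same, zero_add,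
    add_zero] at h
  exact eq_neg_of_add_eq_zero_right h

lemma alt_alt_flip (B : E →L[ℝ] E →L[ℝ] E [⋀^Fin n]→L[ℝ] F) :
    alternatizeUncurryFin (alternatizeUncurryFinCLM ℝ E F ∘L B) =
      -alternatizeUncurryFin (alternatizeUncurryFinCLM ℝ E F ∘L B.flip) := by
  have h := alternatizeUncurryFin_alternatizeUncurryFinCLM_comp_of_symmetric (f := B + B.flip)
    (fun x y => by simp [add_comm])
  rw [ContinuousLinearMap.comp_add, alternatizeUncurryFin_add] at h
  exact eq_neg_of_add_eq_zero_left h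

lemma eq_zero_of_lt [FiniteDimensional ℝ E] (f : E [⋀^Fin n]→L[ℝ] F)
    (h : Module.finrank ℝ E < n) : f = 0 := by
  ext v
  refine f.toAlternatingMap.map_linearDependent v fun hv => ?_
  have := hv.fintype_card_le_finrank
  simp at this
  omega

lemma contDiffOn_of_eval [FiniteDimensional ℝ E] [FiniteDimensional ℝ F]
    {G : X → E [⋀^Fin n]→L[ℝ] F} {s : Set X} (h : ∀ v, ContDiffOn ℝ ∞ (fun x => G x v) s) :
    ContDiffOn ℝ ∞ G s := by
  let b := Module.finBasis ℝ E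
  let Φ : (E [⋀^Fin n]→L[ℝ] F) →ₗ[ℝ] ((Fin n → Fin (Module.finrank ℝ E)) → F) :=
    { toFun := fun f k => f fun i => b (k i)
      map_add' := fun _ _ => rfl
      map_smul' := fun _ _ => rfl }
  have hΦ : Function.Injective Φ := fun f g e =>
    toAlternatingMap_injective (b.ext_alternating fun k _ => congrFun e k)
  obtain ⟨Ψ, hΨ⟩ := Φ.exists_leftInverse_of_injective (LinearMap.ker_eq_bot.2 hΦ)
  have h1 : ContDiffOn ℝ ∞ (fun x => Φ (G x)) s := contDiffOn_pi.2 fun k => h _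
  exact (Ψ.toContinuousLinearMap.contDiff.comp_contDiffOn h1).congr fun x _ =>
    (LinearMap.congr_fun hΨ (G x)).symm

lemma contDiffOn_eval [FiniteDimensional ℝ F] {G : X → E [⋀^Fin n]→L[ℝ] F} {v : X → Fin n → E} {s : Set X}
    (hG : ContDiffOn ℝ ∞ G s) (hv : ContDiffOn ℝ ∞ v s) :
    ContDiffOn ℝ ∞ (fun x => G x (v x)) s := by
  have := FiniteDimensional.complete ℝ F
  have h : ContDiff ℝ ∞ fun p : (E [⋀^Fin n]→L[ℝ] F) × (Fin n → E) => p.1 p.2 :=
    contDiff_iff_contDiffAt.2 fun p => (ContinuousLinearMap.analyticAt_uncurry_of_multilinear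
      (toContinuousMultilinearMapCLM (𝕜 := ℝ) (E := E) (F := F) (ι := Fin n) ℝ)).contDiffAt
  exact h.comp_contDiffOn (hG.prodMk hv)

lemma contDiffOn_comp [FiniteDimensional ℝ E'] [FiniteDimensional ℝ F]
    {G : X → E [⋀^Fin n]→L[ℝ] F} {g : X → E' →L[ℝ] E} {s : Set X} (hG : ContDiffOn ℝ ∞ G s)
    (hg : ContDiffOn ℝ ∞ g s) :
    ContDiffOn ℝ ∞ (fun x => (G x).compContinuousLinearMap (g x)) s :=
  contDiffOn_of_eval fun v => contDiffOn_eval (v := fun x i => g x (v i)) hG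
    (contDiffOn_pi.2 fun i => hg.clm_apply (contDiffOn_const (c := v i)))

lemma contDiffOn_extDeriv {c : E → E [⋀^Fin n]→L[ℝ] F} {s : Set E} (hs : IsOpen s)
    (hc : ContDiffOn ℝ ∞ c s) : ContDiffOn ℝ ∞ (extDeriv c) s :=
  (alternatizeUncurryFinCLM ℝ E F).contDiff.comp_contDiffOn
    (hc.fderiv_of_isOpen hs (by simp))

lemma contDiffOn_curry {c : X → E [⋀^Fin (n + 1)]→L[ℝ] F} {v : X → E} {s : Set X}
    (hc : ContDiffOn ℝ ∞ c s) (hv : ContDiffOn ℝ ∞ v s) :
    ContDiffOn ℝ ∞ (fun x => (c x).curryLeft (v x)) s :=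
  (cL E F n).isBoundedBilinearMap.contDiff.comp_contDiffOn (hc.prodMk hv)

lemma extDeriv_post {G : Type} [NormedAddCommGroup G] [NormedSpace ℝ G] (t : F →L[ℝ] G)
    {c : E → E [⋀^Fin n]→L[ℝ] F} {x : E} (hc : DifferentiableAt ℝ c x) :
    extDeriv (fun y => t.compContinuousAlternatingMap (c y)) x =
      t.compContinuousAlternatingMap (extDeriv c x) := by
  have h := ((ContinuousLinearMap.compContinuousAlternatingMapCLM ℝ E F G
    (Fin n)) t).hasFDerivAt.comp x hc.hasFDerivAt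
  rw [extDeriv, show fderiv ℝ (fun y => t.compContinuousAlternatingMap (c y)) x = _ from h.fderiv]
  ext v
  simp [extDeriv, alternatizeUncurryFin_apply]

lemma extDeriv_sum {ι : Type} (s : Finset ι) {c : ι → E → E [⋀^Fin n]→L[ℝ] F} {x : E}
    (hc : ∀ i ∈ s, DifferentiableAt ℝ (c i) x) :
    extDeriv (fun y => ∑ i ∈ s, c i y) x = ∑ i ∈ s, extDeriv (c i) x := by
  rw [extDeriv, fderiv_fun_sum hc]
  exact map_sum (alternatizeUncurryFinCLM ℝ E F) _ _

lemma extDeriv_sub' {c c' : E → E [⋀^Fin n]→L[ℝ] F} {x : E} (hc : DifferentiableAt ℝ c x)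
    (hc' : DifferentiableAt ℝ c' x) :
    extDeriv (fun y => c y - c' y) x = extDeriv c x - extDeriv c' x := by
  rw [extDeriv, fderiv_fun_sub hc hc']
  exact map_sub (alternatizeUncurryFinCLM ℝ E F) _ _

lemma extDeriv_neg' (c : E → E [⋀^Fin n]→L[ℝ] F) (x : E) :
    extDeriv (fun y => -c y) x = -extDeriv c x := by
  rw [extDeriv, fderiv_fun_neg]
  exact map_neg (alternatizeUncurryFinCLM ℝ E F) _

lemma extDeriv_of_zero {c : E → E [⋀^Fin n]→L[ℝ] F} {x : E} (h : ∀ᶠ y in 𝓝 x, c y = 0) :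
    extDeriv c x = 0 := by
  rw [extDeriv, Filter.EventuallyEq.fderiv_eq (f := fun _ => 0) h, fderiv_fun_const]
  exact map_zero (alternatizeUncurryFinCLM ℝ E F)

/-- infinitesimal invariance -/
lemma lie_zero {c : E → E [⋀^Fin n]→L[ℝ] F} {x : E} (hc : DifferentiableAt ℝ c x)
    {ρ : ℝ → E →L[ℝ] E} {A : E →L[ℝ] E} (h0 : ρ 0 = .id ℝ E) (hd : HasDerivAt ρ A 0)
    (hi : ∀ s, (c (ρ s x)).compContinuousLinearMap (ρ s) = c x) :
    fderiv ℝ c x (A x) + (c x).fderivCompContinuousLinearMap (.id ℝ E) A = 0 := by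
  have h1 : HasDerivAt (fun s => ρ s x) (A x) 0 := by
    simpa using hd.clm_apply (hasDerivAt_const (0:ℝ) x)
  have h2 : HasFDerivAt c (fderiv ℝ c x) (ρ 0 x) := by rw [h0]; exact hc.hasFDerivAt
  have h3 := (h2.comp_hasDerivAt (0:ℝ) h1).hasFDerivAt.continuousAlternatingMapCompContinuousLinearMap
    hd.hasFDerivAt
  have h4 := h3.unique (by
    simp only [Function.comp_def, hi]; exact hasFDerivAt_const (c x) (0:ℝ))
  have h5 := congrArg (fun L => L 1) h4
  simp only [h0, Function.comp_def] at h5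
  rw [← show (0 : ℝ →L[ℝ] E [⋀^Fin n]→L[ℝ] F) 1 = 0 from rfl, ← h5]
  ext v
  simp

lemma cartan_zero {c : E → E [⋀^Fin 0]→L[ℝ] F} {x : E} (hc : DifferentiableAt ℝ c x)
    {ρ : ℝ → E →L[ℝ] E} {A : E →L[ℝ] E} (h0 : ρ 0 = .id ℝ E) (hd : HasDerivAt ρ A 0)
    (hi : ∀ s, (c (ρ s x)).compContinuousLinearMap (ρ s) = c x) :
    (extDeriv c x).curryLeft (A x) = 0 := by
  have h := lie_zero hc h0 hd hi
  rw [fderivCompContinuousLinearMap_of_isEmpty] at h
  rw [extDeriv, curry_alt_zero]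
  simpa using h

lemma cartan {c : E → E [⋀^Fin (n + 1)]→L[ℝ] F} {x : E} (hc : DifferentiableAt ℝ c x)
    {ρ : ℝ → E →L[ℝ] E} {A : E →L[ℝ] E} (h0 : ρ 0 = .id ℝ E) (hd : HasDerivAt ρ A 0)
    (hi : ∀ s, (c (ρ s x)).compContinuousLinearMap (ρ s) = c x) :
    extDeriv (fun y => (c y).curryLeft (A y)) x = -(extDeriv c x).curryLeft (A x) := by
  have h := lie_zero hc h0 hd hi
  have h1 := (cL E F n).hasFDerivAt_of_bilinear hc.hasFDerivAt A.hasFDerivAt
  rw [extDeriv, show fderiv ℝ (fun y => (c y).curryLeft (A y)) x = _ from h1.fderiv, extDeriv,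
    curry_alt, alternatizeUncurryFin_add, eq_neg_of_add_eq_zero_left h,
    fderivCompContinuousLinearMap_eq_alternatizeUncurryFin]
  simp only [neg_sub, sub_neg_eq_add]
  refine (add_comm _ _).trans (congrArg₂ (· + ·) rfl (congrArg alternatizeUncurryFin ?_))
  ext v w
  rfl

end GK4850.Alt
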