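import Pool.Agent.Lib.MP_4850ea_gt.GK.B0
import Pool.Agent.Lib.MP_4850ea_gt.GK.B5a

/-! B5: calculus of Cartan forms. -/

open scoped ContDiff Topology
open Set ContinuousAlternatingMap

namespace GK4850

variable {r : ℕ} {J J' : Type} [Fintype J] [Fintype J'] {γ : J → Fin r → ℤ} {γ' : J' → Fin r → ℤ}
  {F : Type} [NormedAddCommGroup F] [NormedSpace ℝ F] [FiniteDimensional ℝ F]
  [Module (SS r) F] [IsScalarTower ℝ (SS r) F] {A B : Set (W J)} {A' : Set (W J')}
  {β β' : Form J F} {j : ℕ}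

theorem two_le_infty : minSmoothness ℝ 2 ≤ ∞ := by
  rw [minSmoothness_of_isRCLikeNormedField]; exact WithTop.coe_le_coe.2 le_top

theorem tA_apply (s : SS r) (x : F) : tA s x = s • x := rfl

theorem InvOpen.univ : InvOpen γ univ := ⟨isOpen_univ, fun _ => mapsTo_univ _ _⟩

theorem InvOpen.inter (hA : InvOpen γ A) (hB : InvOpen γ B) : InvOpen γ (A ∩ B) :=
  ⟨hA.isOpen.inter hB.isOpen, fun t _ hx => ⟨hA.inv t hx.1, hB.inv t hx.2⟩⟩

theorem InvOpen.union (hA : InvOpen γ A) (hB : InvOpen γ B) : InvOpen γ (A ∪ B) :=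
  ⟨hA.isOpen.union hB.isOpen, fun t _ hx => hx.imp (fun h => hA.inv t h) fun h => hB.inv t h⟩

theorem EqvMap.mono {g : W J' → W J} {B' : Set (W J')} (h : EqvMap γ' γ A' A g) (hB : B' ⊆ A')
    (hm : MapsTo g B' B) : EqvMap γ' γ B' B g :=
  ⟨h.smooth.mono hB, hm, fun t x hx => h.eqv t x (hB hx)⟩

/-- a smooth invariant form of one degree -/
structure SI (γ : J → Fin r → ℤ) (A : Set (W J)) (c : W J → (W J [⋀^Fin j]→L[ℝ] F)) : Prop where
  sm : ContDiffOn ℝ ∞ c A
  inv : ∀ t, ∀ x ∈ A, (c (rho γ t x)).compContinuousLinearMap (rho γ t) = c x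

section SI

variable {c c' : W J → (W J [⋀^Fin j]→L[ℝ] F)}

omit [FiniteDimensional ℝ F] [Module (SS r) F] [IsScalarTower ℝ (SS r) F] in
section

theorem SI.mono (h : SI γ A c) (hB : B ⊆ A) : SI γ B c :=
  ⟨h.sm.mono hB, fun t x hx => h.inv t x (hB hx)⟩

theorem SI.congr (h : SI γ A c) (e : ∀ x ∈ A, c' x = c x) (hi : ∀ t, MapsTo (rho γ t) A A) :
    SI γ A c' :=
  ⟨h.sm.congr e, fun t x hx => by rw [e _ (hi t hx), e x hx, h.inv t x hx]⟩

theorem SI.zero : SI γ A (fun _ => (0 : W J [⋀^Fin j]→L[ℝ] F)) :=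
  ⟨contDiffOn_const, fun _ _ _ => rfl⟩

theorem SI.add (h : SI γ A c) (h' : SI γ A c') : SI γ A (fun x => c x + c' x) :=
  ⟨h.sm.add h'.sm, fun t x hx => by rw [← h.inv t x hx, ← h'.inv t x hx]; rfl⟩

theorem SI.sub (h : SI γ A c) (h' : SI γ A c') : SI γ A (fun x => c x - c' x) :=
  ⟨h.sm.sub h'.sm, fun t x hx => by rw [← h.inv t x hx, ← h'.inv t x hx]; rfl⟩

theorem SI.neg (h : SI γ A c) : SI γ A (fun x => -c x) :=
  ⟨h.sm.neg, fun t x hx => by rw [← h.inv t x hx]; rfl⟩

theorem SI.diff (hA : IsOpen A) (h : SI γ A c) {x : W J} (hx : x ∈ A) : DifferentiableAt ℝ c x :=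
  (h.sm.contDiffAt (hA.mem_nhds hx)).differentiableAt (by simp)

theorem SI.extDeriv (hA : InvOpen γ A) (h : SI γ A c) : SI γ A (extDeriv c) := by
  refine ⟨Alt.contDiffOn_extDeriv hA.isOpen h.sm, fun t x hx => ?_⟩
  have e := extDeriv_pullback (r := ∞) (h.diff hA.isOpen (hA.inv t hx))
    (rho γ t).contDiff.contDiffAt two_le_infty
  simp only [ContinuousLinearMap.fderiv] at e
  rw [← e]
  exact Filter.EventuallyEq.extDeriv_eq
    (Filter.mem_of_superset (hA.isOpen.mem_nhds hx) fun y hy => h.inv t y hy)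

theorem SI.dd (hA : IsOpen A) (h : SI γ A c) {x : W J} (hx : x ∈ A) :
    _root_.extDeriv (_root_.extDeriv c) x = 0 :=
  extDeriv_extDeriv_apply (h.sm.contDiffAt (hA.mem_nhds hx)) two_le_infty

end

theorem SI.post (h : SI γ A c) (s : SS r) :
    SI γ A (fun x => (tA s).compContinuousAlternatingMap (c x)) :=
  ⟨((ContinuousLinearMap.compContinuousAlternatingMapCLM ℝ (W J) F F (Fin j))
    (tA s)).contDiff.comp_contDiffOn h.sm, fun t x hx => by rw [← h.inv t x hx]; rfl⟩

end SI

section iota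

variable {c c' : W J → (W J [⋀^Fin (j + 1)]→L[ℝ] F)} {x : W J}

theorem iota_apply (v : Fin j → W J) : iota γ c x v =
    ∑ a : Fin r, (MvPolynomial.X a : SS r) • c x (Matrix.vecCons (gen γ (Pi.single a 1) x) v) := by
  simp [iota, ContinuousAlternatingMap.sum_apply, tA_apply]

theorem iota_congr (e : c x = c' x) : iota γ c x = iota γ c' x := by simp only [iota, e]

theorem iota_of_zero (e : c x = 0) : iota γ c x = 0 := by ext v; simp [iota_apply, e]

theorem iota_sub : iota γ (fun y => c y - c' y) x = iota γ c x - iota γ c' x := by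
  ext v; simp [iota_apply, smul_sub]

theorem iota_add : iota γ (fun y => c y + c' y) x = iota γ c x + iota γ c' x := by
  ext v; simp [iota_apply, smul_add, Finset.sum_add_distrib]

theorem iota_post (s : SS r) : iota γ (fun y => (tA s).compContinuousAlternatingMap (c y)) x =
    (tA s).compContinuousAlternatingMap (iota γ c x) := by
  ext v; simp [iota_apply, tA_apply, smul_comm s]

theorem iota_at_zero : iota γ c 0 = 0 :=
  Finset.sum_eq_zero fun a _ => by ext v; simp

theorem SI.iota (h : SI γ A c) : SI γ A (iota γ c) := by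
  refine ⟨ContDiffOn.sum fun a _ => ((ContinuousLinearMap.compContinuousAlternatingMapCLM ℝ (W J)
    F F (Fin j)) (tA (MvPolynomial.X a : SS r))).contDiff.comp_contDiffOn
    (Alt.contDiffOn_curry h.sm (gen γ _).contDiff.contDiffOn), fun t x hx => ?_⟩
  ext v
  rw [compContinuousLinearMap_apply, iota_apply, iota_apply, ← h.inv t x hx]
  refine Finset.sum_congr rfl fun a _ => ?_
  rw [compContinuousLinearMap_apply, gen_rho]
  congr 2
  funext i
  cases i using Fin.cases <;> rfl

theorem iota_iota {c : W J → (W J [⋀^Fin (j + 2)]→L[ℝ] F)} : iota γ (iota γ c) x = 0 := by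
  ext v
  set g : Fin r → Fin r → F := fun a b => (MvPolynomial.X a : SS r) • (MvPolynomial.X b : SS r) •
    ((c x).curryLeft (gen γ (Pi.single b 1) x)).curryLeft (gen γ (Pi.single a 1) x) v with hg
  have e : iota γ (iota γ c) x v = ∑ a, ∑ b, g a b := by
    simp [iota_apply, hg, Finset.smul_sum]
  have e2 : ∑ a, ∑ b, g a b = -∑ a, ∑ b, g a b := by
    conv_rhs => rw [Finset.sum_comm]
    simp only [← Finset.sum_neg_distrib]
    refine Finset.sum_congr rfl fun a _ => Finset.sum_congr rfl fun b _ => ?_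
    simp only [hg]
    rw [Alt.curry_curry, smul_comm]
    simp
  have e3 : (2:ℝ) • ∑ a, ∑ b, g a b = 0 := by rw [two_smul]; exact add_eq_zero_iff_eq_neg.2 e2
  rw [e]
  simpa using e3

theorem hasDerivAt_rho_zero (ξ : Fin r → ℝ) :
    HasDerivAt (fun s : ℝ => rho γ (s • ξ)) (gen γ ξ) 0 := by
  simpa [rho_zero] using hasDerivAt_rho_clm (γ := γ) ξ 0

theorem SI.extDeriv_iota (hA : IsOpen A) (h : SI γ A c) (hx : x ∈ A) :
    _root_.extDeriv (GK4850.iota γ c) x = -GK4850.iota γ (_root_.extDeriv c) x := by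
  have d1 : ∀ a : Fin r, DifferentiableAt ℝ
      (fun y => (c y).curryLeft (gen γ (Pi.single a 1) y)) x := fun a =>
    ((Alt.contDiffOn_curry h.sm (gen γ _).contDiff.contDiffOn).contDiffAt
      (hA.mem_nhds hx)).differentiableAt (by simp)
  unfold GK4850.iota
  rw [Alt.extDeriv_sum, ← Finset.sum_neg_distrib]
  · refine Finset.sum_congr rfl fun a _ => ?_
    rw [Alt.extDeriv_post _ (d1 a), Alt.cartan (h.diff hA hx) (by simp [rho_zero])
      (hasDerivAt_rho_zero _) fun s => h.inv _ x hx]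
    ext v; simp
  · exact fun a _ => ((ContinuousLinearMap.compContinuousAlternatingMapCLM ℝ (W J)
      F F (Fin j)) (tA (MvPolynomial.X a : SS r))).differentiableAt.comp x (d1 a)

theorem SI.iota_extDeriv_zero {c : W J → (W J [⋀^Fin 0]→L[ℝ] F)} (hA : IsOpen A) (h : SI γ A c)
    (hx : x ∈ A) : GK4850.iota γ (_root_.extDeriv c) x = 0 := by
  refine Finset.sum_eq_zero fun a _ => ?_
  rw [Alt.cartan_zero (h.diff hA hx) (by simp [rho_zero]) (hasDerivAt_rho_zero _)
    fun s => h.inv _ x hx]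
  ext v; simp

end iota

theorem ECl.si (h : ECl γ A β) (j : ℕ) : SI γ A (β j) := ⟨h.cartan.smooth j, h.cartan.inv j⟩

theorem ECl.cl (h : ECl γ A β) (j : ℕ) {x : W J} (hx : x ∈ A) :
    extDeriv (β j) x = iota γ (β (j + 2)) x := sub_eq_zero.1 (h.closed (j + 1) x hx)

theorem ECl.of (si : ∀ j, SI γ A (β j)) (ev : ∀ j, Odd j → ∀ x ∈ A, β j x = 0)
    (cl : ∀ j, ∀ x ∈ A, extDeriv (β j) x = iota γ (β (j + 2)) x) : ECl γ A β := by
  refine ⟨⟨fun j => (si j).sm, fun j => (si j).inv, Module.finrank ℝ (W J) + 1,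
    fun j hj x _ => Alt.eq_zero_of_lt _ hj⟩, ev, fun j x hx => ?_⟩
  cases j with
  | zero => exact neg_eq_zero.2 (iota_of_zero (ev 1 odd_one x hx))
  | succ j => exact sub_eq_zero.2 (cl j x hx)

theorem ECl.mono (h : ECl γ A β) (hB : B ⊆ A) : ECl γ B β :=
  .of (fun j => (h.si j).mono hB) (fun j hj x hx => h.even j hj x (hB hx))
    fun j _ hx => h.cl j (hB hx)

theorem ECl.congr (hA : IsOpen A) (h : ECl γ A β) (e : ∀ j, ∀ x ∈ A, β' j x = β j x)
    (hi : ∀ t, MapsTo (rho γ t) A A) : ECl γ A β' :=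
  .of (fun j => (h.si j).congr (e j) hi) (fun j hj x hx => (e j x hx).trans (h.even j hj x hx))
    fun j x hx => by
      rw [iota_congr (e _ x hx), ← h.cl j hx]
      exact Filter.EventuallyEq.extDeriv_eq (Filter.mem_of_superset (hA.mem_nhds hx) (e j))

theorem ECl.zero : ECl γ A (0 : Form J F) :=
  .of (fun _ => SI.zero) (fun _ _ _ _ => rfl) fun _ _ _ =>
    (Alt.extDeriv_of_zero (Filter.Eventually.of_forall fun _ => rfl)).trans
      (iota_of_zero rfl).symm

theorem ECl.pull {g : W J' → W J} (hA' : InvOpen γ' A') (hA : IsOpen A) (hg : EqvMap γ' γ A' A g)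
    (h : ECl γ A β) : ECl γ' A' (pull g β) := by
  refine .of (fun j => ⟨Alt.contDiffOn_comp ((h.si j).sm.comp hg.smooth hg.maps)
    (hg.smooth.fderiv_of_isOpen hA'.isOpen (by simp)), fun t x hx => ?_⟩)
    (fun j hj x hx => ?_) fun j x hx => ?_
  · ext v
    simp only [GK4850.pull, compContinuousLinearMap_apply]
    rw [← (h.si j).inv t _ (hg.maps hx), hg.eqv t x hx, compContinuousLinearMap_apply]
    congr 1
    funext i
    exact hg.fderiv_rho hA' t hx _
  · simp only [GK4850.pull]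
    rw [h.even j hj _ (hg.maps hx)]; rfl
  · refine (extDeriv_pullback (r := ∞) ((h.si j).diff hA (hg.maps hx))
      (hg.smooth.contDiffAt (hA'.isOpen.mem_nhds hx)) two_le_infty).trans ?_
    rw [h.cl j (hg.maps hx)]
    ext v
    rw [compContinuousLinearMap_apply, iota_apply, iota_apply]
    refine Finset.sum_congr rfl fun a _ => ?_
    simp only [GK4850.pull, compContinuousLinearMap_apply]
    rw [← hg.fderiv_gen hA' _ hx]
    congr 2
    funext i
    cases i using Fin.cases <;> rfl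

omit [FiniteDimensional ℝ F] in
theorem val_pull (g : W J' → W J) (x : W J') : val (pull g β) x = val β (g x) :=
  congrArg (β 0 (g x)) (Subsingleton.elim _ _)

omit [FiniteDimensional ℝ F] in
theorem pull_pull {J'' : Type} [Fintype J''] {g : W J' → W J} {g' : W J'' → W J'} {x : W J''}
    (hg : DifferentiableAt ℝ g (g' x)) (hg' : DifferentiableAt ℝ g' x) :
    pull g' (pull g β) j x = pull (g ∘ g') β j x := by
  simp only [pull]
  rw [fderiv_comp x hg hg']
  rfl

omit [FiniteDimensional ℝ F] in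
theorem pull_congr {g g' : W J' → W J} {x : W J'} (e : g =ᶠ[𝓝 x] g') :
    pull g β j x = pull g' β j x := by
  simp only [pull]
  rw [e.fderiv_eq, e.eq_of_nhds]

theorem ECl.glue (hA : InvOpen γ A) (hB : InvOpen γ B) (h : ECl γ A β) (h' : ECl γ B β')
    (e : ∀ j, ∀ x ∈ A, x ∈ B → β j x = β' j x) :
    ∃ β'' : Form J F, ECl γ (A ∪ B) β'' ∧ (∀ j, ∀ x ∈ A, β'' j x = β j x) ∧
      ∀ j, ∀ x ∈ B, β'' j x = β' j x := by
  classical
  set β'' : Form J F := fun j x => if x ∈ A then β j x else β' j x with hβ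
  have e1 : ∀ j, ∀ x ∈ A, β'' j x = β j x := fun j x hx => if_pos hx
  have e2 : ∀ j, ∀ x ∈ B, β'' j x = β' j x := fun j x hx => by
    by_cases c : x ∈ A
    · exact (e1 j x c).trans (e j x c hx)
    · exact if_neg c
  have k1 := h.congr hA.isOpen e1 hA.inv
  have k2 := h'.congr hB.isOpen e2 hB.inv
  exact ⟨β'', .of (fun j => ⟨(k1.si j).sm.union_of_isOpen (k2.si j).sm hA.isOpen hB.isOpen,
    fun t x hx => hx.elim ((k1.si j).inv t x) ((k2.si j).inv t x)⟩)
    (fun j hj x hx => hx.elim (k1.even j hj x) (k2.even j hj x))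
    fun j x hx => hx.elim (k1.cl j) (k2.cl j), e1, e2⟩

theorem ECl.contDiffOn_val (h : ECl γ A β) : ContDiffOn ℝ ∞ (val β) A :=
  Alt.contDiffOn_eval (h.si 0).sm contDiffOn_const

/-- the degree one component of closedness -/
theorem ECl.fderiv_val (hA : IsOpen A) (h : ECl γ A β) {x : W J} (hx : x ∈ A) (v : W J) :
    fderiv ℝ (val β) x v =
      ∑ a : Fin r, (MvPolynomial.X a : SS r) • β 2 x ![gen γ (Pi.single a 1) x, v] := by
  have e := congrArg (fun f => f ![v]) (h.cl 0 hx)
  simp only [iota_apply] at e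
  rw [← e, extDeriv_apply ((h.si 0).diff hA hx)]
  simp only [Fin.sum_univ_succ, Finset.univ_eq_empty, Finset.sum_empty, add_zero, Fin.val_zero,
    pow_zero, one_smul]
  congr 2

theorem SI.dT (hA : InvOpen γ A) (h : ∀ j, SI γ A (β j)) : ∀ j, SI γ A (dT γ β j)
  | 0 => (h 1).iota.neg
  | j + 1 => ((h j).extDeriv hA).sub (h (j + 2)).iota

/-- the Cartan differential of an odd invariant form is even and closed -/
theorem ECl.dT (hA : InvOpen γ A) (h : ∀ j, SI γ A (β j))
    (od : ∀ j, Even j → ∀ x ∈ A, β j x = 0) : ECl γ A (dT γ β) := by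
  refine .of (SI.dT hA h) (fun j hj x hx => ?_) fun j x hx => ?_
  · obtain ⟨k, rfl⟩ := hj
    show extDeriv (β (2 * k)) x - iota γ (β (2 * k + 2)) x = 0
    rw [iota_of_zero (od _ (by simp [parity_simps]) x hx), Alt.extDeriv_of_zero
      (Filter.mem_of_superset (hA.isOpen.mem_nhds hx) (od _ (by simp))), sub_zero]
  · have k : iota γ (GK4850.dT γ β (j + 2)) x = iota γ (extDeriv (β (j + 1))) x := by
      show iota γ (fun y => extDeriv (β (j + 1)) y - iota γ (β (j + 1 + 2)) y) x = _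
      rw [iota_sub, iota_iota, sub_zero]
    rw [k]
    cases j with
    | zero =>
      show extDeriv (fun y => -iota γ (β 1) y) x = _
      rw [Alt.extDeriv_neg', (h 1).extDeriv_iota hA.isOpen hx, neg_neg]
    | succ j =>
      show extDeriv (fun y => extDeriv (β j) y - iota γ (β (j + 2)) y) x = _
      rw [Alt.extDeriv_sub' (((h j).extDeriv hA).diff hA.isOpen hx)
        ((h (j + 2)).iota.diff hA.isOpen hx), (h j).dd hA.isOpen hx,
        (h (j + 2)).extDeriv_iota hA.isOpen hx, zero_sub, neg_neg]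

theorem ECl.sub (hA : IsOpen A) (h : ECl γ A β) (h' : ECl γ A β') :
    ECl γ A (fun j x => β j x - β' j x) :=
  .of (fun j => (h.si j).sub (h'.si j))
    (fun j hj x hx => by rw [h.even j hj x hx, h'.even j hj x hx, sub_zero]) fun j x hx => by
      rw [Alt.extDeriv_sub' ((h.si j).diff hA hx) ((h'.si j).diff hA hx), iota_sub, h.cl j hx,
        h'.cl j hx]

theorem ECl.post (hA : IsOpen A) (h : ECl γ A β) (s : SS r) :
    ECl γ A (fun j x => (tA s).compContinuousAlternatingMap (β j x)) :=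
  .of (fun j => (h.si j).post s)
    (fun j hj x hx => by rw [h.even j hj x hx]; ext v; simp) fun j x hx => by
      rw [Alt.extDeriv_post _ ((h.si j).diff hA hx), iota_post, h.cl j hx]

end GK4850
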