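import Mathlib

/-! B6a, tools: antiderivative along a constant field, Cartan formula for a constant field. -/

open scoped ContDiff Topology Convolution
open Set MeasureTheory ContinuousAlternatingMap

namespace GK4850.B6

variable {E G F : Type} [NormedAddCommGroup E] [NormedSpace ℝ E]
  [NormedAddCommGroup G] [NormedSpace ℝ G] [NormedAddCommGroup F] [NormedSpace ℝ F]

theorem hasDerivAt_line {h : E → G} (hh : Differentiable ℝ h) (x e : E) (t : ℝ) :
    HasDerivAt (fun s : ℝ => h (x + s • e)) (fderiv ℝ h (x + t • e) e) t := by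
  have h1 : HasDerivAt (fun s : ℝ => x + s • e) e t := by
    simpa using ((hasDerivAt_id t).smul_const e).const_add x
  exact (hh (x + t • e)).hasFDerivAt.comp_hasDerivAt t h1

theorem const_line {h : E → G} (hh : Differentiable ℝ h) (x e : E)
    (h0 : ∀ s : ℝ, fderiv ℝ h (x + s • e) e = 0) (s t : ℝ) : h (x + s • e) = h (x + t • e) := by
  have hd : ∀ s : ℝ, HasDerivAt (fun s : ℝ => h (x + s • e)) 0 s := fun s => by
    have := hasDerivAt_line hh x e s
    rwa [h0] at this
  exact is_const_of_deriv_eq_zero (fun s => (hd s).differentiableAt) (fun s => (hd s).deriv) s t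

theorem const_ray {h : E → G} (hh : Differentiable ℝ h) (x e : E) (a : ℝ)
    (h0 : ∀ s : ℝ, a < s → fderiv ℝ h (x + s • e) e = 0) (s t : ℝ) (hs : a < s) (ht : a < t) :
    h (x + s • e) = h (x + t • e) := by
  have hd : ∀ s : ℝ, HasDerivAt (fun s : ℝ => h (x + s • e)) (fderiv ℝ h (x + s • e) e) s :=
    fun s => hasDerivAt_line hh x e s
  refine (isOpen_Ioi (a := a)).is_const_of_deriv_eq_zero (f := fun s : ℝ => h (x + s • e))
    isPreconnected_Ioi (fun s _ => (hd s).differentiableAt.differentiableWithinAt) ?_ hs ht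
  intro s hs
  rw [(hd s).deriv, h0 s hs]
  rfl

theorem hasDerivAt_Iic [CompleteSpace G] {φ : ℝ → G} (hφ : Continuous φ) (hi : Integrable φ)
    (τ : ℝ) : HasDerivAt (fun τ => ∫ u in Iic τ, φ u) (φ τ) τ := by
  have h1 : (fun τ => ∫ u in Iic τ, φ u) = fun τ => (∫ u in Iic (0 : ℝ), φ u) + ∫ u in (0 : ℝ)..τ, φ u := by
    funext τ
    rw [← intervalIntegral.integral_Iic_sub_Iic hi.integrableOn hi.integrableOn]
    abel
  rw [h1]
  exact (intervalIntegral.integral_hasDerivAt_right (hφ.intervalIntegrable _ _)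
    hφ.aestronglyMeasurable.stronglyMeasurableAtFilter hφ.continuousAt).const_add _

theorem exists_anti [CompleteSpace G] (l : E →L[ℝ] ℝ) (e : E) (he : l e = 1) (g : E → G)
    (hg : ContDiff ℝ ∞ g) (R : ℝ) (h0 : ∀ x, R < |l x| → g x = 0) :
    ∃ h : E → G, ContDiff ℝ ∞ h ∧ (∀ x, fderiv ℝ h x e = g x) ∧ ∀ x, l x < -R → h x = 0 := by
  set g' : E → ℝ → G := fun y t => g (y - l y • e + t • e) with hg'
  have hl : ∀ (y : E) (t : ℝ), l (y - l y • e + t • e) = t := fun y t => by simp [he]
  have hz : ∀ y t, t ∉ Icc (-R) R → g' y t = 0 := fun y t ht => by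
    apply h0
    rw [hl]
    by_contra hc
    exact ht (abs_le.1 (not_lt.1 hc))
  have hs : ContDiff ℝ ∞ (↿g') := by
    have : ContDiff ℝ ∞ (fun q : E × ℝ => q.1 - l q.1 • e + q.2 • e) := by fun_prop
    exact hg.comp this
  have hc : ∀ y, Continuous (g' y) := fun y => by
    have : Continuous (fun t : ℝ => y - l y • e + t • e) := by fun_prop
    exact hg.continuous.comp this
  have hi : ∀ y, Integrable (g' y) := fun y =>
    (hc y).integrable_of_hasCompactSupport (HasCompactSupport.intro isCompact_Icc (hz y))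
  set f : ℝ → ℝ := (Ici (0 : ℝ)).indicator fun _ => 1 with hf
  have hfl : LocallyIntegrable f volume :=
    (locallyIntegrable_const (1 : ℝ)).indicator measurableSet_Ici
  have hconv : ∀ y τ, (f ⋆[ContinuousLinearMap.lsmul ℝ ℝ, volume] g' y) τ =
      ∫ u in Iic τ, g' y u := fun y τ => by
    rw [convolution_eq_swap, ← integral_indicator measurableSet_Iic]
    congr 1
    funext u
    by_cases hu : u ≤ τ
    · simp [hf, hu]
    · simp [hf, hu]
  have hsm : ContDiff ℝ ∞ (fun x => ∫ u in Iic (l x), g' x u) := by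
    have := contDiffOn_convolution_right_with_param_comp (n := ⊤) (μ := volume)
      (ContinuousLinearMap.lsmul ℝ ℝ : ℝ →L[ℝ] G →L[ℝ] G) (s := univ) (v := fun x => l x)
      (by fun_prop) (f := f) (g := g') isOpen_univ (isCompact_Icc (a := -R) (b := R))
      (fun p x _ hx => hz p x hx) hfl hs.contDiffOn
    simp only [hconv] at this
    exact contDiffOn_univ.1 this
  refine ⟨_, hsm, fun x => ?_, fun x hx => ?_⟩
  · have h1 := hasDerivAt_line (hsm.differentiable (by simp)) x e 0
    have h2 : (fun s : ℝ => ∫ u in Iic (l (x + s • e)), g' (x + s • e) u) =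
        fun s => ∫ u in Iic (l x + s), g' x u := by
      funext s
      have : g' (x + s • e) = g' x := by
        funext t
        simp only [hg', map_add, map_smul, he, smul_eq_mul, mul_one, add_smul]
        congr 1
        abel
      rw [this]
      simp [he]
    rw [h2] at h1
    have h3 : HasDerivAt (fun s : ℝ => ∫ u in Iic (l x + s), g' x u) (g' x (l x + 0)) 0 :=
      HasDerivAt.comp_const_add (l x) 0 (hasDerivAt_Iic (hc x) (hi x) (l x + 0))
    have h4 := h1.unique h3
    simpa [hg'] using h4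
  · refine setIntegral_eq_zero_of_forall_eq_zero fun u hu => hz x u fun h => ?_
    have := h.1
    have hu' : u ≤ l x := hu
    linarith

/-- contraction with a constant vector -/
noncomputable def io (j : ℕ) (e : E) : (E [⋀^Fin (j + 1)]→L[ℝ] F) →L[ℝ] (E [⋀^Fin j]→L[ℝ] F) :=
  (ContinuousLinearMap.apply ℝ _ e).comp
    (curryLeftLI (𝕜 := ℝ) (E := E) (F := F) (n := j)).toContinuousLinearMap

theorem io_apply {j : ℕ} (e : E) (a : E [⋀^Fin (j + 1)]→L[ℝ] F) : io j e a = a.curryLeft e := rfl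

theorem io_io {j : ℕ} (e : E) (a : E [⋀^Fin (j + 2)]→L[ℝ] F) : io j e (io (j + 1) e a) = 0 :=
  curryLeft_same a e

theorem io_alt {j : ℕ} (e : E) (D : E →L[ℝ] E [⋀^Fin (j + 1)]→L[ℝ] F) :
    io (j + 1) e (alternatizeUncurryFin D) = D e - alternatizeUncurryFin ((io j e).comp D) := by
  ext v
  simp only [io_apply, curryLeft_apply_apply, alternatizeUncurryFin_apply,
    ContinuousAlternatingMap.sub_apply, ContinuousLinearMap.comp_apply]
  rw [Fin.sum_univ_succ, sub_eq_add_neg, ← Finset.sum_neg_distrib]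
  congr 1
  · simp
  · refine Finset.sum_congr rfl fun i _ => ?_
    have : (Fin.succ i).removeNth (Matrix.vecCons e v) = Matrix.vecCons e (i.removeNth v) := by
      funext k
      cases k using Fin.cases <;> simp [Fin.removeNth]
    simp [this, pow_succ]

theorem fderiv_clm {G' : Type} [NormedAddCommGroup G'] [NormedSpace ℝ G'] (L : G →L[ℝ] G')
    {h : E → G} {x : E} (hh : DifferentiableAt ℝ h x) :
    fderiv ℝ (fun y => L (h y)) x = L.comp (fderiv ℝ h x) :=
  (L.hasFDerivAt.comp x hh.hasFDerivAt).fderiv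

theorem contDiff_clm {G' : Type} [NormedAddCommGroup G'] [NormedSpace ℝ G'] (L : G →L[ℝ] G')
    {h : E → G} (hh : ContDiff ℝ ∞ h) : ContDiff ℝ ∞ (fun y => L (h y)) :=
  L.contDiff.comp hh

/-- Cartan formula -/
theorem cartan {j : ℕ} (e : E) {κ : E → E [⋀^Fin (j + 1)]→L[ℝ] F} {x : E}
    (hκ : DifferentiableAt ℝ κ x) :
    extDeriv (fun y => io j e (κ y)) x = fderiv ℝ κ x e - io (j + 1) e (extDeriv κ x) := by
  have h1 : fderiv ℝ (fun y => io j e (κ y)) x = (io j e).comp (fderiv ℝ κ x) :=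
    fderiv_clm (io j e) hκ
  rw [extDeriv, extDeriv, h1, io_alt]
  abel

theorem contDiff_extDeriv {j : ℕ} {η : E → E [⋀^Fin j]→L[ℝ] F} (hη : ContDiff ℝ ∞ η) :
    ContDiff ℝ ∞ (extDeriv η) :=
  contDiff_clm (alternatizeUncurryFinCLM ℝ E F (n := j)) (hη.fderiv_right (m := ∞) (by simp))

theorem two_le : minSmoothness ℝ 2 ≤ ∞ := by
  rw [minSmoothness_of_isRCLikeNormedField]
  exact WithTop.coe_le_coe.2 (le_top : (2 : ℕ∞) ≤ ⊤)

theorem fderiv_swap {G' : Type} [NormedAddCommGroup G'] [NormedSpace ℝ G']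
    (L : (E →L[ℝ] G) →L[ℝ] G') {h : E → G} (hh : ContDiff ℝ ∞ h) (e x : E) :
    fderiv ℝ (fun y => L (fderiv ℝ h y)) x e = L (fderiv ℝ (fun y => fderiv ℝ h y e) x) := by
  have hd : DifferentiableAt ℝ (fderiv ℝ h) x :=
    (hh.fderiv_right (m := ∞) (by simp)).differentiable (by simp) x
  have h1 := fderiv_clm (G := E →L[ℝ] G) L hd
  have h2 := fderiv_clm (G := E →L[ℝ] G) (ContinuousLinearMap.apply ℝ G e) hd
  have h3 : IsSymmSndFDerivAt ℝ h x := hh.contDiffAt.isSymmSndFDerivAt two_le
  simp only [ContinuousLinearMap.apply_apply] at h2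
  rw [h1, h2, ContinuousLinearMap.comp_apply]
  congr 1
  ext1 v
  exact h3.eq e v

theorem fderiv_extDeriv {j : ℕ} {η : E → E [⋀^Fin j]→L[ℝ] F} (hη : ContDiff ℝ ∞ η) (e x : E) :
    fderiv ℝ (extDeriv η) x e = extDeriv (fun y => fderiv ℝ η y e) x :=
  fderiv_swap (G := E [⋀^Fin j]→L[ℝ] F) (alternatizeUncurryFinCLM ℝ E F (n := j)) hη e x

/-- a form killed by `e` does not see multiples of `e` -/
theorem map_add_smul {j : ℕ} (e : E) (a : E [⋀^Fin (j + 1)]→L[ℝ] F) (h : io j e a = 0)
    (v : Fin (j + 1) → E) (c : Fin (j + 1) → ℝ) : a (fun i => c i • e + v i) = a v := by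
  classical
  have h1 : ∀ (w : Fin (j + 1) → E) (i : Fin (j + 1)) (t : ℝ), w i = t • e → a w = 0 := by
    intro w i t hw
    rw [← Fin.insertNth_self_removeNth i w, map_insertNth, ← curryLeft_apply_apply, hw, map_smul,
      ← io_apply, h]
    simp
  have h2 := a.map_add_univ (fun i => c i • e) v
  rw [show (fun i => c i • e + v i) = (fun i => c i • e) + v from rfl, h2,
    Finset.sum_eq_single (∅ : Finset (Fin (j + 1)))]
  · simp
  · intro s _ hs
    obtain ⟨i, hi⟩ := Finset.nonempty_iff_ne_empty.2 hs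
    exact h1 _ i (c i) (by simp [hi])
  · simp

end GK4850.B6
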