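import Pool.Agent.Lib.MP_4850ea_gt.GK.StB
import Pool.Agent.Lib.MP_4850ea_gt.GK.B6a_Anti

/-! B6a: the Poincaré lemma with compact supports. -/

open scoped ContDiff Topology
open Set ContinuousAlternatingMap

namespace GK4850.B6

variable {E E' G F : Type} [NormedAddCommGroup E] [NormedSpace ℝ E]
  [NormedAddCommGroup E'] [NormedSpace ℝ E']
  [NormedAddCommGroup G] [NormedSpace ℝ G] [NormedAddCommGroup F] [NormedSpace ℝ F]

theorem exists_bound {g : E → G} (hg : HasCompactSupport g) :
    ∃ R : ℝ, 0 ≤ R ∧ ∀ x, R < ‖x‖ → g x = 0 := by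
  obtain ⟨R, hR⟩ := hg.isCompact.isBounded.exists_norm_le
  refine ⟨max R 0, le_max_right _ _, fun x hx => image_eq_zero_of_notMem_tsupport fun h => ?_⟩
  have := hR x h
  have := le_max_left R 0
  linarith

theorem of_bound [FiniteDimensional ℝ E] {g : E → G} (R : ℝ) (h : ∀ x, R < ‖x‖ → g x = 0) :
    HasCompactSupport g := by
  have := FiniteDimensional.proper_real E
  refine HasCompactSupport.intro (isCompact_closedBall (0 : E) R) fun x hx => h x ?_
  simpa using hx

/-- functions killed by `∂_e` that vanish far on the left vanish -/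
theorem zero_line {h : E → G} (hh : Differentiable ℝ h) (l : E →L[ℝ] ℝ) (e : E) (he : l e = 1)
    (R : ℝ) (hz : ∀ x, l x < -R → h x = 0) (x : E)
    (h0 : ∀ s : ℝ, fderiv ℝ h (x + s • e) e = 0) : h x = 0 := by
  have := const_line hh x e h0 0 (-R - 1 - l x)
  rw [hz (x + (-R - 1 - l x) • e) (by simp [he])] at this
  simpa using this

theorem extDeriv_zero_of {j : ℕ} {η : E → E [⋀^Fin j]→L[ℝ] F} {U : Set E} (hU : IsOpen U)
    (h : ∀ y ∈ U, η y = 0) {x : E} (hx : x ∈ U) : extDeriv η x = 0 := by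
  have h1 : η =ᶠ[𝓝 x] fun _ => 0 := Filter.eventually_of_mem (hU.mem_nhds hx) h
  rw [h1.extDeriv_eq, extDeriv]
  simp [← alternatizeUncurryFinCLM_apply]

theorem extDeriv_sub' {j : ℕ} {a b : E → E [⋀^Fin j]→L[ℝ] F} {x : E}
    (ha : DifferentiableAt ℝ a x) (hb : DifferentiableAt ℝ b x) :
    extDeriv (fun y => a y - b y) x = extDeriv a x - extDeriv b x := by
  simp only [extDeriv, fderiv_fun_sub ha hb, ← alternatizeUncurryFinCLM_apply, map_sub]

/-- pullback along an affine map -/
theorem extDeriv_affine {j : ℕ} {η : E → E [⋀^Fin j]→L[ℝ] F} (hη : Differentiable ℝ η)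
    (L : E' →L[ℝ] E) (c : E) (y : E') :
    extDeriv (fun y => (η (L y + c)).compContinuousLinearMap L) y =
      (extDeriv η (L y + c)).compContinuousLinearMap L := by
  have h1 : ∀ y, fderiv ℝ (fun y => L y + c) y = L := fun y => by
    rw [fderiv_add_const]; exact L.fderiv
  have := extDeriv_pullback (f := fun y => L y + c) (x := y) (r := ∞) (hη (L y + c))
    (by fun_prop) two_le
  simpa only [h1] using this

theorem contDiff_affine {j : ℕ} {η : E → E [⋀^Fin j]→L[ℝ] F} (hη : ContDiff ℝ ∞ η)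
    (L : E' →L[ℝ] E) (c : E) :
    ContDiff ℝ ∞ (fun y => (η (L y + c)).compContinuousLinearMap L) :=
  contDiff_clm (G := E [⋀^Fin j]→L[ℝ] F) (compContinuousLinearMapCLM L)
    (hη.comp (by fun_prop : ContDiff ℝ ∞ fun y => L y + c))

/-- closed compactly supported functions vanish -/
theorem zero_form [Nontrivial E] {η : E → E [⋀^Fin 0]→L[ℝ] F} (hη : Differentiable ℝ η)
    (R : ℝ) (hz : ∀ x, R < ‖x‖ → η x = 0) (hc : ∀ x, extDeriv η x = 0) (x : E) : η x = 0 := by
  have h1 : ∀ x, fderiv ℝ η x = 0 := fun x => by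
    ext v w
    have := congrArg (fun a : E [⋀^Fin 1]→L[ℝ] F => a ![v]) (hc x)
    simp only [extDeriv, alternatizeUncurryFin_apply] at this
    simpa [Subsingleton.elim w ![]] using this
  obtain ⟨y, hy⟩ := NormedSpace.exists_lt_norm ℝ E R
  rw [is_const_of_fderiv_eq_zero hη h1 x y, hz y hy]

/-- the primitive along `e` -/
theorem exists_prim [CompleteSpace F] {j : ℕ} (l : E →L[ℝ] ℝ) (e : E) (he : l e = 1)
    (κ : E → E [⋀^Fin (j + 1)]→L[ℝ] F) (hκ : ContDiff ℝ ∞ κ) (hc : ∀ x, extDeriv κ x = 0)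
    (R : ℝ) (h0 : ∀ x, R < |l x| → κ x = 0) :
    ∃ η : E → E [⋀^Fin j]→L[ℝ] F, ContDiff ℝ ∞ η ∧ (∀ x, fderiv ℝ η x e = io j e (κ x)) ∧
      (∀ x, l x < -R → η x = 0) ∧ ∀ x, extDeriv η x = κ x := by
  obtain ⟨η, hs, hd, hz⟩ := exists_anti l e he (fun x => io j e (κ x)) (contDiff_clm _ hκ) R
    (fun x hx => by simp [h0 x hx])
  refine ⟨η, hs, hd, hz, fun x => ?_⟩
  have hdη : Differentiable ℝ (extDeriv η) := (contDiff_extDeriv hs).differentiable (by simp)
  have hdκ : Differentiable ℝ κ := hκ.differentiable (by simp)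
  refine sub_eq_zero.1 (zero_line (h := fun x => extDeriv η x - κ x) (hdη.sub hdκ) l e he R
    (fun y hy => ?_) x fun s => ?_)
  · rw [extDeriv_zero_of (U := {y | l y < -R}) (isOpen_lt l.continuous continuous_const) hz hy,
      h0 y (lt_abs.2 (Or.inr (by linarith))), sub_zero]
  · rw [fderiv_fun_sub (hdη _) (hdκ _), _root_.sub_apply, fderiv_extDeriv hs]
    simp only [hd]
    rw [cartan e (hdκ _), hc]
    simp

theorem comp_proj (l : E →L[ℝ] ℝ) (e : E) (i : E' →L[ℝ] E) (p : E →L[ℝ] E')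
    (hp : ∀ x, i (p x) = x - l x • e) (R : ℝ) :
    ∀ {j : ℕ} (κ : E → E [⋀^Fin (j + 1)]→L[ℝ] F) (η : E → E [⋀^Fin j]→L[ℝ] F),
      ContDiff ℝ ∞ η → l e = 1 → (∀ x, fderiv ℝ η x e = io j e (κ x)) → (∀ x, l x < -R → η x = 0) →
      ∀ x, ((η x).compContinuousLinearMap i).compContinuousLinearMap p = η x
  | 0, _, η, _, _, _, _, x => by
    ext v
    simp only [compContinuousLinearMap_apply]
    congr 1
    exact Subsingleton.elim _ _
  | j + 1, κ, η, hs, he, hd, hz, x => by
    have hdη : Differentiable ℝ η := hs.differentiable (by simp)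
    have h1 : io j e (η x) = 0 := by
      refine zero_line (h := fun x => io j e (η x))
        ((contDiff_clm _ hs).differentiable (by simp)) l e he R (fun y hy => by simp [hz y hy]) x
        fun s => ?_
      rw [fderiv_clm _ (hdη _), ContinuousLinearMap.comp_apply, hd, io_io]
    ext v
    rw [← map_add_smul e (η x) h1 v (fun k => -l (v k))]
    simp only [compContinuousLinearMap_apply]
    congr 1
    funext k
    simp only [Function.comp_apply, hp, neg_smul]
    abel

/-- the statement for one space -/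
def PS (E F : Type) [NormedAddCommGroup E] [NormedSpace ℝ E] [NormedAddCommGroup F]
    [NormedSpace ℝ F] : Prop := ∀ (j : ℕ)
  (κ : E → (E [⋀^Fin (j + 1)]→L[ℝ] F)), j + 1 ≠ Module.finrank ℝ E → ContDiff ℝ ∞ κ →
    HasCompactSupport κ → (∀ x, extDeriv κ x = 0) →
    ∃ η : E → (E [⋀^Fin j]→L[ℝ] F), ContDiff ℝ ∞ η ∧ HasCompactSupport η ∧ ∀ x, extDeriv η x = κ x

/-- cutting off the pullback of a closed form -/
theorem exists_cut [FiniteDimensional ℝ E'] (l : E →L[ℝ] ℝ) (p : E →L[ℝ] E') (IH : PS E' F) :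
    ∀ {j : ℕ} (η' : E' → E' [⋀^Fin j]→L[ℝ] F), j ≠ Module.finrank ℝ E' → ContDiff ℝ ∞ η' →
      HasCompactSupport η' → (∀ y, extDeriv η' y = 0) →
      ∃ (θ : E → E [⋀^Fin j]→L[ℝ] F) (R : ℝ), ContDiff ℝ ∞ θ ∧ (∀ x, extDeriv θ x = 0) ∧
        (∀ x, 1 < l x → θ x = (η' (p x)).compContinuousLinearMap p) ∧
        (∀ x, l x < 0 → θ x = 0) ∧ ∀ x, R < ‖p x‖ → θ x = 0
  | 0, η', hj, hs, hcs, hc => by
    have : Nontrivial E' := Module.nontrivial_of_finrank_pos (R := ℝ) (by omega)
    obtain ⟨R, -, hR⟩ := exists_bound hcs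
    have h0 := zero_form (hs.differentiable (by simp)) R hR hc
    refine ⟨fun _ => 0, 0, contDiff_const,
      fun x => extDeriv_zero_of isOpen_univ (fun _ _ => rfl) (mem_univ x), fun x _ => ?_,
      fun _ _ => rfl, fun _ _ => rfl⟩
    rw [h0]
    rfl
  | j + 1, η', hj, hs, hcs, hc => by
    obtain ⟨ζ, hζ, hζc, hd⟩ := IH j η' hj hs hcs hc
    obtain ⟨R, -, hR⟩ := exists_bound hζc
    have hP : ContDiff ℝ ∞ fun x => (ζ (p x)).compContinuousLinearMap p := by
      simpa using contDiff_affine hζ p 0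
    have hA : ContDiff ℝ ∞ fun x => Real.smoothTransition (l x) :=
      Real.smoothTransition.contDiff.comp l.contDiff
    have hm : ContDiff ℝ ∞ fun x =>
        Real.smoothTransition (l x) • (ζ (p x)).compContinuousLinearMap p := hA.smul hP
    refine ⟨extDeriv _, R, contDiff_extDeriv hm,
      fun x => extDeriv_extDeriv_apply hm.contDiffAt two_le, fun x hx => ?_, fun x hx => ?_,
      fun x hx => ?_⟩
    · have h1 : (fun x => Real.smoothTransition (l x) • (ζ (p x)).compContinuousLinearMap p)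
          =ᶠ[𝓝 x] fun x => (ζ (p x + 0)).compContinuousLinearMap p := by
        filter_upwards [(isOpen_lt continuous_const l.continuous).mem_nhds hx] with y hy
        rw [Real.smoothTransition.one_of_one_le (le_of_lt hy), one_smul, add_zero]
      rw [h1.extDeriv_eq, extDeriv_affine (hζ.differentiable (by simp)), add_zero, hd]
    · refine extDeriv_zero_of (U := {y | l y < 0}) (isOpen_lt l.continuous continuous_const)
        (fun y hy => ?_) hx
      rw [Real.smoothTransition.zero_of_nonpos (le_of_lt hy), zero_smul]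
    · refine extDeriv_zero_of (U := {y | R < ‖p y‖})
        (isOpen_lt continuous_const p.continuous.norm) (fun y hy => ?_) hx
      rw [hR _ hy]
      ext v
      simp

theorem step [FiniteDimensional ℝ E] [FiniteDimensional ℝ E'] [CompleteSpace F]
    (l : E →L[ℝ] ℝ) (e : E) (he : l e = 1) (i : E' →L[ℝ] E) (p : E →L[ℝ] E')
    (hp : ∀ x, i (p x) = x - l x • e) (hi : ∀ y, p (i y) = y) (hpe : p e = 0)
    (hli : ∀ y, l (i y) = 0) (hr : Module.finrank ℝ E = Module.finrank ℝ E' + 1)
    (IH : PS E' F) : PS E F := by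
  intro j κ hj hκ hcs hc
  obtain ⟨R₀, hR₀, hR⟩ := exists_bound hcs
  have hb : ∀ {H : Type} [NormedAddCommGroup H] [NormedSpace ℝ H] (L : E →L[ℝ] H) (x : E),
      ‖L‖ * R₀ < ‖L x‖ → κ x = 0 := fun L x hx => by
    refine hR x (not_le.1 fun h => ?_)
    have := L.le_opNorm x
    have := mul_le_mul_of_nonneg_left h (norm_nonneg L)
    linarith
  set R := ‖l‖ * R₀ with hRd
  have hR0 : 0 ≤ R := by positivity
  have h0 : ∀ x, R < |l x| → κ x = 0 := fun x hx => hb l x hx
  obtain ⟨η, hs, hd, hz, hdη⟩ := exists_prim l e he κ hκ hc R h0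
  have hdf : Differentiable ℝ η := hs.differentiable (by simp)
  have hzp : ∀ x, ‖p‖ * R₀ < ‖p x‖ → η x = 0 := fun x hx =>
    zero_line hdf l e he R hz x fun s => by
      rw [hd, hb p _ (by simpa [hpe] using hx), _root_.map_zero]
  have hray : ∀ x, R < l x → η x = η (i (p x) + (R + 1) • e) := fun x hx => by
    have := const_ray hdf (i (p x)) e R (fun s hs => by
      rw [hd, h0 _ (by simpa [hli, he] using lt_of_lt_of_le hs (le_abs_self s)), _root_.map_zero])
      (l x) (R + 1) hx (by linarith)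
    rw [← this, hp]
    simp
  obtain ⟨θ, R', hθ, hθc, hθ1, hθ0, hθp⟩ := exists_cut (F := F) ((R + 1)⁻¹ • l) p IH
    (fun y => (η (i y + (R + 1) • e)).compContinuousLinearMap i) (by omega)
    (contDiff_affine hs i _)
    (of_bound (‖p‖ * R₀) fun y hy => by
      rw [hzp _ (by simpa [hi, hpe] using hy)]; rfl)
    (fun y => by
      rw [extDeriv_affine hdf, hdη, h0 _ (by
        simp only [map_add, map_smul, hli, he, smul_eq_mul, mul_one, zero_add]
        exact lt_of_lt_of_le (by linarith) (le_abs_self _))]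
      rfl)
  refine ⟨fun x => η x - θ x, hs.sub hθ,
    of_bound (‖i‖ * max R' (‖p‖ * R₀) + (R + 1) * ‖e‖) fun x hx => ?_, fun x => ?_⟩
  · by_cases h1 : R + 1 < l x
    · have h2 : 1 < ((R + 1)⁻¹ • l) x := by
        simp only [ContinuousLinearMap.smul_apply, smul_eq_mul]
        rw [← div_eq_inv_mul, lt_div_iff₀ (by linarith)]
        linarith
      rw [hθ1 x h2, ← hray x (by linarith), comp_proj l e i p hp R κ η hs he hd hz, sub_self]
    by_cases h2 : l x < -R
    · have h3 : ((R + 1)⁻¹ • l) x < 0 := by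
        simp only [ContinuousLinearMap.smul_apply, smul_eq_mul]
        exact mul_neg_of_pos_of_neg (by positivity) (by linarith)
      rw [hz x h2, hθ0 x h3, sub_self]
    have h3 : max R' (‖p‖ * R₀) < ‖p x‖ := by
      refine not_le.1 fun h => ?_
      have e1 : x = i (p x) + l x • e := by rw [hp]; simp
      have e2 : ‖x‖ ≤ ‖i (p x)‖ + ‖l x • e‖ := by
        conv_lhs => rw [e1]
        exact norm_add_le _ _
      have e3 := i.le_opNorm (p x)
      have e4 := mul_le_mul_of_nonneg_left h (norm_nonneg i)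
      have e5 : |l x| ≤ R + 1 := abs_le.2 ⟨by linarith, by linarith⟩
      have e6 := mul_le_mul_of_nonneg_right e5 (norm_nonneg e)
      rw [norm_smul, Real.norm_eq_abs] at e2
      linarith
    rw [hzp x (lt_of_le_of_lt (le_max_right _ _) h3), hθp x (lt_of_le_of_lt (le_max_left _ _) h3),
      sub_self]
  · rw [extDeriv_sub' (hdf x) (hθ.differentiable (by simp) x), hdη, hθc, sub_zero]

theorem all [CompleteSpace F] : ∀ (n : ℕ) (E : Type) [NormedAddCommGroup E] [NormedSpace ℝ E]
    [FiniteDimensional ℝ E], Module.finrank ℝ E = n → PS E F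
  | 0, E, _, _, _, hn => by
    have : Subsingleton E := Module.finrank_zero_iff.1 hn
    intro j κ _ _ _ _
    refine ⟨fun _ => 0, contDiff_const, HasCompactSupport.zero, fun x => ?_⟩
    rw [extDeriv_zero_of isOpen_univ (fun _ _ => rfl) (mem_univ x)]
    ext v
    exact ((κ x).map_coord_zero 0 (Subsingleton.elim _ _)).symm
  | n + 1, E, _, _, _, hn => by
    have h1 : Module.finrank ℝ E = Module.finrank ℝ ((Fin n → ℝ) × ℝ) := by simp [hn]
    let φ : E ≃L[ℝ] (Fin n → ℝ) × ℝ := ContinuousLinearEquiv.ofFinrankEq h1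
    refine step (E' := Fin n → ℝ) ((ContinuousLinearMap.snd ℝ _ _).comp φ.toContinuousLinearMap)
      (φ.symm (0, 1)) (by simp)
      (φ.symm.toContinuousLinearMap.comp (ContinuousLinearMap.inl ℝ _ _))
      ((ContinuousLinearMap.fst ℝ _ _).comp φ.toContinuousLinearMap) (fun x => ?_)
      (fun y => by simp) (by simp) (fun y => by simp) (by simp [hn])
      (all n (Fin n → ℝ) (by simp))
    apply φ.injective
    ext <;> simp

end GK4850.B6

namespace GK4850

theorem b6a : B6aSt := fun E _ _ _ F _ _ _ =>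
  have := FiniteDimensional.complete ℝ F
  B6.all _ E rfl

end GK4850
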