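import Pool.Agent.Lib.MP_4850ea_gt.GK.StB
import Pool.Agent.Lib.MP_4850ea_gt.GK.B5

/-! B6b: averaging and the extension of closed Cartan forms over the origin. -/

open scoped ContDiff Topology
open Set Filter ContinuousAlternatingMap

namespace GK4850

namespace Avg

section param

variable {E G : Type} [NormedAddCommGroup E] [NormedSpace ℝ E] [FiniteDimensional ℝ E]
  [NormedAddCommGroup G] [NormedSpace ℝ G] [CompleteSpace G] {H : E × ℝ → G}

omit [FiniteDimensional ℝ E] [CompleteSpace G] in
theorem cont (hH : ContDiff ℝ ∞ H) :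
    Continuous fun x : E × ℝ => (fderiv ℝ H x).comp (ContinuousLinearMap.inl ℝ E ℝ) :=
  (hH.continuous_fderiv (by simp)).clm_comp continuous_const

omit [FiniteDimensional ℝ E] [CompleteSpace G] in
theorem ii (hH : ContDiff ℝ ∞ H) (p : E) : IntervalIntegrable
    (fun t : ℝ => (fderiv ℝ H (p, t)).comp (ContinuousLinearMap.inl ℝ E ℝ))
    MeasureTheory.volume 0 1 :=
  ((cont hH).comp (Continuous.prodMk_right p)).intervalIntegrable 0 1

omit [FiniteDimensional ℝ E] [CompleteSpace G] in
theorem slice (hH : ContDiff ℝ ∞ H) (q : E) (t : ℝ) : HasFDerivAt (fun q => H (q, t))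
    ((fderiv ℝ H (q, t)).comp (ContinuousLinearMap.inl ℝ E ℝ)) q :=
  (hH.differentiable (by simp) _).hasFDerivAt.comp q (hasFDerivAt_prodMk_left q t)

omit [CompleteSpace G] in
theorem has (hH : ContDiff ℝ ∞ H) (p : E) : HasFDerivAt (fun q : E => ∫ t in (0 : ℝ)..1, H (q, t))
    (∫ t in (0 : ℝ)..1, (fderiv ℝ H (p, t)).comp (ContinuousLinearMap.inl ℝ E ℝ)) p := by
  have : ProperSpace E := FiniteDimensional.proper_real E
  obtain ⟨C, hC⟩ := ((isCompact_closedBall p 1).prod
    (isCompact_uIcc (a := (0 : ℝ)) (b := 1))).exists_bound_of_continuousOn (cont hH).continuousOn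
  have h1 : ∀ q : E, Continuous fun t : ℝ => H (q, t) := fun q =>
    hH.continuous.comp (Continuous.prodMk_right q)
  exact intervalIntegral.hasFDerivAt_integral_of_dominated_of_fderiv_le
    (F := fun q t => H (q, t))
    (F' := fun q t => (fderiv ℝ H (q, t)).comp (ContinuousLinearMap.inl ℝ E ℝ))
    (bound := fun _ => C) (Metric.closedBall_mem_nhds p one_pos)
    (Eventually.of_forall fun q => (h1 q).aestronglyMeasurable) ((h1 p).intervalIntegrable 0 1)
    ((cont hH).comp (Continuous.prodMk_right p)).aestronglyMeasurable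
    (Eventually.of_forall fun t ht q hq => hC (q, t) ⟨hq, uIoc_subset_uIcc ht⟩)
    (continuous_const.intervalIntegrable 0 1) (Eventually.of_forall fun t _ q _ => slice hH q t)

theorem nat (n : ℕ) : ∀ {H : E × ℝ → G}, ContDiff ℝ ∞ H →
    ContDiff ℝ n fun q : E => ∫ t in (0 : ℝ)..1, H (q, t) := by
  induction n with
  | zero =>
    intro H hH
    have : Differentiable ℝ fun q : E => ∫ t in (0 : ℝ)..1, H (q, t) := fun p =>
      (has hH p).differentiableAt
    simpa using this.continuous
  | succ n ih =>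
    intro H hH
    rw [Nat.cast_succ, contDiff_succ_iff_fderiv_apply]
    refine ⟨fun p => (has hH p).differentiableAt, by simp, fun v => ?_⟩
    convert ih (H := fun x => fderiv ℝ H x (v, 0))
      ((hH.fderiv_right (m := ∞) (by simp)).clm_apply contDiff_const) using 2 with p
    rw [(has hH p).fderiv, ContinuousLinearMap.intervalIntegral_apply (ii hH p)]
    simp

end param

variable {r : ℕ} {K : Type} [Fintype K] {α : K → Fin r → ℤ} {F : Type} [NormedAddCommGroup F]
  [NormedSpace ℝ F] [FiniteDimensional ℝ F] {j : ℕ}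

/-- the action on forms -/
noncomputable def act (α : K → Fin r → ℤ) (t : Fin r → ℝ) (η : W K → (W K [⋀^Fin j]→L[ℝ] F))
    (x : W K) : W K [⋀^Fin j]→L[ℝ] F := (η (rho α t x)).compContinuousLinearMap (rho α t)

omit [FiniteDimensional ℝ F] in
theorem act_act (s t : Fin r → ℝ) (η : W K → (W K [⋀^Fin j]→L[ℝ] F)) :
    act α s (act α t η) = act α (t + s) η := by
  funext x
  simp only [act, rho_add]
  rfl

theorem step {η : W K → (W K [⋀^Fin j]→L[ℝ] F)} {κ : W K → (W K [⋀^Fin (j + 1)]→L[ℝ] F)} {L : ℝ}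
    (hκ : ∀ t, act α t κ = κ) (h1 : ContDiff ℝ ∞ η) (h2 : ∀ x, L < ‖x‖ → η x = 0)
    (h3 : ∀ x, extDeriv η x = κ x) (a : Fin r) :
    ∃ η' : W K → (W K [⋀^Fin j]→L[ℝ] F), ContDiff ℝ ∞ η' ∧ (∀ x, L < ‖x‖ → η' x = 0) ∧
      (∀ x, extDeriv η' x = κ x) ∧ (∀ s : ℝ, act α (s • Pi.single a 1) η' = η') ∧
      ∀ t, act α t η = η → act α t η' = η' := by
  have := FiniteDimensional.complete ℝ F
  set e : Fin r → ℝ := Pi.single a 1 with he
  have hr : ContDiff ℝ ∞ fun p : W K × ℝ => rho α (p.2 • e) :=
    contDiff_rho.comp (contDiff_snd.smul contDiff_const)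
  have hH : ContDiff ℝ ∞ fun p : W K × ℝ => act α (p.2 • e) η p.1 :=
    contDiffOn_univ.1 (Alt.contDiffOn_comp (h1.comp (hr.clm_apply contDiff_fst)).contDiffOn
      hr.contDiffOn)
  have ha : ∀ t x, act α t (fun x => ∫ s in (0:ℝ)..1, act α (s • e) η x) x =
      ∫ s in (0:ℝ)..1, act α (s • e + t) η x := fun t x => by
    simp only [← act_act]
    exact ((compContinuousLinearMapCLM (rho α t)).intervalIntegral_comp_comm
      ((hH.continuous.comp (Continuous.prodMk_right (rho α t x))).intervalIntegrable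
        (μ := MeasureTheory.volume) 0 1)).symm
  refine ⟨fun x => ∫ s in (0:ℝ)..1, act α (s • e) η x, contDiff_infty.2 fun n => nat n hH,
    fun x hx => ?_, fun x => ?_, fun s => funext fun x => ?_, fun t ht => funext fun x => ?_⟩
  · have : ∀ s : ℝ, act α (s • e) η x = 0 := fun s => by
      rw [act, h2 _ (by rwa [norm_rho])]; rfl
    simp [this]
  · rw [extDeriv, (has hH x).fderiv]
    refine ((alternatizeUncurryFinCLM ℝ (W K) F).intervalIntegral_comp_comm
      (ii hH x)).symm.trans ?_
    have : ∀ s : ℝ, alternatizeUncurryFinCLM ℝ (W K) F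
        ((fderiv ℝ (fun p : W K × ℝ => act α (p.2 • e) η p.1) (x, s)).comp
          (ContinuousLinearMap.inl ℝ (W K) ℝ)) = κ x := fun s => by
      have e1 := extDeriv_pullback (r := ∞) (f := rho α (s • e)) (x := x)
        (h1.differentiable (by simp) _) (rho α _).contDiff.contDiffAt two_le_infty
      simp only [ContinuousLinearMap.fderiv] at e1
      rw [← (slice hH x s).fderiv, ← congrFun (hκ (s • e)) x, act, ← h3, ← e1]
      rfl
    simp only [this]
    simp
  · rw [ha]
    have p : Function.Periodic (fun u : ℝ => act α (u • e) η x) 1 := fun u => by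
      have : e = fun b => ((Pi.single a 1 : Fin r → ℤ) b : ℝ) := by
        funext b; by_cases h : b = a <;> simp [he, h]
      have h1 : rho α e = .id ℝ _ := by rw [this]; exact rho_int _
      simp only [add_smul, one_smul, act, rho_add, h1, ContinuousLinearMap.comp_id]
    simp only [← add_smul]
    rw [intervalIntegral.integral_comp_add_right (fun u : ℝ => act α (u • e) η x) s, zero_add,
      add_comm 1 s, p.intervalIntegral_add_eq s 0, zero_add]
  · rw [ha]
    simp only [add_comm _ t, ← act_act, ht]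

theorem avg {η : W K → (W K [⋀^Fin j]→L[ℝ] F)} {κ : W K → (W K [⋀^Fin (j + 1)]→L[ℝ] F)} {L : ℝ}
    (hκ : SI α univ κ) (h1 : ContDiff ℝ ∞ η) (h2 : ∀ x, L < ‖x‖ → η x = 0)
    (h3 : ∀ x, extDeriv η x = κ x) :
    ∃ η' : W K → (W K [⋀^Fin j]→L[ℝ] F), SI α univ η' ∧ (∀ x, L < ‖x‖ → η' x = 0) ∧
      ∀ x, extDeriv η' x = κ x := by
  classical
  have key : ∀ S : Finset (Fin r), ∃ η' : W K → (W K [⋀^Fin j]→L[ℝ] F), ContDiff ℝ ∞ η' ∧
      (∀ x, L < ‖x‖ → η' x = 0) ∧ (∀ x, extDeriv η' x = κ x) ∧
      ∀ t : Fin r → ℝ, act α (∑ a ∈ S, t a • Pi.single a 1) η' = η' := by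
    intro S
    induction S using Finset.induction_on with
    | empty => exact ⟨η, h1, h2, h3, fun t => funext fun x => by simp [act, rho_zero]; rfl⟩
    | insert a S ha ih =>
      obtain ⟨η1, k1, k2, k3, k4⟩ := ih
      obtain ⟨η2, l1, l2, l3, l4, l5⟩ := step (fun t => funext fun x => hκ.inv t x trivial)
        k1 k2 k3 a
      exact ⟨η2, l1, l2, l3, fun t => by rw [Finset.sum_insert ha, ← act_act, l4, l5 _ (k4 t)]⟩
  obtain ⟨η', k1, k2, k3, k4⟩ := key Finset.univ
  refine ⟨η', ⟨k1.contDiffOn, fun t x _ => ?_⟩, k2, k3⟩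
  have := congrFun (k4 t) x
  rwa [← pi_eq_sum_univ'] at this

variable [Module (SS r) F] [IsScalarTower ℝ (SS r) F]

/-- closed from degree `m` on -/
def Good (α : K → Fin r → ℤ) (β : Form K F) (m : ℕ) : Prop :=
  ∃ (c : Form K F) (L : ℝ), (∀ j, SI α univ (c j)) ∧ (∀ j, Odd j → ∀ x, c j x = 0) ∧
    (∀ j x, L < ‖x‖ → c j x = β j x) ∧ 0 ≤ L ∧
    ∀ j, m ≤ j → ∀ x, extDeriv (c j) x = iota α (c (j + 2)) x

theorem Good.base {β : Form K F} (h : ECl α {0}ᶜ β) : Good α β (Module.finrank ℝ (W K)) := by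
  have hρ : ContDiff ℝ ∞ fun x : W K => Real.smoothTransition (2 * ‖x‖ ^ 2 - 1) :=
    Real.smoothTransition.contDiff.comp
      ((contDiff_const.mul (contDiff_norm_sq ℝ)).sub contDiff_const)
  have z : ∀ x : W K, ‖x‖ ^ 2 < 1 / 2 → Real.smoothTransition (2 * ‖x‖ ^ 2 - 1) = 0 := fun x hx =>
    Real.smoothTransition.zero_of_nonpos (by linarith)
  refine ⟨fun j x => Real.smoothTransition (2 * ‖x‖ ^ 2 - 1) • β j x, 1, fun j => ⟨fun x _ => ?_,
    fun t x _ => ?_⟩, fun j hj x => ?_, fun j x hx => ?_, zero_le_one, fun j hj x => ?_⟩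
  · refine ContDiffAt.contDiffWithinAt ?_
    by_cases e : x = 0
    · refine (contDiffAt_const (c := 0)).congr_of_eventuallyEq ?_
      have : ∀ᶠ y : W K in 𝓝 x, ‖y‖ ^ 2 < 1 / 2 :=
        (continuous_norm.pow 2).continuousAt.eventually_lt continuousAt_const (by simp [e])
      exact this.mono fun y hy => by simp [z y hy]
    · exact hρ.contDiffAt.smul ((h.si j).sm.contDiffAt (isOpen_compl_singleton.mem_nhds e))
  · by_cases e : x = 0
    · subst e; simp only [_root_.map_zero, z 0 (by simp), zero_smul]; rfl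
    · simp only [norm_rho]; rw [← (h.si j).inv t x e]; rfl
  · by_cases e : x = 0
    · subst e; simp only [z 0 (by simp), zero_smul]
    · simp only [h.even j hj x e, smul_zero]
  · simp only [Real.smoothTransition.one_of_one_le (show 1 ≤ 2 * ‖x‖ ^ 2 - 1 by nlinarith),
      one_smul]
  · exact (Alt.eq_zero_of_lt _ (by omega)).trans (Alt.eq_zero_of_lt _ (by omega)).symm

theorem Good.step (h6 : B6aSt) {β : Form K F} (h : ECl α {0}ᶜ β) {m : ℕ} (g : Good α β (m + 1)) :
    Good α β m := by
  obtain ⟨c, L, si, od, eq, L0, cl⟩ := g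
  rcases Nat.even_or_odd m with hm | hm
  · set ζ : W K → (W K [⋀^Fin (m + 1)]→L[ℝ] F) := fun x =>
      extDeriv (c m) x - iota α (c (m + 2)) x with hζ
    have z1 : SI α univ ζ := ((si m).extDeriv .univ).sub (si (m + 2)).iota
    have z2 : ∀ x, L < ‖x‖ → ζ x = 0 := fun x hx => by
      have hx0 : x ≠ 0 := by rintro rfl; simp at hx; linarith
      have : ∀ᶠ y in 𝓝 x, c m y = β m y :=
        (continuousAt_const.eventually_lt continuous_norm.continuousAt hx).mono fun y => eq m y
      simp only [hζ]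
      rw [Filter.EventuallyEq.extDeriv_eq this, iota_congr (eq _ x hx), h.cl m hx0, sub_self]
    have z3 : ∀ x, extDeriv ζ x = 0 := fun x => by
      rw [Alt.extDeriv_sub' (((si m).extDeriv .univ).diff isOpen_univ trivial)
        ((si (m + 2)).iota.diff isOpen_univ trivial), (si m).dd isOpen_univ trivial,
        (si (m + 2)).extDeriv_iota isOpen_univ trivial,
        iota_congr (c' := iota α (c (m + 2 + 2))) (cl (m + 2) (by omega) x), iota_iota]
      simp
    have z4 : m + 1 ≠ Module.finrank ℝ (W K) := by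
      have : Module.finrank ℝ (W K) = Fintype.card K * 2 := by
        rw [(WithLp.linearEquiv 2 ℝ (K → ℂ)).finrank_eq, Module.finrank_pi_fintype]
        simp
      obtain ⟨k, rfl⟩ := hm
      omega
    obtain ⟨η, e1, e2, e3⟩ := h6 (W K) F m ζ z4 (contDiffOn_univ.1 z1.sm)
      (HasCompactSupport.intro (isCompact_closedBall 0 L) fun x hx => z2 x (by simpa using hx)) z3
    obtain ⟨L', hL⟩ := e2.isCompact.isBounded.subset_closedBall 0
    obtain ⟨η', k1, k2, k3⟩ := avg (L := L') z1 e1 (fun x hx => image_eq_zero_of_notMem_tsupport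
      fun hh => by have := hL hh; simp at this; linarith) e3
    refine ⟨Function.update c m fun x => c m x - η' x, max L L', fun j => ?_, fun j hj x => ?_,
      fun j x hx => ?_, le_max_of_le_left L0, fun j hj x => ?_⟩
    · by_cases e : j = m
      · subst e; rw [Function.update_self]; exact (si j).sub k1
      · rw [Function.update_of_ne e]; exact si j
    · rw [Function.update_of_ne (by rintro rfl; exact Nat.not_even_iff_odd.2 hj hm)]
      exact od j hj x
    · by_cases e : j = m
      · subst e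
        rw [Function.update_self, k2 x (lt_of_le_of_lt (le_max_right _ _) hx), sub_zero]
        exact eq j x (lt_of_le_of_lt (le_max_left _ _) hx)
      · rw [Function.update_of_ne e]; exact eq j x (lt_of_le_of_lt (le_max_left _ _) hx)
    · rw [Function.update_of_ne (show j + 2 ≠ m by omega)]
      by_cases e : j = m
      · subst e
        rw [Function.update_self, Alt.extDeriv_sub' ((si j).diff isOpen_univ trivial)
          (k1.diff isOpen_univ trivial), k3]
        simp [hζ]
      · rw [Function.update_of_ne e]; exact cl j (by omega) x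
  · refine ⟨c, L, si, od, eq, L0, fun j hj x => ?_⟩
    rcases hj.eq_or_lt with rfl | l
    · rw [Alt.extDeriv_of_zero (Eventually.of_forall (od _ hm)),
        iota_of_zero (od _ (hm.add_even even_two) x)]
    · exact cl j l x

end Avg

theorem b6b (h6 : B6aSt) : B6bSt := by
  intro r K _ α F _ _ _ _ _ β h
  have key : ∀ k m, m + k = Module.finrank ℝ (W K) → Avg.Good α β m := by
    intro k
    induction k with
    | zero => rintro m rfl; exact Avg.Good.base h
    | succ k ih => exact fun m e => (ih (m + 1) (by omega)).step h6 h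
  obtain ⟨c, L, si, od, eq, -, cl⟩ := key _ 0 (zero_add _)
  exact ⟨c, L, .of si (fun j hj x _ => od j hj x) fun j x _ => cl j (Nat.zero_le _) x, eq⟩

end GK4850
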