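import Pool.Agent.Lib.MP_4850ea_gt.GK.StB
import Pool.Agent.Lib.MP_4850ea_gt.GK.B5

/-! B6c: equivariant Thom forms. -/

open scoped ContDiff Topology
open Set Filter ContinuousAlternatingMap

namespace GK4850

namespace Thom

section wedge

variable {E F : Type} [NormedAddCommGroup E] [NormedSpace ℝ E] [NormedAddCommGroup F]
  [NormedSpace ℝ F] {n : ℕ}

/-- product of a linear form and an alternating form -/
noncomputable def wd (θ : E →L[ℝ] ℝ) (c : E [⋀^Fin n]→L[ℝ] F) : E [⋀^Fin (n + 1)]→L[ℝ] F :=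
  alternatizeUncurryFin (θ.smulRight c)

theorem wd_apply (θ : E →L[ℝ] ℝ) (c : E [⋀^Fin n]→L[ℝ] F) (v : Fin (n + 1) → E) :
    wd θ c v = ∑ i : Fin (n + 1), (-1) ^ (i : ℕ) • θ (v i) • c (i.removeNth v) := by
  simp [wd, alternatizeUncurryFin_apply]

theorem wd_zero (θ : E →L[ℝ] ℝ) : wd θ (0 : E [⋀^Fin n]→L[ℝ] F) = 0 := by
  ext v; simp [wd_apply]

theorem wd_comp (θ : E →L[ℝ] ℝ) (c : E [⋀^Fin n]→L[ℝ] F) (L : E →L[ℝ] E) :
    (wd θ c).compContinuousLinearMap L = wd (θ ∘L L) (c.compContinuousLinearMap L) := by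
  ext v
  simp only [compContinuousLinearMap_apply, wd_apply]
  rfl

theorem curry_wd_zero (θ : E →L[ℝ] ℝ) (c : E [⋀^Fin 0]→L[ℝ] F) (x : E) :
    (wd θ c).curryLeft x = θ x • c := Alt.curry_alt_zero _ _

theorem curry_wd (θ : E →L[ℝ] ℝ) (c : E [⋀^Fin (n + 1)]→L[ℝ] F) (x : E) :
    (wd θ c).curryLeft x = θ x • c - wd θ (c.curryLeft x) := by
  rw [wd, Alt.curry_alt]
  congr 2

theorem contDiff_wd {θ : E → E →L[ℝ] ℝ} {c : E → E [⋀^Fin n]→L[ℝ] F} (hθ : ContDiff ℝ ∞ θ)
    (hc : ContDiff ℝ ∞ c) : ContDiff ℝ ∞ fun x => wd (θ x) (c x) := by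
  have h := hθ.smulRight hc
  have h' := (alternatizeUncurryFinCLM ℝ E F (n := n)).contDiff.comp h
  exact h'

theorem has_smulRight {θ : E → E →L[ℝ] ℝ} {c : E → F} {x : E} {θ' : E →L[ℝ] E →L[ℝ] ℝ}
    {c' : E →L[ℝ] F} (hθ : HasFDerivAt θ θ' x) (hc : HasFDerivAt c c' x) :
    ∃ B B' : E →L[ℝ] E →L[ℝ] F, HasFDerivAt (fun y => (θ y).smulRight (c y)) (B + B') x ∧
      (∀ v w, B v w = θ x w • c' v) ∧ ∀ v w, B' v w = θ' v w • c x :=
  ⟨_, _, (ContinuousLinearMap.smulRightL ℝ E F).hasFDerivAt_of_bilinear hθ hc, fun _ _ => rfl,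
    fun _ _ => rfl⟩

theorem extDeriv_wd {θ : E → E →L[ℝ] ℝ} {c : E → E [⋀^Fin n]→L[ℝ] F} {x : E}
    {θ' : E →L[ℝ] E →L[ℝ] ℝ} (hθ : HasFDerivAt θ θ' x) (hs : ∀ v w, θ' v w = θ' w v)
    (hc : DifferentiableAt ℝ c x) :
    extDeriv (fun y => wd (θ y) (c y)) x = -wd (θ x) (extDeriv c x) := by
  obtain ⟨B, B', h0, e1, e2⟩ := has_smulRight hθ hc.hasFDerivAt
  have h1 := (alternatizeUncurryFinCLM ℝ E F (n := n)).hasFDerivAt.comp x h0
  rw [extDeriv, show fderiv ℝ (fun y => wd (θ y) (c y)) x = _ from h1.fderiv,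
    ContinuousLinearMap.comp_add, alternatizeUncurryFin_add, Alt.alt_alt_flip,
    alternatizeUncurryFin_alternatizeUncurryFinCLM_comp_of_symmetric (f := B')
      (fun v w => by rw [e2, e2, hs]), add_zero]
  congr 2
  ext v w
  simp [extDeriv, alternatizeUncurryFin_apply, Finset.smul_sum, smul_comm (θ x v), e1]

end wedge

variable {r : ℕ} {K : Type} [Fintype K] {α : K → Fin r → ℤ} {F : Type} [NormedAddCommGroup F]
  [NormedSpace ℝ F] [FiniteDimensional ℝ F] [Module (SS r) F] [IsScalarTower ℝ (SS r) F]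

theorem tA_lin (β : Fin r → ℤ) (y : F) :
    tA (lin β) y = ∑ a, (β a : ℝ) • tA (MvPolynomial.X a : SS r) y := by
  simp only [tA_apply, lin, Finset.sum_smul, MvPolynomial.C_mul', smul_assoc]

theorem iota_wd_zero (θ : W K → W K →L[ℝ] ℝ) (c : W K → (W K [⋀^Fin 0]→L[ℝ] F)) (x : W K)
    (β : Fin r → ℤ) (h : ∀ a, θ x (gen α (Pi.single a 1) x) = -β a) :
    iota α (fun y => wd (θ y) (c y)) x = -(tA (lin β)).compContinuousAlternatingMap (c x) := by
  ext v
  simp [iota, curry_wd_zero, h, ContinuousAlternatingMap.sum_apply, tA_lin]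

theorem iota_wd {j : ℕ} (θ : W K → W K →L[ℝ] ℝ) (c : W K → (W K [⋀^Fin (j + 1)]→L[ℝ] F)) (x : W K)
    (β : Fin r → ℤ) (h : ∀ a, θ x (gen α (Pi.single a 1) x) = -β a) :
    iota α (fun y => wd (θ y) (c y)) x =
      -(tA (lin β)).compContinuousAlternatingMap (c x) - wd (θ x) (iota α c x) := by
  ext v
  have e : wd (θ x) (iota α c x) v = ∑ a : Fin r, tA (MvPolynomial.X a : SS r)
      (wd (θ x) ((c x).curryLeft (gen α (Pi.single a 1) x)) v) := by
    simp only [wd_apply, iota, ContinuousAlternatingMap.sum_apply, _root_.map_sum,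
      Finset.smul_sum]
    rw [Finset.sum_comm]
    simp
  rw [ContinuousAlternatingMap.sub_apply, e]
  simp [iota, curry_wd, h, ContinuousAlternatingMap.sum_apply, tA_lin]

/-- the coordinate `i` -/
noncomputable def co (i : K) : W K →L[ℝ] ℂ := PiLp.proj 2 (fun _ : K => ℂ) i

/-- `c ↦ (w ↦ -Im (c wᵢ) / (2 π))` -/
noncomputable def Bm (i : K) : ℂ →L[ℝ] W K →L[ℝ] ℝ :=
  (-(2 * Real.pi)⁻¹) • (((ContinuousLinearMap.mul ℝ ℂ).bilinearComp (.id ℝ ℂ) (co i)).flip.flip
    |> fun B => (ContinuousLinearMap.compL ℝ (W K) ℂ ℝ Complex.imCLM).comp B)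

theorem Bm_apply (i : K) (c : ℂ) (w : W K) : Bm i c w = -(2 * Real.pi)⁻¹ * (c * w i).im := rfl

theorem step {τ : Form K F} (h : ECl α univ τ) (i : K) {ε : ℝ} (ε0 : 0 < ε) :
    ∃ τ' : Form K F, ECl α univ τ' ∧ val τ' 0 = lin (α i) • val τ 0 ∧
      (∀ j x, ε < ‖x i‖ → τ' j x = 0) ∧ ∀ x, (∀ j, ∀ᶠ y in 𝓝 x, τ j y = 0) → ∀ j, τ' j x = 0 := by
  set g : W K → ℝ := fun z => (‖z i‖ ^ 2 + expNegInvGlue (ε ^ 2 - ‖z i‖ ^ 2))⁻¹ with hg
  have n2 : ContDiff ℝ ∞ fun z : W K => ‖z i‖ ^ 2 := (contDiff_norm_sq ℝ).comp (co i).contDiff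
  have g1 : ContDiff ℝ ∞ g := (n2.add (expNegInvGlue.contDiff.comp (contDiff_const.sub n2))).inv
    fun z => by
      rcases (sq_nonneg ‖z i‖).eq_or_lt with e | e
      · rw [Function.comp_apply, ← e, zero_add, sub_zero]
        exact (expNegInvGlue.pos_of_pos (by positivity)).ne'
      · exact (add_pos_of_pos_of_nonneg e (expNegInvGlue.nonneg _)).ne'
  set θ : W K → W K →L[ℝ] ℝ := fun z => Bm i (g z • Complex.conjCLE (co i z)) with hθ
  have θ1 : ContDiff ℝ ∞ θ :=
    (Bm i).contDiff.comp (g1.smul (Complex.conjCLE.contDiff.comp (co i).contDiff))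
  have θ2 : ∀ t z, θ (rho α t z) ∘L rho α t = θ z := fun t z => by
    ext w
    have e : g (rho α t z) = g z := by simp only [hg, norm_rho_apply]
    set u := Complex.exp (2 * Real.pi * Complex.I * (pr (α i) t : ℝ)) with hu
    have u1 : (starRingEnd ℂ) u * u = 1 := by
      rw [hu, ← Complex.exp_conj, ← Complex.exp_add]; simp [map_ofNat]
    show Bm i (g (rho α t z) • (starRingEnd ℂ) (u * z i)) (rho α t w) =
      Bm i (g z • (starRingEnd ℂ) (z i)) w
    rw [Bm_apply, Bm_apply, e, rho_apply, ← hu]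
    congr 2
    simp only [map_mul, Complex.real_smul]
    linear_combination (g z * (starRingEnd ℂ) (z i) * w i) * u1
  have θ3 : ∀ z : W K, ε < ‖z i‖ → θ z = Bm i (z i)⁻¹ := fun z hz => by
    have e : g z = (‖z i‖ ^ 2)⁻¹ := by
      simp only [hg]
      rw [expNegInvGlue.zero_of_nonpos (by nlinarith), add_zero]
    show Bm i (g z • (starRingEnd ℂ) (z i)) = _
    rw [e, Complex.inv_def, Complex.normSq_eq_norm_sq, Complex.real_smul, mul_comm]
  set G : Form K F := fun j => Nat.casesOn j (fun _ => 0) fun j z => wd (θ z) (τ j z) with hG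
  have G1 : ∀ j, SI α univ (G j) := fun j => by
    cases j with
    | zero => exact SI.zero
    | succ j =>
      refine ⟨(contDiff_wd θ1 (contDiffOn_univ.1 (h.si j).sm)).contDiffOn, fun t x _ => ?_⟩
      show (wd _ _).compContinuousLinearMap _ = wd _ _
      rw [wd_comp, θ2, (h.si j).inv t x trivial]
  have G2 : ∀ j, Even j → ∀ x ∈ (univ : Set (W K)), G j x = 0 := fun j hj x _ => by
    cases j with
    | zero => rfl
    | succ j =>
      show wd _ _ = 0
      rw [h.even j (by simpa [parity_simps] using hj) x trivial, wd_zero]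
  have k := (h.post isOpen_univ (lin (α i))).sub isOpen_univ (ECl.dT .univ G1 G2)
  refine ⟨_, k, ?_, fun j x hx => ?_, fun x hx j => ?_⟩
  · show (tA (lin (α i))).compContinuousAlternatingMap (τ 0 0) ![] - (-iota α (G 1) 0) ![] = _
    rw [iota_at_zero, neg_zero]
    exact sub_zero _
  · have x0 : x i ≠ 0 := norm_pos_iff.1 (ε0.trans hx)
    have a1 : ∀ a, θ x (gen α (Pi.single a 1) x) = -α i a := fun a => by
      rw [θ3 x hx, Bm_apply, gen_apply, pr_single, mul_comm (x i)⁻¹, mul_assoc _ (x i),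
        mul_inv_cancel₀ x0]
      simp
      field_simp
    have a2 : HasFDerivAt θ (Bm i ∘L ((ContinuousLinearMap.toSpanSingleton ℂ
        (-((x i) ^ 2)⁻¹)).restrictScalars ℝ ∘L co i)) x := by
      refine ((Bm i).hasFDerivAt.comp x (((hasFDerivAt_inv x0).restrictScalars ℝ).comp x
        (co i).hasFDerivAt)).congr_of_eventuallyEq ?_
      exact (continuousAt_const.eventually_lt (co i).continuous.norm.continuousAt hx).mono θ3
    match j with
    | 0 =>
      show _ - -iota α (fun y => wd (θ y) (τ 0 y)) x = 0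
      rw [iota_wd_zero θ _ x _ a1, neg_neg, sub_self]
    | 1 => exact k.even 1 odd_one x trivial
    | j + 2 =>
      show _ - (extDeriv (fun y => wd (θ y) (τ j y)) x -
        iota α (fun y => wd (θ y) (τ (j + 2) y)) x) = 0
      rw [iota_wd θ _ x _ a1, extDeriv_wd a2 (fun v w => ?_) ((h.si j).diff isOpen_univ trivial),
        h.cl j trivial]
      · abel
      · show Bm i _ w = Bm i _ v
        rw [Bm_apply, Bm_apply]
        congr 2
        show v i * _ * w i = w i * _ * v i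
        ring
  · have z : ∀ j, ∀ᶠ y in 𝓝 x, G j y = 0 := fun j => by
      cases j with
      | zero => exact Eventually.of_forall fun _ => rfl
      | succ j => exact (hx j).mono fun y hy => by show wd _ _ = 0; rw [hy, wd_zero]
    have z2 : dT α G j x = 0 := by
      cases j with
      | zero => exact neg_eq_zero.2 (iota_of_zero (z 1).self_of_nhds)
      | succ j =>
        show extDeriv (G j) x - iota α (G (j + 2)) x = 0
        rw [Alt.extDeriv_of_zero (z j), iota_of_zero (z _).self_of_nhds, sub_zero]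
    show _ - _ = _
    rw [z2, (hx j).self_of_nhds, sub_zero]
    ext v; simp

end Thom

theorem b6c : B6cSt := by
  intro r K _ α F _ _ _ _ _ f₀ s ε ε0
  classical
  induction s using Finset.induction_on with
  | empty =>
    refine ⟨fun j => Nat.casesOn j (fun _ => constOfIsEmpty ℝ (W K) (Fin 0) f₀) fun _ _ => 0,
      .of (fun j => ?_) (fun j hj x _ => ?_) fun j x _ => ?_, by simp [val], by simp⟩
    · cases j with
      | zero => exact ⟨contDiffOn_const, fun _ _ _ => rfl⟩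
      | succ j => exact SI.zero
    · cases j with
      | zero => simp at hj
      | succ j => rfl
    · rw [iota_of_zero rfl]
      cases j with
      | zero =>
        show extDeriv (fun _ => constOfIsEmpty ℝ (W K) (Fin 0) f₀) x = 0
        rw [extDeriv, fderiv_fun_const]
        exact _root_.map_zero (alternatizeUncurryFinCLM ℝ (W K) F)
      | succ j => exact Alt.extDeriv_of_zero (Eventually.of_forall fun _ => rfl)
  | insert i s hi ih =>
    obtain ⟨τ, h1, h2, h3⟩ := ih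
    obtain ⟨τ', k1, k2, k3, k4⟩ := Thom.step h1 i ε0
    refine ⟨τ', k1, by rw [k2, h2, Finset.prod_insert hi, mul_smul], fun j x ⟨i', hi', hx⟩ => ?_⟩
    rcases Finset.mem_insert.1 hi' with rfl | hi'
    · exact k3 j x hx
    · exact k4 x (fun j => (continuousAt_const.eventually_lt
        (Thom.co i').continuous.norm.continuousAt hx).mono fun y hy => h3 j y ⟨i', hi', hy⟩) j

end GK4850
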