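import Pool.Agent.Lib.MP_4850ea_gt.GK.StB
import Pool.Agent.Lib.MP_4850ea_gt.GK.B0

/-! B7a: an invariant Morse function in normal form. -/

open scoped ContDiff Topology RealInnerProductSpace
open Set Filter Metric Real

namespace GK4850

namespace B7a

variable {r : ℕ} {J : Type} [Fintype J] {K : Type} [Fintype K]

/-- the model quadratic form -/
noncomputable def Qf (b : K → ℝ) (v : W K) : ℝ := ∑ i, b i * ‖v i‖ ^ 2

theorem Qf_eq (b : K → ℝ) (v : W K) : Qp b v - Qp (-b) v = Qf b v := by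
  classical
  simp only [Qp, Qf, Finset.sum_filter, ← Finset.sum_sub_distrib, Pi.neg_apply]
  refine Finset.sum_congr rfl fun i _ => ?_
  rcases lt_trichotomy (b i) 0 with h | h | h
  · simp [h, h.le]
  · simp [h]
  · simp [h, h.le]

theorem Qf_smooth (b : K → ℝ) : ContDiff ℝ ∞ (Qf b) :=
  ContDiff.sum fun i _ => contDiff_const.mul
    ((PiLp.proj 2 (fun _ : K => ℂ) i : W K →L[ℝ] ℂ).contDiff.norm_sq ℝ)

theorem Qf_deriv (b : K → ℝ) (v w : W K) :
    fderiv ℝ (Qf b) v w = ∑ i, 2 * b i * ((starRingEnd ℂ) (v i) * w i).re := by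
  have : HasFDerivAt (Qf b) _ v := HasFDerivAt.fun_sum fun i _ =>
    ((PiLp.proj 2 (fun _ : K => ℂ) i : W K →L[ℝ] ℂ).hasFDerivAt.norm_sq).const_mul (b i)
  rw [this.fderiv, sum_apply]
  refine Finset.sum_congr rfl fun i _ => ?_
  simp
  ring

theorem test (b : K → ℝ) (hb : ∀ i, b i ≠ 0) : ∃ β > 0, ∀ v : W K, ∃ w : W K, ‖w‖ = ‖v‖ ∧
    2 * β * ‖v‖ ^ 2 ≤ fderiv ℝ (Qf b) v w := by
  obtain ⟨β, h, h0⟩ := ((eventually_all.2 fun i => (eventually_lt_nhds (abs_pos.2 (hb i))).filter_mono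
    nhdsWithin_le_nhds).and (self_mem_nhdsWithin (s := Ioi (0 : ℝ)))).exists
  refine ⟨β, h0, fun v => ⟨WithLp.toLp 2 fun i => if 0 < b i then v i else -v i, ?_, ?_⟩⟩
  · rw [← sq_eq_sq₀ (norm_nonneg _) (norm_nonneg _), norm_sq_W, norm_sq_W]
    exact Finset.sum_congr rfl fun i _ => by dsimp only; split_ifs <;> simp
  · rw [Qf_deriv, norm_sq_W, Finset.mul_sum]
    refine Finset.sum_le_sum fun i _ => ?_
    have e : ((starRingEnd ℂ) (v i) * v i).re = ‖v i‖ ^ 2 := by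
      rw [Complex.conj_mul']; norm_cast
    have := h i
    dsimp only
    split_ifs with c
    · rw [abs_of_pos c] at this
      rw [e]
      gcongr
    · rw [abs_of_nonpos (not_lt.1 c)] at this
      rw [mul_neg, Complex.neg_re, e]
      nlinarith [sq_nonneg ‖v i‖]

/-- the cut-off function -/
noncomputable def cut (ρ : ℝ) (v : W K) : ℝ := smoothTransition (2 - (ρ ^ 2)⁻¹ * ‖v‖ ^ 2)

theorem cut_smooth (ρ : ℝ) : ContDiff ℝ ∞ (cut ρ : W K → ℝ) :=
  smoothTransition.contDiff.comp (contDiff_const.sub (contDiff_const.mul (contDiff_norm_sq ℝ)))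

theorem cut_one {ρ : ℝ} {v : W K} (h : ‖v‖ < ρ) : cut ρ v = 1 := by
  have h0 : 0 < ρ := (norm_nonneg v).trans_lt h
  have : (ρ ^ 2)⁻¹ * ‖v‖ ^ 2 ≤ 1 := by
    rw [inv_mul_le_iff₀ (by positivity), mul_one]
    gcongr
  exact smoothTransition.one_of_one_le (by linarith)

theorem cut_zero {ρ : ℝ} (h0 : 0 < ρ) {v : W K} (h : 2 * ρ < ‖v‖) : cut ρ v = 0 := by
  have : 2 ≤ (ρ ^ 2)⁻¹ * ‖v‖ ^ 2 := by
    rw [le_inv_mul_iff₀ (by positivity)]
    nlinarith
  exact smoothTransition.zero_of_nonpos (by linarith)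

theorem cut_deriv : ∃ C > 0, ∀ ρ > 0, ∀ v w : W K, ‖v‖ ≤ 2 * ρ →
    ρ ^ 2 * |fderiv ℝ (cut ρ) v w| ≤ C * (‖v‖ * ‖w‖) := by
  obtain ⟨C, hC⟩ := (isCompact_Icc (a := (-2 : ℝ)) (b := 2)).exists_bound_of_continuousOn
    ((smoothTransition.contDiff (n := 1)).continuous_deriv le_rfl).continuousOn
  have c0 : 0 ≤ C := (norm_nonneg _).trans (hC 0 (by simp))
  refine ⟨2 * C + 1, by positivity, fun ρ h0 v w h => ?_⟩
  have : HasFDerivAt (cut ρ : W K → ℝ) _ v :=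
    ((smoothTransition.contDiff (n := 1)).differentiable one_ne_zero _).hasDerivAt.comp_hasFDerivAt
      v (((hasFDerivAt_id v).norm_sq.const_mul (ρ ^ 2)⁻¹).const_sub 2)
  have a : (ρ ^ 2)⁻¹ * ‖v‖ ^ 2 ≤ 4 := by
    rw [inv_mul_le_iff₀ (by positivity)]
    nlinarith [norm_nonneg v]
  have b := hC (2 - (ρ ^ 2)⁻¹ * ‖v‖ ^ 2) ⟨by linarith, sub_le_self _ (by positivity)⟩
  have c := abs_real_inner_le_norm v w
  rw [this.fderiv]
  simp only [smul_apply, neg_apply, smul_eq_mul,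
    ContinuousLinearMap.comp_apply, ContinuousLinearMap.id_apply, innerSL_apply_apply, id,
    nsmul_eq_mul, abs_mul, abs_neg, Nat.cast_ofNat, abs_two]
  rw [abs_of_pos (a := (ρ ^ 2)⁻¹) (by positivity), mul_left_comm,
    mul_inv_cancel_left₀ (by positivity)]
  calc _ ≤ C * (2 * (‖v‖ * ‖w‖)) := by rw [← Real.norm_eq_abs]; gcongr
    _ ≤ _ := by nlinarith [mul_nonneg (norm_nonneg v) (norm_nonneg w)]

theorem est (b : K → ℝ) (hb : ∀ i, b i ≠ 0) : ∃ e > 0, ∀ ρ > 0, ∀ (m : W K → ℝ) (k ε : ℝ)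
    (v : W K), v ≠ 0 → ‖v‖ ≤ 2 * ρ → DifferentiableAt ℝ m v → |ε| ≤ e * ρ ^ 2 →
    |m v - k - Qf b v| ≤ e * ‖v‖ ^ 2 →
    (∀ w, |fderiv ℝ m v w - fderiv ℝ (Qf b) v w| ≤ e * ‖v‖ * ‖w‖) →
    fderiv ℝ (fun v => m v + cut ρ v * (k + ε + Qf b v - m v)) v ≠ 0 := by
  obtain ⟨β, β0, hβ⟩ := test b hb
  obtain ⟨C, C0, hC⟩ := cut_deriv (K := K)
  obtain ⟨e, e0, he⟩ : ∃ e > 0, e * (1 + 5 * C) = β :=
    ⟨β / (1 + 5 * C), by positivity, div_mul_cancel₀ _ (by positivity)⟩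
  refine ⟨e, e0, fun ρ h0 m k ε v v0 hv hm hε h1 h2 z => ?_⟩
  obtain ⟨w, n, hw⟩ := hβ v
  have dQ := ((Qf_smooth b).differentiable (by simp) v).hasFDerivAt
  have du := ((cut_smooth (K := K) ρ).differentiable (by simp) v).hasFDerivAt
  have := (hm.hasFDerivAt.fun_add (du.fun_mul ((dQ.const_add (k + ε)).fun_sub hm.hasFDerivAt))).fderiv
  rw [z] at this
  have e1 := DFunLike.congr_fun this w
  simp only [zero_apply, add_apply, smul_apply, sub_apply, smul_eq_mul] at e1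
  have a := hC ρ h0 v w hv
  have c := abs_le.1 (h2 w)
  rw [n] at a c
  have u0 : 0 ≤ cut ρ v := smoothTransition.nonneg _
  have u1 : cut ρ v ≤ 1 := smoothTransition.le_one _
  have p : 0 < ‖v‖ ^ 2 := by positivity
  have d : |k + ε + Qf b v - m v| ≤ 5 * e * ρ ^ 2 := by
    have : e * ‖v‖ ^ 2 ≤ e * (2 * ρ) ^ 2 := by gcongr
    have := abs_le.1 h1
    have := abs_le.1 hε
    exact abs_le.2 ⟨by linarith, by linarith⟩
  have f : |(k + ε + Qf b v - m v) * fderiv ℝ (cut ρ) v w| ≤ 5 * e * (C * (‖v‖ * ‖v‖)) := by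
    rw [abs_mul]
    calc _ ≤ 5 * e * ρ ^ 2 * |fderiv ℝ (cut ρ) v w| := by gcongr
      _ ≤ _ := by rw [mul_assoc _ (ρ ^ 2)]; gcongr
  have g := mul_le_mul_of_nonneg_left c.1 (sub_nonneg.2 u1)
  have i : 0 ≤ cut ρ v * (e * ‖v‖ * ‖v‖) := by positivity
  have j : 0 < β * ‖v‖ ^ 2 := by positivity
  rw [← he] at hw j
  nlinarith [(abs_le.1 f).1]

theorem loc (h4b : B4bSt) (h4c : B4cSt) (X : Emb r J) {p : W J} (hp : p ∈ X.Fix)
    (fr : WFrame X p K) {ξ : Fin r → ℝ} (h1 : ∀ j, X.γ j ≠ 0 → pr (X.γ j) ξ ≠ 0)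
    (h2 : ∀ i, pr (fr.α i) ξ ≠ 0) {η : ℝ} (hη : 0 < η) : ∃ (ch : Chart X fr) (δ : ℝ), 0 < δ ∧
      ∀ ε, |ε| ≤ δ → ∃ g : W J → ℝ, X.IsFn g ∧ (∀ x ∈ X.M, x ∉ ball p η → g =ᶠ[𝓝 x] 0) ∧
        fderiv ℝ (fun y => X.mx ξ y + g y) p = 0 ∧
        (∀ x ∈ X.M, x ∉ X.Fix → fderiv ℝ (fun y => X.mx ξ y + g y) x ≠ 0) ∧
        ∀ v ∈ ball 0 ch.R, ch.φ v ∈ ball p η ∧ X.mx ξ (ch.φ v) + g (ch.φ v) =
          X.mx ξ p + ε + Qf (fun i => π * fr.c i * pr (fr.α i) ξ) v := by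
  classical
  obtain ⟨ch, hch⟩ := h4b r J X p hp K fr
  set b := fun i => π * fr.c i * pr (fr.α i) ξ
  obtain ⟨e, e0, he⟩ := est b fun i => mul_ne_zero (mul_pos pi_pos (fr.c_pos i)).ne' (h2 i)
  have o : ∀ v ∈ ball (0 : W K) ch.R, ContDiffAt ℝ ∞ ch.φ v := fun v hv =>
    ch.φ_smooth.contDiffAt (isOpen_ball.mem_nhds hv)
  have z : (0 : W K) ∈ ball 0 ch.R := mem_ball_self ch.R_pos
  obtain ⟨ρ', ρ1, hρ⟩ := nhds_basis_closedBall.eventually_iff.1
    ((h4c r J X p hp K fr ch ξ e e0).and ((isOpen_ball.eventually_mem z).and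
      ((o 0 z).continuousAt.eventually_mem (ball_mem_nhds _ hη))))
  obtain ⟨ρ, ρ0, ρR, ρ2⟩ : ∃ ρ > 0, ρ ≤ ch.R ∧ 2 * ρ ≤ ρ' := ⟨min ch.R (ρ' / 2),
    lt_min ch.R_pos (half_pos ρ1), min_le_left _ _, by linarith [min_le_right ch.R (ρ' / 2)]⟩
  rw [ch.φ_zero] at hρ
  replace hρ := fun {v} (hv : v ∈ closedBall 0 (2 * ρ)) => hρ (closedBall_subset_closedBall ρ2 hv)
  obtain ⟨ch', eR, eφ, -⟩ := hch ρ ρ0 ρR
  have fm := X.isFn_mx ξ
  refine ⟨ch', e * ρ ^ 2, by positivity, fun ε hε => ?_⟩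
  let G : W J → ℝ := fun y => cut ρ (ch.ψ y) * (X.mx ξ p + ε + Qf b (ch.ψ y) - X.mx ξ y)
  let g : W J → ℝ := fun y => if y ∈ ch.O then G y else 0
  let S := ch.φ '' closedBall 0 (2 * ρ)
  have cS : IsClosed S := ((isCompact_closedBall _ _).image_of_continuousOn
    fun v hv => (o v (hρ hv).2.1).continuousAt.continuousWithinAt).isClosed
  have g0 : ∀ y ∈ X.U, X.π y ∉ S → g =ᶠ[𝓝 y] 0 := fun y hy hS => by
    filter_upwards [(X.differentiableAt_π hy).continuousAt.eventually_mem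
      (cS.isOpen_compl.mem_nhds hS)] with y' c
    refine ite_eq_right_iff.2 fun a => mul_eq_zero_of_left (cut_zero ρ0 (not_le.1 fun l => c ?_)) _
    exact ⟨_, mem_closedBall_zero_iff.2 l, (ch.ψ_mem _ a).2⟩
  have g1 : ∀ y ∈ ch.O, g =ᶠ[𝓝 y] G := fun y hy =>
    (ch.O_open.eventually_mem hy).mono fun _ c => if_pos c
  have gφ : ∀ v ∈ ball 0 ch.R, g (ch.φ v) =
      cut ρ v * (X.mx ξ p + ε + Qf b v - X.mx ξ (ch.φ v)) := fun v hv => by
    simp only [g, G, if_pos (ch.φ_mem v hv).2.1, (ch.φ_mem v hv).2.2]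
  have fg : X.IsFn g := by
    refine ⟨fun y hy => ?_, fun y hy => ?_, fun t y hy => ?_⟩
    · by_cases a : y ∈ ch.O
      · exact ((((cut_smooth ρ).comp_contDiffOn ch.ψ_smooth).mul ((contDiffOn_const.add
          ((Qf_smooth b).comp_contDiffOn ch.ψ_smooth)).sub fm.smooth)) y hy).congr_of_eventuallyEq
          ((g1 y a).filter_mono nhdsWithin_le_nhds) (if_pos a)
      · refine (contDiffAt_const.congr_of_eventuallyEq (g0 y hy ?_)).contDiffWithinAt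
        rintro ⟨v, hv, c⟩
        exact a ((ch.O_π y hy).2 (c ▸ (ch.φ_mem v (hρ hv).2.1).2.1))
    · simp only [g, G, ← ch.O_π y hy, ch.ψ_π y hy, fm.fπ y hy]
    · have : rho X.γ t y ∈ ch.O ↔ y ∈ ch.O :=
        ⟨fun c => rho_neg_rho t y ▸ ch.O_inv (-t) c, fun c => ch.O_inv t c⟩
      simp only [g, G, this, ch.ψ_eqv t y hy, fm.inv t y hy, cut, Qf, norm_rho, norm_rho_apply]
  have d : ∀ {f}, X.IsFn f → ∀ y ∈ X.M, DifferentiableAt ℝ f y := fun h y hy =>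
    (h.smooth.contDiffAt (X.isOpen.mem_nhds (X.sub hy))).differentiableAt (by simp)
  refine ⟨g, fg, fun x hx c => g0 x (X.sub hx) ?_, ?_, fun x hx n => ?_, fun v hv => ?_⟩
  · rw [X.π_id x hx]
    rintro ⟨v, hv, rfl⟩
    exact c (hρ hv).2.2
  · obtain ⟨-, a, c⟩ := ch.φ_mem 0 z
    rw [ch.φ_zero] at a c
    have dψ := (ch.ψ_smooth.contDiffAt (X.isOpen.mem_nhds (X.sub hp.1))).differentiableAt (by simp)
    have : (fun y => X.mx ξ y + g y) =ᶠ[𝓝 p] fun y => X.mx ξ p + ε + Qf b (ch.ψ y) := by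
      filter_upwards [g1 p a, dψ.continuousAt.eventually_mem (ball_mem_nhds _ ρ0)] with y u v
      rw [c, mem_ball_zero_iff] at v
      rw [u]
      simp only [G, cut_one v]
      ring
    rw [this.fderiv_eq, fderiv_const_add,
      fderiv_fun_comp _ ((Qf_smooth b).differentiable (by simp) _) dψ, c]
    ext w
    simp [Qf_deriv]
  · by_cases a : x ∈ S
    · obtain ⟨v, hv, rfl⟩ := a
      obtain ⟨⟨a1, a2⟩, a3, -⟩ := hρ hv
      have dφ := (o v a3).differentiableAt (by simp)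
      refine fun c => he ρ ρ0 (fun v => X.mx ξ (ch.φ v)) (X.mx ξ p) ε v (fun u => n ?_)
        (mem_closedBall_zero_iff.1 hv) ((d fm _ hx).comp v dφ) hε a1
        (fun w => Qf_deriv b v w ▸ a2 w) ?_
      · rwa [u, ch.φ_zero]
      · have := fderiv_fun_comp v ((d fm _ hx).fun_add (d fg _ hx)) dφ
        rw [c, ContinuousLinearMap.zero_comp] at this
        refine (EventuallyEq.fderiv_eq ?_).trans this
        exact (isOpen_ball.eventually_mem a3).mono fun u hu => by simp only [gφ u hu]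
    · rw [fderiv_fun_add (d fm _ hx) (d fg _ hx),
        (g0 x (X.sub hx) (by rwa [X.π_id x hx])).fderiv_eq, fderiv_zero, Pi.zero_apply, add_zero]
      exact mt (X.crit_iff h1 hx).1 n
  · rw [eR, mem_ball_zero_iff] at hv
    obtain ⟨-, a, c⟩ := hρ (mem_closedBall_zero_iff.2 (hv.le.trans (by linarith)))
    rw [eφ, gφ v a, cut_one hv]
    exact ⟨c, by ring⟩

theorem sep {A : Type} [Finite A] (m δ : A → ℝ) (h : ∀ p, 0 < δ p) : ∃ ε : A → ℝ,
    (∀ p, |ε p| ≤ δ p) ∧ (∀ p q, m p < m q → m p + ε p < m q + ε q) ∧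
      Function.Injective fun p => m p + ε p := by
  obtain ⟨n, hn⟩ := Countable.exists_injective_nat A
  have c : ∀ p, Continuous fun t : ℝ => t * n p := fun p => by fun_prop
  have a : ∀ᶠ t : ℝ in 𝓝 0, ∀ p, |t * n p| < δ p := eventually_all.2 fun p =>
    (c p).abs.continuousAt.eventually_lt continuousAt_const (by simpa using h p)
  have b : ∀ᶠ t : ℝ in 𝓝 0, ∀ p q, m p < m q → m p + t * n p < m q + t * n q :=
    eventually_all.2 fun p => eventually_all.2 fun q => eventually_all.2 fun l =>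
      (continuous_const.add (c p)).continuousAt.eventually_lt
        (continuous_const.add (c q)).continuousAt (by simpa using l)
  obtain ⟨t, ⟨a, b⟩, t0⟩ := (((a.and b).filter_mono nhdsWithin_le_nhds).and
    (self_mem_nhdsWithin (s := Ioi (0 : ℝ)))).exists
  refine ⟨fun p => t * n p, fun p => (a p).le, b, fun p q e => hn ?_⟩
  rcases lt_trichotomy (m p) (m q) with l | l | l
  · exact ((b p q l).ne e).elim
  · simpa [l, ne_of_gt t0] using e
  · exact ((b q p l).ne' e).elim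

end B7a

open B7a in
theorem b7a (h4b : B4bSt) (h4c : B4cSt) : B7aSt := fun r J _ X hF K _ fr ξ h1 h2 => by
  classical
  have := hF.fintype
  obtain ⟨η, hη, η0⟩ := ((eventually_all.2 fun p : X.Fix => eventually_all.2 fun q : X.Fix =>
    eventually_all.2 fun l : p ≠ q => eventually_lt_nhds (half_pos (dist_pos.2 l))).filter_mono
      nhdsWithin_le_nhds |>.and (self_mem_nhdsWithin (s := Ioi (0 : ℝ)))).exists
  have dj : ∀ p q : X.Fix, p ≠ q → ∀ x ∈ ball p.1 η, x ∉ ball q.1 η := fun p q l x a b => by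
    have := hη p q l
    have := dist_triangle_left p.1 q.1 x
    rw [mem_ball] at a b
    rw [Subtype.dist_eq] at *
    linarith
  choose ch δ δ0 H using fun p : X.Fix => loc h4b h4c X p.2 (fr p p.2) h1 (h2 p p.2) η0
  obtain ⟨ε, e1, e2, e3⟩ := sep (fun p : X.Fix => X.mx ξ p) δ δ0
  choose g g1 g2 g3 g4 g5 using fun p => H p (ε p) (e1 p)
  have fm := X.isFn_mx ξ
  let f : W J → ℝ := fun y => X.mx ξ y + ∑ p, g p y
  have k : ∀ p : X.Fix, ∀ x ∈ X.M, x ∈ ball p.1 η → f =ᶠ[𝓝 x] fun y => X.mx ξ y + g p y :=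
    fun p x hx a => (eventually_all.2 fun q => eventually_all.2 fun l : q ≠ p =>
      g2 q x hx (dj p q l.symm x a)).mono fun y c =>
        congrArg (X.mx ξ y + ·) (Fintype.sum_eq_single p c)
  have n : ∀ p : X.Fix, ∀ v ∈ ball 0 (ch p).R, f ((ch p).φ v) = _ := fun p v hv =>
    (k p _ ((ch p).φ_mem v hv).1 (g5 p v hv).1).self_of_nhds.trans (g5 p v hv).2
  have v : ∀ p : X.Fix, f p = X.mx ξ p + ε p := fun p => by
    simpa [(ch p).φ_zero, Qf] using n p 0 (mem_ball_self (ch p).R_pos)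
  refine ⟨⟨f, ⟨fm.smooth.add (ContDiffOn.sum fun p _ => (g1 p).smooth), fun y hy => ?_,
    fun t y hy => ?_⟩, fun x hx => ⟨fun c => by_contra fun a => ?_, fun c => ?_⟩,
    fun p hp q hq c => ?_, fun p hp q hq c => ?_, fun p hp => ch ⟨p, hp⟩,
    fun p i => if hp : p ∈ X.Fix then π * (fr p hp).c i * pr ((fr p hp).α i) ξ else 0,
    fun p hp i => ?_, fun p hp w hw => ?_⟩⟩
  · simp only [f, fm.fπ y hy, (g1 _).fπ y hy]
  · simp only [f, fm.inv t y hy, (g1 _).inv t y hy]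
  · by_cases b : ∃ p : X.Fix, x ∈ ball p.1 η
    · obtain ⟨p, b⟩ := b
      exact g4 p x hx a ((k p x hx b).fderiv_eq.symm.trans c)
    · refine a ((X.crit_iff h1 hx).1 ((EventuallyEq.fderiv_eq ?_).trans c))
      exact (eventually_all.2 fun q => g2 q x hx (not_exists.1 b q)).mono fun y c => by simp [f, c]
  · exact (k ⟨x, c⟩ x hx (mem_ball_self η0)).fderiv_eq.trans (g3 ⟨x, c⟩)
  · exact congrArg Subtype.val (e3 ((v ⟨p, hp⟩).symm.trans (c.trans (v ⟨q, hq⟩))))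
  · exact (v ⟨p, hp⟩).trans_lt ((e2 ⟨p, hp⟩ ⟨q, hq⟩ c).trans_eq (v ⟨q, hq⟩).symm)
  · rw [dif_pos hp, mul_assoc]
    exact mul_pos (mul_pos pi_pos ((fr p hp).c_pos i)) (mul_self_pos.2 (h2 p hp i))
  · rw [add_sub_assoc, Qf_eq, v ⟨p, hp⟩]
    simp only [dif_pos hp]
    exact n ⟨p, hp⟩ w hw

end GK4850
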