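import Pool.Agent.Lib.MP_4850ea_gt.GK.StB
import Pool.Agent.Lib.MP_4850ea_gt.GK.B0

/-! B7b: pushing through a band without critical points. -/

open scoped ContDiff Topology RealInnerProductSpace
open Set

namespace GK4850

namespace B7b

variable {r : ℕ} {J : Type} [Fintype J]

/-- the vector dual to a linear form -/
noncomputable def dv (J : Type) [Fintype J] : (W J →L[ℝ] ℝ) →L[ℝ] W J :=
  LinearMap.toContinuousLinearMap
    { toFun := fun φ => (InnerProductSpace.toDual ℝ (W J)).symm φ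
      map_add' := fun _ _ => map_add _ _ _
      map_smul' := fun c φ => by simp }

theorem inner_dv (φ : W J →L[ℝ] ℝ) (v : W J) : ⟪dv J φ, v⟫ = φ v :=
  InnerProductSpace.toDual_symm_apply

theorem norm_dv (φ : W J →L[ℝ] ℝ) : ‖dv J φ‖ = ‖φ‖ :=
  (InnerProductSpace.toDual ℝ (W J)).symm.norm_map φ

variable {X : Ret r J} {f : W J → ℝ}

theorem smooth_fderiv (hf : X.IsFn f) : ContDiffOn ℝ ∞ (fderiv ℝ f) X.U :=
  hf.smooth.fderiv_of_isOpen X.isOpen (by simp)

theorem diffAt (hf : X.IsFn f) {x : W J} (hx : x ∈ X.U) : DifferentiableAt ℝ f x :=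
  (hf.smooth.contDiffAt (X.isOpen.mem_nhds hx)).differentiableAt (by simp)

theorem fderiv_rho (hf : X.IsFn f) (t : Fin r → ℝ) {x : W J} (hx : x ∈ X.U) (v : W J) :
    fderiv ℝ f (rho X.γ t x) (rho X.γ t v) = fderiv ℝ f x v := by
  have h1 : HasFDerivAt (fun y => f (rho X.γ t y))
      ((fderiv ℝ f (rho X.γ t x)).comp (rho X.γ t)) x :=
    (diffAt hf (X.inv_U t hx)).hasFDerivAt.comp x (rho X.γ t).hasFDerivAt
  have h2 : f =ᶠ[𝓝 x] fun y => f (rho X.γ t y) := by
    filter_upwards [X.isOpen.mem_nhds hx] with y hy using (hf.inv t y hy).symm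
  rw [(h1.congr_of_eventuallyEq h2).fderiv]
  rfl

theorem dv_rho (hf : X.IsFn f) (t : Fin r → ℝ) {x : W J} (hx : x ∈ X.U) :
    dv J (fderiv ℝ f (rho X.γ t x)) = rho X.γ t (dv J (fderiv ℝ f x)) := by
  refine ext_inner_right ℝ fun w => ?_
  rw [← rho_rho_neg (γ := X.γ) t w, inner_dv, fderiv_rho hf t hx, inner_rho, inner_dv]

/-- the uniform step size -/
theorem exists_step (hf : X.IsFn f) : ∃ ε : ℝ, 0 < ε ∧ ∀ x ∈ X.M,
    x + ε • dv J (fderiv ℝ f x) ∈ X.U ∧
      f x + ε / 2 * ‖fderiv ℝ f x‖ ^ 2 ≤ f (x + ε • dv J (fderiv ℝ f x)) := by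
  obtain ⟨δ, hδ, hC⟩ := X.compact.exists_cthickening_subset_open X.isOpen X.sub
  have hCc : IsCompact (Metric.cthickening δ X.M) := X.compact.cthickening
  obtain ⟨B, hB⟩ := LocallyLipschitzOn.exists_lipschitzOnWith_of_compact (f := fderiv ℝ f) hCc
    fun x hx => by
      obtain ⟨K, t, ht, h⟩ := (((smooth_fderiv hf).contDiffAt
        (X.isOpen.mem_nhds (hC hx))).of_le (m := 1) (by simp)).exists_lipschitzOnWith
      exact ⟨K, t, mem_nhdsWithin_of_mem_nhds ht, h⟩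
  obtain ⟨G, hG⟩ := X.compact.exists_bound_of_continuousOn
    ((smooth_fderiv hf).continuousOn.mono X.sub)
  have hB0 : (0 : ℝ) ≤ B := B.2
  refine ⟨min (δ / (|G| + 1)) (1 / (2 * B + 2)), by positivity, fun x hx => ?_⟩
  set ε := min (δ / (|G| + 1)) (1 / (2 * B + 2)) with hε
  have ε0 : 0 < ε := by positivity
  have ε1 : ε * (|G| + 1) ≤ δ := (le_div_iff₀ (by positivity)).1 (min_le_left _ _)
  have ε2 : ε * (2 * B + 2) ≤ 1 := (le_div_iff₀ (by positivity)).1 (min_le_right _ _)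
  set φ := fderiv ℝ f x with hφ
  have hn : ‖ε • dv J φ‖ = ε * ‖φ‖ := by rw [norm_smul, norm_dv, Real.norm_of_nonneg ε0.le]
  have hG' : ‖φ‖ ≤ |G| := (hG x hx).trans (le_abs_self G)
  have hr : ε * ‖φ‖ ≤ δ := by nlinarith
  have hsub : Metric.closedBall x (ε * ‖φ‖) ⊆ Metric.cthickening δ X.M :=
    (Metric.closedBall_subset_closedBall hr).trans (Metric.closedBall_subset_cthickening hx δ)
  have hx0 : x ∈ Metric.closedBall x (ε * ‖φ‖) := Metric.mem_closedBall_self (by positivity)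
  have hy : x + ε • dv J φ ∈ Metric.closedBall x (ε * ‖φ‖) := by
    rw [mem_closedBall_iff_norm, add_sub_cancel_left, hn]
  refine ⟨hC (hsub hy), ?_⟩
  have key := (convex_closedBall x (ε * ‖φ‖)).norm_image_sub_le_of_norm_fderiv_le'
    (f := f) (φ := φ) (C := B * (ε * ‖φ‖)) (fun z hz => diffAt hf (hC (hsub hz)))
    (fun z hz => by
      have := hB.dist_le_mul z (hsub hz) x (hsub hx0)
      rw [dist_eq_norm] at this
      exact this.trans (mul_le_mul_of_nonneg_left hz hB0)) hx0 hy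
  rw [add_sub_cancel_left, hn, map_smul, ← inner_dv, real_inner_self_eq_norm_sq, norm_dv,
    smul_eq_mul, Real.norm_eq_abs] at key
  have k2 := (abs_le.1 key).1
  have h3 : B * ε ≤ 1 / 2 := by nlinarith
  have h4 : 0 ≤ ε * ‖φ‖ ^ 2 := by positivity
  nlinarith [mul_le_mul_of_nonneg_right h3 h4]

end B7b

open B7b in
theorem b7b : B7bSt := by
  intro r J _ X f hf a b hab
  obtain ⟨ε, ε0, hε⟩ := exists_step hf
  have hfc : ContinuousOn f X.M := hf.smooth.continuousOn.mono X.sub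
  have hK : IsCompact (X.M ∩ f ⁻¹' Icc a b) :=
    X.compact.of_isClosed_subset
      (hfc.preimage_isClosed_of_isClosed X.compact.isClosed isClosed_Icc) inter_subset_left
  obtain ⟨c, c0, hc⟩ := hK.exists_forall_le' (f := fun x => ‖fderiv ℝ f x‖) (a := 0)
    (((smooth_fderiv hf).continuousOn.mono fun _ h => X.sub h.1).norm)
    fun x hx => norm_pos_iff.2 (hab x hx.1 hx.2.1 hx.2.2)
  let s : W J → W J := fun y => X.π (X.π y + ε • dv J (fderiv ℝ f (X.π y)))
  have hπ : MapsTo X.π X.U X.U := fun _ h => X.sub (X.π_maps h)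
  have sU : MapsTo s X.U X.U := fun y hy => hπ (hε _ (X.π_maps hy)).1
  have sf : ∀ y ∈ X.U, f y + ε / 2 * ‖fderiv ℝ f (X.π y)‖ ^ 2 ≤ f (s y) := fun y hy => by
    have := hε _ (X.π_maps hy)
    rw [hf.fπ _ this.1, ← hf.fπ y hy]
    exact this.2
  have ss : ContDiffOn ℝ ∞ s X.U :=
    X.π_smooth.comp (X.π_smooth.add (((dv J).contDiff.comp_contDiffOn
      ((smooth_fderiv hf).comp X.π_smooth hπ)).const_smul ε)) fun y hy => (hε _ (X.π_maps hy)).1
  have se : ∀ t, ∀ y ∈ X.U, s (rho X.γ t y) = rho X.γ t (s y) := fun t y hy => by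
    change X.π (X.π (rho X.γ t y) + ε • dv J (fderiv ℝ f (X.π (rho X.γ t y)))) = _
    rw [X.π_eqv t y hy, dv_rho hf t (hπ hy), ← map_smul, ← map_add,
      X.π_eqv t _ (hε _ (X.π_maps hy)).1]
  have hd : 0 < ε / 2 * c ^ 2 := by positivity
  have it : ∀ n : ℕ, MapsTo s^[n] X.U X.U ∧ ContDiffOn ℝ ∞ s^[n] X.U ∧
      (∀ t, ∀ y ∈ X.U, s^[n] (rho X.γ t y) = rho X.γ t (s^[n] y)) ∧
      ∀ y ∈ X.U, a < f y → b < f (s^[n] y) ∨ a + n * (ε / 2 * c ^ 2) < f (s^[n] y) := by
    intro n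
    induction n with
    | zero => exact ⟨fun _ h => h, contDiffOn_id, fun _ _ _ => rfl, fun y _ h => .inr (by simpa)⟩
    | succ n ih =>
      obtain ⟨h1, h2, h3, h4⟩ := ih
      rw [Function.iterate_succ']
      refine ⟨sU.comp h1, ss.comp h2 h1, fun t y hy => ?_, fun y hy ha => ?_⟩
      · rw [Function.comp_apply, h3 t y hy, se t _ (h1 hy), Function.comp_apply]
      · have h5 := sf _ (h1 hy)
        have h6 : 0 ≤ ε / 2 * ‖fderiv ℝ f (X.π (s^[n] y))‖ ^ 2 := by positivity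
        rw [Function.comp_apply]
        by_cases hb : b < f (s^[n] y)
        · exact .inl (by linarith)
        · have h7 := (h4 y hy ha).resolve_left hb
          have h8 : 0 ≤ (n : ℝ) * (ε / 2 * c ^ 2) := by positivity
          have h9 := hc (X.π (s^[n] y)) ⟨X.π_maps (h1 hy), by
            rw [mem_preimage, hf.fπ _ (h1 hy)]
            exact ⟨by linarith, not_lt.1 hb⟩⟩
          have h10 : ε / 2 * c ^ 2 ≤ ε / 2 * ‖fderiv ℝ f (X.π (s^[n] y))‖ ^ 2 := by gcongr
          refine .inr ?_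
          push_cast
          linarith
  obtain ⟨N, hN⟩ := exists_nat_ge ((b - a) / (ε / 2 * c ^ 2))
  rw [div_le_iff₀ hd] at hN
  obtain ⟨h1, h2, h3, h4⟩ := it N
  refine ⟨s^[N], ⟨h2.mono inter_subset_left, fun y hy => ⟨h1 hy.1, ?_⟩,
    fun t y hy => h3 t y hy.1⟩, fun x hx h0 => Function.iterate_fixed ?_ N⟩
  · rcases h4 y hy.1 hy.2 with h | h
    · exact h
    · change b < f (s^[N] y)
      linarith
  · change X.π (X.π x + ε • dv J (fderiv ℝ f (X.π x))) = x
    rw [X.π_id x hx, h0, map_zero, smul_zero, add_zero, X.π_id x hx]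

end GK4850
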