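import Pool.Agent.Lib.MP_4850ea_gt.GK.B8o

/-! B8a: passing one critical level. -/

open scoped ContDiff Topology
open Set Metric

namespace GK4850

namespace Hd

variable {r : ℕ} {K : Type} [Fintype K] {b : K → ℝ}
  {J : Type} [Fintype J] {X : Emb r J} {p : W J} {fr : WFrame X p K} {ch : Chart X fr}
  {f : W J → ℝ} {c d δ : ℝ}
  {F : Type} [NormedAddCommGroup F] [NormedSpace ℝ F] [FiniteDimensional ℝ F]
  [Module (SS r) F] [IsScalarTower ℝ (SS r) F]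

theorem Dat.thom (h6 : B6cSt) (h : Dat ch b f c d) (δ0 : 0 < δ) (δd : δ ≤ d) (s : Finset K)
    (hs : ∀ i, 0 < b i → i ∈ s) (f₀ : F) :
    ∃ τ : Form J F, ECl X.γ (X.U ∩ {y | c - δ < f y}) τ ∧
      val τ p = (∏ i ∈ s, lin (fr.α i)) • f₀ ∧
      ∀ y, c - δ < f y → y ∈ Out ch (Cs b (3 * d) (4 * d)) → val τ y = 0 := by
  have d0 := h.d0
  have hV := h.fn.invOpen (c - δ)
  have h2 := hV.inter (h.out (s := 3 * d) (t := 4 * d) (by linarith))
  have h1 := hV.inter (⟨ch.O_open, ch.O_inv⟩ : InvOpen X.γ ch.O)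
  obtain ⟨m, m0, hm⟩ := exists_m b d0
  obtain ⟨τ0, t0, v0, z0⟩ := h6 r K fr.α F f₀ s m m0
  have b1 := t0.pull h1 isOpen_univ (g := ch.ψ) ⟨ch.ψ_smooth.mono fun _ k => k.1.1,
    mapsTo_univ _ _, fun t y hy => ch.ψ_eqv t y hy.1.1⟩
  obtain ⟨τ, t, e1, e2⟩ := b1.glue h1 h2 ECl.zero fun j y k1 k2 => by
    obtain ⟨i, hi, hv⟩ := hm (ch.ψ y) (by linarith [h.xbig δd k1.2 k1.1.2 k2.2])
    simp only [pull]
    rw [z0 j _ ⟨i, hs i hi, hv⟩]; rfl
  refine ⟨τ, t.mono fun y hy => ?_, ?_, fun y ha ho => ?_⟩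
  · by_cases k : y ∈ ch.O
    · exact Or.inl ⟨hy, k⟩
    · exact Or.inr ⟨hy, hy.1, fun k' => k k'.1⟩
  · have k := p_mem ch
    rw [val, e1 0 p ⟨⟨ch.O_sub k.1, by
      show c - δ < f p
      rw [h.fO k.1, k.2, Qp_zero, Qp_zero]; linarith⟩, k.1⟩, ← val, val_pull, k.2, v0]
  · rw [val, e2 0 y ⟨⟨ho.1, ha⟩, ho⟩]; rfl

theorem exists_gap {α : Type} {S : Set α} (hS : S.Finite) {f : α → ℝ} (hf : InjOn f S) {p : α}
    (hp : p ∈ S) : ∃ e > 0, ∀ q ∈ S, q ≠ p → e < |f q - f p| := by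
  have : ∀ᶠ e in 𝓝[>] (0:ℝ), ∀ q ∈ S, q ≠ p → e < |f q - f p| :=
    hS.eventually_all.2 fun q hq => by
      by_cases k : q = p
      · simp [k]
      · exact ((gt_mem_nhds (abs_pos.2 (sub_ne_zero.2 fun e => k (hf hq hp e)))).filter_mono
          nhdsWithin_le_nhds).mono fun _ h _ => h
  obtain ⟨e, he, e0⟩ := (this.and self_mem_nhdsWithin).exists
  exact ⟨e, e0, he⟩

end Hd

open Hd in
theorem b8a (h6b : B6bSt) (h6c : B6cSt) (h7 : B7bSt) : B8aSt := by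
  classical
  intro r J _ X hfin K _ fr ξ mf F _ _ _ _ _ p hp
  obtain ⟨e, e0, he⟩ := exists_gap hfin mf.inj hp
  obtain ⟨B, B0, hB⟩ := lower (b := mf.b p) fun i k => by simpa [k] using mf.b_pos p hp i
  have R0 := (mf.ch p hp).R_pos
  obtain ⟨d, d0, de, dB⟩ : ∃ d > 0, 4 * d ≤ e ∧ 10 * d ≤ B * ((mf.ch p hp).R / 2) ^ 2 := by
    refine ⟨min (e / 4) (B * ((mf.ch p hp).R / 2) ^ 2 / 10), by positivity, ?_, ?_⟩
    · linarith [min_le_left (e / 4) (B * ((mf.ch p hp).R / 2) ^ 2 / 10)]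
    · linarith [min_le_right (e / 4) (B * ((mf.ch p hp).R / 2) ^ 2 / 10)]
  have h : Dat (mf.ch p hp) (mf.b p) mf.f (mf.f p) d := ⟨mf.isFn, mf.normal p hp, d0,
    fun v hv => mem_closedBall_zero_iff.2 (le_of_sq_le_sq
      (le_of_mul_le_mul_left (((hB v).trans hv).trans dB) B0) (by positivity))⟩
  obtain ⟨δ, δ0, δd, G, hG, Gf, Go, Gc⟩ := h.lower
  have gap : ∀ q ∈ X.Fix, q ≠ p → mf.f q < mf.f p - δ ∨ mf.f p + 4 * d < mf.f q :=
    fun q hq k => (lt_abs.1 (he q hq k)).symm.imp (fun _ => by linarith) fun _ => by linarith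
  have hi : ∀ q ∈ X.Fix, mf.f p < mf.f q → mf.f p + 4 * d < mf.f q ∧
      q ∈ Out (mf.ch p hp) (Cs (mf.b p) (3 * d) (4 * d)) := fun q hq k => by
    have k1 := (gap q hq fun e => by simp [e] at k).resolve_left (by linarith)
    refine ⟨k1, X.sub hq.1, fun k2 => ?_⟩
    rw [h.fO k2.1] at k1
    linarith [k2.2.1, Qp_nonneg (-mf.b p) ((mf.ch p hp).ψ q)]
  have ho := (h.out (s := d) (t := d) (by linarith)).isOpen
  have df : ∀ z ∈ Out (mf.ch p hp) (Cs (mf.b p) d d), fderiv ℝ G z = fderiv ℝ mf.f z :=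
    fun z hz => Filter.EventuallyEq.fderiv_eq (Filter.mem_of_superset (ho.mem_nhds hz) Go)
  obtain ⟨g, hg, gq⟩ := h7 r J X.toRet G hG (mf.f p - δ) (mf.f p + d) fun z hz k1 k2 k0 => by
    by_cases k : z ∈ Out (mf.ch p hp) (Cs (mf.b p) d d)
    · rw [Go z k] at k1 k2
      rcases gap z ((mf.crit z hz).1 (df z k ▸ k0)) (fun e => k.2 (by
        rw [e, (p_mem _).2]
        exact ⟨(p_mem _).1, (Qp_zero _).trans_le d0.le, (Qp_zero _).trans_le d0.le⟩)) with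
        k3 | k3 <;> linarith
    · linarith [Gc z hz k k0]
  refine ⟨mf.f p - δ, mf.f p + d, by linarith, by linarith, fun q hq k =>
    (gap q hq k).imp id fun _ => by linarith, fun β hβ => ?_, fun f₀ => ?_⟩
  · obtain ⟨β', b', v'⟩ := h.extend h6b δ0 δd (((hβ.mono fun y hy => ⟨hy.1,
      lt_of_lt_of_le hy.2 (Gf y)⟩).pull (hG.invOpen _) (hG.invOpen _).isOpen hg).mono
      fun y hy => ⟨hy.1.1, lt_of_lt_of_eq hy.1.2 (Go y hy.2).symm⟩)
    refine ⟨β', b', fun q hq k => ?_⟩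
    have k1 := hi q hq k
    rw [v' q hq.1 (by linarith) k1.2, val_pull, gq q hq.1 ((df q ⟨k1.2.1, fun k2 => k1.2.2
      ⟨k2.1, by linarith [k2.2.1], by linarith [k2.2.2]⟩⟩).trans ((mf.crit q hq.1).2 hq))]
  · obtain ⟨τ, t, v, z⟩ := h.thom h6c δ0 δd
      (Finset.univ.filter fun i => 0 < pr ((fr p hp).α i) ξ) (fun i k =>
        Finset.mem_filter.2 ⟨Finset.mem_univ _, pos_of_mul_pos_right (mf.b_pos p hp i) k.le⟩) f₀
    exact ⟨τ, t, v, fun q hq k => z q (by linarith) (hi q hq k).2⟩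

end GK4850
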