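import Pool.Agent.Lib.MP_4850ea_gt.GK.StB
import Pool.Agent.Lib.MP_4850ea_gt.GK.B5

/-! B8b: global Thom forms, by downward induction over the critical values. -/

open scoped ContDiff Topology
open Set

namespace GK4850

theorem b8b (h7b : B7bSt) (h8a : B8aSt) : B8bSt := by
  classical
  intro r J _ X hfin K _ fr ξ mf F _ _ _ _ _ p hp f₀
  obtain ⟨a₀, b₀, ha₀, -, -, -, h0⟩ := h8a r J X hfin K fr ξ mf F p hp
  have key : ∀ (n : ℕ) (a : ℝ), a < mf.f p → {q | q ∈ X.Fix ∧ mf.f q ≤ a}.ncard = n →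
      ∀ τ : Form J F, ECl X.γ (X.U ∩ {y | a < mf.f y}) τ →
        ∃ τ' : Form J F, ECl X.γ X.U τ' ∧ ∀ q ∈ X.Fix, mf.f p ≤ mf.f q → val τ' q = val τ q := by
    intro n
    induction n using Nat.strong_induction_on with
    | _ n ih =>
      intro a ha hn τ hτ
      have hf : {q | q ∈ X.Fix ∧ mf.f q ≤ a}.Finite := hfin.subset fun _ h => h.1
      rcases {q | q ∈ X.Fix ∧ mf.f q ≤ a}.eq_empty_or_nonempty with he | hne
      · obtain ⟨x, hx, hmin⟩ := X.compact.exists_isMinOn ⟨p, hp.1⟩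
          (mf.isFn.smooth.continuousOn.mono X.sub)
        have hU : ∀ y ∈ X.U, mf.f x ≤ mf.f y := fun y hy => by
          rw [← mf.isFn.fπ y hy]
          exact hmin (X.π_maps hy)
        have hl : IsLocalMin mf.f x := by
          filter_upwards [X.isOpen.mem_nhds (X.sub hx)] with y hy using hU y hy
        have hax : a < mf.f x := by
          by_contra h
          have : x ∈ {q | q ∈ X.Fix ∧ mf.f q ≤ a} :=
            ⟨(mf.crit x hx).1 hl.fderiv_eq_zero, not_lt.1 h⟩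
          rw [he] at this
          exact this
        exact ⟨τ, hτ.mono fun y hy => ⟨hy, hax.trans_le (hU y hy)⟩, fun _ _ _ => rfl⟩
      · obtain ⟨q, hq, hmax⟩ := exists_max_image _ mf.f hf hne
        obtain ⟨a', b', ha', hb', -, h1, -⟩ := h8a r J X hfin K fr ξ mf F q hq.1
        obtain ⟨g, hg, hg'⟩ := h7b r J X.toRet mf.f mf.isFn b' a fun x hx h h' e => by
          have := hmax x ⟨(mf.crit x hx).1 e, h'⟩
          linarith
        obtain ⟨β, hβ, hv⟩ := h1 (pull g τ)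
          (ECl.pull (mf.isFn.invOpen b') (mf.isFn.invOpen a).isOpen hg hτ)
        have hlt : {q | q ∈ X.Fix ∧ mf.f q ≤ a'}.ncard < n := by
          rw [← hn]
          refine ncard_lt_ncard ⟨fun x hx => ⟨hx.1, hx.2.trans (ha'.le.trans hq.2)⟩,
            fun h => ?_⟩ hf
          exact absurd (h hq).2 (not_le.2 ha')
        obtain ⟨τ', hτ', hv'⟩ := ih _ hlt a' ((ha'.trans_le hq.2).trans ha) rfl β hβ
        refine ⟨τ', hτ', fun x hx h => ?_⟩
        rw [hv' x hx h, hv x hx ((hq.2.trans_lt ha).trans_le h), val_pull,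
          hg' x hx.1 ((mf.crit x hx.1).2 hx)]
  obtain ⟨τ, hτ, h1, h2⟩ := h0 f₀
  obtain ⟨τ', hτ', hv⟩ := key _ a₀ ha₀ rfl τ hτ
  exact ⟨τ', hτ', (hv p hp le_rfl).trans h1, fun q hq h => (hv q hq h.le).trans (h2 q hq h)⟩

end GK4850
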