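import Pool.Agent.Lib.MP_4850ea_gt.GK.B5

/-! The local model of a critical point: quadratic forms, scalings, sets outside a chart. -/

open scoped ContDiff Topology
open Set Metric

namespace GK4850

namespace Hd

open Classical

variable {r : ℕ} {K : Type} [Fintype K] {α : K → Fin r → ℤ} {b : K → ℝ}

/-- scaling of the positive and of the negative coordinates -/
noncomputable def sc (b : K → ℝ) (s t : ℝ) : W K →L[ℝ] W K :=
  diag fun i => if 0 < b i then (s : ℂ) else t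

theorem sc_apply (s t : ℝ) (v : W K) (i : K) :
    sc b s t v i = (if 0 < b i then (s : ℂ) else t) * v i := rfl

theorem sc_one (v : W K) : sc b 1 1 v = v := by ext i; simp [sc_apply]

theorem sc_rho (s t : ℝ) (u : Fin r → ℝ) (v : W K) :
    sc b s t (rho α u v) = rho α u (sc b s t v) := by
  ext i; simp only [sc_apply, rho_apply]; ring

theorem contDiffOn_sc {E : Type} [NormedAddCommGroup E] [NormedSpace ℝ E] {s t : E → ℝ}
    {v : E → W K} {A : Set E} (hs : ContDiffOn ℝ ∞ s A) (ht : ContDiffOn ℝ ∞ t A)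
    (hv : ContDiffOn ℝ ∞ v A) : ContDiffOn ℝ ∞ (fun x => sc b (s x) (t x) (v x)) A := by
  refine ((contDiff_diag (J := K)).comp_contDiffOn (f := fun x i =>
    if 0 < b i then (s x : ℂ) else t x) (contDiffOn_pi.2 fun i => ?_)).clm_apply hv
  by_cases h : 0 < b i <;> simp only [h, if_true, if_false]
  · exact Complex.ofRealCLM.contDiff.comp_contDiffOn hs
  · exact Complex.ofRealCLM.contDiff.comp_contDiffOn ht

theorem Qp_nonneg (b : K → ℝ) (v : W K) : 0 ≤ Qp b v :=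
  Finset.sum_nonneg fun _ hi => mul_nonneg (Finset.mem_filter.1 hi).2.le (sq_nonneg _)

theorem Qp_zero (b : K → ℝ) : Qp b (0 : W K) = 0 := by simp [Qp]

theorem contDiff_Qp (b : K → ℝ) : ContDiff ℝ ∞ (Qp b : W K → ℝ) :=
  ContDiff.sum fun i _ => contDiff_const.mul
    ((contDiff_norm_sq ℝ).comp (PiLp.proj 2 (fun _ : K => ℂ) i : W K →L[ℝ] ℂ).contDiff)

theorem Qp_rho (b : K → ℝ) (u : Fin r → ℝ) (v : W K) : Qp b (rho α u v) = Qp b v := by
  simp only [Qp, norm_rho_apply]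

theorem Qp_sc (s t : ℝ) (v : W K) : Qp b (sc b s t v) = s ^ 2 * Qp b v := by
  simp only [Qp, Finset.mul_sum]
  refine Finset.sum_congr rfl fun i hi => ?_
  rw [sc_apply, if_pos (Finset.mem_filter.1 hi).2, norm_mul, mul_pow, Complex.norm_real,
    Real.norm_eq_abs, sq_abs]
  ring

theorem Qn_sc (s t : ℝ) (v : W K) : Qp (-b) (sc b s t v) = t ^ 2 * Qp (-b) v := by
  simp only [Qp, Finset.mul_sum]
  refine Finset.sum_congr rfl fun i hi => ?_
  have := (Finset.mem_filter.1 hi).2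
  rw [sc_apply, if_neg (by simp at this; linarith), norm_mul, mul_pow, Complex.norm_real,
    Real.norm_eq_abs, sq_abs]
  ring

theorem lower (hb : ∀ i, b i ≠ 0) : ∃ β > 0, ∀ v : W K, β * ‖v‖ ^ 2 ≤ Qp b v + Qp (-b) v := by
  obtain ⟨β, β0, hβ⟩ : ∃ β > 0, ∀ i, β ≤ |b i| := by
    rcases isEmpty_or_nonempty K with e | e
    · exact ⟨1, one_pos, fun i => e.elim i⟩
    · obtain ⟨i, hi⟩ := Finite.exists_min fun i => |b i|
      exact ⟨_, abs_pos.2 (hb i), hi⟩
  refine ⟨β, β0, fun v => ?_⟩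
  simp only [Qp, Finset.sum_filter, ← Finset.sum_add_distrib, norm_sq_W, Finset.mul_sum]
  refine Finset.sum_le_sum fun i _ => (mul_le_mul_of_nonneg_right (hβ i) (sq_nonneg _)).trans ?_
  rcases lt_or_gt_of_ne (hb i) with h | h
  · simp [h, h.not_gt, abs_of_neg h]
  · simp [h, h.not_gt, abs_of_pos h]

theorem upper (b : K → ℝ) : ∃ β > 0, ∀ (v : W K) (e : ℝ), (∀ i, 0 < b i → ‖v i‖ ≤ e) →
    Qp b v ≤ β * e ^ 2 := by
  have h0 : 0 ≤ ∑ i, |b i| := Finset.sum_nonneg fun _ _ => abs_nonneg _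
  refine ⟨∑ i, |b i| + 1, by linarith, fun v e h => ?_⟩
  refine le_trans ?_ (mul_le_mul_of_nonneg_right (le_add_of_nonneg_right zero_le_one)
    (sq_nonneg e))
  rw [Qp, Finset.sum_filter, Finset.sum_mul]
  refine Finset.sum_le_sum fun i _ => ?_
  split_ifs with c
  · rw [abs_of_pos c]
    exact mul_le_mul_of_nonneg_left (pow_le_pow_left₀ (norm_nonneg _) (h i c) 2) c.le
  · positivity

/-- projection to the positive coordinates -/
noncomputable def prp (b : K → ℝ) : W K →L[ℝ] W {i // 0 < b i} :=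
  LinearMap.toContinuousLinearMap
    { toFun := fun v => WithLp.toLp 2 fun i => v i.1
      map_add' := fun _ _ => rfl
      map_smul' := fun _ _ => rfl }

/-- inclusion of the positive coordinates -/
noncomputable def inc (b : K → ℝ) : W {i // 0 < b i} →L[ℝ] W K :=
  LinearMap.toContinuousLinearMap
    { toFun := fun z => WithLp.toLp 2 fun i => if h : 0 < b i then z ⟨i, h⟩ else 0
      map_add' := fun _ _ => by ext i; by_cases h : 0 < b i <;> simp [h]
      map_smul' := fun _ _ => by ext i; by_cases h : 0 < b i <;> simp [h] }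

theorem inc_apply (z : W {i // 0 < b i}) (i : K) :
    inc b z i = if h : 0 < b i then z ⟨i, h⟩ else 0 := rfl

theorem prp_rho (u : Fin r → ℝ) (v : W K) :
    prp b (rho α u v) = rho (fun i : {i // 0 < b i} => α i.1) u (prp b v) := rfl

theorem inc_rho (u : Fin r → ℝ) (z : W {i // 0 < b i}) :
    inc b (rho (fun i : {i // 0 < b i} => α i.1) u z) = rho α u (inc b z) := by
  ext i; by_cases h : 0 < b i <;> simp [inc_apply, rho_apply, h]

theorem inc_prp (s : ℝ) (v : W K) : inc b (s • prp b v) = sc b s 0 v := by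
  ext i; by_cases h : 0 < b i <;> simp [inc_apply, sc_apply, h]; exact Or.inl rfl

theorem sc_sc (s s' : ℝ) (v : W K) : sc b s 0 (sc b s' 0 v) = sc b (s * s') 0 v := by
  ext i; by_cases h : 0 < b i <;> simp [sc_apply, h, mul_assoc]

theorem Qp_inc {z : W {i // 0 < b i}} (hz : z ≠ 0) : 0 < Qp b (inc b z) := by
  obtain ⟨i, hi⟩ : ∃ i, z i ≠ 0 := by
    by_contra h
    push Not at h
    exact hz (by ext i; exact h i)
  refine Finset.sum_pos' (fun _ hi => mul_nonneg (Finset.mem_filter.1 hi).2.le (sq_nonneg _))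
    ⟨i.1, by simpa using i.2, mul_pos i.2 ?_⟩
  rw [inc_apply, dif_pos i.2]
  positivity

theorem le_prp (v : W K) (i : K) (h : 0 < b i) : ‖v i‖ ≤ ‖prp b v‖ :=
  PiLp.norm_apply_le (prp b v) ⟨i, h⟩

variable {J : Type} [Fintype J] {X : Emb r J} {p : W J} {fr : WFrame X p K} (ch : Chart X fr)

theorem mem_O_iff (t : Fin r → ℝ) (y : W J) : rho X.γ t y ∈ ch.O ↔ y ∈ ch.O :=
  ⟨fun h => rho_neg_rho (γ := X.γ) t y ▸ ch.O_inv (-t) h, fun h => ch.O_inv t h⟩

/-- the points that are not over `C` in the chart -/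
def Out (C : Set (W K)) : Set (W J) := {y | y ∈ X.U ∧ ¬ (y ∈ ch.O ∧ ch.ψ y ∈ C)}

theorem out_open {C : Set (W K)} (hC : IsClosed C) (hR : C ⊆ closedBall 0 (ch.R / 2))
    (hi : ∀ t v, rho fr.α t v ∈ C → v ∈ C) : InvOpen X.γ (Out ch C) := by
  have hB : C ⊆ ball 0 ch.R := hR.trans (closedBall_subset_ball (by linarith [ch.R_pos]))
  have h1 : IsCompact (ch.φ '' C) :=
    ((isCompact_closedBall _ _).of_isClosed_subset hC hR).image_of_continuousOn
      (ch.φ_smooth.continuousOn.mono hB)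
  refine ⟨?_, fun t y hy => ⟨X.inv_U t hy.1, fun h => hy.2 ⟨(mem_O_iff ch t y).1 h.1,
    hi t _ (ch.ψ_eqv t y hy.1 ▸ h.2)⟩⟩⟩
  suffices h : Out ch C = X.U ∩ X.π ⁻¹' (ch.φ '' C)ᶜ from
    h ▸ X.π_smooth.continuousOn.isOpen_inter_preimage X.isOpen h1.isClosed.isOpen_compl
  ext y
  refine and_congr_right fun hy => not_congr ⟨fun h => ⟨_, h.2, (ch.ψ_mem y h.1).2⟩, ?_⟩
  rintro ⟨v, hv, e⟩
  have k := ch.φ_mem v (hB hv)
  exact ⟨(ch.O_π y hy).2 (e ▸ k.2.1), by rw [← ch.ψ_π y hy, ← e, k.2.2]; exact hv⟩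

theorem band_open (g : W K → ℝ) (hg : Continuous g) (hi : ∀ t v, g (rho fr.α t v) = g v)
    {S : Set ℝ} (hS : IsOpen S) : InvOpen X.γ (ch.O ∩ {y | g (ch.ψ y) ∈ S}) :=
  ⟨(hg.comp_continuousOn (ch.ψ_smooth.continuousOn.mono ch.O_sub)).isOpen_inter_preimage
    ch.O_open hS, fun t y hy => ⟨ch.O_inv t hy.1, by
      show g (ch.ψ _) ∈ S
      rw [ch.ψ_eqv t y (ch.O_sub hy.1), hi]; exact hy.2⟩⟩

theorem p_mem : p ∈ ch.O ∧ ch.ψ p = 0 := by
  have k := ch.φ_mem 0 (mem_ball_self ch.R_pos)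
  rw [ch.φ_zero] at k
  exact k.2

/-- no critical point of the lowered function away from the centre -/
theorem crit {G : W J → ℝ} {μ : ℝ → ℝ} {c m : ℝ} {v : W K} (hv : v ∈ ball (0 : W K) ch.R)
    (hG : DifferentiableAt ℝ G (ch.φ v))
    (e : ∀ w ∈ ball (0 : W K) ch.R,
      G (ch.φ w) = c + Qp b w - Qp (-b) w - μ (Qp b w + Qp (-b) w))
    (hμ : HasDerivAt μ m (Qp b v + Qp (-b) v)) (hm : |m| ≤ 1 / 2)
    (h0 : fderiv ℝ G (ch.φ v) = 0) : Qp b v + Qp (-b) v = 0 := by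
  have c1 : ContDiff ℝ ∞ fun s : ℝ => sc b (1 + s) (1 - s) v := contDiffOn_univ.1
    (contDiffOn_sc (by fun_prop) (by fun_prop) contDiffOn_const)
  have c0 : sc b (1 + 0) (1 - 0) v = v := by rw [add_zero, sub_zero, sc_one]
  have d1 : DifferentiableAt ℝ (fun s : ℝ => ch.φ (sc b (1 + s) (1 - s) v)) 0 := by
    refine DifferentiableAt.comp (g := ch.φ) 0 ?_ (c1.differentiable (by simp) 0)
    rw [c0]
    exact (ch.φ_smooth.contDiffAt (isOpen_ball.mem_nhds hv)).differentiableAt (by simp)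
  have d2 : HasDerivAt (fun s : ℝ => G (ch.φ (sc b (1 + s) (1 - s) v))) 0 0 := by
    have := HasFDerivAt.comp_hasDerivAt (l := G) (0:ℝ) (by rw [c0]; exact hG.hasFDerivAt)
      d1.hasDerivAt
    rwa [h0] at this
  set x := Qp b v
  set y := Qp (-b) v
  have a1 : HasDerivAt (fun s : ℝ => (1 + s) ^ 2 * x) (2 * x) 0 := by
    simpa using (((hasDerivAt_id' (0:ℝ)).const_add 1).fun_pow 2).mul_const x
  have a2 : HasDerivAt (fun s : ℝ => (1 - s) ^ 2 * y) (-2 * y) 0 := by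
    simpa using (((hasDerivAt_id' (0:ℝ)).const_sub 1).fun_pow 2).mul_const y
  have a3 := HasDerivAt.comp (h₂ := μ) (0:ℝ) (by simpa using hμ) (a1.fun_add a2)
  have a4 := (((a1.const_add c).fun_sub a2).fun_sub a3).unique (d2.congr_of_eventuallyEq (by
    have : ∀ᶠ s in 𝓝 (0:ℝ), sc b (1 + s) (1 - s) v ∈ ball (0 : W K) ch.R :=
      c1.continuous.continuousAt.preimage_mem_nhds (isOpen_ball.mem_nhds (by rwa [c0]))
    exact this.mono fun s hs => by simp only [e _ hs, Qp_sc, Qn_sc]; rfl))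
  have x0 : 0 ≤ x := Qp_nonneg _ _
  have y0 : 0 ≤ y := Qp_nonneg _ _
  have := abs_le.1 hm
  nlinarith

end Hd

end GK4850
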