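import Pool.Agent.Lib.MP_4850ea_gt.GK.B8m

/-! Lowering a Morse function near a critical point. -/

open scoped ContDiff Topology
open Set Metric

namespace GK4850

namespace Hd

open Classical

theorem exists_mu {d : ℝ} (hd : 0 < d) : ∃ δ, 0 < δ ∧ δ ≤ d ∧ ∃ μ : ℝ → ℝ, ContDiff ℝ ∞ μ ∧
    μ 0 = 2 * δ ∧ (∀ s, 0 ≤ μ s) ∧ (∀ s, d ≤ s → μ s = 0) ∧
    ∀ s, 0 ≤ s → s ≤ 2 * d → |deriv μ s| ≤ 1 / 2 := by
  have hS : ContDiff ℝ ∞ Real.smoothTransition := Real.smoothTransition.contDiff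
  obtain ⟨B, hB⟩ := (isCompact_Icc (a := (-1:ℝ)) (b := 1)).exists_bound_of_continuousOn
    (hS.continuous_deriv (by simp)).continuousOn
  have B0 : 0 ≤ B := (norm_nonneg _).trans (hB 0 (by simp))
  have e0 : 0 < d / (4 * B + 1) := by positivity
  refine ⟨d / (4 * B + 1), e0, div_le_self hd.le (by linarith),
    fun s => 2 * (d / (4 * B + 1)) * Real.smoothTransition (1 - s / d),
    contDiff_const.mul (hS.comp (by fun_prop)), by simp, fun s => mul_nonneg (by positivity)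
      (Real.smoothTransition.nonneg _), fun s hs => ?_, fun s h0 h1 => ?_⟩
  · show _ * Real.smoothTransition _ = 0
    rw [Real.smoothTransition.zero_of_nonpos (by rw [sub_nonpos, one_le_div hd]; exact hs),
      mul_zero]
  · have a1 : HasDerivAt (fun s : ℝ => 1 - s / d) (-(1 / d)) s :=
      ((hasDerivAt_id' s).div_const d).const_sub 1
    have a2 := (((hS.differentiable (by simp)) (1 - s / d)).hasDerivAt.comp s a1).const_mul
      (2 * (d / (4 * B + 1)))
    have a3 : s / d ≤ 2 := by rwa [div_le_iff₀ hd]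
    have a4 : 0 ≤ s / d := by positivity
    have a5 := hB (1 - s / d) ⟨by linarith, by linarith⟩
    rw [show deriv (fun s => 2 * (d / (4 * B + 1)) * Real.smoothTransition (1 - s / d)) s = _
      from a2.deriv]
    rw [Real.norm_eq_abs] at a5
    rw [abs_mul, abs_of_pos (mul_pos two_pos e0), abs_mul, abs_neg,
      abs_of_pos (one_div_pos.2 hd)]
    calc _ ≤ 2 * (d / (4 * B + 1)) * (B * (1 / d)) := by gcongr
      _ = 2 * B / (4 * B + 1) := by field_simp
      _ ≤ 1 / 2 := by rw [div_le_iff₀ (by positivity)]; linarith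

variable {r : ℕ} {K : Type} [Fintype K] {b : K → ℝ}
  {J : Type} [Fintype J] {X : Emb r J} {p : W J} {fr : WFrame X p K} {ch : Chart X fr}
  {f : W J → ℝ} {c d : ℝ}

/-- a box in the model -/
def Cs (b : K → ℝ) (s t : ℝ) : Set (W K) := {v | Qp b v ≤ s ∧ Qp (-b) v ≤ t}

/-- a function in normal form in a chart, with a small scale `d` -/
structure Dat (ch : Chart X fr) (b : K → ℝ) (f : W J → ℝ) (c d : ℝ) : Prop where
  fn : X.IsFn f
  nf : ∀ v ∈ ball (0 : W K) ch.R, f (ch.φ v) = c + Qp b v - Qp (-b) v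
  d0 : 0 < d
  small : ∀ v, Qp b v + Qp (-b) v ≤ 10 * d → v ∈ closedBall (0 : W K) (ch.R / 2)

theorem Dat.fO (h : Dat ch b f c d) {y : W J} (hy : y ∈ ch.O) :
    f y = c + Qp b (ch.ψ y) - Qp (-b) (ch.ψ y) := by
  rw [← h.fn.fπ y (ch.O_sub hy), ← (ch.ψ_mem y hy).2, h.nf _ (ch.ψ_mem y hy).1]

theorem Dat.ball (h : Dat ch b f c d) {v : W K} (hv : Qp b v + Qp (-b) v ≤ 10 * d) :
    v ∈ ball (0 : W K) ch.R :=
  closedBall_subset_ball (by linarith [ch.R_pos]) (h.small v hv)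

theorem Dat.out (h : Dat ch b f c d) {s t : ℝ} (hs : s + t ≤ 10 * d) :
    InvOpen X.γ (Out ch (Cs b s t)) :=
  out_open ch ((isClosed_le (contDiff_Qp b).continuous continuous_const).inter
    (isClosed_le (contDiff_Qp (-b)).continuous continuous_const))
    (fun v hv => h.small v (by linarith [hv.1, hv.2])) fun t v hv => by
      simpa only [Cs, mem_ofPred_eq, Qp_rho] using hv

theorem out_π {C : Set (W K)} {y : W J} (hy : y ∈ Out ch C) : X.π y ∈ Out ch C :=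
  ⟨X.sub (X.π_maps hy.1), fun k => hy.2 ⟨(ch.O_π y hy.1).2 k.1, ch.ψ_π y hy.1 ▸ k.2⟩⟩

theorem Dat.lower (h : Dat ch b f c d) : ∃ δ, 0 < δ ∧ δ ≤ d ∧ ∃ G : W J → ℝ, X.IsFn G ∧
    (∀ y, G y ≤ f y) ∧ (∀ y ∈ Out ch (Cs b d d), G y = f y) ∧
    ∀ z ∈ X.M, z ∉ Out ch (Cs b d d) → fderiv ℝ G z = 0 → G z = c - 2 * δ := by
  obtain ⟨δ, δ0, δd, μ, μs, μ0, μn, μz, μd⟩ := exists_mu h.d0
  set q : W K → ℝ := fun v => μ (Qp b v + Qp (-b) v) with hq
  have qs : ContDiff ℝ ∞ q := μs.comp ((contDiff_Qp b).add (contDiff_Qp (-b)))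
  set G : W J → ℝ := fun y => f y - if y ∈ ch.O then q (ch.ψ y) else 0 with hG
  have e1 : ∀ y ∈ ch.O, G y = f y - q (ch.ψ y) := fun y hy => by simp only [hG, if_pos hy]
  have e2 : ∀ y ∈ Out ch (Cs b d d), G y = f y := fun y hy => by
    by_cases k : y ∈ ch.O
    · have k1 := Qp_nonneg b (ch.ψ y)
      have k2 := Qp_nonneg (-b) (ch.ψ y)
      rw [e1 y k, hq, sub_eq_self]
      refine μz _ (le_of_not_gt fun k3 => hy.2 ⟨k, ?_, ?_⟩) <;> linarith
    · simp only [hG, if_neg k, sub_zero]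
  have ho := h.out (s := d) (t := d) (by linarith [h.d0])
  have Gs : ContDiffOn ℝ ∞ G X.U := by
    refine (((h.fn.smooth.mono ch.O_sub).sub (qs.comp_contDiffOn
      (ch.ψ_smooth.mono ch.O_sub))).congr e1 |>.union_of_isOpen
      ((h.fn.smooth.mono fun _ k => k.1).congr e2) ch.O_open ho.isOpen).mono fun y hy => ?_
    by_cases k : y ∈ ch.O
    · exact Or.inl k
    · exact Or.inr ⟨hy, fun k' => k k'.1⟩
  refine ⟨δ, δ0, δd, G, ⟨Gs, fun y hy => ?_, fun t y hy => ?_⟩, fun y => ?_, e2,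
    fun z hz ho h0 => ?_⟩
  · simp only [hG, h.fn.fπ y hy, ← ch.O_π y hy, ch.ψ_π y hy]
  · simp only [hG, hq, h.fn.inv t y hy, mem_O_iff ch, ch.ψ_eqv t y hy, Qp_rho]
  · refine sub_le_self _ ?_
    split_ifs
    exacts [μn _, le_rfl]
  · have k : z ∈ ch.O ∧ ch.ψ z ∈ Cs b d d := by
      by_contra k; exact ho ⟨X.sub hz, k⟩
    have k0 := ch.ψ_mem z k.1
    rw [X.π_id z hz] at k0
    have k1 := Qp_nonneg b (ch.ψ z)
    have k2 := Qp_nonneg (-b) (ch.ψ z)
    have k3 := crit ch (G := G) (μ := μ) (c := c) k0.1 (by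
      rw [k0.2]
      exact (Gs.contDiffAt (X.isOpen.mem_nhds (X.sub hz))).differentiableAt (by simp))
      (fun w hw => by rw [e1 _ (ch.φ_mem w hw).2.1, (ch.φ_mem w hw).2.2, h.nf w hw])
      (μs.differentiable (by simp) _).hasDerivAt
      (μd _ (by linarith) (by linarith [k.2.1, k.2.2])) (by rw [k0.2]; exact h0)
    rw [e1 z k.1, h.fO k.1, hq]
    simp only [k3, μ0]
    linarith

end Hd

end GK4850
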