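import Pool.Agent.Lib.MP_4850ea_gt.GK.ADefs

/-! Block statements of part A (see /team-store/4850ea_h60_paper.md). -/

open Polynomial

namespace GK4850

/-- A0: choose a connection -/
def A0St : Prop := ∀ (V : Type) [Fintype V] (r n : ℕ) (G : Graph V r n), G.Pre →
  ∃ G' : GKM V r n, G'.toGraph = G

/-- A4: existence of solutions -/
def A4St : Prop := ∀ (V : Type) (r n : ℕ) (G : GKM V r n) (K : Type) [Field K] [CharZero K]
  (ι : (Fin r → ℤ) →+ K), Nondeg G ι →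
    (∃ u J, Sol G ι u J (fun _ => 1) 2) ∧
    ∀ (u : V → PowerSeries K) (a : V → K), (∀ p, PowerSeries.coeff 0 (u p) = 0) →
      ∃ F, Sol G ι u F a 1

open Classical in
/-- A5: extension of GKM classes from an upper set -/
def A5St : Prop := ∀ (V : Type) [Fintype V] (r n : ℕ) (G : Graph V r n), G.MP →
  ∀ (Λ : AddSubgroup (Fin r → ℤ)) (a : (Fin r → ℤ) →+ ℚ) (O : Type) [CommRing O]
    (σ : SS r →+* O),
    (∀ (p : V) (s : Finset (Fin n)) (x : O),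
      (∀ j ∈ s, G.α (p, j) ∈ Λ ∧ σ (lin (G.α (p, j))) ∣ x) →
        (∏ j ∈ s, σ (lin (G.α (p, j)))) ∣ x) →
    ∀ (U : Set V) (φ : V → O),
      (∀ e, G.α e ∈ Λ → 0 ≤ a (G.α e) → e.1 ∈ U →
        (G.rev e).1 ∈ U ∧ σ (lin (G.α e)) ∣ φ e.1 - φ (G.rev e).1) →
      ∃ Φ : V → O, (∀ e, G.α e ∈ Λ → σ (lin (G.α e)) ∣ Φ e.1 - Φ (G.rev e).1) ∧
        ∀ q ∈ U, Φ q = φ q

/-- A6: clusters at units -/
def A6St : Prop := ∀ (V : Type) [Fintype V] (r n : ℕ) (G : GKM V r n), G.toGraph.MP →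
  ∀ (K : Type) [Field K] [CharZero K] (ι : (Fin r → ℤ) →+ K), Nondeg G ι →
  ∀ (R : ValuationSubring K), Place G ι R →
  ∀ (u : V → PowerSeries K) (F : V → PowerSeries (RatFunc K)) (d : ℕ),
    (∀ j ≤ d, SolAt G ι u F j) → (∀ j < d, IntegralAt G ι R F j) →
    ∀ w : K, R.valuation w = 1 →
      (∀ p, IntAt R w (PowerSeries.coeff d (F p))) ∧ ∀ b, Par G ι R b →
        IntAt R w (RatFunc.C (ι (G.α b))⁻¹ *
          (PowerSeries.coeff d (F b.1) - PowerSeries.coeff d (F (G.rev b).1)))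

/-- A7a: the generators `G(b)`: poles, residues, integrality, variation -/
def A7aSt : Prop := ∀ (V : Type) (r n : ℕ) (G : GKM V r n)
  (K : Type) [Field K] [CharZero K] (ι : (Fin r → ℤ) →+ K), Nondeg G ι →
  ∀ (R : ValuationSubring K), Place G ι R → ∀ b, Par G ι R b →
  ∀ y₀ y : PowerSeries K, PowerSeries.coeff 0 y₀ = 0 → PowerSeries.coeff 0 y = 0 →
    PowerSeries.coeff 0 (Gb G ι b y₀ y) = 1 ∧
    (∀ d, IsRep ⊤ ({0} ∪ {w | ∃ c, 1 ≤ c ∧ w = wt G ι b c} ∪ away R 0)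
      (PowerSeries.coeff d (Gb G ι b y₀ y))) ∧
    (∀ d, Res G ι b (Gb G ι b y₀ y) (Gb G ι (G.rev b) y₀ y) d) ∧
    ((∀ j, PowerSeries.coeff j y₀ ∈ R) → (∀ j, PowerSeries.coeff j y ∈ R) → ∀ d,
      IntPair R (ι (G.α b)) (PowerSeries.coeff d (Gb G ι b y₀ y))
        (PowerSeries.coeff d (Gb G ι (G.rev b) y₀ y))) ∧
    ∀ (d : ℕ) (δ₀ δ₁ : K), 1 ≤ d →
      (∀ j < d, PowerSeries.coeff j (Gb G ι b (y₀ + PowerSeries.monomial d δ₀)
        (y + PowerSeries.monomial d δ₁)) = PowerSeries.coeff j (Gb G ι b y₀ y)) ∧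
      PowerSeries.coeff d (Gb G ι b (y₀ + PowerSeries.monomial d δ₀)
        (y + PowerSeries.monomial d δ₁)) = PowerSeries.coeff d (Gb G ι b y₀ y) +
          RatFunc.C (δ₀ + ι (G.α b) / 2 * δ₁) * RatFunc.X⁻¹

/-- A7b: the generators are admissible -/
def A7bSt : Prop := ∀ (V : Type) (r n : ℕ) (G : GKM V r n)
  (K : Type) [Field K] [CharZero K] (ι : (Fin r → ℤ) →+ K), Nondeg G ι → ∀ b,
  ∀ y₀ y : PowerSeries K, PowerSeries.coeff 0 y₀ = 0 → PowerSeries.coeff 0 y = 0 →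
    ∃ u : PowerSeries K, PowerSeries.coeff 0 u = 0 ∧ ∀ d, Vert u (Gb G ι b y₀ y) d

/-- A7c: the zero cluster for a pair, from two integral generators `G`, `D G` -/
def A7cSt : Prop := ∀ (V : Type) (r n : ℕ) (G : GKM V r n)
  (K : Type) [Field K] [CharZero K] (ι : (Fin r → ℤ) →+ K), Nondeg G ι →
  ∀ (R : ValuationSubring K), Place G ι R → ∀ b, Par G ι R b →
  ∀ (u₁ u₂ : PowerSeries K) (G₁ G₂ F₁ F₂ : PowerSeries (RatFunc K)) (d : ℕ),
    PowerSeries.coeff 0 u₁ = 0 → PowerSeries.coeff 0 u₂ = 0 →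
    PowerSeries.coeff 0 G₁ = 1 → PowerSeries.coeff 0 G₂ = 1 →
    (∀ j ≤ d, LocAt G ι R b u₁ u₂ G₁ G₂ j) →
    (∀ j ≤ d, IntPair R (ι (G.α b)) (PowerSeries.coeff j G₁) (PowerSeries.coeff j G₂)) →
    (∀ j ≤ d, LocAt G ι R b u₁ u₂ F₁ F₂ j) →
    (∀ j < d, IntPair R (ι (G.α b)) (PowerSeries.coeff j F₁) (PowerSeries.coeff j F₂)) →
    IntAt R 0 (PowerSeries.coeff d F₁) ∧ IntAt R 0 (PowerSeries.coeff d F₂) ∧
      IntAt R 0 (RatFunc.C (ι (G.α b))⁻¹ * (PowerSeries.coeff d F₁ - PowerSeries.coeff d F₂))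

/-- A8: integrality at an admissible place -/
def A8St : Prop := ∀ (V : Type) [Fintype V] (r n : ℕ) (G : GKM V r n), G.toGraph.MP →
  ∀ (K : Type) [Field K] [CharZero K] (ι : (Fin r → ℤ) →+ K), Nondeg G ι →
  ∀ (R : ValuationSubring K), Place G ι R →
  ∀ (u : V → PowerSeries K) (J F : V → PowerSeries (RatFunc K)) (a : V → K),
    Sol G ι u J (fun _ => 1) 2 → Sol G ι u F a 1 → (∀ p, a p ∈ R) →
    (∀ b, Par G ι R b → (ι (G.α b))⁻¹ * (a b.1 - a (G.rev b).1) ∈ R) →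
    ∀ d p, IsInt R (PowerSeries.coeff d (F p))

/-- A9a: rescaling the weights by `la` -/
def A9aSt : Prop := ∀ (V : Type) (r n : ℕ) (G : GKM V r n) (K : Type) [Field K] [CharZero K]
  (ι ι' : (Fin r → ℤ) →+ K) (la : K), la ≠ 0 → (∀ β, ι' β = la * ι β) →
  ∃ σ : RatFunc K →+* RatFunc K,
    (∀ g, (σ g).intDegree = g.intDegree ∧ lcInf (σ g) = la ^ (-g.intDegree) * lcInf g) ∧
    ∀ (u : V → PowerSeries K) (F : V → PowerSeries (RatFunc K)) (a : V → K) (m : ℤ) (t : K),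
      Sol G ι u F a m →
      Sol G ι' (fun p => PowerSeries.C la * PowerSeries.rescale la⁻¹ (u p))
        (fun p => PowerSeries.mk fun d =>
          RatFunc.C (t * la⁻¹ ^ d) * σ (PowerSeries.coeff d (F p))) (fun p => t * a p) m

open Classical in
/-- A9: a solution starting from the point class with the expected vanishing at infinity -/
def A9St : Prop := ∀ (V : Type) [Fintype V] (r n : ℕ) (G : GKM V r n), G.toGraph.MP → ∀ x : V,
  ∃ (K : Type) (_ : Field K) (_ : CharZero K) (ι : (Fin r → ℤ) →+ K)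
    (u : V → PowerSeries K) (F : V → PowerSeries (RatFunc K)), Nondeg G ι ∧
    Sol G ι u F (fun p => if p = x then ∏ j, ι (G.α (x, j)) else 0) 1 ∧
    ∀ p (d : ℕ), OrdInf ((d : ℤ) - n) (PowerSeries.coeff d (F p))

open Classical in
/-- A10: counting zeros and poles -/
def A10St : Prop := ∀ (V : Type) [Fintype V] (r n : ℕ) (G : GKM V r n) (x : V)
  (K : Type) [Field K] [CharZero K] (ι : (Fin r → ℤ) →+ K)
  (u : V → PowerSeries K) (F : V → PowerSeries (RatFunc K)), Nondeg G ι →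
    Sol G ι u F (fun p => if p = x then ∏ j, ι (G.α (x, j)) else 0) 1 →
    (∀ p (d : ℕ), OrdInf ((d : ℤ) - n) (PowerSeries.coeff d (F p))) →
    Fintype.card V ≤ (2 * n + 1) * (n + 1) ^ (2 * n)

/-- the whole of part A -/
def ASt : Prop := ∀ (V : Type) [Fintype V] (r n : ℕ) (G : Graph V r n), G.Pre → G.MP →
  Fintype.card V ≤ (2 * n + 1) * (n + 1) ^ (2 * n)

theorem ASt_of (h0 : A0St) (h9 : A9St) (h10 : A10St) : ASt := by
  intro V _ r n G hP hM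
  rcases isEmpty_or_nonempty V with h | ⟨⟨x⟩⟩
  · simp
  obtain ⟨G', rfl⟩ := h0 V r n G hP
  obtain ⟨K, _, _, ι, u, F, hN, hS, hO⟩ := h9 V r n G' hM x
  exact h10 V r n G' x K ι u F hN hS hO

end GK4850
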