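import Mathlib

/-! Statement-level definitions for MP_4850ea_gt (Hamiltonian torus actions, GKM, monotone). -/

open scoped Manifold ContDiff Topology
open Bundle

namespace GK4850

/-- A Hamiltonian action of the torus `ℝ^r / ℤ^r` on a manifold `M` with a nondegenerate smooth
2-form `ω`. -/
structure HamAction (r : ℕ) (E : Type) [NormedAddCommGroup E] [NormedSpace ℝ E]
    (M : Type) [TopologicalSpace M] [ChartedSpace E M] [IsManifold 𝓘(ℝ, E) ∞ M] where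
  om : ∀ x : M, TangentSpace 𝓘(ℝ, E) x →L[ℝ] TangentSpace 𝓘(ℝ, E) x →L[ℝ] ℝ
  om_smooth : ContMDiff 𝓘(ℝ, E) (𝓘(ℝ, E).prod 𝓘(ℝ, E →L[ℝ] E →L[ℝ] ℝ)) ∞
    (fun x : M => TotalSpace.mk' (E →L[ℝ] E →L[ℝ] ℝ)
      (E := fun x : M => TangentSpace 𝓘(ℝ, E) x →L[ℝ] TangentSpace 𝓘(ℝ, E) x →L[ℝ] ℝ) x (om x))
  om_alt : ∀ (x : M) (v : TangentSpace 𝓘(ℝ, E) x), om x v v = 0
  om_nondeg : ∀ (x : M) (v : TangentSpace 𝓘(ℝ, E) x), (∀ w, om x v w = 0) → v = 0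
  act : (Fin r → ℝ) → M → M
  act_smooth : ContMDiff (𝓘(ℝ, Fin r → ℝ).prod 𝓘(ℝ, E)) 𝓘(ℝ, E) ∞
    (fun p : (Fin r → ℝ) × M => act p.1 p.2)
  act_zero : ∀ x, act 0 x = x
  act_add : ∀ s t x, act (s + t) x = act s (act t x)
  act_int : ∀ (k : Fin r → ℤ) x, act (fun a => (k a : ℝ)) x = x
  om_inv : ∀ t (x : M) (v w : TangentSpace 𝓘(ℝ, E) x),
    om (act t x) (mfderiv 𝓘(ℝ, E) 𝓘(ℝ, E) (act t) x v) (mfderiv 𝓘(ℝ, E) 𝓘(ℝ, E) (act t) x w)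
      = om x v w
  mu : Fin r → M → ℝ
  mu_smooth : ∀ a, ContMDiff 𝓘(ℝ, E) 𝓘(ℝ, ℝ) ∞ (mu a)
  moment : ∀ a (x : M) (v : TangentSpace 𝓘(ℝ, E) x),
    (mfderiv 𝓘(ℝ, E) 𝓘(ℝ, ℝ) (mu a) x v : ℝ)
      = om x v (mfderiv 𝓘(ℝ, ℝ) 𝓘(ℝ, E) (fun s : ℝ => act (Pi.single a s) x) 0 (1 : ℝ) : E)

variable {r : ℕ} {E : Type} [NormedAddCommGroup E] [NormedSpace ℝ E]
  {M : Type} [TopologicalSpace M] [ChartedSpace E M] [IsManifold 𝓘(ℝ, E) ∞ M]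

/-- The fixed point set of the torus. -/
def HamAction.fixed (H : HamAction r E M) : Set M := {x | ∀ t, H.act t x = x}

/-- GKM condition: at every fixed point the tangent representation is, in a frame `κ` whose complex
structure tames `ω`, diagonal with nonzero and pairwise linearly independent weights `α i`. -/
def HamAction.IsGKM (H : HamAction r E M) (n : ℕ) : Prop :=
  ∀ p ∈ H.fixed, ∃ (κ : (Fin n → ℂ) ≃L[ℝ] E) (α : Fin n → Fin r → ℤ),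
    (∀ a, a ≠ 0 → 0 < H.om p (κ a) (κ (Complex.I • a))) ∧
    (∀ (t : Fin r → ℝ) (a : Fin n → ℂ), (mfderiv 𝓘(ℝ, E) 𝓘(ℝ, E) (H.act t) p (κ a) : E) =
      κ (fun i => Complex.exp (2 * Real.pi * Complex.I * ((∑ b, (α i b : ℝ) * t b : ℝ) : ℂ)) * a i)) ∧
    (∀ i, α i ≠ 0) ∧
    ∀ i j, i ≠ j → ∀ k l : ℤ, k • α i + l • α j = 0 → k = 0 ∧ l = 0

/-- `c₁(TM) = lam [ω]` on spheres. A sphere is a smooth cylinder `u` with collapsed ends, the first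
Chern number is computed from a frame `F` whose complex structure tames `ω`, as the difference of
the winding numbers of the determinant of the frame at the two ends. -/
def HamAction.IsMonotone (H : HamAction r E M) (n : ℕ) (lam : ℝ) : Prop :=
  ∀ (u : ℝ × ℝ → M) (p q : M) (F : ℝ × ℝ → (Fin n → ℂ) →L[ℝ] E)
    (A₀ A₁ : ℝ → Matrix (Fin n) (Fin n) ℂ) (L₀ L₁ : ℝ → ℂ),
    ContMDiff 𝓘(ℝ, ℝ × ℝ) 𝓘(ℝ, E) ∞ u →
    (∀ s θ, u (s, θ + 1) = u (s, θ)) →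
    (∀ s θ, s ≤ 0 → u (s, θ) = p) → (∀ s θ, 1 ≤ s → u (s, θ) = q) →
    (∀ a, ContinuousOn (fun x : ℝ × ℝ => (⟨u x, F x a⟩ : TangentBundle 𝓘(ℝ, E) M))
      (Set.Icc 0 1 ×ˢ Set.univ)) →
    (∀ s θ, F (s, θ + 1) = F (s, θ)) →
    (∀ s ∈ Set.Icc (0 : ℝ) 1, ∀ θ a, a ≠ 0 →
      0 < H.om (u (s, θ)) (F (s, θ) a) (F (s, θ) (Complex.I • a))) →
    (∀ θ a, F (0, θ) a = F (0, 0) ((A₀ θ).mulVec a)) →
    (∀ θ a, F (1, θ) a = F (1, 0) ((A₁ θ).mulVec a)) →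
    Continuous L₀ → Continuous L₁ →
    (∀ θ, Complex.exp (L₀ θ) = (A₀ θ).det) → (∀ θ, Complex.exp (L₁ θ) = (A₁ θ).det) →
    (L₀ 1 - L₀ 0) - (L₁ 1 - L₁ 0) = 2 * Real.pi * Complex.I *
      ((lam * ∫ s in (0 : ℝ)..1, ∫ θ in (0 : ℝ)..1,
        H.om (u (s, θ)) (mfderiv 𝓘(ℝ, ℝ × ℝ) 𝓘(ℝ, E) u (s, θ) ((1 : ℝ), (0 : ℝ)))
          (mfderiv 𝓘(ℝ, ℝ × ℝ) 𝓘(ℝ, E) u (s, θ) ((0 : ℝ), (1 : ℝ))) : ℝ) : ℂ)

end GK4850
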