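import Pool.Agent.Lib.MP_4850ea_gt.GK.BDefs
import Pool.Agent.Lib.MP_4850ea_gt.GK.Stmt
import Pool.Agent.Lib.MP_4850ea_gt.GK.StA

/-! Block statements of part B (see /team-store/4850ea_h60_paper.md). -/

open scoped Manifold ContDiff Topology
open Set

namespace GK4850

/-- B1: equivariant embedding -/
def B1St : Prop := ∀ (r : ℕ) (E : Type) [NormedAddCommGroup E] [NormedSpace ℝ E]
  [FiniteDimensional ℝ E] (M : Type) [TopologicalSpace M] [T2Space M] [CompactSpace M]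
  [ChartedSpace E M] [IsManifold 𝓘(ℝ, E) ∞ M] (H : HamAction r E M),
  ∃ (N : ℕ) (γ : Fin N → Fin r → ℤ) (Φ : M → W (Fin N)),
    ContMDiff 𝓘(ℝ, E) 𝓘(ℝ, W (Fin N)) ∞ Φ ∧ Function.Injective Φ ∧
    (∀ x, Function.Injective (mfderiv 𝓘(ℝ, E) 𝓘(ℝ, W (Fin N)) Φ x)) ∧
    ∀ t x, Φ (H.act t x) = rho γ t (Φ x)

/-- B2: nearest point retraction -/
def B2St : Prop := ∀ (r : ℕ) (E : Type) [NormedAddCommGroup E] [NormedSpace ℝ E]
  [FiniteDimensional ℝ E] (M : Type) [TopologicalSpace M] [T2Space M] [CompactSpace M] [Nonempty M]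
  [ChartedSpace E M] [IsManifold 𝓘(ℝ, E) ∞ M] (J : Type) [Fintype J] (γ : J → Fin r → ℤ)
  (Φ : M → W J), ContMDiff 𝓘(ℝ, E) 𝓘(ℝ, W J) ∞ Φ → Function.Injective Φ →
    (∀ x, Function.Injective (mfderiv 𝓘(ℝ, E) 𝓘(ℝ, W J) Φ x)) →
    (∀ t, MapsTo (rho γ t) (range Φ) (range Φ)) →
    ∃ (X : Ret r J) (g : W J → M), X.γ = γ ∧ X.M = range Φ ∧
      ContMDiffOn 𝓘(ℝ, W J) 𝓘(ℝ, E) ∞ g X.U ∧ ∀ y ∈ X.U, Φ (g y) = X.π y

/-- B3: transport of the Hamiltonian structure -/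
def B3St : Prop := ∀ (r n : ℕ) (E : Type) [NormedAddCommGroup E] [NormedSpace ℝ E]
  [FiniteDimensional ℝ E] (M : Type) [TopologicalSpace M] [T2Space M] [CompactSpace M]
  [ConnectedSpace M] [ChartedSpace E M] [IsManifold 𝓘(ℝ, E) ∞ M] (H : HamAction r E M) (lam : ℝ),
  H.fixed.Finite → H.fixed.Nonempty → H.IsGKM n → 0 < lam → H.IsMonotone n lam →
  ∀ (J : Type) [Fintype J] (X : Ret r J) (Φ : M → W J) (g : W J → M),
    ContMDiff 𝓘(ℝ, E) 𝓘(ℝ, W J) ∞ Φ → Function.Injective Φ →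
    (∀ x, Function.Injective (mfderiv 𝓘(ℝ, E) 𝓘(ℝ, W J) Φ x)) →
    (∀ t x, Φ (H.act t x) = rho X.γ t (Φ x)) → X.M = range Φ →
    ContMDiffOn 𝓘(ℝ, W J) 𝓘(ℝ, E) ∞ g X.U → (∀ y ∈ X.U, Φ (g y) = X.π y) →
    ∃ Y : Emb r J, Y.Good n lam ∧ Y.Fix = Φ '' H.fixed

/-- B4a: isometric weight frames -/
def B4aSt : Prop := ∀ (r n : ℕ) (J : Type) [Fintype J] (X : Emb r J), X.IsGKM n →
  Nonempty (Frames X n)

/-- B4b: equivariant charts of arbitrarily small radius -/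
def B4bSt : Prop := ∀ (r : ℕ) (J : Type) [Fintype J] (X : Emb r J) (p : W J), p ∈ X.Fix →
  ∀ (K : Type) [Fintype K] (fr : WFrame X p K), ∃ ch : Chart X fr,
    ∀ R', 0 < R' → R' ≤ ch.R → ∃ ch' : Chart X fr, ch'.R = R' ∧ ch'.φ = ch.φ ∧ ch'.ψ = ch.ψ

/-- B4c: second order behaviour of the moment map in a chart -/
def B4cSt : Prop := ∀ (r : ℕ) (J : Type) [Fintype J] (X : Emb r J) (p : W J), p ∈ X.Fix →
  ∀ (K : Type) [Fintype K] (fr : WFrame X p K) (ch : Chart X fr) (ξ : Fin r → ℝ) (ε : ℝ), 0 < ε →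
    ∀ᶠ v in 𝓝 (0 : W K),
      |X.mx ξ (ch.φ v) - X.mx ξ p - ∑ i, Real.pi * fr.c i * pr (fr.α i) ξ * ‖v i‖ ^ 2|
        ≤ ε * ‖v‖ ^ 2 ∧
      ∀ w : W K, |fderiv ℝ (fun v => X.mx ξ (ch.φ v)) v w -
        ∑ i, 2 * (Real.pi * fr.c i * pr (fr.α i) ξ) * ((starRingEnd ℂ) (v i) * w i).re|
          ≤ ε * ‖v‖ * ‖w‖

/-- B6a: Poincaré lemma with compact supports, in degree different from the dimension -/
def B6aSt : Prop := ∀ (E : Type) [NormedAddCommGroup E] [NormedSpace ℝ E] [FiniteDimensional ℝ E]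
  (F : Type) [NormedAddCommGroup F] [NormedSpace ℝ F] [FiniteDimensional ℝ F] (j : ℕ)
  (κ : E → (E [⋀^Fin (j + 1)]→L[ℝ] F)), j + 1 ≠ Module.finrank ℝ E → ContDiff ℝ ∞ κ →
    HasCompactSupport κ → (∀ x, extDeriv κ x = 0) →
    ∃ η : E → (E [⋀^Fin j]→L[ℝ] F), ContDiff ℝ ∞ η ∧ HasCompactSupport η ∧ ∀ x, extDeriv η x = κ x

/-- B6b: extension over the origin -/
def B6bSt : Prop := ∀ (r : ℕ) (K : Type) [Fintype K] (α : K → Fin r → ℤ)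
  (F : Type) [NormedAddCommGroup F] [NormedSpace ℝ F] [FiniteDimensional ℝ F]
  [Module (SS r) F] [IsScalarTower ℝ (SS r) F] (β : Form K F), ECl α {0}ᶜ β →
    ∃ (β' : Form K F) (L : ℝ), ECl α univ β' ∧ ∀ j x, L < ‖x‖ → β' j x = β j x

/-- B6c: Thom forms -/
def B6cSt : Prop := ∀ (r : ℕ) (K : Type) [Fintype K] (α : K → Fin r → ℤ)
  (F : Type) [NormedAddCommGroup F] [NormedSpace ℝ F] [FiniteDimensional ℝ F]
  [Module (SS r) F] [IsScalarTower ℝ (SS r) F] (f₀ : F) (s : Finset K) (ε : ℝ), 0 < ε →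
    ∃ τ : Form K F, ECl α univ τ ∧ val τ 0 = (∏ i ∈ s, lin (α i)) • f₀ ∧
      ∀ j x, (∃ i ∈ s, ε < ‖x i‖) → τ j x = 0

/-- B7a: Morse function in normal form -/
def B7aSt : Prop := ∀ (r : ℕ) (J : Type) [Fintype J] (X : Emb r J), X.Fix.Finite →
  ∀ (K : W J → Type) [∀ p, Fintype (K p)] (fr : ∀ p ∈ X.Fix, WFrame X p (K p)) (ξ : Fin r → ℝ),
    (∀ j, X.γ j ≠ 0 → pr (X.γ j) ξ ≠ 0) → (∀ p (hp : p ∈ X.Fix) i, pr ((fr p hp).α i) ξ ≠ 0) →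
    Nonempty (MorseFn X K fr ξ)

/-- B7b: pushing through a band without critical points -/
def B7bSt : Prop := ∀ (r : ℕ) (J : Type) [Fintype J] (X : Ret r J) (f : W J → ℝ), X.IsFn f →
  ∀ a b : ℝ, (∀ x ∈ X.M, a ≤ f x → f x ≤ b → fderiv ℝ f x ≠ 0) →
    ∃ g : W J → W J, EqvMap X.γ X.γ (X.U ∩ {y | a < f y}) (X.U ∩ {y | b < f y}) g ∧
      ∀ x ∈ X.M, fderiv ℝ f x = 0 → g x = x

open Classical in
/-- B8a: passing one critical level -/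
def B8aSt : Prop := ∀ (r : ℕ) (J : Type) [Fintype J] (X : Emb r J), X.Fix.Finite →
  ∀ (K : W J → Type) [∀ p, Fintype (K p)] (fr : ∀ p ∈ X.Fix, WFrame X p (K p)) (ξ : Fin r → ℝ)
    (mf : MorseFn X K fr ξ)
    (F : Type) [NormedAddCommGroup F] [NormedSpace ℝ F] [FiniteDimensional ℝ F]
    [Module (SS r) F] [IsScalarTower ℝ (SS r) F] (p : W J) (hp : p ∈ X.Fix),
    ∃ a b, a < mf.f p ∧ mf.f p < b ∧ (∀ q ∈ X.Fix, q ≠ p → mf.f q < a ∨ b < mf.f q) ∧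
      (∀ β : Form J F, ECl X.γ (X.U ∩ {y | b < mf.f y}) β →
        ∃ β' : Form J F, ECl X.γ (X.U ∩ {y | a < mf.f y}) β' ∧
          ∀ q ∈ X.Fix, mf.f p < mf.f q → val β' q = val β q) ∧
      ∀ f₀ : F, ∃ τ : Form J F, ECl X.γ (X.U ∩ {y | a < mf.f y}) τ ∧
        val τ p = (∏ i ∈ Finset.univ.filter (fun i => 0 < pr ((fr p hp).α i) ξ),
          lin ((fr p hp).α i)) • f₀ ∧
        ∀ q ∈ X.Fix, mf.f p < mf.f q → val τ q = 0

open Classical in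
/-- B8b: global Thom forms -/
def B8bSt : Prop := ∀ (r : ℕ) (J : Type) [Fintype J] (X : Emb r J), X.Fix.Finite →
  ∀ (K : W J → Type) [∀ p, Fintype (K p)] (fr : ∀ p ∈ X.Fix, WFrame X p (K p)) (ξ : Fin r → ℝ)
    (mf : MorseFn X K fr ξ)
    (F : Type) [NormedAddCommGroup F] [NormedSpace ℝ F] [FiniteDimensional ℝ F]
    [Module (SS r) F] [IsScalarTower ℝ (SS r) F] (p : W J) (hp : p ∈ X.Fix) (f₀ : F),
    ∃ τ : Form J F, ECl X.γ X.U τ ∧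
      val τ p = (∏ i ∈ Finset.univ.filter (fun i => 0 < pr ((fr p hp).α i) ξ),
        lin ((fr p hp).α i)) • f₀ ∧
      ∀ q ∈ X.Fix, mf.f p < mf.f q → val τ q = 0

/-- B9r: restriction to `W^Λ` (same ambient space, `π ∘ Q`) -/
def B9rSt : Prop := ∀ (r n : ℕ) (J : Type) [Fintype J] (X : Emb r J) (Fr : Frames X n)
  (Λ : AddSubgroup (Fin r → ℤ)),
    ∃ X' : Emb r J, X'.γ = X.γ ∧ X'.M = X.Y Λ ∧ X'.Fix = X.Fix ∧
      (∀ a, ∀ x ∈ X.Y Λ, X'.m a x = X.m a x) ∧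
      ∀ p (hp : p ∈ X.Fix) (K : Type) [Fintype K] (e : K → Fin n), Function.Injective e →
        (∀ i, (Fr.fr p hp).α i ∈ Λ ↔ i ∈ range e) →
        ∃ fr' : WFrame X' p K, ∀ k, fr'.α k = (Fr.fr p hp).α (e k)

/-- B9a: polynomial Thom classes -/
def B9aSt : Prop := ∀ (r n : ℕ) (J : Type) [Fintype J] (X : Emb r J) (Fr : Frames X n),
  X.Fix.Finite → Fr.ThomPoly

/-- B9b: the invariant complex structure -/
def B9bSt : Prop := ∀ (r n : ℕ) (J : Type) [Fintype J] (X : Emb r J) (Fr : Frames X n),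
  ∃ A : ACS X, ∀ p (hp : p ∈ X.Fix) v,
    A.Jm p ((Fr.fr p hp).κ v) = (Fr.fr p hp).κ (Complex.I • v)

/-- B9c: congruence of weights on a component of `M ∩ W^Λ` -/
def B9cSt : Prop := ∀ (r n : ℕ) (J : Type) [Fintype J] (X : Emb r J) (Fr : Frames X n)
  (Λ : AddSubgroup (Fin r → ℤ)) (p q : W J) (hp : p ∈ X.Fix) (hq : q ∈ X.Fix),
    q ∈ connectedComponentIn (X.Y Λ) p →
    ∃ σ : Fin n ≃ Fin n, ∀ i, (Fr.fr q hq).α (σ i) - (Fr.fr p hp).α i ∈ Λ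

/-- B9e: edges -/
def B9eSt : Prop := ∀ (r n : ℕ) (J : Type) [Fintype J] (X : Emb r J) (Fr : Frames X n),
  X.Fix.Finite → Nonempty (Edges Fr)

/-- B10p: smooth paths with sitting ends and complex frames along them -/
def B10pSt : Prop := ∀ (r n : ℕ) (J : Type) [Fintype J] (X : Emb r J) (A : ACS X),
  IsPreconnected X.M → ∀ p ∈ X.M, ∀ q ∈ X.M, ∀ F₀ : (Fin n → ℂ) →L[ℝ] W J, IsCFrame A p F₀ →
    ∃ (c : ℝ → W J) (F : ℝ → (Fin n → ℂ) →L[ℝ] W J), ContDiff ℝ ∞ c ∧ (∀ s, c s ∈ X.M) ∧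
      (∀ s, s ≤ 0 → c s = p) ∧ (∀ s, 1 ≤ s → c s = q) ∧ ContinuousOn F (Icc 0 1) ∧
      ∀ s ∈ Icc (0 : ℝ) 1, IsCFrame A (c s) (F s)

/-- B10: monotonicity at the fixed points -/
def B10St : Prop := ∀ (r n : ℕ) (J : Type) [Fintype J] (X : Emb r J) (Fr : Frames X n) (lam : ℝ),
  X.Good n lam → ∀ (p q : W J) (hp : p ∈ X.Fix) (hq : q ∈ X.Fix) (a : Fin r),
    ((∑ i, (Fr.fr p hp).α i a - ∑ i, (Fr.fr q hq).α i a : ℤ) : ℝ) = lam * (X.m a q - X.m a p)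

/-- B11: the graph -/
def B11St : Prop := ∀ (r n : ℕ) (J : Type) [Fintype J] (X : Emb r J) (lam : ℝ),
  X.Good n lam → ∃ G : Graph X.Fix r n, G.Pre ∧ G.MP

/-- the final statement -/
def MainSt : Prop := ∀ (r n : ℕ) (E : Type) [NormedAddCommGroup E] [NormedSpace ℝ E]
  [FiniteDimensional ℝ E] (M : Type) [TopologicalSpace M] [T2Space M] [CompactSpace M]
  [ConnectedSpace M] [ChartedSpace E M] [IsManifold 𝓘(ℝ, E) ∞ M] (H : HamAction r E M) (lam : ℝ),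
  H.fixed.Finite → H.IsGKM n → 0 < lam → H.IsMonotone n lam →
  H.fixed.ncard ≤ (2 * n + 1) * (n + 1) ^ (2 * n)

theorem MainSt_of (hA : ASt) (h1 : B1St) (h2 : B2St) (h3 : B3St) (h11 : B11St) : MainSt := by
  intro r n E _ _ _ M _ _ _ _ _ _ H lam hfin hG hl hm
  rcases H.fixed.eq_empty_or_nonempty with h | hne
  · simp [h]
  obtain ⟨N, γ, Φ, hs, hi, hd, he⟩ := h1 r E M H
  obtain ⟨X, g, hγ, hM, hg, hπ⟩ := h2 r E M (Fin N) γ Φ hs hi hd (by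
    rintro t _ ⟨x, rfl⟩; exact ⟨H.act t x, he t x⟩)
  obtain ⟨Y, hY, hF⟩ := h3 r n E M H lam hfin hne hG hl hm (Fin N) X Φ g hs hi hd
    (by rw [hγ]; exact he) hM hg hπ
  obtain ⟨G, hP, hMP⟩ := h11 r n (Fin N) Y lam hY
  have : Fintype Y.Fix := hY.fin.fintype
  have h := hA Y.Fix r n G hP hMP
  have h' : H.fixed.ncard = Fintype.card Y.Fix := by
    rw [← Set.ncard_image_of_injective _ hi, ← hF, ← Nat.card_coe_set_eq, Nat.card_eq_fintype_card]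
  omega

end GK4850
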