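import Pool.Agent.Lib.MP_4850ea_gt.GK.B8n
import Pool.Agent.Lib.MP_4850ea_gt.GK.StB

/-! Extension of closed Cartan forms over a handle. -/

open scoped ContDiff Topology
open Set Metric

namespace GK4850

theorem EqvMap.comp' {r : ℕ} {J J' J'' : Type} [Fintype J] [Fintype J'] [Fintype J'']
    {γ : J → Fin r → ℤ} {γ' : J' → Fin r → ℤ} {γ'' : J'' → Fin r → ℤ} {A : Set (W J)}
    {A' : Set (W J')} {A'' : Set (W J'')} {g : W J' → W J} {g' : W J'' → W J'}
    (hg : EqvMap γ' γ A' A g) (hg' : EqvMap γ'' γ' A'' A' g') : EqvMap γ'' γ A'' A (g ∘ g') :=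
  ⟨hg.smooth.comp hg'.smooth hg'.maps, hg.maps.comp hg'.maps, fun t x hx => by
    simp only [Function.comp, hg'.eqv t x hx, hg.eqv t _ (hg'.maps hx)]⟩

namespace Hd

variable {r : ℕ} {K : Type} [Fintype K] {b : K → ℝ}
  {J : Type} [Fintype J] {X : Emb r J} {p : W J} {fr : WFrame X p K} {ch : Chart X fr}
  {f : W J → ℝ} {c d δ : ℝ}
  {F : Type} [NormedAddCommGroup F] [NormedSpace ℝ F] [FiniteDimensional ℝ F]
  [Module (SS r) F] [IsScalarTower ℝ (SS r) F]

theorem exists_m (b : K → ℝ) (hd : 0 < d) :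
    ∃ m > 0, ∀ v : W K, d < Qp b v → ∃ i, 0 < b i ∧ m < ‖v i‖ := by
  obtain ⟨B, B0, hB⟩ := upper b
  refine ⟨√(d / B), by positivity, fun v hv => ?_⟩
  by_contra k
  push Not at k
  have := hB v _ k
  rw [Real.sq_sqrt (by positivity), mul_div_cancel₀ _ B0.ne'] at this
  linarith

theorem Dat.xbig (h : Dat ch b f c d) (δd : δ ≤ d) {y : W J} (hO : y ∈ ch.O) (ha : c - δ < f y)
    (ho : y ∈ Out ch (Cs b (3 * d) (4 * d))) : 3 * d < Qp b (ch.ψ y) := by
  rw [h.fO hO] at ha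
  exact lt_of_not_ge fun k => ho.2 ⟨hO, k, by linarith⟩

/-- a shell in the model -/
def Sh (b : K → ℝ) (d δ : ℝ) : Set (W K) :=
  {v | d < Qp b v ∧ Qp b v + Qp (-b) v ≤ 10 * d ∧ -δ < Qp b v - Qp (-b) v}

theorem Dat.phi (h : Dat ch b f c d) : EqvMap fr.α X.γ (Sh b d δ)
    (X.U ∩ {y | c - δ < f y} ∩ Out ch (Cs b d d)) ch.φ := by
  refine ⟨ch.φ_smooth.mono fun v hv => h.ball hv.2.1, fun v hv => ?_,
    fun t v hv => ch.φ_eqv t v (h.ball hv.2.1)⟩
  have k := ch.φ_mem v (h.ball hv.2.1)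
  refine ⟨⟨X.sub k.1, ?_⟩, X.sub k.1, fun k' => ?_⟩
  · show c - δ < f _
    rw [h.nf v (h.ball hv.2.1)]; linarith [hv.2.2]
  · exact absurd (k.2.2 ▸ k'.2.1 : Qp b v ≤ d) hv.1.not_ge

/-- step function -/
noncomputable def st (d x : ℝ) : ℝ := Real.smoothTransition (x / d - 2)

/-- the retraction of the collar, in the model -/
noncomputable def col (b : K → ℝ) (d : ℝ) (v : W K) : W K :=
  sc b √((Qp b v + (1 - st d (Qp b v)) * (4 * d - Qp b v)) / Qp b v) (st d (Qp b v)) v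

theorem col_high (hd : 0 < d) {v : W K} (hv : 3 * d < Qp b v) : col b d v = v := by
  have e : st d (Qp b v) = 1 := Real.smoothTransition.one_of_one_le (by
    rw [le_sub_iff_add_le, le_div_iff₀ hd]; linarith)
  rw [col, e, sub_self, zero_mul, add_zero, div_self (by linarith), Real.sqrt_one, sc_one]

theorem col_low (hd : 0 < d) {v : W K} (hv : Qp b v < 2 * d) :
    col b d v = sc b √(4 * d / Qp b v) 0 v := by
  have e : st d (Qp b v) = 0 := Real.smoothTransition.zero_of_nonpos (by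
    rw [sub_nonpos, div_le_iff₀ hd]; linarith)
  rw [col, e, sub_zero, one_mul, add_sub_cancel]

theorem Dat.col (h : Dat ch b f c d) (δd : δ ≤ d) : EqvMap X.γ fr.α
    (X.U ∩ {y | c - δ < f y} ∩ (ch.O ∩ {y | Qp b (ch.ψ y) ∈ Ioo d (4 * d)})) (Sh b d δ)
    fun y => col b d (ch.ψ y) := by
  have d0 := h.d0
  have s0 : ∀ x, 0 ≤ st d x := fun _ => Real.smoothTransition.nonneg _
  have s1 : ∀ x, st d x ≤ 1 := fun _ => Real.smoothTransition.le_one _
  have ψs := ch.ψ_smooth.mono (s := X.U) (t := X.U ∩ {y | c - δ < f y} ∩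
    (ch.O ∩ {y | Qp b (ch.ψ y) ∈ Ioo d (4 * d)})) fun _ k => k.1.1
  have xs := (contDiff_Qp b).comp_contDiffOn ψs
  have ss := (Real.smoothTransition.contDiff (n := ⊤)).comp_contDiffOn
    ((xs.div_const d).sub (contDiffOn_const (c := 2)))
  refine ⟨contDiffOn_sc (((xs.add ((contDiffOn_const.sub ss).mul (contDiffOn_const.sub xs))).div
    xs fun y hy => (d0.trans hy.2.2.1).ne').sqrt fun y hy => ?_) ss ψs, fun y hy => ?_,
    fun t y hy => ?_⟩
  · have k1 : d < Qp b (ch.ψ y) := hy.2.2.1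
    have k2 := mul_nonneg (sub_nonneg.2 (s1 (Qp b (ch.ψ y)))) (sub_nonneg.2 hy.2.2.2.le)
    exact (div_pos (add_pos_of_pos_of_nonneg (d0.trans k1) k2) (d0.trans k1)).ne'
  · have k1 : d < Qp b (ch.ψ y) := hy.2.2.1
    have k1' : Qp b (ch.ψ y) < 4 * d := hy.2.2.2
    have k0 : c - δ < f y := hy.1.2
    rw [h.fO hy.2.1] at k0
    have n0 := Qp_nonneg (-b) (ch.ψ y)
    have t0 := s0 (Qp b (ch.ψ y))
    have t1 := s1 (Qp b (ch.ψ y))
    have k2 := mul_nonneg (sub_nonneg.2 t1) (sub_nonneg.2 k1'.le)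
    have k3 := mul_nonneg t0 (sub_nonneg.2 k1'.le)
    have k4 := mul_le_of_le_one_left n0 (pow_le_one₀ t0 t1 (n := 2))
    simp only [Sh, Hd.col, mem_ofPred_eq, Qp_sc, Qn_sc]
    rw [Real.sq_sqrt (div_nonneg (by linarith) (by linarith)), div_mul_cancel₀ _ (by linarith)]
    exact ⟨by linarith, by nlinarith, by linarith⟩
  · simp only [Hd.col, ch.ψ_eqv t y hy.1.1, Qp_rho, sc_rho]

theorem cap (hd : 0 < d) (δ0 : 0 < δ) (α : K → Fin r → ℤ) :
    EqvMap (fun i : {i // 0 < b i} => α i.1) α {0}ᶜ (Sh b d δ)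
      fun z => sc b √(4 * d / Qp b (inc b z)) 0 (inc b z) := by
  have xs := (contDiff_Qp b).comp_contDiffOn ((inc b).contDiff.contDiffOn (s := {0}ᶜ))
  refine ⟨contDiffOn_sc ((contDiffOn_const.div xs fun z hz => (Qp_inc hz).ne').sqrt
    fun z hz => (div_pos (by linarith) (Qp_inc hz)).ne') contDiffOn_const
    (inc b).contDiff.contDiffOn, fun z hz => ?_, fun t z _ => ?_⟩
  · have k := Qp_inc hz
    simp only [Sh, mem_ofPred_eq, Qp_sc, Qn_sc]
    rw [Real.sq_sqrt (by positivity), div_mul_cancel₀ _ k.ne']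
    exact ⟨by linarith, by linarith, by linarith⟩
  · simp only [inc_rho, Qp_rho, sc_rho]

theorem Dat.extend (h6 : B6bSt) (h : Dat ch b f c d) (δ0 : 0 < δ) (δd : δ ≤ d) {β : Form J F}
    (hβ : ECl X.γ (X.U ∩ {y | c - δ < f y} ∩ Out ch (Cs b d d)) β) :
    ∃ β' : Form J F, ECl X.γ (X.U ∩ {y | c - δ < f y}) β' ∧
      ∀ y ∈ X.M, c - δ < f y → y ∈ Out ch (Cs b (3 * d) (4 * d)) → val β' y = val β y := by
  classical
  have d0 := h.d0
  have hV := h.fn.invOpen (c - δ)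
  have hA := (hV.inter (h.out (s := d) (t := d) (by linarith))).isOpen
  have h2 := hV.inter (h.out (s := 3 * d) (t := 4 * d) (by linarith))
  have h1 := hV.inter (band_open ch _ (contDiff_Qp b).continuous (fun t v => Qp_rho b t v)
    (isOpen_Ioo (a := d) (b := 4 * d)))
  have h0 := hV.inter (band_open ch _ (contDiff_Qp b).continuous (fun t v => Qp_rho b t v)
    (isOpen_Iio (a := 2 * d)))
  have b2 := hβ.pull h2 hA (X.eqvMap.mono (fun _ k => k.1.1) fun y hy =>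
    ⟨⟨X.sub (X.π_maps hy.1.1), by
      show c - δ < f _
      rw [h.fn.fπ y hy.1.1]; exact hy.1.2⟩, out_π ⟨hy.1.1, fun k => hy.2.2
        ⟨k.1, by linarith [k.2.1], by linarith [k.2.2]⟩⟩⟩)
  have b1 := hβ.pull h1 hA (h.phi.comp' (h.col δd))
  have g2 := h.phi.comp' (cap d0 δ0 fr.α)
  have hz : InvOpen (fun i : {i // 0 < b i} => fr.α i.1) {0}ᶜ :=
    ⟨isOpen_compl_singleton, fun t z hz k => hz (norm_eq_zero.1 (by
      rw [← norm_rho (γ := fun i : {i // 0 < b i} => fr.α i.1) t, show rho _ t z = 0 from k,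
        norm_zero]))⟩
  obtain ⟨β3, L, b3, hL⟩ := h6 r _ _ F _ (hβ.pull hz hA g2)
  obtain ⟨m, m0, hm⟩ := exists_m b d0
  have l0 : 0 < (|L| + 1) / m := by positivity
  set l := (|L| + 1) / m with hl
  have g0 : EqvMap X.γ (fun i : {i // 0 < b i} => fr.α i.1) (X.U ∩ {y | c - δ < f y} ∩
      (ch.O ∩ {y | Qp b (ch.ψ y) ∈ Iio (2 * d)})) univ fun y => l • prp b (ch.ψ y) :=
    ⟨((prp b).contDiff.comp_contDiffOn (ch.ψ_smooth.mono fun _ k => k.1.1)).const_smul l,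
      mapsTo_univ _ _, fun t y hy => by rw [ch.ψ_eqv t y hy.1.1, prp_rho, map_smul]⟩
  have b0 := b3.pull h0 isOpen_univ g0
  obtain ⟨β4, b4, e2, e1⟩ := b2.glue h2 h1 b1 fun j y k2 k1 => pull_congr
    (Filter.mem_of_superset ((h2.isOpen.inter h1.isOpen).mem_nhds ⟨k2, k1⟩) fun z k => by
      show X.π z = ch.φ (Hd.col b d (ch.ψ z))
      rw [col_high d0 (h.xbig δd k.2.2.1 k.1.1.2 k.1.2), (ch.ψ_mem z k.2.2.1).2])
  obtain ⟨β5, b5, e4, -⟩ := b4.glue (h2.union h1) h0 b0 fun j y k k0 => by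
    rcases k with k | k
    · exact absurd (h.xbig δd k0.2.1 k.1.2 k.2) (not_lt.2 (by
        linarith [show Qp b (ch.ψ y) < 2 * d from k0.2.2]))
    obtain ⟨i, hi, hv⟩ := hm _ k.2.2.1
    have k1 : |L| < ‖l • prp b (ch.ψ y)‖ := by
      rw [norm_smul, Real.norm_of_nonneg l0.le]
      have := mul_lt_mul_of_pos_left (hv.trans_le (le_prp _ i hi)) l0
      rw [hl, div_mul_cancel₀ _ m0.ne'] at this
      linarith
    have k2 : l • prp b (ch.ψ y) ∈ ({0}ᶜ : Set _) := fun e => by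
      rw [show l • prp b (ch.ψ y) = 0 from e, norm_zero] at k1
      exact k1.not_ge (abs_nonneg _)
    rw [e1 j y k, show pull (fun y => l • prp b (ch.ψ y)) β3 j y = pull
      (fun y => l • prp b (ch.ψ y)) (pull _ β) j y from congrArg (fun w =>
        ContinuousAlternatingMap.compContinuousLinearMap w _)
        (hL j _ ((le_abs_self L).trans_lt k1)), pull_pull (g' := fun y => l • prp b (ch.ψ y))
      ((g2.smooth.contDiffAt (hz.isOpen.mem_nhds k2)).differentiableAt (by simp))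
      ((g0.smooth.contDiffAt (h0.isOpen.mem_nhds k0)).differentiableAt (by simp))]
    refine pull_congr (Filter.mem_of_superset (h0.isOpen.mem_nhds k0) fun z k => ?_)
    show ch.φ (Hd.col b d (ch.ψ z)) = ch.φ (sc b _ 0 (inc b (l • prp b (ch.ψ z))))
    rw [col_low d0 k.2.2, inc_prp, Qp_sc, sc_sc, mul_comm (l ^ 2), ← div_div,
      Real.sqrt_div' _ (sq_nonneg _), Real.sqrt_sq l0.le, div_mul_cancel₀ _ l0.ne']
  refine ⟨β5, b5.mono fun y hy => ?_, fun y hy ha ho => ?_⟩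
  · by_cases k : y ∈ ch.O ∧ ch.ψ y ∈ Cs b (3 * d) (4 * d)
    · by_cases k' : Qp b (ch.ψ y) < 2 * d
      · exact Or.inr ⟨hy, k.1, k'⟩
      · exact Or.inl (Or.inr ⟨hy, k.1, by linarith, by linarith [k.2.1]⟩)
    · exact Or.inl (Or.inl ⟨hy, hy.1, k⟩)
  · have k : y ∈ X.U ∩ {y | c - δ < f y} ∩ Out ch (Cs b (3 * d) (4 * d)) := ⟨⟨ho.1, ha⟩, ho⟩
    rw [val, e4 0 y (Or.inl k), e2 0 y k, ← val, val_pull, X.π_id y hy]

end Hd

end GK4850
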