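import Pool.Agent.Lib.MP_4850ea_gt.GK.StB
import Pool.Agent.Lib.MP_4850ea_gt.GK.B0

/-! B9a: polynomial Thom classes. -/

open scoped ContDiff Topology
open Set MvPolynomial

namespace GK4850

namespace B9a

variable {r : ℕ} {J : Type} [Fintype J]

theorem finite_quot (r d : ℕ) :
    Module.Finite ℝ (SS r ⧸ idealOfVars (Fin r) ℝ ^ (d + 1)) := by
  refine Module.Finite.of_surjective
    (((idealOfVars (Fin r) ℝ ^ (d + 1)).mkQ.restrictScalars ℝ).comp
      (restrictTotalDegree (Fin r) ℝ d).subtype) fun x => ?_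
  obtain ⟨s, rfl⟩ := Ideal.Quotient.mk_surjective x
  refine ⟨⟨∑ i ∈ Finset.range (d + 1), homogeneousComponent i s, Submodule.sum_mem _ fun i hi =>
    (mem_restrictTotalDegree _ _ _).2 ((homogeneousComponent_isHomogeneous i s).totalDegree_le.trans
      (Nat.lt_succ_iff.1 (Finset.mem_range.1 hi)))⟩, Ideal.Quotient.eq.2 ?_⟩
  refine (mem_pow_idealOfVars_iff' _ _).2 fun m hm => ?_
  simp [coeff_sum, coeff_homogeneousComponent, hm]

/-- The space of truncated polynomials. -/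
theorem exists_F (r d : ℕ) : ∃ (F : Type) (_ : NormedAddCommGroup F) (_ : NormedSpace ℝ F)
    (_ : FiniteDimensional ℝ F) (_ : Module (SS r) F) (_ : IsScalarTower ℝ (SS r) F) (f₀ : F)
    (H : F →ₗ[ℝ] SS r), (∀ s : SS r, H (s • f₀) = homogeneousComponent d s) ∧
      ∀ x, ∃ s : SS r, x = s • f₀ := by
  have := finite_quot r d
  let e := (Module.finBasis ℝ (SS r ⧸ idealOfVars (Fin r) ℝ ^ (d + 1))).equivFun
  refine ⟨SS r ⧸ idealOfVars (Fin r) ℝ ^ (d + 1), NormedAddCommGroup.induced _ _ e e.injective,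
    NormedSpace.induced ℝ _ _ e, this, inferInstance, inferInstance, Ideal.Quotient.mk _ 1,
    (((idealOfVars (Fin r) ℝ ^ (d + 1)).restrictScalars ℝ).liftQ (homogeneousComponent d)
      fun s hs => ?_).comp (Submodule.Quotient.restrictScalarsEquiv ℝ _).symm.toLinearMap,
    fun s => ?_, fun x => ?_⟩
  · refine homogeneousComponent_eq_zero' _ _ fun m hm e => ?_
    have := (mem_pow_idealOfVars_iff _ _).1 hs m hm
    omega
  · change homogeneousComponent d (s * 1) = _
    rw [mul_one]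
  · obtain ⟨s, rfl⟩ := Ideal.Quotient.mk_surjective x
    exact ⟨s, congrArg (Ideal.Quotient.mk _) (mul_one s).symm⟩

theorem lin_hom (β : Fin r → ℤ) : (lin β).IsHomogeneous 1 :=
  IsHomogeneous.sum _ _ _ fun a _ => (isHomogeneous_X ℝ a).C_mul _

theorem lin_dvd (β : Fin r → ℤ) (d : ℕ) (s : SS r) :
    lin β ∣ homogeneousComponent d (lin β * s) := by
  rw [← sum_homogeneousComponent s, Finset.mul_sum, map_sum]
  refine Finset.dvd_sum fun i _ => ?_
  rw [homogeneousComponent_of_mem ((lin_hom β).mul (homogeneousComponent_isHomogeneous i s))]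
  split_ifs
  exacts [dvd_mul_right _ _, dvd_zero _]

theorem const_mod (X : Ret r J) (Λ : AddSubgroup (Fin r → ℤ)) {F : Type} [NormedAddCommGroup F]
    [NormedSpace ℝ F] [FiniteDimensional ℝ F] {g : W J → F} (N : Submodule ℝ F)
    (hg : ∀ x ∈ X.Y Λ, DifferentiableAt ℝ g x) (h0 : ∀ x ∈ X.Y Λ, ∀ v, fderiv ℝ g x v ∈ N)
    {x y : W J} (hy : y ∈ connectedComponentIn (X.Y Λ) x) : g x - g y ∈ N := by
  refine (Subspace.forall_mem_dualAnnihilator_apply_eq_zero_iff N _).1 fun φ hφ => ?_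
  have h1 := fun z hz =>
    (LinearMap.toContinuousLinearMap φ).hasFDerivAt.comp z (hg z hz).hasFDerivAt
  have := X.const_on_component Λ (fun z hz => (h1 z hz).differentiableAt)
    (fun z hz v _ _ => by
      rw [(h1 z hz).fderiv]
      exact (Submodule.mem_dualAnnihilator φ).1 hφ _ (h0 z hz v)) hy
  rw [map_sub, sub_eq_zero]
  exact this.symm

section
variable {F : Type} [NormedAddCommGroup F] [NormedSpace ℝ F] [FiniteDimensional ℝ F]
  [Module (SS r) F] [IsScalarTower ℝ (SS r) F] {γ : J → Fin r → ℤ} {A : Set (W J)} {τ : Form J F}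
  {x : W J}

theorem diff0 (hA : IsOpen A) (h : ECl γ A τ) (hx : x ∈ A) : DifferentiableAt ℝ (τ 0) x :=
  ((h.cartan.smooth 0).contDiffAt (hA.mem_nhds hx)).differentiableAt (by simp)

theorem diff_val (hA : IsOpen A) (h : ECl γ A τ) (hx : x ∈ A) : DifferentiableAt ℝ (val τ) x :=
  (diff0 hA h hx).continuousAlternatingMap_apply_const _

theorem fderiv_val (hA : IsOpen A) (h : ECl γ A τ) (hx : x ∈ A) (v : W J) :
    fderiv ℝ (val τ) x v = ∑ a, (X a : SS r) •
      (τ 2 x).curryLeft (gen γ (Pi.single a 1) x) ![v] := by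
  have h1 : extDeriv (τ 0) x ![v] = iota γ (τ 2) x ![v] :=
    DFunLike.congr_fun (sub_eq_zero.1 (h.closed 1 x hx)) _
  rw [extDeriv_apply (diff0 hA h hx), iota, ContinuousAlternatingMap.sum_apply] at h1
  rw [Fin.sum_univ_succ, Fin.sum_univ_zero, add_zero, Fin.val_zero, pow_zero, one_smul,
    Subsingleton.elim (Fin.removeNth 0 ![v]) ![]] at h1
  exact h1

theorem gen_line {β : Fin r → ℤ} (hx : ∀ j, γ j ∉ AddSubgroup.zmultiples β → x j = 0) :
    ∃ u : W J, ∀ a, gen γ (Pi.single a 1) x = (β a : ℝ) • u := by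
  have : ∀ j, ∃ k : ℤ, ∀ a, (γ j a : ℂ) * x j = β a * k * x j := fun j => by
    by_cases e : γ j ∈ AddSubgroup.zmultiples β
    · obtain ⟨k, hk⟩ := AddSubgroup.mem_zmultiples_iff.1 e
      exact ⟨k, fun a => by rw [← hk]; simp [mul_comm]⟩
    · exact ⟨0, fun a => by simp [hx j e]⟩
  choose k hk using this
  refine ⟨WithLp.toLp 2 fun j => 2 * Real.pi * Complex.I * (k j * x j), fun a => ?_⟩
  ext j
  rw [gen_apply, pr_single]
  simp only [PiLp.smul_apply, Complex.real_smul, Complex.ofReal_intCast]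
  linear_combination (2 * Real.pi * Complex.I) * hk j a

theorem fderiv_line (hA : IsOpen A) (h : ECl γ A τ) (hx : x ∈ A) {β : Fin r → ℤ}
    (hβ : ∀ j, γ j ∉ AddSubgroup.zmultiples β → x j = 0) (v : W J) :
    ∃ f : F, fderiv ℝ (val τ) x v = lin β • f := by
  obtain ⟨u, hu⟩ := gen_line hβ
  refine ⟨(τ 2 x).curryLeft u ![v], ?_⟩
  rw [fderiv_val hA h hx, lin, Finset.sum_smul]
  refine Finset.sum_congr rfl fun a _ => ?_
  rw [hu, map_smul, ContinuousAlternatingMap.smul_apply, mul_comm, mul_smul, C_eq_smul_one,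
    smul_one_smul]

end

end B9a

open B9a Classical in
/-- B9a -/
theorem b9a (h9r : B9rSt) (h7a : B7aSt) (h8b : B8bSt) : B9aSt := by
  intro r n J _ X Fr hfin Λ ξ hξ
  obtain ⟨X', hγ, hM, hF, hm, hfr⟩ := h9r r n J X Fr Λ
  let K : W J → Type := fun p => {i : Fin n // ∃ hp : p ∈ X.Fix, (Fr.fr p hp).α i ∈ Λ}
  choose fr hα using fun p (hp : p ∈ X'.Fix) => hfr p (hF ▸ hp) (K p) Subtype.val
    Subtype.val_injective fun i => ⟨fun h => ⟨⟨i, _, h⟩, rfl⟩, fun ⟨k, e⟩ => e ▸ k.2.2⟩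
  have hfin' : X'.Fix.Finite := hF ▸ hfin
  obtain ⟨mf⟩ := h7a r J X' hfin' K fr ξ (hγ ▸ hξ.1) fun p hp i => by
    rw [hα]; exact hξ.2 _ _ _
  have hmx : ∀ p ∈ X.Fix, X'.mx ξ p = X.mx ξ p := fun p hp =>
    Finset.sum_congr rfl fun a _ => by rw [hm a p (X.Fix_sub_Y Λ hp)]
  refine ⟨mf.f, mf.inj.mono hF.ge, fun p hp q hq h => mf.order p (hF ▸ hp) q (hF ▸ hq)
    (by rwa [hmx p hp, hmx q hq]), fun p hp => ?_⟩
  have hp' : p ∈ X'.Fix := hF ▸ hp
  obtain ⟨F, _, _, _, _, _, f₀, H, hH, hs⟩ := exists_F r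
    (Finset.univ.filter fun i => 0 < pr ((fr p hp').α i) ξ).card
  obtain ⟨τ, hτ, h1, h2⟩ := h8b r J X' hfin' K fr ξ mf F p hp' f₀
  have hU : X.Y Λ ⊆ X'.U := hM ▸ X'.sub
  refine ⟨fun x => H (val τ x), fun β hβ x _ y _ hy => ?_, fun x _ y _ hy => ?_, ?_,
    fun q hq h => ?_⟩
  · have hU' := (X.Y_mono (AddSubgroup.zmultiples_le_of_mem hβ)).trans hU
    have := const_mod X.toRet _ (((Ideal.span {lin β}).restrictScalars ℝ).comap H)
      (fun z hz => diff_val X'.isOpen hτ (hU' hz)) (fun z hz v => by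
        obtain ⟨f, hf⟩ := fderiv_line X'.isOpen hτ (hU' hz) (hγ ▸ hz.2) v
        obtain ⟨s, rfl⟩ := hs f
        rw [hf, ← mul_smul, Submodule.mem_comap, hH]
        exact Ideal.mem_span_singleton.2 (lin_dvd β _ s)) hy
    rw [Submodule.mem_comap, map_sub] at this
    exact Ideal.mem_span_singleton.1 this
  · have := const_mod X.toRet _ (LinearMap.ker ((lcoeff ℝ 0).comp H))
      (fun z hz => diff_val X'.isOpen hτ (hU hz)) (fun z hz v => by
        rw [fderiv_val X'.isOpen hτ (hU hz)]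
        refine Submodule.sum_mem _ fun a _ => ?_
        obtain ⟨s, e⟩ := hs ((τ 2 z).curryLeft (gen X'.γ (Pi.single a 1) z) ![v])
        rw [e, ← mul_smul, LinearMap.mem_ker, LinearMap.comp_apply, hH, lcoeff_apply,
          coeff_homogeneousComponent, ← constantCoeff_eq]
        simp) hy
    rw [LinearMap.mem_ker, map_sub, sub_eq_zero] at this
    exact this
  · simp only [h1, hH]
    rw [homogeneousComponent_eq_self (by
      simpa using IsHomogeneous.prod _ _ (fun _ => 1) fun i _ => lin_hom ((fr p hp').α i))]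
    refine Finset.prod_bij (fun i _ => i.1) (fun i hi => ?_) (fun _ _ _ _ e => Subtype.ext e)
      (fun i hi => ?_) fun i _ => by rw [hα]
    · rw [Finset.mem_filter, hα] at hi
      exact Finset.mem_filter.2 ⟨Finset.mem_univ _, hi.2, i.2.2⟩
    · have := (Finset.mem_filter.1 hi).2
      exact ⟨⟨i, hp, this.2⟩, Finset.mem_filter.2 ⟨Finset.mem_univ _, by rw [hα]; exact this.1⟩,
        rfl⟩
  · simp only [h2 q (hF ▸ hq) h, map_zero]

end GK4850
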