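import Pool.Agent.Lib.MP_4850ea_gt.GK.StB
import Pool.Agent.Lib.MP_4850ea_gt.GK.B0

/-! B9b: the invariant complex structure `J = B (1 - P - B²)^(-1/2)`. -/

open scoped RealInnerProductSpace
open Complex

namespace GK4850

namespace B9bA

variable {E F : Type} [NormedAddCommGroup E] [InnerProductSpace ℝ E] [FiniteDimensional ℝ E]
  [NormedAddCommGroup F] [InnerProductSpace ℝ F] [FiniteDimensional ℝ F]

/-- positive and injective -/
def Pos (A : E →L[ℝ] E) : Prop := A.IsPositive ∧ Function.Injective A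

open scoped MatrixOrder Matrix.Norms.L2Operator in
/-- the inverse square root -/
theorem exS : ∃ s : (E →L[ℝ] E) → E →L[ℝ] E, ContinuousOn s {A | Pos A} ∧
    ∀ A, Pos A → Pos (s A) ∧ (∀ v, s A (s A (A v)) = v) ∧ ∀ v, A (s A (s A v)) = v := by
  let b := stdOrthonormalBasis ℝ E
  let φ := (Module.End.toContinuousLinearMap (𝕜 := ℝ) E).symm.trans
    (LinearMap.toMatrixAlgEquiv b.toBasis)
  have hφ : ∀ A, (φ A).PosSemidef ↔ A.IsPositive := fun A => LinearMap.posSemidef_toMatrix_iff b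
  have u : ∀ A, Pos A → IsUnit (φ A).det := fun A h =>
    (Matrix.isUnit_iff_isUnit_det _).1 (IsUnit.map (LinearMap.toMatrixAlgEquiv b.toBasis)
      ((LinearMap.isUnit_iff_ker_eq_bot _).2 (LinearMap.ker_eq_bot.2 h.2)))
  have nn : ∀ A, Pos A → 0 ≤ (φ A)⁻¹ := fun A h => ((hφ A).2 h.1).inv.nonneg
  have c1 : Continuous φ := φ.toLinearMap.continuous_of_finiteDimensional
  have c2 : Continuous φ.symm := φ.symm.toLinearMap.continuous_of_finiteDimensional
  refine ⟨fun A => φ.symm (CFC.sqrt (φ A)⁻¹), c2.comp_continuousOn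
    (CFC.continuousOn_sqrt.comp (fun A h => ?_) nn), fun A h => ?_⟩
  · obtain ⟨w, hw⟩ := u A h
    exact ((continuousAt_matrix_inv _ (hw ▸ NormedRing.inverse_continuousAt w)).comp
      c1.continuousAt).continuousWithinAt
  have e1 : φ.symm (CFC.sqrt (φ A)⁻¹) * φ.symm (CFC.sqrt (φ A)⁻¹) * A = 1 := φ.injective (by
    rw [← map_mul, CFC.sqrt_mul_sqrt_self _ (nn A h), map_mul, φ.apply_symm_apply,
      Matrix.nonsing_inv_mul _ (u A h), map_one])
  have e2 : A * (φ.symm (CFC.sqrt (φ A)⁻¹) * φ.symm (CFC.sqrt (φ A)⁻¹)) = 1 := φ.injective (by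
    rw [← map_mul, CFC.sqrt_mul_sqrt_self _ (nn A h), map_mul, φ.apply_symm_apply,
      Matrix.mul_nonsing_inv _ (u A h), map_one])
  have e3 := fun v => DFunLike.congr_fun e2 v
  refine ⟨⟨(hφ _).1 (by
    rw [φ.apply_symm_apply]; exact Matrix.nonneg_iff_posSemidef.1 (CFC.sqrt_nonneg _)),
    fun v w e => ?_⟩, fun v => DFunLike.congr_fun e1 v, e3⟩
  exact (e3 v).symm.trans ((congrArg (fun x => A (φ.symm (CFC.sqrt (φ A)⁻¹) x)) e).trans (e3 w))

theorem Pos.lt {A : E →L[ℝ] E} (h : Pos A) {u : E} (hu : u ≠ 0) : 0 < ⟪A u, u⟫ := by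
  obtain ⟨s, -, hs⟩ := exS (E := E)
  obtain ⟨a, b, -⟩ := hs A h
  have : ⟪A u, u⟫ = ⟪s A (A u), s A (A u)⟫ :=
    (congrArg _ (b u).symm).trans (a.1.1 _ _).symm
  rw [this]
  exact real_inner_self_pos.2 fun e => hu (by rw [← b u, e, map_zero])

omit [FiniteDimensional ℝ E] in
/-- maps that intertwine the squares intertwine the roots -/
theorem twine {S : E →L[ℝ] E} {S' : F →L[ℝ] F} (h : Pos S) (h' : S'.IsPositive) (T : F →L[ℝ] E)
    (e : ∀ v, S (S (T v)) = T (S' (S' v))) (v : F) : S (T v) = T (S' v) := by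
  have : (S ∘L T).toLinearMap = (T ∘L S').toLinearMap := by
    refine (h'.1.eigenvectorBasis rfl).toBasis.ext fun i => ?_
    have a : S' _ = _ := h'.1.apply_eigenvectorBasis rfl i
    have l := h'.toLinearMap.nonneg_eigenvalues rfl i
    change S (T (h'.1.eigenvectorBasis rfl i)) = T (S' (h'.1.eigenvectorBasis rfl i))
    generalize h'.1.eigenvectorBasis rfl i = w at a
    generalize h'.1.eigenvalues rfl i = c at a l
    have e1 := e w
    simp only [a, map_smul, RCLike.ofReal_real_eq_id, id] at e1 ⊢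
    have z : S (S (T w) - c • T w) = -c • (S (T w) - c • T w) := by
      rw [map_sub, map_smul, e1]; module
    have p := h.1.inner_nonneg_left (S (T w) - c • T w)
    rw [← sub_eq_zero]
    rcases l.eq_or_lt with rfl | l
    · exact h.2 (by simpa using z)
    · rw [z, real_inner_smul_left] at p
      exact real_inner_self_nonpos.1 (by nlinarith)
  exact LinearMap.congr_fun this v

/-- an alternating operator that is injective on the range of a projection -/
structure Dat (B P : E →L[ℝ] E) : Prop where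
  alt : ∀ u v, ⟪B u, v⟫ = -⟪u, B v⟫
  sym : ∀ u v, ⟪P u, v⟫ = ⟪u, P v⟫
  pp : ∀ v, P (P v) = P v
  bp : ∀ v, B (P v) = B v
  nd : ∀ v, B v = 0 → P v = 0

variable {B P : E →L[ℝ] E}

omit [FiniteDimensional ℝ E] in
theorem Dat.pb (h : Dat B P) (u : E) : P (B u) = B u :=
  ext_inner_right ℝ fun v => by rw [h.sym, h.alt, h.bp, h.alt]

omit [FiniteDimensional ℝ E] in
theorem Dat.pos (h : Dat B P) : Pos (1 - P - B * B) := by
  have q : ∀ v, ⟪(1 - P - B * B) v, v⟫ = ‖v - P v‖ ^ 2 + ‖B v‖ ^ 2 := fun v => by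
    have := h.sym (P v) v
    rw [h.pp] at this
    simp only [← real_inner_self_eq_norm_sq, _root_.sub_apply, mul_apply_eq_comp,
      one_apply_eq_self, inner_sub_left, inner_sub_right, h.alt (B v), ← h.sym v v,
      ← this]
    ring
  refine ⟨(ContinuousLinearMap.isPositive_iff _).2 ⟨fun u v => ?_, fun v => by rw [q]; positivity⟩,
    (injective_iff_map_eq_zero _).2 fun v e => ?_⟩
  · change ⟪u - P u - B (B u), v⟫ = ⟪u, v - P v - B (B v)⟫
    simp only [inner_sub_left, inner_sub_right, h.alt, h.sym, neg_neg]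
  · have := q v
    rw [e, inner_zero_left] at this
    have a : ‖v - P v‖ = 0 := by nlinarith [norm_nonneg (v - P v), sq_nonneg ‖B v‖]
    have b : ‖B v‖ = 0 := by nlinarith [norm_nonneg (B v), sq_nonneg ‖v - P v‖]
    simpa [h.nd v (norm_eq_zero.1 b)] using a

end B9bA

open B9bA InnerProductSpace in
theorem b9b : B9bSt := by
  intro r n J _ X Fr
  obtain ⟨s, sc, hs⟩ := exS (E := W J)
  set B : W J → W J →L[ℝ] W J := fun x => continuousLinearMapOfBilin (𝕜 := ℝ) (X.om x) with hB
  have bi : ∀ x u v, ⟪B x u, v⟫ = X.om x u v := fun x => continuousLinearMapOfBilin_apply _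
  have Bc : ContinuousOn B X.M := continuousOn_const.clm_comp X.om_cont
  have D : ∀ x ∈ X.M, Dat (B x) (X.P x) := fun x hx =>
    ⟨fun u v => by rw [real_inner_comm (B x v), bi, bi, X.om_antisymm hx], X.P_symm x hx, X.P_P hx,
      fun u => ext_inner_right ℝ fun v => by rw [bi, bi]; exact X.om_P x hx u v,
      fun u e => X.om_nondeg x hx u fun v => by rw [← bi, e, inner_zero_left]⟩
  set A : W J → W J →L[ℝ] W J := fun x => 1 - X.P x - B x * B x with hA
  have ap : ∀ x v, A x v = v - X.P x v - B x (B x v) := fun _ _ => rfl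
  have S := fun x hx => hs (A x) (D x hx).pos
  have tw : ∀ x ∈ X.M, ∀ y ∈ X.M, ∀ T : W J →L[ℝ] W J, (∀ v, A x (T v) = T (A y v)) →
      ∀ v, s (A x) (T v) = T (s (A y) v) := fun x hx y hy T e =>
    twine (S x hx).1 (S y hy).1.1 T fun v => by
      conv_lhs => rw [← (S y hy).2.2 v, ← e, (S x hx).2.1]
  have sB : ∀ x ∈ X.M, ∀ v, s (A x) (B x v) = B x (s (A x) v) := fun x hx =>
    tw x hx x hx _ fun v => by simp only [ap, map_sub, (D x hx).bp, (D x hx).pb]
  have sP : ∀ x ∈ X.M, ∀ v, s (A x) (X.P x v) = X.P x (s (A x) v) := fun x hx =>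
    tw x hx x hx _ fun v => by simp only [ap, map_sub, (D x hx).bp, (D x hx).pb, (D x hx).pp]
  refine ⟨⟨fun x => B x ∘L s (A x), Bc.clm_comp (sc.comp ((continuousOn_const.sub
    (X.continuousOn_P.mono X.sub)).sub (Bc.mul Bc)) fun x hx => (D x hx).pos),
    fun x hx v => (X.mem_T_iff hx _).2 ((D x hx).pb _), fun x hx v hv => ?_,
    fun x hx v hv h0 => ?_, fun t x hx v => ?_⟩, fun p hp v => ?_⟩
  · have := (S x hx).2.2 v
    rw [ap, ← sP x hx, ← sP x hx, (X.mem_T_iff hx v).1 hv, sub_self, zero_sub] at this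
    change B x (s (A x) (B x (s (A x) v))) = -v
    rw [sB x hx, ← neg_eq_iff_eq_neg]
    exact this
  · have e := ap x v
    rw [(X.mem_T_iff hx v).1 hv, sub_self, zero_sub] at e
    have e' := (S x hx).2.1 v
    have := (S x hx).1.lt (u := s (A x) (A x v)) fun z => h0 (by rw [← e', z, map_zero])
    change 0 < X.om x v (B x (s (A x) v))
    rw [X.om_antisymm hx, ← bi, ← inner_neg_left, ← sB x hx, ← sB x hx, ← map_neg, ← e]
    rwa [e', real_inner_comm] at this
  · have hx' := X.inv_M t hx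
    have b : ∀ v, B (rho X.γ t x) (rho X.γ t v) = rho X.γ t (B x v) := fun v =>
      ext_inner_right ℝ fun w => by rw [← rho_rho_neg (γ := X.γ) t w, bi, X.om_inv t x hx, inner_rho, bi]
    change B _ (s (A _) (rho X.γ t v)) = rho X.γ t (B x (s (A x) v))
    rw [tw _ hx' x hx _ fun v => by simp only [ap, map_sub, b, X.P_rho (X.sub hx)], b]
  · set fr := Fr.fr p hp
    have kp : ∀ v, X.P p (fr.κ v) = fr.κ v := fun v =>
      (X.mem_T_iff hp.1 _).1 (fr.range_κ ▸ ⟨v, rfl⟩)
    have ki : ∀ u v, ⟪fr.κ u, fr.κ v⟫ = ⟪u, v⟫ :=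
      LinearIsometry.inner_map_map ⟨fr.κ.toLinearMap, fr.norm_κ⟩
    have c0 : ∀ i, (fr.c i : ℂ) ≠ 0 := fun i => by exact_mod_cast (fr.c_pos i).ne'
    have b : ∀ u, B p (fr.κ u) = fr.κ (diag (fun i => fr.c i * I) u) := fun u =>
      ext_inner_right ℝ fun w => by
        obtain ⟨v, hv⟩ : X.P p w ∈ fr.κ.toLinearMap.range := fr.range_κ ▸ X.P_mem p w
        rw [← kp (diag _ u), (D p hp.1).sym, ← (D p hp.1).pb, (D p hp.1).sym, ← hv, bi]
        erw [fr.om_κ, ki, inner_W]
        refine Finset.sum_congr rfl fun i _ => ?_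
        simp [diag_apply]
        ring
    have dp : (diag fun i => (((fr.c i)⁻¹ : ℝ) : ℂ) : W (Fin n) →L[ℝ] W (Fin n)).IsPositive := by
      refine (ContinuousLinearMap.isPositive_iff _).2 ⟨fun u v => ?_, fun v => ?_⟩
      · change ⟪diag _ u, v⟫ = ⟪u, diag _ v⟫
        rw [inner_W, inner_W]
        refine Finset.sum_congr rfl fun i _ => ?_
        simp only [diag_apply, map_mul, conj_ofReal]
        ring_nf
      · rw [inner_W]
        refine Finset.sum_nonneg fun i _ => ?_
        have := fr.c_pos i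
        rw [diag_apply, map_mul, conj_ofReal, mul_assoc, re_ofReal_mul, ← normSq_eq_conj_mul_self,
          ofReal_re]
        exact mul_nonneg (by positivity) (normSq_nonneg _)
    have t := twine (S p hp.1).1 dp fr.κ fun v => by
      rw [← (S p hp.1).2.1 (fr.κ (diag _ (diag _ v))), ap, kp, sub_self, b, b, zero_sub, ← map_neg]
      congr 3
      ext i
      have := c0 i
      simp only [PiLp.neg_apply, diag_apply, ofReal_inv]
      field_simp
      simp
    change B p (s (A p) (fr.κ v)) = _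
    rw [t, b]
    congr 1
    ext i
    have := c0 i
    simp only [diag_apply, ofReal_inv, PiLp.smul_apply, smul_eq_mul]
    field_simp

end GK4850
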