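import Pool.Agent.Lib.MP_4850ea_gt.GK.StB
import Pool.Agent.Lib.MP_4850ea_gt.GK.B0

/-! B9c and B10p: transport of complex frames between close points. -/

open scoped ContDiff Topology RealInnerProductSpace
open Set

namespace GK4850

noncomputable section

variable {r : ℕ} {J : Type} [Fintype J] {X : Emb r J}

/-- the complex linear intertwiner `T x → T y` -/
def B9c_I (A : ACS X) (x y : W J) : W J →L[ℝ] W J :=
  (1 / 2 : ℝ) • (X.P y * X.P x - A.Jm y * X.P y * (A.Jm x * X.P x))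

/-- its extension to the ambient space -/
def B9c_B (A : ACS X) (x y : W J) : W J →L[ℝ] W J :=
  B9c_I A x y + (1 - X.P y) * (1 - X.P x)

theorem B9c_I_apply (A : ACS X) (x y v : W J) :
    B9c_I A x y v =
      (1 / 2 : ℝ) • (X.P y (X.P x v) - A.Jm y (X.P y (A.Jm x (X.P x v)))) := rfl

theorem B9c_B_apply (A : ACS X) (x y v : W J) :
    B9c_B A x y v = B9c_I A x y v + ((v - X.P x v) - X.P y (v - X.P x v)) := rfl

theorem B9c_I_mem (A : ACS X) (x : W J) {y : W J} (hy : y ∈ X.M) (v : W J) :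
    B9c_I A x y v ∈ X.T y := by
  rw [B9c_I_apply]
  exact Submodule.smul_mem _ _ (Submodule.sub_mem _ (X.P_mem _ _) (A.mem y hy _))

theorem B9c_I_P (A : ACS X) {x : W J} (hx : x ∈ X.M) (y v : W J) :
    B9c_I A x y (X.P x v) = B9c_I A x y v := by
  rw [B9c_I_apply, B9c_I_apply, X.P_P hx]

theorem B9c_I_self (A : ACS X) {x : W J} (hx : x ∈ X.M) (v : W J) :
    B9c_I A x x v = X.P x v := by
  rw [B9c_I_apply, X.P_P hx, (X.mem_T_iff hx _).1 (A.mem x hx _), A.sq x hx _ (X.P_mem _ _)]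
  module

theorem B9c_B_self (A : ACS X) {x : W J} (hx : x ∈ X.M) : B9c_B A x x = 1 := by
  ext1 v
  rw [B9c_B_apply, B9c_I_self A hx, map_sub, X.P_P hx]
  simp

theorem B9c_I_J (A : ACS X) {x y : W J} (hx : x ∈ X.M) (hy : y ∈ X.M) {v : W J}
    (hv : v ∈ X.T x) : B9c_I A x y (A.Jm x v) = A.Jm y (B9c_I A x y v) := by
  rw [B9c_I_apply, B9c_I_apply, (X.mem_T_iff hx _).1 (A.mem x hx _), (X.mem_T_iff hx _).1 hv,
    A.sq x hx _ hv, map_smul, map_sub, A.sq y hy _ (X.P_mem _ _), map_neg, map_neg]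
  module

theorem B9c_I_rho (A : ACS X) {x y : W J} (hx : x ∈ X.M) (hy : y ∈ X.M) (t : Fin r → ℝ)
    (htx : rho X.γ t x = x) (hty : rho X.γ t y = y) (v : W J) :
    B9c_I A x y (rho X.γ t v) = rho X.γ t (B9c_I A x y v) := by
  have hPx : ∀ w, X.P x (rho X.γ t w) = rho X.γ t (X.P x w) := fun w => by
    have := X.P_rho (X.sub hx) t w; rwa [htx] at this
  have hPy : ∀ w, X.P y (rho X.γ t w) = rho X.γ t (X.P y w) := fun w => by
    have := X.P_rho (X.sub hy) t w; rwa [hty] at this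
  have hJx : ∀ w, A.Jm x (rho X.γ t w) = rho X.γ t (A.Jm x w) := fun w => by
    have := A.inv t x hx w; rwa [htx] at this
  have hJy : ∀ w, A.Jm y (rho X.γ t w) = rho X.γ t (A.Jm y w) := fun w => by
    have := A.inv t y hy w; rwa [hty] at this
  rw [B9c_I_apply, B9c_I_apply, hPx, hPy, hJx, hPy, hJy, map_smul, map_sub]

theorem B9c_I_contOn (A : ACS X) :
    ContinuousOn (fun z : W J × W J => B9c_I A z.1 z.2) (X.M ×ˢ X.M) := by
  have hP1 : ContinuousOn (fun z : W J × W J => X.P z.1) (X.M ×ˢ X.M) :=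
    X.continuousOn_P.comp continuousOn_fst (fun z hz => X.sub hz.1)
  have hP2 : ContinuousOn (fun z : W J × W J => X.P z.2) (X.M ×ˢ X.M) :=
    X.continuousOn_P.comp continuousOn_snd (fun z hz => X.sub hz.2)
  have hJ1 : ContinuousOn (fun z : W J × W J => A.Jm z.1) (X.M ×ˢ X.M) :=
    A.cont.comp continuousOn_fst (fun z hz => hz.1)
  have hJ2 : ContinuousOn (fun z : W J × W J => A.Jm z.2) (X.M ×ˢ X.M) :=
    A.cont.comp continuousOn_snd (fun z hz => hz.2)
  exact ((hP2.mul hP1).sub ((hJ2.mul hP2).mul (hJ1.mul hP1))).const_smul (1 / 2 : ℝ)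

theorem B9c_B_contOn (A : ACS X) :
    ContinuousOn (fun z : W J × W J => B9c_B A z.1 z.2) (X.M ×ˢ X.M) := by
  have hP1 : ContinuousOn (fun z : W J × W J => X.P z.1) (X.M ×ˢ X.M) :=
    X.continuousOn_P.comp continuousOn_fst (fun z hz => X.sub hz.1)
  have hP2 : ContinuousOn (fun z : W J × W J => X.P z.2) (X.M ×ˢ X.M) :=
    X.continuousOn_P.comp continuousOn_snd (fun z hz => X.sub hz.2)
  exact (B9c_I_contOn A).add ((continuousOn_const.sub hP2).mul (continuousOn_const.sub hP1))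

theorem B9c_unit_aux {E R : Type} [PseudoMetricSpace E] [NormedRing R] [CompleteSpace R]
    (f : E → E → R) {M : Set E} (hc : ContinuousOn (fun z : E × E => f z.1 z.2) (M ×ˢ M))
    {x : E} (hx : x ∈ M) (h1 : f x x = 1) :
    ∃ ε > 0, ∀ y ∈ M, ∀ z ∈ M, dist y x < ε → dist z x < ε → IsUnit (f y z) := by
  have h2 : {u : R | IsUnit u} ∈ 𝓝 (f x x) := by
    apply Units.isOpen.mem_nhds
    rw [h1]; exact isUnit_one
  have h3 := hc (x, x) ⟨hx, hx⟩ h2
  rw [Filter.mem_map, Metric.mem_nhdsWithin_iff] at h3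
  obtain ⟨ε, hε, h⟩ := h3
  refine ⟨ε, hε, fun y hy z hz hyx hzx => ?_⟩
  have : (y, z) ∈ Metric.ball (x, x) ε ∩ M ×ˢ M := by
    refine ⟨?_, hy, hz⟩
    rw [Metric.mem_ball, Prod.dist_eq]
    exact max_lt hyx hzx
  exact h this

/-- close points have invertible intertwiners -/
theorem B9c_unit (A : ACS X) {x : W J} (hx : x ∈ X.M) :
    ∃ ε > 0, ∀ y ∈ X.M, ∀ z ∈ X.M, dist y x < ε → dist z x < ε → IsUnit (B9c_B A y z) :=
  B9c_unit_aux (B9c_B A) (B9c_B_contOn A) hx (B9c_B_self A hx)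

/-- transport of a real frame -/
theorem B9c_frame (A : ACS X) {x y : W J} (hx : x ∈ X.M) (hy : y ∈ X.M)
    (hu : IsUnit (B9c_B A x y)) {G : Type} [NormedAddCommGroup G] [NormedSpace ℝ G]
    (F : G →L[ℝ] W J) (hi : Function.Injective F) (hr : LinearMap.range F.toLinearMap = X.T x) :
    Function.Injective ((B9c_I A x y).comp F) ∧
      LinearMap.range ((B9c_I A x y).comp F).toLinearMap = X.T y := by
  have hb : Function.Bijective (B9c_B A x y) := by
    obtain ⟨u, hu⟩ := hu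
    rw [← hu]
    exact (ContinuousLinearEquiv.unitsEquiv ℝ (W J) u).bijective
  have hF : ∀ a, F a ∈ X.T x := fun a => hr ▸ ⟨a, rfl⟩
  have hBI : ∀ a, B9c_B A x y (F a) = B9c_I A x y (F a) := fun a => by
    rw [B9c_B_apply, (X.mem_T_iff hx _).1 (hF a)]; simp
  constructor
  · intro a b hab
    apply hi; apply hb.1
    rw [hBI, hBI]; exact hab
  · apply le_antisymm
    · rintro _ ⟨a, rfl⟩
      exact B9c_I_mem A x hy _
    · intro w hw
      obtain ⟨v, hv⟩ := hb.2 w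
      have h1 : X.P x v ∈ LinearMap.range F.toLinearMap := hr ▸ X.P_mem x v
      obtain ⟨a, ha⟩ := h1
      refine ⟨a, ?_⟩
      have ha' : F a = X.P x v := ha
      have h2 : X.P y w = B9c_I A x y v := by
        rw [← hv, B9c_B_apply, map_add, map_sub (X.P y) (v - X.P x v), X.P_P hy,
          (X.mem_T_iff hy _).1 (B9c_I_mem A x hy v)]
        simp
      show B9c_I A x y (F a) = w
      rw [ha', B9c_I_P A hx, ← h2, (X.mem_T_iff hy _).1 hw]

theorem B9c_cframe (A : ACS X) {n : ℕ} {x y : W J} (hx : x ∈ X.M) (hy : y ∈ X.M)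
    (hu : IsUnit (B9c_B A x y)) {F : (Fin n → ℂ) →L[ℝ] W J} (hF : IsCFrame A x F) :
    IsCFrame A y ((B9c_I A x y).comp F) := by
  obtain ⟨h1, h2⟩ := B9c_frame A hx hy hu F hF.inj hF.range
  refine ⟨h1, h2, fun a => ?_⟩
  show B9c_I A x y (F (Complex.I • a)) = A.Jm y (B9c_I A x y (F a))
  rw [hF.cx, B9c_I_J A hx hy (hF.range ▸ ⟨a, rfl⟩)]

/-! ### B9c -/

/-- a complex frame at `y`, equivariant for the weights `α` and the subgroup dual to `Λ` -/
def B9c_Q (A : ACS X) {n : ℕ} (α : Fin n → Fin r → ℤ) (Λ : AddSubgroup (Fin r → ℤ)) (y : W J) :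
    Prop :=
  ∃ F : W (Fin n) →L[ℝ] W J, Function.Injective F ∧ LinearMap.range F.toLinearMap = X.T y ∧
    (∀ a, F (Complex.I • a) = A.Jm y (F a)) ∧
    ∀ t, (∀ δ ∈ Λ, ∃ k : ℤ, pr δ t = k) → ∀ a, F (rho α t a) = rho X.γ t (F a)

theorem B9c_Q_step (A : ACS X) {n : ℕ} (α : Fin n → Fin r → ℤ) (Λ : AddSubgroup (Fin r → ℤ))
    {x y : W J} (hx : x ∈ X.Y Λ) (hy : y ∈ X.Y Λ) (hu : IsUnit (B9c_B A x y))
    (h : B9c_Q A α Λ x) : B9c_Q A α Λ y := by
  obtain ⟨F, hi, hr, hc, he⟩ := h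
  obtain ⟨h1, h2⟩ := B9c_frame A hx.1 hy.1 hu F hi hr
  refine ⟨(B9c_I A x y).comp F, h1, h2, fun a => ?_, fun t ht a => ?_⟩
  · show B9c_I A x y (F (Complex.I • a)) = A.Jm y (B9c_I A x y (F a))
    rw [hc, B9c_I_J A hx.1 hy.1 (hr ▸ ⟨a, rfl⟩)]
  · show B9c_I A x y (F (rho α t a)) = rho X.γ t (B9c_I A x y (F a))
    rw [he t ht, B9c_I_rho A hx.1 hy.1 t ((fixed_sub_iff Λ x).2 hx.2 t ht)
      ((fixed_sub_iff Λ y).2 hy.2 t ht)]

omit [Fintype J] in
theorem B9c_cx {K : Type} [Fintype K] (F : W K →L[ℝ] W J) (Jm : W J →L[ℝ] W J)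
    (hF : ∀ a, F (Complex.I • a) = Jm (F a)) (c : ℂ) (a : W K) :
    F (c • a) = c.re • F a + c.im • Jm (F a) := by
  have : c • a = c.re • a + c.im • (Complex.I • a) := by
    ext j
    simp only [PiLp.smul_apply, PiLp.add_apply, smul_eq_mul, Complex.real_smul]
    conv_lhs => rw [← Complex.re_add_im c]
    ring
  rw [this, map_add, map_smul, map_smul, hF]

theorem b9c (h9b : B9bSt) : B9cSt := by
  classical
  intro r n J _ X Fr Λ p q hp hq hpq
  obtain ⟨A, hA⟩ := h9b r n J X Fr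
  have hκi : ∀ z (hz : z ∈ X.Fix), Function.Injective (Fr.fr z hz).κ := fun z hz => by
    rw [injective_iff_map_eq_zero]
    intro a ha
    have := (Fr.fr z hz).norm_κ a
    rw [ha, norm_zero] at this
    exact norm_eq_zero.1 this.symm
  have hQp : B9c_Q A (Fr.fr p hp).α Λ p :=
    ⟨(Fr.fr p hp).κ, hκi p hp, (Fr.fr p hp).range_κ, fun a => (hA p hp a).symm,
      fun t _ a => (Fr.fr p hp).eqv t a⟩
  have hsub := connectedComponentIn_subset (X.Y Λ) p
  have hQq : B9c_Q A (Fr.fr p hp).α Λ q := by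
    refine isPreconnected_connectedComponentIn.induction₂'
      (fun x y => B9c_Q A (Fr.fr p hp).α Λ x → B9c_Q A (Fr.fr p hp).α Λ y) ?_
      (fun x y z _ _ _ h1 h2 h => h2 (h1 h))
      (mem_connectedComponentIn (X.Fix_sub_Y Λ hp)) hpq hQp
    intro x hx
    obtain ⟨ε, hε, h⟩ := B9c_unit A (hsub hx).1
    filter_upwards [self_mem_nhdsWithin, mem_nhdsWithin_of_mem_nhds (Metric.ball_mem_nhds x hε)]
      with y hy hyx
    have hxx : dist x x < ε := by simpa using hε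
    exact ⟨B9c_Q_step A _ Λ (hsub hx) (hsub hy) (h x (hsub hx).1 y (hsub hy).1 hxx hyx),
      B9c_Q_step A _ Λ (hsub hy) (hsub hx) (h y (hsub hy).1 x (hsub hx).1 hyx hxx)⟩
  obtain ⟨F, hi, hr, hc, he⟩ := hQq
  set κ := (Fr.fr q hq).κ with hκ
  have hb : ∀ i : Fin n, ∃ b : W (Fin n), κ b = F (PiLp.single 2 i 1) := fun i => by
    have : F (PiLp.single 2 i 1) ∈ LinearMap.range κ.toLinearMap := by
      rw [(Fr.fr q hq).range_κ, ← hr]; exact ⟨_, rfl⟩
    exact this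
  choose b hb using hb
  have hbc : ∀ i (c : ℂ), κ (c • b i) = F (c • PiLp.single 2 i 1) := fun i c => by
    rw [B9c_cx κ (A.Jm q) (fun a => (hA q hq a).symm), B9c_cx F (A.Jm q) hc, hb]
  let B : Matrix (Fin n) (Fin n) ℂ := fun j i => b i j
  have hdet : B.det ≠ 0 := by
    intro h0
    obtain ⟨v, hv, hBv⟩ := Matrix.exists_mulVec_eq_zero_iff.2 h0
    apply hv
    have h1 : (∑ i, v i • b i) = 0 := by
      ext j
      have := congrFun hBv j
      simp only [Matrix.mulVec, dotProduct, Pi.zero_apply, B] at this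
      simp only [WithLp.ofLp_sum, Finset.sum_apply, PiLp.smul_apply, smul_eq_mul, PiLp.zero_apply]
      rw [← this]
      exact Finset.sum_congr rfl fun i _ => mul_comm _ _
    have h2 : F (∑ i, v i • PiLp.single 2 i (1 : ℂ)) = 0 := by
      rw [map_sum, ← Finset.sum_congr rfl fun i _ => hbc i (v i), ← map_sum, h1, map_zero]
    have h3 := (injective_iff_map_eq_zero F).1 hi _ h2
    funext j
    have h4 := congrArg (fun w : W (Fin n) => w j) h3
    simpa [Pi.single_apply] using h4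
  rw [Matrix.det_apply] at hdet
  obtain ⟨σ, -, hσ⟩ := Finset.exists_ne_zero_of_sum_ne_zero hdet
  have hσ' : ∀ i, b i (σ i) ≠ 0 := fun i hi0 => by
    apply hσ
    rw [Finset.prod_eq_zero (Finset.mem_univ i) hi0, smul_zero]
  refine ⟨σ, fun i => ?_⟩
  by_contra hn
  obtain ⟨t, ht, hk⟩ := exists_sep Λ hn
  apply hk
  have h1 : rho (Fr.fr p hp).α t (PiLp.single 2 i (1 : ℂ)) =
      Complex.exp (2 * Real.pi * Complex.I * (pr ((Fr.fr p hp).α i) t : ℝ)) •
        PiLp.single 2 i (1 : ℂ) := by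
    ext j
    rw [rho_apply]
    by_cases hj : j = i
    · subst hj; simp
    · simp [hj]
  have h2 : rho (Fr.fr q hq).α t (b i) =
      Complex.exp (2 * Real.pi * Complex.I * (pr ((Fr.fr p hp).α i) t : ℝ)) • b i := by
    apply hκi q hq
    rw [(Fr.fr q hq).eqv, ← hκ, hbc, ← h1, he t ht, hb]
  have h3 := congrArg (fun w : W (Fin n) => w (σ i)) h2
  simp only [rho_apply, PiLp.smul_apply, smul_eq_mul] at h3
  have h4 := mul_right_cancel₀ (hσ' i) h3
  obtain ⟨k, hk⟩ := Complex.exp_eq_exp_iff_exists_int.1 h4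
  refine ⟨k, ?_⟩
  rw [pr_sub_left]
  have h5 : (2 * Real.pi * Complex.I : ℂ) ≠ 0 := Complex.two_pi_I_ne_zero
  have h6 : ((pr ((Fr.fr q hq).α (σ i)) t - pr ((Fr.fr p hp).α i) t : ℝ) : ℂ) = ((k : ℝ) : ℂ) := by
    apply mul_left_cancel₀ h5
    push_cast
    linear_combination hk
  exact_mod_cast h6

/-! ### B10p -/

/-- a smooth path with sitting ends along which complex frames extend -/
def B9c_R (A : ACS X) (n : ℕ) (x y : W J) : Prop :=
  ∃ c : ℝ → W J, ContDiff ℝ ∞ c ∧ (∀ s, c s ∈ X.M) ∧ (∀ s, s ≤ 0 → c s = x) ∧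
    (∀ s, 1 ≤ s → c s = y) ∧ ∀ F₀ : (Fin n → ℂ) →L[ℝ] W J, IsCFrame A x F₀ →
      ∃ F : ℝ → (Fin n → ℂ) →L[ℝ] W J, Continuous F ∧ (∀ s, s ≤ 0 → F s = F₀) ∧
        (∀ s, 1 ≤ s → F s = F 1) ∧ ∀ s, IsCFrame A (c s) (F s)

theorem B9c_R_trans (A : ACS X) (n : ℕ) {x y z : W J} (h1 : B9c_R A n x y) (h2 : B9c_R A n y z) :
    B9c_R A n x z := by
  obtain ⟨c1, hs1, hM1, h01, h11, hF1⟩ := h1
  obtain ⟨c2, hs2, hM2, h02, h12, hF2⟩ := h2
  have e1 : ∀ s : ℝ, s ≤ 1 / 2 → c1 (2 * s) + c2 (2 * s - 1) - y = c1 (2 * s) := fun s hs => by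
    rw [h02 (2 * s - 1) (by linarith)]; abel
  have e2 : ∀ s : ℝ, 1 / 2 ≤ s → c1 (2 * s) + c2 (2 * s - 1) - y = c2 (2 * s - 1) := fun s hs => by
    rw [h11 (2 * s) (by linarith)]; abel
  refine ⟨fun s => c1 (2 * s) + c2 (2 * s - 1) - y, ?_, fun s => ?_, fun s hs => ?_,
    fun s hs => ?_, fun F₀ hF₀ => ?_⟩
  · exact ((hs1.comp (contDiff_const.mul contDiff_id)).add
      (hs2.comp ((contDiff_const.mul contDiff_id).sub contDiff_const))).sub contDiff_const
  · beta_reduce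
    rcases le_total s (1 / 2) with hs | hs
    · rw [e1 s hs]; exact hM1 _
    · rw [e2 s hs]; exact hM2 _
  · beta_reduce
    rw [e1 s (by linarith), h01 _ (by linarith)]
  · beta_reduce
    rw [e2 s (by linarith), h12 _ (by linarith)]
  · obtain ⟨F1, hc1, g01, g11, gF1⟩ := hF1 F₀ hF₀
    obtain ⟨F2, hc2, g02, g12, gF2⟩ := hF2 (F1 1) (by have := gF1 1; rwa [h11 1 le_rfl] at this)
    have f1 : ∀ s : ℝ, s ≤ 1 / 2 → F1 (2 * s) + F2 (2 * s - 1) - F1 1 = F1 (2 * s) :=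
      fun s hs => by rw [g02 (2 * s - 1) (by linarith)]; abel
    have f2 : ∀ s : ℝ, 1 / 2 ≤ s → F1 (2 * s) + F2 (2 * s - 1) - F1 1 = F2 (2 * s - 1) :=
      fun s hs => by rw [g11 (2 * s) (by linarith)]; abel
    refine ⟨fun s => F1 (2 * s) + F2 (2 * s - 1) - F1 1, ?_, fun s hs => ?_, fun s hs => ?_,
      fun s => ?_⟩
    · exact ((hc1.comp (continuous_const.mul continuous_id)).add
        (hc2.comp ((continuous_const.mul continuous_id).sub continuous_const))).sub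
        continuous_const
    · beta_reduce
      rw [f1 s (by linarith), g01 _ (by linarith)]
    · show F1 (2 * s) + F2 (2 * s - 1) - F1 1 = F1 (2 * 1) + F2 (2 * 1 - 1) - F1 1
      rw [f2 s (by linarith), f2 1 (by norm_num), g12 (2 * s - 1) (by linarith),
        g12 (2 * 1 - 1) (by norm_num)]
    · show IsCFrame A (c1 (2 * s) + c2 (2 * s - 1) - y) (F1 (2 * s) + F2 (2 * s - 1) - F1 1)
      rcases le_total s (1 / 2) with hs | hs
      · rw [e1 s hs, f1 s hs]; exact gF1 _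
      · rw [e2 s hs, f2 s hs]; exact gF2 _

theorem B9c_cont_aux {E R : Type} [TopologicalSpace E] [TopologicalSpace R]
    (f : E → E → R) {M : Set E} (hc : ContinuousOn (fun z : E × E => f z.1 z.2) (M ×ˢ M))
    {y : E} (hy : y ∈ M) (c : ℝ → E) (hcc : Continuous c) (hM : ∀ s, c s ∈ M) :
    Continuous fun s => f y (c s) :=
  hc.comp_continuous (f := fun s => (y, c s)) (continuous_const.prodMk hcc) fun s => ⟨hy, hM s⟩

theorem B9c_R_local (A : ACS X) (n : ℕ) {x : W J} (hx : x ∈ X.M) :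
    ∃ δ > 0, ∀ y ∈ X.M, ∀ z ∈ X.M, dist y x < δ → dist z x < δ → B9c_R A n y z := by
  obtain ⟨ε, hε, hu⟩ := B9c_unit A hx
  have hc : ContinuousAt X.π x := (X.differentiableAt_π (X.sub hx)).continuousAt
  have h1 : X.π ⁻¹' Metric.ball x ε ∈ 𝓝 x := by
    apply hc; rw [X.π_id x hx]; exact Metric.ball_mem_nhds x hε
  obtain ⟨δ, hδ, hb⟩ := Metric.mem_nhds_iff.1
    (Filter.inter_mem h1 (X.isOpen.mem_nhds (X.sub hx)))
  refine ⟨δ, hδ, fun y hy z hz hyx hzx => ?_⟩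
  let l : ℝ → W J := fun s => y + Real.smoothTransition s • (z - y)
  have hl : ContDiff ℝ ∞ l :=
    contDiff_const.add (Real.smoothTransition.contDiff.smul contDiff_const)
  have hlb : ∀ s, l s ∈ Metric.ball x δ := fun s =>
    (convex_ball x δ).add_smul_sub_mem hyx hzx
      ⟨Real.smoothTransition.nonneg s, Real.smoothTransition.le_one s⟩
  have hcs : ContDiff ℝ ∞ (fun s => X.π (l s)) :=
    X.π_smooth.comp_contDiff hl fun s => (hb (hlb s)).2
  have hM : ∀ s, X.π (l s) ∈ X.M := fun s => X.π_maps (hb (hlb s)).2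
  have h0 : ∀ s, s ≤ 0 → X.π (l s) = y := fun s hs => by
    simp only [l, Real.smoothTransition.zero_of_nonpos hs, zero_smul, add_zero]
    exact X.π_id y hy
  have h1 : ∀ s, 1 ≤ s → X.π (l s) = z := fun s hs => by
    simp only [l, Real.smoothTransition.one_of_one_le hs, one_smul, add_sub_cancel]
    exact X.π_id z hz
  have hyε : dist y x < ε := by
    have := (hb (hlb 0)).1
    rwa [mem_preimage, h0 0 le_rfl] at this
  refine ⟨fun s => X.π (l s), hcs, hM, h0, h1, fun F₀ hF₀ => ?_⟩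
  refine ⟨fun s => (B9c_I A y (X.π (l s))).comp F₀, ?_, fun s hs => ?_, fun s hs => ?_,
    fun s => ?_⟩
  · have : Continuous fun s => B9c_I A y (X.π (l s)) :=
      B9c_cont_aux (B9c_I A) (B9c_I_contOn A) hy (fun s => X.π (l s)) hcs.continuous hM
    exact this.clm_comp continuous_const
  · ext1 a
    show B9c_I A y (X.π (l s)) (F₀ a) = F₀ a
    rw [h0 s hs, B9c_I_self A hy, (X.mem_T_iff hy _).1 (hF₀.range ▸ ⟨a, rfl⟩)]
  · show (B9c_I A y (X.π (l s))).comp F₀ = (B9c_I A y (X.π (l 1))).comp F₀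
    rw [h1 s hs, h1 1 le_rfl]
  · exact B9c_cframe A hy (hM s) (hu y hy _ (hM s) hyε (hb (hlb s)).1) hF₀

theorem b10p : B10pSt := by
  intro r n J _ X A hconn p hp q hq F₀ hF₀
  have h : B9c_R A n p q := by
    refine hconn.induction₂' (B9c_R A n) ?_ (fun x y z _ _ _ h1 h2 => B9c_R_trans A n h1 h2) hp hq
    intro x hx
    obtain ⟨δ, hδ, h⟩ := B9c_R_local A n hx
    filter_upwards [self_mem_nhdsWithin, mem_nhdsWithin_of_mem_nhds (Metric.ball_mem_nhds x hδ)]
      with y hy hyx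
    have hxx : dist x x < δ := by simpa using hδ
    exact ⟨h x hx y hy hxx hyx, h y hy x hx hyx hxx⟩
  obtain ⟨c, hs, hM, h0, h1, hF⟩ := h
  obtain ⟨F, hc, -, -, hfr⟩ := hF F₀ hF₀
  exact ⟨c, F, hs, hM, h0, h1, hc.continuousOn, fun s _ => hfr s⟩

end

end GK4850
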