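import Pool.Agent.Lib.MP_4850ea_gt.GK.StB
import Pool.Agent.Lib.MP_4850ea_gt.GK.B0

/-! B9e: the edges of the graph. -/

open scoped ContDiff Topology
open Set AddSubgroup

namespace GK4850

namespace B9e

variable {r n : ℕ} {J : Type} [Fintype J] {X : Emb r J} {Fr : Frames X n}
  {Λ : AddSubgroup (Fin r → ℤ)} {ξ : Fin r → ℝ}

omit [Fintype J] in
theorem symm {Y : Set (W J)} {x y : W J} (h : y ∈ connectedComponentIn Y x) :
    x ∈ connectedComponentIn Y y :=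
  connectedComponentIn_eq h ▸ mem_connectedComponentIn (connectedComponentIn_nonempty_iff.1 ⟨y, h⟩)

omit [Fintype J] in
theorem compact {Y : Set (W J)} (hY : IsCompact Y) {x : W J} (h : x ∈ Y) :
    IsCompact (connectedComponentIn Y x) := by
  have : CompactSpace Y := isCompact_iff_compactSpace.1 hY
  rw [connectedComponentIn_eq_image h]
  exact isClosed_connectedComponent.isCompact.image continuous_subtype_val

/-- At most one fixed point of a component has no positive weight. -/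
theorem uniq (hT : Fr.ThomPoly) (hξ : Fr.Generic ξ) {x y : W J} (hx : x ∈ X.Fix) (hy : y ∈ X.Fix)
    (h : y ∈ connectedComponentIn (X.Y Λ) x)
    (a : ∀ i, (Fr.fr x hx).α i ∈ Λ → ¬ 0 < pr ((Fr.fr x hx).α i) ξ)
    (b : ∀ i, (Fr.fr y hy).α i ∈ Λ → ¬ 0 < pr ((Fr.fr y hy).α i) ξ) : x = y := by
  classical
  obtain ⟨o, inj, -, H⟩ := hT Λ ξ hξ
  have k : ∀ {x y : W J} (hx : x ∈ X.Fix), y ∈ X.Fix → y ∈ connectedComponentIn (X.Y Λ) x →
      (∀ i, (Fr.fr x hx).α i ∈ Λ → ¬ 0 < pr ((Fr.fr x hx).α i) ξ) → ¬ o x < o y :=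
    fun {x y} hx hy h a l => by
      obtain ⟨τ, -, c, d, e⟩ := H x hx
      have := c x hx y hy h
      rw [d, e y hy l, Finset.filter_eq_empty_iff.2 fun i _ z => a i z.2 z.1] at this
      simp at this
  exact inj hx hy (le_antisymm (not_lt.1 (k hy hx (symm h) b)) (not_lt.1 (k hx hy h a)))

/-- A maximum on a component is a fixed point without positive weight. -/
theorem top (h9r : B9rSt) (h4b : B4bSt) (h4c : B4cSt) (hξ : Fr.Generic ξ) {q : W J}
    (hq : q ∈ X.Y Λ) (hm : ∀ z ∈ connectedComponentIn (X.Y Λ) q, X.mx ξ z ≤ X.mx ξ q) :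
    ∃ hq : q ∈ X.Fix, ∀ i, (Fr.fr q hq).α i ∈ Λ → ¬ 0 < pr ((Fr.fr q hq).α i) ξ := by
  classical
  obtain ⟨X', hγ, hM, hF, hx, hfr⟩ := h9r r n J X Fr Λ
  have e : ∀ x ∈ X.Y Λ, X'.mx ξ x = X.mx ξ x := fun x m =>
    Finset.sum_congr rfl fun a _ => by rw [hx a x m]
  have hq' : q ∈ X'.M := hM ▸ hq
  obtain ⟨ρ, ρ0, hρ⟩ := Metric.isOpen_iff.1 X'.isOpen q (X'.sub hq')
  have s : X'.π '' Metric.ball q ρ ⊆ connectedComponentIn (X.Y Λ) q :=
    ((convex_ball q ρ).isPreconnected.image _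
      (X'.π_smooth.continuousOn.mono hρ)).subset_connectedComponentIn
      ⟨q, Metric.mem_ball_self ρ0, X'.π_id q hq'⟩ (by
        rintro _ ⟨y, hy, rfl⟩
        exact hM ▸ X'.π_maps (hρ hy))
  have loc : IsLocalMax (X'.mx ξ) q := by
    filter_upwards [Metric.ball_mem_nhds q ρ0] with y hy
    have m := s ⟨y, hy, rfl⟩
    rw [← (X'.isFn_mx ξ).fπ y (hρ hy), e _ (connectedComponentIn_subset _ _ m), e q hq]
    exact hm _ m
  have f' : q ∈ X'.Fix := (X'.crit_iff (by rw [hγ]; exact hξ.1) hq').1 loc.fderiv_eq_zero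
  have f : q ∈ X.Fix := hF ▸ f'
  refine ⟨f, fun i hi pos => ?_⟩
  obtain ⟨fr, hα⟩ := hfr q f {i // (Fr.fr q f).α i ∈ Λ} Subtype.val Subtype.val_injective
    fun i => by simp
  obtain ⟨ch, -⟩ := h4b r J X' q f' _ fr
  set k : {i // (Fr.fr q f).α i ∈ Λ} := ⟨i, hi⟩
  have c0 : 0 < Real.pi * fr.c k * pr (fr.α k) ξ :=
    mul_pos (mul_pos Real.pi_pos (fr.c_pos k)) (by rw [hα]; exact pos)
  have c1 : ContinuousAt ch.φ 0 :=
    ch.φ_smooth.continuousOn.continuousAt (Metric.ball_mem_nhds 0 ch.R_pos)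
  have c2 : ∀ᶠ v in 𝓝 0, X'.mx ξ (ch.φ v) ≤ X'.mx ξ q := 
    (c1.tendsto.mono_right (congrArg 𝓝 ch.φ_zero).le).eventually loc
  have c3 : Filter.Tendsto (fun s : ℂ => (PiLp.single 2 k s : W _)) (𝓝[≠] 0) (𝓝 0) := by
    refine tendsto_nhdsWithin_of_tendsto_nhds (tendsto_zero_iff_norm_tendsto_zero.2 ?_)
    simpa using tendsto_norm_zero
  obtain ⟨s, ⟨⟨a, -⟩, b⟩, s0⟩ := ((c3.eventually ((h4c r J X' q f' _ fr ch ξ _
    (half_pos c0)).and c2)).and self_mem_nhdsWithin).exists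
  rw [Finset.sum_eq_single k (fun j _ hj => by simp [hj]) (by simp)] at a
  simp only [PiLp.single_eq_same, PiLp.norm_single] at a
  have := mul_pos c0 (pow_pos (norm_pos_iff.2 s0) 2)
  linarith [(abs_le.1 a).1]

variable (Fr) in
/-- The weight of a dart. -/
abbrev al (e : X.Fix × Fin n) : Fin r → ℤ := (Fr.fr _ e.1.2).α e.2

variable (Fr) in
/-- The dart `e'` lies at the other end of `e`. -/
def Op (e e' : X.Fix × Fin n) : Prop :=
  (e'.1 : W J) ∈ connectedComponentIn (X.Y (zmultiples (al Fr e))) e.1 ∧ e'.1 ≠ e.1 ∧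
    al Fr e' ∈ zmultiples (al Fr e)

theorem one (h9c : B9cSt) (e : X.Fix × Fin n) (q : X.Fix)
    (h : (q : W J) ∈ connectedComponentIn (X.Y (zmultiples (al Fr e))) e.1) :
    ∃! j, al Fr (q, j) ∈ zmultiples (al Fr e) := by
  obtain ⟨σ, hσ⟩ := h9c r n J X Fr _ _ _ e.1.2 q.2 h
  refine ⟨σ e.2, by simpa using add_mem (hσ e.2) (mem_zmultiples _), fun j hj => ?_⟩
  obtain ⟨i, rfl⟩ := σ.surjective j
  obtain ⟨k, hk⟩ := mem_zmultiples_iff.1 (sub_mem hj (hσ i))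
  by_contra z
  exact one_ne_zero (Fr.indep _ e.1.2 i e.2 (fun u => z (by rw [u])) 1 (-k) (by
    rw [neg_smul, hk, one_smul, sub_sub_cancel, add_neg_cancel])).1

theorem gen (hf : X.Fix.Finite) (e : X.Fix × Fin n) :
    ∃ ξ, Fr.Generic ξ ∧ 0 < pr (al Fr e) ξ := by
  classical
  have := hf.fintype
  obtain ⟨ξ, a, b⟩ := exists_generic (Finset.univ.image X.γ ∪ Finset.univ.image (al Fr))
    fun a => al Fr e a
  refine ⟨ξ, ⟨fun j => a _ (by simp), fun p hp i => a (al Fr (⟨p, hp⟩, i)) (by simp)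
    ((Fr.fr p hp).ne_zero i)⟩, b _ (by simp) ?_⟩
  obtain ⟨c, hc⟩ := Function.ne_iff.1 ((Fr.fr _ e.1.2).ne_zero e.2)
  exact Finset.sum_pos' (fun _ _ => mul_self_nonneg _)
    ⟨c, Finset.mem_univ _, mul_self_pos.2 (Int.cast_ne_zero.2 hc)⟩

/-- The weight at the other end is negative. -/
theorem Op.neg (h9c : B9cSt) (hT : Fr.ThomPoly) (hξ : Fr.Generic ξ) {e e' : X.Fix × Fin n}
    (p : 0 < pr (al Fr e) ξ) (h : Op Fr e e') (j : Fin n)
    (hj : al Fr (e'.1, j) ∈ zmultiples (al Fr e)) : ¬ 0 < pr (al Fr (e'.1, j)) ξ := fun z => by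
  refine h.2.1 (Subtype.ext (uniq hT (ξ := -ξ) ⟨fun j u => ?_, fun p hp i => ?_⟩ e.1.2 e'.1.2 h.1
    (fun i hi => ?_) fun i hi => ?_).symm)
  · rw [pr_neg_right]; exact neg_ne_zero.2 (hξ.1 j u)
  · rw [pr_neg_right]; exact neg_ne_zero.2 (hξ.2 p hp i)
  · rw [(one h9c e e.1 (mem_connectedComponentIn (X.Fix_sub_Y _ e.1.2))).unique (y₁ := i) hi
      (mem_zmultiples _), pr_neg_right]
    exact not_lt.2 (neg_nonpos.2 p.le)
  · rw [(one h9c e e'.1 h.1).unique (y₁ := i) hi hj, pr_neg_right]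
    exact not_lt.2 (neg_nonpos.2 z.le)

theorem Op.uniq (h9c : B9cSt) (hT : Fr.ThomPoly) (hf : X.Fix.Finite) {e a b : X.Fix × Fin n}
    (h : Op Fr e a) (h' : Op Fr e b) : a = b := by
  obtain ⟨ξ, hξ, p⟩ := gen (Fr := Fr) hf e
  obtain ⟨q, i⟩ := a
  obtain ⟨q', j⟩ := b
  obtain rfl : q = q' := Subtype.ext (B9e.uniq hT hξ q.2 q'.2
    (connectedComponentIn_eq h.1 ▸ h'.1) (h.neg h9c hT hξ p) (h'.neg h9c hT hξ p))
  rw [(one h9c e q h.1).unique h.2.2 h'.2.2]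

theorem mx_lin (ξ η : Fin r → ℝ) (c : ℝ) (x : W J) :
    X.mx (η + c • ξ) x = X.mx η x + c * X.mx ξ x := by
  simp [Emb.mx, add_mul, Finset.sum_add_distrib, Finset.mul_sum, mul_assoc]

theorem ex (h9c : B9cSt) (h9r : B9rSt) (h4b : B4bSt) (h4c : B4cSt) (hf : X.Fix.Finite)
    (e : X.Fix × Fin n) : ∃ e', Op Fr e e' ∧ ∃ c : ℝ, 0 < c ∧ ∀ η,
      X.mx η e'.1 - X.mx η e.1 = c * pr (al Fr e) η := by
  obtain ⟨ξ, hξ, p⟩ := gen (Fr := Fr) hf e
  have m := X.Fix_sub_Y (zmultiples (al Fr e)) e.1.2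
  have s := connectedComponentIn_subset (X.Y (zmultiples (al Fr e))) e.1
  obtain ⟨q, hq, hm⟩ := (compact (X.isCompact_Y _) m).exists_isMaxOn
    ⟨_, mem_connectedComponentIn m⟩
    ((X.isFn_mx ξ).smooth.continuousOn.mono fun x hx => X.sub (s hx).1)
  obtain ⟨f, -⟩ := top h9r h4b h4c hξ (s hq) (connectedComponentIn_eq hq ▸ hm)
  have l : X.mx ξ e.1 < X.mx ξ q := lt_of_not_ge fun l =>
    (top h9r h4b h4c hξ m fun z hz => (hm hz).trans l).2 e.2 (mem_zmultiples _) p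
  obtain ⟨j, hj, -⟩ := one h9c e ⟨q, f⟩ hq
  refine ⟨(⟨q, f⟩, j), ⟨hq, fun z => l.ne (congrArg (X.mx ξ ·.1) z).symm, hj⟩, _,
    div_pos (sub_pos.2 l) p, fun η => ?_⟩
  have z : pr (al Fr e) (η + (-(pr (al Fr e) η / pr (al Fr e) ξ)) • ξ) = 0 := by
    rw [pr_add_right, pr_smul_right, neg_mul, div_mul_cancel₀ _ p.ne', add_neg_cancel]
  have := X.const_on_component _ (fun x hx => ((X.isFn_mx (η + (-(pr (al Fr e) η /
    pr (al Fr e) ξ)) • ξ)).smooth.contDiffAt (X.isOpen.mem_nhds (X.sub hx.1))).differentiableAt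
      (by simp)) (fun x hx v _ _ => ?_) hq
  · rw [mx_lin, mx_lin] at this
    field_simp
    field_simp at this
    linear_combination this
  · rw [X.fderiv_mx _ hx.1, show GK4850.gen X.γ _ x = 0 from ?_, map_zero]
    ext j
    by_cases u : X.γ j ∈ zmultiples (al Fr e)
    · obtain ⟨k, hk⟩ := mem_zmultiples_iff.1 u
      rw [gen_apply, ← hk, pr_zsmul_left, z]
      simp
    · simp [gen_apply, hx.2 j u]

end B9e

open B9e in
theorem b9e (h9a : B9aSt) (h9c : B9cSt) (h9r : B9rSt) (h4b : B4bSt) (h4c : B4cSt) : B9eSt := by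
  intro r n J _ X Fr hf
  have hT := h9a r n J X Fr hf
  choose rev h1 h2 using ex (Fr := Fr) h9c h9r h4b h4c hf
  have k : ∀ e, rev (rev e) = e ∧ al Fr (rev e) = -al Fr e := fun e => by
    have a := h1 e
    have b := h1 (rev e)
    have le := zmultiples_le_of_mem a.2.2
    have c := connectedComponentIn_mono _ (X.Y_mono le) b.1
    rw [← connectedComponentIn_eq a.1] at c
    have d : (rev (rev e)).1 = e.1 := by_contra fun z =>
      b.2.1 (congrArg Prod.fst (Op.uniq h9c hT hf ⟨c, z, le b.2.2⟩ a))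
    have g : rev (rev e) = e := Prod.ext d ((one h9c e _ c).unique (le b.2.2) (by
      rw [d]; exact mem_zmultiples _))
    refine ⟨g, ?_⟩
    obtain ⟨ξ, hξ, p⟩ := B9e.gen (Fr := Fr) hf e
    obtain ⟨u, hu⟩ := mem_zmultiples_iff.1 a.2.2
    obtain ⟨v, hv⟩ := mem_zmultiples_iff.1 b.2.2
    have n1 := a.neg h9c hT hξ p _ a.2.2
    rw [g, ← hu] at hv
    have t := congrArg (pr · ξ) hv
    simp only [pr_zsmul_left] at t
    have uv : v * u = 1 := by
      exact_mod_cast mul_right_cancel₀ p.ne' (by linear_combination t : ((v : ℝ) * u) * _ = 1 * _)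
    rcases Int.eq_one_or_neg_one_of_mul_eq_one' uv with ⟨-, rfl⟩ | ⟨-, rfl⟩
    · exact absurd (by rw [← hu, one_smul]; exact p) n1
    · rw [← hu, neg_one_smul]
  exact ⟨⟨rev, fun e => (k e).1, fun e => (k e).2, fun e => (h1 e).1, h2⟩⟩

end GK4850
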