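import Pool.Agent.Lib.MP_4850ea_gt.GK.StB
import Pool.Agent.Lib.MP_4850ea_gt.GK.B0

/-! B9r: restriction of an embedded Hamiltonian space to the coordinates with weights in `Λ`. -/

open scoped ContDiff Topology RealInnerProductSpace
open Set

namespace GK4850

namespace B9r

noncomputable section

variable {r : ℕ} {J : Type} [Fintype J]

open Classical in
/-- the projection onto the coordinates with weight in `Λ` -/
def Q (γ : J → Fin r → ℤ) (Λ : AddSubgroup (Fin r → ℤ)) : W J →L[ℝ] W J :=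
  diag fun j => if γ j ∈ Λ then 1 else 0

/-- the annihilator of `Λ` -/
def Ann (Λ : AddSubgroup (Fin r → ℤ)) (t : Fin r → ℝ) : Prop := ∀ δ ∈ Λ, ∃ k : ℤ, pr δ t = k

variable {γ : J → Fin r → ℤ} {Λ : AddSubgroup (Fin r → ℤ)}

theorem Q_in (x : W J) {j : J} (h : γ j ∈ Λ) : Q γ Λ x j = x j := by
  rw [Q, diag_apply, if_pos h, one_mul]

theorem Q_out (x : W J) {j : J} (h : γ j ∉ Λ) : Q γ Λ x j = 0 := by
  rw [Q, diag_apply, if_neg h, zero_mul]

theorem Q_eq {x : W J} (h : ∀ j, γ j ∉ Λ → x j = 0) : Q γ Λ x = x := by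
  ext j
  by_cases hj : γ j ∈ Λ
  · exact Q_in x hj
  · rw [Q_out x hj, h j hj]

theorem Q_rho (t : Fin r → ℝ) (x : W J) : Q γ Λ (rho γ t x) = rho γ t (Q γ Λ x) := by
  ext j
  by_cases hj : γ j ∈ Λ
  · rw [Q_in _ hj, rho_apply, rho_apply, Q_in _ hj]
  · rw [Q_out _ hj, rho_apply, Q_out _ hj, mul_zero]

theorem Q_symm (u v : W J) : ⟪Q γ Λ u, v⟫ = ⟪u, Q γ Λ v⟫ := by
  rw [inner_W, inner_W]
  refine Finset.sum_congr rfl fun j _ => ?_
  by_cases hj : γ j ∈ Λ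
  · rw [Q_in _ hj, Q_in _ hj]
  · rw [Q_out _ hj, Q_out _ hj, map_zero, zero_mul, mul_zero]

theorem rho_fix {x : W J} (h : ∀ j, γ j ∉ Λ → x j = 0) {t : Fin r → ℝ} (ht : Ann Λ t) :
    rho γ t x = x := (fixed_sub_iff Λ x).2 h t ht

theorem rho_Q (x : W J) {t : Fin r → ℝ} (ht : Ann Λ t) : rho γ t (Q γ Λ x) = Q γ Λ x :=
  rho_fix (fun _ hj => Q_out x hj) ht

theorem Ann.neg {t : Fin r → ℝ} (ht : Ann Λ t) : Ann Λ (-t) := fun δ hδ => by
  obtain ⟨k, hk⟩ := ht δ hδ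
  exact ⟨-k, by rw [pr_neg_right, hk, Int.cast_neg]⟩

theorem rho_PQ (X : Ret r J) {x : W J} (hx : x ∈ X.Y Λ) (u : W J) {t : Fin r → ℝ}
    (ht : Ann Λ t) : rho X.γ t (X.P x (Q X.γ Λ u)) = X.P x (Q X.γ Λ u) := by
  rw [← X.P_rho (X.sub hx.1), rho_fix hx.2 ht, rho_Q u ht]

theorem QPQ (X : Ret r J) {x : W J} (hx : x ∈ X.Y Λ) (u : W J) :
    Q X.γ Λ (X.P x (Q X.γ Λ u)) = X.P x (Q X.γ Λ u) :=
  Q_eq ((fixed_sub_iff Λ _).1 fun _ ht => rho_PQ X hx u ht)

theorem PQ_symm (X : Ret r J) {x : W J} (hx : x ∈ X.Y Λ) (u v : W J) :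
    ⟪X.P x (Q X.γ Λ u), v⟫ = ⟪u, X.P x (Q X.γ Λ v)⟫ := by
  have h : ∀ a b, ⟪X.P x a, b⟫ = ⟪a, X.P x b⟫ := X.P_symm x hx.1
  rw [← QPQ X hx u, Q_symm, h, Q_symm, QPQ X hx v]

theorem fderiv_Q {G : Type} [NormedAddCommGroup G] [NormedSpace ℝ G] {g : W J → G} {x : W J}
    (hx : ∀ j, γ j ∉ Λ → x j = 0) (hg : DifferentiableAt ℝ g x) (v : W J) :
    fderiv ℝ (g ∘ Q γ Λ) x v = fderiv ℝ g x (Q γ Λ v) := by
  have h : HasFDerivAt g (fderiv ℝ g x) (Q γ Λ x) := by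
    rw [Q_eq hx]
    exact hg.hasFDerivAt
  rw [(h.comp x (Q γ Λ).hasFDerivAt).fderiv]
  rfl

theorem fderiv_πQ (X : Ret r J) {x : W J} (hx : x ∈ X.Y Λ) (v : W J) :
    fderiv ℝ (X.π ∘ Q X.γ Λ) x v = X.P x (Q X.γ Λ v) :=
  fderiv_Q hx.2 (X.differentiableAt_π (X.sub hx.1)) v

theorem om_Q (X : Emb r J) {x : W J} (hx : x ∈ X.Y Λ) (u v : W J) :
    X.om x (Q X.γ Λ u) (Q X.γ Λ v) = X.om x (Q X.γ Λ u) v := by
  obtain ⟨z, hz⟩ := (InnerProductSpace.toDual ℝ (W J)).surjective (X.om x (Q X.γ Λ u))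
  have h1 : ∀ w, ⟪z, w⟫ = X.om x (Q X.γ Λ u) w := fun w => by rw [← hz]; rfl
  have h2 : ∀ t, Ann Λ t → ∀ w, ⟪z, rho X.γ t w⟫ = ⟪z, w⟫ := fun t ht w => by
    have := X.om_inv t x hx.1 (Q X.γ Λ u) w
    rw [rho_fix hx.2 ht, rho_Q u ht] at this
    rw [h1, h1, this]
  have h3 : Q X.γ Λ z = z := Q_eq ((fixed_sub_iff Λ z).1 fun t ht =>
    ext_inner_right ℝ fun w => by
      rw [← h2 (-t) (Ann.neg ht) w, ← inner_rho (γ := X.γ) t z, rho_rho_neg])
  rw [← h1, ← h1, ← Q_symm, h3]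

/-- the restricted retraction -/
def ret (X : Ret r J) (Λ : AddSubgroup (Fin r → ℤ)) : Ret r J where
  γ := X.γ
  M := X.Y Λ
  U := Q X.γ Λ ⁻¹' X.U
  π := X.π ∘ Q X.γ Λ
  compact := X.isCompact_Y Λ
  isOpen := X.isOpen.preimage (Q X.γ Λ).continuous
  sub x hx := by
    rw [mem_preimage, Q_eq hx.2]
    exact X.sub hx.1
  inv_M t x hx := ⟨X.inv_M t hx.1, fun j hj => by rw [rho_apply, hx.2 j hj, mul_zero]⟩
  inv_U t x hx := by
    rw [mem_preimage, Q_rho]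
    exact X.inv_U t hx
  π_smooth := X.π_smooth.comp (Q X.γ Λ).contDiff.contDiffOn fun _ hx => hx
  π_maps x hx := X.π_mem_Y Λ hx fun _ hj => Q_out x hj
  π_id x hx := by rw [Function.comp_apply, Q_eq hx.2, X.π_id x hx.1]
  π_eqv t x hx := by rw [Function.comp_apply, Function.comp_apply, Q_rho, X.π_eqv t _ hx]
  P_symm x hx u v := by rw [fderiv_πQ X hx, fderiv_πQ X hx, PQ_symm X hx]

/-- the restricted Hamiltonian space -/
def emb (X : Emb r J) (Λ : AddSubgroup (Fin r → ℤ)) : Emb r J where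
  toRet := ret X.toRet Λ
  om x := (X.om x).comp (Q X.γ Λ)
  om_cont := (X.om_cont.mono fun _ hx => hx.1).clm_comp continuousOn_const
  om_alt x hx v := (om_Q X hx v v).symm.trans (X.om_alt x hx.1 _)
  om_P x hx u v := by
    show X.om x (Q X.γ Λ (fderiv ℝ (X.π ∘ Q X.γ Λ) x u)) v = X.om x (Q X.γ Λ u) v
    rw [fderiv_πQ X.toRet hx, QPQ X.toRet hx]
    exact X.om_P x hx.1 _ v
  om_nondeg x hx u h := (fderiv_πQ X.toRet hx u).trans (X.om_nondeg x hx.1 _ h)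
  om_inv t x hx u v := by
    show X.om (rho X.γ t x) (Q X.γ Λ (rho X.γ t u)) (rho X.γ t v) = X.om x (Q X.γ Λ u) v
    rw [Q_rho, X.om_inv t x hx.1]
  m a := X.m a ∘ Q X.γ Λ
  m_smooth a := (X.m_smooth a).comp (Q X.γ Λ).contDiff.contDiffOn fun _ hx => hx
  m_π a x hx := by
    show X.m a (Q X.γ Λ (X.π (Q X.γ Λ x))) = X.m a (Q X.γ Λ x)
    rw [Q_eq (X.π_mem_Y Λ hx fun _ hj => Q_out x hj).2, X.m_π a _ hx]
  m_inv a t x hx := by
    show X.m a (Q X.γ Λ (rho X.γ t x)) = X.m a (Q X.γ Λ x)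
    rw [Q_rho, X.m_inv a t _ hx]
  m_deriv a x hx v :=
    (fderiv_Q hx.2 (((X.m_smooth a).contDiffAt
      (X.isOpen.mem_nhds (X.sub hx.1))).differentiableAt (by simp)) v).trans (X.m_deriv a x hx.1 _)

variable {K K' : Type} [Fintype K] [Fintype K']

open Classical in
/-- extension by zero -/
def ex (e : K → K') : W K →L[ℝ] W K' :=
  LinearMap.toContinuousLinearMap
    { toFun := fun v => WithLp.toLp 2 fun i => ∑ k, if e k = i then v k else 0
      map_add' := fun x y => by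
        ext i
        simp only [PiLp.add_apply, ← Finset.sum_add_distrib]
        refine Finset.sum_congr rfl fun k _ => ?_
        split_ifs <;> simp
      map_smul' := fun s x => by
        ext i
        simp only [PiLp.smul_apply, RingHom.id_apply, Finset.smul_sum]
        refine Finset.sum_congr rfl fun k _ => ?_
        split_ifs <;> simp }

open Classical in
theorem ex_apply (e : K → K') (v : W K) (i : K') :
    ex e v i = ∑ k, if e k = i then v k else 0 := rfl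

theorem ex_in {e : K → K'} (he : Function.Injective e) (v : W K) (k : K) : ex e v (e k) = v k := by
  rw [ex_apply, Finset.sum_eq_single k, if_pos rfl]
  · exact fun l _ hl => if_neg fun h => hl (he h)
  · exact fun h => absurd (Finset.mem_univ k) h

theorem ex_out {e : K → K'} (v : W K) {i : K'} (hi : i ∉ range e) : ex e v i = 0 := by
  rw [ex_apply]
  exact Finset.sum_eq_zero fun k _ => if_neg fun h => hi ⟨k, h⟩

theorem ex_norm {e : K → K'} (he : Function.Injective e) (v : W K) : ‖ex e v‖ = ‖v‖ := by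
  refine (sq_eq_sq₀ (norm_nonneg _) (norm_nonneg _)).1 ?_
  rw [norm_sq_W, norm_sq_W]
  exact (Fintype.sum_of_injective e he _ _ (fun i hi => by rw [ex_out v hi]; simp)
    fun k => by rw [ex_in he]).symm

theorem ex_rho {e : K → K'} (he : Function.Injective e) (α : K' → Fin r → ℤ) (t : Fin r → ℝ)
    (v : W K) : ex e (rho (fun k => α (e k)) t v) = rho α t (ex e v) := by
  ext i
  by_cases hi : i ∈ range e
  · obtain ⟨k, rfl⟩ := hi
    rw [ex_in he, rho_apply, rho_apply, ex_in he]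
  · rw [ex_out _ hi, rho_apply, ex_out _ hi, mul_zero]

theorem Q_κ {X : Emb r J} {p : W J} (fr : WFrame X p K') {e : K → K'}
    (h : ∀ i, fr.α i ∈ Λ ↔ i ∈ range e) (v : W K) :
    Q X.γ Λ (fr.κ (ex e v)) = fr.κ (ex e v) :=
  Q_eq ((fixed_sub_iff Λ _).1 fun t ht => by
    rw [← fr.eqv, rho_fix (fun i hi => ex_out v fun h' => hi ((h i).2 h')) ht])

/-- the restricted frame -/
def frame {X : Emb r J} {p : W J} (hp : p ∈ X.Y Λ) (fr : WFrame X p K') {e : K → K'}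
    (he : Function.Injective e) (h : ∀ i, fr.α i ∈ Λ ↔ i ∈ range e) : WFrame (emb X Λ) p K where
  α k := fr.α (e k)
  κ := fr.κ.comp (ex e)
  c k := fr.c (e k)
  norm_κ v := (fr.norm_κ _).trans (ex_norm he v)
  range_κ := by
    ext w
    constructor
    · rintro ⟨v, rfl⟩
      refine ⟨fr.κ (ex e v), (fderiv_πQ X.toRet hp _).trans ?_⟩
      rw [Q_κ fr h]
      exact (X.mem_T_iff hp.1 _).1 (fr.range_κ ▸ ⟨_, rfl⟩)
    · rintro ⟨u, rfl⟩
      have hu : X.P p (Q X.γ Λ u) ∈ LinearMap.range fr.κ.toLinearMap :=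
        fr.range_κ ▸ X.P_mem p _
      obtain ⟨z, hz⟩ := hu
      have hz' : fr.κ z = X.P p (Q X.γ Λ u) := hz
      have h0 : ∀ i, fr.α i ∉ Λ → z i = 0 := (fixed_sub_iff Λ z).1 fun t ht => by
        rw [← sub_eq_zero, ← norm_eq_zero, ← fr.norm_κ, map_sub, fr.eqv, hz',
          rho_PQ X.toRet hp u ht, sub_self, norm_zero]
      have h1 : ex e (WithLp.toLp 2 fun k => z (e k)) = z := by
        ext i
        by_cases hi : i ∈ range e
        · obtain ⟨k, rfl⟩ := hi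
          rw [ex_in he]
        · rw [ex_out _ hi, h0 i fun h' => hi ((h i).1 h')]
      refine ⟨WithLp.toLp 2 fun k => z (e k), ?_⟩
      refine Eq.trans ?_ (fderiv_πQ X.toRet hp u).symm
      rw [← hz']
      exact congrArg fr.κ h1
  eqv t v := by
    show fr.κ (ex e (rho (fun k => fr.α (e k)) t v)) = rho X.γ t (fr.κ (ex e v))
    rw [ex_rho he, fr.eqv]
  c_pos k := fr.c_pos _
  om_κ u v := by
    show X.om p (Q X.γ Λ (fr.κ (ex e u))) (fr.κ (ex e v)) = _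
    rw [Q_κ fr h, fr.om_κ]
    exact (Fintype.sum_of_injective e he _ _ (fun i hi => by rw [ex_out v hi]; simp)
      fun k => by rw [ex_in he, ex_in he]).symm
  ne_zero k := fr.ne_zero _

end

end B9r

theorem b9r : B9rSt := by
  intro r n J _ X Fr Λ
  refine ⟨B9r.emb X Λ, rfl, rfl, ?_, fun a x hx => ?_, fun p hp K _ e he h => ?_⟩
  · ext x
    exact ⟨fun hx => ⟨hx.1.1, hx.2⟩, fun hx => ⟨X.Fix_sub_Y Λ hx, hx.2⟩⟩
  · exact congrArg (X.m a) (B9r.Q_eq hx.2)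
  · exact ⟨B9r.frame (X.Fix_sub_Y Λ hp) (Fr.fr p hp) he h, fun _ => rfl⟩

end GK4850
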