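import Pool.Agent.Lib.MP_4850ea_gt.GK.ADefs

/-! Geometric side of MP_4850ea_gt: embedded Hamiltonian spaces and Cartan forms. -/

open scoped ContDiff Topology RealInnerProductSpace
open Set

namespace GK4850

noncomputable section

/-- `ℓ²(J, ℂ)` as a real inner product space -/
abbrev W (J : Type) : Type := PiLp 2 (fun _ : J => ℂ)

/-- pairing of a weight with an element of the Lie algebra -/
def pr {r : ℕ} (β : Fin r → ℤ) (t : Fin r → ℝ) : ℝ := ∑ a, (β a : ℝ) * t a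

/-- diagonal operator -/
def diag {J : Type} [Fintype J] (c : J → ℂ) : W J →L[ℝ] W J :=
  LinearMap.toContinuousLinearMap
    { toFun := fun x => WithLp.toLp 2 (fun j => c j * x j)
      map_add' := fun x y => by ext j; simp [mul_add]
      map_smul' := fun s x => by ext j; simp [mul_left_comm] }

/-- the torus action with weights `γ` -/
def rho {r : ℕ} {J : Type} [Fintype J] (γ : J → Fin r → ℤ) (t : Fin r → ℝ) : W J →L[ℝ] W J :=
  diag fun j => Complex.exp (2 * Real.pi * Complex.I * (pr (γ j) t : ℝ))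

/-- the infinitesimal action -/
def gen {r : ℕ} {J : Type} [Fintype J] (γ : J → Fin r → ℤ) (ξ : Fin r → ℝ) : W J →L[ℝ] W J :=
  diag fun j => 2 * Real.pi * Complex.I * (pr (γ j) ξ : ℝ)

/-- compact invariant subset of a representation with a smooth equivariant retraction -/
structure Ret (r : ℕ) (J : Type) [Fintype J] where
  γ : J → Fin r → ℤ
  M : Set (W J)
  U : Set (W J)
  π : W J → W J
  compact : IsCompact M
  isOpen : IsOpen U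
  sub : M ⊆ U
  inv_M : ∀ t, MapsTo (rho γ t) M M
  inv_U : ∀ t, MapsTo (rho γ t) U U
  π_smooth : ContDiffOn ℝ ∞ π U
  π_maps : MapsTo π U M
  π_id : ∀ x ∈ M, π x = x
  π_eqv : ∀ t, ∀ x ∈ U, π (rho γ t x) = rho γ t (π x)
  P_symm : ∀ x ∈ M, ∀ u v, ⟪fderiv ℝ π x u, v⟫ = ⟪u, fderiv ℝ π x v⟫

/-- embedded Hamiltonian space -/
structure Emb (r : ℕ) (J : Type) [Fintype J] extends Ret r J where
  om : W J → W J →L[ℝ] W J →L[ℝ] ℝ
  om_cont : ContinuousOn om M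
  om_alt : ∀ x ∈ M, ∀ v, om x v v = 0
  om_P : ∀ x ∈ M, ∀ u v, om x (fderiv ℝ π x u) v = om x u v
  om_nondeg : ∀ x ∈ M, ∀ u, (∀ v, om x u v = 0) → fderiv ℝ π x u = 0
  om_inv : ∀ t, ∀ x ∈ M, ∀ u v, om (rho γ t x) (rho γ t u) (rho γ t v) = om x u v
  m : Fin r → W J → ℝ
  m_smooth : ∀ a, ContDiffOn ℝ ∞ (m a) U
  m_π : ∀ a, ∀ x ∈ U, m a (π x) = m a x
  m_inv : ∀ a t, ∀ x ∈ U, m a (rho γ t x) = m a x
  m_deriv : ∀ a, ∀ x ∈ M, ∀ v, fderiv ℝ (m a) x v = om x v (gen γ (Pi.single a 1) x)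

variable {r : ℕ} {J : Type} [Fintype J]

/-- projection onto the tangent space -/
def Ret.P (X : Ret r J) (x : W J) : W J →L[ℝ] W J := fderiv ℝ X.π x

/-- tangent space -/
def Ret.T (X : Ret r J) (x : W J) : Submodule ℝ (W J) := LinearMap.range (X.P x).toLinearMap

/-- fixed points -/
def Ret.Fix (X : Ret r J) : Set (W J) := {x | x ∈ X.M ∧ ∀ t, rho X.γ t x = x}

/-- `M ∩ W^Λ` -/
def Ret.Y (X : Ret r J) (Λ : AddSubgroup (Fin r → ℤ)) : Set (W J) :=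
  {x | x ∈ X.M ∧ ∀ j, X.γ j ∉ Λ → x j = 0}

/-- the component `ξ` of the moment map -/
def Emb.mx (X : Emb r J) (ξ : Fin r → ℝ) (x : W J) : ℝ := ∑ a, ξ a * X.m a x

def Emb.IsGKM (X : Emb r J) (n : ℕ) : Prop :=
  ∀ p ∈ X.Fix, ∃ (κ : (Fin n → ℂ) →L[ℝ] W J) (α : Fin n → Fin r → ℤ),
    LinearMap.range κ.toLinearMap = X.T p ∧
    (∀ a, a ≠ 0 → 0 < X.om p (κ a) (κ (Complex.I • a))) ∧
    (∀ (t : Fin r → ℝ) (a : Fin n → ℂ), rho X.γ t (κ a) =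
      κ (fun i => Complex.exp (2 * Real.pi * Complex.I * (pr (α i) t : ℝ)) * a i)) ∧
    (∀ i, α i ≠ 0) ∧
    ∀ i j, i ≠ j → ∀ k l : ℤ, k • α i + l • α j = 0 → k = 0 ∧ l = 0

def Emb.IsMonotone (X : Emb r J) (n : ℕ) (lam : ℝ) : Prop :=
  ∀ (u : ℝ × ℝ → W J) (p q : W J) (F : ℝ × ℝ → (Fin n → ℂ) →L[ℝ] W J)
    (A₀ A₁ : ℝ → Matrix (Fin n) (Fin n) ℂ) (L₀ L₁ : ℝ → ℂ),
    ContDiff ℝ ∞ u → (∀ x, u x ∈ X.M) →
    (∀ s θ, u (s, θ + 1) = u (s, θ)) →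
    (∀ s θ, s ≤ 0 → u (s, θ) = p) → (∀ s θ, 1 ≤ s → u (s, θ) = q) →
    ContinuousOn F (Icc 0 1 ×ˢ univ) →
    (∀ s ∈ Icc (0 : ℝ) 1, ∀ θ a, F (s, θ) a ∈ X.T (u (s, θ))) →
    (∀ s θ, F (s, θ + 1) = F (s, θ)) →
    (∀ s ∈ Icc (0 : ℝ) 1, ∀ θ a, a ≠ 0 →
      0 < X.om (u (s, θ)) (F (s, θ) a) (F (s, θ) (Complex.I • a))) →
    (∀ θ a, F (0, θ) a = F (0, 0) ((A₀ θ).mulVec a)) →
    (∀ θ a, F (1, θ) a = F (1, 0) ((A₁ θ).mulVec a)) →
    Continuous L₀ → Continuous L₁ →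
    (∀ θ, Complex.exp (L₀ θ) = (A₀ θ).det) → (∀ θ, Complex.exp (L₁ θ) = (A₁ θ).det) →
    (L₀ 1 - L₀ 0) - (L₁ 1 - L₁ 0) = 2 * Real.pi * Complex.I *
      ((lam * ∫ s in (0 : ℝ)..1, ∫ θ in (0 : ℝ)..1,
        X.om (u (s, θ)) (fderiv ℝ u (s, θ) (1, 0)) (fderiv ℝ u (s, θ) (0, 1)) : ℝ) : ℂ)

/-- the global hypotheses -/
structure Emb.Good (X : Emb r J) (n : ℕ) (lam : ℝ) : Prop where
  conn : IsPreconnected X.M
  fin : X.Fix.Finite
  gkm : X.IsGKM n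
  lam_pos : 0 < lam
  mono : X.IsMonotone n lam

/-- weight frame at a fixed point -/
structure WFrame (X : Emb r J) (p : W J) (K : Type) [Fintype K] where
  α : K → Fin r → ℤ
  κ : W K →L[ℝ] W J
  c : K → ℝ
  norm_κ : ∀ v, ‖κ v‖ = ‖v‖
  range_κ : LinearMap.range κ.toLinearMap = X.T p
  eqv : ∀ t v, κ (rho α t v) = rho X.γ t (κ v)
  c_pos : ∀ i, 0 < c i
  om_κ : ∀ u v, X.om p (κ u) (κ v) = ∑ i, c i * ((starRingEnd ℂ) (u i) * v i).im
  ne_zero : ∀ i, α i ≠ 0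

/-- equivariant chart at a fixed point -/
structure Chart (X : Emb r J) {p : W J} {K : Type} [Fintype K] (fr : WFrame X p K) where
  R : ℝ
  φ : W K → W J
  ψ : W J → W K
  O : Set (W J)
  R_pos : 0 < R
  φ_smooth : ContDiffOn ℝ ∞ φ (Metric.ball 0 R)
  φ_zero : φ 0 = p
  φ_deriv : fderiv ℝ φ 0 = fr.κ
  φ_eqv : ∀ t, ∀ v ∈ Metric.ball (0 : W K) R, φ (rho fr.α t v) = rho X.γ t (φ v)
  ψ_smooth : ContDiffOn ℝ ∞ ψ X.U
  ψ_π : ∀ y ∈ X.U, ψ (X.π y) = ψ y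
  ψ_eqv : ∀ t, ∀ y ∈ X.U, ψ (rho X.γ t y) = rho fr.α t (ψ y)
  O_open : IsOpen O
  O_sub : O ⊆ X.U
  O_inv : ∀ t, MapsTo (rho X.γ t) O O
  O_π : ∀ y ∈ X.U, y ∈ O ↔ X.π y ∈ O
  φ_mem : ∀ v ∈ Metric.ball (0 : W K) R, φ v ∈ X.M ∧ φ v ∈ O ∧ ψ (φ v) = v
  ψ_mem : ∀ y ∈ O, ψ y ∈ Metric.ball (0 : W K) R ∧ φ (ψ y) = X.π y

open Classical in
/-- positive and negative part of the model quadratic form -/
def Qp {K : Type} [Fintype K] (b : K → ℝ) (v : W K) : ℝ :=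
  ∑ i ∈ Finset.univ.filter (fun i => 0 < b i), b i * ‖v i‖ ^ 2

/-- invariant function that factors through the retraction -/
structure Ret.IsFn (X : Ret r J) (f : W J → ℝ) : Prop where
  smooth : ContDiffOn ℝ ∞ f X.U
  fπ : ∀ x ∈ X.U, f (X.π x) = f x
  inv : ∀ t, ∀ x ∈ X.U, f (rho X.γ t x) = f x

/-- invariant Morse function in normal form, `b p i` has the sign of `⟨α_i, ξ⟩` -/
structure MorseFn (X : Emb r J) (K : W J → Type) [∀ p, Fintype (K p)]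
    (fr : ∀ p ∈ X.Fix, WFrame X p (K p)) (ξ : Fin r → ℝ) where
  f : W J → ℝ
  isFn : X.IsFn f
  crit : ∀ x ∈ X.M, fderiv ℝ f x = 0 ↔ x ∈ X.Fix
  inj : InjOn f X.Fix
  order : ∀ p ∈ X.Fix, ∀ q ∈ X.Fix, X.mx ξ p < X.mx ξ q → f p < f q
  ch : ∀ p (hp : p ∈ X.Fix), Chart X (fr p hp)
  b : ∀ p, K p → ℝ
  b_pos : ∀ p (hp : p ∈ X.Fix) i, 0 < b p i * pr ((fr p hp).α i) ξ
  normal : ∀ p (hp : p ∈ X.Fix), ∀ v ∈ Metric.ball (0 : W (K p)) (ch p hp).R,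
    f ((ch p hp).φ v) = f p + Qp (b p) v - Qp (-b p) v

/-! ### Cartan forms -/

section Cartan
variable {F : Type} [NormedAddCommGroup F] [NormedSpace ℝ F] [FiniteDimensional ℝ F]
  [Module (SS r) F] [IsScalarTower ℝ (SS r) F]

/-- multiplication by a polynomial -/
def tA (s : SS r) : F →L[ℝ] F :=
  LinearMap.toContinuousLinearMap
    { toFun := fun x => s • x
      map_add' := fun x y => smul_add s x y
      map_smul' := fun c x => by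
        simp only [RingHom.id_apply]
        rw [← smul_one_smul (SS r) c x, ← smul_one_smul (SS r) c (s • x), smul_comm] }

/-- families of forms of all degrees -/
abbrev Form (J : Type) [Fintype J] (F : Type) [NormedAddCommGroup F] [NormedSpace ℝ F] : Type :=
  (j : ℕ) → W J → (W J [⋀^Fin j]→L[ℝ] F)

/-- `∑ t_a ι_a` -/
def iota (γ : J → Fin r → ℤ) {j : ℕ} (β : W J → (W J [⋀^Fin (j + 1)]→L[ℝ] F)) (x : W J) :
    W J [⋀^Fin j]→L[ℝ] F :=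
  ∑ a : Fin r, (tA (MvPolynomial.X a : SS r)).compContinuousAlternatingMap
    ((β x).curryLeft (gen γ (Pi.single a 1) x))

/-- the Cartan differential -/
def dT (γ : J → Fin r → ℤ) (β : Form J F) : Form J F
  | 0 => fun x => -iota γ (β 1) x
  | j + 1 => fun x => extDeriv (β j) x - iota γ (β (j + 2)) x

structure IsCartan (γ : J → Fin r → ℤ) (A : Set (W J)) (β : Form J F) : Prop where
  smooth : ∀ j, ContDiffOn ℝ ∞ (β j) A
  inv : ∀ j t, ∀ x ∈ A, (β j (rho γ t x)).compContinuousLinearMap (rho γ t) = β j x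
  bdd : ∃ N, ∀ j, N ≤ j → ∀ x ∈ A, β j x = 0

/-- even closed Cartan form -/
structure ECl (γ : J → Fin r → ℤ) (A : Set (W J)) (β : Form J F) : Prop where
  cartan : IsCartan γ A β
  even : ∀ j, Odd j → ∀ x ∈ A, β j x = 0
  closed : ∀ j, ∀ x ∈ A, dT γ β j x = 0

/-- the degree zero component -/
def val (β : Form J F) (x : W J) : F := β 0 x ![]

def pull {J' : Type} [Fintype J'] (g : W J' → W J) (β : Form J F) : Form J' F :=
  fun j x => (β j (g x)).compContinuousLinearMap (fderiv ℝ g x)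

end Cartan

/-- invariant open set -/
structure InvOpen (γ : J → Fin r → ℤ) (A : Set (W J)) : Prop where
  isOpen : IsOpen A
  inv : ∀ t, MapsTo (rho γ t) A A

/-- smooth equivariant map -/
structure EqvMap {J' : Type} [Fintype J'] (γ' : J' → Fin r → ℤ) (γ : J → Fin r → ℤ)
    (A' : Set (W J')) (A : Set (W J)) (g : W J' → W J) : Prop where
  smooth : ContDiffOn ℝ ∞ g A'
  maps : MapsTo g A' A
  eqv : ∀ t, ∀ x ∈ A', g (rho γ' t x) = rho γ t (g x)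

/-- invariant continuous complex structure on the tangent spaces, tamed by `ω` -/
structure ACS (X : Emb r J) where
  Jm : W J → W J →L[ℝ] W J
  cont : ContinuousOn Jm X.M
  mem : ∀ x ∈ X.M, ∀ v, Jm x v ∈ X.T x
  sq : ∀ x ∈ X.M, ∀ v ∈ X.T x, Jm x (Jm x v) = -v
  tame : ∀ x ∈ X.M, ∀ v ∈ X.T x, v ≠ 0 → 0 < X.om x v (Jm x v)
  inv : ∀ t, ∀ x ∈ X.M, ∀ v, Jm (rho X.γ t x) (rho X.γ t v) = rho X.γ t (Jm x v)

/-- complex frame of the tangent space at `x` -/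
structure IsCFrame {X : Emb r J} (A : ACS X) {n : ℕ} (x : W J) (F : (Fin n → ℂ) →L[ℝ] W J) :
    Prop where
  inj : Function.Injective F
  range : LinearMap.range F.toLinearMap = X.T x
  cx : ∀ a, F (Complex.I • a) = A.Jm x (F a)

/-- all data at the fixed points of a GKM space -/
structure Frames (X : Emb r J) (n : ℕ) where
  fr : ∀ p ∈ X.Fix, WFrame X p (Fin n)
  indep : ∀ p (hp : p ∈ X.Fix) i j, i ≠ j → ∀ a b : ℤ,
    a • (fr p hp).α i + b • (fr p hp).α j = 0 → a = 0 ∧ b = 0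

/-- `ξ` is generic -/
def Frames.Generic {X : Emb r J} {n : ℕ} (Fr : Frames X n) (ξ : Fin r → ℝ) : Prop :=
  (∀ j, X.γ j ≠ 0 → pr (X.γ j) ξ ≠ 0) ∧ ∀ p (hp : p ∈ X.Fix) i, pr ((Fr.fr p hp).α i) ξ ≠ 0

open Classical in
/-- polynomial Thom classes for `M ∩ W^Λ` -/
def Frames.ThomPoly {X : Emb r J} {n : ℕ} (Fr : Frames X n) : Prop :=
  ∀ (Λ : AddSubgroup (Fin r → ℤ)) (ξ : Fin r → ℝ), Fr.Generic ξ →
    ∃ o : W J → ℝ, InjOn o X.Fix ∧
      (∀ p ∈ X.Fix, ∀ q ∈ X.Fix, X.mx ξ p < X.mx ξ q → o p < o q) ∧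
      ∀ p (hp : p ∈ X.Fix), ∃ τ : W J → SS r,
        (∀ β ∈ Λ, ∀ x ∈ X.Fix, ∀ y ∈ X.Fix,
          y ∈ connectedComponentIn (X.Y (AddSubgroup.zmultiples β)) x → lin β ∣ τ x - τ y) ∧
        (∀ x ∈ X.Fix, ∀ y ∈ X.Fix, y ∈ connectedComponentIn (X.Y Λ) x →
          MvPolynomial.constantCoeff (τ x) = MvPolynomial.constantCoeff (τ y)) ∧
        τ p = ∏ i ∈ Finset.univ.filter
          (fun i => 0 < pr ((Fr.fr p hp).α i) ξ ∧ (Fr.fr p hp).α i ∈ Λ), lin ((Fr.fr p hp).α i) ∧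
        ∀ q ∈ X.Fix, o p < o q → τ q = 0

/-- the edges of the GKM graph -/
structure Edges {X : Emb r J} {n : ℕ} (Fr : Frames X n) where
  rev : X.Fix × Fin n → X.Fix × Fin n
  rev_rev : ∀ e, rev (rev e) = e
  α_rev : ∀ e, (Fr.fr _ (rev e).1.2).α (rev e).2 = -(Fr.fr _ e.1.2).α e.2
  comp : ∀ e, ((rev e).1 : W J) ∈
    connectedComponentIn (X.Y (AddSubgroup.zmultiples ((Fr.fr _ e.1.2).α e.2))) e.1
  mom : ∀ e, ∃ c : ℝ, 0 < c ∧ ∀ ξ,
    X.mx ξ (rev e).1 - X.mx ξ e.1 = c * pr ((Fr.fr _ e.1.2).α e.2) ξ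

end

end GK4850
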