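import Pool.Agent.Lib.MP_4850ea_gt.GK.A
import Pool.Agent.Lib.MP_4850ea_gt.GK.B1
import Pool.Agent.Lib.MP_4850ea_gt.GK.B2
import Pool.Agent.Lib.MP_4850ea_gt.GK.B3
import Pool.Agent.Lib.MP_4850ea_gt.GK.B4a
import Pool.Agent.Lib.MP_4850ea_gt.GK.B4b
import Pool.Agent.Lib.MP_4850ea_gt.GK.B6a
import Pool.Agent.Lib.MP_4850ea_gt.GK.B6b
import Pool.Agent.Lib.MP_4850ea_gt.GK.B6c
import Pool.Agent.Lib.MP_4850ea_gt.GK.B7a
import Pool.Agent.Lib.MP_4850ea_gt.GK.B7b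
import Pool.Agent.Lib.MP_4850ea_gt.GK.B8a
import Pool.Agent.Lib.MP_4850ea_gt.GK.B8b
import Pool.Agent.Lib.MP_4850ea_gt.GK.B9r
import Pool.Agent.Lib.MP_4850ea_gt.GK.B9a
import Pool.Agent.Lib.MP_4850ea_gt.GK.B9b
import Pool.Agent.Lib.MP_4850ea_gt.GK.B9c
import Pool.Agent.Lib.MP_4850ea_gt.GK.B9e
import Pool.Agent.Lib.MP_4850ea_gt.GK.B10
import Pool.Agent.Lib.MP_4850ea_gt.GK.B11

/-! Assembly of MP_4850ea_gt, GKM case. -/

namespace GK4850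

theorem thomPoly : B9aSt :=
  b9a b9r (b7a b4b b4c) (b8b b7b (b8a (b6b b6a) b6c b7b))

theorem main : MainSt :=
  MainSt_of partA b1 b2 b3
    (b11 b4a thomPoly (b9c b9b) (b9e thomPoly (b9c b9b) b9r b4b b4c) (b10 b9b b10p))

end GK4850
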